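import Pool.Agent.Bsw.Bor

/-!
# Arbitrary functions

For functions without any definability condition there is no small basis.
-/

set_option autoImplicit false

open Set Filter Topology TopologicalSpace
open scoped Classical Ordinal Cardinal

namespace Pool.Agent.Bsw

open Pool.Agent.Bs2 (BaireClass)

/-- An arbitrary function between zero-dimensional Polish spaces. -/
structure AnyFn where
  /-- the domain -/
  X : Type
  /-- the codomain -/
  Y : Type
  [topX : TopologicalSpace X]
  [topY : TopologicalSpace Y]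
  /-- the domain is Polish -/
  [polX : PolishSpace X]
  /-- the codomain is Polish -/
  [polY : PolishSpace Y]
  /-- the domain is zero-dimensional -/
  zeroX : IsTopologicalBasis {U : Set X | IsClopen U}
  /-- the codomain is zero-dimensional -/
  zeroY : IsTopologicalBasis {U : Set Y | IsClopen U}
  /-- the function -/
  f : X → Y

attribute [instance] AnyFn.topX AnyFn.topY AnyFn.polX AnyFn.polY

/-- `F` embeds in `G`: there are topological embeddings `σ` of the domains and `τ` of the images with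
`τ ∘ F = G ∘ σ`. -/
def AnyFn.Emb (F G : AnyFn) : Prop :=
  ∃ (σ : F.X → G.X) (τ : range F.f → range G.f), IsEmbedding σ ∧ IsEmbedding τ ∧
    ∀ x, (τ ⟨F.f x, mem_range_self x⟩ : G.Y) = G.f (σ x)

/-- MODULE an1 (size 2): perfect sets.

`exists_inj`: `IsClosed.exists_nat_bool_injection_of_not_countable` (or similar).
`not_borel`: suppose `A` is Borel.  `A` or `Aᶜ` is uncountable; by `MeasurableSet.isClopenable` there is a finer Polish topology in which it is closed; so there is an injective map `CC → A` (`→ Aᶜ`) which is continuous for the finer topology, so for the original one: contradiction with `h` for `b = false` (`b = true`). -/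
theorem exists_inj {X : Type} [TopologicalSpace X] [PolishSpace X] (h : ¬ Countable X) :
    ∃ γ : CC → X, Continuous γ ∧ Function.Injective γ := by
  obtain ⟨γ, -, h1, h2⟩ := IsClosed.exists_nat_bool_injection_of_not_countable (C := (univ : Set X))
    isClosed_univ (fun hc => h (countable_univ_iff.1 hc))
  exact ⟨γ, h1, h2⟩

private theorem an1_inj {A : Set CC} (hA : @MeasurableSet CC (borel CC) A) (hc : ¬ A.Countable) :
    ∃ γ : CC → CC, Continuous γ ∧ Function.Injective γ ∧ range γ ⊆ A := by
  let : MeasurableSpace CC := borel CC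
  have : BorelSpace CC := ⟨rfl⟩
  have : PolishSpace CC := { }
  obtain ⟨t', ht', hP, hcl, -⟩ := MeasurableSet.isClopenable (s := A) hA
  obtain ⟨γ, h1, h2, h3⟩ := @IsClosed.exists_nat_bool_injection_of_not_countable CC t' hP A hcl hc
  exact ⟨γ, continuous_le_rng ht' h2, h3, h1⟩

private theorem an1_card : #CC = 𝔠 := by
  simp

theorem not_borel {f : CC → Bool} (h : ∀ a : CC → CC, Continuous a → Function.Injective a → ∀ b, ∃ y, f (a y) = b) :
    ¬ @MeasurableSet CC (borel CC) (f ⁻¹' {true}) := by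
  intro hm
  have key : ∀ b : Bool, @MeasurableSet CC (borel CC) (f ⁻¹' {b}) → (f ⁻¹' {b}).Countable := by
    intro b hb
    by_contra hc
    obtain ⟨γ, h1, h2, h3⟩ := an1_inj hb hc
    obtain ⟨y, hy⟩ := h γ h1 h2 (!b)
    have h4 : f (γ y) = b := h3 (mem_range_self y)
    rw [h4] at hy
    cases b <;> simp at hy
  have h1 := key true hm
  have h2 : f ⁻¹' {false} = (f ⁻¹' {true})ᶜ := by
    ext x
    simp
  have h3 := key false (by rw [h2]; exact @MeasurableSet.compl CC _ (borel CC) hm)
  have h4 : (univ : Set CC).Countable := by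
    refine (h1.union h3).mono fun x _ => ?_
    cases hx : f x
    · exact Or.inr hx
    · exact Or.inl hx
  have h5 : Countable CC := countable_univ_iff.1 h4
  have h6 : #CC ≤ ℵ₀ := Cardinal.mk_le_aleph0_iff.2 h5
  rw [an1_card] at h6
  exact absurd h6 (not_le_of_gt Cardinal.aleph0_lt_continuum)

/-- MODULE an2 (size 3): fresh choices.

Proof.  Well-order `T` such that all initial segments have less than `𝔠` elements (`Cardinal.ord`, an injection of `T` into `𝔠.ord.ToType` or `Cardinal.ord_eq`).  By recursion choose `y t` such that `F t (y t)` is disjoint from the set `⋃_(t' < t) F t' (y t')`, which has less than `𝔠` elements (fewer than `𝔠` finite sets, `𝔠` is uncountable): the set of the bad `y` has less than `𝔠` elements by `hF`. -/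
theorem fresh {T W Y : Type} (hT : #T ≤ 𝔠) (hY : #Y = 𝔠) (F : T → Y → Finset W)
    (hF : ∀ t w, {y | w ∈ F t y}.Finite) :
    ∃ y : T → Y, ∀ t t', t ≠ t' → Disjoint (F t (y t)) (F t' (y t')) := by
  have hj : #T ≤ #(Cardinal.ord 𝔠).ToType := by
    rw [Cardinal.mk_ord_toType]
    exact hT
  obtain ⟨j⟩ := hj
  have hseg : ∀ t : T, #{t' : T // j t' < j t} < 𝔠 := by
    intro t
    have h0 : #(Iio (j t)) < 𝔠 := by
      have h1 := Cardinal.mk_Iio_lt (j t) (by rw [Cardinal.mk_ord_toType, Ordinal.type_toType])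
      rwa [Cardinal.mk_ord_toType] at h1
    refine lt_of_le_of_lt ?_ h0
    exact Cardinal.mk_le_of_injective (f := fun t' : {t' : T // j t' < j t} => (⟨j t'.1, t'.2⟩ : Iio (j t)))
      fun a b hab => Subtype.ext (j.injective (congrArg Subtype.val hab))
  have hex : ∀ (t : T) (p : {t' : T // j t' < j t} → Y), ∃ y, ∀ t', Disjoint (F t'.1 (p t')) (F t y) := by
    intro t p
    by_contra hcon
    push Not at hcon
    have h1 : (univ : Set Y) ⊆ ⋃ w : ↥(⋃ t' : {t' : T // j t' < j t}, (F t'.1 (p t') : Set W)),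
        {y | (w : W) ∈ F t y} := by
      intro y _
      obtain ⟨t', ht'⟩ := hcon y
      rw [Finset.not_disjoint_iff] at ht'
      obtain ⟨w, hw, hw'⟩ := ht'
      exact mem_iUnion.2 ⟨⟨w, mem_iUnion.2 ⟨t', hw⟩⟩, hw'⟩
    have h2 : #↥(⋃ t' : {t' : T // j t' < j t}, (F t'.1 (p t') : Set W)) < 𝔠 := by
      refine lt_of_le_of_lt (Cardinal.mk_iUnion_le _) ?_
      refine lt_of_le_of_lt (mul_le_mul' le_rfl (ciSup_le' fun t' => ?_))
        (Cardinal.mul_lt_of_lt Cardinal.aleph0_le_continuum (hseg t) Cardinal.aleph0_lt_continuum)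
      exact (Finset.countable_toSet _).le_aleph0
    have h3 : #↥(⋃ w : ↥(⋃ t' : {t' : T // j t' < j t}, (F t'.1 (p t') : Set W)),
        {y | (w : W) ∈ F t y}) < 𝔠 := by
      refine lt_of_le_of_lt (Cardinal.mk_iUnion_le _) ?_
      refine lt_of_le_of_lt (mul_le_mul' le_rfl (ciSup_le' fun w => ?_))
        (Cardinal.mul_lt_of_lt Cardinal.aleph0_le_continuum h2 Cardinal.aleph0_lt_continuum)
      exact (hF t w.1).countable.le_aleph0
    have h4 := (Cardinal.mk_le_mk_of_subset h1).trans_lt h3
    rw [Cardinal.mk_univ, hY] at h4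
    exact lt_irrefl _ h4
  choose g hg using hex
  have hwf : WellFounded fun t t' : T => j t < j t' := InvImage.wf j wellFounded_lt
  let y : T → Y := hwf.fix fun t ih => g t fun t' => ih t'.1 t'.2
  have hy : ∀ t, y t = g t fun t' => y t'.1 := fun t => hwf.fix_eq _ t
  have hd : ∀ t t', j t' < j t → Disjoint (F t' (y t')) (F t (y t)) := by
    intro t t' htt
    rw [hy t]
    exact hg t (fun t' => y t'.1) ⟨t', htt⟩
  refine ⟨y, fun t t' hne => ?_⟩
  rcases lt_trichotomy (j t) (j t') with h | h | h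
  · exact hd t' t h
  · exact absurd (j.injective h) hne
  · exact (hd t t' h).symm

private theorem an3_C : #{a : CC → CC // Continuous a ∧ Function.Injective a} ≤ 𝔠 := by
  have h1 : Function.Injective fun (a : {a : CC → CC // Continuous a ∧ Function.Injective a}) (n : ℕ) =>
      a.1 (denseSeq CC n) := by
    intro a b hab
    apply Subtype.ext
    refine (denseRange_denseSeq CC).equalizer a.2.1 b.2.1 ?_
    funext n
    exact congrFun hab n
  have h2 := Cardinal.mk_le_of_injective h1
  have h3 : #(ℕ → CC) = 𝔠 := by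
    rw [← Cardinal.power_def, an1_card, Cardinal.mk_nat, Cardinal.continuum_power_aleph0]
  rwa [h3] at h2

private theorem an3_card : #((CC × {a : CC → CC // Continuous a ∧ Function.Injective a} × Bool) ⊕
    (CC × CC × {a : CC → CC // Continuous a ∧ Function.Injective a} ×
      {a : CC → CC // Continuous a ∧ Function.Injective a} × (Bool → Bool))) ≤ 𝔠 := by
  have hm : ∀ {α β : Type}, #α ≤ 𝔠 → #β ≤ 𝔠 → #(α × β) ≤ 𝔠 := by
    intro α β h1 h2
    rw [Cardinal.mk_prod, Cardinal.lift_id, Cardinal.lift_id]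
    exact (mul_le_mul' h1 h2).trans_eq (Cardinal.mul_eq_self Cardinal.aleph0_le_continuum)
  have hb : #Bool ≤ 𝔠 := (Cardinal.mk_le_aleph0_iff.2 inferInstance).trans Cardinal.aleph0_le_continuum
  have hbb : #(Bool → Bool) ≤ 𝔠 :=
    (Cardinal.mk_le_aleph0_iff.2 inferInstance).trans Cardinal.aleph0_le_continuum
  rw [Cardinal.mk_sum, Cardinal.lift_id, Cardinal.lift_id]
  refine (add_le_add (hm an1_card.le (hm an3_C hb))
    (hm an1_card.le (hm an1_card.le (hm an3_C (hm an3_C hbb))))).trans_eq ?_
  exact Cardinal.add_eq_self Cardinal.aleph0_le_continuum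

/-- MODULE an3 (size 2): the family.

Proof.  `T = (CC × C × Bool) ⊕ (CC × CC × C × C × (Bool → Bool))` where `C` is the type of the continuous injective maps `CC → CC`; `#C ≤ 𝔠` (a continuous map is determined by its values on a countable dense set).  `W = CC × CC`, `Y = CC`; `F (inl (n, a, b)) y = {(n, a y)}`, `F (inr (n, m, a, a', ρ)) y = {(n, a y), (m, a' y)}` if `n ≠ m`, `∅` if `n = m`.  `fresh`.
`f n x` is determined by the unique `t` with `(n, x) ∈ F t (y t)` (`false` if there is none): for `inl (n, a, b)`: `b`; for `inr (n, m, a, a', ρ)`: `true` at `(n, a y)` and `!(ρ true)` at `(m, a' y)`. -/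
theorem exists_family : ∃ f : CC → CC → Bool,
    (∀ n (a : CC → CC), Continuous a → Function.Injective a → ∀ b, ∃ y, f n (a y) = b) ∧
      ∀ n m, n ≠ m → ∀ a a' : CC → CC, Continuous a → Function.Injective a → Continuous a' →
        Function.Injective a' → ∀ ρ : Bool → Bool, ∃ y, f m (a' y) ≠ ρ (f n (a y)) := by
  let C := {a : CC → CC // Continuous a ∧ Function.Injective a}
  let T := (CC × C × Bool) ⊕ (CC × CC × C × C × (Bool → Bool))
  let F : T → CC → Finset (CC × CC) := fun t y => match t with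
    | .inl s => {(s.1, s.2.1.1 y)}
    | .inr s => if s.1 = s.2.1 then ∅ else {(s.1, s.2.2.1.1 y), (s.2.1, s.2.2.2.1.1 y)}
  have hF : ∀ (t : T) (w : CC × CC), {y | w ∈ F t y}.Finite := by
    rintro (s | s) w
    · refine Set.Subsingleton.finite fun y hy y' hy' => ?_
      have h1 : w = (s.1, s.2.1.1 y) := Finset.mem_singleton.1 hy
      have h2 : w = (s.1, s.2.1.1 y') := Finset.mem_singleton.1 hy'
      rw [h1] at h2
      exact s.2.1.2.2 (congrArg Prod.snd h2)
    · by_cases hs : s.1 = s.2.1
      · have h1 : {y | w ∈ F (.inr s) y} = ∅ := by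
          ext y
          show w ∈ (if s.1 = s.2.1 then (∅ : Finset (CC × CC)) else _) ↔ False
          rw [if_pos hs]
          simp
        rw [h1]
        exact finite_empty
      · have h1 : {y | w ∈ F (.inr s) y} ⊆ {y | w = (s.1, s.2.2.1.1 y)} ∪ {y | w = (s.2.1, s.2.2.2.1.1 y)} := by
          intro y hy
          have h2 : w ∈ (if s.1 = s.2.1 then (∅ : Finset (CC × CC)) else
            {(s.1, s.2.2.1.1 y), (s.2.1, s.2.2.2.1.1 y)}) := hy
          rw [if_neg hs, Finset.mem_insert, Finset.mem_singleton] at h2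
          exact h2
        refine Finite.subset (Finite.union (Set.Subsingleton.finite fun y hy y' hy' => ?_)
          (Set.Subsingleton.finite fun y hy y' hy' => ?_)) h1
        · have h2 : w = (s.1, s.2.2.1.1 y) := hy
          have h3 : w = (s.1, s.2.2.1.1 y') := hy'
          rw [h2] at h3
          exact s.2.2.1.2.2 (congrArg Prod.snd h3)
        · have h2 : w = (s.2.1, s.2.2.2.1.1 y) := hy
          have h3 : w = (s.2.1, s.2.2.2.1.1 y') := hy'
          rw [h2] at h3
          exact s.2.2.2.1.2.2 (congrArg Prod.snd h3)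
  obtain ⟨y, hy⟩ := fresh (an3_card : #T ≤ 𝔠) an1_card F hF
  let val : T → CC → Bool := fun t k => match t with
    | .inl s => s.2.2
    | .inr s => if k = s.1 then true else !(s.2.2.2.2 true)
  let f : CC → CC → Bool := fun n x => if h : ∃ t, (n, x) ∈ F t (y t) then val h.choose n else false
  have hf : ∀ t n x, (n, x) ∈ F t (y t) → f n x = val t n := by
    intro t n x hx
    have h1 : ∃ t, (n, x) ∈ F t (y t) := ⟨t, hx⟩
    have h2 : f n x = val h1.choose n := dif_pos h1
    have h3 : h1.choose = t := by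
      by_contra hne
      exact Finset.disjoint_left.1 (hy _ _ hne) h1.choose_spec hx
    rw [h2, h3]
  refine ⟨f, ?_, ?_⟩
  · intro n a ha hai b
    refine ⟨y (.inl (n, ⟨a, ha, hai⟩, b)), ?_⟩
    rw [hf (.inl (n, ⟨a, ha, hai⟩, b)) n _ (Finset.mem_singleton.2 rfl)]
  · intro n m hnm a a' ha hai ha' hai' ρ
    refine ⟨y (.inr (n, m, ⟨a, ha, hai⟩, ⟨a', ha', hai'⟩, ρ)), ?_⟩
    have h0 : ∀ w, w ∈ F (.inr (n, m, ⟨a, ha, hai⟩, ⟨a', ha', hai'⟩, ρ))
        (y (.inr (n, m, ⟨a, ha, hai⟩, ⟨a', ha', hai'⟩, ρ))) ↔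
        w = (n, a (y (.inr (n, m, ⟨a, ha, hai⟩, ⟨a', ha', hai'⟩, ρ)))) ∨
          w = (m, a' (y (.inr (n, m, ⟨a, ha, hai⟩, ⟨a', ha', hai'⟩, ρ)))) := by
      intro w
      show w ∈ (if n = m then (∅ : Finset (CC × CC)) else {_, _}) ↔ _
      rw [if_neg hnm, Finset.mem_insert, Finset.mem_singleton]
    rw [hf (.inr (n, m, ⟨a, ha, hai⟩, ⟨a', ha', hai'⟩, ρ)) n _ ((h0 _).2 (Or.inl rfl)),
      hf (.inr (n, m, ⟨a, ha, hai⟩, ⟨a', ha', hai'⟩, ρ)) m _ ((h0 _).2 (Or.inr rfl))]
    have h1 : val (.inr (n, m, ⟨a, ha, hai⟩, ⟨a', ha', hai'⟩, ρ)) n = true := if_pos rfl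
    have h2 : val (.inr (n, m, ⟨a, ha, hai⟩, ⟨a', ha', hai'⟩, ρ)) m = !(ρ true) := if_neg fun h => hnm h.symm
    rw [h1, h2]
    cases ρ true <;> simp

/-- MODULE an4 (size 1): countable domains: every set is a countable union of points, points are closed (complements of open sets, `Sg.one_of_isOpen`), so all preimages are in `Sg 2`; `baireClass_of_Sg` with `α = 1`.  `BaireClass.mono'`: constant sequence. -/
theorem baireClass_countable {X Y : Type} [TopologicalSpace X] [TopologicalSpace Y] [PolishSpace X] [PolishSpace Y]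
    [Countable X] (hX : IsTopologicalBasis {U : Set X | IsClopen U}) (hY : IsTopologicalBasis {U : Set Y | IsClopen U})
    (f : X → Y) : BaireClass 1 f := by
  refine baireClass_of_Sg hY fun V _ => ?_
  rw [one_add_one_eq_two]
  have h1 : f ⁻¹' V = ⋃ x : ↥(f ⁻¹' V), ({(x : X)} : Set X) := by
    ext x
    simp
  rw [h1]
  refine Sg.iUnion (by norm_num) fun x => ?_
  have h2 : Sg 1 ({(x : X)}ᶜ : Set X) := Sg.one_of_isOpen hX isClosed_singleton.isOpen_compl
  have h3 := Sg.compl (β := 2) (by norm_num) h2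
  rwa [compl_compl] at h3

theorem baireClass_mono {X Y : Type} [TopologicalSpace X] [TopologicalSpace Y] {α β : Ordinal.{0}} (h : α ≤ β)
    {f : X → Y} (hf : BaireClass α f) : BaireClass β f := by
  rcases h.eq_or_lt with rfl | h
  · exact hf
  · exact BaireClass.lim (fun _ => f) (fun _ => α) (fun _ => h) (fun _ => hf) fun _ => tendsto_const_nhds

private theorem an5_zero : IsTopologicalBasis {U : Set CC | IsClopen U} :=
  loc_compact_Haus_tot_disc_of_zero_dim

private theorem an5_zeroB : IsTopologicalBasis {U : Set Bool | IsClopen U} :=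
  loc_compact_Haus_tot_disc_of_zero_dim

private theorem an5_not {α : Ordinal.{0}} {f : CC → Bool}
    (h : ∀ a : CC → CC, Continuous a → Function.Injective a → ∀ b, ∃ y, f (a y) = b) : ¬ BaireClass α f := by
  intro hb
  let _ : MeasurableSpace CC := borel CC
  have : BorelSpace CC := ⟨rfl⟩
  exact not_borel h (Sg_of_baireClass hb (isClopen_discrete {true})).measurableSet

private theorem an5_polish : PolishSpace CC := { }

private theorem an5_cardCC : #CC = 𝔠 := by
  simp

/-- MODULE an5 (size 2): every basis for arbitrary functions has at least continuum many elements.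

Proof.  `exists_family`: `f`.  `F n = (CC, Bool, f n)`: not of Baire class `α` (`Sg_of_baireClass` with `V = {true}`, `Sg.measurableSet`, `not_borel`).  Choose `i n` with `(B (i n)).Emb (F n)`.  It suffices that `i` is injective (`#CC = 𝔠`).  Suppose `i n = i m = i`, `n ≠ m`; `h = (B i).f`, embeddings `σ, τ` and `σ', τ'`.
`(B i).X` is uncountable (`baireClass_countable`, `baireClass_mono`); `γ` from `exists_inj`, `a = σ ∘ γ`, `a' = σ' ∘ γ`.  If `f n (a y) = f n (a y')` then `τ (h (γ y)) = τ (h (γ y'))`, so `h (γ y) = h (γ y')`, so `f m (a' y) = f m (a' y')`: there is `ρ : Bool → Bool` with `f m (a' y) = ρ (f n (a y))` for all `y`: contradiction. -/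
theorem no_basis {α : Ordinal.{0}} (h1 : 1 ≤ α) {ι : Type} (B : ι → AnyFn)
    (hB : ∀ i, ¬ BaireClass α (B i).f) (h : ∀ F : AnyFn, ¬ BaireClass α F.f → ∃ i, (B i).Emb F) : 𝔠 ≤ #ι := by
  have hP : PolishSpace CC := an5_polish
  obtain ⟨f, hf1, hf2⟩ := exists_family
  let F : CC → AnyFn := fun n =>
    { X := CC, Y := Bool, zeroX := an5_zero, zeroY := an5_zeroB, f := f n }
  have hF : ∀ n, ¬ BaireClass α (F n).f := fun n => an5_not (hf1 n)
  choose i hi using fun n => h (F n) (hF n)
  rw [← an5_cardCC]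
  refine Cardinal.mk_le_of_injective (f := i) fun n m hnm => ?_
  by_contra hne
  obtain ⟨σ, τ, hσ, hτ, hστ⟩ := hi n
  obtain ⟨σ', τ', hσ', hτ', hστ'⟩ := hi m
  revert σ' τ'
  rw [← hnm]
  intro σ' τ' hσ' hτ' hστ'
  have hunc : ¬ Countable (B (i n)).X := by
    intro hc
    exact hB (i n) (baireClass_mono h1 (baireClass_countable (B (i n)).zeroX (B (i n)).zeroY _))
  obtain ⟨γ, hγc, hγi⟩ := exists_inj hunc
  have key : ∀ y y', f n (σ (γ y)) = f n (σ (γ y')) → f m (σ' (γ y)) = f m (σ' (γ y')) := by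
    intro y y' hy
    have e1 : τ ⟨(B (i n)).f (γ y), mem_range_self _⟩ = τ ⟨(B (i n)).f (γ y'), mem_range_self _⟩ := by
      apply Subtype.ext
      rw [hστ, hστ]
      exact hy
    have e2 : (B (i n)).f (γ y) = (B (i n)).f (γ y') := congrArg Subtype.val (hτ.injective e1)
    have e3 := hστ' (γ y)
    have e4 := hστ' (γ y')
    have e5 : (⟨(B (i n)).f (γ y), mem_range_self _⟩ : range (B (i n)).f) =
        ⟨(B (i n)).f (γ y'), mem_range_self _⟩ := Subtype.ext e2
    rw [e5] at e3
    exact e3.symm.trans e4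
  have hρ : ∃ ρ : Bool → Bool, ∀ y, f m (σ' (γ y)) = ρ (f n (σ (γ y))) := by
    refine ⟨fun b => if hb : ∃ y, f n (σ (γ y)) = b then f m (σ' (γ hb.choose)) else true, fun y => ?_⟩
    have hb : ∃ y', f n (σ (γ y')) = f n (σ (γ y)) := ⟨y, rfl⟩
    change _ = dite _ _ _
    rw [dif_pos hb]
    exact key _ _ hb.choose_spec.symm
  obtain ⟨ρ, hρ⟩ := hρ
  obtain ⟨y, hy⟩ := hf2 n m hne (σ ∘ γ) (σ' ∘ γ) (hσ.continuous.comp hγc) (hσ.injective.comp hγi)
    (hσ'.continuous.comp hγc) (hσ'.injective.comp hγi) ρ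
  exact hy (hρ y)

end Pool.Agent.Bsw
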