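import Pool.Agent.Bsw.Cal
import Pool.Agent.Bs2.Stmt

/-!
# The additive Borel classes and the Baire classes

`Sg α A`: `A` is in the additive class `α`: `Sg 0` = clopen sets, `Sg α` = clopen sets and countable unions of complements of sets of smaller classes.
-/

set_option autoImplicit false

open Set Filter Topology TopologicalSpace
open scoped Classical

namespace Pool.Agent.Bsw

open Pool.Agent.Bs2 (BaireClass BorelFn)

/-- The additive classes, starting with the clopen sets. -/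
inductive Sg {X : Type} [TopologicalSpace X] : Ordinal.{0} → Set X → Prop
  | clopen {α : Ordinal.{0}} {A : Set X} : IsClopen A → Sg α A
  | union {α : Ordinal.{0}} (B : ℕ → Set X) (β : ℕ → Ordinal.{0}) : (∀ n, β n < α) → (∀ n, Sg (β n) (B n)) →
      Sg α (⋃ n, (B n)ᶜ)

/-- The ambiguous classes. -/
def De {X : Type} [TopologicalSpace X] (α : Ordinal.{0}) (A : Set X) : Prop := Sg α A ∧ Sg α Aᶜ

variable {X Y : Type} [TopologicalSpace X] [TopologicalSpace Y]

/-- MODULE bo1 (size 2): closure properties.  (`Sg.iUnion`, `1 ≤ α`: a clopen set is `(Aᶜ)ᶜ`, so all sets of class `α` are unions of sequences of complements of sets of smaller class; combine the sequences.  `Sg.union`, `Sg.inter`: for `α = 0` clopen sets;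
`(⋃ (B n)ᶜ) ∩ (⋃ (C m)ᶜ) = ⋃ (B n ∪ C m)ᶜ`, and `B n ∪ C m` is of the class `max (β n) (γ m) < α`.) -/
theorem Sg.mono {α β : Ordinal.{0}} (h : α ≤ β) {A : Set X} (hA : Sg α A) : Sg β A := by
  cases hA with
  | clopen h1 => exact Sg.clopen h1
  | union B b hb hB => exact Sg.union B b (fun n => (hb n).trans_le h) hB

theorem Sg.compl {α β : Ordinal.{0}} (h : α < β) {A : Set X} (hA : Sg α A) : Sg β Aᶜ := by
  have h1 := Sg.union (fun _ : ℕ => A) (fun _ => α) (fun _ => h) (fun _ => hA)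
  rwa [iUnion_const] at h1

private theorem bo1_exists_union {α : Ordinal.{0}} (hα : 1 ≤ α) {A : Set X} (hA : Sg α A) :
    ∃ (B : ℕ → Set X) (β : ℕ → Ordinal.{0}), (∀ n, β n < α) ∧ (∀ n, Sg (β n) (B n)) ∧ A = ⋃ n, (B n)ᶜ := by
  cases hA with
  | clopen h1 =>
    refine ⟨fun _ => Aᶜ, fun _ => 0, fun _ => lt_of_lt_of_le zero_lt_one hα, fun _ => Sg.clopen h1.compl, ?_⟩
    rw [iUnion_const, compl_compl]
  | union B b hb hB => exact ⟨B, b, hb, hB, rfl⟩

private theorem bo1_zero {A : Set X} (hA : Sg 0 A) : IsClopen A := by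
  cases hA with
  | clopen h1 => exact h1
  | union B b hb hB => exact absurd (hb 0) (not_lt_of_ge zero_le)

theorem Sg.iUnion {α : Ordinal.{0}} (hα : 1 ≤ α) {ι : Type} [Countable ι] {A : ι → Set X} (hA : ∀ i, Sg α (A i)) :
    Sg α (⋃ i, A i) := by
  rcases isEmpty_or_nonempty ι with hι | hι
  · rw [iUnion_of_empty]
    exact Sg.clopen isClopen_empty
  · choose B b hb hB hAB using fun i => bo1_exists_union hα (hA i)
    obtain ⟨e, he⟩ := exists_surjective_nat (ι × ℕ)
    have h1 : (⋃ i, A i) = ⋃ n, (B (e n).1 (e n).2)ᶜ := by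
      ext x
      simp only [mem_iUnion]
      constructor
      · rintro ⟨i, hi⟩
        rw [hAB i, mem_iUnion] at hi
        obtain ⟨m, hm⟩ := hi
        obtain ⟨n, hn⟩ := he (i, m)
        exact ⟨n, by rw [hn]; exact hm⟩
      · rintro ⟨n, hn⟩
        refine ⟨(e n).1, ?_⟩
        rw [hAB, mem_iUnion]
        exact ⟨_, hn⟩
    rw [h1]
    exact Sg.union _ (fun n => b (e n).1 (e n).2) (fun n => hb _ _) (fun n => hB _ _)

theorem Sg.union' {α : Ordinal.{0}} {A B : Set X} (hA : Sg α A) (hB : Sg α B) : Sg α (A ∪ B) := by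
  rcases lt_or_ge α 1 with h | h
  · have h0 : α = 0 := Ordinal.lt_one_iff_zero.1 h
    subst h0
    exact Sg.clopen ((bo1_zero hA).union (bo1_zero hB))
  · rw [union_eq_iUnion]
    refine Sg.iUnion h fun i => ?_
    cases i
    · exact hB
    · exact hA

theorem Sg.inter {α : Ordinal.{0}} {A B : Set X} (hA : Sg α A) (hB : Sg α B) : Sg α (A ∩ B) := by
  rcases lt_or_ge α 1 with h | h
  · have h0 : α = 0 := Ordinal.lt_one_iff_zero.1 h
    subst h0
    exact Sg.clopen ((bo1_zero hA).inter (bo1_zero hB))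
  · obtain ⟨C, c, hc, hC, rfl⟩ := bo1_exists_union h hA
    obtain ⟨D, d, hd, hD, rfl⟩ := bo1_exists_union h hB
    have h1 : (⋃ n, (C n)ᶜ) ∩ (⋃ n, (D n)ᶜ) = ⋃ p : ℕ × ℕ, (C p.1 ∪ D p.2)ᶜ := by
      ext x
      simp only [mem_inter_iff, mem_iUnion, mem_compl_iff, mem_union, not_or, Prod.exists]
      constructor
      · rintro ⟨⟨n, hn⟩, m, hm⟩
        exact ⟨n, m, hn, hm⟩
      · rintro ⟨n, m, hn, hm⟩
        exact ⟨⟨n, hn⟩, m, hm⟩
    rw [h1]
    exact Sg.iUnion h fun p => Sg.compl (max_lt (hc p.1) (hd p.2))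
      (Sg.union' ((hC p.1).mono (le_max_left _ _)) ((hD p.2).mono (le_max_right _ _)))

theorem Sg.preimage {α : Ordinal.{0}} {A : Set Y} (hA : Sg α A) {g : X → Y} (hg : Continuous g) : Sg α (g ⁻¹' A) := by
  induction hA with
  | clopen h => exact Sg.clopen (h.preimage hg)
  | union B b hb hB ih =>
    rw [preimage_iUnion]
    exact Sg.union (fun n => g ⁻¹' B n) b hb ih

theorem Sg.measurableSet [MeasurableSpace X] [BorelSpace X] {α : Ordinal.{0}} {A : Set X} (hA : Sg α A) :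
    MeasurableSet A := by
  induction hA with
  | clopen h => exact h.isOpen.measurableSet
  | union B b hb hB ih => exact MeasurableSet.iUnion fun n => (ih n).compl

/-- In the case `α ≥ 1` a set of the class `α` is a union of complements. -/
theorem Sg.exists_union {α : Ordinal.{0}} (hα : 1 ≤ α) {A : Set X} (hA : Sg α A) :
    ∃ (B : ℕ → Set X) (β : ℕ → Ordinal.{0}), (∀ n, β n < α) ∧ (∀ n, Sg (β n) (B n)) ∧ A = ⋃ n, (B n)ᶜ :=
  bo1_exists_union hα hA

private theorem bo1_open [SecondCountableTopology X] (hX : IsTopologicalBasis {U : Set X | IsClopen U})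
    {A : Set X} (hA : IsOpen A) : ∃ S : Set (Set X), S.Countable ∧ (∀ s ∈ S, IsClopen s) ∧
      A = ⋃ s : S, (s : Set X) := by
  obtain ⟨T, hT, hTc, hTb⟩ := hX.exists_countable
  refine ⟨{s ∈ T | s ⊆ A}, hTc.mono fun s hs => hs.1, fun s hs => hT hs.1, ?_⟩
  rw [← sUnion_eq_iUnion]
  exact hTb.open_eq_sUnion' hA

theorem Sg.one_of_isOpen [SecondCountableTopology X] (hX : IsTopologicalBasis {U : Set X | IsClopen U}) {A : Set X}
    (hA : IsOpen A) : Sg 1 A := by
  obtain ⟨S, hS, hSc, rfl⟩ := bo1_open hX hA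
  have : Countable S := hS.to_subtype
  exact Sg.iUnion le_rfl fun s => Sg.clopen (hSc s.1 s.2)

theorem Sg.isOpen_of_one {A : Set X} (hA : Sg 1 A) : IsOpen A := by
  cases hA with
  | clopen h => exact h.isOpen
  | union B b hb hB =>
    refine isOpen_iUnion fun n => ?_
    have h0 : b n = 0 := Ordinal.lt_one_iff_zero.1 (hb n)
    have h1 := hB n
    rw [h0] at h1
    exact (bo1_zero h1).compl.isOpen

/-- MODULE bo2 (size 1): ambiguous classes. (`De.of_partition`: `A i` is a complement of a set of class `α`, so of class `α + 1`, and `(A i)ᶜ = Uᶜ ∪ ⋃_(j ≠ i) A j`.) -/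
theorem De.compl {α : Ordinal.{0}} {A : Set X} (h : De α A) : De α Aᶜ :=
  ⟨h.2, by rw [compl_compl]; exact h.1⟩

theorem De.inter {α : Ordinal.{0}} {A B : Set X} (h : De α A) (h' : De α B) : De α (A ∩ B) :=
  ⟨h.1.inter h'.1, by rw [compl_inter]; exact h.2.union' h'.2⟩

theorem De.union {α : Ordinal.{0}} {A B : Set X} (h : De α A) (h' : De α B) : De α (A ∪ B) :=
  ⟨h.1.union' h'.1, by rw [compl_union]; exact h.2.inter h'.2⟩

theorem De.mono {α β : Ordinal.{0}} (h : α ≤ β) {A : Set X} (hA : De α A) : De β A :=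
  ⟨hA.1.mono h, hA.2.mono h⟩

theorem De.of_clopen {α : Ordinal.{0}} {A : Set X} (hA : IsClopen A) : De α A :=
  ⟨Sg.clopen hA, Sg.clopen hA.compl⟩

theorem De.of_lt {α β : Ordinal.{0}} (h : α < β) {A : Set X} (hA : Sg α A) : De β A :=
  ⟨hA.mono h.le, hA.compl h⟩

private theorem bo2_lt (α : Ordinal.{0}) : α < α + 1 := by
  rw [Ordinal.add_one_eq_succ]
  exact Order.lt_succ α

private theorem bo2_one (α : Ordinal.{0}) : 1 ≤ α + 1 := by
  exact le_add_self

theorem De.of_partition {α : Ordinal.{0}} {ι : Type} [Countable ι] {A : ι → Set X} {U : Set X}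
    (hA : ∀ i, Sg α (A i)ᶜ) (hd : Pairwise fun i j => Disjoint (A i) (A j)) (hU : De (α + 1) U) (h : ⋃ i, A i = U)
    (i : ι) : De (α + 1) (A i) := by
  have h1 : ∀ j, Sg (α + 1) (A j) := fun j => by
    have h2 := (hA j).compl (bo2_lt α)
    rwa [compl_compl] at h2
  refine ⟨h1 i, ?_⟩
  have h3 : (A i)ᶜ = Uᶜ ∪ ⋃ j : {j // j ≠ i}, A j.1 := by
    ext x
    simp only [mem_compl_iff, mem_union, mem_iUnion, Subtype.exists, exists_prop]
    constructor
    · intro hx
      by_cases hxU : x ∈ U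
      · rw [← h, mem_iUnion] at hxU
        obtain ⟨j, hj⟩ := hxU
        refine Or.inr ⟨j, fun hji => hx (hji ▸ hj), hj⟩
      · exact Or.inl hxU
    · rintro (hx | ⟨j, hj, hxj⟩) hxi
      · exact hx (h ▸ mem_iUnion.2 ⟨i, hxi⟩)
      · exact (Set.disjoint_left.1 (hd hj)) hxj hxi
  rw [h3]
  exact hU.2.union' (Sg.iUnion (bo2_one α) fun j => h1 j.1)

/-- MODULE bo3 (size 1): preimages under functions of Baire class `α`.

Proof.  Induction on `BaireClass`.  Continuous: clopen preimage.  Limit: `f ⁻¹' V = ⋃_N ⋂_(n ≥ N) (g n) ⁻¹' V` (`V` clopen, see `Bs2/Bc.lean` `b1_lim`); `(g n) ⁻¹' V` and its complement `(g n) ⁻¹' Vᶜ` are of class `β n + 1 ≤ α`; `⋂_(n ≥ N)` is the complement of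
`⋃_(n ≥ N) (g n) ⁻¹' Vᶜ` of class `α` (`α ≥ 1`), so `f ⁻¹' V` is of class `α + 1`. -/
theorem Sg_of_baireClass {α : Ordinal.{0}} {f : X → Y} (h : BaireClass α f) {V : Set Y} (hV : IsClopen V) :
    Sg (α + 1) (f ⁻¹' V) := by
  induction h generalizing V with
  | zero hf => exact Sg.clopen (hV.preimage hf)
  | @lim α f g b hb hg hlim ih =>
    have hα : 1 ≤ α := Order.one_le_iff_pos.2 (lt_of_le_of_lt zero_le (hb 0))
    have h1 : f ⁻¹' V = ⋃ N : ℕ, (⋃ n : ℕ, (g (N + n)) ⁻¹' Vᶜ)ᶜ := by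
      ext x
      simp only [mem_preimage, mem_iUnion, mem_compl_iff, not_exists, not_not]
      constructor
      · intro hx
        have h2 := (hlim x).eventually (hV.isOpen.mem_nhds hx)
        obtain ⟨N, hN⟩ := eventually_atTop.1 h2
        exact ⟨N, fun n => hN _ (Nat.le_add_right _ _)⟩
      · rintro ⟨N, hN⟩
        refine hV.isClosed.mem_of_tendsto (hlim x) (eventually_atTop.2 ⟨N, fun n hn => ?_⟩)
        obtain ⟨k, rfl⟩ := Nat.exists_eq_add_of_le hn
        exact hN k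
    rw [h1]
    refine Sg.iUnion (bo2_one α) fun N => Sg.compl (bo2_lt α) (Sg.iUnion hα fun n => ?_)
    refine (ih (N + n) hV.compl).mono ?_
    rw [Ordinal.add_one_eq_succ]
    exact Order.succ_le_of_lt (hb _)

theorem Sg_of_baireClass_open [SecondCountableTopology Y] (hY : IsTopologicalBasis {U : Set Y | IsClopen U})
    {α : Ordinal.{0}} {f : X → Y} (h : BaireClass α f) {V : Set Y} (hV : IsOpen V) : Sg (α + 1) (f ⁻¹' V) := by
  obtain ⟨S, hS, hSc, rfl⟩ := bo1_open hY hV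
  have : Countable S := hS.to_subtype
  rw [preimage_iUnion]
  exact Sg.iUnion (bo2_one α) fun s => Sg_of_baireClass h (hSc s.1 s.2)

private theorem bo4_fin {κ : Ordinal.{0}} {T : Type} [Finite T] {D : T → Set X} (hD : ∀ t, De κ (D t)) (b : T → Prop) :
    Sg κ {x | ∀ t, x ∈ D t ↔ b t} := by
  have := Fintype.ofFinite T
  have h : ∀ s : Finset T, Sg κ {x | ∀ t ∈ s, (x ∈ D t ↔ b t)} := by
    intro s
    induction s using Finset.induction_on with
    | empty =>
      have e : {x : X | ∀ t ∈ (∅ : Finset T), (x ∈ D t ↔ b t)} = univ := by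
        ext x
        simp
      rw [e]
      exact Sg.clopen isClopen_univ
    | insert a s ha ih =>
      have e : {x : X | ∀ t ∈ insert a s, (x ∈ D t ↔ b t)} =
          {x | x ∈ D a ↔ b a} ∩ {x | ∀ t ∈ s, (x ∈ D t ↔ b t)} := by
        ext x
        simp [Finset.forall_mem_insert]
      rw [e]
      refine Sg.inter ?_ ih
      by_cases hb : b a
      · have e2 : {x : X | x ∈ D a ↔ b a} = D a := by
          ext x
          simp [hb]
        rw [e2]
        exact (hD a).1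
      · have e2 : {x : X | x ∈ D a ↔ b a} = (D a)ᶜ := by
          ext x
          simp [hb]
        rw [e2]
        exact (hD a).2
  have e : {x : X | ∀ t, x ∈ D t ↔ b t} = {x | ∀ t ∈ (Finset.univ : Finset T), (x ∈ D t ↔ b t)} := by
    ext x
    simp
  rw [e]
  exact h _

private theorem bo4_factor {κ : Ordinal.{0}} (hκ : 1 ≤ κ) {T : Type} [Finite T] {D : T → Set X}
    (hD : ∀ t, De κ (D t)) (Q : Set (T → Prop)) : Sg κ {x | (fun t => x ∈ D t) ∈ Q} := by
  have e : {x : X | (fun t => x ∈ D t) ∈ Q} = ⋃ b : Q, {x | ∀ t, x ∈ D t ↔ b.1 t} := by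
    ext x
    simp only [mem_setOf_eq, mem_iUnion]
    constructor
    · intro h
      exact ⟨⟨_, h⟩, fun t => Iff.rfl⟩
    · rintro ⟨b, hb⟩
      have : (fun t => x ∈ D t) = b.1 := by
        funext t
        exact propext (hb t)
      rw [this]
      exact b.2
  rw [e]
  exact Sg.iUnion hκ fun b => bo4_fin hD b.1

/-- a double representation -/
private theorem bo4_rep {α : Ordinal.{0}} (hα : 1 ≤ α) {A : Set X} (hA : Sg (α + 1) A) :
    ∃ (C : ℕ → ℕ → Set X) (γ : ℕ → ℕ → Ordinal.{0}), (∀ j m, γ j m < α) ∧ (∀ j m, Sg (γ j m) (C j m)) ∧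
      A = ⋃ j, ⋂ m, C j m := by
  obtain ⟨B, β, h1, h2, rfl⟩ := Sg.exists_union (α := α + 1) (le_trans hα le_self_add) hA
  have h3 : ∀ j, Sg α (B j) := fun j => Sg.mono (Order.lt_add_one_iff.1 (h1 j)) (h2 j)
  choose C γ h4 h5 h6 using fun j => Sg.exists_union hα (h3 j)
  refine ⟨C, γ, h4, h5, ?_⟩
  refine iUnion_congr fun j => ?_
  rw [h6 j, compl_iUnion]
  simp only [compl_compl]

/-- MODULE bo4 (size 3): the converse.

Proof.  Strong induction on `α`.  `α = 0`: preimages of clopen sets are open.  Let `α > 0` and let `V i`, `i : ℕ`, be a basis of clopen sets of `Y`.  The sets `f ⁻¹' V i` and `f ⁻¹' (V i)ᶜ` are of class `α + 1`: `f ⁻¹' V i = ⋃ j, R i (2j)`, `f ⁻¹' (V i)ᶜ = ⋃ j, R i (2j+1)` where `R i s = ⋂ m, C i s m` and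
`C i s m` is of a class `γ i s m < α` (twice `Sg.exists_union`: `(f ⁻¹' V i) = ⋃ (B j)ᶜ`, `B j` of class `≤ α`, so `B j = ⋃ m, (C j m)ᶜ`).  Let `R i s [n] = ⋂_(m ≤ n) C i s m`, decreasing in `n`.  For `x` and `n` let `s_n^i (x)` be the least `s ≤ n` with `x ∈ R i s [n]` (or `0` if there is none); it is eventually the least `s` with `x ∈ R i s`, which is even iff
`f x ∈ V i`.  Let `f_n (x)` be a chosen point of `⋂_(i < m) W i` with `W i = V i` or `(V i)ᶜ` according to the parity of `s_n^i (x)`, `m ≤ n` maximal with this intersection nonempty (`Y` is nonempty).  Then `f_n (x) → f x`: for every `i` and all large `n` the parities are right for all `i' ≤ i`, so the intersection for `m = i + 1` contains `f x`, and `f_n x ∈ V i ↔ f x ∈ V i`.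
`f_n x` depends only on the truth values of `x ∈ C i s m` for `i, s, m ≤ n`, so its preimages are finite Boolean combinations of these sets, of class `β + 1` where `β = max γ i s m < α` (`De (β + 1)`).  By induction `f_n` is of Baire class `β`.  (If `X` is empty everything is trivial.) -/
theorem baireClass_of_Sg [SecondCountableTopology Y] (hY : IsTopologicalBasis {U : Set Y | IsClopen U})
    {α : Ordinal.{0}} {f : X → Y} (h : ∀ V : Set Y, IsClopen V → Sg (α + 1) (f ⁻¹' V)) : BaireClass α f := by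
  induction α using WellFoundedLT.induction generalizing f with
  | ind α IH =>
  rcases isEmpty_or_nonempty X with hX | ⟨⟨x0⟩⟩
  · have hc : Continuous f := continuous_iff_continuousAt.2 fun x => (hX.false x).elim
    rcases eq_or_ne α 0 with rfl | hα
    · exact BaireClass.zero hc
    · exact BaireClass.lim (fun _ => f) (fun _ => 0) (fun _ => pos_iff_ne_zero.2 hα)
        (fun _ => BaireClass.zero hc) fun x => tendsto_const_nhds
  rcases eq_or_ne α 0 with rfl | hα0
  · refine BaireClass.zero (hY.continuous_iff.2 fun V hV => ?_)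
    have := h V hV
    rw [zero_add] at this
    exact Sg.isOpen_of_one this
  have hα : 1 ≤ α := Order.one_le_iff_pos.2 (pos_iff_ne_zero.2 hα0)
  -- a countable basis
  obtain ⟨B', hB1, hB2, hB3⟩ := hY.exists_countable
  have hS : (insert (univ : Set Y) B').Countable := hB2.insert _
  obtain ⟨V, hV⟩ := hS.exists_eq_range ⟨univ, mem_insert _ _⟩
  have hVc : ∀ i, IsClopen (V i) := by
    intro i
    have : V i ∈ insert (univ : Set Y) B' := by rw [hV]; exact mem_range_self i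
    rcases this with h1 | h1
    · rw [h1]; exact isClopen_univ
    · exact hB1 h1
  have hVb : ∀ y : Y, ∀ U ∈ 𝓝 y, ∃ i, y ∈ V i ∧ V i ⊆ U := by
    intro y U hU
    obtain ⟨W, hW, hy, hWU⟩ := hB3.mem_nhds_iff.1 hU
    have : W ∈ range V := by rw [← hV]; exact mem_insert_of_mem _ hW
    obtain ⟨i, rfl⟩ := this
    exact ⟨i, hy, hWU⟩
  -- representations
  choose C1 γ1 a1 a2 a3 using fun i => bo4_rep hα (h (V i) (hVc i))
  choose C2 γ2 b1 b2 b3 using fun i => bo4_rep hα (h (V i)ᶜ (hVc i).compl)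
  let D : ℕ → ℕ → ℕ → Set X := fun i s m => if s % 2 = 0 then C1 i (s / 2) m else C2 i (s / 2) m
  let γ : ℕ → ℕ → ℕ → Ordinal.{0} := fun i s m => if s % 2 = 0 then γ1 i (s / 2) m else γ2 i (s / 2) m
  have hγ : ∀ i s m, γ i s m < α := by
    intro i s m
    show (if s % 2 = 0 then γ1 i (s / 2) m else γ2 i (s / 2) m) < α
    split_ifs
    · exact a1 _ _ _
    · exact b1 _ _ _
  have hD : ∀ i s m, Sg (γ i s m) (D i s m) := by
    intro i s m
    show Sg (if s % 2 = 0 then γ1 i (s / 2) m else γ2 i (s / 2) m)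
      (if s % 2 = 0 then C1 i (s / 2) m else C2 i (s / 2) m)
    split_ifs
    · exact a2 _ _ _
    · exact b2 _ _ _
  have hDe : ∀ i s x, s % 2 = 0 → (∀ m, x ∈ D i s m) → f x ∈ V i := by
    intro i s x hs hx
    have : x ∈ f ⁻¹' V i := by
      rw [a3 i, mem_iUnion]
      refine ⟨s / 2, mem_iInter.2 fun m => ?_⟩
      have := hx m
      simp only [D, if_pos hs] at this
      exact this
    exact this
  have hDo : ∀ i s x, ¬ s % 2 = 0 → (∀ m, x ∈ D i s m) → f x ∉ V i := by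
    intro i s x hs hx
    have : x ∈ f ⁻¹' (V i)ᶜ := by
      rw [b3 i, mem_iUnion]
      refine ⟨s / 2, mem_iInter.2 fun m => ?_⟩
      have := hx m
      simp only [D, if_neg hs] at this
      exact this
    exact this
  have hex : ∀ i x, ∃ s, ∀ m, x ∈ D i s m := by
    intro i x
    by_cases hx : f x ∈ V i
    · have : x ∈ f ⁻¹' V i := hx
      rw [a3 i, mem_iUnion] at this
      obtain ⟨j, hj⟩ := this
      refine ⟨2 * j, fun m => ?_⟩
      have hj2 := mem_iInter.1 hj m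
      simp only [D]
      rw [if_pos (by omega), show 2 * j / 2 = j by omega]
      exact hj2
    · have : x ∈ f ⁻¹' (V i)ᶜ := hx
      rw [b3 i, mem_iUnion] at this
      obtain ⟨j, hj⟩ := this
      refine ⟨2 * j + 1, fun m => ?_⟩
      have hj2 := mem_iInter.1 hj m
      simp only [D]
      rw [if_neg (by omega), show (2 * j + 1) / 2 = j by omega]
      exact hj2
  -- the approximation of the truth value
  let T : ℕ → Type := fun n => Fin (n + 1) × Fin (n + 1) × Fin (n + 1)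
  let P : ∀ n, (T n → Prop) → ℕ → Prop := fun n b i => ∃ hi : i < n + 1, ∃ s : Fin (n + 1),
    (∀ m : Fin (n + 1), b (⟨i, hi⟩, s, m)) ∧ (s : ℕ) % 2 = 0 ∧
      ∀ s' : Fin (n + 1), s' < s → ¬ ∀ m : Fin (n + 1), b (⟨i, hi⟩, s', m)
  let G : ∀ n, (T n → Prop) → ℕ → Prop := fun n b k => ∃ y : Y, ∀ i < k, (y ∈ V i ↔ P n b i)
  have hG0 : ∀ n b, G n b 0 := fun n b => ⟨f x0, fun i hi => absurd hi (Nat.not_lt_zero i)⟩
  let M : ∀ n, (T n → Prop) → ℕ := fun n b => Nat.findGreatest (G n b) n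
  have hM : ∀ n b, G n b (M n b) := fun n b => Nat.findGreatest_spec (Nat.zero_le n) (hG0 n b)
  choose pick hpick using hM
  let g : ℕ → X → Y := fun n x => pick n fun t => x ∈ D t.1 t.2.1 t.2.2
  -- convergence of the truth values
  have hconv : ∀ i x, ∀ᶠ n in atTop, (P n (fun t => x ∈ D t.1 t.2.1 t.2.2) i ↔ f x ∈ V i) := by
    intro i x
    let s0 := Nat.find (hex i x)
    have hs0 : ∀ m, x ∈ D i s0 m := Nat.find_spec (hex i x)
    have hs1 : ∀ s < s0, ∃ m, x ∉ D i s m := by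
      intro s hs
      have := Nat.find_min (hex i x) hs
      push Not at this
      exact this
    choose! mm hmm using hs1
    obtain ⟨N, hN⟩ : ∃ N, ∀ s < s0, mm s ≤ N := by
      refine ⟨(Finset.range s0).sup mm, fun s hs => Finset.le_sup (Finset.mem_range.2 hs)⟩
    filter_upwards [eventually_ge_atTop (max N (max s0 i))] with n hn
    have hn1 : N ≤ n := (le_max_left _ _).trans hn
    have hn2 : s0 ≤ n := ((le_max_left _ _).trans (le_max_right _ _)).trans hn
    have hn3 : i ≤ n := ((le_max_right _ _).trans (le_max_right _ _)).trans hn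
    constructor
    · rintro ⟨hi, s, hs, hse, hmin⟩
      have hss : (s : ℕ) = s0 := by
        rcases lt_trichotomy (s : ℕ) s0 with h1 | h1 | h1
        · exact absurd (hs ⟨mm s, by have := hN s h1; omega⟩) (hmm s h1)
        · exact h1
        · exact absurd (fun m : Fin (n + 1) => hs0 m) (hmin ⟨s0, by omega⟩ h1)
      refine hDe i s0 x (by rw [← hss]; exact hse) hs0
    · intro hx
      refine ⟨by omega, ⟨s0, by omega⟩, fun m => hs0 m, ?_, ?_⟩
      · by_contra hodd
        exact hDo i s0 x hodd hs0 hx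
      · intro s' hs' hall
        have h1 : (s' : ℕ) < s0 := hs'
        exact hmm s' h1 (hall ⟨mm s', by have := hN s' h1; omega⟩)
  -- the classes of the approximations
  have hfin : ∀ n, ∃ β < α, ∀ t : T n, γ t.1 t.2.1 t.2.2 ≤ β := by
    intro n
    have : Finite (T n) := by
      show Finite (Fin (n + 1) × Fin (n + 1) × Fin (n + 1))
      infer_instance
    obtain ⟨t0, ht0⟩ := Finite.exists_max fun t : T n => γ t.1 t.2.1 t.2.2
    exact ⟨_, hγ t0.1 t0.2.1 t0.2.2, ht0⟩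
  choose β hβ hβ2 using hfin
  refine BaireClass.lim g β hβ (fun n => IH (β n) (hβ n) fun W hW => ?_) fun x => ?_
  · haveI : Finite (T n) := by
      show Finite (Fin (n + 1) × Fin (n + 1) × Fin (n + 1))
      infer_instance
    exact bo4_factor (κ := β n + 1) (le_add_self) (T := T n) (D := fun t => D t.1 t.2.1 t.2.2)
      (fun t => De.of_lt (Order.lt_add_one_iff.2 (hβ2 n t)) (hD t.1 t.2.1 t.2.2)) {b | pick n b ∈ W}
  · rw [tendsto_nhds]
    intro U hU hxU
    obtain ⟨i0, hi0, hi1⟩ := hVb (f x) U (hU.mem_nhds hxU)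
    have hall : ∀ᶠ n in atTop, ∀ i ∈ Finset.range (i0 + 1),
        (P n (fun t => x ∈ D t.1 t.2.1 t.2.2) i ↔ f x ∈ V i) :=
      (Filter.eventually_all_finset _).2 fun i _ => hconv i x
    filter_upwards [hall, eventually_ge_atTop (i0 + 1)] with n hn hn2
    have hg : G n (fun t => x ∈ D t.1 t.2.1 t.2.2) (i0 + 1) :=
      ⟨f x, fun i hi => (hn i (Finset.mem_range.2 hi)).symm⟩
    have hle : i0 + 1 ≤ M n (fun t => x ∈ D t.1 t.2.1 t.2.2) := Nat.le_findGreatest hn2 hg
    apply hi1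
    have h1 := hpick n (fun t => x ∈ D t.1 t.2.1 t.2.2) i0 (by omega)
    have h2 := hn i0 (Finset.mem_range.2 (Nat.lt_succ_self i0))
    exact h1.2 (h2.2 hi0)

/-- The points of `P` near which `ξ ⁻¹' D` is meagre. -/
def big {P : Type} [TopologicalSpace P] (ξ : P → X) (D : Set X) : Set P :=
  ⋃₀ {S | IsOpen S ∧ IsMeagre (S ∩ ξ ⁻¹' D)}

private theorem bo5_baire {P : Type} [TopologicalSpace P] {A W : Set P} (hA : @MeasurableSet P (borel P) A)
    (hW : IsOpen W) (h : ¬ IsMeagre (W ∩ A)) : ∃ S, IsOpen S ∧ S.Nonempty ∧ S ⊆ W ∧ IsMeagre (S ∩ Aᶜ) := by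
  borelize P
  obtain ⟨O, hO, hAO⟩ := hA.residualEq_isOpen
  have hm : IsMeagre {p : P | ¬ (p ∈ A ↔ p ∈ O)} := by
    rw [IsMeagre]
    filter_upwards [hAO] with p hp
    simp only [mem_compl_iff, mem_setOf_eq, not_not]
    exact iff_of_eq hp
  refine ⟨W ∩ O, hW.inter hO, ?_, inter_subset_left, hm.mono ?_⟩
  · by_contra hne
    rw [not_nonempty_iff_eq_empty] at hne
    refine h (hm.mono ?_)
    rintro p ⟨h1, h2⟩ h3
    have : p ∈ W ∩ O := ⟨h1, h3.1 h2⟩
    rw [hne] at this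
    exact this
  · rintro p ⟨⟨_, h2⟩, h3⟩ h4
    exact h3 (h4.2 h2)

private theorem bo5_meas {P : Type} [TopologicalSpace P] {ξ : P → X} (hξ : Continuous ξ) {k : Ordinal.{0}}
    {B : Set X} (hB : Sg k B) : @MeasurableSet P (borel P) (ξ ⁻¹' B)ᶜ := by
  borelize P X
  exact (hξ.measurable (Sg.measurableSet hB)).compl

/-- MODULE bo5 (size 2): category.

`meagre_big`: `big ξ D ∩ ξ ⁻¹' D` is meagre (second countable: a countable subfamily has the same union).
`Cf_big`: induction on `Sg`.  Clopen `D`: an open meagre set is empty, so `big ξ D = ξ ⁻¹' Dᶜ`.  `D = ⋃ (B n)ᶜ`, `B n` of class `β n < k`: we show `clo ξ k (big ξ D) = big ξ D`.  Let `W = clo ξ k (big ξ D)`; it suffices that `W ∩ ξ ⁻¹' (B n)ᶜ` is meagre for all `n`.  Otherwise, `ξ ⁻¹' (B n)` being a Borel set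
(`Sg.measurableSet`, Baire property: `MeasurableSet.baireMeasurableSet`, `BaireMeasurableSet.residualEq_isOpen` or similar), there is an open nonempty `S ⊆ W` with `S ∩ ξ ⁻¹' (B n)` meagre, so `S ⊆ M := big ξ (B n)`, a test set of order `β n + 1 ≤ k`.  `M` meets `W`, so it meets `big ξ D` in a nonempty open
set `T`; `T ∩ ξ ⁻¹' (B n)` and `T ∩ ξ ⁻¹' (B n)ᶜ ⊆ big ξ D ∩ ξ ⁻¹' D` are meagre, so `T` is meagre: contradiction with Baire's theorem. -/
theorem meagre_big {P : Type} [TopologicalSpace P] [SecondCountableTopology P] (ξ : P → X) (D : Set X) :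
    IsMeagre (big ξ D ∩ ξ ⁻¹' D) := by
  obtain ⟨T, hT, hTS, hTU⟩ := isOpen_sUnion_countable {S : Set P | IsOpen S ∧ IsMeagre (S ∩ ξ ⁻¹' D)}
    (fun s hs => hs.1)
  rw [big, ← hTU, sUnion_eq_biUnion, iUnion₂_inter]
  exact isMeagre_biUnion hT fun S hS => (hTS hS).2

theorem Cf_big {P : Type} [TopologicalSpace P] [SecondCountableTopology P] [BaireSpace P] {ξ : P → X}
    (hξ : Continuous ξ) {k : Ordinal.{0}} {D : Set X} (hD : Sg k D) : Cf ξ (k + 1) (big ξ D) := by
  induction hD with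
  | @clopen k D hD =>
    have e : big ξ D = ξ ⁻¹' Dᶜ := by
      apply Subset.antisymm
      · rintro p ⟨S, ⟨hS1, hS2⟩, hp⟩ hpD
        exact not_isMeagre_of_isOpen (hS1.inter (hD.isOpen.preimage hξ)) ⟨p, hp, hpD⟩ hS2
      · intro p hp
        refine ⟨ξ ⁻¹' Dᶜ, ⟨hD.compl.isOpen.preimage hξ, ?_⟩, hp⟩
        rw [← preimage_inter, compl_inter_self, preimage_empty]
        exact IsMeagre.empty
    rw [e]
    exact Cf_preimage le_add_self hD.compl
  | @union k B β hβ hB ih =>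
    have ho : ∀ D : Set X, IsOpen (big ξ D) := fun D => isOpen_sUnion fun S hS => hS.1
    refine Or.inr (Or.inr ⟨k, Order.lt_add_one_iff.2 le_rfl, ho _, Subset.antisymm ?_ (subset_clo (ho _))⟩)
    refine subset_sUnion_of_mem ⟨isOpen_clo _ _ _, ?_⟩
    have e : clo ξ k (big ξ (⋃ n, (B n)ᶜ)) ∩ ξ ⁻¹' (⋃ n, (B n)ᶜ) =
        ⋃ n, (clo ξ k (big ξ (⋃ n, (B n)ᶜ)) ∩ (ξ ⁻¹' (B n))ᶜ) := by
      rw [preimage_iUnion, inter_iUnion]
      rfl
    rw [e]
    refine isMeagre_iUnion fun n => ?_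
    by_contra hn
    obtain ⟨S, h1, h2, h3, h4⟩ := bo5_baire (bo5_meas hξ (hB n)) (isOpen_clo _ _ _) hn
    rw [compl_compl] at h4
    have hM : Cf ξ k (big ξ (B n)) := (ih n).mono (Order.add_one_le_of_lt (hβ n))
    have h5 : (big ξ (B n) ∩ clo ξ k (big ξ (⋃ n, (B n)ᶜ))).Nonempty := by
      obtain ⟨p, hp⟩ := h2
      exact ⟨p, ⟨S, ⟨h1, h4⟩, hp⟩, h3 hp⟩
    have h6 := meets_clo hM h5
    refine not_isMeagre_of_isOpen ((ho (B n)).inter (ho (⋃ n, (B n)ᶜ))) h6
      (((meagre_big ξ (B n)).union (meagre_big ξ (⋃ n, (B n)ᶜ))).mono ?_)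
    rintro p ⟨hp1, hp2⟩
    by_cases hp3 : ξ p ∈ B n
    · exact Or.inl ⟨hp1, hp3⟩
    · exact Or.inr ⟨hp2, mem_iUnion.2 ⟨n, hp3⟩⟩

/-- MODULE bo6 (size 1).

Proof.  Suppose `Sg (k+1) A`.  `A = ⋃ (B n)ᶜ`, `B n` of class `≤ k` (`Sg.exists_union`).  `PA ⊆ ⋃ ξ ⁻¹' (B n)ᶜ` is not meagre (open nonempty), so for some `n` there is an open nonempty `S ⊆ PA` with `S ∩ ξ ⁻¹' (B n)` meagre (Baire property).  So `S ⊆ M = big ξ (B n)`, a test set of order `≤ k + 1` (`Cf_big`, `Cf.mono`), `M` meets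
`PA ⊆ clo ξ (k+1) PB`, so `T = M ∩ PB` is open nonempty.  `T ⊆ ξ ⁻¹' (B n)` (`ξ` maps `PB` outside `A ⊇ (B n)ᶜ`), so `T` is meagre (`meagre_big`): contradiction. -/
theorem not_Sg_of_clo {P : Type} [TopologicalSpace P] [SecondCountableTopology P] [BaireSpace P] {ξ : P → X}
    (hξ : Continuous ξ) {k : Ordinal.{0}} {PA PB : Set P} (hA : IsOpen PA) (hB : IsOpen PB) (hne : PA.Nonempty)
    (h : PA ⊆ clo ξ (k + 1) PB) {A : Set X} (h1 : ∀ p ∈ PA, ξ p ∈ A) (h2 : ∀ p ∈ PB, ξ p ∉ A) : ¬ Sg (k + 1) A := by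
  intro hSg
  have hB' := hB
  obtain ⟨B, β, hβ, hB, hAB⟩ := Sg.exists_union (α := k + 1) le_add_self hSg
  have h3 : PA = ⋃ n, (PA ∩ (ξ ⁻¹' (B n))ᶜ) := by
    rw [← inter_iUnion, eq_comm, inter_eq_left]
    intro p hp
    have := h1 p hp
    rw [hAB, mem_iUnion] at this
    obtain ⟨n, hn⟩ := this
    exact mem_iUnion.2 ⟨n, hn⟩
  obtain ⟨n, hn⟩ : ∃ n, ¬ IsMeagre (PA ∩ (ξ ⁻¹' (B n))ᶜ) := by
    by_contra hcon
    push Not at hcon
    refine not_isMeagre_of_isOpen hA hne ?_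
    rw [h3]
    exact isMeagre_iUnion hcon
  obtain ⟨S, s1, s2, s3, s4⟩ := bo5_baire (bo5_meas hξ (hB n)) hA hn
  rw [compl_compl] at s4
  have hM : Cf ξ (k + 1) (big ξ (B n)) := (Cf_big hξ (hB n)).mono (Order.add_one_le_of_lt (hβ n))
  have h5 : (big ξ (B n) ∩ clo ξ (k + 1) PB).Nonempty := by
    obtain ⟨p, hp⟩ := s2
    exact ⟨p, ⟨S, ⟨s1, s4⟩, hp⟩, h (s3 hp)⟩
  have h6 := meets_clo hM h5
  have ho : IsOpen (big ξ (B n)) := isOpen_sUnion fun S hS => hS.1
  refine not_isMeagre_of_isOpen (ho.inter hB') h6 ((meagre_big ξ (B n)).mono ?_)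
  rintro p ⟨hp1, hp2⟩
  refine ⟨hp1, ?_⟩
  by_contra hp3
  exact h2 p hp2 (by rw [hAB]; exact mem_iUnion.2 ⟨n, hp3⟩)

end Pool.Agent.Bsw
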