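import Mathlib

/-!
# The closure calculus

`P` a topological space, `ξ : P → X` a map.  `Cf ξ k N`: the open set `N` is one of the test sets of order `k`;
`clo ξ k G`: the union of the open sets `S` such that every test set of order `k` which meets `S` meets `G`.
-/

set_option autoImplicit false

open Set Filter Topology TopologicalSpace
open scoped Classical

namespace Pool.Agent.Bsw

/-- The Cantor space. -/
abbrev CC := ℕ → Bool

variable {P X : Type} [TopologicalSpace P] [TopologicalSpace X]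

/-- The closure of order `k`. -/
noncomputable def clo (ξ : P → X) (k : Ordinal.{0}) (G : Set P) : Set P :=
  ⋃₀ {S | IsOpen S ∧ ∀ N : Set P, (N = univ ∨ (1 ≤ k ∧ ∃ U, IsClopen U ∧ N = ξ ⁻¹' U) ∨
    ∃ k' : Iio k, IsOpen N ∧ clo ξ k'.1 N = N) → (N ∩ S).Nonempty → (N ∩ G).Nonempty}
termination_by k
decreasing_by exact k'.2

/-- The test sets of order `k`. -/
def Cf (ξ : P → X) (k : Ordinal.{0}) (N : Set P) : Prop :=
  N = univ ∨ (1 ≤ k ∧ ∃ U, IsClopen U ∧ N = ξ ⁻¹' U) ∨ ∃ k' < k, IsOpen N ∧ clo ξ k' N = N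

/-- MODULE ca1 (size 1): basic properties.  `clo_eq`: unfold (`rw [clo]`), `∃ k' : Iio k` versus `∃ k' < k`. -/
theorem clo_eq (ξ : P → X) (k : Ordinal.{0}) (G : Set P) :
    clo ξ k G = ⋃₀ {S | IsOpen S ∧ ∀ N, Cf ξ k N → (N ∩ S).Nonempty → (N ∩ G).Nonempty} := by
  rw [clo]
  congr 1
  ext S
  simp only [mem_setOf_eq]
  constructor
  · rintro ⟨h1, h2⟩
    refine ⟨h1, fun N hN => h2 N ?_⟩
    rcases hN with h | h | ⟨k', hk, h⟩
    · exact Or.inl h
    · exact Or.inr (Or.inl h)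
    · exact Or.inr (Or.inr ⟨⟨k', hk⟩, h⟩)
  · rintro ⟨h1, h2⟩
    refine ⟨h1, fun N hN => h2 N ?_⟩
    rcases hN with h | h | ⟨k', h⟩
    · exact Or.inl h
    · exact Or.inr (Or.inl h)
    · exact Or.inr (Or.inr ⟨k'.1, k'.2, h⟩)

theorem isOpen_clo (ξ : P → X) (k : Ordinal.{0}) (G : Set P) : IsOpen (clo ξ k G) := by
  rw [clo_eq]
  exact isOpen_sUnion (fun S h => h.1)

theorem Cf.isOpen {ξ : P → X} (hξ : Continuous ξ) {k : Ordinal.{0}} {N : Set P} (h : Cf ξ k N) : IsOpen N := by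
  rcases h with h | ⟨_, U, hU, h⟩ | ⟨_, _, h, _⟩
  · rw [h]; exact isOpen_univ
  · rw [h]; exact hU.isOpen.preimage hξ
  · exact h

/-- `S ⊆ clo k G` for open `S`: if `S ⊆ clo k G`, `N` meets `S` then `N` meets a member `S'` of the union. -/
theorem subset_clo_iff {ξ : P → X} {k : Ordinal.{0}} {G S : Set P} (hS : IsOpen S) :
    S ⊆ clo ξ k G ↔ ∀ N, Cf ξ k N → (N ∩ S).Nonempty → (N ∩ G).Nonempty := by
  constructor
  · intro h N hN hne
    obtain ⟨x, hxN, hxS⟩ := hne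
    have hx := h hxS
    rw [clo_eq] at hx
    obtain ⟨S', hS', hxS'⟩ := hx
    exact hS'.2 N hN ⟨x, hxN, hxS'⟩
  · intro h
    rw [clo_eq]
    exact subset_sUnion_of_mem ⟨hS, h⟩

theorem meets_clo {ξ : P → X} {k : Ordinal.{0}} {G N : Set P} (hN : Cf ξ k N) (h : (N ∩ clo ξ k G).Nonempty) :
    (N ∩ G).Nonempty := by
  exact (subset_clo_iff (isOpen_clo ξ k G)).1 Subset.rfl N hN h

theorem Cf.mono {ξ : P → X} {k l : Ordinal.{0}} (h : k ≤ l) {N : Set P} (hN : Cf ξ k N) : Cf ξ l N := by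
  rcases hN with h' | ⟨h1, h'⟩ | ⟨k', hk, h'⟩
  · exact Or.inl h'
  · exact Or.inr (Or.inl ⟨h1.trans h, h'⟩)
  · exact Or.inr (Or.inr ⟨k', hk.trans_le h, h'⟩)

theorem clo_anti {ξ : P → X} {k l : Ordinal.{0}} (h : k ≤ l) (G : Set P) : clo ξ l G ⊆ clo ξ k G := by
  exact (subset_clo_iff (isOpen_clo ξ l G)).2 (fun N hN hne => meets_clo (hN.mono h) hne)

theorem clo_mono {ξ : P → X} {k : Ordinal.{0}} {G G' : Set P} (h : G ⊆ G') : clo ξ k G ⊆ clo ξ k G' := by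
  exact (subset_clo_iff (isOpen_clo ξ k G)).2
    (fun N hN hne => (meets_clo hN hne).mono (inter_subset_inter_right _ h))

theorem subset_clo {ξ : P → X} {k : Ordinal.{0}} {G : Set P} (hG : IsOpen G) : G ⊆ clo ξ k G := by
  exact (subset_clo_iff hG).2 (fun N _ h => h)

theorem clo_idem {ξ : P → X} {k : Ordinal.{0}} {G : Set P} : clo ξ k (clo ξ k G) = clo ξ k G := by
  exact Subset.antisymm
    ((subset_clo_iff (isOpen_clo ξ k _)).2 (fun N hN h => meets_clo hN (meets_clo hN h)))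
    (subset_clo (isOpen_clo ξ k G))

theorem clo_empty {ξ : P → X} {k : Ordinal.{0}} : clo ξ k ∅ = ∅ := by
  rw [← Set.not_nonempty_iff_eq_empty]
  intro h
  have h' : (univ ∩ clo ξ k (∅ : Set P)).Nonempty := by rwa [univ_inter]
  have h2 := meets_clo (ξ := ξ) (k := k) (N := (univ : Set P)) (Or.inl rfl) h'
  rw [inter_empty] at h2
  exact Set.not_nonempty_empty h2

theorem Cf_clo {ξ : P → X} {k l : Ordinal.{0}} (h : k < l) (G : Set P) : Cf ξ l (clo ξ k G) := by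
  exact Or.inr (Or.inr ⟨k, h, isOpen_clo ξ k G, clo_idem⟩)

/-- `clo l (clo k G) ⊆ clo k (clo k G) = clo k G` for `k ≤ l`. -/
theorem clo_clo_of_le {ξ : P → X} {k l : Ordinal.{0}} (h : k ≤ l) (G : Set P) : clo ξ l (clo ξ k G) = clo ξ k G := by
  exact Subset.antisymm ((clo_anti h _).trans clo_idem.subset) (subset_clo (isOpen_clo ξ k G))

theorem clo_clo_le {ξ : P → X} {k l : Ordinal.{0}} (h : k ≤ l) {G : Set P} : clo ξ k (clo ξ l G) ⊆ clo ξ k G := by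
  exact (clo_mono (clo_anti h G)).trans clo_idem.subset

theorem Cf_univ {ξ : P → X} {k : Ordinal.{0}} : Cf ξ k (univ : Set P) := Or.inl rfl

theorem Cf_preimage {ξ : P → X} {k : Ordinal.{0}} (hk : 1 ≤ k) {U : Set X} (hU : IsClopen U) : Cf ξ k (ξ ⁻¹' U) :=
  Or.inr (Or.inl ⟨hk, U, hU, rfl⟩)

/-- MODULE ca2 (size 2): test sets are closed under intersections.

Proof.  `clo_preimage`: `1 ≤ k`: `clo ξ k (ξ ⁻¹' U) = ξ ⁻¹' U` for clopen `U` (the complement `ξ ⁻¹' Uᶜ` is a test set of order `k` and misses `ξ ⁻¹' U`).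
`Cf.clo_eq_of_lt`: for `k ≥ 2` say, a test set `N` of order `k` satisfies `clo ξ k' N = N` for some `k' < k`.  In general: if `N₁, N₂` are test sets of order `k`: `univ` is trivial; two preimages: preimage of the
intersection; preimage `ξ ⁻¹' U` and `clo k' N₂ = N₂`, `k' < k`: if `k' = 0`, `N₂` is `∅` or `univ` (`clo ξ 0 G = univ` if `G` is nonempty as the only test set of order `0` is `univ`: note that
`Cf ξ 0 N ↔ N = univ`), and `∅ = ξ ⁻¹' ∅`; if `k' ≥ 1` then `clo k' (ξ ⁻¹' U ∩ N₂) ⊆ clo k' (ξ ⁻¹' U) ∩ clo k' N₂`; and `clo k₁ N₁ = N₁`, `clo k₂ N₂ = N₂`: with `k' = max k₁ k₂`,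
`clo k' N_i ⊆ clo k_i N_i = N_i` by `clo_anti`. -/
theorem clo_preimage {ξ : P → X} (hξ : Continuous ξ) {k : Ordinal.{0}} (hk : 1 ≤ k) {U : Set X} (hU : IsClopen U) :
    clo ξ k (ξ ⁻¹' U) = ξ ⁻¹' U := by
  refine Subset.antisymm ?_ (subset_clo (hU.isOpen.preimage hξ))
  intro x hx
  by_contra hxU
  have h2 := meets_clo (ξ := ξ) (k := k) (N := ξ ⁻¹' Uᶜ) (Cf_preimage hk hU.compl) ⟨x, hxU, hx⟩
  obtain ⟨y, hy1, hy2⟩ := h2
  exact hy1 hy2

theorem clo_zero {ξ : P → X} {G : Set P} (hG : G.Nonempty) : clo ξ 0 G = univ := by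
  rw [← univ_subset_iff, subset_clo_iff isOpen_univ]
  intro N hN _
  rcases hN with h' | ⟨h1, h'⟩ | ⟨k', hk, h'⟩
  · rw [h', univ_inter]; exact hG
  · exact absurd h1 (by simp)
  · exact absurd hk (by simp)

private theorem ca2_norm {ξ : P → X} {k : Ordinal.{0}} {N : Set P} (h : Cf ξ k N) :
    N = univ ∨ (1 ≤ k ∧ ∃ U, IsClopen U ∧ N = ξ ⁻¹' U) ∨ ∃ k' < k, 1 ≤ k' ∧ IsOpen N ∧ clo ξ k' N = N := by
  rcases h with h' | h' | ⟨k', hk, hN, h'⟩
  · exact Or.inl h'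
  · exact Or.inr (Or.inl h')
  · rcases eq_or_ne k' 0 with h0 | h0
    · subst h0
      rcases N.eq_empty_or_nonempty with hE | hE
      · refine Or.inr (Or.inl ⟨Order.one_le_iff_pos.2 hk, ∅, isClopen_empty, ?_⟩)
        rw [hE, preimage_empty]
      · left
        rw [← h', clo_zero hE]
    · exact Or.inr (Or.inr ⟨k', hk, Order.one_le_iff_pos.2 (pos_iff_ne_zero.2 h0), hN, h'⟩)

private theorem ca2_pc {ξ : P → X} (hξ : Continuous ξ) {k' : Ordinal.{0}} (hk : 1 ≤ k') {U : Set X} (hU : IsClopen U)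
    {N : Set P} (hN : IsOpen N) (h : clo ξ k' N = N) : clo ξ k' (ξ ⁻¹' U ∩ N) = ξ ⁻¹' U ∩ N := by
  refine Subset.antisymm (subset_inter ?_ ?_) (subset_clo ((hU.isOpen.preimage hξ).inter hN))
  · exact (clo_mono inter_subset_left).trans (clo_preimage hξ hk hU).subset
  · exact (clo_mono inter_subset_right).trans h.subset

private theorem ca2_cc {ξ : P → X} {k₁ k₂ : Ordinal.{0}} {N₁ N₂ : Set P} (hN₁ : IsOpen N₁) (hN₂ : IsOpen N₂)
    (h₁ : clo ξ k₁ N₁ = N₁) (h₂ : clo ξ k₂ N₂ = N₂) : clo ξ (max k₁ k₂) (N₁ ∩ N₂) = N₁ ∩ N₂ := by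
  refine Subset.antisymm (subset_inter ?_ ?_) (subset_clo (hN₁.inter hN₂))
  · exact ((clo_mono inter_subset_left).trans (clo_anti (le_max_left _ _) _)).trans h₁.subset
  · exact ((clo_mono inter_subset_right).trans (clo_anti (le_max_right _ _) _)).trans h₂.subset

theorem Cf.inter {ξ : P → X} (hξ : Continuous ξ) {k : Ordinal.{0}} {N₁ N₂ : Set P} (h₁ : Cf ξ k N₁)
    (h₂ : Cf ξ k N₂) : Cf ξ k (N₁ ∩ N₂) := by
  rcases ca2_norm h₁ with h1 | ⟨hk1, U, hU, h1⟩ | ⟨k1, hk1, hk1', o1, h1⟩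
  · rw [h1, univ_inter]; exact h₂
  · rcases ca2_norm h₂ with h2 | ⟨hk2, V, hV, h2⟩ | ⟨k2, hk2, hk2', o2, h2⟩
    · rw [h2, inter_univ]; exact h₁
    · rw [h1, h2, ← preimage_inter]
      exact Cf_preimage hk1 (hU.inter hV)
    · rw [h1]
      exact Or.inr (Or.inr ⟨k2, hk2, (hU.isOpen.preimage hξ).inter o2, ca2_pc hξ hk2' hU o2 h2⟩)
  · rcases ca2_norm h₂ with h2 | ⟨hk2, V, hV, h2⟩ | ⟨k2, hk2, hk2', o2, h2⟩
    · rw [h2, inter_univ]; exact h₁
    · rw [h2, inter_comm]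
      exact Or.inr (Or.inr ⟨k1, hk1, (hV.isOpen.preimage hξ).inter o1, ca2_pc hξ hk1' hV o1 h1⟩)
    · exact Or.inr (Or.inr ⟨max k1 k2, max_lt hk1 hk2, o1.inter o2, ca2_cc o1 o2 h1 h2⟩)

theorem Cf.biInter {ξ : P → X} (hξ : Continuous ξ) {k : Ordinal.{0}} {ι : Type} (s : Finset ι) (N : ι → Set P)
    (h : ∀ i ∈ s, Cf ξ k (N i)) : Cf ξ k (⋂ i ∈ s, N i) := by
  induction s using Finset.induction_on with
  | empty =>
    simp only [Finset.notMem_empty, iInter_of_empty, iInter_univ]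
    exact Cf_univ
  | insert a s _ ih =>
    rw [Finset.set_biInter_insert]
    exact Cf.inter hξ (h a (Finset.mem_insert_self a s)) (ih (fun i hi => h i (Finset.mem_insert_of_mem hi)))

/-- `N ∩ clo k G ⊆ clo k (N ∩ G)` for a test set `N` of order `k`. -/
theorem Cf.inter_clo {ξ : P → X} (hξ : Continuous ξ) {k : Ordinal.{0}} {N G : Set P} (h : Cf ξ k N) :
    N ∩ clo ξ k G ⊆ clo ξ k (N ∩ G) := by
  refine (subset_clo_iff ((Cf.isOpen hξ h).inter (isOpen_clo ξ k G))).2 ?_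
  intro M hM hne
  rw [← inter_assoc] at hne ⊢
  exact meets_clo (Cf.inter hξ hM h) hne

private theorem ca3_ex {ξ : P → X} {k : Ordinal.{0}} {W K : Set P} (hW : IsOpen W) (hne : W.Nonempty)
    (h : W ∩ clo ξ k K = ∅) : ∃ M, Cf ξ k M ∧ (M ∩ W).Nonempty ∧ M ∩ K = ∅ := by
  by_contra hno
  have h1 : W ⊆ clo ξ k K := by
    refine (subset_clo_iff hW).2 (fun N hN hne' => ?_)
    by_contra hemp
    exact hno ⟨N, hN, hne', Set.not_nonempty_iff_eq_empty.1 hemp⟩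
  rw [inter_eq_left.2 h1] at h
  exact hne.ne_empty h

/-- MODULE ca3 (size 1): unions.

Proof.  Let `N` be a test set of order `k` meeting `S` and missing `G₂`.  `N ∩ S` is open nonempty and disjoint from `clo k G₁`, so there is a test set `N'` meeting `N ∩ S` and missing `G₁` (otherwise
`N ∩ S ⊆ clo k G₁`); `N ∩ N'` is a test set, meets `S ⊆ clo k (G₁ ∪ G₂)` and misses `G₁ ∪ G₂`: contradiction. -/
theorem subset_clo_of_union {ξ : P → X} (hξ : Continuous ξ) {k : Ordinal.{0}} {G₁ G₂ S : Set P} (hS : IsOpen S)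
    (h : S ⊆ clo ξ k (G₁ ∪ G₂)) (h₁ : S ∩ clo ξ k G₁ = ∅) : S ⊆ clo ξ k G₂ := by
  refine (subset_clo_iff hS).2 (fun N hN hne => ?_)
  by_contra hemp
  obtain ⟨M, hM, hMne, hMG⟩ := ca3_ex ((Cf.isOpen hξ hN).inter hS) hne (K := G₁) (ξ := ξ) (k := k) (by
    rw [inter_assoc, h₁, inter_empty])
  rw [← inter_assoc] at hMne
  obtain ⟨x, ⟨hx1, hx2⟩, hx3⟩ := (subset_clo_iff hS).1 h (M ∩ N) (Cf.inter hξ hM hN) hMne
  rcases hx3 with hx3 | hx3
  · have : x ∈ M ∩ G₁ := ⟨hx1, hx3⟩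
    rw [hMG] at this
    exact this
  · exact hemp ⟨x, hx2, hx3⟩

/-- `G'` dense in the open set `G`. -/
theorem clo_congr_dense {ξ : P → X} (hξ : Continuous ξ) {k : Ordinal.{0}} {G G' : Set P} (hG : IsOpen G)
    (hG' : IsOpen G') (h : G ⊆ closure G') : clo ξ k G ⊆ clo ξ k G' := by
  refine (subset_clo_iff (isOpen_clo ξ k G)).2 (fun N hN hne => ?_)
  obtain ⟨x, hxN, hxG⟩ := meets_clo hN hne
  exact mem_closure_iff.1 (h hxG) N (Cf.isOpen hξ hN) hxN

/-- An open nonempty set disjoint from `clo k K` is met by a test set which misses `K`. -/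
theorem exists_Cf_of_disjoint {ξ : P → X} {k : Ordinal.{0}} {W K : Set P} (hW : IsOpen W) (hne : W.Nonempty)
    (h : W ∩ clo ξ k K = ∅) : ∃ M, Cf ξ k M ∧ (M ∩ W).Nonempty ∧ M ∩ K = ∅ := by
  exact ca3_ex hW hne h

/-! ## Multiplicities -/

/-- The family of sets `F t`, `t : Θ`, has multiplicity at most `n` in `K`: an open nonempty subset of `K` misses at
most `n` of the sets `F t` for pairwise `r`-related `t`. -/
def Mul {Θ : Type} (r : Θ → Θ → Prop) (n : ℕ) (K : Set P) (F : Θ → Set P) : Prop :=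
  ∀ s : Finset Θ, (s : Set Θ).Pairwise r → n < s.card → ∀ K' ⊆ K, IsOpen K' → K'.Nonempty →
    ∃ t ∈ s, (K' ∩ F t).Nonempty

/-- MODULE ca4 (size 1): simple properties of multiplicities.  (`Mul.preimage`: if `K' ⊆ X` misses `X ∩ f ⁻¹' (R \ t)`
and `X ∩ f ⁻¹' (R \ t')` for disjoint `t`, `t'` and `f` maps `K'` into `R` then `f` maps `K'` into `t ∩ t'`.) -/
theorem Mul.const {Θ : Type} {r : Θ → Θ → Prop} (K : Set P) : Mul r 0 K (fun _ => K) := by
  intro s _ hc K' hK' _ hne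
  obtain ⟨t, ht⟩ := Finset.card_pos.1 hc
  refine ⟨t, ht, ?_⟩
  rw [inter_eq_left.2 hK']
  exact hne

theorem Mul.mono {Θ : Type} {r : Θ → Θ → Prop} {n : ℕ} {K K' : Set P} {F F' : Θ → Set P} (h : Mul r n K F)
    (hK : K' ⊆ K) (hF : ∀ t, F t ⊆ F' t) {m : ℕ} (hm : n ≤ m) : Mul r m K' F' := by
  intro s hs hc L hL hLo hLne
  obtain ⟨t, ht, hne⟩ := h s hs (hm.trans_lt hc) L (hL.trans hK) hLo hLne
  exact ⟨t, ht, hne.mono (inter_subset_inter_right _ (hF t))⟩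

theorem Mul.preimage (f : P → CC) (W : Set P) (R : Set CC) :
    Mul (fun t t' : Clopens CC => Disjoint t t') 1 (W ∩ f ⁻¹' R) (fun t => W ∩ f ⁻¹' (R \ (t : Set CC))) := by
  intro s hs hc K' hK' _ hne
  obtain ⟨t, ht, t', ht', htt⟩ := Finset.one_lt_card.1 hc
  obtain ⟨x, hx⟩ := hne
  obtain ⟨hxW, hxR⟩ := hK' hx
  by_contra hno
  have h1 : ∀ u ∈ s, f x ∈ u := by
    intro u hu
    by_contra hxu
    exact hno ⟨u, hu, x, hx, hxW, hxR, hxu⟩
  have h2 := hs ht ht' htt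
  have h3 : f x ∈ (t ⊓ t' : Clopens CC) := ⟨h1 t ht, h1 t' ht'⟩
  rw [h2.eq_bot] at h3
  exact h3

/-- MODULE ca5 (size 2): closures.

Proof.  Let `s` have more than `n` elements, `K' ⊆ clo k K` open nonempty, and suppose that `K'` misses all `clo k (F t)`, `t ∈ s`.  By induction over the finite set `s` (all its subsets `s'`) there is a test set
`M` of order `k` which meets `K'` and misses all `F t`, `t ∈ s'`: given `M` for `s'` and `t`, `M ∩ K'` is open nonempty and disjoint from `clo k (F t)`, so `exists_Cf_of_disjoint` gives `M'`, take `M ∩ M'`.  For `s' = s`: `M`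
meets `clo k K`, so `M ∩ K` is open nonempty and misses all `F t`, `t ∈ s`: contradiction. -/
theorem Mul.clo {Θ : Type} {r : Θ → Θ → Prop} {ξ : P → X} (hξ : Continuous ξ) {k : Ordinal.{0}} {n : ℕ} {K : Set P}
    (hK : IsOpen K) {F : Θ → Set P} (h : Mul r n K F) : Mul r n (clo ξ k K) (fun t => clo ξ k (F t)) := by
  intro s hs hc K' hK' hK'o hK'ne
  by_contra hno
  have key : ∀ s' : Finset Θ, s' ⊆ s →
      ∃ M, Cf ξ k M ∧ (M ∩ K').Nonempty ∧ ∀ t ∈ s', M ∩ F t = ∅ := by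
    intro s'
    induction s' using Finset.induction_on with
    | empty =>
      intro _
      exact ⟨univ, Cf_univ, by rwa [univ_inter], fun t ht => absurd ht (Finset.notMem_empty t)⟩
    | insert a s' _ ih =>
      intro hsub
      obtain ⟨M, hM, hMne, hMF⟩ := ih (fun t ht => hsub (Finset.mem_insert_of_mem ht))
      have hdis : (M ∩ K') ∩ Pool.Agent.Bsw.clo ξ k (F a) = ∅ := by
        rw [← Set.not_nonempty_iff_eq_empty]
        rintro ⟨x, ⟨_, hx2⟩, hx3⟩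
        exact hno ⟨a, hsub (Finset.mem_insert_self a s'), x, hx2, hx3⟩
      obtain ⟨M', hM', hM'ne, hM'F⟩ := exists_Cf_of_disjoint ((Cf.isOpen hξ hM).inter hK'o) hMne hdis
      refine ⟨M' ∩ M, Cf.inter hξ hM' hM, by rwa [inter_assoc], fun t ht => ?_⟩
      rcases Finset.mem_insert.1 ht with rfl | ht
      · rw [← Set.not_nonempty_iff_eq_empty]
        rintro ⟨x, ⟨hx1, _⟩, hx2⟩
        have : x ∈ M' ∩ F t := ⟨hx1, hx2⟩
        rw [hM'F] at this
        exact this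
      · rw [inter_assoc, hMF t ht, inter_empty]
  obtain ⟨M, hM, hMne, hMF⟩ := key s (Finset.Subset.refl s)
  have h1 : (M ∩ K).Nonempty := meets_clo hM (hMne.mono (inter_subset_inter_right _ hK'))
  obtain ⟨t, ht, x, ⟨hx1, _⟩, hx2⟩ := h s hs hc (M ∩ K) inter_subset_right ((Cf.isOpen hξ hM).inter hK) h1
  have : x ∈ M ∩ F t := ⟨hx1, hx2⟩
  rw [hMF t ht] at this
  exact this

/-- MODULE ca6 (size 2): intersections.

Proof.  Let `s` have more than `n + m` elements, `K' ⊆ K₁ ∩ K₂` open nonempty missing all `F₁ t ∩ F₂ t`, `t ∈ s`.  Among the open nonempty `K'' ⊆ K'` choose one for which the number of the `t ∈ s` with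
`K'' ∩ F₁ t = ∅` is maximal; it is at most `n` by hypothesis (apply `h₁` to the set of these `t`).  For the others (more than `m`), `F₁ t` is dense in `K''` (every open nonempty subset of `K''` meets it, by maximality),
so `K'' ∩ F₂ t`, an open set, is empty: otherwise it would meet `F₁ t`.  This contradicts `h₂`. -/
theorem Mul.inter {Θ : Type} {r : Θ → Θ → Prop} {n m : ℕ} {K₁ K₂ : Set P} {F₁ F₂ : Θ → Set P} (h₁ : Mul r n K₁ F₁)
    (h₂ : Mul r m K₂ F₂) (o₂ : ∀ t, IsOpen (F₂ t)) : Mul r (n + m) (K₁ ∩ K₂) (fun t => F₁ t ∩ F₂ t) := by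
  intro s hs hc K' hK' hK'o hK'ne
  classical
  let c : Set P → ℕ := fun L => (s.filter (fun t => L ∩ F₁ t = ∅)).card
  let Q : ℕ → Prop := fun j => ∃ L, L ⊆ K' ∧ IsOpen L ∧ L.Nonempty ∧ c L = j
  have hcs : ∀ L, c L ≤ s.card := fun L => Finset.card_filter_le s _
  have hQ : Q (Nat.findGreatest Q s.card) :=
    Nat.findGreatest_spec (hcs K') ⟨K', Subset.rfl, hK'o, hK'ne, rfl⟩
  obtain ⟨L, hL, hLo, hLne, hLc⟩ := hQ
  have hmax : ∀ L', L' ⊆ L → IsOpen L' → L'.Nonempty →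
      s.filter (fun t => L' ∩ F₁ t = ∅) = s.filter (fun t => L ∩ F₁ t = ∅) := by
    intro L' h1 h2 h3
    symm
    apply Finset.eq_of_subset_of_card_le
    · intro t ht
      rw [Finset.mem_filter] at ht ⊢
      exact ⟨ht.1, subset_eq_empty (inter_subset_inter_left _ h1) ht.2⟩
    · have h4 : c L' ≤ Nat.findGreatest Q s.card :=
        Nat.le_findGreatest (hcs L') ⟨L', h1.trans hL, h2, h3, rfl⟩
      rw [← hLc] at h4
      exact h4
  have ha : (s.filter (fun t => L ∩ F₁ t = ∅)).card ≤ n := by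
    by_contra hn
    obtain ⟨t, ht, hne⟩ := h₁ (s.filter (fun t => L ∩ F₁ t = ∅))
      (hs.mono (fun t ht => (Finset.mem_filter.1 ht).1)) (not_le.1 hn) L
      (hL.trans (hK'.trans inter_subset_left)) hLo hLne
    exact hne.ne_empty (Finset.mem_filter.1 ht).2
  have hb : m < (s.filter (fun t => ¬ (L ∩ F₁ t = ∅))).card := by
    have := Finset.card_filter_add_card_filter_not (s := s) (fun t => L ∩ F₁ t = ∅)
    omega
  obtain ⟨t, ht, hne⟩ := h₂ (s.filter (fun t => ¬ (L ∩ F₁ t = ∅)))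
      (hs.mono (fun t ht => (Finset.mem_filter.1 ht).1)) hb L
      (hL.trans (hK'.trans inter_subset_right)) hLo hLne
  rw [Finset.mem_filter] at ht
  refine ⟨t, ht.1, ?_⟩
  have h5 := hmax (L ∩ F₂ t) inter_subset_left (hLo.inter (o₂ t)) hne
  have h6 : ¬ ((L ∩ F₂ t) ∩ F₁ t = ∅) := by
    intro h7
    have h8 : t ∈ s.filter (fun t' => (L ∩ F₂ t) ∩ F₁ t' = ∅) := Finset.mem_filter.2 ⟨ht.1, h7⟩
    rw [h5] at h8
    exact ht.2 (Finset.mem_filter.1 h8).2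
  obtain ⟨x, ⟨hx1, hx2⟩, hx3⟩ := Set.nonempty_iff_ne_empty.2 h6
  exact ⟨x, hL hx1, hx3, hx2⟩

theorem Mul.biInter {Θ ι : Type} {r : Θ → Θ → Prop} (s : Finset ι) {n : ι → ℕ} {K : ι → Set P} {F : ι → Θ → Set P}
    (h : ∀ i ∈ s, Mul r (n i) (K i) (F i)) (o : ∀ i ∈ s, ∀ t, IsOpen (F i t)) :
    Mul r (∑ i ∈ s, n i) (⋂ i ∈ s, K i) (fun t => ⋂ i ∈ s, F i t) := by
  induction s using Finset.induction_on with
  | empty =>
    intro s _ hc K' _ _ hne
    obtain ⟨t, ht⟩ := Finset.card_pos.1 (lt_of_le_of_lt (Nat.zero_le _) hc)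
    refine ⟨t, ht, ?_⟩
    simpa using hne
  | insert a s ha ih =>
    rw [Finset.sum_insert ha, Finset.set_biInter_insert]
    have h1 : (fun t => ⋂ i ∈ insert a s, F i t) = fun t => F a t ∩ ⋂ i ∈ s, F i t := by
      funext t
      rw [Finset.set_biInter_insert]
    rw [h1]
    exact Mul.inter (h a (Finset.mem_insert_self a s))
      (ih (fun i hi => h i (Finset.mem_insert_of_mem hi)) (fun i hi => o i (Finset.mem_insert_of_mem hi)))
      (fun t => isOpen_biInter_finset (fun i hi => o i (Finset.mem_insert_of_mem hi) t))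

/-! ## Continuity of order `k` -/

/-- `f` is continuous of order `k` on the open set `D`. -/
def Co (ξ : P → X) (f : P → CC) (k : Ordinal.{0}) (D : Set P) : Prop :=
  ∀ θ : Clopens CC, D ∩ f ⁻¹' θ ∩ clo ξ k (D \ f ⁻¹' θ) = ∅

/-- MODULE ca7 (size 1). `Co.mono`: `clo l ⊆ clo k` for `k ≤ l`, and `clo` is monotone.  `Co.zero_iff`: order `0` = constant (`clo ξ 0 G = univ` for nonempty `G`). -/
theorem Co.mono {ξ : P → X} {f : P → CC} {k l : Ordinal.{0}} (h : k ≤ l) {D D' : Set P} (hD : D' ⊆ D) (hc : Co ξ f k D) :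
    Co ξ f l D' := by
  intro θ
  rw [← Set.not_nonempty_iff_eq_empty]
  rintro ⟨x, ⟨hx1, hx2⟩, hx3⟩
  have h1 : x ∈ D ∩ f ⁻¹' θ ∩ clo ξ k (D \ f ⁻¹' θ) :=
    ⟨⟨hD hx1, hx2⟩, clo_mono (diff_subset_diff_left hD) (clo_anti h _ hx3)⟩
  rw [hc θ] at h1
  exact h1

theorem Co.zero_iff {ξ : P → X} {f : P → CC} {D : Set P} : Co ξ f 0 D ↔ ∀ x ∈ D, ∀ y ∈ D, f x = f y := by
  constructor
  · intro h x hx y hy
    by_contra hne
    obtain ⟨i, hi⟩ := Function.ne_iff.1 hne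
    have hcl : IsClopen {z : CC | z i = f x i} :=
      (isClopen_discrete ({f x i} : Set Bool)).preimage (continuous_apply i)
    let θ : Clopens CC := ⟨{z : CC | z i = f x i}, hcl⟩
    have hy' : y ∈ D \ f ⁻¹' (θ : Set CC) := ⟨hy, fun h' => hi (Eq.symm h')⟩
    have h1 : x ∈ D ∩ f ⁻¹' (θ : Set CC) ∩ clo ξ 0 (D \ f ⁻¹' (θ : Set CC)) := by
      rw [clo_zero ⟨y, hy'⟩]
      exact ⟨⟨hx, (rfl : f x i = f x i)⟩, mem_univ x⟩
    rw [h θ] at h1
    exact h1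
  · intro h θ
    rw [← Set.not_nonempty_iff_eq_empty]
    rintro ⟨x, ⟨hx1, hx2⟩, hx3⟩
    have h1 : D \ f ⁻¹' (θ : Set CC) = ∅ := by
      rw [← Set.not_nonempty_iff_eq_empty]
      rintro ⟨y, hy1, hy2⟩
      apply hy2
      have h2 := h x hx1 y hy1
      show f y ∈ (θ : Set CC)
      rw [← h2]
      exact hx2
    rw [h1, clo_empty] at hx3
    exact hx3

/-- If `f` is continuous of order `k` on `Y` and `D ⊆ Y ∩ f ⁻¹' θ` is open nonempty then there is a test set `N` of order `k`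
meeting `D` with `N ∩ Y ⊆ f ⁻¹' θ` (`exists_Cf_of_disjoint`). -/
theorem Co.exists_Cf {ξ : P → X} {f : P → CC} {k : Ordinal.{0}} {Y D : Set P} (h : Co ξ f k Y) (hD : IsOpen D)
    (hne : D.Nonempty) (hDX : D ⊆ Y) {θ : Clopens CC} (hθ : D ⊆ f ⁻¹' θ) :
    ∃ N, Cf ξ k N ∧ (N ∩ D).Nonempty ∧ N ∩ Y ⊆ f ⁻¹' θ := by
  have h1 : D ∩ clo ξ k (Y \ f ⁻¹' θ) = ∅ := by
    rw [← Set.not_nonempty_iff_eq_empty]
    rintro ⟨x, hx1, hx2⟩
    have h2 : x ∈ Y ∩ f ⁻¹' θ ∩ clo ξ k (Y \ f ⁻¹' θ) := ⟨⟨hDX hx1, hθ hx1⟩, hx2⟩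
    rw [h θ] at h2
    exact h2
  obtain ⟨M, hM, hMne, hMY⟩ := exists_Cf_of_disjoint hD hne h1
  refine ⟨M, hM, hMne, ?_⟩
  rintro x ⟨hx1, hx2⟩
  by_contra hx3
  have h2 : x ∈ M ∩ (Y \ f ⁻¹' θ) := ⟨hx1, hx2, hx3⟩
  rw [hMY] at h2
  exact h2

/-- MODULE ca8 (size 2): the choice lemma.

Hypotheses: `Z ⊆ K` open nonempty; `f` is not continuous of order `k` on any nonempty open subset of `Z`; `F θ` closed under `clo k` (`clo k (F θ) = F θ`), of multiplicity `≤ n` in `K`.  Then for every clopen `Γ` with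
`Z ∩ f ⁻¹' Γ ≠ ∅` and every `m` there is a clopen `θ ⊆ Γ` of diameter `< 2^-m` (all elements of `θ` agree below `m`) with `Z ∩ f ⁻¹' θ ∩ F θ ≠ ∅`.

Proof.  Replace `Z` by `Z ∩ f ⁻¹' Γ`.  Suppose not.  Construct by induction on `l` open nonempty sets `Z_l ⊆ Z` and pairwise disjoint small clopen `θ_0, …, θ_(l-1) ⊆ Γ` such that `f (Z_l)` is disjoint from all of them and `Z_l ∩ F θ_i = ∅` for `i < l`.  Given `Z_l`:
`f` is not continuous of order `k` on `Z_l`: there is a clopen `θ'` with `W' = Z_l ∩ f ⁻¹' θ' ∩ clo k (Z_l \ f ⁻¹' θ') ≠ ∅`.  Let `z ∈ W'`, `θ_l ∋ f z` a small clopen subset of `θ' ∩ Γ` disjoint from `θ_0, …, θ_(l-1)` (as `f z` is in none of them).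
Then `W = Z_l ∩ f ⁻¹' θ_l ∩ clo k (Z_l \ f ⁻¹' θ_l)` is open and contains `z` (`Z_l \ f ⁻¹' θ' ⊆ Z_l \ f ⁻¹' θ_l`).  By assumption `W ∩ F θ_l = ∅`, i.e. `W ∩ clo k (F θ_l) = ∅`, so there is a test set `M` of order `k` with `M ∩ W ≠ ∅`, `M ∩ F θ_l = ∅`
(`exists_Cf_of_disjoint`).  `M` meets `clo k (Z_l \ f ⁻¹' θ_l)`, so `Z_(l+1) = M ∩ (Z_l \ f ⁻¹' θ_l)` is nonempty (and open).  For `l = n + 1`: `Z_(n+1) ⊆ Z ⊆ K` misses `F θ_0, …, F θ_n`: contradiction with `Mul` (the `θ_i` are disjoint and nonempty, so distinct). -/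
theorem choice {ξ : P → X} {f : P → CC} (hξ : Continuous ξ) (hf : Continuous f) {k : Ordinal.{0}} {Z K : Set P}
    (hZ : IsOpen Z) (hZK : Z ⊆ K) (hn : ∀ Z' ⊆ Z, IsOpen Z' → Z'.Nonempty → ¬ Co ξ f k Z') {n : ℕ}
    {F : Clopens CC → Set P} (hF : ∀ θ, clo ξ k (F θ) = F θ)
    (hM : Mul (fun t t' : Clopens CC => Disjoint t t') n K F) (Γ : Clopens CC) (hΓ : (Z ∩ f ⁻¹' Γ).Nonempty) (m : ℕ) :
    ∃ θ : Clopens CC, θ ≤ Γ ∧ (∀ y ∈ θ, ∀ y' ∈ θ, ∀ i < m, y i = y' i) ∧ (Z ∩ f ⁻¹' θ ∩ F θ).Nonempty := by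
  by_contra hcon
  have H : ∀ θ : Clopens CC, θ ≤ Γ → (∀ y ∈ θ, ∀ y' ∈ θ, ∀ i < m, y i = y' i) →
      ∀ z, z ∈ Z → f z ∈ θ → z ∉ F θ := fun θ h1 h2 z hz hz2 hz3 =>
    hcon ⟨θ, h1, h2, z, ⟨hz, hz2⟩, hz3⟩
  have step : ∀ l : ℕ, ∃ (Zl : Set P) (s : Finset (Clopens CC)), IsOpen Zl ∧ Zl.Nonempty ∧
      (∀ z ∈ Zl, z ∈ Z ∧ f z ∈ Γ) ∧ s.card = l ∧
      (s : Set (Clopens CC)).Pairwise (fun t t' => Disjoint t t') ∧
      ∀ θ ∈ s, ∀ z ∈ Zl, f z ∉ θ ∧ z ∉ F θ := by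
    intro l
    induction l with
    | zero =>
      refine ⟨Z ∩ f ⁻¹' Γ, ∅, hZ.inter (Γ.isClopen.isOpen.preimage hf), hΓ, fun z hz => hz, rfl, ?_, ?_⟩
      · intro t ht
        exact absurd ht (Finset.notMem_empty t)
      · intro t ht
        exact absurd ht (Finset.notMem_empty t)
    | succ l ih =>
      obtain ⟨Zl, s, hZl, hne, hsub, hcard, hpw, hs⟩ := ih
      have h1 := hn Zl (fun z hz => (hsub z hz).1) hZl hne
      unfold Co at h1
      push Not at h1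
      obtain ⟨θ', z, ⟨hzZ, hzθ⟩, hzc⟩ := h1
      -- the small clopen set
      have hclo : IsClopen (((θ' : Set CC) ∩ Γ ∩ ⋂ θ ∈ s, ((θ : Set CC))ᶜ) ∩
          ⋂ i ∈ Finset.range m, {y : CC | y i = f z i}) := by
        refine ((θ'.isClopen.inter Γ.isClopen).inter
          (isClopen_biInter_finset fun θ _ => θ.isClopen.compl)).inter
          (isClopen_biInter_finset fun i _ => ?_)
        exact (isClopen_discrete {f z i}).preimage (continuous_apply i)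
      let θl : Clopens CC := ⟨_, hclo⟩
      have hmem : ∀ y : CC, y ∈ θl ↔ (y ∈ θ' ∧ y ∈ Γ ∧ (∀ θ ∈ s, y ∉ θ) ∧ ∀ i < m, y i = f z i) := by
        intro y
        change y ∈ (((θ' : Set CC) ∩ Γ ∩ ⋂ θ ∈ s, ((θ : Set CC))ᶜ) ∩
          ⋂ i ∈ Finset.range m, {y : CC | y i = f z i}) ↔ _
        simp only [mem_inter_iff, mem_iInter, mem_compl_iff, Finset.mem_range, mem_ofPred_eq,
          SetLike.mem_coe]
        tauto
      have hzl : f z ∈ θl := (hmem _).2 ⟨hzθ, (hsub z hzZ).2, fun θ hθ => (hs θ hθ z hzZ).1, fun i _ => rfl⟩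
      have hle : θl ≤ Γ := fun y hy => ((hmem y).1 hy).2.1
      have hsm : ∀ y ∈ θl, ∀ y' ∈ θl, ∀ i < m, y i = y' i := fun y hy y' hy' i hi => by
        rw [((hmem y).1 hy).2.2.2 i hi, ((hmem y').1 hy').2.2.2 i hi]
      have hzc' : z ∈ clo ξ k (Zl \ f ⁻¹' θl) := by
        refine clo_mono ?_ hzc
        rintro x ⟨hx, hx2⟩
        exact ⟨hx, fun hx3 => hx2 ((hmem _).1 hx3).1⟩
      have hW : IsOpen (Zl ∩ f ⁻¹' θl ∩ clo ξ k (Zl \ f ⁻¹' θl)) :=
        (hZl.inter (θl.isClopen.isOpen.preimage hf)).inter (isOpen_clo _ _ _)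
      have hWF : (Zl ∩ f ⁻¹' θl ∩ clo ξ k (Zl \ f ⁻¹' θl)) ∩ clo ξ k (F θl) = ∅ := by
        rw [hF]
        ext x
        simp only [mem_empty_iff_false, iff_false]
        rintro ⟨⟨⟨hx1, hx2⟩, _⟩, hx3⟩
        exact H θl hle hsm x (hsub x hx1).1 hx2 hx3
      obtain ⟨M, hM1, hM2, hM3⟩ := exists_Cf_of_disjoint hW ⟨z, ⟨hzZ, hzl⟩, hzc'⟩ hWF
      have hM4 : (M ∩ clo ξ k (Zl \ f ⁻¹' θl)).Nonempty := by
        obtain ⟨x, hx1, hx2⟩ := hM2
        exact ⟨x, hx1, hx2.2⟩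
      have hM5 := meets_clo hM1 hM4
      refine ⟨M ∩ (Zl \ f ⁻¹' θl), insert θl s, ?_, hM5, ?_, ?_, ?_, ?_⟩
      · have h2 : Zl \ f ⁻¹' θl = Zl ∩ f ⁻¹' ((θl : Set CC))ᶜ := rfl
        rw [h2]
        exact (hM1.isOpen hξ).inter (hZl.inter (θl.isClopen.compl.isOpen.preimage hf))
      · intro x hx
        exact hsub x hx.2.1
      · rw [Finset.card_insert_of_notMem, hcard]
        intro h3
        exact (hs θl h3 z hzZ).1 hzl
      · rw [Finset.coe_insert]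
        refine hpw.insert fun b hb hne' => ?_
        have h3 : Disjoint θl b := by
          rw [← Clopens.coe_disjoint]
          refine Set.disjoint_left.2 fun y hy hy' => ?_
          exact ((hmem y).1 hy).2.2.1 b hb hy'
        exact ⟨h3, h3.symm⟩
      · intro θ hθ x hx
        rcases Finset.mem_insert.1 hθ with rfl | hθ
        · refine ⟨hx.2.2, fun h3 => ?_⟩
          have h4 : x ∈ M ∩ F θl := ⟨hx.1, h3⟩
          rw [hM3] at h4
          exact h4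
        · exact hs θ hθ x hx.2.1
  obtain ⟨Zl, s, hZl, hne, hsub, hcard, hpw, hs⟩ := step (n + 1)
  obtain ⟨t, ht, x, hx1, hx2⟩ := hM s hpw (by omega) Zl (fun z hz => hZK (hsub z hz).1) hZl hne
  exact (hs t ht x hx1).2 hx2

/-- MODULE ca9 (size 2): many disjoint choices.

Proof.  `f` is not constant on any nonempty open subset of `Z` (constant = continuous of order `0`, `Co.mono`).  So there are `N` pairwise disjoint clopen `Γ_0, …, Γ_(N-1) ⊆ Γ` with `Z ∩ f ⁻¹' Γ_i ≠ ∅`: by induction (if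
`Z ∩ f ⁻¹' Γ' ≠ ∅` then `f` takes two values on it, separate them by a clopen set).  Apply `choice` to the `Γ_i`. -/
theorem choices {ξ : P → X} {f : P → CC} (hξ : Continuous ξ) (hf : Continuous f) {k : Ordinal.{0}} {Z K : Set P}
    (hZ : IsOpen Z) (hZK : Z ⊆ K) (hn : ∀ Z' ⊆ Z, IsOpen Z' → Z'.Nonempty → ¬ Co ξ f k Z') {n : ℕ}
    {F : Clopens CC → Set P} (hF : ∀ θ, clo ξ k (F θ) = F θ)
    (hM : Mul (fun t t' : Clopens CC => Disjoint t t') n K F) (Γ : Clopens CC) (hΓ : (Z ∩ f ⁻¹' Γ).Nonempty)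
    (m N : ℕ) :
    ∃ s : Finset (Clopens CC), s.card = N ∧ (s : Set (Clopens CC)).Pairwise (fun t t' => Disjoint t t') ∧
      ∀ θ ∈ s, θ ≤ Γ ∧ (∀ y ∈ θ, ∀ y' ∈ θ, ∀ i < m, y i = y' i) ∧ (Z ∩ f ⁻¹' θ ∩ F θ).Nonempty := by
  have hmany : ∀ (N : ℕ) (Γ : Clopens CC), (Z ∩ f ⁻¹' Γ).Nonempty →
      ∃ s : Finset (Clopens CC), s.card = N ∧ (s : Set (Clopens CC)).Pairwise (fun t t' => Disjoint t t') ∧
        ∀ θ ∈ s, θ ≤ Γ ∧ (Z ∩ f ⁻¹' θ).Nonempty := by
    intro N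
    induction N with
    | zero =>
      intro Γ _
      exact ⟨∅, rfl, fun t ht => absurd ht (Finset.notMem_empty t), fun t ht =>
        absurd ht (Finset.notMem_empty t)⟩
    | succ N ih =>
      intro Γ hΓ
      have h1 := hn (Z ∩ f ⁻¹' Γ) inter_subset_left (hZ.inter (Γ.isClopen.isOpen.preimage hf)) hΓ
      have h2 : ¬ Co ξ f 0 (Z ∩ f ⁻¹' Γ) := fun h => h1 (h.mono zero_le subset_rfl)
      rw [Co.zero_iff] at h2
      push Not at h2
      obtain ⟨x, hx, y, hy, hxy⟩ := h2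
      obtain ⟨i, hi⟩ := Function.ne_iff.1 hxy
      have hc : IsClopen {w : CC | w i = f x i} :=
        (isClopen_discrete {f x i}).preimage (continuous_apply i)
      let Γ₁ : Clopens CC := ⟨(Γ : Set CC) ∩ {w : CC | w i = f x i}, Γ.isClopen.inter hc⟩
      let Γ₂ : Clopens CC := ⟨(Γ : Set CC) ∩ {w : CC | w i = f x i}ᶜ, Γ.isClopen.inter hc.compl⟩
      obtain ⟨s, hs1, hs2, hs3⟩ := ih Γ₂ ⟨y, hy.1, hy.2, fun h => hi h.symm⟩
      have hxs : f x ∈ Γ₁ := ⟨hx.2, rfl⟩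
      have hdis : ∀ t ∈ s, Disjoint Γ₁ t := by
        intro t ht
        rw [← Clopens.coe_disjoint]
        refine Set.disjoint_left.2 fun w hw hw' => ?_
        exact ((hs3 t ht).1 hw').2 hw.2
      refine ⟨insert Γ₁ s, ?_, ?_, ?_⟩
      · rw [Finset.card_insert_of_notMem, hs1]
        intro h3
        exact ((hs3 Γ₁ h3).1 hxs).2 rfl
      · rw [Finset.coe_insert]
        exact hs2.insert fun b hb _ => ⟨hdis b hb, (hdis b hb).symm⟩
      · intro θ hθ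
        rcases Finset.mem_insert.1 hθ with rfl | hθ
        · exact ⟨fun w hw => hw.1, x, hx.1, hxs⟩
        · exact ⟨fun w hw => ((hs3 θ hθ).1 hw).1, (hs3 θ hθ).2⟩
  obtain ⟨s, hs1, hs2, hs3⟩ := hmany N Γ hΓ
  choose! c hc using fun θ (hθ : θ ∈ s) => choice hξ hf hZ hZK hn hF hM θ (hs3 θ hθ).2 m
  have hinj : ∀ a ∈ s, ∀ b ∈ s, c a = c b → a = b := by
    intro a ha b hb hab
    by_contra hne
    have h1 : Disjoint a b := hs2 ha hb hne
    obtain ⟨x, ⟨_, hx⟩, _⟩ := (hc a ha).2.2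
    have h2 : f x ∈ a := (hc a ha).1 hx
    have h3 : f x ∈ b := (hc b hb).1 (hab ▸ hx)
    rw [← Clopens.coe_disjoint] at h1
    exact Set.disjoint_left.1 h1 h2 h3
  refine ⟨s.image c, ?_, ?_, ?_⟩
  · rw [Finset.card_image_of_injOn (fun a ha b hb h => hinj a ha b hb h), hs1]
  · intro a ha b hb hab
    rw [Finset.mem_coe, Finset.mem_image] at ha hb
    obtain ⟨a', ha', rfl⟩ := ha
    obtain ⟨b', hb', rfl⟩ := hb
    have h1 : Disjoint a' b' := hs2 ha' hb' fun h => hab (by rw [h])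
    exact h1.mono (hc a' ha').1 (hc b' hb').1
  · intro θ hθ
    obtain ⟨a, ha, rfl⟩ := Finset.mem_image.1 hθ
    exact ⟨(hc a ha).1.trans (hs3 a ha).1, (hc a ha).2⟩

/-- MODULE ca10 (size 1): pigeonhole.  Finitely many open nonempty sets `K i` with families `F i` of multiplicity `≤ n i`: among more than `∑ n i` pairwise related options one leaves all of them
alive.  Proof: the set of the `t ∈ s` with `K i ∩ F i t = ∅` has at most `n i` elements (`Mul` with `K' = K i`). -/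
theorem Mul.exists_alive {Θ ι : Type} {r : Θ → Θ → Prop} (I : Finset ι) {n : ι → ℕ} {K : ι → Set P}
    {F : ι → Θ → Set P} (h : ∀ i ∈ I, Mul r (n i) (K i) (F i)) (hK : ∀ i ∈ I, IsOpen (K i) ∧ (K i).Nonempty)
    (s : Finset Θ) (hs : (s : Set Θ).Pairwise r) (hc : ∑ i ∈ I, n i < s.card) :
    ∃ t ∈ s, ∀ i ∈ I, (K i ∩ F i t).Nonempty := by
  by_contra hcon
  push Not at hcon
  have h1 : s ⊆ I.biUnion fun i => s.filter fun t => K i ∩ F i t = ∅ := by
    intro t ht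
    obtain ⟨i, hi, hit⟩ := hcon t ht
    exact Finset.mem_biUnion.2 ⟨i, hi, Finset.mem_filter.2 ⟨ht, hit⟩⟩
  have h2 : ∀ i ∈ I, (s.filter fun t => K i ∩ F i t = ∅).card ≤ n i := by
    intro i hi
    by_contra hlt
    obtain ⟨t, ht, hne⟩ := h i hi (s.filter fun t => K i ∩ F i t = ∅)
      (hs.mono fun x hx => (Finset.mem_filter.1 hx).1) (by omega) (K i) subset_rfl (hK i hi).1 (hK i hi).2
    rw [(Finset.mem_filter.1 ht).2] at hne
    exact Set.not_nonempty_empty hne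
  have h3 := Finset.card_le_card h1
  have h4 := Finset.card_biUnion_le (s := I) (t := fun i => s.filter fun t => K i ∩ F i t = ∅)
  have h5 := Finset.sum_le_sum h2
  omega

end Pool.Agent.Bsw
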