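import Pool.Agent.Bsw.Lim

/-!
# Classification

`z = o ⊤`.  The class of an ordinal `e` is its remainder `z - e`; there are finitely many remainders.
-/

set_option autoImplicit false

open Set Filter Topology TopologicalSpace
open scoped Classical

namespace Pool.Agent.Bsw

variable {Q : Par}

/-- The remainders. -/
def Rem (z : Ordinal.{0}) : Set Ordinal.{0} := {ρ | ∃ e, z - e = ρ}

private theorem cl1_anti (z : Ordinal.{0}) {e e' : Ordinal.{0}} (h : e ≤ e') : z - e' ≤ z - e := by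
  rw [Ordinal.sub_le]
  exact (Ordinal.le_add_sub z e).trans (add_le_add_left h _)

/-- MODULE cl1 (size 1): remainders.

`finite_Rem`: `e ↦ z - e` is antitone.  If there were infinitely many remainders there would be a strictly increasing sequence `ρ_0 < ρ_1 < …` of remainders (`z - e_n = ρ_n`), and `e_0 > e_1 > …`: contradiction.
`rem_lt`: if `z - e < z - e'` then `e' < e` (antitone).  `rem_add`: `Ordinal.sub_sub`.  `rem_pos`: `z - e ≠ 0 ↔ e < z`. -/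
theorem finite_Rem (z : Ordinal.{0}) : (Rem z).Finite := by
  by_contra hinf
  have hinf' : (Rem z).Infinite := hinf
  let f : ℕ → Ordinal.{0} := fun n => (hinf'.natEmbedding (Rem z) n : Ordinal.{0})
  have hf : ∀ n, ∃ e, z - e = f n := fun n => (hinf'.natEmbedding (Rem z) n).2
  have hinj : Function.Injective f := fun a b h => (hinf'.natEmbedding (Rem z)).injective (Subtype.ext h)
  obtain ⟨g, hg | hg⟩ := exists_increasing_or_nonincreasing_subseq (fun a b : Ordinal.{0} => a < b) f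
  · choose e he using hf
    refine not_strictAnti_of_wellFoundedLT (fun n => e (g n)) fun m n hmn => ?_
    by_contra hle
    have h1 := cl1_anti z (not_lt.1 hle)
    rw [he, he] at h1
    exact absurd (hg m n hmn) (not_lt.2 h1)
  · refine not_strictAnti_of_wellFoundedLT (fun n => f (g n)) fun m n hmn => ?_
    refine lt_of_le_of_ne (not_lt.1 (hg m n hmn)) fun h => ?_
    exact absurd (g.injective (hinj h)) (ne_of_gt hmn)

theorem rem_anti (z : Ordinal.{0}) {e e' : Ordinal.{0}} (h : e ≤ e') : z - e' ≤ z - e := by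
  exact cl1_anti z h

theorem rem_lt {z e e' : Ordinal.{0}} (h : z - e < z - e') : e' < e := by
  by_contra hle
  exact absurd h (not_lt.2 (rem_anti z (not_lt.1 hle)))

theorem rem_pos {z e : Ordinal.{0}} : z - e ≠ 0 ↔ e < z := by
  rw [Ne, Ordinal.sub_eq_zero_iff_le, not_le]

/-- The least ordinal `≥ 1` with the remainder `ρ`. -/
noncomputable def bs (z ρ : Ordinal.{0}) : Ordinal.{0} := sInf {e | 1 ≤ e ∧ z - e = ρ}

theorem bs_spec {z e : Ordinal.{0}} (h : 1 ≤ e) : 1 ≤ bs z (z - e) ∧ z - bs z (z - e) = z - e ∧ bs z (z - e) ≤ e := by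
  have h1 : e ∈ {e' | 1 ≤ e' ∧ z - e' = z - e} := ⟨h, rfl⟩
  have h2 : bs z (z - e) ∈ {e' | 1 ≤ e' ∧ z - e' = z - e} := csInf_mem ⟨e, h1⟩
  exact ⟨h2.1, h2.2, csInf_le' h1⟩

/-- The exponent with base `g`: `e = bs + x`, `g + x`. -/
theorem rem_shift {z e g : Ordinal.{0}} (h : 1 ≤ e) (hg : z - g = z - e) :
    z - (g + (e - bs z (z - e))) = z - e := by
  obtain ⟨-, h2, h3⟩ := bs_spec (z := z) h
  rw [← Ordinal.sub_sub, hg]
  have h4 : z - e - (e - bs z (z - e)) = z - bs z (z - e) - (e - bs z (z - e)) := by rw [h2]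
  rw [h4, Ordinal.sub_sub, Ordinal.add_sub_cancel_of_le h3]

theorem shift_lt {z e e' g g' : Ordinal.{0}} (h : 1 ≤ e) (he : e < e') (hz : z - e = z - e') (hg : g ≤ g') :
    g + (e - bs z (z - e)) < g' + (e' - bs z (z - e')) := by
  obtain ⟨-, -, h3⟩ := bs_spec (z := z) h
  rw [← hz]
  have h4 : e - bs z (z - e) < e' - bs z (z - e) := by
    rw [← add_lt_add_iff_left (bs z (z - e)), Ordinal.add_sub_cancel_of_le h3,
      Ordinal.add_sub_cancel_of_le (h3.trans he.le)]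
    exact he
  exact lt_of_lt_of_le ((add_lt_add_iff_left g).2 h4) (add_le_add_left hg _)

/-! ## Exponents -/

/-- The levels of smaller class. -/
def cut (Q : Par) (ρ : Ordinal.{0}) : Set Q.L := {k | k ≠ ⊤ ∧ ρ < Q.o ⊤ - Q.o k}

/-- The least index of a level `≥ k` of the same class. -/
noncomputable def jx (k : Q.L) : ℕ := sInf {n | ∃ k', k ≤ k' ∧ k' ≠ ⊤ ∧ Q.o ⊤ - Q.o k' = Q.o ⊤ - Q.o k ∧ n = Q.ι k'}

/-- The admissible exponents: `G` the bases; in the dynamic case the base in the class `ρ` is `es (jx k)`. -/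
def AdmF (Q : Par) (G : Ordinal.{0} → Ordinal.{0}) (dyn : Bool) (ρ : Ordinal.{0}) (ex : Q.L → Ordinal.{0}) : Prop :=
  (dyn = false ∧ ∀ k, ex k = G (Q.o ⊤ - Q.o k) + (Q.o k - bs (Q.o ⊤) (Q.o ⊤ - Q.o k))) ∨
    (dyn = true ∧ ∃ es : ℕ → Ordinal.{0}, Monotone es ∧ (∀ n, G ρ ≤ es n ∧ Q.o ⊤ - es n = ρ) ∧
      ∀ k, ex k = (if Q.o ⊤ - Q.o k = ρ then es (jx k) else G (Q.o ⊤ - Q.o k)) +
        (Q.o k - bs (Q.o ⊤) (Q.o ⊤ - Q.o k)))

/-- The fixed levels. -/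
def FF (Q : Par) (dyn : Bool) (ρ : Ordinal.{0}) (n : ℕ) : Set Q.L :=
  {k | dyn = true → Q.o ⊤ - Q.o k = ρ → jx k ≤ n}

/-- The bases are in their classes and above the ordinals of `s`. -/
def GOk (Q : Par) (s : Finset Ordinal.{0}) (G : Ordinal.{0} → Ordinal.{0}) : Prop :=
  ∀ e, 1 ≤ e → 1 ≤ G (Q.o ⊤ - e) ∧ Q.o ⊤ - G (Q.o ⊤ - e) = Q.o ⊤ - e ∧
    ∀ e' ∈ s, Q.o ⊤ - e' = Q.o ⊤ - e → e' ≤ G (Q.o ⊤ - e)

/-- MODULE cl2 (size 2): properties of the exponents.  (`G ρ = max (bs z ρ) (sup {e ∈ s | z - e = ρ})`.)  All levels satisfy `1 ≤ o k`; `k ≠ ⊤`: `o k < z`, so `z - o k ≠ 0`.  `jx` is monotone in a class, `jx k ≤ ι k` for `k ≠ ⊤`.  `AdmF.rem`: `rem_shift`.  `AdmF.mono`: same class: `shift_lt`; different classes: `rem_lt`.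
`kap = z + 1` or `kap = z` (a limit ordinal), `ex k < z`. -/
theorem exists_GOk (Q : Par) (s : Finset Ordinal.{0}) : ∃ G, GOk Q s G := by
  have key : ∀ ρ : Ordinal.{0}, ∃ g : Ordinal.{0}, ∀ e, 1 ≤ e → Q.o ⊤ - e = ρ →
      1 ≤ g ∧ Q.o ⊤ - g = ρ ∧ ∀ e' ∈ s, Q.o ⊤ - e' = ρ → e' ≤ g := by
    intro ρ
    let t : Finset Ordinal.{0} := insert (bs (Q.o ⊤) ρ) (s.filter fun e => Q.o ⊤ - e = ρ)
    have ht : t.Nonempty := Finset.insert_nonempty _ _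
    refine ⟨t.max' ht, fun e he hρ => ?_⟩
    have hb := bs_spec (z := Q.o ⊤) he
    rw [hρ] at hb
    have hbt : bs (Q.o ⊤) ρ ≤ t.max' ht := Finset.le_max' _ _ (Finset.mem_insert_self _ _)
    refine ⟨hb.1.trans hbt, ?_, fun e' he' h' =>
      Finset.le_max' _ _ (Finset.mem_insert_of_mem (Finset.mem_filter.2 ⟨he', h'⟩))⟩
    rcases Finset.mem_insert.1 (Finset.max'_mem t ht) with h | h
    · rw [h]
      exact hb.2.1
    · exact (Finset.mem_filter.1 h).2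
  choose G hG using key
  exact ⟨G, fun e he => hG _ e he rfl⟩

theorem AdmF.rem {G : Ordinal.{0} → Ordinal.{0}} {s : Finset Ordinal.{0}} (hG : GOk Q s G) {dyn : Bool}
    {ρ : Ordinal.{0}} {ex : Q.L → Ordinal.{0}} (h : AdmF Q G dyn ρ ex) (k : Q.L) :
    Q.o ⊤ - ex k = Q.o ⊤ - Q.o k := by
  rcases h with ⟨-, h⟩ | ⟨-, es, -, h1, h⟩
  · rw [h k]
    exact rem_shift (Q.o_one k) (hG _ (Q.o_one k)).2.1
  · rw [h k]
    split_ifs with hc
    · exact rem_shift (Q.o_one k) (by rw [(h1 _).2, hc])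
    · exact rem_shift (Q.o_one k) (hG _ (Q.o_one k)).2.1

/-- The exponent is above its base. -/
private theorem cl2_base {G : Ordinal.{0} → Ordinal.{0}} {dyn : Bool}
    {ρ : Ordinal.{0}} {ex : Q.L → Ordinal.{0}} (h : AdmF Q G dyn ρ ex) (k : Q.L) :
    G (Q.o ⊤ - Q.o k) ≤ ex k := by
  rcases h with ⟨-, h⟩ | ⟨-, es, -, h1, h⟩
  · rw [h k]
    exact le_self_add
  · rw [h k]
    split_ifs with hc
    · rw [hc]
      exact (h1 _).1.trans le_self_add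
    · exact le_self_add

theorem AdmF.one {G : Ordinal.{0} → Ordinal.{0}} {s : Finset Ordinal.{0}} (hG : GOk Q s G) {dyn : Bool}
    {ρ : Ordinal.{0}} {ex : Q.L → Ordinal.{0}} (h : AdmF Q G dyn ρ ex) (k : Q.L) (hk : k ≠ ⊤) : 1 ≤ ex k :=
  (hG _ (Q.o_one k)).1.trans (cl2_base h k)

private theorem cl2_jx_mem {k : Q.L} (hk : k ≠ ⊤) :
    ∃ k', k ≤ k' ∧ k' ≠ ⊤ ∧ Q.o ⊤ - Q.o k' = Q.o ⊤ - Q.o k ∧ jx k = Q.ι k' :=
  Nat.sInf_mem (s := {n | ∃ k', k ≤ k' ∧ k' ≠ ⊤ ∧ Q.o ⊤ - Q.o k' = Q.o ⊤ - Q.o k ∧ n = Q.ι k'})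
    ⟨Q.ι k, k, le_rfl, hk, rfl, rfl⟩

private theorem cl2_jx_le {k : Q.L} (hk : k ≠ ⊤) : jx k ≤ Q.ι k :=
  Nat.sInf_le ⟨k, le_rfl, hk, rfl, rfl⟩

private theorem cl2_jx_mono {k k' : Q.L} (hk : k ≤ k') (hk' : k' ≠ ⊤) (hc : Q.o ⊤ - Q.o k = Q.o ⊤ - Q.o k') :
    jx k ≤ jx k' := by
  obtain ⟨k'', h1, h2, h3, h4⟩ := cl2_jx_mem hk'
  rw [h4]
  exact Nat.sInf_le ⟨k'', hk.trans h1, h2, h3.trans hc.symm, rfl⟩

private theorem cl2_lt_top {k : Q.L} (hk : k ≠ ⊤) : Q.o k < Q.o ⊤ := Q.o_mono (lt_top_iff_ne_top.2 hk)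

theorem AdmF.mono {G : Ordinal.{0} → Ordinal.{0}} {s : Finset Ordinal.{0}} (hG : GOk Q s G) {dyn : Bool}
    {ρ : Ordinal.{0}} {ex : Q.L → Ordinal.{0}} (h : AdmF Q G dyn ρ ex) {k k' : Q.L} (hk : k < k') (hk' : k' ≠ ⊤) :
    ex k < ex k' := by
  have ho := Q.o_mono hk
  by_cases hc : Q.o ⊤ - Q.o k = Q.o ⊤ - Q.o k'
  · rcases h with ⟨-, h⟩ | ⟨-, es, hes, h1, h⟩
    · rw [h k, h k']
      exact shift_lt (Q.o_one k) ho hc (by rw [hc])
    · rw [h k, h k']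
      by_cases hρ : Q.o ⊤ - Q.o k = ρ
      · rw [if_pos hρ, if_pos (hc ▸ hρ)]
        exact shift_lt (Q.o_one k) ho hc (hes (cl2_jx_mono hk.le hk' hc))
      · rw [if_neg hρ, if_neg (hc ▸ hρ)]
        exact shift_lt (Q.o_one k) ho hc (by rw [hc])
  · apply rem_lt (z := Q.o ⊤)
    rw [AdmF.rem hG h, AdmF.rem hG h]
    exact lt_of_le_of_ne (rem_anti _ ho.le) (Ne.symm hc)

theorem AdmF.lt {G : Ordinal.{0} → Ordinal.{0}} {s : Finset Ordinal.{0}} (hG : GOk Q s G) {dyn : Bool}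
    {ρ : Ordinal.{0}} {ex : Q.L → Ordinal.{0}} (h : AdmF Q G dyn ρ ex) {k : Q.L} (hk : k ≠ ⊤) :
    ex k < Q.o ⊤ ∧ ex k + 1 < Q.kap := by
  have h1 : ex k < Q.o ⊤ := by
    apply rem_pos.1
    rw [AdmF.rem hG h]
    exact rem_pos.2 (cl2_lt_top hk)
  refine ⟨h1, ?_⟩
  unfold Par.kap
  split_ifs with hm
  · simpa using h1
  · have := (Q.lim (by simpa using hm)).succ_lt h1
    simpa [Order.succ_eq_add_one] using this

theorem exists_AdmF {G : Ordinal.{0} → Ordinal.{0}} {s : Finset Ordinal.{0}} (hG : GOk Q s G) {dyn : Bool}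
    {ρ : Ordinal.{0}} (hρ : dyn = true → ∃ e, 1 ≤ e ∧ Q.o ⊤ - e = ρ) : ∃ ex, AdmF Q G dyn ρ ex := by
  cases dyn with
  | false => exact ⟨_, Or.inl ⟨rfl, fun k => rfl⟩⟩
  | true =>
    obtain ⟨e, he, hz⟩ := hρ rfl
    refine ⟨_, Or.inr ⟨rfl, fun _ => G ρ, fun _ _ _ => le_rfl, fun n => ⟨le_rfl, ?_⟩, fun k => rfl⟩⟩
    have := (hG e he).2.1
    rwa [hz] at this

theorem FF_iota (dyn : Bool) (ρ : Ordinal.{0}) (hρ : dyn = true → ρ ≠ 0) {n : ℕ} {k : Q.L} (h : Q.ι k ≤ n) :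
    k ∈ FF Q dyn ρ n := by
  intro hd hk
  have h1 : k ≠ ⊤ := by
    rintro rfl
    apply hρ hd
    rw [← hk, Ordinal.sub_self]
  exact (cl2_jx_le h1).trans h

theorem FF_mono (dyn : Bool) (ρ : Ordinal.{0}) : Monotone (FF Q dyn ρ) :=
  fun _ _ hnm _ hk hd hr => (hk hd hr).trans hnm

/-- Comparison with an ordinal `e` of the class `ρ'`. -/
theorem AdmF.lt_of_cut {G : Ordinal.{0} → Ordinal.{0}} {s : Finset Ordinal.{0}} (hG : GOk Q s G) {dyn : Bool}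
    {ρ : Ordinal.{0}} {ex : Q.L → Ordinal.{0}} (h : AdmF Q G dyn ρ ex) {k : Q.L} {e : Ordinal.{0}}
    (hk : k ∈ cut Q (Q.o ⊤ - e)) : ex k < e := by
  apply rem_lt (z := Q.o ⊤)
  rw [AdmF.rem hG h]
  exact hk.2

theorem AdmF.le_of_not_cut {G : Ordinal.{0} → Ordinal.{0}} {s : Finset Ordinal.{0}} (hG : GOk Q s G) {dyn : Bool}
    {ρ : Ordinal.{0}} {ex : Q.L → Ordinal.{0}} (h : AdmF Q G dyn ρ ex) {k : Q.L} {e : Ordinal.{0}} (he : e ∈ s)
    (hk : k ∉ cut Q (Q.o ⊤ - e)) (hk' : k ≠ ⊤) : e ≤ ex k := by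
  have h1 : Q.o ⊤ - Q.o k ≤ Q.o ⊤ - e := not_lt.1 fun hc => hk ⟨hk', hc⟩
  rcases h1.lt_or_eq with h2 | h2
  · refine (rem_lt (z := Q.o ⊤) (e := ex k) ?_).le
    rw [AdmF.rem hG h]
    exact h2
  · exact ((hG _ (Q.o_one k)).2.2 e he h2.symm).trans (cl2_base h k)

/-- MODULE cl3 (size 2): the dynamic case.

`AdmF.bound`: `e*` = the maximum of `G ρ` and of the `ex k'` for the finitely many `k' ≠ ⊤` with `ι k' ≤ n`, `z - o k' = ρ`: if `z - o k = ρ` and `jx k ≤ n` then `k ≤ k'` for such a `k'` (`ex k ≤ ex k'`).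
`AdmF.raise`: `es' i = es i` for `i ≤ n`, `max (es i) e` for `i > n`. -/
theorem AdmF.bound {G : Ordinal.{0} → Ordinal.{0}} {s : Finset Ordinal.{0}} (hG : GOk Q s G)
    {ρ : Ordinal.{0}} (hρ : ∃ e, 1 ≤ e ∧ Q.o ⊤ - e = ρ) {ex : Q.L → Ordinal.{0}} (h : AdmF Q G true ρ ex) (n : ℕ) :
    ∃ e', 1 ≤ e' ∧ Q.o ⊤ - e' = ρ ∧ ∀ k : Q.L, k ≠ ⊤ → Q.o ⊤ - Q.o k = ρ → jx k ≤ n → ex k ≤ e' := by
  obtain ⟨e₀, he₀, hz⟩ := hρ
  have hfin : {k : Q.L | Q.ι k ≤ n ∧ Q.o ⊤ - Q.o k = ρ}.Finite :=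
    ((Set.finite_Iic n).preimage Q.ι_inj.injOn).subset fun k hk => hk.1
  have hfin' : (insert (G ρ) (ex '' {k : Q.L | Q.ι k ≤ n ∧ Q.o ⊤ - Q.o k = ρ})).Finite :=
    (hfin.image ex).insert _
  obtain ⟨e', he', hmax⟩ := hfin'.exists_maximalFor id _ ⟨G ρ, Set.mem_insert _ _⟩
  have hmax' : ∀ x ∈ insert (G ρ) (ex '' {k : Q.L | Q.ι k ≤ n ∧ Q.o ⊤ - Q.o k = ρ}), x ≤ e' := fun x hx => by
    rcases le_total x e' with h1 | h1
    · exact h1
    · exact hmax hx h1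
  have hGρ := hG e₀ he₀
  rw [hz] at hGρ
  refine ⟨e', hGρ.1.trans (hmax' _ (Set.mem_insert _ _)), ?_, fun k hk hkρ hj => ?_⟩
  · rcases he' with he' | ⟨k, hk, hk'⟩
    · rw [he']
      exact hGρ.2.1
    · rw [← hk', AdmF.rem hG h]
      exact hk.2
  · obtain ⟨k', h1, h2, h3, h4⟩ := cl2_jx_mem hk
    have h5 : ex k ≤ ex k' := by
      rcases h1.lt_or_eq with h6 | h6
      · exact (AdmF.mono hG h h6 h2).le
      · rw [h6]
    exact h5.trans (hmax' _ (Set.mem_insert_of_mem _ ⟨k', ⟨h4 ▸ hj, h3.trans hkρ⟩, rfl⟩))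

theorem AdmF.raise {G : Ordinal.{0} → Ordinal.{0}} {s : Finset Ordinal.{0}} (hG : GOk Q s G)
    {ρ : Ordinal.{0}} {ex : Q.L → Ordinal.{0}} (h : AdmF Q G true ρ ex) (n : ℕ) {e : Ordinal.{0}}
    (he : Q.o ⊤ - e = ρ) :
    ∃ ex', AdmF Q G true ρ ex' ∧ (∀ k ∈ FF Q true ρ n, ex' k = ex k) ∧ (∀ k, ex k ≤ ex' k) ∧
      ∀ k : Q.L, Q.o ⊤ - Q.o k = ρ → n < jx k → e ≤ ex' k := by
  rcases h with ⟨h0, -⟩ | ⟨-, es, hes, h1, h⟩
  · cases h0
  let es' : ℕ → Ordinal.{0} := fun i => if i ≤ n then es i else max (es i) e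
  have hle : ∀ i, es i ≤ es' i := fun i => by
    simp only [es']
    split_ifs
    · exact le_rfl
    · exact le_max_left _ _
  have hmono : Monotone es' := by
    intro i j hij
    by_cases hj : j ≤ n
    · simp only [es', if_pos hj, if_pos (hij.trans hj)]
      exact hes hij
    · by_cases hi : i ≤ n
      · simp only [es', if_neg hj, if_pos hi]
        exact (hes hij).trans (le_max_left _ _)
      · simp only [es', if_neg hj, if_neg hi]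
        exact max_le_max (hes hij) le_rfl
  refine ⟨fun k => (if Q.o ⊤ - Q.o k = ρ then es' (jx k) else G (Q.o ⊤ - Q.o k)) +
    (Q.o k - bs (Q.o ⊤) (Q.o ⊤ - Q.o k)), Or.inr ⟨rfl, es', hmono, fun i => ⟨(h1 i).1.trans (hle i), ?_⟩,
      fun k => rfl⟩, fun k hk => ?_, fun k => ?_, fun k hk hn => ?_⟩
  · simp only [es']
    split_ifs
    · exact (h1 i).2
    · rcases max_choice (es i) e with h2 | h2
      · rw [h2]
        exact (h1 i).2
      · rw [h2, he]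
  · rw [h k]
    by_cases hc : Q.o ⊤ - Q.o k = ρ
    · simp only [if_pos hc, es', if_pos (hk rfl hc)]
    · simp only [if_neg hc]
  · rw [h k]
    by_cases hc : Q.o ⊤ - Q.o k = ρ
    · simp only [if_pos hc]
      exact add_le_add_left (hle _) _
    · simp only [if_neg hc]
      exact le_rfl
  · simp only [if_pos hk, es', if_neg (not_le.2 hn)]
    exact (le_max_right _ _).trans le_self_add

/-! ## The types -/

/-- Codes of types. -/
structure Cd where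
  cl : Fin 3
  ca : Bool
  da : Bool
  ρA : Ordinal.{0}
  cb : Bool
  dyn : Bool
  ρB : Ordinal.{0}

/-- MODULE cl4 (size 1): the sets of levels are lower sets. -/
theorem cut_lower (Q : Par) (ρ : Ordinal.{0}) : IsLowerSet (cut Q ρ) := by
  intro k k' hk h
  refine ⟨fun hc => h.1 (top_le_iff.1 (hc ▸ hk)), h.2.trans_le (rem_anti _ (Q.o_mono.monotone hk))⟩

theorem cutd_lower (Q : Par) (ρ : Ordinal.{0}) (n : ℕ) :
    IsLowerSet (cut Q ρ ∪ {k : Q.L | k ≠ ⊤ ∧ Q.o ⊤ - Q.o k = ρ ∧ jx k ≤ n}) := by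
  rintro k k' hk (h | ⟨h1, h2, h3⟩)
  · exact Or.inl (cut_lower Q ρ hk h)
  · have h4 : Q.o ⊤ - Q.o k ≤ Q.o ⊤ - Q.o k' := rem_anti _ (Q.o_mono.monotone hk)
    have h5 : k' ≠ ⊤ := fun hc => h1 (top_le_iff.1 (hc ▸ hk))
    rcases h4.lt_or_eq with h6 | h6
    · exact Or.inl ⟨h5, h2 ▸ h6⟩
    · exact Or.inr ⟨h5, h6.symm.trans h2, (cl2_jx_mono hk h1 h6.symm).trans h3⟩

/-- The type of a code. -/
noncomputable def mkTy (Q : Par) (c : Cd) : Ty Q where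
  cl := c.cl
  cA := c.ca
  DA := if c.da = true then univ else cut Q c.ρA
  cB := c.cb
  DB := fun r => if c.dyn = true ∧ c.cl ≠ 0 then cut Q c.ρB ∪ {k | k ≠ ⊤ ∧ Q.o ⊤ - Q.o k = c.ρB ∧ jx k ≤ r.length}
    else cut Q c.ρB
  lowA := by
    split_ifs
    · exact isLowerSet_univ
    · exact cut_lower Q _
  lowB := fun r => by
    split_ifs
    · exact cutd_lower Q _ _
    · exact cut_lower Q _
  top := fun r => by
    split_ifs
    · rintro (h | h)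
      · exact h.1 rfl
      · exact h.1 rfl
    · exact fun h => h.1 rfl
  const := fun h r => by
    have h' : ¬ (c.dyn = true ∧ c.cl ≠ 0) := fun e => e.2 h
    rw [if_neg h', if_neg h']

/-- The finite set of the codes which are used. -/
def Cds (Q : Par) : Set Cd := {c | c.ρA ∈ Rem (Q.o ⊤) ∧ c.ρB ∈ Rem (Q.o ⊤)}

theorem finite_Cds (Q : Par) : (Cds Q).Finite := by
  have hR := finite_Rem (Q.o ⊤)
  refine (((Set.finite_univ (α := Fin 3 × Bool × Bool × Bool × Bool)).prod (hR.prod hR)).image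
    fun p => (⟨p.1.1, p.1.2.1, p.1.2.2.1, p.2.1, p.1.2.2.2.1, p.1.2.2.2.2, p.2.2⟩ : Cd)).subset ?_
  rintro ⟨cl, ca, da, ρA, cb, dyn, ρB⟩ ⟨h1, h2⟩
  exact ⟨((cl, ca, da, cb, dyn), (ρA, ρB)), ⟨Set.mem_univ _, h1, h2⟩, rfl⟩

/-! ## Pairs -/

/-- The basic data. -/
structure Bas where
  P : Type
  [met : MetricSpace P]
  [cmp : CompleteSpace P]
  [sec : SecondCountableTopology P]
  ξ : P → CC
  f : P → CC
  hξ : Continuous ξ
  hf : Continuous f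

attribute [instance] Bas.met Bas.cmp Bas.sec

/-- Pairs of order `κ`. -/
structure PairB (b : Bas) (κ : Ordinal.{0}) (S E : Set b.P) : Prop where
  oS : IsOpen S
  oE : IsOpen E
  ne : S.Nonempty
  hclo : S ⊆ clo b.ξ (κ + 1) E
  nc : ∀ S' ⊆ S, IsOpen S' → S'.Nonempty → ∃ x ∈ S', ∃ y ∈ S', b.ξ x ≠ b.ξ y

/-- The index of `D`, cut at `z`. -/
structure Idx (b : Bas) (z e : Ordinal.{0}) (D : Set b.P) : Prop where
  le : e ≤ z
  out : ∀ e' < e, ∀ D' ⊆ D, IsOpen D' → D'.Nonempty → ¬ Co b.ξ b.f e' D'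
  cin : e < z → Co b.ξ b.f e D

/-- MODULE cl5 (size 1).  `exists_Idx`: the least `e < z` for which there is an open nonempty `D ⊆ W` with `Co e D` (`Co.mono`), or `z`, `D = W`.
`PairB.inter`: for a test set `N` of order `κ` with `S ∩ N ≠ ∅`... (`N` a test set of order `κ + 1`): `(S ∩ N, E ∩ N)` is a pair (`Cf.inter_clo`).  `PairB.clo`: `S ⊆ clo (κ+1) (E ∩ clo κ S)`. -/
theorem exists_Idx (b : Bas) (z : Ordinal.{0}) {W : Set b.P} (hW : IsOpen W) (hne : W.Nonempty) :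
    ∃ D ⊆ W, IsOpen D ∧ D.Nonempty ∧ ∃ e, Idx b z e D := by
  by_cases hT : ({e : Ordinal.{0} | e < z ∧ ∃ D ⊆ W, IsOpen D ∧ D.Nonempty ∧ Co b.ξ b.f e D}).Nonempty
  · have hm := csInf_mem hT
    set e := sInf {e : Ordinal.{0} | e < z ∧ ∃ D ⊆ W, IsOpen D ∧ D.Nonempty ∧ Co b.ξ b.f e D} with he
    obtain ⟨hez, D, hDW, hDo, hDn, hC⟩ := hm
    refine ⟨D, hDW, hDo, hDn, e, hez.le, ?_, fun _ => hC⟩
    intro e' he' D' hD' hD'o hD'n hC'
    have h1 : e ≤ e' := csInf_le' ⟨he'.trans hez, D', hD'.trans hDW, hD'o, hD'n, hC'⟩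
    exact absurd he' (not_lt.2 h1)
  · refine ⟨W, Subset.rfl, hW, hne, z, le_rfl, ?_, fun h => absurd h (lt_irrefl _)⟩
    intro e' he' D' hD' hD'o hD'n hC'
    exact hT ⟨e', he', D', hD', hD'o, hD'n, hC'⟩

theorem Idx.mono {b : Bas} {z e : Ordinal.{0}} {D D' : Set b.P} (h : Idx b z e D) (h' : D' ⊆ D) : Idx b z e D' := by
  exact ⟨h.le, fun e' he' D'' hD'' => h.out e' he' D'' (hD''.trans h'), fun hz => Co.mono le_rfl h' (h.cin hz)⟩

theorem PairB.inter {b : Bas} {κ : Ordinal.{0}} {S E N : Set b.P} (h : PairB b κ S E) (hN : Cf b.ξ (κ + 1) N)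
    (hne : (S ∩ N).Nonempty) : PairB b κ (S ∩ N) (E ∩ N) := by
  have hNo := hN.isOpen b.hξ
  refine ⟨h.oS.inter hNo, h.oE.inter hNo, hne, ?_, fun S' hS' => h.nc S' (hS'.trans inter_subset_left)⟩
  intro x hx
  rw [inter_comm E N]
  exact Cf.inter_clo b.hξ hN ⟨hx.2, h.hclo hx.1⟩

theorem PairB.clo {b : Bas} {κ : Ordinal.{0}} {S E : Set b.P} (h : PairB b κ S E) :
    PairB b κ S (E ∩ clo b.ξ κ S) ∧ (E ∩ Bsw.clo b.ξ κ S).Nonempty := by
  have hN : Cf b.ξ (κ + 1) (Bsw.clo b.ξ κ S) := Cf_clo (Order.lt_add_one_iff.2 le_rfl) S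
  have h1 : S ⊆ Bsw.clo b.ξ (κ + 1) (E ∩ Bsw.clo b.ξ κ S) := by
    intro x hx
    rw [inter_comm]
    exact Cf.inter_clo b.hξ hN ⟨subset_clo h.oS hx, h.hclo hx⟩
  refine ⟨⟨h.oS, h.oE.inter (isOpen_clo _ _ _), h.ne, h1, h.nc⟩, ?_⟩
  obtain ⟨x, hx⟩ := h.ne
  obtain ⟨y, _, hy⟩ := meets_clo (ξ := b.ξ) (k := κ + 1) (N := univ) Cf_univ ⟨x, mem_univ x, h1 hx⟩
  exact ⟨y, hy⟩

/-- MODULE cl6 (size 3): class III.

If some subpair `(S, E)` of `(S0, E0)` and some `e < κ` have `Co e E`, let `e` be the least such ordinal (over all subpairs), with the subpair `(S, E)`; replace `E` by `E ∩ clo κ S` (`PairB.clo`).  Claim: `¬ Co e' D` for all open nonempty `D ⊆ E` and `e' < e`.  Suppose `Co e' D`.  `N = clo e D` is a test set of order `κ`, `∅ ≠ D ⊆ clo κ S`, so `S' = S ∩ N ≠ ∅` and `(S', E'')`, `E'' = E ∩ clo e D`, is a pair.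
It suffices to show `Co e' E''` (contradiction with the minimality of `e`).  Suppose `W = E'' ∩ f ⁻¹' θ ∩ clo e' (E'' \ f ⁻¹' θ) ≠ ∅`.  `D = (D ∩ f ⁻¹' θ) ∪ (D \ f ⁻¹' θ)`.  `W` is disjoint from `clo e (D \ f ⁻¹' θ) ⊆ clo e (E \ f ⁻¹' θ)` by `Co e E`, so `W ⊆ clo e (D ∩ f ⁻¹' θ)` (`subset_clo_of_union`); similarly (with `θᶜ`) `E'' \ f ⁻¹' θ ⊆ clo e (D \ f ⁻¹' θ)`.
So `W ⊆ clo e' (clo e (D \ f ⁻¹' θ)) ⊆ clo e' (D \ f ⁻¹' θ) =: K` (`clo_clo_le`), a test set of order `e' + 1 ≤ e`; `K` meets `W ⊆ clo e (D ∩ f ⁻¹' θ)`, so `K ∩ D ∩ f ⁻¹' θ ≠ ∅`: contradicts `Co e' D`. -/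
theorem classIII (b : Bas) {κ : Ordinal.{0}} {S0 E0 : Set b.P} (h : PairB b κ S0 E0) :
    (∃ S ⊆ S0, ∃ E ⊆ E0, PairB b κ S E ∧ ∃ e < κ, Co b.ξ b.f e E ∧
      ∀ e' < e, ∀ D ⊆ E, IsOpen D → D.Nonempty → ¬ Co b.ξ b.f e' D) ∨
    ∀ S ⊆ S0, ∀ E ⊆ E0, PairB b κ S E → ∀ e < κ, ¬ Co b.ξ b.f e E := by
  by_cases hT : ({e : Ordinal.{0} | e < κ ∧ ∃ S ⊆ S0, ∃ E ⊆ E0, PairB b κ S E ∧ Co b.ξ b.f e E}).Nonempty
  · left
    have hm := csInf_mem hT
    set e := sInf {e : Ordinal.{0} | e < κ ∧ ∃ S ⊆ S0, ∃ E ⊆ E0, PairB b κ S E ∧ Co b.ξ b.f e E} with he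
    obtain ⟨heκ, S, hS, E1, hE1, hp, hC1⟩ := hm
    obtain ⟨hp2, -⟩ := hp.clo
    have hCE : Co b.ξ b.f e (E1 ∩ clo b.ξ κ S) := Co.mono le_rfl inter_subset_left hC1
    set E := E1 ∩ clo b.ξ κ S with hE
    refine ⟨S, hS, E, inter_subset_left.trans hE1, hp2, e, heκ, hCE, ?_⟩
    intro e' he' D hD hDo hDn hCD
    have hNκ : Cf b.ξ κ (clo b.ξ e D) := Cf_clo heκ D
    have hN : Cf b.ξ (κ + 1) (clo b.ξ e D) := hNκ.mono (Order.lt_add_one_iff.2 le_rfl).le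
    obtain ⟨x0, hx0⟩ := hDn
    have hne : (S ∩ clo b.ξ e D).Nonempty := by
      rw [inter_comm]
      exact meets_clo hNκ ⟨x0, subset_clo hDo hx0, (hD hx0).2⟩
    have hp3 := hp2.inter hN hne
    have hC3 : Co b.ξ b.f e' (E ∩ clo b.ξ e D) := by
      intro θ
      rw [← Set.not_nonempty_iff_eq_empty]
      intro hWn
      have hθo : IsOpen (b.f ⁻¹' (θ : Set CC)) := θ.isClopen.isOpen.preimage b.hf
      have hθc : IsOpen (b.f ⁻¹' (θ : Set CC))ᶜ := by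
        rw [← preimage_compl]
        exact θ.isClopen.compl.isOpen.preimage b.hf
      set W := E ∩ clo b.ξ e D ∩ b.f ⁻¹' θ ∩ clo b.ξ e' ((E ∩ clo b.ξ e D) \ b.f ⁻¹' θ) with hW
      have hEo : IsOpen (E ∩ clo b.ξ e D) := hp3.oE
      have hWo : IsOpen W := (hEo.inter hθo).inter (isOpen_clo _ _ _)
      have hW1 : W ⊆ clo b.ξ e (D ∩ b.f ⁻¹' θ) := by
        refine subset_clo_of_union (G₁ := D \ b.f ⁻¹' θ) b.hξ hWo ?_ ?_
        · rw [sdiff_union_inter]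
          exact fun x hx => hx.1.1.2
        · rw [← Set.not_nonempty_iff_eq_empty]
          rintro ⟨x, hx1, hx2⟩
          have h1 : x ∈ E ∩ b.f ⁻¹' θ ∩ clo b.ξ e (E \ b.f ⁻¹' θ) :=
            ⟨⟨hx1.1.1.1, hx1.1.2⟩, clo_mono (sdiff_subset_sdiff_left hD) hx2⟩
          rw [hCE θ] at h1
          exact h1
      have hW2o : IsOpen ((E ∩ clo b.ξ e D) \ b.f ⁻¹' θ) := hEo.inter hθc
      have hW2 : (E ∩ clo b.ξ e D) \ b.f ⁻¹' θ ⊆ clo b.ξ e (D \ b.f ⁻¹' θ) := by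
        refine subset_clo_of_union (G₁ := D ∩ b.f ⁻¹' θ) b.hξ hW2o ?_ ?_
        · rw [inter_union_sdiff]
          exact fun x hx => hx.1.2
        · rw [← Set.not_nonempty_iff_eq_empty]
          rintro ⟨x, hx1, hx2⟩
          have h1 : x ∈ E ∩ b.f ⁻¹' (θᶜ : Clopens CC) ∩ clo b.ξ e (E \ b.f ⁻¹' (θᶜ : Clopens CC)) := by
            refine ⟨⟨hx1.1.1, hx1.2⟩, clo_mono ?_ hx2⟩
            rintro y ⟨hy1, hy2⟩
            exact ⟨hD hy1, fun h => h hy2⟩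
          rw [hCE θᶜ] at h1
          exact h1
      have hK : W ⊆ clo b.ξ e' (D \ b.f ⁻¹' θ) := by
        intro x hx
        exact clo_clo_le he'.le (clo_mono hW2 hx.2)
      have hKt : Cf b.ξ e (clo b.ξ e' (D \ b.f ⁻¹' θ)) := Cf_clo he' _
      obtain ⟨x, hx⟩ := hWn
      obtain ⟨y, hy1, hy2⟩ := meets_clo hKt ⟨x, hK hx, hW1 hx⟩
      have h1 : y ∈ D ∩ b.f ⁻¹' θ ∩ clo b.ξ e' (D \ b.f ⁻¹' θ) := ⟨hy2, hy1⟩
      rw [hCD θ] at h1
      exact h1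
    have h1 : e ≤ e' := csInf_le' ⟨he'.trans heκ, S ∩ clo b.ξ e D, inter_subset_left.trans hS,
      E ∩ clo b.ξ e D, (inter_subset_left.trans inter_subset_left).trans hE1, hp3, hC3⟩
    exact absurd he' (not_lt.2 h1)
  · right
    intro S hS E hE hp e he hC
    exact hT ⟨e, he, S, hS, E, hE, hp, hC⟩

/-- The cells which are available for the pair: class I. -/
def Av1 (b : Bas) (κ : Ordinal.{0}) (S E D : Set b.P) : Prop :=
  ∃ A : Clopens CC, D ⊆ E ∩ b.f ⁻¹' A ∧ D ⊆ clo b.ξ κ (S ∩ clo b.ξ (κ + 1) (E \ b.f ⁻¹' A))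

/-- Class II. -/
def Av2 (b : Bas) (κ : Ordinal.{0}) (S E D : Set b.P) : Prop := D ⊆ E ∩ clo b.ξ κ S

/-- The indices of the available cells are homogeneous: constant, static or dynamic. -/
structure Hom (b : Bas) (κ z : Ordinal.{0}) (Av : Set b.P → Set b.P → Set b.P → Prop) (S1 E1 : Set b.P)
    (cb dyn : Bool) (ρ : Ordinal.{0}) : Prop where
  con : cb = true → dyn = false ∧ ∀ S ⊆ S1, ∀ E ⊆ E1, PairB b κ S E →
    ∃ D, IsOpen D ∧ D.Nonempty ∧ Av S E D ∧ Idx b z 0 D ∧ Co b.ξ b.f 0 D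
  sta : cb = false → dyn = false → ∃ e', 1 ≤ e' ∧ z - e' = ρ ∧ ∀ S ⊆ S1, ∀ E ⊆ E1, PairB b κ S E →
    ∃ D e, IsOpen D ∧ D.Nonempty ∧ Av S E D ∧ Idx b z e D ∧ 1 ≤ e ∧ z - e = ρ ∧ e ≤ e'
  dy : cb = false → dyn = true → ρ ≠ 0 ∧ (∃ e, 1 ≤ e ∧ z - e = ρ) ∧ ∀ S ⊆ S1, ∀ E ⊆ E1, PairB b κ S E →
    ∀ e', 1 ≤ e' → z - e' = ρ → ∃ D e, IsOpen D ∧ D.Nonempty ∧ Av S E D ∧ Idx b z e D ∧ z - e = ρ ∧ e' < e

/-- MODULE cl7 (size 3): homogeneity.

Proof.  `z ≥ 1`.  For an ordinal `e` let `kc e = 0` if `e = 0` and `kc e = bs z (z - e)` otherwise: monotone in `e` (`rem_anti`), with finite range (`finite_Rem`).  For a pair `p = (S, E)` let `m p` be the least `kc e` for which there is an available open nonempty `D` with `Idx z e D` (exists: `hne`, `exists_Idx`, `hher`).  For subpairs `p' ≤ p`: `m p ≤ m p'` (`hmono`).  The values `m p` are in a finite set; let `p1` be a subpair of `(S0, E0)` for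 which `m p1` is maximal: then
`m p = m p1 =: c` for all subpairs `p` of `p1`, so every subpair has an available `D` with `Idx z e D`, `kc e = c`.  If `c = 0`: `e = 0`: constant (`ρ = 0`, `cb = true`, `dyn = false`; `Co 0 D` as `0 < z`).  Otherwise `ρ = z - c`; `kc e = c` iff `1 ≤ e` and `z - e = ρ`.  If there is a subpair `p2` of `p1` and `e'` (`1 ≤ e'`, `z - e' = ρ`) such that every subpair of `p2` has such a `D` with `e ≤ e'`: static, with `p2`.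
Otherwise dynamic: for a subpair `p` of `p1` and `e'` there is a subpair `p'` of `p` without such a `D` with `e ≤ e'`; it has one with `kc e = c`, so `e > e'`, and it is available for `p`.  `ρ ≠ 0`: if `ρ = 0` then `e' = z` and `e ≤ z`. -/
theorem homog (b : Bas) {κ z : Ordinal.{0}} (hz : 1 ≤ z) {Av : Set b.P → Set b.P → Set b.P → Prop}
    (hmono : ∀ S S' E E' D, S' ⊆ S → E' ⊆ E → Av S' E' D → Av S E D)
    (hher : ∀ S E D D', D' ⊆ D → Av S E D → Av S E D') {S0 E0 : Set b.P} (h : PairB b κ S0 E0)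
    (hne : ∀ S ⊆ S0, ∀ E ⊆ E0, PairB b κ S E → ∃ D, IsOpen D ∧ D.Nonempty ∧ Av S E D) :
    ∃ S1 ⊆ S0, ∃ E1 ⊆ E0, PairB b κ S1 E1 ∧ ∃ cb dyn, ∃ ρ ∈ Rem z, Hom b κ z Av S1 E1 cb dyn ρ := by
  set kc : Ordinal.{0} → Ordinal.{0} := fun e => if e = 0 then 0 else bs z (z - e) with hkc
  set V : Set b.P → Set b.P → Set Ordinal.{0} := fun S E =>
    {x | ∃ D e, IsOpen D ∧ D.Nonempty ∧ Av S E D ∧ Idx b z e D ∧ x = kc e} with hV
  have hVn : ∀ S ⊆ S0, ∀ E ⊆ E0, PairB b κ S E → (V S E).Nonempty := by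
    intro S hS E hE hp
    obtain ⟨W, hWo, hWn, hWA⟩ := hne S hS E hE hp
    obtain ⟨D, hDW, hDo, hDn, e, hI⟩ := exists_Idx b z hWo hWn
    exact ⟨kc e, D, e, hDo, hDn, hher S E W D hDW hWA, hI, rfl⟩
  have hVm : ∀ S S' E E', S' ⊆ S → E' ⊆ E → V S' E' ⊆ V S E := by
    rintro S S' E E' hS hE x ⟨D, e, h1, h2, h3, h4, h5⟩
    exact ⟨D, e, h1, h2, hmono S S' E E' D hS hE h3, h4, h5⟩
  set M : Set Ordinal.{0} := {x | ∃ S ⊆ S0, ∃ E ⊆ E0, PairB b κ S E ∧ x = sInf (V S E)} with hM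
  have hMf : M.Finite := by
    refine ((finite_Rem z).image (bs z) |>.insert 0).subset ?_
    rintro x ⟨S, hS, E, hE, hp, rfl⟩
    obtain ⟨D, e, -, -, -, -, h5⟩ := csInf_mem (hVn S hS E hE hp)
    rw [h5]
    by_cases h0 : e = 0
    · left
      simp only [hkc, if_pos h0]
    · right
      simp only [hkc, if_neg h0]
      exact ⟨z - e, ⟨e, rfl⟩, rfl⟩
  obtain ⟨c, ⟨S1, hS1, E1, hE1, hp1, hc⟩, hmax⟩ :=
    Set.exists_max_image M id hMf ⟨_, S0, Subset.rfl, E0, Subset.rfl, h, rfl⟩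
  simp only [id_eq] at hmax
  have hall : ∀ S ⊆ S1, ∀ E ⊆ E1, PairB b κ S E → ∃ D e, IsOpen D ∧ D.Nonempty ∧ Av S E D ∧ Idx b z e D ∧
      kc e = c := by
    intro S hS E hE hp
    have h1 : sInf (V S E) ≤ c := hmax _ ⟨S, hS.trans hS1, E, hE.trans hE1, hp, rfl⟩
    have h2 : c ≤ sInf (V S E) := by
      rw [hc]
      exact csInf_le_csInf' (hVn S (hS.trans hS1) E (hE.trans hE1) hp) (hVm S1 S E1 E hS hE)
    obtain ⟨D, e, h3, h4, h5, h6, h7⟩ := csInf_mem (hVn S (hS.trans hS1) E (hE.trans hE1) hp)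
    exact ⟨D, e, h3, h4, h5, h6, h7.symm.trans (le_antisymm h1 h2)⟩
  have hkz : ∀ e, kc e = 0 → e = 0 := by
    intro e he
    by_contra h0
    simp only [hkc, if_neg h0] at he
    have h1 := (bs_spec (z := z) (Order.one_le_iff_pos.2 (pos_iff_ne_zero.2 h0))).1
    rw [he] at h1
    exact absurd h1 (by simp)
  by_cases hc0 : c = 0
  · refine ⟨S1, hS1, E1, hE1, hp1, true, false, z - 0, ⟨0, rfl⟩, ⟨?_, ?_, ?_⟩⟩
    · refine fun _ => ⟨rfl, fun S hS E hE hp => ?_⟩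
      obtain ⟨D, e, h3, h4, h5, h6, h7⟩ := hall S hS E hE hp
      have h8 := hkz e (h7.trans hc0)
      rw [h8] at h6
      exact ⟨D, h3, h4, h5, h6, h6.cin (Order.one_le_iff_pos.1 hz)⟩
    · intro h'
      exact absurd h' (by simp)
    · intro h'
      exact absurd h' (by simp)
  · have hke : ∀ e, kc e = c → 1 ≤ e ∧ z - e = z - c := by
      intro e he
      have h0 : e ≠ 0 := by
        intro h0
        apply hc0
        rw [← he]
        simp only [hkc, if_pos h0]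
      have h1 : 1 ≤ e := Order.one_le_iff_pos.2 (pos_iff_ne_zero.2 h0)
      refine ⟨h1, ?_⟩
      simp only [hkc, if_neg h0] at he
      rw [← he]
      exact (bs_spec h1).2.1.symm
    have hc1 : 1 ≤ c := Order.one_le_iff_pos.2 (pos_iff_ne_zero.2 hc0)
    have hall2 : ∀ S ⊆ S1, ∀ E ⊆ E1, PairB b κ S E → ∃ D e, IsOpen D ∧ D.Nonempty ∧ Av S E D ∧
        Idx b z e D ∧ 1 ≤ e ∧ z - e = z - c := by
      intro S hS E hE hp
      obtain ⟨D, e, h3, h4, h5, h6, h7⟩ := hall S hS E hE hp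
      exact ⟨D, e, h3, h4, h5, h6, (hke e h7).1, (hke e h7).2⟩
    by_cases hst : ∃ S2 ⊆ S1, ∃ E2 ⊆ E1, PairB b κ S2 E2 ∧ ∃ e', 1 ≤ e' ∧ z - e' = z - c ∧
        ∀ S ⊆ S2, ∀ E ⊆ E2, PairB b κ S E → ∃ D e, IsOpen D ∧ D.Nonempty ∧ Av S E D ∧ Idx b z e D ∧
          1 ≤ e ∧ z - e = z - c ∧ e ≤ e'
    · obtain ⟨S2, hS2, E2, hE2, hp2, e', he1, he2, he3⟩ := hst
      refine ⟨S2, hS2.trans hS1, E2, hE2.trans hE1, hp2, false, false, z - c, ⟨c, rfl⟩, ⟨?_, ?_, ?_⟩⟩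
      · intro h'
        exact absurd h' (by simp)
      · exact fun _ _ => ⟨e', he1, he2, he3⟩
      · intro _ h'
        exact absurd h' (by simp)
    · have hdy : ∀ S ⊆ S1, ∀ E ⊆ E1, PairB b κ S E → ∀ e', 1 ≤ e' → z - e' = z - c →
          ∃ D e, IsOpen D ∧ D.Nonempty ∧ Av S E D ∧ Idx b z e D ∧ z - e = z - c ∧ e' < e := by
        intro S2 hS2 E2 hE2 hp2 e' he1 he2
        by_contra hno
        refine hst ⟨S2, hS2, E2, hE2, hp2, e', he1, he2, fun S hS E hE hp => ?_⟩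
        obtain ⟨D, e, h3, h4, h5, h6, h7, h8⟩ := hall2 S (hS.trans hS2) E (hE.trans hE2) hp
        refine ⟨D, e, h3, h4, h5, h6, h7, h8, ?_⟩
        by_contra hlt
        exact hno ⟨D, e, h3, h4, hmono S2 S E2 E D hS hE h5, h6, h8, not_le.1 hlt⟩
      refine ⟨S1, hS1, E1, hE1, hp1, false, true, z - c, ⟨c, rfl⟩, ⟨?_, ?_, ?_⟩⟩
      · intro h'
        exact absurd h' (by simp)
      · intro _ h'
        exact absurd h' (by simp)
      · refine fun _ _ => ⟨?_, ⟨c, hc1, rfl⟩, hdy⟩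
        intro h0
        obtain ⟨D, e, h3, h4, h5, h6, h7, h8⟩ := hdy S1 Subset.rfl E1 Subset.rfl hp1 c hc1 rfl
        have h9 : z ≤ c := Ordinal.sub_eq_zero_iff_le.1 h0
        exact absurd (h8.trans_le h6.le) (not_lt.2 h9)

/-! ## Assembly -/

/-- The side `A`. -/
structure SideA (b : Bas) (κ z : Ordinal.{0}) (S0 : Set b.P) (ca da : Bool) (ρA eA : Ordinal.{0}) : Prop where
  con : ca = true → ∀ x ∈ S0, ∀ y ∈ S0, b.f x = b.f y
  out : ca = false → ∀ D ⊆ S0, IsOpen D → D.Nonempty → ¬ Co b.ξ b.f 0 D ∧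
    (da = true → ∀ e < κ, ¬ Co b.ξ b.f e D) ∧ (da = false → ∀ e < eA, ¬ Co b.ξ b.f e D)
  lt : eA < κ
  cin : ca = false → da = false → Co b.ξ b.f eA S0 ∧ z - eA = ρA

/-- MODULE cl8 (size 1): `exists_Idx` with `z := κ`: `e = 0`: constant; `0 < e < κ`: `da = false`, `eA = e`, `ρA = z - e`; `e = κ`: `da = true`, `eA = 0`. -/
theorem exists_SideA (b : Bas) {κ : Ordinal.{0}} (hκ : 1 ≤ κ) (z : Ordinal.{0}) {S0 : Set b.P} (oS : IsOpen S0)
    (ne : S0.Nonempty) : ∃ S ⊆ S0, IsOpen S ∧ S.Nonempty ∧ ∃ ca da, ∃ ρA ∈ Rem z, ∃ eA,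
      SideA b κ z S ca da ρA eA := by
  obtain ⟨D, hD, oD, neD, e, hI⟩ := exists_Idx b κ oS ne
  have hκ0 : (0 : Ordinal.{0}) < κ := lt_of_lt_of_le zero_lt_one hκ
  refine ⟨D, hD, oD, neD, ?_⟩
  rcases eq_or_ne e 0 with h0 | h0
  · subst h0
    have hc := hI.cin hκ0
    exact ⟨true, true, z - 0, ⟨0, rfl⟩, 0, fun _ => Co.zero_iff.1 hc, fun h => by simp at h, hκ0,
      fun h => by simp at h⟩
  · have he0 : 0 < e := pos_iff_ne_zero.2 h0
    rcases lt_or_ge e κ with h1 | h1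
    · exact ⟨false, false, z - e, ⟨e, rfl⟩, e, fun h => by simp at h,
        fun _ D' hD' oD' neD' => ⟨hI.out 0 he0 D' hD' oD' neD', fun h => by simp at h,
          fun _ e' he' => hI.out e' he' D' hD' oD' neD'⟩, h1, fun _ _ => ⟨hI.cin h1, rfl⟩⟩
    · exact ⟨false, true, z - 0, ⟨0, rfl⟩, 0, fun h => by simp at h,
        fun _ D' hD' oD' neD' => ⟨hI.out 0 he0 D' hD' oD' neD',
          fun _ e' he' => hI.out e' (lt_of_lt_of_le he' h1) D' hD' oD' neD', fun h => by simp at h⟩, hκ0,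
        fun _ h => by simp at h⟩

theorem SideA.mono {b : Bas} {κ z : Ordinal.{0}} {S0 S : Set b.P} {ca da : Bool} {ρA eA : Ordinal.{0}}
    (h : SideA b κ z S0 ca da ρA eA) (hS : S ⊆ S0) : SideA b κ z S ca da ρA eA := by
  exact ⟨fun hc x hx y hy => h.con hc x (hS hx) y (hS hy), fun hc D hD => h.out hc D (hD.trans hS), h.lt,
    fun hc hd => ⟨(h.cin hc hd).1.mono le_rfl hS, (h.cin hc hd).2⟩⟩

/-- The conclusion. -/
def Con (Q : Par) (b : Bas) (c : Cd) : Prop :=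
  ∃ (ψ : BN Q → CC) (p : BN Q → b.P), Continuous ψ ∧ Function.Injective ψ ∧ (∀ x, b.ξ (p x) = ψ x) ∧
    Typ (mkTy Q c) fun x => b.f (p x)

/-- MODULE cl9 (size 3): class III.

Construct `H : Hyp Q (mkTy Q c)` with `P := b.P`, `S0 := S`, `E0 := E`, `c = ⟨0, ca, da, ρA, cb, false, ρB⟩`, `cb = true` iff `e = 0`, `ρB = z - e`, `eB = e`, `Adm = AdmF Q G false 0`, `F = FF Q false 0`, `G` from `exists_GOk` with `s = {eA, e}`; `lim_main`.  `kap = z + 1` or `z`, `z = o ⊤ ≥ 1`.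
`cA_out`: `k ∈ DA`, `k ≠ ⊤`: `da = true`: `ex k < kap`; `da = false`: `k ∈ cut (z - eA)`: `ex k < eA` (`AdmF.lt_of_cut`).  `⊤ ∈ DA` iff `da = true`.  `cA_in`: `AdmF.le_of_not_cut`.  `c0_true`: `Co 0 E` = constant.  `c0_out`: `k ∈ DB [] = cut (z - e)`: `ex k < e`.  `c0_in` the same as `cA_in`.  `Cls` is vacuous (`cl = 0`). -/
theorem con_III (Q : Par) (b : Bas) {S E : Set b.P} (h : PairB b Q.kap S E) {ca da : Bool} {ρA eA : Ordinal.{0}}
    (hA : SideA b Q.kap (Q.o ⊤) S ca da ρA eA) {e : Ordinal.{0}} (he : e < Q.kap) (hc : Co b.ξ b.f e E)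
    (ho : ∀ e' < e, ∀ D ⊆ E, IsOpen D → D.Nonempty → ¬ Co b.ξ b.f e' D) {V : Set CC} (hV : IsClopen V)
    (hVS : ∀ y ∈ S, b.f y ∈ V) (hVE : ∀ y ∈ E, b.f y ∉ V) :
    Con Q b ⟨0, ca, da, ρA, if e = 0 then true else false, false, Q.o ⊤ - e⟩ := by
  obtain ⟨G, hG⟩ := exists_GOk Q {eA, e}
  have heA : eA ∈ ({eA, e} : Finset Ordinal.{0}) := by simp
  have hee : e ∈ ({eA, e} : Finset Ordinal.{0}) := by simp
  have hDB : ∀ r, (mkTy Q ⟨0, ca, da, ρA, if e = 0 then true else false, false, Q.o ⊤ - e⟩).DB r =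
      cut Q (Q.o ⊤ - e) := by
    intro r
    have h1 : ¬ (false = true ∧ (0 : Fin 3) ≠ 0) := by simp
    exact if_neg (t := cut Q (Q.o ⊤ - e) ∪ {k | k ≠ ⊤ ∧ Q.o ⊤ - Q.o k = Q.o ⊤ - e ∧ jx k ≤ r.length}) h1
  have hDA : (mkTy Q ⟨0, ca, da, ρA, if e = 0 then true else false, false, Q.o ⊤ - e⟩).DA =
      if da = true then univ else cut Q ρA := rfl
  have hcB : (mkTy Q ⟨0, ca, da, ρA, if e = 0 then true else false, false, Q.o ⊤ - e⟩).cB =
      if e = 0 then true else false := rfl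
  let H : Hyp Q (mkTy Q ⟨0, ca, da, ρA, if e = 0 then true else false, false, Q.o ⊤ - e⟩) :=
    { P := b.P
      met := b.met
      cmp := b.cmp
      sec := b.sec
      ξ := b.ξ
      f := b.f
      hξ := b.hξ
      hf := b.hf
      S0 := S
      E0 := E
      oS := h.oS
      oE := h.oE
      neS := h.ne
      nc := h.nc
      hclo := h.hclo
      Adm := AdmF Q G false 0
      F := FF Q false 0
      adm0 := exists_AdmF hG (fun h => by simp at h)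
      adm_mono := fun ex hex k k' hk hk' => AdmF.mono hG hex hk hk'
      adm_lt := fun ex hex k hk => (AdmF.lt hG hex hk).2
      adm_one := fun ex hex k hk => AdmF.one hG hex k hk
      F_iota := fun n k hk => FF_iota false 0 (fun h => by simp at h) hk
      F_mono := FF_mono false 0
      F_DB := fun hcl => absurd rfl hcl
      cA_true := fun hc => hA.con hc
      cA_out := by
        intro hc D hD oD neD
        have h1 := hA.out hc D hD oD neD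
        rw [hDA]
        cases da with
        | true =>
          refine ⟨h1.1, fun ex hex k _ hk => h1.2.1 rfl _ ?_, fun _ => h1.2.1 rfl⟩
          exact lt_of_le_of_lt (Order.le_succ _) (AdmF.lt hG hex hk).2
        | false =>
          have h2 := (hA.cin hc rfl).2
          refine ⟨h1.1, fun ex hex k hk hk' => h1.2.2 rfl _ ?_, fun ht => ?_⟩
          · rw [if_neg (by simp), ← h2] at hk
            exact AdmF.lt_of_cut hG hex hk
          · rw [if_neg (by simp)] at ht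
            exact absurd rfl ht.1
      eA := eA
      eA_lt := hA.lt
      cA_in := by
        intro hc ht
        rw [hDA] at ht ⊢
        cases da with
        | true => exact absurd (by simp) ht
        | false =>
          have h2 := hA.cin hc rfl
          refine ⟨h2.1, fun ex hex k hk hk' => ?_⟩
          rw [if_neg (by simp), ← h2.2] at hk
          exact AdmF.le_of_not_cut hG hex heA hk hk'
      c0_true := by
        intro _ hB
        rw [hcB] at hB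
        have he0 : e = 0 := by
          by_contra hne
          rw [if_neg hne] at hB
          simp at hB
        subst he0
        exact Co.zero_iff.1 hc
      c0_out := by
        intro _ hB D hD oD neD
        rw [hcB] at hB
        have he0 : e ≠ 0 := by
          intro hne
          rw [if_pos hne] at hB
          simp at hB
        rw [hDB]
        exact ⟨ho 0 (pos_iff_ne_zero.2 he0) D hD oD neD,
          fun ex hex k hk _ => ho _ (AdmF.lt_of_cut hG hex hk) D hD oD neD⟩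
      eB := e
      eB_lt := he
      c0_in := by
        intro _ _
        rw [hDB]
        exact ⟨hc, fun ex hex k hk hk' => AdmF.le_of_not_cut hG hex hee hk hk'⟩ }
  have hcl : (mkTy Q ⟨0, ca, da, ρA, if e = 0 then true else false, false, Q.o ⊤ - e⟩).cl = 0 := rfl
  have hC : H.Cls :=
    { cellI := fun h1 => by rw [hcl] at h1; exact absurd h1 (by decide)
      cellII := fun h1 => by rw [hcl] at h1; exact absurd h1 (by decide)
      nav := fun h1 => by rw [hcl] at h1; exact absurd h1 (by decide)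
      nco := fun h1 => by rw [hcl] at h1; exact absurd h1 (by decide) }
  exact lim_main H hC hV hVS hVE

private theorem cl10_kap (Q : Par) : Q.o ⊤ ≤ Q.kap := by
  unfold Par.kap
  split_ifs
  · rw [← Order.succ_eq_add_one]
    exact Order.le_succ _
  · exact le_rfl

private theorem cl10_lt {e : Ordinal.{0}} (h : e < Q.o ⊤) : e + 1 < Q.kap := by
  unfold Par.kap
  split_ifs with hm
  · rw [← Order.succ_eq_add_one, ← Order.succ_eq_add_one]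
    exact Order.succ_lt_succ h
  · rw [← Order.succ_eq_add_one]
    exact (Q.lim (by simpa using hm)).succ_lt h

private theorem cl10_pos (Q : Par) : 0 < Q.kap := lt_of_lt_of_le zero_lt_one ((Q.o_one ⊤).trans (cl10_kap Q))

/-- `cut 0 = Iio ⊤`. -/
private theorem cl10_cut : cut Q 0 = Iio ⊤ := by
  ext k
  constructor
  · intro h
    exact lt_top_iff_ne_top.2 h.1
  · intro h
    refine ⟨ne_of_lt h, ?_⟩
    rw [pos_iff_ne_zero]
    exact rem_pos.2 (Q.o_mono h)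

private theorem cl10_DB (Q : Par) {cl : Fin 3} (hcl : cl ≠ 0) (ca da : Bool) (ρA : Ordinal.{0}) (cb : Bool)
    (ρ : Ordinal.{0}) (r : Nd Q) : (mkTy Q ⟨cl, ca, da, ρA, cb, true, ρ⟩).DB r =
      cut Q ρ ∪ {k | k ≠ ⊤ ∧ Q.o ⊤ - Q.o k = ρ ∧ jx k ≤ r.length} := by
  have h2 : true = true ∧ cl ≠ 0 := ⟨rfl, hcl⟩
  exact if_pos h2

private theorem cl10_DB' (Q : Par) (cl : Fin 3) (ca da : Bool) (ρA : Ordinal.{0}) (cb : Bool)
    (ρ : Ordinal.{0}) (r : Nd Q) : (mkTy Q ⟨cl, ca, da, ρA, cb, false, ρ⟩).DB r = cut Q ρ := by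
  simp [mkTy]

private theorem cl10_DA (Q : Par) (cl : Fin 3) (ca : Bool) (ρA : Ordinal.{0}) (cb dyn : Bool)
    (ρ : Ordinal.{0}) : (mkTy Q ⟨cl, ca, false, ρA, cb, dyn, ρ⟩).DA = cut Q ρA := by
  simp [mkTy]

private theorem cl10_DA' (Q : Par) (cl : Fin 3) (ca : Bool) (ρA : Ordinal.{0}) (cb dyn : Bool)
    (ρ : Ordinal.{0}) : (mkTy Q ⟨cl, ca, true, ρA, cb, dyn, ρ⟩).DA = univ := by
  simp [mkTy]

private noncomputable def cl10_H (Q : Par) (b : Bas) {S1 E1 : Set b.P} (h : PairB b Q.kap S1 E1) {ca da : Bool}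
    {ρA eA : Ordinal.{0}} (hA : SideA b Q.kap (Q.o ⊤) S1 ca da ρA eA) (cl : Fin 3) (hcl : cl ≠ 0) (cb dyn : Bool)
    (ρ : Ordinal.{0}) {G : Ordinal.{0} → Ordinal.{0}} {s : Finset Ordinal.{0}} (hG : GOk Q s G) (hs : eA ∈ s)
    (hρ : dyn = true → ρ ≠ 0 ∧ ∃ e, 1 ≤ e ∧ Q.o ⊤ - e = ρ) : Hyp Q (mkTy Q ⟨cl, ca, da, ρA, cb, dyn, ρ⟩) where
  P := b.P
  ξ := b.ξ
  f := b.f
  hξ := b.hξ
  hf := b.hf
  S0 := S1
  E0 := E1
  oS := h.oS
  oE := h.oE
  neS := h.ne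
  nc := h.nc
  hclo := h.hclo
  Adm := AdmF Q G dyn ρ
  F := FF Q dyn ρ
  adm0 := exists_AdmF hG fun h => (hρ h).2
  adm_mono := fun ex hex k k' hk hk' => AdmF.mono hG hex hk hk'
  adm_lt := fun ex hex k hk => (AdmF.lt hG hex hk).2
  adm_one := fun ex hex k hk => AdmF.one hG hex k hk
  F_iota := fun n k hk => FF_iota dyn ρ (fun h => (hρ h).1) hk
  F_mono := FF_mono dyn ρ
  F_DB := by
    rintro - r k ⟨hk, hk'⟩ hd hr
    subst hd
    rw [cl10_DB Q hcl] at hk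
    rcases hk with h1 | h1
    · exact absurd h1.2 (by rw [hr]; exact lt_irrefl _)
    · exact h1.2.2
  cA_true := fun h => hA.con h
  cA_out := by
    intro hca D hD hDo hDn
    obtain ⟨h1, h2, h3⟩ := hA.out hca D hD hDo hDn
    refine ⟨h1, fun ex hex k hk hk' => ?_, fun ht => ?_⟩
    · cases da with
      | true => exact h2 rfl _ ((AdmF.lt hG hex hk').1.trans_le (cl10_kap Q))
      | false =>
        rw [cl10_DA, ← (hA.cin hca rfl).2] at hk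
        exact h3 rfl _ (AdmF.lt_of_cut hG hex hk)
    · cases da with
      | true => exact h2 rfl
      | false =>
        rw [cl10_DA] at ht
        exact absurd rfl ht.1
  eA := eA
  eA_lt := hA.lt
  cA_in := by
    intro hca ht
    cases da with
    | true => exact absurd (mem_univ _) (by rw [cl10_DA'] at ht; exact ht)
    | false =>
      obtain ⟨h1, h2⟩ := hA.cin hca rfl
      refine ⟨h1, fun ex hex k hk hk' => ?_⟩
      rw [cl10_DA, ← h2] at hk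
      exact AdmF.le_of_not_cut hG hex hs hk hk'
  c0_true := fun h => absurd h hcl
  c0_out := fun h => absurd h hcl
  eB := 0
  eB_lt := cl10_pos Q
  c0_in := fun h => absurd h hcl

private theorem cl10_cell (Q : Par) (b : Bas) {S1 E1 : Set b.P} (h : PairB b Q.kap S1 E1) {ca da : Bool}
    {ρA eA : Ordinal.{0}} (hA : SideA b Q.kap (Q.o ⊤) S1 ca da ρA eA) {cl : Fin 3} (hcl : cl ≠ 0) {cb dyn : Bool}
    {ρ : Ordinal.{0}} {G : Ordinal.{0} → Ordinal.{0}} {s : Finset Ordinal.{0}} (hG : GOk Q s G) (hs : eA ∈ s)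
    (hρ : dyn = true → ρ ≠ 0 ∧ ∃ e, 1 ≤ e ∧ Q.o ⊤ - e = ρ) {Av : Set b.P → Set b.P → Set b.P → Prop}
    (hH : Hom b Q.kap (Q.o ⊤) Av S1 E1 cb dyn ρ) {e' : Ordinal.{0}} (he's : e' ∈ s)
    (he' : cb = false → dyn = false → 1 ≤ e' ∧ Q.o ⊤ - e' = ρ ∧ ∀ S ⊆ S1, ∀ E ⊆ E1, PairB b Q.kap S E →
      ∃ D e, IsOpen D ∧ D.Nonempty ∧ Av S E D ∧ Idx b (Q.o ⊤) e D ∧ 1 ≤ e ∧ Q.o ⊤ - e = ρ ∧ e ≤ e')
    (w : Nd Q) (ex : Q.L → Ordinal.{0}) (hex : AdmF Q G dyn ρ ex) (S E : Set b.P)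
    (hP : (cl10_H Q b h hA cl hcl cb dyn ρ hG hs hρ).Pair S E) :
    PairB b Q.kap S E ∧ ∃ ex', (cl10_H Q b h hA cl hcl cb dyn ρ hG hs hρ).Ext w.length ex ex' ∧
      ∃ (e : Ordinal.{0}) (D : Set b.P), IsOpen D ∧ D.Nonempty ∧ Av S E D ∧
        (cl10_H Q b h hA cl hcl cb dyn ρ hG hs hρ).CellP ex' w e D := by
  have hPB : PairB b Q.kap S E := ⟨hP.oS, hP.oE, hP.ne, hP.hclo, fun S' hS' => h.nc S' (hS'.trans hP.sS)⟩
  refine ⟨hPB, ?_⟩
  have hrefl : (cl10_H Q b h hA cl hcl cb dyn ρ hG hs hρ).Ext w.length ex ex :=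
    ⟨hex, fun _ _ => rfl, fun _ => le_rfl⟩
  cases cb with
  | true =>
    obtain ⟨-, h1⟩ := hH.con rfl
    obtain ⟨D, hD, hDn, hAv, -, hC⟩ := h1 S hP.sS E hP.sE hPB
    refine ⟨ex, hrefl, 0, D, hD, hDn, hAv, fun _ => Co.zero_iff.1 hC, fun h => ?_, fun h => ?_⟩
    · exact absurd h (by simp [mkTy])
    · exact absurd h (by simp [mkTy])
  | false =>
    have hrem : ∀ e, Q.o ⊤ - e = ρ → ρ ≠ 0 → e < Q.o ⊤ := by
      intro e h1 h2
      rw [← h1] at h2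
      exact rem_pos.1 h2
    cases dyn with
    | false =>
      obtain ⟨h1, h2, h3⟩ := he' rfl rfl
      obtain ⟨D, e, hD, hDn, hAv, hI, h4, h5, h6⟩ := h3 S hP.sS E hP.sE hPB
      refine ⟨ex, hrefl, e, D, hD, hDn, hAv, fun h => ?_, fun _ D' hD' hD'o hD'n => ⟨?_, fun k hk _ => ?_⟩,
        fun _ hne => ?_⟩
      · exact absurd h (by simp [mkTy])
      · exact hI.out 0 (lt_of_lt_of_le zero_lt_one h4) D' hD' hD'o hD'n
      · rw [cl10_DB', ← h5] at hk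
        exact hI.out _ (AdmF.lt_of_cut hG hex hk) D' hD' hD'o hD'n
      · rw [cl10_DB'] at hne
        have h7 : ρ ≠ 0 := by
          rintro rfl
          exact hne cl10_cut
        have h8 := hrem e h5 h7
        refine ⟨cl10_lt h8, hI.cin h8, fun k hk hk' => ?_⟩
        rw [cl10_DB', ← h2] at hk
        exact h6.trans (AdmF.le_of_not_cut hG hex he's hk hk')
    | true =>
      obtain ⟨h0, hρ', h1⟩ := hH.dy rfl rfl
      obtain ⟨e₂, h2, h3, h4⟩ := AdmF.bound hG hρ' hex w.length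
      obtain ⟨D, e, hD, hDn, hAv, hI, h5, h6⟩ := h1 S hP.sS E hP.sE hPB e₂ h2 h3
      obtain ⟨ex', h7, h8, h9, h10⟩ := AdmF.raise hG hex w.length h5
      have h11 := hrem e h5 h0
      refine ⟨ex', ⟨h7, h8, h9⟩, e, D, hD, hDn, hAv, fun h => ?_, fun _ D' hD' hD'o hD'n => ⟨?_, fun k hk _ => ?_⟩,
        fun _ _ => ⟨cl10_lt h11, hI.cin h11, fun k hk hk' => ?_⟩⟩
      · exact absurd h (by simp [mkTy])
      · exact hI.out 0 (lt_of_le_of_lt zero_le h6) D' hD' hD'o hD'n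
      · rw [cl10_DB Q hcl] at hk
        refine hI.out _ ?_ D' hD' hD'o hD'n
        rcases hk with hk | ⟨hk1, hk2, hk3⟩
        · rw [← h5] at hk
          exact AdmF.lt_of_cut hG h7 hk
        · rw [h8 k fun _ _ => hk3]
          exact lt_of_le_of_lt (h4 k hk1 hk2 hk3) h6
      · rw [cl10_DB Q hcl] at hk
        rcases lt_trichotomy (Q.o ⊤ - Q.o k) ρ with h12 | h12 | h12
        · rw [← AdmF.rem hG h7 k, ← h5] at h12
          exact (rem_lt h12).le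
        · refine h10 k h12 (not_le.1 fun h13 => hk (Or.inr ⟨hk', h12, h13⟩))
        · exact absurd (Or.inl ⟨hk', h12⟩) hk

private theorem cl10_static {b : Bas} {κ z : Ordinal.{0}} {Av : Set b.P → Set b.P → Set b.P → Prop}
    {S1 E1 : Set b.P} {cb dyn : Bool} {ρ : Ordinal.{0}} (hH : Hom b κ z Av S1 E1 cb dyn ρ) :
    ∃ e' : Ordinal.{0}, cb = false → dyn = false → 1 ≤ e' ∧ z - e' = ρ ∧ ∀ S ⊆ S1, ∀ E ⊆ E1, PairB b κ S E →
      ∃ D e, IsOpen D ∧ D.Nonempty ∧ Av S E D ∧ Idx b z e D ∧ 1 ≤ e ∧ z - e = ρ ∧ e ≤ e' := by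
  by_cases h : cb = false ∧ dyn = false
  · obtain ⟨e', he'⟩ := hH.sta h.1 h.2
    exact ⟨e', fun _ _ => he'⟩
  · exact ⟨0, fun h1 h2 => absurd ⟨h1, h2⟩ h⟩

private theorem cl10_dy {b : Bas} {κ z : Ordinal.{0}} {Av : Set b.P → Set b.P → Set b.P → Prop}
    {S1 E1 : Set b.P} {cb dyn : Bool} {ρ : Ordinal.{0}} (hH : Hom b κ z Av S1 E1 cb dyn ρ) :
    dyn = true → ρ ≠ 0 ∧ ∃ e, 1 ≤ e ∧ z - e = ρ := by
  intro hd
  cases hcb : cb with
  | true => exact absurd (hH.con hcb).1 (by rw [hd]; simp)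
  | false =>
    obtain ⟨h1, h2, -⟩ := hH.dy hcb hd
    exact ⟨h1, h2⟩

/-- MODULE cl10 (size 3): classes I and II.

`c = ⟨cl, ca, da, ρA, cb, dyn, ρ⟩`, `cl = 1` with `Av1` or `cl = 2` with `Av2`.  `H` as in `con_III`, `Adm = AdmF Q G dyn ρ`, `F = FF Q dyn ρ`, `s = {eA, e'}` (`e'` from the static case, or `{eA}`), `eB = 0`.  (If `cb = true` then `dyn = false`.)  `F_DB`: `k ∈ DB r`: `z - o k ≠ ρ` or `jx k ≤ r.length`; `ρ ≠ 0` in the dynamic case for `FF_iota`.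
Cells: for a pair `(S, E)` (subsets of `S1`, `E1`; it is a `PairB`), `w`, `ex`: constant: `D` with `Co 0 D`, `ex' = ex`.  Static: `D`, `e ≤ e'`, `z - e = ρ = z - e'`, `ex' = ex`, `DB w = cut ρ`: `out`: `k ∈ cut ρ`: `ex k < e`; `1 ≤ e`: `¬ Co 0`.  `cin`: `cut ρ ≠ Iio ⊤`, so `ρ ≠ 0` (`cut 0 = Iio ⊤`), so `e < z` and `e + 1 < kap`, `Co e D`; `k ∉ cut ρ`, `k ≠ ⊤`: `e ≤ e' ≤ ex k` (`le_of_not_cut`).
Dynamic: `AdmF.bound` with `n = w.length`: `e'`; `D`, `e > e'`, `z - e = ρ`; `AdmF.raise`: `ex'`.  `DB w = cut ρ ∪ {jx ≤ w.length}`: `out`: `k ∈ cut ρ`: `ex' k < e`; `z - o k = ρ`, `jx k ≤ w.length`: `ex' k = ex k ≤ e' < e`.  `cin`: `e < z` as `ρ ≠ 0`; `k ∉ DB w`: `z - o k < ρ`: `e < ex' k` (`rem_lt`, `AdmF.rem`), or `z - o k = ρ`, `w.length < jx k`: `raise`. -/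
theorem con_I (Q : Par) (b : Bas) {S1 E1 : Set b.P} (h : PairB b Q.kap S1 E1) {ca da : Bool} {ρA eA : Ordinal.{0}}
    (hA : SideA b Q.kap (Q.o ⊤) S1 ca da ρA eA) {cb dyn : Bool} {ρ : Ordinal.{0}}
    (hH : Hom b Q.kap (Q.o ⊤) (Av1 b Q.kap) S1 E1 cb dyn ρ) {V : Set CC} (hV : IsClopen V)
    (hVS : ∀ y ∈ S1, b.f y ∈ V) (hVE : ∀ y ∈ E1, b.f y ∉ V) : Con Q b ⟨1, ca, da, ρA, cb, dyn, ρ⟩ := by
  obtain ⟨e', he'⟩ := cl10_static hH
  have hρ := cl10_dy hH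
  obtain ⟨G, hG⟩ := exists_GOk Q {eA, e'}
  have hs : eA ∈ ({eA, e'} : Finset Ordinal.{0}) := by simp
  have hs' : e' ∈ ({eA, e'} : Finset Ordinal.{0}) := by simp
  have h10 : (1 : Fin 3) ≠ 0 := by decide
  refine lim_main (cl10_H Q b h hA 1 h10 cb dyn ρ hG hs hρ) ?_ hV hVS hVE
  refine ⟨fun _ w ex hex S E hP => ?_, fun h1 => ?_, fun h1 => ?_, fun h1 => ?_⟩
  · obtain ⟨-, ex', h1, e, D, h2, h3, ⟨A, h4, h5⟩, h6⟩ := cl10_cell Q b h hA h10 hG hs hρ hH hs' he' w ex hex S E hP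
    exact ⟨ex', h1, A, e, D, h2, h3, h4, h5, h6⟩
  · exact absurd h1 (by simp [mkTy])
  · exact absurd h1 (by simp [mkTy])
  · exact absurd h1 (by simp [mkTy])

theorem con_II (Q : Par) (b : Bas) {S1 E1 : Set b.P} (h : PairB b Q.kap S1 E1) {ca da : Bool} {ρA eA : Ordinal.{0}}
    (hA : SideA b Q.kap (Q.o ⊤) S1 ca da ρA eA) {cb dyn : Bool} {ρ : Ordinal.{0}}
    (hH : Hom b Q.kap (Q.o ⊤) (Av2 b Q.kap) S1 E1 cb dyn ρ)
    (hnav : ∀ S ⊆ S1, ∀ E ⊆ E1, PairB b Q.kap S E → ∀ A : Clopens CC,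
      E ∩ b.f ⁻¹' A ∩ clo b.ξ Q.kap (S ∩ clo b.ξ (Q.kap + 1) (E \ b.f ⁻¹' A)) = ∅)
    (hnco : ∀ S ⊆ S1, ∀ E ⊆ E1, PairB b Q.kap S E → ∀ e < Q.kap, ¬ Co b.ξ b.f e E) {V : Set CC} (hV : IsClopen V)
    (hVS : ∀ y ∈ S1, b.f y ∈ V) (hVE : ∀ y ∈ E1, b.f y ∉ V) : Con Q b ⟨2, ca, da, ρA, cb, dyn, ρ⟩ := by
  obtain ⟨e', he'⟩ := cl10_static hH
  have hρ := cl10_dy hH
  obtain ⟨G, hG⟩ := exists_GOk Q {eA, e'}
  have hs : eA ∈ ({eA, e'} : Finset Ordinal.{0}) := by simp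
  have hs' : e' ∈ ({eA, e'} : Finset Ordinal.{0}) := by simp
  have h20 : (2 : Fin 3) ≠ 0 := by decide
  refine lim_main (cl10_H Q b h hA 2 h20 cb dyn ρ hG hs hρ) ?_ hV hVS hVE
  have hcell := cl10_cell Q b h hA h20 hG hs hρ hH hs' he'
  refine ⟨fun h1 => ?_, fun _ w ex hex S E hP => ?_, fun _ S E hP A => ?_, fun _ S E hP e he => ?_⟩
  · exact absurd h1 (by simp [mkTy])
  · obtain ⟨-, ex', h1, e, D, h2, h3, h4, h6⟩ := hcell w ex hex S E hP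
    exact ⟨ex', h1, e, D, h2, h3, h4, h6⟩
  · exact hnav S hP.sS E hP.sE
      ⟨hP.oS, hP.oE, hP.ne, hP.hclo, fun S' hS' => h.nc S' (hS'.trans hP.sS)⟩ A
  · exact hnco S hP.sS E hP.sE
      ⟨hP.oS, hP.oE, hP.ne, hP.hclo, fun S' hS' => h.nc S' (hS'.trans hP.sS)⟩ e he

private theorem cl11_sub {b : Bas} {κ : Ordinal.{0}} {S E S' E' : Set b.P} (hS : S' ⊆ S) (hE : E' ⊆ E)
    (A : Clopens CC) : E' ∩ b.f ⁻¹' A ∩ clo b.ξ κ (S' ∩ clo b.ξ (κ + 1) (E' \ b.f ⁻¹' A)) ⊆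
      E ∩ b.f ⁻¹' A ∩ clo b.ξ κ (S ∩ clo b.ξ (κ + 1) (E \ b.f ⁻¹' A)) := by
  rintro x ⟨⟨h1, h2⟩, h3⟩
  exact ⟨⟨hE h1, h2⟩, clo_mono (inter_subset_inter hS (clo_mono (sdiff_subset_sdiff_left hE))) h3⟩

private theorem cl11_rem0 (Q : Par) : (0 : Ordinal.{0}) ∈ Rem (Q.o ⊤) := ⟨Q.o ⊤, Ordinal.sub_self _⟩

/-- MODULE cl11 (size 2): the classification.

`exists_SideA` for `S0`; `(S, E0)` is a pair.  `classIII`: first alternative: `con_III`.  Otherwise: if there is a subpair `(S2, E2)` such that all its subpairs `(S, E)` satisfy `nav` (the set is empty for all `A`): `homog` with `Av2` (`hne`: `PairB.clo`) and `con_II`.  Otherwise every subpair `(S2, E2)` has a subpair and `A` with this set nonempty; it is contained in the set for `(S2, E2)` (monotonicity), so `Av1` has members for all subpairs: `homog` with `Av1`, `con_I`. -/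
theorem classify (Q : Par) (b : Bas) {S0 E0 : Set b.P} (h : PairB b Q.kap S0 E0) {V : Set CC} (hV : IsClopen V)
    (hVS : ∀ y ∈ S0, b.f y ∈ V) (hVE : ∀ y ∈ E0, b.f y ∉ V) : ∃ c ∈ Cds Q, Con Q b c := by
  obtain ⟨S, hS, oS, nS, ca, da, ρA, hρA, eA, hA⟩ :=
    exists_SideA b (κ := Q.kap) ((Q.o_one ⊤).trans (cl10_kap Q)) (Q.o ⊤) h.oS h.ne
  have hP : PairB b Q.kap S E0 :=
    ⟨oS, h.oE, nS, hS.trans h.hclo, fun S' hS' => h.nc S' (hS'.trans hS)⟩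
  rcases classIII b hP with ⟨S', hS', E', hE', hP', e, he, hC, hO⟩ | hnco
  · refine ⟨_, ?_, con_III Q b hP' (hA.mono hS') he hC hO hV (fun y hy => hVS y (hS (hS' hy)))
      fun y hy => hVE y (hE' hy)⟩
    exact ⟨hρA, ⟨e, rfl⟩⟩
  · by_cases hII : ∃ S2 ⊆ S, ∃ E2 ⊆ E0, PairB b Q.kap S2 E2 ∧ ∀ S3 ⊆ S2, ∀ E3 ⊆ E2, PairB b Q.kap S3 E3 →
        ∀ A : Clopens CC, E3 ∩ b.f ⁻¹' A ∩ clo b.ξ Q.kap (S3 ∩ clo b.ξ (Q.kap + 1) (E3 \ b.f ⁻¹' A)) = ∅
    · obtain ⟨S2, hS2, E2, hE2, hP2, hnav⟩ := hII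
      obtain ⟨S1, hS1, E1, hE1, hP1, cb, dyn, ρ, hρ, hH⟩ := homog b (z := Q.o ⊤) (Q.o_one ⊤) (Av := Av2 b Q.kap)
        (fun S S' E E' D h1 h2 h3 => h3.trans (inter_subset_inter h2 (clo_mono h1)))
        (fun S E D D' h1 h2 => h1.trans h2) hP2
        (fun S3 hS3 E3 hE3 hP3 => ⟨E3 ∩ clo b.ξ Q.kap S3, hP3.clo.1.oE, hP3.clo.2, Subset.rfl⟩)
      refine ⟨⟨2, ca, da, ρA, cb, dyn, ρ⟩, ⟨hρA, hρ⟩, con_II Q b hP1 (hA.mono (hS1.trans hS2)) hH
        (fun S3 hS3 E3 hE3 => hnav S3 (hS3.trans hS1) E3 (hE3.trans hE1))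
        (fun S3 hS3 E3 hE3 => hnco S3 ((hS3.trans hS1).trans hS2) E3 ((hE3.trans hE1).trans hE2)) hV
        (fun y hy => hVS y (hS (hS2 (hS1 hy)))) fun y hy => hVE y (hE2 (hE1 hy))⟩
    · have hne : ∀ S2 ⊆ S, ∀ E2 ⊆ E0, PairB b Q.kap S2 E2 → ∃ D, IsOpen D ∧ D.Nonempty ∧ Av1 b Q.kap S2 E2 D := by
        intro S2 hS2 E2 hE2 hP2
        by_contra hno
        refine hII ⟨S2, hS2, E2, hE2, hP2, fun S3 hS3 E3 hE3 hP3 A => ?_⟩
        rw [← Set.not_nonempty_iff_eq_empty]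
        intro hn
        refine hno ⟨E2 ∩ b.f ⁻¹' A ∩ clo b.ξ Q.kap (S2 ∩ clo b.ξ (Q.kap + 1) (E2 \ b.f ⁻¹' A)), ?_,
          hn.mono (cl11_sub hS3 hE3 A), A, inter_subset_left, inter_subset_right⟩
        exact (hP2.oE.inter (A.isClopen.isOpen.preimage b.hf)).inter (isOpen_clo _ _ _)
      obtain ⟨S1, hS1, E1, hE1, hP1, cb, dyn, ρ, hρ, hH⟩ := homog b (z := Q.o ⊤) (Q.o_one ⊤) (Av := Av1 b Q.kap)
        (fun S S' E E' D h1 h2 h3 => by
          obtain ⟨A, h4, h5⟩ := h3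
          refine ⟨A, h4.trans (inter_subset_inter_left _ h2), h5.trans (clo_mono ?_)⟩
          exact inter_subset_inter h1 (clo_mono (sdiff_subset_sdiff_left h2)))
        (fun S E D D' h1 h2 => by
          obtain ⟨A, h4, h5⟩ := h2
          exact ⟨A, h1.trans h4, h1.trans h5⟩) hP hne
      exact ⟨⟨1, ca, da, ρA, cb, dyn, ρ⟩, ⟨hρA, hρ⟩, con_I Q b hP1 (hA.mono hS1) hH hV
        (fun y hy => hVS y (hS (hS1 hy))) fun y hy => hVE y (hE1 hy)⟩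

end Pool.Agent.Bsw
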