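import Pool.Agent.Bsw.Cal

/-!
# Finite transition systems and the sets `GG`
-/

set_option autoImplicit false

open Set Filter Topology TopologicalSpace
open scoped Classical

namespace Pool.Agent.Bsw

/-- A transition system with finitely many transitions from every state and a measure which decreases. -/
structure TrS where
  /-- states -/
  St : Type
  /-- transitions -/
  tr : St → Finset St
  /-- the measure -/
  ms : St → ℕ
  /-- it decreases -/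
  lt : ∀ σ τ, τ ∈ tr σ → ms τ < ms σ

variable {P X : Type} [TopologicalSpace P] [TopologicalSpace X] {T : TrS} {ξ : P → X}

/-- `GG lv B σ = B σ ∩ ⋂_(τ ∈ tr σ) clo (lv τ) (GG lv B τ)`. -/
noncomputable def GG (T : TrS) (ξ : P → X) (lv : T.St → Ordinal.{0}) (B : T.St → Set P) (σ : T.St) : Set P :=
  B σ ∩ ⋂ τ : {τ // τ ∈ T.tr σ}, clo ξ (lv τ.1) (GG T ξ lv B τ.1)
termination_by T.ms σ
decreasing_by exact T.lt _ _ τ.2

/-- A set of states closed under transitions. -/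
def Clo (T : TrS) (R : Set T.St) : Prop := ∀ σ ∈ R, ∀ τ ∈ T.tr σ, τ ∈ R

/-- MODULE da1 (size 1): unfolding, openness, inclusions, agreement on closed sets of states (induction on `ms`). -/
theorem GG_eq (lv : T.St → Ordinal.{0}) (B : T.St → Set P) (σ : T.St) :
    GG T ξ lv B σ = B σ ∩ ⋂ τ ∈ T.tr σ, clo ξ (lv τ) (GG T ξ lv B τ) := by
  rw [GG]
  congr 1
  ext x
  simp only [mem_iInter, Subtype.forall]

theorem isOpen_GG {lv : T.St → Ordinal.{0}} {B : T.St → Set P} (hB : ∀ σ, IsOpen (B σ)) (σ : T.St) :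
    IsOpen (GG T ξ lv B σ) := by
  rw [GG_eq]
  exact (hB σ).inter (isOpen_biInter_finset fun τ _ => isOpen_clo _ _ _)

theorem GG_subset (lv : T.St → Ordinal.{0}) (B : T.St → Set P) (σ : T.St) : GG T ξ lv B σ ⊆ B σ := by
  rw [GG_eq]
  exact inter_subset_left

theorem GG_subset_clo (lv : T.St → Ordinal.{0}) (B : T.St → Set P) {σ τ : T.St} (h : τ ∈ T.tr σ) :
    GG T ξ lv B σ ⊆ clo ξ (lv τ) (GG T ξ lv B τ) := by
  rw [GG_eq lv B σ]
  exact fun x hx => (mem_iInter₂.1 hx.2) τ h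

theorem subset_GG {lv : T.St → Ordinal.{0}} {B : T.St → Set P} {σ : T.St} {S : Set P} (h : S ⊆ B σ)
    (h' : ∀ τ ∈ T.tr σ, S ⊆ clo ξ (lv τ) (GG T ξ lv B τ)) : S ⊆ GG T ξ lv B σ := by
  rw [GG_eq]
  exact subset_inter h (subset_iInter₂ h')

theorem GG_congr {R : Set T.St} (hR : Clo T R) {lv lv' : T.St → Ordinal.{0}} {B B' : T.St → Set P}
    (hl : ∀ σ ∈ R, lv σ = lv' σ) (hB : ∀ σ ∈ R, B σ = B' σ) {σ : T.St} (hσ : σ ∈ R) :
    GG T ξ lv B σ = GG T ξ lv' B' σ := by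
  rw [GG_eq, GG_eq, hB σ hσ]
  congr 1
  ext x
  simp only [mem_iInter]
  refine forall₂_congr fun τ hτ => ?_
  rw [GG_congr hR hl hB (hR σ hσ τ hτ), hl τ (hR σ hσ τ hτ)]
termination_by T.ms σ
decreasing_by exact T.lt _ _ hτ

/-- Fewer transitions, larger base set. -/
theorem GG_subset_GG {lv : T.St → Ordinal.{0}} {B : T.St → Set P} {σ σ' : T.St} (ht : T.tr σ' ⊆ T.tr σ)
    (hB : B σ ⊆ B σ') : GG T ξ lv B σ ⊆ GG T ξ lv B σ' := by
  rw [GG_eq lv B σ, GG_eq lv B σ']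
  exact inter_subset_inter hB fun x hx => mem_iInter₂.2 fun τ hτ => (mem_iInter₂.1 hx) τ (ht hτ)

/-- MODULE da2 (size 1): multiplicities.  Induction on `ms σ`, `Mul.inter`, `Mul.biInter`, `Mul.clo`. -/
theorem GG_mul {Θ : Type} {r : Θ → Θ → Prop} (hξ : Continuous ξ) {R : Set T.St} (hR : Clo T R)
    {lv : T.St → Ordinal.{0}} {B : T.St → Set P} {B' : Θ → T.St → Set P} (hB : ∀ σ, IsOpen (B σ))
    (hB' : ∀ t σ, IsOpen (B' t σ)) (h : ∀ σ ∈ R, ∃ n, Mul r n (B σ) (fun t => B' t σ)) {σ : T.St} (hσ : σ ∈ R) :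
    ∃ n, Mul r n (GG T ξ lv B σ) (fun t => GG T ξ lv (B' t) σ) := by
  obtain ⟨n, hn⟩ := h σ hσ
  have hrec : ∀ τ ∈ T.tr σ, ∃ m, Mul r m (GG T ξ lv B τ) (fun t => GG T ξ lv (B' t) τ) := fun τ hτ =>
    GG_mul hξ hR hB hB' h (hR σ hσ τ hτ)
  choose! m hm using hrec
  have h2 : Mul r (∑ τ ∈ T.tr σ, m τ) (⋂ τ ∈ T.tr σ, clo ξ (lv τ) (GG T ξ lv B τ))
      (fun t => ⋂ τ ∈ T.tr σ, clo ξ (lv τ) (GG T ξ lv (B' t) τ)) := by
    refine Mul.biInter (T.tr σ) (K := fun τ => clo ξ (lv τ) (GG T ξ lv B τ))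
      (F := fun τ t => clo ξ (lv τ) (GG T ξ lv (B' t) τ)) ?_ ?_
    · intro τ hτ
      exact Mul.clo hξ (isOpen_GG hB τ) (hm τ hτ)
    · intro τ _ t
      exact isOpen_clo _ _ _
  refine ⟨n + ∑ τ ∈ T.tr σ, m τ, ?_⟩
  have h3 := Mul.inter hn h2 (fun t => isOpen_biInter_finset fun τ _ => isOpen_clo _ _ _)
  rw [GG_eq lv B σ]
  have h4 : (fun t => GG T ξ lv (B' t) σ) =
      fun t => B' t σ ∩ ⋂ τ ∈ T.tr σ, clo ξ (lv τ) (GG T ξ lv (B' t) τ) := by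
    funext t
    exact GG_eq lv (B' t) σ
  rw [h4]
  exact h3
termination_by T.ms σ
decreasing_by exact T.lt _ _ hτ

/-- MODULE da3 (size 2): localisation.

`R` closed under transitions, `Φ` a map of states, every transition from `Φ σ`, `σ ∈ R`, is the image of a transition from `σ`; `lv' (Φ τ) ≤ lv τ`; `N` a test set of order `k ≤ lv τ` for all `τ ∈ R` which are targets of transitions;
`N ∩ B σ ⊆ B' (Φ σ)`.  Then `N ∩ GG B σ ⊆ GG B' (Φ σ)`.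

Proof.  Induction on `ms σ`: for `τ' = Φ τ`, `τ ∈ tr σ`: `N ∩ clo (lv τ) (GG B τ) ⊆ clo (lv τ) (N ∩ GG B τ)` (`Cf.inter_clo`, `Cf.mono`) `⊆ clo (lv τ) (GG B' τ') ⊆ clo (lv' τ') (GG B' τ')` (`clo_anti`). -/
theorem GG_loc (hξ : Continuous ξ) {R : Set T.St} (hR : Clo T R) {Φ : T.St → T.St}
    {lv lv' : T.St → Ordinal.{0}} {B B' : T.St → Set P} {N : Set P} {k : Ordinal.{0}} (hN : Cf ξ k N)
    (hk : ∀ σ ∈ R, ∀ τ ∈ T.tr σ, k ≤ lv τ) (ht : ∀ σ ∈ R, ∀ τ' ∈ T.tr (Φ σ), ∃ τ ∈ T.tr σ, Φ τ = τ')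
    (hl : ∀ τ ∈ R, lv' (Φ τ) ≤ lv τ) (hB : ∀ σ ∈ R, N ∩ B σ ⊆ B' (Φ σ)) {σ : T.St} (hσ : σ ∈ R) :
    N ∩ GG T ξ lv B σ ⊆ GG T ξ lv' B' (Φ σ) := by
  rw [GG_eq lv' B' (Φ σ)]
  refine subset_inter ?_ (subset_iInter₂ fun τ' hτ' => ?_)
  · exact (inter_subset_inter_right N (GG_subset lv B σ)).trans (hB σ hσ)
  · obtain ⟨τ, hτ, rfl⟩ := ht σ hσ τ' hτ'
    have hrec : N ∩ GG T ξ lv B τ ⊆ GG T ξ lv' B' (Φ τ) :=
      GG_loc hξ hR hN hk ht hl hB (hR σ hσ τ hτ)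
    have h1 : N ∩ GG T ξ lv B σ ⊆ N ∩ clo ξ (lv τ) (GG T ξ lv B τ) :=
      inter_subset_inter_right N (GG_subset_clo lv B hτ)
    exact ((h1.trans (Cf.inter_clo hξ (hN.mono (hk σ hσ τ hτ)))).trans (clo_mono hrec)).trans
      (clo_anti (hl τ (hR σ hσ τ hτ)) _)
termination_by T.ms σ
decreasing_by exact T.lt _ _ hτ

/-- Monotonicity in the base sets. -/
theorem GG_mono {lv : T.St → Ordinal.{0}} {B B' : T.St → Set P} {R : Set T.St} (hR : Clo T R)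
    (hB : ∀ σ ∈ R, B σ ⊆ B' σ) {σ : T.St} (hσ : σ ∈ R) : GG T ξ lv B σ ⊆ GG T ξ lv B' σ := by
  refine subset_GG ((GG_subset lv B σ).trans (hB σ hσ)) fun τ hτ => ?_
  exact (GG_subset_clo lv B hτ).trans (clo_mono (GG_mono hR hB (hR σ hσ τ hτ)))
termination_by T.ms σ
decreasing_by exact T.lt _ _ hτ

end Pool.Agent.Bsw
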