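import Pool.Agent.Bsw.Hyp

/-!
# Extension step, part 1: tools
-/

set_option autoImplicit false

open Set Filter Topology TopologicalSpace
open scoped Classical

namespace Pool.Agent.Bsw

variable {Q : Par} {τ : Ty Q}

/-- States whose nodes are suffixes of `u` (the `D`-parent: of `w`), whose keys are suffixes of `w` and whose level is of index `≤ w.length`. -/
def Rch (u w : Nd Q) : Sta Q → Prop
  | .A k p c => p <:+ u ∧ (∀ e : Q.L, k = e → e ≠ ⊤ ∧ Q.ι e ≤ w.length) ∧ (∀ x, c none = some x → x <:+ w) ∧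
      ∀ r, r <:+ u → ∀ x, c (some r) = some x → x <:+ w
  | .D r v c => r <:+ u ∧ (∀ v', v = some v' → v' <:+ w ∧ v' ≠ [] ∧ q univ v' = r) ∧
      (∀ x, c none = some x → x <:+ w) ∧ ∀ r, r <:+ u → ∀ x, c (some r) = some x → x <:+ w
  | .S r x => r <:+ u ∧ x <:+ w
  | .E => True

private theorem xa1_an_none (τ : Ty Q) (p : Nd Q) : τ.an none p <:+ p := by
  unfold Ty.an
  simp only
  split_ifs
  · exact List.nil_suffix
  · exact List.suffix_refl _

private theorem xa1_an_some (τ : Ty Q) (r p : Nd Q) : τ.an (some r) p <:+ r ∨ τ.an (some r) p <:+ p := by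
  unfold Ty.an
  simp only
  split_ifs
  · exact Or.inl List.nil_suffix
  · exact Or.inl (List.suffix_refl _)
  · exact Or.inr (List.suffix_refl _)
  · rcases anr_spec (τ.DB r) r p with h | h
    · rw [h.1]
      exact Or.inl (List.suffix_refl _)
    · exact Or.inr h.2.2.1.suffix

private theorem xa1_upd (τ : Ty Q) (e : Q.L) (c : Ctx Q) (p : Nd Q) (i : Option (Nd Q)) (x : Nd Q)
    (h : τ.upd e c p i = some x) : c i = some x ∨ x = τ.an i p := by
  unfold Ty.upd at h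
  cases hc : c i with
  | none =>
    rw [hc] at h
    simp only at h
    split_ifs at h
    exact Or.inr (Option.some.inj h).symm
  | some y =>
    rw [hc] at h
    exact Or.inl h

/-- MODULE xa1 (size 2): `Rch` is closed under transitions, `u <:+ w`.  (Keys: for `p <:+ u`, `r <:+ u`: `an none p`, `an (some r) p` are suffixes of `u`: `anr_spec`.)  The states `A ⊥ v none`, `v <:+ u`, are in `Rch`. -/
theorem clo_Rch (τ : Ty Q) {u w : Nd Q} (h : u <:+ w) : Clo (TT τ) {σ | Rch u w σ} := by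
  intro σ hσ σ' hσ'
  change σ' ∈ trs τ σ at hσ'
  change Rch u w σ'
  change Rch u w σ at hσ
  cases σ with
  | A k p c =>
    obtain ⟨hp, hk, hc1, hc2⟩ := hσ
    have hu1 : ∀ (e : Q.L) x, τ.upd e c p none = some x → x <:+ w := by
      intro e x hx
      rcases xa1_upd τ e c p none x hx with h1 | h1
      · exact hc1 x h1
      · rw [h1]
        exact (xa1_an_none τ p).trans (hp.trans h)
    have hu2 : ∀ (e : Q.L) r, r <:+ u → ∀ x, τ.upd e c p (some r) = some x → x <:+ w := by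
      intro e r hr x hx
      rcases xa1_upd τ e c p (some r) x hx with h1 | h1
      · exact hc2 r hr x h1
      · rw [h1]
        rcases xa1_an_some τ r p with h2 | h2
        · exact h2.trans (hr.trans h)
        · exact h2.trans (hp.trans h)
    rcases mem_trs_A.1 hσ' with ⟨y, hy, rfl⟩ | rfl | ⟨r, hr, rfl⟩
    · obtain ⟨h1, h2, h3, h4, h5, h6⟩ := hy
      refine ⟨h4.suffix.trans hp, ?_, hu1 y.1, hu2 y.1⟩
      intro e he
      have he' : y.1 = e := WithBot.coe_injective he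
      rw [← he']
      refine ⟨h2, h5.trans ((dep_le_length _).trans ?_)⟩
      exact (h4.suffix.trans (hp.trans h)).length_le
    · exact ⟨hp, fun v' hv' => absurd hv' (by simp), hu1 ⊤, hu2 ⊤⟩
    · obtain ⟨h1, h2, h3⟩ := hr
      obtain ⟨h4, h5, h6⟩ := chd_spec h2 h1
      refine ⟨h2.suffix.trans hp, ?_, hu1 ⊤, hu2 ⊤⟩
      intro v' hv'
      rw [← Option.some.inj hv']
      exact ⟨h6.suffix.trans (hp.trans h), h5, h4⟩
  | D r v c =>
    obtain ⟨hr, hv, hc1, hc2⟩ := hσ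
    rcases mem_trs_D.1 hσ' with rfl | ⟨r', hr', rfl⟩
    · refine ⟨hr, ?_⟩
      cases hcn : c none with
      | none => exact (xa1_an_none τ r).trans (hr.trans h)
      | some x => exact hc1 x hcn
    · obtain ⟨h1, h2, h3⟩ := hr'
      obtain ⟨h4, h5, h6⟩ := chd_spec h3 h2
      refine ⟨h3.suffix.trans hr, ?_, hc1, hc2⟩
      intro v' hv'
      rw [← Option.some.inj hv']
      exact ⟨h6.suffix.trans (hr.trans h), h5, h4⟩
  | S r x =>
    rw [mem_trs_S.1 hσ']
    trivial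
  | E => exact absurd hσ' (by simp [trs])

theorem an_suffix (τ : Ty Q) {u p r : Nd Q} (hp : p <:+ u) (hr : r <:+ u) :
    τ.an none p <:+ u ∧ τ.an (some r) p <:+ u := by
  refine ⟨(xa1_an_none τ p).trans hp, ?_⟩
  rcases xa1_an_some τ r p with h2 | h2
  · exact h2.trans hr
  · exact h2.trans hp

/-- Agreement of configurations. -/
structure Agr (τ : Ty Q) {P : Type} (u w : Nd Q) (g g' : Cfg Q P) : Prop where
  S : ∀ p, p <:+ u → g'.S p = g.S p
  D : ∀ p, p <:+ w → g'.D p = g.D p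
  C : ∀ p, p <:+ u → g'.C p = g.C p
  regn : ∀ x, x <:+ w → g'.reg none x = g.reg none x
  reg : ∀ r, r <:+ u → ∀ x, x <:+ w → g'.reg (τ.cls (some r)) x = g.reg (τ.cls (some r)) x
  E : g'.E = g.E
  ex : ∀ k, k ≠ ⊤ → Q.ι k ≤ w.length → g'.ex k = g.ex k
  exz : ∀ p, p <:+ w → g'.exz p = g.exz p
  exf : ∀ p, p <:+ u → g'.exf p = g.exf p

theorem G_congr (H : Hyp Q τ) {u w : Nd Q} (h : u <:+ w) {g g' : Cfg Q H.P} (ha : Agr τ u w g g') {σ : Sta Q}
    (hσ : Rch u w σ) : H.G g' σ = H.G g σ := by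
  refine GG_congr (clo_Rch τ h) ?_ ?_ hσ
  · intro σ hσ
    cases σ with
    | A k p c =>
      cases k with
      | bot => rfl
      | coe e => exact ha.ex e (hσ.2.1 e rfl).1 (hσ.2.1 e rfl).2
    | D r v c =>
      cases v with
      | none => exact ha.exf r hσ.1
      | some v => exact ha.exz v (hσ.2.1 v rfl).1
    | S r x => rfl
    | E => rfl
  · intro σ hσ
    cases σ with
    | A k p c => exact ha.S p hσ.1
    | D r v c =>
      have hkey : ((c (some r)).getD (τ.an (some r) r)) <:+ w := by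
        cases hcr : c (some r) with
        | none => exact (an_suffix τ hσ.1 hσ.1).2.trans h
        | some x => exact hσ.2.2.2 r hσ.1 x hcr
      cases v with
      | none =>
        show g'.C r ∩ _ = g.C r ∩ _
        rw [ha.C r hσ.1, ha.reg r hσ.1 _ hkey]
      | some v =>
        show g'.D v ∩ _ = g.D v ∩ _
        rw [ha.D v (hσ.2.1 v rfl).1, ha.reg r hσ.1 _ hkey]
    | S r x =>
      show g'.S r ∩ _ = g.S r ∩ _
      rw [ha.S r hσ.1, ha.regn x hσ.2]
    | E => exact ha.E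

/-- The same regions; nodes on `u`. -/
theorem G_congr_On (H : Hyp Q τ) {u : Nd Q} {g g' : Cfg Q H.P} (hS : ∀ p, p <:+ u → g'.S p = g.S p)
    (hD : ∀ p, p <:+ u → g'.D p = g.D p) (hC : ∀ p, p <:+ u → g'.C p = g.C p) (hr : g'.reg = g.reg)
    (hE : g'.E = g.E) (hex : g'.ex = g.ex) (hz : ∀ p, p <:+ u → g'.exz p = g.exz p)
    (hf : ∀ p, p <:+ u → g'.exf p = g.exf p) {σ : Sta Q} (hσ : On u σ) : H.G g' σ = H.G g σ := by
  refine GG_congr (clo_On τ u) ?_ ?_ hσ
  · intro σ hσ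
    cases σ with
    | A k p c =>
      cases k with
      | bot => rfl
      | coe e => exact congrFun hex e
    | D r v c =>
      cases v with
      | none => exact hf r hσ.1
      | some v => exact hz v (hσ.2 v rfl).1
    | S r x => rfl
    | E => rfl
  · intro σ hσ
    cases σ with
    | A k p c => exact hS p hσ
    | D r v c =>
      cases v with
      | none =>
        show g'.C r ∩ _ = g.C r ∩ _
        rw [hC r hσ.1, hr]
      | some v =>
        show g'.D v ∩ _ = g.D v ∩ _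
        rw [hD v (hσ.2 v rfl).1, hr]
    | S r x =>
      show g'.S r ∩ _ = g.S r ∩ _
      rw [hS r hσ, hr]
    | E => exact hE

/-- Preservation of the slots: `T` closed under suffixes, agreement on the members of `T`, same slots. -/
theorem via_congr (H : Hyp Q τ) {T : Finset (Nd Q)} {g g' : Cfg Q H.P} (i1 : Inv1 H T g)
    (ha : ∀ v ∈ T, Agr τ v v g g') (hU : ∀ v ∈ T, ∀ m, g'.U (m :: v) = g.U (m :: v)) (hv : Via H T g) : Via H T g' := by
  intro v hvT m hm hmT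
  have h1 := hv v hvT m hm hmT
  rw [hU v hvT m, G_congr H (List.suffix_refl v) (ha v hvT)]
  · exact h1
  · refine ⟨List.suffix_refl v, fun e he => absurd he (by simp), fun x hx => absurd hx (by simp),
      fun r _ x hx => absurd hx (by simp)⟩

theorem isOpen_bse (H : Hyp Q τ) {g : Cfg Q H.P} (hS : ∀ w, IsOpen (g.S w)) (hD : ∀ w, IsOpen (g.D w))
    (hC : ∀ w, IsOpen (g.C w)) (hE : IsOpen g.E) (σ : Sta Q) : IsOpen (bse τ H.f g σ) := by
  have hcl : ∀ A : Clopens CC, IsOpen (H.f ⁻¹' (A : Set CC)) := fun A => A.isClopen.isOpen.preimage H.hf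
  cases σ with
  | A k p c => exact hS p
  | D r v c =>
    cases v with
    | none => exact (hC r).inter (hcl _)
    | some v => exact (hD v).inter (hcl _)
  | S r x => exact (hS r).inter (hcl _)
  | E => exact hE

theorem Inv1.isOpen_G {H : Hyp Q τ} {T : Finset (Nd Q)} {g : Cfg Q H.P} (i1 : Inv1 H T g) (σ : Sta Q) :
    IsOpen (H.G g σ) := by
  exact isOpen_GG (T := TT τ) (isOpen_bse H i1.oS i1.oD i1.oC i1.oE) σ

/-- Replace the regions. -/
def Cfg.wr {P : Type} (g : Cfg Q P) (R : Option (Nd Q) → Nd Q → Clopens CC) : Cfg Q P := { g with reg := R }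

/-- Change one region. -/
noncomputable def upR (R : Option (Nd Q) → Nd Q → Clopens CC) (κ : Option (Nd Q)) (x : Nd Q) (A : Clopens CC) :
    Option (Nd Q) → Nd Q → Clopens CC := fun κ' x' => if κ' = κ ∧ x' = x then A else R κ' x'

/-- MODULE xa2 (size 1): multiplicities of the base sets (`Mul.preimage`, `Mul.const`) and of the sets `G` (`GG_mul`). -/
theorem bse_mul (H : Hyp Q τ) (g : Cfg Q H.P) (κ : Option (Nd Q)) (x : Nd Q) (σ : Sta Q) :
    Mul (fun t t' : Clopens CC => Disjoint t t') 1 (bse τ H.f g σ)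
      (fun t => bse τ H.f (g.wr (upR g.reg κ x (g.reg κ x \ t))) σ) := by
  have key : ∀ (W : Set H.P) (κ' : Option (Nd Q)) (x' : Nd Q),
      Mul (fun t t' : Clopens CC => Disjoint t t') 1 (W ∩ H.f ⁻¹' (g.reg κ' x'))
        (fun t => W ∩ H.f ⁻¹' (upR g.reg κ x (g.reg κ x \ t) κ' x')) := by
    intro W κ' x'
    by_cases h : κ' = κ ∧ x' = x
    · obtain ⟨rfl, rfl⟩ := h
      have h1 := Mul.preimage H.f W (g.reg κ' x' : Set CC)
      refine h1.mono Subset.rfl (fun t => ?_) le_rfl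
      unfold upR
      rw [if_pos ⟨rfl, rfl⟩]
      exact Subset.rfl
    · have h1 : Mul (fun t t' : Clopens CC => Disjoint t t') 0 (W ∩ H.f ⁻¹' (g.reg κ' x'))
          (fun _ => W ∩ H.f ⁻¹' (g.reg κ' x')) := Mul.const _
      refine h1.mono Subset.rfl (fun t => ?_) (Nat.zero_le 1)
      unfold upR
      rw [if_neg h]
  have key0 : ∀ (W : Set H.P), Mul (fun t t' : Clopens CC => Disjoint t t') 1 W (fun _ => W) :=
    fun W => (Mul.const W).mono Subset.rfl (fun _ => Subset.rfl) (Nat.zero_le 1)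
  cases σ with
  | A k p c => exact key0 (g.S p)
  | D r v c =>
    cases v with
    | none => exact key (g.C r) _ _
    | some v => exact key (g.D v) _ _
  | S r y => exact key (g.S r) _ _
  | E => exact key0 g.E

theorem G_mul (H : Hyp Q τ) {T : Finset (Nd Q)} {g : Cfg Q H.P} (i1 : Inv1 H T g) (κ : Option (Nd Q)) (x : Nd Q)
    (σ : Sta Q) : ∃ n, Mul (fun t t' : Clopens CC => Disjoint t t') n (H.G g σ)
      (fun t => H.G (g.wr (upR g.reg κ x (g.reg κ x \ t))) σ) := by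
  have hlv : ∀ t : Clopens CC, lvl (g.wr (upR g.reg κ x (g.reg κ x \ t))) = lvl g := fun t => by
    funext σ
    rcases σ with ⟨_ | e, p, c⟩ | ⟨r, _ | v, c⟩ | ⟨r, y⟩ | _ <;> rfl
  have h1 := GG_mul (T := TT τ) (ξ := H.ξ) (lv := lvl g) (B := bse τ H.f g)
    (B' := fun t : Clopens CC => bse τ H.f (g.wr (upR g.reg κ x (g.reg κ x \ t))))
    (r := fun t t' : Clopens CC => Disjoint t t') H.hξ (R := univ) (fun _ _ _ _ => mem_univ _)
    (isOpen_bse H i1.oS i1.oD i1.oC i1.oE)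
    (fun t => isOpen_bse H (g := g.wr (upR g.reg κ x (g.reg κ x \ t))) i1.oS i1.oD i1.oC i1.oE)
    (fun σ _ => ⟨1, bse_mul H g κ x σ⟩) (mem_univ σ)
  obtain ⟨n, hn⟩ := h1
  refine ⟨n, ?_⟩
  have h2 : (fun t : Clopens CC => H.G (g.wr (upR g.reg κ x (g.reg κ x \ t))) σ) =
      fun t => GG (TT τ) H.ξ (lvl g) (bse τ H.f (g.wr (upR g.reg κ x (g.reg κ x \ t)))) σ := by
    funext t
    unfold Hyp.G
    rw [hlv t]
  rw [h2]
  exact hn

/-- MODULE xa3 (size 2): choice of a region.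

Proof.  Let `K = ⋂_(σ ∈ Tg) clo (lvl g σ) (G g σ)`, `F θ = ⋂_(σ ∈ Tg) clo (lvl g σ) (G (g.wr (upR ..)) σ)`: of finite multiplicity in `K` (`G_mul`, `Mul.clo`, `Mul.biInter`), and `clo e (F θ) = F θ` (`clo e (⋂ ..) ⊆ clo e (clo (lvl g σ) ..) = clo (lvl g σ) ..` by `clo_clo_of_le`).  `choices` (with `Γ = reg κ x`, `Z ⊆ f ⁻¹' Γ`) gives arbitrarily many disjoint small
`θ ≤ reg κ x` with `Z ∩ f ⁻¹' θ ∩ F θ ≠ ∅`.  The slots: for the finitely many `(v, m)` with `v ∈ T`, `Ok (m :: v)` (`finite_moves`), `m :: v ∉ T`, the set `G g (A ⊥ v none) ∩ ξ ⁻¹' U (m :: v)` is open nonempty, and the family of the `G (g.wr ..) (A ⊥ v none) ∩ ξ ⁻¹' U` has finite multiplicity (`Mul.inter` with `Mul.const`);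
`Mul.exists_alive`. -/
theorem reg_choice (H : Hyp Q τ) {T : Finset (Nd Q)} {g : Cfg Q H.P} (i1 : Inv1 H T g) (hv : Via H T g)
    (κ : Option (Nd Q)) (x : Nd Q) {Z : Set H.P} (hZ : IsOpen Z) (hne : Z.Nonempty)
    (hZr : Z ⊆ H.f ⁻¹' (g.reg κ x)) (Tg : Finset (Sta Q)) (e : Ordinal.{0})
    (hT : ∀ σ ∈ Tg, Z ⊆ clo H.ξ (lvl g σ) (H.G g σ) ∧ lvl g σ ≤ e)
    (hn : ∀ D ⊆ Z, IsOpen D → D.Nonempty → ¬ Co H.ξ H.f e D) (m : ℕ) :
    ∃ θ : Clopens CC, θ ≤ g.reg κ x ∧ Sml m θ ∧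
      (∃ Z' ⊆ Z ∩ H.f ⁻¹' θ, IsOpen Z' ∧ Z'.Nonempty ∧
        ∀ σ ∈ Tg, Z' ⊆ clo H.ξ (lvl g σ) (H.G (g.wr (upR g.reg κ x (g.reg κ x \ θ))) σ)) ∧
      Via H T (g.wr (upR g.reg κ x (g.reg κ x \ θ))) := by
  classical
  choose n hnn using fun σ : Sta Q => G_mul H i1 κ x σ
  have hoG : ∀ (t : Clopens CC) (σ : Sta Q), IsOpen (H.G (g.wr (upR g.reg κ x (g.reg κ x \ t))) σ) := fun t σ =>
    isOpen_GG (T := TT τ) (isOpen_bse H (g := g.wr (upR g.reg κ x (g.reg κ x \ t))) i1.oS i1.oD i1.oC i1.oE) σ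
  have hM : Mul (fun t t' : Clopens CC => Disjoint t t') (∑ σ ∈ Tg, n σ)
      (⋂ σ ∈ Tg, clo H.ξ (lvl g σ) (H.G g σ))
      (fun t => ⋂ σ ∈ Tg, clo H.ξ (lvl g σ) (H.G (g.wr (upR g.reg κ x (g.reg κ x \ t))) σ)) := by
    refine Mul.biInter Tg (K := fun σ => clo H.ξ (lvl g σ) (H.G g σ))
      (F := fun σ (t : Clopens CC) => clo H.ξ (lvl g σ) (H.G (g.wr (upR g.reg κ x (g.reg κ x \ t))) σ)) ?_ ?_
    · intro σ _
      exact Mul.clo H.hξ (i1.isOpen_G σ) (hnn σ)
    · intro σ _ t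
      exact isOpen_clo _ _ _
  have hF : ∀ t : Clopens CC, clo H.ξ e
      (⋂ σ ∈ Tg, clo H.ξ (lvl g σ) (H.G (g.wr (upR g.reg κ x (g.reg κ x \ t))) σ)) =
      ⋂ σ ∈ Tg, clo H.ξ (lvl g σ) (H.G (g.wr (upR g.reg κ x (g.reg κ x \ t))) σ) := by
    intro t
    refine Subset.antisymm (subset_iInter₂ fun σ hσ => ?_)
      (subset_clo (isOpen_biInter_finset fun σ _ => isOpen_clo _ _ _))
    exact (clo_mono (biInter_subset_of_mem hσ)).trans (clo_clo_of_le (hT σ hσ).2 _).subset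
  have hZK : Z ⊆ ⋂ σ ∈ Tg, clo H.ξ (lvl g σ) (H.G g σ) := subset_iInter₂ fun σ hσ => (hT σ hσ).1
  have hΓ : (Z ∩ H.f ⁻¹' (g.reg κ x : Set CC)).Nonempty := by
    obtain ⟨z, hz⟩ := hne
    exact ⟨z, hz, hZr hz⟩
  have hfin : {w : Nd Q | ∃ v ∈ T, ∃ m', w = m' :: v ∧ Ok w ∧ w ∉ T}.Finite := by
    refine (T.finite_toSet.biUnion fun v hv => (finite_moves (i1.ok v hv)).image fun m' => m' :: v).subset ?_
    rintro w ⟨v, hv, m', rfl, hok, _⟩
    exact mem_biUnion hv ⟨m', hok, rfl⟩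
  obtain ⟨s, hsc, hsp, hs⟩ := choices H.hξ H.hf hZ hZK hn hF hM (g.reg κ x) hΓ m
    (∑ w ∈ hfin.toFinset, n (.A ⊥ w.tail (fun _ => none)) + 1)
  obtain ⟨θ, hθ, hal⟩ := Mul.exists_alive (r := fun t t' : Clopens CC => Disjoint t t') hfin.toFinset
    (n := fun w => n (.A ⊥ w.tail (fun _ => none)))
    (K := fun w => H.G g (.A ⊥ w.tail (fun _ => none)) ∩ H.ξ ⁻¹' (g.U w))
    (F := fun w (t : Clopens CC) =>
      H.G (g.wr (upR g.reg κ x (g.reg κ x \ t))) (.A ⊥ w.tail (fun _ => none)) ∩ H.ξ ⁻¹' (g.U w))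
    (by
      intro w _
      have h1 := Mul.inter (hnn (.A ⊥ w.tail (fun _ => none)))
        (Mul.const (r := fun t t' : Clopens CC => Disjoint t t') (H.ξ ⁻¹' (g.U w : Set CC)))
        (fun _ => (g.U w).isClopen.isOpen.preimage H.hξ)
      exact h1)
    (by
      intro w hw
      obtain ⟨v, hvT, m', rfl, hok, hwT⟩ := hfin.mem_toFinset.1 hw
      exact ⟨(i1.isOpen_G _).inter ((g.U _).isClopen.isOpen.preimage H.hξ), hv v hvT m' hok hwT⟩)
    s hsp (by omega)
  obtain ⟨h1, h2, h3⟩ := hs θ hθ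
  refine ⟨θ, h1, h2, ⟨Z ∩ H.f ⁻¹' θ ∩
    ⋂ σ ∈ Tg, clo H.ξ (lvl g σ) (H.G (g.wr (upR g.reg κ x (g.reg κ x \ θ))) σ), inter_subset_left,
    (hZ.inter (θ.isClopen.isOpen.preimage H.hf)).inter (isOpen_biInter_finset fun σ _ => isOpen_clo _ _ _), h3,
    fun σ hσ => inter_subset_right.trans (biInter_subset_of_mem hσ)⟩, ?_⟩
  intro v hvT m' hok hmT
  have h4 := hal (m' :: v) (hfin.mem_toFinset.2 ⟨v, hvT, m', rfl, hok, hmT⟩)
  exact h4.mono inter_subset_right

private theorem xa4_lvl {P : Type} (g : Cfg Q P) (R : Option (Nd Q) → Nd Q → Clopens CC) (σ : Sta Q) :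
    lvl (g.wr R) σ = lvl g σ := by
  rcases σ with ⟨k, p, c⟩ | ⟨r, v, c⟩ | ⟨r, x⟩ | _
  · cases k <;> rfl
  · cases v <;> rfl
  · rfl
  · rfl

private theorem xa4_lvl_phi {P : Type} (g : Cfg Q P) (κ : Option (Nd Q)) (w : Nd Q) (σ : Sta Q) :
    lvl g (τ.phi κ w σ) = lvl g σ := by
  rcases σ with ⟨k, p, c⟩ | ⟨r, v, c⟩ | ⟨r, x⟩ | _
  · cases k <;> rfl
  · cases v <;> rfl
  · simp only [Ty.phi]
    split_ifs <;> rfl
  · rfl

/-- the states `S` and `E` -/
private theorem xa4_S (H : Hyp Q τ) {g : Cfg Q H.P} {R : Option (Nd Q) → Nd Q → Clopens CC}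
    (hR : R none = g.reg none) (r y : Nd Q) : H.G g (.S r y) = H.G (g.wr R) (.S r y) := by
  refine GG_congr (T := TT τ) (R := {σ : Sta Q | (∃ r y, σ = .S r y) ∨ σ = .E}) ?_ ?_ ?_ (Or.inl ⟨r, y, rfl⟩)
  · rintro σ (⟨r, y, rfl⟩ | rfl) σ' hσ'
    · exact Or.inr ((mem_trs_S (τ := τ) (r := r) (x := y)).1 hσ')
    · exact absurd hσ' (Finset.notMem_empty _)
  · intro σ _
    exact (xa4_lvl g R σ).symm
  · rintro σ (⟨r, y, rfl⟩ | rfl)
    · show g.S r ∩ H.f ⁻¹' (g.reg none y) = g.S r ∩ H.f ⁻¹' (R none y)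
      rw [hR]
    · rfl

private theorem xa4_phic_ne (τ : Ty Q) {κ i : Option (Nd Q)} (h : τ.cls i ≠ κ) (w : Nd Q) (c : Ctx Q) :
    τ.phic κ w c i = c i := by
  simp only [Ty.phic]
  rw [if_neg]
  exact fun h' => h h'.1

private theorem xa4_phic_eq (τ : Ty Q) {κ i : Option (Nd Q)} (h : τ.cls i = κ) (w : Nd Q) {c : Ctx Q}
    (hc : (c i).isSome = true) : τ.phic κ w c i = some w := by
  simp only [Ty.phic]
  rw [if_pos ⟨h, hc⟩]

/-- base sets of the `D`-states outside the class -/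
private theorem xa4_bse_ne (H : Hyp Q τ) {g : Cfg Q H.P} {R : Option (Nd Q) → Nd Q → Clopens CC} {κ : Option (Nd Q)}
    {w r : Nd Q} (h : τ.cls (some r) ≠ κ) (hR : R (τ.cls (some r)) = g.reg (τ.cls (some r)))
    (v : Option (Nd Q)) (c : Ctx Q) :
    bse τ H.f g (.D r v c) = bse τ H.f (g.wr R) (.D r v (τ.phic κ w c)) := by
  cases v with
  | none =>
    show g.C r ∩ H.f ⁻¹' (g.reg (τ.cls (some r)) ((c (some r)).getD (τ.an (some r) r))) =
      g.C r ∩ H.f ⁻¹' (R (τ.cls (some r)) ((τ.phic κ w c (some r)).getD (τ.an (some r) r)))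
    rw [xa4_phic_ne τ h, hR]
  | some v =>
    show g.D v ∩ H.f ⁻¹' (g.reg (τ.cls (some r)) ((c (some r)).getD (τ.an (some r) r))) =
      g.D v ∩ H.f ⁻¹' (R (τ.cls (some r)) ((τ.phic κ w c (some r)).getD (τ.an (some r) r)))
    rw [xa4_phic_ne τ h, hR]

/-- MODULE xa4 (size 3): localisation.

`N` is a test set of order `e`; `R` agrees with `g.reg` outside the class `κ`; `e ≤ ex k` for the levels `k ∉ D₀`, `k ≠ ⊤`; for the `D`-states of the class `κ` (and all `D`-states if `κ = none` or in successor mode) `e ≤ lvl`; `e ≤ kap`;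
`N ∩ C r`, `N ∩ D v'` (`r` in the class `κ`) are mapped by `f` into `R κ w` (if `κ = none`: `N ∩ S r` is mapped into `R none w`).  Then `N ∩ G g σ ⊆ G (g.wr R) (phi κ w σ)` for states `σ` on `u` with the coordinates of the class set.

Proof.  Induction on `msr σ` (or `GG_loc` when all the `D`-states satisfy `e ≤ lvl`).  `GG_eq`, `subset_GG`.  Base sets: `A`-states: `S p`, unchanged; `D r v c` with `cls (some r) = κ`: `c (some r)` is set, the key of `phi κ w σ` is `w`: `N ∩ X ⊆ f ⁻¹' (R κ w)`; `cls (some r) ≠ κ`: same key (`phic` does not change it), `R` = `g.reg` on the class;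
`S r y`: if `κ = none` the new key is `w`, `N ∩ S r ⊆ f ⁻¹' (R none w)`; otherwise unchanged; `E` unchanged.  Transitions: `trs_phi`: a transition from `phi κ w σ` is `phi κ w σ''`, `σ'' ∈ trs σ`, `σ''` again on `u` and `Gd` (`clo_On`, `clo_Gd`), `lvl (g.wr R) (phi σ'') = lvl g σ''`.  If `e ≤ lvl g σ''`: `N ∩ clo (lvl) (G g σ'') ⊆ clo (lvl) (N ∩ G g σ'') ⊆ clo (lvl) (G (g.wr R) (phi σ''))`.
Otherwise `σ'' = D r v c`, `cls (some r) ≠ κ`, `κ ≠ none`, limit mode: there are no transitions to `D`-states (`rdd r = ∅`), and `G g σ'' = G (g.wr R) (phi κ w σ'')` directly (base sets equal, the only transition is to `S r y`, same sets). -/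
theorem loc (H : Hyp Q τ) {g : Cfg Q H.P} {R : Option (Nd Q) → Nd Q → Clopens CC} {κ : Option (Nd Q)}
    {D₀ : Set Q.L} (hD₀ : IsLowerSet D₀) {u w : Nd Q} {N : Set H.P} {e : Ordinal.{0}} (hN : Cf H.ξ e N)
    (hR : ∀ κ' ≠ κ, R κ' = g.reg κ') (hex : ∀ k ∉ D₀, k ≠ ⊤ → e ≤ g.ex k) (hk : e ≤ Q.kap)
    (hlv : ∀ r v c, On u (.D r v c) → (τ.cls (some r) = κ ∨ κ = none ∨ Q.md = true) → e ≤ lvl g (.D r v c))
    (hS : κ = none → ∀ r, r <:+ u → N ∩ g.S r ⊆ H.f ⁻¹' (R none w))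
    (hC : ∀ r, r <:+ u → τ.cls (some r) = κ → N ∩ g.C r ⊆ H.f ⁻¹' (R κ w))
    (hD : ∀ r v, v <:+ u → v ≠ [] → q univ v = r → τ.cls (some r) = κ → N ∩ g.D v ⊆ H.f ⁻¹' (R κ w))
    {σ : Sta Q} (hσ : On u σ) (hG : Gd τ κ D₀ σ) : N ∩ H.G g σ ⊆ H.G (g.wr R) (τ.phi κ w σ) := by
  refine subset_GG (T := TT τ) ?_ ?_
  · refine (inter_subset_inter_right N (GG_subset (T := TT τ) _ _ σ)).trans ?_
    rcases σ with ⟨k, p, c⟩ | ⟨r, v, c⟩ | ⟨r, x⟩ | _
    · exact inter_subset_right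
    · by_cases hr : τ.cls (some r) = κ
      · have hc : (c (some r)).isSome = true := hG (some r) hr
        cases v with
        | none =>
          show N ∩ (g.C r ∩ H.f ⁻¹' (g.reg (τ.cls (some r)) ((c (some r)).getD (τ.an (some r) r)))) ⊆
            g.C r ∩ H.f ⁻¹' (R (τ.cls (some r)) ((τ.phic κ w c (some r)).getD (τ.an (some r) r)))
          rw [xa4_phic_eq τ hr w hc, hr]
          rintro x ⟨hx1, hx2, _⟩
          exact ⟨hx2, hC r hσ.1 hr ⟨hx1, hx2⟩⟩
        | some v =>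
          show N ∩ (g.D v ∩ H.f ⁻¹' (g.reg (τ.cls (some r)) ((c (some r)).getD (τ.an (some r) r)))) ⊆
            g.D v ∩ H.f ⁻¹' (R (τ.cls (some r)) ((τ.phic κ w c (some r)).getD (τ.an (some r) r)))
          rw [xa4_phic_eq τ hr w hc, hr]
          obtain ⟨h1, h2, h3⟩ := hσ.2 v rfl
          rintro x ⟨hx1, hx2, _⟩
          exact ⟨hx2, hD r v h1 h2 h3 hr ⟨hx1, hx2⟩⟩
      · refine inter_subset_right.trans (subset_of_eq ?_)
        exact xa4_bse_ne H hr (hR _ hr) v c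
    · by_cases hκ : κ = none
      · have e1 : τ.phi κ w (.S r x) = .S r w := by
          simp only [Ty.phi, if_pos hκ]
        rw [e1]
        rintro y ⟨hy1, hy2, _⟩
        exact ⟨hy2, hS hκ r hσ ⟨hy1, hy2⟩⟩
      · have e1 : τ.phi κ w (.S r x) = .S r x := by
          simp only [Ty.phi, if_neg hκ]
        rw [e1]
        show N ∩ (g.S r ∩ H.f ⁻¹' (g.reg none x)) ⊆ g.S r ∩ H.f ⁻¹' (R none x)
        rw [hR none (Ne.symm hκ)]
        exact inter_subset_right
    · exact inter_subset_right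
  · intro σ' hσ'
    obtain ⟨σ'', h1, rfl⟩ := trs_phi τ κ D₀ w hG σ' hσ'
    have hOn : On u σ'' := clo_On τ u σ hσ σ'' h1
    have hGd : Gd τ κ D₀ σ'' := clo_Gd τ κ hD₀ σ hG σ'' h1
    have hsub : H.G g σ ⊆ clo H.ξ (lvl g σ'') (H.G g σ'') := GG_subset_clo (T := TT τ) _ _ h1
    rw [xa4_lvl, xa4_lvl_phi]
    by_cases he : e ≤ lvl g σ''
    · have hrec : N ∩ H.G g σ'' ⊆ H.G (g.wr R) (τ.phi κ w σ'') :=
        loc H hD₀ hN hR hex hk hlv hS hC hD hOn hGd
      exact ((inter_subset_inter_right N hsub).trans (Cf.inter_clo H.hξ (hN.mono he))).trans (clo_mono hrec)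
    · refine inter_subset_right.trans (hsub.trans (clo_mono ?_))
      rcases σ'' with ⟨k, p, c⟩ | ⟨r, v, c⟩ | ⟨r, x⟩ | _
      · exfalso
        obtain ⟨⟨e', rfl, h2, h3⟩, _⟩ := hGd
        exact he (hex e' h3 h2)
      · have h2 : ¬ (τ.cls (some r) = κ ∨ κ = none ∨ Q.md = true) := fun h => he (hlv r v c hOn h)
        push Not at h2
        obtain ⟨h3, h4, h5⟩ := h2
        show H.G g (.D r v c) ⊆ H.G (g.wr R) (.D r v (τ.phic κ w c))
        refine subset_GG (T := TT τ) ?_ ?_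
        · exact (GG_subset (T := TT τ) _ _ _).trans (subset_of_eq (xa4_bse_ne H h3 (hR _ h3) v c))
        · intro σ3 hσ3
          rcases (mem_trs_D (τ := τ) (r := r) (v := v) (c := τ.phic κ w c)).1 hσ3 with rfl | ⟨r', hr', _⟩
          · have e2 : τ.phic κ w c none = c none := xa4_phic_ne τ (fun h => h4 h.symm) w c
            rw [e2]
            have h6 : (Sta.S r ((c none).getD (τ.an none r))) ∈ trs τ (.D r v c) := mem_trs_D.2 (Or.inl rfl)
            have h7 := GG_subset_clo (T := TT τ) (ξ := H.ξ) (lvl g) (bse τ H.f g) h6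
            have h8 := xa4_S H (g := g) (R := R) (hR none (fun h => h4 h.symm)) r ((c none).getD (τ.an none r))
            rw [xa4_lvl]
            change H.G g _ ⊆ _ at h7
            refine h7.trans ?_
            change clo H.ξ _ (H.G g _) ⊆ _
            rw [h8]
            exact subset_rfl
          · exact absurd hr'.1 h5
      · exact absurd hk he
      · exact absurd (hk.trans le_self_add) he
termination_by msr σ
decreasing_by exact msr_lt τ σ σ'' h1

/-- Classes I, II: the states `D r' v c` with `r'` a proper suffix of `r` do not see the regions of the cell `r`. -/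
theorem loc0 (H : Hyp Q τ) (h0 : τ.cl ≠ 0) {g : Cfg Q H.P} {R : Option (Nd Q) → Nd Q → Clopens CC} {r w : Nd Q}
    (hR : ∀ κ' ≠ some r, R κ' = g.reg κ') {r' : Nd Q} (hr : r'.length < r.length) (v : Option (Nd Q)) (c : Ctx Q) :
    H.G g (.D r' v c) ⊆ H.G (g.wr R) (.D r' v (τ.phic (some r) w c)) := by
  have hcls : ∀ s : Nd Q, τ.cls (some s) = some s := fun s => by simp only [Ty.cls, if_neg h0]
  have hne : τ.cls (some r') ≠ some r := by
    rw [hcls]
    intro h
    rw [Option.some.injEq] at h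
    rw [h] at hr
    exact lt_irrefl _ hr
  have hnn : τ.cls none ≠ some r := by
    show (none : Option (Nd Q)) ≠ some r
    exact fun h => by cases h
  refine subset_GG (T := TT τ) ?_ ?_
  · exact (GG_subset (T := TT τ) _ _ _).trans (subset_of_eq (xa4_bse_ne H hne (hR _ hne) v c))
  · intro σ3 hσ3
    rcases (mem_trs_D (τ := τ) (r := r') (v := v) (c := τ.phic (some r) w c)).1 hσ3 with rfl | ⟨r'', hr'', rfl⟩
    · have e2 : τ.phic (some r) w c none = c none := xa4_phic_ne τ hnn w c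
      rw [e2]
      have h6 : (Sta.S r' ((c none).getD (τ.an none r'))) ∈ trs τ (.D r' v c) := mem_trs_D.2 (Or.inl rfl)
      have h7 := GG_subset_clo (T := TT τ) (ξ := H.ξ) (lvl g) (bse τ H.f g) h6
      have h8 := xa4_S H (g := g) (R := R) (hR none hnn) r' ((c none).getD (τ.an none r'))
      rw [xa4_lvl]
      change H.G g _ ⊆ _ at h7
      refine h7.trans ?_
      change clo H.ξ _ (H.G g _) ⊆ _
      rw [h8]
      exact subset_rfl
    · have h6 : (Sta.D r'' (some (chd univ r'' r')) c) ∈ trs τ (.D r' v c) := mem_trs_D.2 (Or.inr ⟨r'', hr'', rfl⟩)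
      have h7 := GG_subset_clo (T := TT τ) (ξ := H.ξ) (lvl g) (bse τ H.f g) h6
      have hlt : r''.length < r'.length := by
        rcases lt_or_eq_of_le (Le.length_le hr''.2.2) with h | h
        · exact h
        · exact absurd (Le.eq_of_length hr''.2.2 h.ge) hr''.2.1
      have hrec := loc0 H h0 (w := w) hR (hlt.trans hr) (some (chd univ r'' r')) c
      change H.G g _ ⊆ _ at h7
      rw [xa4_lvl]
      exact h7.trans (clo_mono hrec)
termination_by r'.length

/-- the order of the test sets -/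
private noncomputable def xa5_ord {P : Type} (g : Cfg Q P) (l : Mv Q) (t : Nd Q) : Ordinal.{0} :=
  match l with
  | [] => g.exf t
  | x :: _ => if x.1 = ⊤ then g.exz (chd univ (lastN x.2.1 t) t) else g.ex x.1

/-- the contexts -/
private noncomputable def xa5_oc (τ : Ty Q) (c : Ctx Q) (l : Mv Q) (t : Nd Q) (k : Q.L) : Ctx Q := fun i =>
  match c i with
  | some x => some x
  | none => if k ∈ τ.DD i then none else some (τ.an i (tg (τ.DD i) l t))

/-- the parent in the cell -/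
private noncomputable def xa5_d (l : Mv Q) (t : Nd Q) : Option (Nd Q) :=
  if tg (Iio ⊤) l t = tg univ l t then none else some (chd univ (tg univ l t) (tg (Iio ⊤) l t))

private theorem xa5_low (τ : Ty Q) (i : Option (Nd Q)) : IsLowerSet (τ.DD i) := by
  cases i with
  | none => exact τ.lowA
  | some r => exact τ.lowB r

private theorem xa5_tg {D : Set Q.L} (hD : IsLowerSet D) {k : Q.L} (hk : k ∉ D) {l : Mv Q} (hl : ∀ x ∈ l, k < x.1)
    (t : Nd Q) : tg D l t = t := tg_of_lt hD hk (fun x hx => (hl x hx).le) t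

private theorem xa5_tgI {k : Q.L} {l : Mv Q} (hl : ∀ x ∈ l, k < x.1) (t : Nd Q) : tg (Iic k) l t = t := by
  cases l with
  | nil => rfl
  | cons x l => rw [tg, if_neg (show x.1 ∉ Iic k from not_le.2 (hl x List.mem_cons_self))]

/-- the context for small levels -/
private theorem xa5_oc_small (τ : Ty Q) (c : Ctx Q) {l : Mv Q} (t : Nd Q) {k : Q.L} (hl : ∀ x ∈ l, k < x.1) :
    xa5_oc τ c l t k = τ.upd k c t := by
  funext i
  unfold xa5_oc Ty.upd
  cases c i with
  | some x => rfl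
  | none =>
    by_cases hk : k ∈ τ.DD i
    · simp only [if_pos hk]
    · simp only [if_neg hk]
      rw [xa5_tg (xa5_low τ i) hk hl]

/-- the context for large levels -/
private theorem xa5_oc_large (τ : Ty Q) (c : Ctx Q) {x : Q.L × ℕ × ℕ} {l : Mv Q} (t : Nd Q) {k : Q.L} (hk : x.1 ≤ k) :
    xa5_oc τ (τ.upd x.1 c t) l (lastN x.2.1 t) k = xa5_oc τ c (x :: l) t k := by
  funext i
  unfold xa5_oc Ty.upd
  cases c i with
  | some x => rfl
  | none =>
    by_cases hx : x.1 ∈ τ.DD i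
    · simp only [if_pos hx]
      rw [tg, if_pos hx]
    · simp only [if_neg hx]
      rw [if_neg (fun h => hx (xa5_low τ i hk h)), tg, if_neg hx]

private theorem xa5_lt {P : Type} {g : Cfg Q P} {u : Nd Q}
    (hmono : ∀ k k', k < k' → k' ≠ ⊤ → g.ex k < g.ex k')
    (hz : ∀ v, v <:+ u → ∀ k, k ≠ ⊤ → (Q.md = true ∨ Q.ι k ≤ v.length) → g.ex k < g.exz v ∧ g.ex k < g.exf v)
    {l : Mv Q} {k₀ : WithBot Q.L} {t : Nd Q} (ht : t <:+ u) (hl : OkP k₀ t l) {k : Q.L} (hk : k ≠ ⊤)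
    (hi : Q.ι k ≤ t.length) (h : ∀ x ∈ l, k < x.1) : g.ex k < xa5_ord g l t := by
  cases l with
  | nil => exact (hz t ht k hk (Or.inr hi)).2
  | cons x l =>
    unfold xa5_ord
    simp only
    by_cases hx : x.1 = ⊤
    · rw [if_pos hx]
      refine (hz _ (chd_suffix.trans ht) k hk ?_).1
      cases hmd : Q.md with
      | true => exact Or.inl rfl
      | false =>
        right
        have h1 : lastN x.2.1 t = q univ t := (hl.2.2.1.2.2.2 hx).1 hmd
        have ht0 : t ≠ [] := by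
          rintro rfl
          exact absurd hl.2.1 (Nat.not_lt_zero _)
        rw [h1, chd_eq, if_neg ht0, if_pos rfl]
        exact hi
    · rw [if_neg hx]
      exact hmono k x.1 (h x List.mem_cons_self) hx

private theorem xa5_N (H : Hyp Q τ) {g : Cfg Q H.P} {u : Nd Q}
    (hmono : ∀ k k', k < k' → k' ≠ ⊤ → g.ex k < g.ex k')
    (hz : ∀ v, v <:+ u → ∀ k, k ≠ ⊤ → (Q.md = true ∨ Q.ι k ≤ v.length) → g.ex k < g.exz v ∧ g.ex k < g.exf v)
    {l : Mv Q} {k₀ : WithBot Q.L} {t : Nd Q} (ht : t <:+ u) (hl : OkP k₀ t l) {N Z : Set H.P} (hZ : IsOpen Z)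
    (hZN : Z ⊆ N) (hN : Cf H.ξ (xa5_ord g l t) N) :
    ∃ N', Cf H.ξ (xa5_ord g l t) N' ∧ Z ⊆ N' ∧ N' ⊆ N ∧
      ∀ k, k ≠ ⊤ → Q.ι k ≤ t.length → (∀ x ∈ l, k < x.1) → N' ⊆ clo H.ξ (g.ex k) Z := by
  have hfin : {k : Q.L | k ≠ ⊤ ∧ Q.ι k ≤ t.length ∧ ∀ x ∈ l, k < x.1}.Finite := by
    refine Set.Finite.subset ((Set.finite_Iic t.length).preimage Q.ι_inj.injOn) ?_
    rintro k ⟨_, h, _⟩
    exact h
  refine ⟨N ∩ ⋂ k ∈ hfin.toFinset, clo H.ξ (g.ex k) Z, ?_, ?_, inter_subset_left, ?_⟩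
  · refine hN.inter H.hξ (Cf.biInter H.hξ _ _ fun k hk => ?_)
    rw [Set.Finite.mem_toFinset] at hk
    exact Cf_clo (xa5_lt hmono hz ht hl hk.1 hk.2.1 hk.2.2) Z
  · exact subset_inter hZN (subset_iInter₂ fun k _ => subset_clo hZ)
  · intro k h1 h2 h3 x hx
    exact mem_iInter₂.1 hx.2 k (by rw [Set.Finite.mem_toFinset]; exact ⟨h1, h2, h3⟩)

private theorem xa5_open (H : Hyp Q τ) {g : Cfg Q H.P} (hoS : ∀ w, IsOpen (g.S w)) (hoD : ∀ w, IsOpen (g.D w))
    (hoC : ∀ w, IsOpen (g.C w)) (hoE : IsOpen g.E) (σ : Sta Q) : IsOpen (H.G g σ) :=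
  isOpen_GG (T := TT τ) (isOpen_bse H hoS hoD hoC hoE) σ

private theorem xa5_close (H : Hyp Q τ) {g : Cfg Q H.P} (hoS : ∀ w, IsOpen (g.S w)) (hoD : ∀ w, IsOpen (g.D w))
    (hoC : ∀ w, IsOpen (g.C w)) (hoE : IsOpen g.E) {k : WithBot Q.L} {t : Nd Q} (c : Ctx Q) {k' : Q.L} {p : Nd Q}
    (hk : k ≤ k') (hk' : k' ≠ ⊤) (hi : Q.ι k' ≤ dep p) (hp : Le (Iic k') p t)
    (hb : p = t ∨ 1 ≤ bud k' (chd (Iic k') p t)) :
    H.G g (.A k t c) ⊆ clo H.ξ (g.ex k') (H.G g (.A (k' : WithBot Q.L) p (τ.upd k' c t))) := by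
  by_cases hpt : p = t
  · subst hpt
    refine Subset.trans ?_ (subset_clo (xa5_open H hoS hoD hoC hoE _))
    exact GG_subset_GG (T := TT τ) (trs_subset τ hk p c) (subset_of_eq rfl)
  · have h1 : Sta.A (k' : WithBot Q.L) p (τ.upd k' c t) ∈ trs τ (.A k t c) :=
      mem_trs_A.2 (Or.inl ⟨(k', p), ⟨hk, hk', hpt, hp, hi, hb.resolve_left hpt⟩, rfl⟩)
    exact GG_subset_clo (T := TT τ) (lvl g) (bse τ H.f g) h1

private theorem xa5_main (H : Hyp Q τ) {g : Cfg Q H.P} (hoS : ∀ w, IsOpen (g.S w)) (hoD : ∀ w, IsOpen (g.D w))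
    (hoC : ∀ w, IsOpen (g.C w)) (hoE : IsOpen g.E) {u : Nd Q}
    (hmono : ∀ k k', k < k' → k' ≠ ⊤ → g.ex k < g.ex k')
    (hz : ∀ v, v <:+ u → ∀ k, k ≠ ⊤ → (Q.md = true ∨ Q.ι k ≤ v.length) → g.ex k < g.exz v ∧ g.ex k < g.exf v)
    (l : Mv Q) : ∀ (k : WithBot Q.L) (t : Nd Q) (c : Ctx Q) (N : Set H.P), t <:+ u → OkP k t l →
      Cf H.ξ (xa5_ord g l t) N → (H.G g (.A k t c) ∩ N).Nonempty →
      ∃ Y : Set H.P, IsOpen Y ∧ Y.Nonempty ∧ Y ⊆ N ∧
        Y ⊆ H.G g (.D (tg univ l t) (xa5_d l t) (xa5_oc τ c l t ⊤)) ∧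
        ∀ (k' : Q.L) (p : Nd Q), k ≤ k' → k' ≠ ⊤ → Q.ι k' ≤ dep p → Le (Iic k') p (tg (Iic k') l t) →
          (p = tg (Iic k') l t ∨ 1 ≤ bud k' (chd (Iic k') p (tg (Iic k') l t))) →
          Y ⊆ clo H.ξ (g.ex k') (H.G g (.A (k' : WithBot Q.L) p (xa5_oc τ c l t k'))) := by
  have hGo := xa5_open H hoS hoD hoC hoE
  induction l with
  | nil =>
    intro k t c N ht hl hN hne
    obtain ⟨N', h1, h2, h3, h4⟩ := xa5_N H hmono hz ht hl
      ((hGo (.A k t c)).inter (hN.isOpen H.hξ)) inter_subset_right hN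
    have e1 : xa5_d ([] : Mv Q) t = none := by
      unfold xa5_d
      rw [if_pos]
      rfl
    have e2 : xa5_oc τ c [] t ⊤ = τ.upd ⊤ c t := rfl
    have hmem : Sta.D t none (τ.upd ⊤ c t) ∈ trs τ (.A k t c) := mem_trs_A.2 (Or.inr (Or.inl rfl))
    have h5 : H.G g (.A k t c) ⊆ clo H.ξ (g.exf t) (H.G g (.D t none (τ.upd ⊤ c t))) :=
      GG_subset_clo (T := TT τ) (lvl g) (bse τ H.f g) hmem
    obtain ⟨z, hz1, hz2⟩ := hne
    have h6 : (N' ∩ H.G g (.D t none (τ.upd ⊤ c t))).Nonempty := meets_clo h1 ⟨z, h2 ⟨hz1, hz2⟩, h5 hz1⟩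
    refine ⟨N' ∩ H.G g (.D t none (τ.upd ⊤ c t)), (h1.isOpen H.hξ).inter (hGo _), h6,
      inter_subset_left.trans h3, ?_, ?_⟩
    · rw [e1, e2]
      exact inter_subset_right
    · intro k' p hk hk' hi hp hb
      have hlen : Q.ι k' ≤ t.length := hi.trans ((dep_le_length p).trans hp.length_le)
      refine inter_subset_left.trans ((h4 k' hk' hlen (fun x hx => absurd hx List.not_mem_nil)).trans ?_)
      have h7 := xa5_close H hoS hoD hoC hoE c hk hk' hi hp hb
      have h8 := clo_mono (ξ := H.ξ) (k := g.ex k') (inter_subset_left.trans h7 : (H.G g (.A k t c) ∩ N) ⊆ _)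
      rw [clo_idem] at h8
      exact h8
  | cons x l ih =>
    intro k t c N ht hl hN hne
    obtain ⟨N', h1, h2, h3, h4⟩ := xa5_N H hmono hz ht hl
      ((hGo (.A k t c)).inter (hN.isOpen H.hξ)) inter_subset_right hN
    have hlev : ∀ y ∈ x :: l, x.1 ≤ y.1 := by
      intro y hy
      rcases List.mem_cons.1 hy with rfl | hy
      · exact le_rfl
      · exact (WithBot.coe_lt_coe.1 (OkP.lt hl.2.2.2 y hy)).le
    -- closeness for the levels below `x.1`
    have hsmall : ∀ (Y : Set H.P), Y ⊆ N' → ∀ (k' : Q.L) (p : Nd Q), k' < x.1 → k ≤ k' → k' ≠ ⊤ → Q.ι k' ≤ dep p →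
        Le (Iic k') p (tg (Iic k') (x :: l) t) →
        (p = tg (Iic k') (x :: l) t ∨ 1 ≤ bud k' (chd (Iic k') p (tg (Iic k') (x :: l) t))) →
        Y ⊆ clo H.ξ (g.ex k') (H.G g (.A (k' : WithBot Q.L) p (xa5_oc τ c (x :: l) t k'))) := by
      intro Y hY k' p hx hk hk' hi hp hb
      have hall : ∀ y ∈ x :: l, k' < y.1 := fun y hy => hx.trans_le (hlev y hy)
      rw [xa5_tgI hall] at hp hb
      rw [xa5_oc_small τ c t hall]
      have hlen : Q.ι k' ≤ t.length := hi.trans ((dep_le_length p).trans hp.length_le)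
      refine hY.trans ((h4 k' hk' hlen hall).trans ?_)
      have h7 := xa5_close H hoS hoD hoC hoE c hk hk' hi hp hb
      have h8 := clo_mono (ξ := H.ξ) (k := g.ex k') (inter_subset_left.trans h7 : (H.G g (.A k t c) ∩ N) ⊆ _)
      rw [clo_idem] at h8
      exact h8
    obtain ⟨z, hz1, hz2⟩ := hne
    by_cases hx : x.1 = ⊤
    · have hl0 : l = [] := by
        cases l with
        | nil => rfl
        | cons y l' =>
          have h5 := WithBot.coe_lt_coe.1 (OkP.lt hl.2.2.2 y List.mem_cons_self)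
          rw [hx] at h5
          exact absurd h5 not_top_lt
      subst hl0
      have hal := hl.2.2.1
      rw [hx] at hal
      have hto : lastN x.2.1 t ∈ rto t := ⟨hal.1, by rw [← Iic_top_eq]; exact hal.2.1, (hal.2.2.2 rfl).1⟩
      have e0 : tg univ [x] t = lastN x.2.1 t := by
        rw [tg, if_pos (mem_univ _)]
        rfl
      have e0' : tg (Iio ⊤) [x] t = t := by
        rw [tg, if_neg]
        rw [hx]
        exact lt_irrefl _
      have e1 : xa5_d [x] t = some (chd univ (lastN x.2.1 t) t) := by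
        unfold xa5_d
        rw [e0, e0', if_neg (Ne.symm hal.1)]
      have e2 : xa5_oc τ c [x] t ⊤ = τ.upd ⊤ c t := by
        funext i
        unfold xa5_oc Ty.upd
        cases c i with
        | some x => rfl
        | none =>
          by_cases hk : ⊤ ∈ τ.DD i
          · simp only [if_pos hk]
          · simp only [if_neg hk]
            rw [tg, if_neg]
            rw [hx]
            exact hk
      have hmem : Sta.D (lastN x.2.1 t) (some (chd univ (lastN x.2.1 t) t)) (τ.upd ⊤ c t) ∈ trs τ (.A k t c) :=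
        mem_trs_A.2 (Or.inr (Or.inr ⟨_, hto, rfl⟩))
      have h5 : H.G g (.A k t c) ⊆ clo H.ξ (g.exz (chd univ (lastN x.2.1 t) t))
          (H.G g (.D (lastN x.2.1 t) (some (chd univ (lastN x.2.1 t) t)) (τ.upd ⊤ c t))) :=
        GG_subset_clo (T := TT τ) (lvl g) (bse τ H.f g) hmem
      have h1' : Cf H.ξ (g.exz (chd univ (lastN x.2.1 t) t)) N' := by
        have := h1
        unfold xa5_ord at this
        simp only [if_pos hx] at this
        exact this
      have h6 : (N' ∩ H.G g (.D (lastN x.2.1 t) (some (chd univ (lastN x.2.1 t) t)) (τ.upd ⊤ c t))).Nonempty :=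
        meets_clo h1' ⟨z, h2 ⟨hz1, hz2⟩, h5 hz1⟩
      refine ⟨_, (h1.isOpen H.hξ).inter (hGo _), h6, inter_subset_left.trans h3, ?_, ?_⟩
      · rw [e0, e1, e2]
        exact inter_subset_right
      · intro k' p hk hk' hi hp hb
        exact hsmall _ inter_subset_left k' p (by rw [hx]; exact lt_top_iff_ne_top.2 hk') hk hk' hi hp hb
    · have hal := hl.2.2.1
      have hal2 := hal.2.2.1 hx
      have hmem : Sta.A (x.1 : WithBot Q.L) (lastN x.2.1 t) (τ.upd x.1 c t) ∈ trs τ (.A k t c) :=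
        mem_trs_A.2 (Or.inl ⟨(x.1, lastN x.2.1 t), ⟨hl.1.le, hx, hal.1, hal.2.1, hal2.1, by
          have := hal2.2
          show 1 ≤ bud x.1 (chd (Iic x.1) (lastN x.2.1 t) t)
          omega⟩, rfl⟩)
      have h5 : H.G g (.A k t c) ⊆ clo H.ξ (g.ex x.1)
          (H.G g (.A (x.1 : WithBot Q.L) (lastN x.2.1 t) (τ.upd x.1 c t))) :=
        GG_subset_clo (T := TT τ) (lvl g) (bse τ H.f g) hmem
      have h1' : Cf H.ξ (g.ex x.1) N' := by
        have := h1
        unfold xa5_ord at this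
        simp only [if_neg hx] at this
        exact this
      have h6 : (N' ∩ H.G g (.A (x.1 : WithBot Q.L) (lastN x.2.1 t) (τ.upd x.1 c t))).Nonempty :=
        meets_clo h1' ⟨z, h2 ⟨hz1, hz2⟩, h5 hz1⟩
      have hpu : lastN x.2.1 t <:+ u := (lastN_suffix _ _).trans ht
      have hord : g.ex x.1 < xa5_ord g l (lastN x.2.1 t) :=
        xa5_lt hmono hz hpu hl.2.2.2 hx (hal2.1.trans (dep_le_length _))
          (fun y hy => WithBot.coe_lt_coe.1 (OkP.lt hl.2.2.2 y hy))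
      obtain ⟨Y, y1, y2, y3, y4, y5⟩ := ih (x.1 : WithBot Q.L) (lastN x.2.1 t) (τ.upd x.1 c t) N' hpu hl.2.2.2
        (h1'.mono hord.le) (by rw [inter_comm]; exact h6)
      have e0 : tg univ (x :: l) t = tg univ l (lastN x.2.1 t) := by
        rw [tg, if_pos (mem_univ _)]
      have e0' : tg (Iio ⊤) (x :: l) t = tg (Iio ⊤) l (lastN x.2.1 t) := by
        rw [tg, if_pos (show x.1 ∈ Iio ⊤ from lt_top_iff_ne_top.2 hx)]
      have e1 : xa5_d (x :: l) t = xa5_d l (lastN x.2.1 t) := by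
        unfold xa5_d
        rw [e0, e0']
      refine ⟨Y, y1, y2, y3.trans h3, ?_, ?_⟩
      · rw [e0, e1, ← xa5_oc_large τ c t (le_top : x.1 ≤ ⊤)]
        exact y4
      · intro k' p hk hk' hi hp hb
        rcases lt_or_ge k' x.1 with hlt | hge
        · exact hsmall Y y3 k' p hlt hk hk' hi hp hb
        · have e3 : tg (Iic k') (x :: l) t = tg (Iic k') l (lastN x.2.1 t) := by
            rw [tg, if_pos (show x.1 ∈ Iic k' from hge)]
          rw [e3] at hp hb
          rw [← xa5_oc_large τ c t hge]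
          exact y5 k' p (WithBot.coe_le_coe.2 hge) hk' hi hp hb

/-- MODULE xa5 (size 3): the path lemma.

Statement: `w = m :: u` a new node, the exponents strictly increasing below the top (`hmono`), `ex k < exz v, exf v` for suffixes `v` of `u` and `ι k ≤ v.length` (in successor mode for all `k ≠ ⊤`: `exz = exf = o ⊤`), a slot `V` with `G (A ⊥ u none) ∩ ξ ⁻¹' V ≠ ∅`.  Then there is an open nonempty `Y ⊆ ξ ⁻¹' V`, `Y ⊆ G (D r (dpar w) (oc w ⊤))`, `r = q univ w`, and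
`Y ⊆ clo (ex k') (G (A k' p' (oc w k')))` for all `(k', p') ∈ rel ⊥ w`.
Proof.  General claim, by induction on the list `l`: let `t <:+ u`, `OkP k t l`, `N` a test set of order `ex k₁` for the first level `k₁` of `l` (of order `exf t` if `l = []`, of order `exz (chd univ r t)` if `k₁ = ⊤`), `c` a context with `c i` set for all `i` with `k ∉ DD i` (`k ≠ ⊥`) and not set for the others, `Z := G (A k t c) ∩ N ≠ ∅`.  Let `oc' k' i = c i` if it is set, otherwise `none` if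
`k' ∈ DD i` and `some (an i (tg (DD i) l t))` if `k' ∉ DD i`; `r = tg univ l t`; `t' k' = tg (Iic k') l t`.  Then there is an open nonempty `Y ⊆ N`, `Y ⊆ G (D r d (oc' ⊤))` with `d = none` if `tg (Iio ⊤) l t = r`, `d = some (chd univ r (tg (Iio ⊤) l t))` otherwise, and `Y ⊆ clo (ex k') (G (A k' p' (oc' k')))` for all `k' ≠ ⊤`, `k ≤ k'`, `ι k' ≤ dep p'`, `Le (Iic k') p' (t' k')`,
(`p' = t' k'` or `1 ≤ bud k' (chd (Iic k') p' (t' k'))`).
Let `N' = N ∩ ⋂ clo (ex k') Z` over the finitely many `k' ≠ ⊤` with `k ≤ k'`, `k' < k₁`, `ι k' ≤ t.length`: a test set of the same order as `N` (`Cf_clo`, `ex k' < ex k₁`, `< exf t`, `< exz ..`).  `Z ⊆ N'`.  The next state `σ'` is a transition from `A k t c`: (1) `l = []`: `σ' = D t none (upd ⊤ c t)`; (2) `l = x :: l'`, `x.1 = ⊤`: `σ' = D r (some (chd univ r t)) (upd ⊤ c t)`, `r = lastN x.2.1 t ∈ rto t`; (3)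
`x.1 ≠ ⊤`: `σ' = A x.1 p (upd x.1 c t)`, `p = lastN x.2.1 t`, `(x.1, p) ∈ rel k t` (from `Alw`: `b < bud` gives `1 ≤ bud`).  `Z ⊆ clo (lvl σ') (G σ')` and `N'` meets `Z`, so `N' ∩ G σ' ≠ ∅`: this is `Y` in the cases (1), (2); in the case (3) apply the induction hypothesis to `A x.1 p (upd x.1 c t)` and `N'`.
For the closeness: for `k ≤ k' < k₁`: `t' k' = t`, `Y ⊆ N' ⊆ clo (ex k') Z`, `Z ⊆ G (A k t c)`.  If `p' ≠ t`: `(k', p') ∈ rel k t`, `G (A k t c) ⊆ clo (ex k') (G (A k' p' (upd k' c t)))` and `upd k' c t = oc' k'` (levels of `l` are `> k'`: `tg (DD i) l t = t` if `k' ∉ DD i`).  If `p' = t`: `G (A k t c) ⊆ G (A k' t (upd k' c t))` by `GG_subset_GG` and `trs_subset`.  For `k' ≥ k₁` use the induction hypothesis: the contexts `oc'` of `l` and of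
`l'` agree (`k₁ ∈ DD i`: `tg (DD i) l t = tg (DD i) l' p`; `k₁ ∉ DD i`: `upd k₁ c t` is set to `an i t` and `tg (DD i) l t = t`).
Finally apply it to `t = u`, `k = ⊥`, `c = none`, `l = m`, `N = ξ ⁻¹' V` (test set of order `1 ≤ ex k₁`, `exf`, `exz`: exponents are `≥ 1`, hypothesis `hone`); `oc' k' = oc w k'`, `t' k' = q (Iic k') w`; for `(k', p') ∈ rel ⊥ w`: `Le (Iic k') p' (q (Iic k') w)`, and if `p' ≠ q (Iic k') w` then `chd (Iic k') p' w = chd (Iic k') p' (q (Iic k') w)`. -/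
theorem path (H : Hyp Q τ) {g : Cfg Q H.P} (hoS : ∀ w, IsOpen (g.S w)) (hoD : ∀ w, IsOpen (g.D w))
    (hoC : ∀ w, IsOpen (g.C w)) (hoE : IsOpen g.E) {m : Mv Q} {u : Nd Q} (hw : Ok (m :: u))
    (hmono : ∀ k k', k < k' → k' ≠ ⊤ → g.ex k < g.ex k') (hone : ∀ k, k ≠ ⊤ → 1 ≤ g.ex k)
    (hz : ∀ v, v <:+ u → ∀ k, k ≠ ⊤ → (Q.md = true ∨ Q.ι k ≤ v.length) → g.ex k < g.exz v ∧ g.ex k < g.exf v)
    (hz1 : ∀ v, v <:+ u → 1 ≤ g.exz v ∧ 1 ≤ g.exf v)
    {V : Clopens CC} (hne : (H.G g (.A ⊥ u (fun _ => none)) ∩ H.ξ ⁻¹' V).Nonempty) :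
    ∃ Y : Set H.P, IsOpen Y ∧ Y.Nonempty ∧ Y ⊆ H.ξ ⁻¹' V ∧
      Y ⊆ H.G g (.D (q univ (m :: u)) (dpar (m :: u)) (τ.oc (m :: u) ⊤)) ∧
      ∀ y ∈ rel ⊥ (m :: u), Y ⊆ clo H.ξ (g.ex y.1) (H.G g (.A (y.1 : WithBot Q.L) y.2 (τ.oc (m :: u) y.1))) := by
  have hone' : 1 ≤ xa5_ord g m u := by
    cases m with
    | nil => exact (hz1 u (List.suffix_refl _)).2
    | cons x l =>
      unfold xa5_ord
      simp only
      split_ifs with hx
      · exact (hz1 _ chd_suffix).1
      · exact hone x.1 hx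
  obtain ⟨Y, y1, y2, y3, y4, y5⟩ := xa5_main H hoS hoD hoC hoE hmono hz m ⊥ u (fun _ => none) (H.ξ ⁻¹' V)
    (List.suffix_refl _) hw.2 (Cf_preimage hone' V.isClopen) hne
  refine ⟨Y, y1, y2, y3, y4, ?_⟩
  rintro ⟨k', p⟩ ⟨h1, h2, h3, h4, h5, h6⟩
  obtain ⟨_, h7⟩ := Le.le_q h4 h3
  refine y5 k' p bot_le h2 h5 h7 ?_
  by_cases hp : p = q (Iic k') (m :: u)
  · exact Or.inl hp
  · right
    have h8 : chd (Iic k') p (m :: u) = chd (Iic k') p (q (Iic k') (m :: u)) := by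
      rw [chd_eq, if_neg (List.cons_ne_nil _ _), if_neg (Ne.symm hp)]
    rw [h8] at h6
    exact h6

/-- The states reached from `A ⊥ w none` except the fresh one, with contexts `c`. -/
noncomputable def nf (c : Q.L → Ctx Q) (w : Nd Q) : Finset (Sta Q) :=
  (rel_finite ⊥ w).toFinset.image (fun y => Sta.A (y.1 : WithBot Q.L) y.2 (c y.1)) ∪
    (rto_finite w).toFinset.image (fun r => Sta.D r (some (chd univ r w)) (c ⊤))

/-- Add the set `D` and the exponent `e` of the node `w`. -/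
noncomputable def Cfg.wD {P : Type} (g : Cfg Q P) (w : Nd Q) (D : Set P) (e : Ordinal.{0}) : Cfg Q P :=
  { g with D := Function.update g.D w D, exz := Function.update g.exz w e }

/-- MODULE xa6 (size 2): from `D` to the states `nf`.

Let `r = q univ w`, `w = m :: u`.  `hD`: `D ⊆ G g (D r (dpar w) (c ⊤))`, `hA`: `D ⊆ clo (ex k') (G g (A k' p' (c k')))` for `(k', p') ∈ rel ⊥ w`; `S ⊆ clo e D` with `ex k' ≤ e`, `exz v ≤ e` for `v <:+ u` in successor mode.  Then `S ⊆ clo (lvl σ) (G (g.wD w D e) σ)` for all `σ ∈ nf c w`.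
Proof.  Put `g' = g.wD w D e`; on `u` the sets `G g'` and `G g` agree (`G_congr_On`).  `σ = A k' p' (c k')`: `S ⊆ clo e D ⊆ clo e (clo (ex k') (G g ..)) = clo (ex k') ..` (`clo_clo_of_le`).  `σ = D r (some w) (c ⊤)` (`chd univ r w = w`): `lvl g' σ = e`, and `D ⊆ G g' σ`: base set `D ∩ f ⁻¹' (reg ..)`: the key is the same as for `D r (dpar w) (c ⊤)`; the transitions from `D r v (c ⊤)` do not depend on `v`, and go to states on `u`, so
`D ⊆ clo (lvl) (G g ..)` for them by `GG_subset_clo`.  Successor mode, `σ = D r' (some (chd univ r' w)) (c ⊤)`, `r' ≠ r`, `Le univ r' w`, so `Le univ r' r`, `chd univ r' w = chd univ r' r`: `σ` is a transition from `D r (dpar w) (c ⊤)`, so `D ⊆ clo (exz ..) (G g σ)`, and `S ⊆ clo e D`.  In limit mode `rto w = {r}`. -/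
theorem nf_of_D (H : Hyp Q τ) {g : Cfg Q H.P} {m : Mv Q} {u : Nd Q} (hw : Ok (m :: u)) (c : Q.L → Ctx Q)
    {D S : Set H.P} (hoD : IsOpen D) (hoS : IsOpen S) {e : Ordinal.{0}} (hS : S ⊆ clo H.ξ e D)
    (he : ∀ y ∈ rel ⊥ (m :: u), g.ex y.1 ≤ e) (hz : Q.md = true → ∀ v, v <:+ u → g.exz v ≤ e)
    (hD : D ⊆ H.G g (.D (q univ (m :: u)) (dpar (m :: u)) (c ⊤)))
    (hA : ∀ y ∈ rel ⊥ (m :: u), D ⊆ clo H.ξ (g.ex y.1) (H.G g (.A (y.1 : WithBot Q.L) y.2 (c y.1)))) :
    ∀ σ ∈ nf c (m :: u), S ⊆ clo H.ξ (lvl (g.wD (m :: u) D e) σ) (H.G (g.wD (m :: u) D e) σ) := by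
  have hne : ∀ p : Nd Q, p <:+ u → p ≠ m :: u := by
    intro p hp he'
    have h1 := hp.length_le
    rw [he', List.length_cons] at h1
    omega
  have hG : ∀ σ, On u σ → H.G (g.wD (m :: u) D e) σ = H.G g σ := by
    intro σ hσ
    refine G_congr_On H (u := u) (g := g) (g' := g.wD (m :: u) D e) (fun p _ => rfl) (fun p hp => ?_)
      (fun p _ => rfl) rfl rfl rfl (fun p hp => ?_) (fun p _ => rfl) hσ
    · exact Function.update_of_ne (hne p hp) _ _
    · exact Function.update_of_ne (hne p hp) _ _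
  have hcc : ∀ (k : Ordinal.{0}) (G : Set H.P), k ≤ e → D ⊆ clo H.ξ k G → S ⊆ clo H.ξ k G := by
    intro k G hk h1
    exact (hS.trans (clo_mono h1)).trans (clo_clo_of_le hk G).subset
  have hr : q univ (m :: u) <:+ u := q_suffix univ m u
  have hw0 : (m :: u : Nd Q) ≠ [] := List.cons_ne_nil _ _
  have hrd : ∀ r' ∈ rdd (q univ (m :: u)), On u (.D r' (some (chd univ r' (q univ (m :: u)))) (c ⊤)) ∧
      lvl (g.wD (m :: u) D e) (.D r' (some (chd univ r' (q univ (m :: u)))) (c ⊤)) =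
        g.exz (chd univ r' (q univ (m :: u))) := by
    intro r' hr'
    obtain ⟨h1, h2, h3⟩ := hr'
    obtain ⟨h4, h5, h6⟩ := chd_spec h3 h2
    refine ⟨⟨h3.suffix.trans hr, ?_⟩, ?_⟩
    · intro v' hv'
      rw [← Option.some.inj hv']
      exact ⟨h6.suffix.trans hr, h5, h4⟩
    · exact Function.update_of_ne (hne _ (h6.suffix.trans hr)) _ _
  intro σ hσ
  rcases Finset.mem_union.1 hσ with hσ | hσ
  · obtain ⟨y, hy, rfl⟩ := Finset.mem_image.1 hσ
    rw [Set.Finite.mem_toFinset] at hy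
    have hyu : y.2 <:+ u := (List.suffix_cons_iff.1 hy.2.2.2.1.suffix).resolve_left hy.2.2.1
    rw [hG (.A (y.1 : WithBot Q.L) y.2 (c y.1)) hyu]
    exact hcc (g.ex y.1) _ (he y hy) (hA y hy)
  · obtain ⟨r', hr', rfl⟩ := Finset.mem_image.1 hσ
    rw [Set.Finite.mem_toFinset] at hr'
    obtain ⟨h1, h2, h3⟩ := hr'
    by_cases hrr : r' = q univ (m :: u)
    · rw [hrr, chd_unique hw0 rfl Le.refl]
      have hlv : lvl (g.wD (m :: u) D e) (.D (q univ (m :: u)) (some (m :: u)) (c ⊤)) = e :=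
        Function.update_self _ _ _
      rw [hlv]
      refine hS.trans (clo_mono ?_)
      refine subset_GG (T := TT τ) ?_ ?_
      · show D ⊆ (Function.update g.D (m :: u) D) (m :: u) ∩ _
        rw [Function.update_self]
        refine subset_inter Subset.rfl ?_
        have h4 : D ⊆ bse τ H.f g (.D (q univ (m :: u)) (dpar (m :: u)) (c ⊤)) :=
          hD.trans (GG_subset (T := TT τ) (lvl g) (bse τ H.f g) _)
        cases hdp : dpar (m :: u) with
        | none =>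
          rw [hdp] at h4
          exact h4.trans inter_subset_right
        | some v =>
          rw [hdp] at h4
          exact h4.trans inter_subset_right
      · intro σ' hσ'
        have h5 : σ' ∈ trs τ (.D (q univ (m :: u)) (dpar (m :: u)) (c ⊤)) :=
          mem_trs_D.2 ((mem_trs_D (v := some (m :: u))).1 hσ')
        have h6 : D ⊆ clo H.ξ (lvl g σ') (H.G g σ') :=
          hD.trans (GG_subset_clo (T := TT τ) (lvl g) (bse τ H.f g) h5)
        rcases (mem_trs_D (v := some (m :: u))).1 hσ' with rfl | ⟨r'', hr'', rfl⟩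
        · have h7 := hG (.S (q univ (m :: u)) (((c ⊤) none).getD (τ.an none (q univ (m :: u))))) hr
          unfold Hyp.G at h7 h6
          rw [h7]
          exact h6
        · obtain ⟨h8, h9⟩ := hrd r'' hr''
          have h7 := hG _ h8
          unfold Hyp.G at h7 h6
          rw [h7, h9]
          exact h6
    · have hmd : Q.md = true := by
        by_contra hmd
        exact hrr (h3 (by simpa using hmd))
      obtain ⟨_, h4⟩ := h2.le_q h1
      have h5 : chd univ r' (m :: u) = chd univ r' (q univ (m :: u)) := chd_of_le h4 hrr (q_le univ _)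
      rw [h5]
      have hrd' : r' ∈ rdd (q univ (m :: u)) := ⟨hmd, hrr, h4⟩
      obtain ⟨h8, h9⟩ := hrd r' hrd'
      rw [h9, hG _ h8]
      refine hcc _ _ (hz hmd _ ?_) ?_
      · exact (chd_spec h4 hrr).2.2.suffix.trans hr
      · exact hD.trans (GG_subset_clo (T := TT τ) (lvl g) (bse τ H.f g) (mem_trs_D.2 (Or.inr ⟨r', hrd', rfl⟩)))

end Pool.Agent.Bsw
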