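import Pool.Agent.Bsw.Ext1

/-!
# Extension step, part 2: the sets `D w`, `S w` and the regions
-/

set_option autoImplicit false

open Set Filter Topology TopologicalSpace
open scoped Classical

namespace Pool.Agent.Bsw

variable {Q : Par} {τ : Ty Q}

/-- MODULE xb1 (size 1): simple facts. -/
theorem exists_small {X : Type} [MetricSpace X] {V : Set X} (hV : IsOpen V) (hne : V.Nonempty) {ε : ℝ} (hε : 0 < ε) :
    ∃ V' ⊆ V, IsOpen V' ∧ V'.Nonempty ∧ closure V' ⊆ V ∧ ∀ x ∈ V', ∀ y ∈ V', dist x y ≤ ε := by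
  obtain ⟨x, hx⟩ := hne
  obtain ⟨δ, hδ, hb⟩ := Metric.isOpen_iff.1 hV x hx
  have h1 : Metric.closedBall x (min (δ / 2) (ε / 2)) ⊆ V := by
    intro y hy
    apply hb
    rw [Metric.mem_closedBall] at hy
    rw [Metric.mem_ball]
    have := min_le_left (δ / 2) (ε / 2)
    linarith
  refine ⟨Metric.ball x (min (δ / 2) (ε / 2)), Metric.ball_subset_closedBall.trans h1, Metric.isOpen_ball,
    ⟨x, Metric.mem_ball_self (lt_min (by linarith) (by linarith))⟩,
    (Metric.closure_ball_subset_closedBall).trans h1, ?_⟩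
  intro y hy z hz
  rw [Metric.mem_ball] at hy hz
  have h2 := dist_triangle_right y z x
  have := min_le_right (δ / 2) (ε / 2)
  linarith

theorem Inv1.mem_of_suffix {H : Hyp Q τ} {T : Finset (Nd Q)} {g : Cfg Q H.P} (i1 : Inv1 H T g) {v p : Nd Q}
    (hv : v ∈ T) (hp : p <:+ v) : p ∈ T := by
  rcases eq_or_ne p v with rfl | hne
  · exact hv
  · exact i1.len v hv p ((i1.ok v hv).suffix hp)
      (lt_of_le_of_ne hp.length_le fun h => hne (hp.eq_of_length h))

theorem Inv1.length_le {H : Hyp Q τ} {T : Finset (Nd Q)} {g : Cfg Q H.P} (i1 : Inv1 H T g) {w : Nd Q} (hw : Ok w)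
    (hT : w ∉ T) {v : Nd Q} (hv : v ∈ T) : v.length ≤ w.length := by
  by_contra h
  exact hT (i1.len v hv w hw (not_le.1 h))

theorem Inv1.not_suffix {H : Hyp Q τ} {T : Finset (Nd Q)} {g : Cfg Q H.P} (i1 : Inv1 H T g) {w : Nd Q}
    (hT : w ∉ T) {v : Nd Q} (hv : v ∈ T) : ¬ w <:+ v :=
  fun h => hT (i1.mem_of_suffix hv h)

theorem G_S (H : Hyp Q τ) (g : Cfg Q H.P) (r x : Nd Q) :
    H.G g (.S r x) = g.S r ∩ H.f ⁻¹' (g.reg none x) ∩ clo H.ξ (Q.kap + 1) g.E := by
  have h1 : H.G g .E = g.E := by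
    unfold Hyp.G
    rw [GG_eq]
    have : (TT τ).tr Sta.E = ∅ := rfl
    rw [this]
    simp [bse]
  have h2 : H.G g (.S r x) = bse τ H.f g (.S r x) ∩ clo H.ξ (lvl g (.E : Sta Q)) (H.G g .E) := by
    conv_lhs => unfold Hyp.G
    rw [GG_eq]
    have : (TT τ).tr (Sta.S r x) = {Sta.E} := rfl
    rw [this]
    simp only [Finset.mem_singleton, iInter_iInter_eq_left]
    rfl
  rw [h2, h1]
  rfl

/-- The states `nf` are in `Rch u w` (`w = m :: u`; the keys of `oc`, `mc`, `nc` are suffixes of `w`). -/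
theorem Rch_nf (τ : Ty Q) {m : Mv Q} {u : Nd Q} {c : Q.L → Ctx Q}
    (hc : c = τ.oc (m :: u) ∨ c = τ.mc (m :: u) ∨ c = τ.nc (m :: u)) {σ : Sta Q} (hσ : σ ∈ nf c (m :: u)) :
    Rch u (m :: u) σ := by
  have hq : ∀ D : Set Q.L, q D (m :: u) <:+ m :: u := fun D => (q_suffix D m u).trans (List.suffix_cons m u)
  have ho : ∀ k : Q.L, (∀ x, τ.oc (m :: u) k none = some x → x <:+ m :: u) ∧
      ∀ r, r <:+ m :: u → ∀ x, τ.oc (m :: u) k (some r) = some x → x <:+ m :: u := by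
    intro k
    constructor
    · intro x hx
      unfold Ty.oc at hx
      split_ifs at hx with h1
      rw [← Option.some.inj hx]
      exact (an_suffix τ (hq _) (List.nil_suffix)).1
    · intro r hr x hx
      unfold Ty.oc at hx
      split_ifs at hx with h1
      rw [← Option.some.inj hx]
      exact (an_suffix τ (hq _) hr).2
  have hn : ∀ k : Q.L, (∀ x, τ.nc (m :: u) k none = some x → x <:+ m :: u) ∧
      ∀ r, r <:+ m :: u → ∀ x, τ.nc (m :: u) k (some r) = some x → x <:+ m :: u := by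
    intro k
    constructor
    · intro x hx
      unfold Ty.nc at hx
      split_ifs at hx with h1
      rw [← Option.some.inj hx]
      exact (an_suffix τ (List.suffix_refl _) (List.nil_suffix)).1
    · intro r hr x hx
      unfold Ty.nc at hx
      split_ifs at hx with h1
      rw [← Option.some.inj hx]
      exact (an_suffix τ (List.suffix_refl _) hr).2
  have hk : ∀ k : Q.L, (∀ x, c k none = some x → x <:+ m :: u) ∧
      ∀ r, r <:+ u → ∀ x, c k (some r) = some x → x <:+ m :: u := by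
    intro k
    rcases hc with rfl | rfl | rfl
    · exact ⟨(ho k).1, fun r hr => (ho k).2 r (hr.trans (List.suffix_cons m u))⟩
    · exact ⟨(ho k).1, fun r hr => (hn k).2 r (hr.trans (List.suffix_cons m u))⟩
    · exact ⟨(hn k).1, fun r hr => (hn k).2 r (hr.trans (List.suffix_cons m u))⟩
  have hs : ∀ {D : Set Q.L} {p : Nd Q}, p ≠ m :: u → Le D p (m :: u) → p <:+ u := by
    intro D p hne hle
    rcases List.suffix_cons_iff.1 hle.suffix with h1 | h1
    · exact absurd h1 hne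
    · exact h1
  unfold nf at hσ
  simp only [Finset.mem_union, Finset.mem_image, Set.Finite.mem_toFinset] at hσ
  rcases hσ with ⟨y, hy, rfl⟩ | ⟨r, hr, rfl⟩
  · have hp := hs hy.2.2.1 hy.2.2.2.1
    refine ⟨hp, ?_, (hk y.1).1, (hk y.1).2⟩
    intro e he
    have h1 : y.1 = e := WithBot.coe_injective he
    subst h1
    refine ⟨hy.2.1, hy.2.2.2.2.1.trans ((dep_le_length y.2).trans (hp.length_le.trans ?_))⟩
    simp
  · have hp := hs hr.1 hr.2.1
    refine ⟨hp, ?_, (hk ⊤).1, (hk ⊤).2⟩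
    intro v' hv'
    rw [← Option.some.inj hv']
    obtain ⟨h1, h2, _⟩ := chd_spec hr.2.1 hr.1
    exact ⟨chd_suffix, h2, h1⟩

/-- The key `w` is not used in the coordinates of the class `κ`, the nodes are suffixes of `u`. -/
def Nk (τ : Ty Q) (κ : Option (Nd Q)) (u w : Nd Q) : Sta Q → Prop
  | .A _ p c => p <:+ u ∧ ∀ i, τ.cls i = κ → c i ≠ some w
  | .D r _ c => r <:+ u ∧ ∀ i, τ.cls i = κ → c i ≠ some w
  | .S r x => r <:+ u ∧ (κ = none → x ≠ w)
  | .E => True

/-- MODULE xb2 (size 2): new keys.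

`clo_Nk`: the new keys `an i p`, `p <:+ u`, `cls i = κ` are different from `w`: they are suffixes of `u` or (constant, `i = some r`, `cl ≠ 0`) equal to `r` with `κ = some r ≠ some w`, or `[] ≠ w`; (`anr D r p` is `r` or a suffix of `p`: `anr_spec`; `w` is not a suffix of `u`.) -/
private theorem xb2_an (τ : Ty Q) {κ : Option (Nd Q)} {u w : Nd Q} (h : ¬ w <:+ u) (hκ : κ ≠ some w)
    {p : Nd Q} (hp : p <:+ u) {i : Option (Nd Q)} (hi : τ.cls i = κ) : τ.an i p ≠ w := by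
  have hnil : ([] : Nd Q) ≠ w := by
    rintro rfl
    exact h List.nil_suffix
  have hpw : p ≠ w := by
    rintro rfl
    exact h hp
  rcases i with _ | r
  · simp only [Ty.an]
    split_ifs
    · exact hnil
    · exact hpw
  · have hr : τ.cl ≠ 0 → r ≠ w := by
      intro h0 hrw
      apply hκ
      rw [← hi, Ty.cls, if_neg h0, hrw]
    simp only [Ty.an]
    split_ifs with h1 h2 h2
    · exact hnil
    · exact hr h2
    · exact hpw
    · rcases anr_spec (τ.DB r) r p with ⟨h3, -⟩ | ⟨-, -, h3, -⟩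
      · rw [h3]
        exact hr h2
      · intro h4
        rw [h4] at h3
        exact h (h3.suffix.trans hp)

private theorem xb2_upd (τ : Ty Q) {κ : Option (Nd Q)} {u w : Nd Q} (h : ¬ w <:+ u) (hκ : κ ≠ some w)
    {p : Nd Q} (hp : p <:+ u) {c : Ctx Q} (hc : ∀ i, τ.cls i = κ → c i ≠ some w) (k : Q.L) :
    ∀ i, τ.cls i = κ → τ.upd k c p i ≠ some w := by
  intro i hi
  have h1 := hc i hi
  unfold Ty.upd
  rcases hci : c i with _ | x
  · dsimp only
    split_ifs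
    · simp
    · intro h2
      exact xb2_an τ h hκ hp hi (Option.some.inj h2)
  · dsimp only
    rw [← hci]
    exact h1

theorem clo_Nk (τ : Ty Q) {κ : Option (Nd Q)} {u w : Nd Q} (h : ¬ w <:+ u) (hκ : κ ≠ some w) :
    Clo (TT τ) {σ | Nk τ κ u w σ} := by
  intro σ hσ σ' hσ'
  rcases σ with ⟨k, p, c⟩ | ⟨r, v, c⟩ | ⟨r, x⟩ | _
  · obtain ⟨hp, hc⟩ := hσ
    rcases (mem_trs_A (τ := τ) (k := k) (p := p) (c := c)).1 hσ' with ⟨y, hy, rfl⟩ | rfl | ⟨r, hr, rfl⟩
    · exact ⟨(Le.suffix hy.2.2.2.1).trans hp, xb2_upd τ h hκ hp hc _⟩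
    · exact ⟨hp, xb2_upd τ h hκ hp hc _⟩
    · exact ⟨(Le.suffix hr.2.1).trans hp, xb2_upd τ h hκ hp hc _⟩
  · obtain ⟨hr, hc⟩ := hσ
    rcases (mem_trs_D (τ := τ) (r := r) (v := v) (c := c)).1 hσ' with rfl | ⟨r', hr', rfl⟩
    · refine ⟨hr, fun hk => ?_⟩
      have h1 := hc none (by rw [hk]; rfl)
      rcases hci : c none with _ | x
      · exact xb2_an τ h hκ hr (i := none) (by rw [hk]; rfl)
      · rw [hci] at h1
        intro h2
        exact h1 (congrArg some h2)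
    · exact ⟨(Le.suffix hr'.2.2).trans hr, hc⟩
  · have h1 : σ' = Sta.E := (mem_trs_S (τ := τ) (r := r) (x := x)).1 hσ'
    subst h1
    trivial
  · exact absurd hσ' (by simp [trs])

theorem G_new (H : Hyp Q τ) {κ : Option (Nd Q)} {u w : Nd Q} (h : ¬ w <:+ u) (hκ : κ ≠ some w) (g : Cfg Q H.P)
    (θ : Clopens CC) {σ : Sta Q} (hσ : Nk τ κ u w σ) : H.G (g.wr (upR g.reg κ w θ)) σ = H.G g σ := by
  unfold Hyp.G
  refine GG_congr (clo_Nk τ h hκ) ?_ ?_ hσ
  · intro σ' _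
    rcases σ' with ⟨k, p, c⟩ | ⟨r, v, c⟩ | ⟨r, x⟩ | _
    · rcases k with _ | k <;> rfl
    · rcases v with _ | v <;> rfl
    · rfl
    · rfl
  · intro σ' hσ'
    have hD : ∀ (r : Nd Q) (c : Ctx Q), r <:+ u → (∀ i, τ.cls i = κ → c i ≠ some w) →
        upR g.reg κ w θ (τ.cls (some r)) ((c (some r)).getD (τ.an (some r) r)) =
          g.reg (τ.cls (some r)) ((c (some r)).getD (τ.an (some r) r)) := by
      intro r c hr hc
      unfold upR
      rw [if_neg]
      rintro ⟨h1, h2⟩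
      have h3 := hc (some r) h1
      rcases hci : c (some r) with _ | x
      · rw [hci] at h2
        exact xb2_an τ h hκ hr h1 h2
      · rw [hci] at h2 h3
        exact h3 (congrArg some h2)
    rcases σ' with ⟨k, p, c⟩ | ⟨r, v, c⟩ | ⟨r, x⟩ | _
    · rfl
    · obtain ⟨hr, hc⟩ := hσ'
      rcases v with _ | v
      · simp only [bse, Cfg.wr]
        rw [hD r c hr hc]
      · simp only [bse, Cfg.wr]
        rw [hD r c hr hc]
    · obtain ⟨hr, hx⟩ := hσ'
      simp only [bse, Cfg.wr]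
      rw [show upR g.reg κ w θ none x = g.reg none x from by
        unfold upR
        rw [if_neg]
        rintro ⟨h1, h2⟩
        exact hx h1.symm h2]
    · rfl

/-- `via_congr`: the key `w` is not a suffix of an element of `T`. -/
theorem via_new (H : Hyp Q τ) {T : Finset (Nd Q)} {g : Cfg Q H.P} (i1 : Inv1 H T g) {w : Nd Q} (hT : w ∉ T)
    (κ : Option (Nd Q)) (θ : Clopens CC) (hv : Via H T g) : Via H T (g.wr (upR g.reg κ w θ)) := by
  refine via_congr H i1 ?_ (fun _ _ _ => rfl) hv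
  intro v hvT
  have h1 : ∀ κ' x, x <:+ v → upR g.reg κ w θ κ' x = g.reg κ' x := by
    intro κ' x hx
    unfold upR
    rw [if_neg]
    rintro ⟨-, h2⟩
    rw [h2] at hx
    exact hT (i1.mem_of_suffix hvT hx)
  exact
    { S := fun _ _ => rfl
      D := fun _ _ => rfl
      C := fun _ _ => rfl
      regn := fun x hx => h1 _ x hx
      reg := fun r _ x hx => h1 _ x hx
      E := rfl
      ex := fun _ _ _ => rfl
      exz := fun _ _ => rfl
      exf := fun _ _ => rfl }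

/-- The set `Y` from which the sets `D w` and `S w` are chosen. -/
structure Yp (H : Hyp Q τ) (g : Cfg Q H.P) (w : Nd Q) (Y : Set H.P) : Prop where
  o : IsOpen Y
  ne : Y.Nonempty
  U : Y ⊆ H.ξ ⁻¹' (g.U w)
  D : Y ⊆ H.G g (.D (q univ w) (dpar w) (τ.oc w ⊤))
  A : ∀ y ∈ rel ⊥ w, Y ⊆ clo H.ξ (g.ex y.1) (H.G g (.A (y.1 : WithBot Q.L) y.2 (τ.oc w y.1)))
  E0 : Y ⊆ H.E0
  C : τ.cl ≠ 0 → Y ⊆ g.C (q univ w)
  rg : Y ⊆ H.f ⁻¹' (g.reg (τ.cls (some (q univ w))) (τ.kp w))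
  cl : dpar w = none → closure Y ⊆ g.C (q univ w)
  cl' : ∀ v, dpar w = some v → closure Y ⊆ g.D v
  di : ∀ x ∈ Y, ∀ y ∈ Y, dist x y ≤ (1 / 2 : ℝ) ^ w.length
  S : Y ⊆ clo H.ξ Q.kap (H.G g (.S (q univ w) (τ.an none (q τ.DA w))))

/-- MODULE xb3 (size 2): `Yp.mono` is clear.

`exists_Yp`: `path` with `V = U w`; the hypotheses of `path` follow from `I.i2` (`md = true`: `exz = exf = o ⊤`, `ex k + 1 < kap = o ⊤ + 1`) and `adm_mono`, `adm_one`; then shrink by `exists_small` (inside `C r` if `dpar w = none`, inside `D v` if `dpar w = some v`; `v <:+ w`, `v ≠ w` by `dpar_some`, so `v ∈ T`).  The key of the state `D r (dpar w) (oc w ⊤)` is `kp w` (`⊤ ∉ DB r`).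
The transition to `S r x`: `x = an none (q DA w)` (if `⊤ ∈ DA` then `DA = univ` and `an none r` with `r = q univ w`). -/
theorem Yp.mono {H : Hyp Q τ} {g : Cfg Q H.P} {w : Nd Q} {Y Y' : Set H.P} (h : Yp H g w Y) (h' : Y' ⊆ Y)
    (ho : IsOpen Y') (hne : Y'.Nonempty) : Yp H g w Y' := by
  exact
    { o := ho
      ne := hne
      U := h'.trans h.U
      D := h'.trans h.D
      A := fun y hy => h'.trans (h.A y hy)
      E0 := h'.trans h.E0
      C := fun h0 => h'.trans (h.C h0)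
      rg := h'.trans h.rg
      cl := fun hd => (closure_mono h').trans (h.cl hd)
      cl' := fun v hd => (closure_mono h').trans (h.cl' v hd)
      di := fun x hx y hy => h.di x (h' hx) y (h' hy)
      S := h'.trans h.S }

theorem exists_Yp (H : Hyp Q τ) {T : Finset (Nd Q)} {g : Cfg Q H.P} (I : Inv H T g) {m : Mv Q} {u : Nd Q}
    (hw : Ok (m :: u)) (hu : u ∈ T) (hT : m :: u ∉ T) : ∃ Y, Yp H g (m :: u) Y := by
  have hmem : ∀ v, v <:+ u → v ∈ T := fun v hv => I.i1.mem_of_suffix hu hv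
  have hrT : q univ (m :: u) ∈ T := hmem _ (q_suffix univ m u)
  obtain ⟨Y₀, hYo, hYne, hYU, hYD, hYA⟩ := path H I.i1.oS I.i1.oD I.i1.oC I.i1.oE hw
    (H.adm_mono _ I.i2.adm) (H.adm_one _ I.i2.adm) (by
      intro v hv k hk h1
      rcases h1 with h1 | h1
      · obtain ⟨h2, h3⟩ := I.i2.md h1 v (hmem v hv)
        have h4 := H.adm_lt _ I.i2.adm k hk
        rw [Par.kap, if_pos h1] at h4
        have h5 : g.ex k < Q.o ⊤ := Order.add_one_le_iff.1 (Order.lt_add_one_iff.1 h4)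
        rw [h2, h3]
        exact ⟨h5, h5⟩
      · exact I.i2.lt v (hmem v hv) k hk h1)
    (fun v hv => I.i2.one v (hmem v hv)) (I.via u hu m hw hT)
  obtain ⟨Y, hY, ho, hne, hcl, hdi⟩ := exists_small hYo hYne
    (ε := (1 / 2 : ℝ) ^ (m :: u).length) (by positivity)
  -- the key of the state
  have hkey : (τ.oc (m :: u) ⊤ (some (q univ (m :: u)))).getD
      (τ.an (some (q univ (m :: u))) (q univ (m :: u))) = τ.kp (m :: u) := by
    have h1 : τ.oc (m :: u) ⊤ (some (q univ (m :: u))) = some (τ.kp (m :: u)) :=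
      if_neg (τ.top (q univ (m :: u)))
    rw [h1]
    rfl
  have hb : Y₀ ⊆ bse τ H.f g (.D (q univ (m :: u)) (dpar (m :: u)) (τ.oc (m :: u) ⊤)) :=
    hYD.trans (GG_subset _ _ _)
  have hrg : Y₀ ⊆ H.f ⁻¹' (g.reg (τ.cls (some (q univ (m :: u)))) (τ.kp (m :: u))) := by
    rcases hd : dpar (m :: u) with _ | v
    · rw [hd] at hb
      simp only [bse, hkey] at hb
      exact hb.trans inter_subset_right
    · rw [hd] at hb
      simp only [bse, hkey] at hb
      exact hb.trans inter_subset_right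
  have hbn : dpar (m :: u) = none → Y₀ ⊆ g.C (q univ (m :: u)) := by
    intro hd
    rw [hd] at hb
    exact hb.trans inter_subset_left
  have hbs : ∀ v, dpar (m :: u) = some v → Y₀ ⊆ g.D v := by
    intro v hd
    rw [hd] at hb
    exact hb.trans inter_subset_left
  have hdp : ∀ v, dpar (m :: u) = some v → v ∈ T ∧ v ≠ [] ∧ q univ v = q univ (m :: u) := by
    intro v hd
    obtain ⟨h1, h2, h3, h4, h5⟩ := dpar_some hw (List.cons_ne_nil _ _) hd
    exact ⟨hmem v (h5.suffix.trans (q_suffix _ m u)), h2, h1⟩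
  refine ⟨Y, ?_⟩
  exact
    { o := ho
      ne := hne
      U := hY.trans hYU
      D := hY.trans hYD
      A := fun y hy => hY.trans (hYA y hy)
      E0 := by
        rcases hd : dpar (m :: u) with _ | v
        · exact (hY.trans (hbn hd)).trans (I.i1.C_sub _ hrT)
        · obtain ⟨h1, h2, h3⟩ := hdp v hd
          exact ((hY.trans (hbs v hd)).trans (I.i1.D_sub v h1 h2)).trans inter_subset_left
      C := by
        intro h0
        rcases hd : dpar (m :: u) with _ | v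
        · exact hY.trans (hbn hd)
        · obtain ⟨h1, h2, h3⟩ := hdp v hd
          have h4 := I.i1.D_C v h1 h2 h0
          rw [h3] at h4
          exact (hY.trans (hbs v hd)).trans h4
      rg := hY.trans hrg
      cl := fun hd => hcl.trans (hbn hd)
      cl' := fun v hd => hcl.trans (hbs v hd)
      di := hdi
      S := by
        have h1 : Sta.S (q univ (m :: u)) (τ.an none (q τ.DA (m :: u))) ∈
            trs τ (.D (q univ (m :: u)) (dpar (m :: u)) (τ.oc (m :: u) ⊤)) := by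
          refine (mem_trs_D (τ := τ)).2 (Or.inl ?_)
          congr 1
          by_cases h2 : (⊤ : Q.L) ∈ τ.DA
          · have h3 : τ.DA = univ := by
              apply eq_univ_of_forall
              intro k
              exact τ.lowA le_top h2
            have h4 : τ.oc (m :: u) ⊤ none = none := if_pos h2
            rw [h4, h3]
            rfl
          · have h4 : τ.oc (m :: u) ⊤ none = some (τ.an none (q τ.DA (m :: u))) := if_neg h2
            rw [h4]
            rfl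
        exact hY.trans (hYD.trans (GG_subset_clo (T := TT τ) _ _ h1)) }

/-- The conditions on the exponent `exz w`. -/
structure EOk (H : Hyp Q τ) (g : Cfg Q H.P) (w : Nd Q) (e : Ordinal.{0}) : Prop where
  one : 1 ≤ e
  kap : e < Q.kap
  md : Q.md = true → e = Q.o ⊤
  lt : ∀ k, k ≠ ⊤ → Q.ι k ≤ w.length → g.ex k < e
  eA : H.eA ≤ e
  eB : H.eB ≤ e
  ec : τ.cl ≠ 0 → τ.cB = false → τ.DB (q univ w) ≠ Iio ⊤ → g.ec (q univ w) + 1 ≤ e

/-- MODULE xb4 (size 1): exponents.  Successor mode: `o ⊤` (all exponents `x < kap = o ⊤ + 1` are `≤ o ⊤`, and `adm_lt`, `CellP.cin`).  Limit mode: `kap` is a limit ordinal: the maximum of finitely many ordinals `< kap` (the set `{k | ι k ≤ n}` is finite), plus one. -/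
theorem exists_exp (Q : Par) (s : Finset Ordinal.{0}) (hs : ∀ x ∈ s, x < Q.kap ∧ (Q.md = true → x < Q.o ⊤)) :
    ∃ e, 1 ≤ e ∧ e < Q.kap ∧ (Q.md = true → e = Q.o ⊤) ∧ ∀ x ∈ s, x < e := by
  by_cases hm : Q.md = true
  · refine ⟨Q.o ⊤, Q.o_one ⊤, ?_, fun _ => rfl, fun x hx => (hs x hx).2 hm⟩
    rw [Par.kap, if_pos hm]
    exact Order.lt_add_one_iff.2 le_rfl
  · have hm' : Q.md = false := by simpa using hm
    have hl := Q.lim hm'
    have hk : Q.kap = Q.o ⊤ := by rw [Par.kap, if_neg hm]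
    have h0 : (0 : Ordinal.{0}) < Q.kap := by
      rw [hk]
      exact lt_of_lt_of_le zero_lt_one (Q.o_one ⊤)
    have h1 : s.sup id < Q.kap := by
      rw [Finset.sup_lt_iff (by simpa using h0)]
      exact fun x hx => (hs x hx).1
    refine ⟨Order.succ (s.sup id), ?_, ?_, fun h => absurd h hm, ?_⟩
    · exact Order.one_le_iff_pos.2 (lt_of_le_of_lt (bot_le : (⊥ : Ordinal.{0}) ≤ s.sup id) (Order.lt_succ _))
    · rw [hk] at h1 ⊢
      exact hl.succ_lt h1
    · intro x hx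
      exact Order.lt_succ_iff.2 (Finset.le_sup (f := id) hx)

theorem exists_EOk (H : Hyp Q τ) {g : Cfg Q H.P} (hadm : H.Adm g.ex) {w : Nd Q}
    (hc : τ.cl ≠ 0 → H.CellP g.ex (q univ w) (g.ec (q univ w)) (g.C (q univ w))) : ∃ e, EOk H g w e := by
  have hfin : {k : Q.L | k ≠ ⊤ ∧ Q.ι k ≤ w.length}.Finite := by
    refine Set.Finite.subset ((Set.finite_Iic w.length).preimage Q.ι_inj.injOn) ?_
    intro k hk
    exact hk.2
  by_cases hm : Q.md = true
  · have hk : Q.kap = Q.o ⊤ + 1 := by rw [Par.kap, if_pos hm]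
    obtain ⟨e, h1, h2, h3, h4⟩ := exists_exp Q (hfin.toFinset.image g.ex) (by
      intro x hx
      obtain ⟨k, hk', rfl⟩ := Finset.mem_image.1 hx
      have hk2 := (hfin.mem_toFinset.1 hk').1
      have h5 := H.adm_lt _ hadm k hk2
      refine ⟨lt_of_le_of_lt le_self_add h5, fun _ => ?_⟩
      rw [hk] at h5
      exact Order.add_one_le_iff.1 (Order.lt_add_one_iff.1 h5))
    have h5 := h3 hm
    refine ⟨e, ?_⟩
    exact
      { one := h1
        kap := h2
        md := h3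
        lt := fun k hk1 hk2 => h4 _ (Finset.mem_image_of_mem _ (hfin.mem_toFinset.2 ⟨hk1, hk2⟩))
        eA := by
          have h6 := H.eA_lt
          rw [hk] at h6
          rw [h5]
          exact Order.lt_add_one_iff.1 h6
        eB := by
          have h6 := H.eB_lt
          rw [hk] at h6
          rw [h5]
          exact Order.lt_add_one_iff.1 h6
        ec := by
          intro h6 h7 h8
          have h9 := ((hc h6).cin h7 h8).1
          rw [hk] at h9
          rw [h5]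
          exact Order.lt_add_one_iff.1 h9 }
  · obtain ⟨e, h1, h2, h3, h4⟩ := exists_exp Q (hfin.toFinset.image g.ex ∪ {H.eA, H.eB} ∪
        (if τ.cl ≠ 0 ∧ τ.cB = false ∧ τ.DB (q univ w) ≠ Iio ⊤ then {g.ec (q univ w) + 1} else ∅)) (by
      intro x hx
      refine ⟨?_, fun h => absurd h hm⟩
      rcases Finset.mem_union.1 hx with hx | hx
      · rcases Finset.mem_union.1 hx with hx | hx
        · obtain ⟨k, hk', rfl⟩ := Finset.mem_image.1 hx
          have hk2 := (hfin.mem_toFinset.1 hk').1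
          exact lt_of_le_of_lt le_self_add (H.adm_lt _ hadm k hk2)
        · rcases Finset.mem_insert.1 hx with rfl | hx
          · exact H.eA_lt
          · rw [Finset.mem_singleton.1 hx]
            exact H.eB_lt
      · split_ifs at hx with h5
        · rw [Finset.mem_singleton.1 hx]
          exact ((hc h5.1).cin h5.2.1 h5.2.2).1
        · exact absurd hx (Finset.notMem_empty _))
    refine ⟨e, ?_⟩
    exact
      { one := h1
        kap := h2
        md := h3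
        lt := fun k hk1 hk2 => h4 _ (Finset.mem_union_left _ (Finset.mem_union_left _
          (Finset.mem_image_of_mem _ (hfin.mem_toFinset.2 ⟨hk1, hk2⟩))))
        eA := (h4 _ (Finset.mem_union_left _ (Finset.mem_union_right _ (by simp)))).le
        eB := (h4 _ (Finset.mem_union_left _ (Finset.mem_union_right _ (by simp)))).le
        ec := by
          intro h6 h7 h8
          refine (h4 _ (Finset.mem_union_right _ ?_)).le
          rw [if_pos ⟨h6, h7, h8⟩]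
          exact Finset.mem_singleton_self _ }

/-- MODULE xb5 (size 2): the region of `w` in the class of its cell.

`reg_choice` with `κ = cls (some r)`, `x = kp w`, `Z = Y`, `Tg` the states `A k' p' (oc w k')`, `(k', p') ∈ rel ⊥ w`, `k' ∈ DB r`, and `e` the maximum of their `ex k'` (or `0`); `f` is not continuous of this order on open subsets of `Y`: `c0_out` (`DB r = DB []`) or `CellP.out` (`Y ⊆ C r`). -/
theorem bchoice (H : Hyp Q τ) {T : Finset (Nd Q)} {g : Cfg Q H.P} (I : Inv H T g) (hB : τ.cB = false) {m : Mv Q}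
    {u : Nd Q} (hw : Ok (m :: u)) (hu : u ∈ T) {Y : Set H.P} (hY : Yp H g (m :: u) Y) :
    ∃ θ : Clopens CC, θ ≤ g.reg (τ.cls (some (q univ (m :: u)))) (τ.kp (m :: u)) ∧ Sml (m :: u).length θ ∧
      (∃ Z ⊆ Y ∩ H.f ⁻¹' θ, IsOpen Z ∧ Z.Nonempty ∧ ∀ y ∈ rel ⊥ (m :: u), y.1 ∈ τ.DB (q univ (m :: u)) →
        Z ⊆ clo H.ξ (g.ex y.1) (H.G (g.wr (upR g.reg (τ.cls (some (q univ (m :: u)))) (τ.kp (m :: u))
          (g.reg (τ.cls (some (q univ (m :: u)))) (τ.kp (m :: u)) \ θ)))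
            (.A (y.1 : WithBot Q.L) y.2 (τ.oc (m :: u) y.1)))) ∧
      Via H T (g.wr (upR g.reg (τ.cls (some (q univ (m :: u)))) (τ.kp (m :: u))
          (g.reg (τ.cls (some (q univ (m :: u)))) (τ.kp (m :: u)) \ θ))) := by
  classical
  have hrT : q univ (m :: u) ∈ T := I.i1.mem_of_suffix hu (q_suffix univ m u)
  have hn0 : ∀ D ⊆ Y, IsOpen D → D.Nonempty → ¬ Co H.ξ H.f 0 D ∧
      ∀ k ∈ τ.DB (q univ (m :: u)), k ≠ ⊤ → ¬ Co H.ξ H.f (g.ex k) D := by
    intro D hD ho hne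
    by_cases h0 : τ.cl = 0
    · obtain ⟨a, b⟩ := H.c0_out h0 hB D (hD.trans hY.E0) ho hne
      exact ⟨a, fun k hk hk' => b g.ex I.i2.adm k (by rwa [τ.const h0] at hk) hk'⟩
    · exact (I.i2.cell h0 _ hrT).out hB D (hD.trans (hY.C h0)) ho hne
  set F : Finset (Q.L × Nd Q) :=
    (rel_finite ⊥ (m :: u)).toFinset.filter (fun y => y.1 ∈ τ.DB (q univ (m :: u))) with hF
  have hmF : ∀ y, y ∈ F ↔ y ∈ rel ⊥ (m :: u) ∧ y.1 ∈ τ.DB (q univ (m :: u)) := by
    intro y
    rw [hF, Finset.mem_filter, Set.Finite.mem_toFinset]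
  have hT : ∀ σ ∈ F.image (fun y => Sta.A (y.1 : WithBot Q.L) y.2 (τ.oc (m :: u) y.1)),
      Y ⊆ clo H.ξ (lvl g σ) (H.G g σ) ∧ lvl g σ ≤ F.sup (fun y => g.ex y.1) := by
    intro σ hσ
    obtain ⟨y, hy, rfl⟩ := Finset.mem_image.1 hσ
    exact ⟨hY.A y ((hmF y).1 hy).1, Finset.le_sup (f := fun y : Q.L × Nd Q => g.ex y.1) hy⟩
  have hn : ∀ D ⊆ Y, IsOpen D → D.Nonempty → ¬ Co H.ξ H.f (F.sup (fun y => g.ex y.1)) D := by
    intro D hD ho hne
    obtain ⟨a, b⟩ := hn0 D hD ho hne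
    rcases F.eq_empty_or_nonempty with h | h
    · rw [h, Finset.sup_empty]
      exact a
    · obtain ⟨y, hy, he⟩ := Finset.exists_mem_eq_sup F h (fun y => g.ex y.1)
      rw [he]
      exact b y.1 ((hmF y).1 hy).2 ((hmF y).1 hy).1.2.1
  obtain ⟨θ, h1, h2, ⟨Z, hZ, hZo, hZne, hZT⟩, hvia⟩ := reg_choice H I.i1 I.via
    (τ.cls (some (q univ (m :: u)))) (τ.kp (m :: u)) hY.o hY.ne hY.rg _ _ hT hn (m :: u).length
  exact ⟨θ, h1, h2, ⟨Z, hZ, hZo, hZne, fun y hy hyD =>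
    hZT _ (Finset.mem_image_of_mem _ ((hmF y).2 ⟨hy, hyD⟩))⟩, hvia⟩

/-- The new regions: `θ` is removed from the region of the parent key, the new key gets `et`. -/
noncomputable def RB (τ : Ty Q) {P : Type} (g : Cfg Q P) (w : Nd Q) (θ et : Clopens CC) :
    Option (Nd Q) → Nd Q → Clopens CC :=
  upR (upR g.reg (τ.cls (some (q univ w))) (τ.kp w) (g.reg (τ.cls (some (q univ w))) (τ.kp w) \ θ))
    (τ.cls (some (q univ w))) w et

private theorem xb6_suffix {m : Mv Q} {u p : Nd Q} (h : p <:+ (m :: u)) (hne : p ≠ m :: u) : p <:+ u := by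
  rcases List.suffix_cons_iff.1 h with h | h
  · exact absurd h hne
  · exact h

private theorem xb6_not_suffix {m : Mv Q} {u : Nd Q} : ¬ (m :: u) <:+ u := by
  intro h
  have h1 := h.length_le
  simp at h1

private theorem xb6_cls_ne_none (τ : Ty Q) (r : Nd Q) : τ.cls (some r) ≠ none := by
  unfold Ty.cls
  simp only
  split_ifs <;> simp

private theorem xb6_cls_ne (τ : Ty Q) {m : Mv Q} {u r : Nd Q} (hr : r <:+ u) : τ.cls (some r) ≠ some (m :: u) := by
  unfold Ty.cls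
  simp only
  split_ifs
  · simp
  · intro h
    rw [Option.some.inj h] at hr
    exact xb6_not_suffix hr

private theorem xb6_cls_eq (τ : Ty Q) (h0 : τ.cl ≠ 0) (r : Nd Q) : τ.cls (some r) = some r := by
  unfold Ty.cls
  simp only
  rw [if_neg h0]

private theorem xb6_RB_ne (τ : Ty Q) {P : Type} (g : Cfg Q P) (w : Nd Q) (θ et : Clopens CC) :
    ∀ κ' ≠ τ.cls (some (q univ w)), RB τ g w θ et κ' = g.reg κ' := by
  intro κ' h
  funext x
  unfold RB upR
  rw [if_neg (fun h' => h h'.1), if_neg (fun h' => h h'.1)]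

private theorem xb6_RB_self (τ : Ty Q) {P : Type} (g : Cfg Q P) (w : Nd Q) (θ et : Clopens CC) :
    RB τ g w θ et (τ.cls (some (q univ w))) w = et := by
  unfold RB
  show upR _ _ _ _ _ _ = _
  unfold upR
  rw [if_pos ⟨rfl, rfl⟩]

private theorem xb6_dpar {m : Mv Q} {u : Nd Q} (hw : Ok (m :: u)) {v : Nd Q} (h : dpar (m :: u) = some v) :
    v <:+ u ∧ v ≠ [] ∧ q univ v = q univ (m :: u) := by
  obtain ⟨h1, h2, h3, h4, h5⟩ := dpar_some hw (List.cons_ne_nil _ _) h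
  exact ⟨h5.suffix.trans (q_suffix _ m u), h2, h1⟩

/-- localisation in the situation of `bnew`. -/
private theorem xb6_loc (H : Hyp Q τ) {T : Finset (Nd Q)} {g : Cfg Q H.P} (I : Inv H T g) (hB : τ.cB = false) {m : Mv Q}
    {u : Nd Q} (hu : u ∈ T) {θ et : Clopens CC} {N : Set H.P}
    (h3 : τ.cl = 0 ∨ τ.DB (q univ (m :: u)) ≠ Iio ⊤)
    (hN : Cf H.ξ (if τ.cl = 0 then H.eB else g.ec (q univ (m :: u))) N)
    (hNE : N ∩ (if τ.cl = 0 then H.E0 else g.C (q univ (m :: u))) ⊆ H.f ⁻¹' et)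
    {σ : Sta Q} (hσ : On u σ) (hG : Gd τ (τ.cls (some (q univ (m :: u)))) (τ.DB (q univ (m :: u))) σ) :
    N ∩ H.G g σ ⊆ H.G (g.wr (RB τ g (m :: u) θ et)) (τ.phi (τ.cls (some (q univ (m :: u)))) (m :: u) σ) := by
  have hru : q univ (m :: u) <:+ u := q_suffix _ m u
  have hrT : q univ (m :: u) ∈ T := I.i1.mem_of_suffix hu hru
  by_cases h0 : τ.cl = 0
  · rw [if_pos h0] at hN hNE
    obtain ⟨hc1, hc2⟩ := H.c0_in h0 hB
    refine loc H (τ.lowB (q univ (m :: u))) hN (xb6_RB_ne τ g (m :: u) θ et) ?_ H.eB_lt.le ?_ ?_ ?_ ?_ hσ hG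
    · intro k hk hkt
      rw [τ.const h0] at hk
      exact hc2 g.ex I.i2.adm k hk hkt
    · rintro r' v c ⟨hr', hv⟩ _
      rcases v with _ | v
      · exact (I.i2.eB r' (I.i1.mem_of_suffix hu hr')).2
      · exact (I.i2.eB v (I.i1.mem_of_suffix hu (hv v rfl).1)).1
    · intro h
      exact absurd h (xb6_cls_ne_none τ _)
    · intro r' hr' _
      rw [xb6_RB_self]
      exact (inter_subset_inter_right N (I.i1.C_sub r' (I.i1.mem_of_suffix hu hr'))).trans hNE
    · intro r' v hv hv0 _ _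
      rw [xb6_RB_self]
      exact (inter_subset_inter_right N ((I.i1.D_sub v (I.i1.mem_of_suffix hu hv) hv0).trans
        inter_subset_left)).trans hNE
  · rw [if_neg h0] at hN hNE
    have hDB : τ.DB (q univ (m :: u)) ≠ Iio ⊤ := h3.resolve_left h0
    obtain ⟨hc1, hc2, hc3⟩ := (I.i2.cell h0 _ hrT).cin hB hDB
    obtain ⟨he1, he2⟩ := I.i2.ec h0 hB _ hrT hDB
    have hek : g.ec (q univ (m :: u)) ≤ Q.kap := (le_add_of_nonneg_right zero_le_one).trans hc1.le
    have hmd : Q.md = true → g.ec (q univ (m :: u)) ≤ Q.o ⊤ := by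
      intro h
      have h4 : Q.kap = Q.o ⊤ + 1 := by
        unfold Par.kap
        rw [if_pos h]
      rw [h4] at hc1
      have h5 : g.ec (q univ (m :: u)) + 1 ≤ Q.o ⊤ := Order.lt_add_one_iff.1 hc1
      exact (le_add_of_nonneg_right zero_le_one).trans h5
    have hcr : ∀ r', τ.cls (some r') = τ.cls (some (q univ (m :: u))) → r' = q univ (m :: u) := by
      intro r' h
      rw [xb6_cls_eq τ h0, xb6_cls_eq τ h0] at h
      exact Option.some.inj h
    refine loc H (τ.lowB (q univ (m :: u))) hN (xb6_RB_ne τ g (m :: u) θ et) hc3 hek ?_ ?_ ?_ ?_ hσ hG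
    · rintro r' v c ⟨hr', hv⟩ h
      rcases h with h | h | h
      · have h' := hcr r' h
        rcases v with _ | v
        · show _ ≤ g.exf r'
          rw [h']
          exact he1
        · obtain ⟨hv1, hv2, hv3⟩ := hv v rfl
          exact (le_add_of_nonneg_right zero_le_one).trans (he2 v (I.i1.mem_of_suffix hu hv1) hv2 (hv3.trans h'))
      · exact absurd h (xb6_cls_ne_none τ _)
      · rcases v with _ | v
        · show _ ≤ g.exf r'
          rw [(I.i2.md h r' (I.i1.mem_of_suffix hu hr')).2]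
          exact hmd h
        · show _ ≤ g.exz v
          rw [(I.i2.md h v (I.i1.mem_of_suffix hu (hv v rfl).1)).1]
          exact hmd h
    · intro h
      exact absurd h (xb6_cls_ne_none τ _)
    · intro r' hr' h
      rw [xb6_RB_self, hcr r' h]
      exact hNE
    · intro r' v hv hv0 hqv h
      rw [xb6_RB_self]
      refine (inter_subset_inter_right N ?_).trans hNE
      have h5 := I.i1.D_C v (I.i1.mem_of_suffix hu hv) hv0 h0
      rw [hqv, hcr r' h] at h5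
      exact h5

/-- MODULE xb6 (size 3): the closeness of `D` for the new regions.

Let `r = q univ w`, `κ = cls (some r)`, `R = RB τ g w θ et`, `R' = upR g.reg κ (kp w) (.. \ θ)`.  `mc w k = phic κ w (oc w k)` (`mc_eq`).
(1) `y ∈ rel ⊥ w`, `y.1 ∈ DB r`: `mc w y.1 = oc w y.1` (`phic_oc_of_mem`), and `G (g.wr R) (A ..) = G (g.wr R') (A ..)` by `G_new`.
(2) `y.1 ∉ DB r` (so the second alternative of `hN`): `loc` with `D₀ = DB r`, `e` the order of `N`: `N ∩ G g (A y.1 y.2 (oc w y.1)) ⊆ G (g.wr R) (A y.1 y.2 (mc w y.1))`; `D ⊆ N ∩ clo (ex y.1) (G g ..) ⊆ clo (ex y.1) (N ∩ G g ..)` as `e ≤ ex y.1`.  The hypotheses of `loc`: class III: `c0_in`, `eB ≤ exz, exf`, `C r', D v ⊆ E0`; classes I, II: `CellP.cin`, `Inv2.ec`, `Inv2.md` and `ec r < kap`, `D_C`.  `Gd_oc` for `Gd`.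
(3) `D`-state: second alternative of `hN`: `D ⊆ N ∩ G g (D r (dpar w) (oc w ⊤)) ⊆ G (g.wr R) (D r (dpar w) (mc w ⊤))` by `loc`.  First alternative (`cl ≠ 0`, `DB r = Iio ⊤`): `subset_GG`: base set: the key of `mc w ⊤` is `w`, `D ⊆ f ⁻¹' et`; the transition to `S r x`: same `x`, same set (`G_S`, `R none = g.reg none`); the transitions to `D r' (some ..) (mc w ⊤)`, `r' ∈ rdd r`, shorter than `r`: `loc0`. -/
theorem bnew (H : Hyp Q τ) {T : Finset (Nd Q)} {g : Cfg Q H.P} (I : Inv H T g) (hB : τ.cB = false) {m : Mv Q}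
    {u : Nd Q} (hw : Ok (m :: u)) (hu : u ∈ T) (hT : m :: u ∉ T) {θ et : Clopens CC} {D : Set H.P}
    (hD : Yp H g (m :: u) D) (hDe : D ⊆ H.f ⁻¹' et)
    (hDo : ∀ y ∈ rel ⊥ (m :: u), y.1 ∈ τ.DB (q univ (m :: u)) →
        D ⊆ clo H.ξ (g.ex y.1) (H.G (g.wr (upR g.reg (τ.cls (some (q univ (m :: u)))) (τ.kp (m :: u))
          (g.reg (τ.cls (some (q univ (m :: u)))) (τ.kp (m :: u)) \ θ)))
            (.A (y.1 : WithBot Q.L) y.2 (τ.oc (m :: u) y.1))))
    (hN : (τ.cl ≠ 0 ∧ τ.DB (q univ (m :: u)) = Iio ⊤) ∨ ((τ.cl = 0 ∨ τ.DB (q univ (m :: u)) ≠ Iio ⊤) ∧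
      ∃ N, Cf H.ξ (if τ.cl = 0 then H.eB else g.ec (q univ (m :: u))) N ∧ D ⊆ N ∧
        N ∩ (if τ.cl = 0 then H.E0 else g.C (q univ (m :: u))) ⊆ H.f ⁻¹' et)) :
    D ⊆ H.G (g.wr (RB τ g (m :: u) θ et)) (.D (q univ (m :: u)) (dpar (m :: u)) (τ.mc (m :: u) ⊤)) ∧
      ∀ y ∈ rel ⊥ (m :: u), D ⊆ clo H.ξ (g.ex y.1)
        (H.G (g.wr (RB τ g (m :: u) θ et)) (.A (y.1 : WithBot Q.L) y.2 (τ.mc (m :: u) y.1))) := by
  have hru : q univ (m :: u) <:+ u := q_suffix _ m u
  have hrT : q univ (m :: u) ∈ T := I.i1.mem_of_suffix hu hru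
  have hw0 : m :: u ≠ [] := List.cons_ne_nil _ _
  have hmc : ∀ k, τ.mc (m :: u) k = τ.phic (τ.cls (some (q univ (m :: u)))) (m :: u) (τ.oc (m :: u) k) :=
    mc_eq τ hB hw0
  constructor
  · -- the `D`-state
    rw [hmc]
    rcases hN with ⟨h0, hDB⟩ | ⟨h3, N, hN1, hN2, hN3⟩
    · have hcr : τ.cls (some (q univ (m :: u))) = some (q univ (m :: u)) := xb6_cls_eq τ h0 _
      have hset : (τ.oc (m :: u) ⊤ (some (q univ (m :: u)))).isSome = true :=
        Gd_oc τ (i₀ := some (q univ (m :: u))) rfl (τ.top _) _ rfl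
      have hkey : τ.phic (τ.cls (some (q univ (m :: u)))) (m :: u) (τ.oc (m :: u) ⊤) (some (q univ (m :: u))) =
          some (m :: u) := by
        unfold Ty.phic
        rw [if_pos ⟨rfl, hset⟩]
      refine subset_GG ?_ ?_
      · -- base set
        have hb : D ⊆ bse τ H.f g (.D (q univ (m :: u)) (dpar (m :: u)) (τ.oc (m :: u) ⊤)) :=
          hD.D.trans (GG_subset _ _ _)
        rcases hd : dpar (m :: u) with _ | v
        · rw [hd] at hb
          refine subset_inter (hb.trans inter_subset_left) ?_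
          show D ⊆ H.f ⁻¹' (RB τ g (m :: u) θ et (τ.cls (some (q univ (m :: u)))) _)
          rw [hkey, Option.getD_some, xb6_RB_self]
          exact hDe
        · rw [hd] at hb
          refine subset_inter (hb.trans inter_subset_left) ?_
          show D ⊆ H.f ⁻¹' (RB τ g (m :: u) θ et (τ.cls (some (q univ (m :: u)))) _)
          rw [hkey, Option.getD_some, xb6_RB_self]
          exact hDe
      · intro σ hσ
        rcases (mem_trs_D (v := dpar (m :: u))).1 hσ with h | ⟨r', hr', h⟩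
        · subst h
          have hx : τ.phic (τ.cls (some (q univ (m :: u)))) (m :: u) (τ.oc (m :: u) ⊤) none =
              τ.oc (m :: u) ⊤ none := by
            unfold Ty.phic
            rw [if_neg]
            rintro ⟨h, _⟩
            exact xb6_cls_ne_none τ _ h.symm
          rw [hx]
          have hmem : Sta.S (q univ (m :: u)) ((τ.oc (m :: u) ⊤ none).getD (τ.an none (q univ (m :: u)))) ∈
              (TT τ).tr (.D (q univ (m :: u)) (dpar (m :: u)) (τ.oc (m :: u) ⊤)) :=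
            (mem_trs_D (v := dpar (m :: u))).2 (Or.inl rfl)
          have h5 : D ⊆ clo H.ξ (lvl g (.S (q univ (m :: u)) ((τ.oc (m :: u) ⊤ none).getD
              (τ.an none (q univ (m :: u)))))) (H.G g (.S (q univ (m :: u)) ((τ.oc (m :: u) ⊤ none).getD
              (τ.an none (q univ (m :: u)))))) :=
            hD.D.trans (GG_subset_clo (T := TT τ) _ _ hmem)
          refine h5.trans (clo_mono (le_of_eq ?_))
          show H.G g _ = H.G (g.wr (RB τ g (m :: u) θ et)) _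
          rw [G_S, G_S]
          show g.S _ ∩ _ ∩ _ = g.S _ ∩ H.f ⁻¹' (RB τ g (m :: u) θ et none _) ∩ clo H.ξ (Q.kap + 1) g.E
          rw [xb6_RB_ne τ g (m :: u) θ et none (xb6_cls_ne_none τ _).symm]
        · subst h
          have hmem : Sta.D r' (some (chd univ r' (q univ (m :: u)))) (τ.oc (m :: u) ⊤) ∈
              (TT τ).tr (.D (q univ (m :: u)) (dpar (m :: u)) (τ.oc (m :: u) ⊤)) :=
            (mem_trs_D (v := dpar (m :: u))).2 (Or.inr ⟨r', hr', rfl⟩)
          have h5 : D ⊆ clo H.ξ (lvl g (.D r' (some (chd univ r' (q univ (m :: u)))) (τ.oc (m :: u) ⊤)))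
              (H.G g (.D r' (some (chd univ r' (q univ (m :: u)))) (τ.oc (m :: u) ⊤))) :=
            hD.D.trans (GG_subset_clo (T := TT τ) _ _ hmem)
          refine h5.trans (clo_mono ?_)
          obtain ⟨hr1, hr2, hr3⟩ := hr'
          have hlen : r'.length < (q univ (m :: u)).length := by
            by_contra hcon
            exact hr2 (hr3.eq_of_length (not_lt.1 hcon))
          have hl0 := loc0 H h0 (g := g) (R := RB τ g (m :: u) θ et) (r := q univ (m :: u)) (w := m :: u)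
            (by
              intro κ' hκ'
              exact xb6_RB_ne τ g (m :: u) θ et κ' (by rw [hcr]; exact hκ')) hlen
            (some (chd univ r' (q univ (m :: u)))) (τ.oc (m :: u) ⊤)
          rw [hcr]
          exact hl0
    · have h5 := xb6_loc H I hB hu (m := m) (θ := θ) h3 hN1 hN3
        (σ := .D (q univ (m :: u)) (dpar (m :: u)) (τ.oc (m :: u) ⊤))
        ⟨hru, fun v' hv' => xb6_dpar hw hv'⟩
        (fun i hi => Gd_oc τ (i₀ := some (q univ (m :: u))) rfl (τ.top _) i hi)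
      exact (subset_inter hN2 hD.D).trans h5
  · rintro ⟨k, p⟩ hy
    obtain ⟨hy1, hy2, hy3, hy4, hy5, hy6⟩ := id hy
    simp only at hy1 hy2 hy3 hy4 hy5 hy6 ⊢
    have hpu : p <:+ u := xb6_suffix hy4.suffix hy3
    by_cases hk : k ∈ τ.DB (q univ (m :: u))
    · rw [hmc, phic_oc_of_mem τ (i₀ := some (q univ (m :: u))) rfl hk]
      have h5 := hDo ⟨k, p⟩ hy hk
      refine h5.trans (clo_mono (le_of_eq ?_))
      have hnk : Nk τ (τ.cls (some (q univ (m :: u)))) u (m :: u) (.A (k : WithBot Q.L) p (τ.oc (m :: u) k)) := by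
        refine ⟨hpu, fun i hi => ?_⟩
        have hDD : τ.DD i = τ.DD (some (q univ (m :: u))) := DD_of_cls τ hi
        have hoc : τ.oc (m :: u) k i = none := by
          unfold Ty.oc
          rw [if_pos]
          rw [hDD]
          exact hk
        rw [hoc]
        simp
      exact (G_new H xb6_not_suffix (xb6_cls_ne τ hru) (g.wr _) et hnk).symm
    · rcases hN with ⟨h0, hDB⟩ | ⟨h3, N, hN1, hN2, hN3⟩
      · exfalso
        apply hk
        rw [hDB]
        exact lt_of_le_of_ne le_top hy2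
      · rw [hmc]
        have h5 := xb6_loc H I hB hu (m := m) (θ := θ) h3 hN1 hN3
          (σ := .A (k : WithBot Q.L) p (τ.oc (m :: u) k)) hpu
          ⟨⟨k, rfl, hy2, hk⟩, fun i hi => Gd_oc τ (i₀ := some (q univ (m :: u))) rfl hk i hi⟩
        have hle : (if τ.cl = 0 then H.eB else g.ec (q univ (m :: u))) ≤ g.ex k := by
          by_cases h0 : τ.cl = 0
          · rw [if_pos h0]
            have hk' : k ∉ τ.DB [] := by
              rw [← τ.const h0 (q univ (m :: u))]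
              exact hk
            exact (H.c0_in h0 hB).2 g.ex I.i2.adm k hk' hy2
          · rw [if_neg h0]
            exact ((I.i2.cell h0 _ hrT).cin hB (h3.resolve_left h0)).2.2 k hk hy2
        exact ((subset_inter hN2 (hD.A ⟨k, p⟩ hy)).trans (Cf.inter_clo H.hξ (hN1.mono hle))).trans (clo_mono h5)

/-- The conditions on `S w`. -/
structure Sp (H : Hyp Q τ) (g : Cfg Q H.P) (w : Nd Q) (S : Set H.P) : Prop where
  o : IsOpen S
  ne : S.Nonempty
  U : S ⊆ H.ξ ⁻¹' (g.U w)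
  cl : closure S ⊆ g.S (q univ w)
  di : ∀ x ∈ S, ∀ y ∈ S, dist x y ≤ (1 / 2 : ℝ) ^ w.length
  G : S ⊆ H.G g (.S (q univ w) (τ.an none (q τ.DA w)))

/-- MODULE xb7 (size 1): choice of `S w` (classes III, I).

`Sp_of`: `exists_small`.  `bsel`: the set `N ∩ clo e D ∩ ξ ⁻¹' U w` is a test set of order `kap` (`e < kap`, `1 ≤ e`) and contains `D ≠ ∅`, so it meets `G g (S r xA)`. -/
theorem Sp_of (H : Hyp Q τ) {g : Cfg Q H.P} {w : Nd Q} (hS : ∀ w, IsOpen (g.S w)) {S' : Set H.P} (ho : IsOpen S')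
    (hne : S'.Nonempty) (hU : S' ⊆ H.ξ ⁻¹' (g.U w)) (hG : S' ⊆ H.G g (.S (q univ w) (τ.an none (q τ.DA w)))) :
    ∃ S ⊆ S', Sp H g w S := by
  have hSr : S' ⊆ g.S (q univ w) := fun x hx =>
    (GG_subset (T := TT τ) (lvl g) (bse τ H.f g) _ (hG hx)).1
  obtain ⟨S, hSS', ho', hne', hcl, hdi⟩ := exists_small ho hne (ε := (1 / 2 : ℝ) ^ w.length) (by positivity)
  exact ⟨S, hSS', ho', hne', hSS'.trans hU, hcl.trans hSr, hdi, hSS'.trans hG⟩

theorem bsel (H : Hyp Q τ) {g : Cfg Q H.P} {w : Nd Q} (hS : ∀ w, IsOpen (g.S w)) {D : Set H.P} (hD : Yp H g w D)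
    {N : Set H.P} (hN : Cf H.ξ Q.kap N) (hDN : D ⊆ N) {e : Ordinal.{0}} (he : e < Q.kap) (h1 : 1 ≤ e) :
    ∃ S, Sp H g w S ∧ S ⊆ clo H.ξ e D ∧ S ⊆ N := by
  have hM : Cf H.ξ Q.kap (N ∩ clo H.ξ e D ∩ H.ξ ⁻¹' (g.U w)) :=
    (hN.inter H.hξ (Cf_clo he D)).inter H.hξ (Cf_preimage (h1.trans he.le) (g.U w).isClopen)
  have hG : IsOpen (H.G g (.S (q univ w) (τ.an none (q τ.DA w)))) := by
    rw [G_S]
    exact ((hS _).inter ((g.reg none _).isClopen.isOpen.preimage H.hf)).inter (isOpen_clo _ _ _)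
  have hne : ((N ∩ clo H.ξ e D ∩ H.ξ ⁻¹' (g.U w)) ∩
      H.G g (.S (q univ w) (τ.an none (q τ.DA w)))).Nonempty := by
    refine meets_clo hM ?_
    obtain ⟨z, hz⟩ := hD.ne
    exact ⟨z, ⟨⟨hDN hz, subset_clo hD.o hz⟩, hD.U hz⟩, hD.S hz⟩
  obtain ⟨S, hSS, hSp⟩ := Sp_of H hS ((hM.isOpen H.hξ).inter hG) hne
    (inter_subset_left.trans inter_subset_right) inter_subset_right
  exact ⟨S, hSp, fun x hx => (hSS hx).1.1.2, fun x hx => (hSS hx).1.1.1⟩

private theorem xb8_ne {P X : Type} [TopologicalSpace P] [TopologicalSpace X] {ξ : P → X} {k : Ordinal.{0}}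
    {D S : Set P} (h : S ⊆ clo ξ k D) (hne : S.Nonempty) : D.Nonempty := by
  obtain ⟨x, hx⟩ := hne
  have := meets_clo (ξ := ξ) (k := k) (N := (univ : Set P)) Cf_univ ⟨x, mem_univ x, h hx⟩
  rwa [univ_inter] at this

/-- step (ii) -/
private theorem xb8_ii (H : Hyp Q τ) (hC : H.Cls) (h2 : τ.cl = 2) (A : Clopens CC) {D G : Set H.P} (hD : IsOpen D)
    (hDs : D ⊆ H.E0 ∩ H.f ⁻¹' A) (hG : IsOpen G) (hGs : G ⊆ H.S0) (hDG : D ⊆ clo H.ξ Q.kap G) :
    D ⊆ clo H.ξ Q.kap (G ∩ clo H.ξ (Q.kap + 1) (H.E0 ∩ H.f ⁻¹' A)) := by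
  refine (subset_clo_iff hD).2 fun N hN hne => ?_
  by_contra hemp
  have hNG : IsOpen (N ∩ G) := (Cf.isOpen H.hξ hN).inter hG
  have h1 : N ∩ G ⊆ clo H.ξ (Q.kap + 1) ((H.E0 ∩ H.f ⁻¹' A) ∪ (H.E0 \ H.f ⁻¹' A)) := by
    rw [inter_union_sdiff]
    exact (inter_subset_right.trans hGs).trans H.hclo
  have h3 : (N ∩ G) ∩ clo H.ξ (Q.kap + 1) (H.E0 ∩ H.f ⁻¹' A) = ∅ := by
    rw [inter_assoc]
    exact Set.not_nonempty_iff_eq_empty.1 hemp
  have h4 := subset_clo_of_union H.hξ hNG h1 h3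
  have hp : H.Pair H.S0 H.E0 := ⟨H.oS, H.oE, H.neS, Subset.rfl, Subset.rfl, H.hclo⟩
  have h5 := hC.nav h2 _ _ hp A
  obtain ⟨x, hx1, hx2⟩ := hne
  have h6 : x ∈ H.E0 ∩ H.f ⁻¹' A ∩ clo H.ξ Q.kap (H.S0 ∩ clo H.ξ (Q.kap + 1) (H.E0 \ H.f ⁻¹' A)) := by
    refine ⟨hDs hx2, ?_⟩
    have h7 := Cf.inter_clo H.hξ hN ⟨hx1, hDG hx2⟩
    exact clo_mono (subset_inter (inter_subset_right.trans hGs) h4) h7
  rw [h5] at h6
  exact h6

/-- MODULE xb8 (size 3): class II: two disjoint regions.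

Proof.  Write `κ = kap`, `A X = clo (κ + 1) (E0 ∩ f ⁻¹' X)` for clopen `X`.  (S0, E0) is a pair.
(i) `nav` for the pair `(S0, E0)`: `E0 ∩ f ⁻¹' X ∩ clo κ (S0 ∩ A Xᶜ) = ∅`.
(ii) If `D` is open, `D ⊆ E0 ∩ f ⁻¹' X`, `G ⊆ S0` open, `D ⊆ clo κ G` then `D ⊆ clo κ (G ∩ A X)`: let `N` be a test set of order `κ` meeting `D`, suppose `N ∩ G ∩ A X = ∅`.  `N ∩ G ⊆ S0 ⊆ clo (κ+1) E0`, `E0 = (E0 ∩ f ⁻¹' X) ∪ (E0 ∩ f ⁻¹' Xᶜ)`, so `N ∩ G ⊆ A Xᶜ` (`subset_clo_of_union`);
`∅ ≠ N ∩ D ⊆ clo κ (N ∩ G)` (`Cf.inter_clo`) `⊆ clo κ (S0 ∩ A Xᶜ)`: contradiction with (i).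
(iii) `G' = G ∩ A Γ ∩ clo e D`: `D ⊆ clo κ G'` (by (ii), `clo e D` is a test set of order `κ` containing `D`), so `G' ≠ ∅`.  `E'' = E0 ∩ f ⁻¹' Γ ∩ clo e D ∩ clo κ G'`: `(G', E'')` is a pair (`clo e D`, `clo κ G'` are test sets of order `κ + 1` containing `G'`, `G' ⊆ clo (κ+1) (E0 ∩ f ⁻¹' Γ)`).
(iv) `nco`: `¬ Co e E''`: a clopen `θ` with `E'' ∩ f ⁻¹' θ ∩ clo e (E'' \ f ⁻¹' θ) ≠ ∅`; `η = θ ⊓ Γ`, `W = E'' ∩ f ⁻¹' η ∩ clo e (E'' \ f ⁻¹' η) ≠ ∅`.
(v) If `G ∩ A (Γ \ η) ∩ clo e (D ∩ f ⁻¹' η) ≠ ∅` we are done with `η`, `D' = D ∩ f ⁻¹' η`, `S' =` this set.  If `G ∩ A η ∩ clo e (D \ f ⁻¹' η) ≠ ∅` we are done with `Γ \ η`, `D' = D \ f ⁻¹' η`.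
(vi) Otherwise: `G' ⊆ clo e D = clo e ((D ∩ f ⁻¹' η) ∪ (D \ f ⁻¹' η))`, so `G' ∩ A (Γ \ η) ⊆ clo e (D \ f ⁻¹' η) =: K`.  By (ii) for `E'' \ f ⁻¹' η ⊆ E0 ∩ f ⁻¹' (Γ \ η)`, `⊆ clo κ G'`: `E'' \ f ⁻¹' η ⊆ clo κ (G' ∩ A (Γ \ η)) ⊆ clo κ K = K` (`clo_clo_of_le`).  So `W ⊆ clo e (E'' \ f ⁻¹' η) ⊆ clo e K = K`.  By (ii) for `W ⊆ E0 ∩ f ⁻¹' η`, `W ⊆ clo κ G'`:
`W ⊆ clo κ (G' ∩ A η)`.  `K` is a test set of order `κ` (`Cf_clo`), it meets `W`, so it meets `G' ∩ A η`: this contradicts `G ∩ A η ∩ K = ∅`. -/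
theorem lemII (H : Hyp Q τ) (hC : H.Cls) (h2 : τ.cl = 2) (Γ : Clopens CC) {D G : Set H.P} (hD : IsOpen D)
    (hne : D.Nonempty) (hDs : D ⊆ H.E0 ∩ H.f ⁻¹' Γ) (hG : IsOpen G) (hGs : G ⊆ H.S0) (hDG : D ⊆ clo H.ξ Q.kap G)
    {e : Ordinal.{0}} (he : e < Q.kap) :
    ∃ η : Clopens CC, η ≤ Γ ∧ ∃ D' ⊆ D ∩ H.f ⁻¹' η, ∃ S' ⊆ G, IsOpen D' ∧ D'.Nonempty ∧ IsOpen S' ∧ S'.Nonempty ∧
      S' ⊆ clo H.ξ (Q.kap + 1) (H.E0 ∩ H.f ⁻¹' (Γ \ η : Clopens CC)) ∧ S' ⊆ clo H.ξ e D' := by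
  have hk1 : Q.kap < Q.kap + 1 := lt_add_one _
  have hop : ∀ A : Clopens CC, IsOpen (H.f ⁻¹' (A : Set CC)) := fun A => A.isClopen.isOpen.preimage H.hf
  have hcl : ∀ A : Clopens CC, IsOpen ((H.f ⁻¹' (A : Set CC))ᶜ) := fun A =>
    (A.isClopen.isClosed.preimage H.hf).isOpen_compl
  -- (iii)
  obtain ⟨G', hG'⟩ : ∃ G', G' = clo H.ξ e D ∩ (G ∩ clo H.ξ (Q.kap + 1) (H.E0 ∩ H.f ⁻¹' Γ)) := ⟨_, rfl⟩
  have hG'o : IsOpen G' := by
    rw [hG']
    exact (isOpen_clo _ _ _).inter (hG.inter (isOpen_clo _ _ _))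
  have hG'G : G' ⊆ G := by
    rw [hG']
    exact inter_subset_right.trans inter_subset_left
  have hG'e : G' ⊆ clo H.ξ e D := by
    rw [hG']
    exact inter_subset_left
  have hG'A : G' ⊆ clo H.ξ (Q.kap + 1) (H.E0 ∩ H.f ⁻¹' Γ) := by
    rw [hG']
    exact inter_subset_right.trans inter_subset_right
  have hDG' : D ⊆ clo H.ξ Q.kap G' := by
    rw [hG']
    refine Subset.trans ?_ (Cf.inter_clo H.hξ (Cf_clo he D))
    exact subset_inter (subset_clo hD) (xb8_ii H hC h2 Γ hD hDs hG hGs hDG)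
  have hG'ne : G'.Nonempty := xb8_ne hDG' hne
  obtain ⟨E', hE'⟩ : ∃ E', E' = (clo H.ξ e D ∩ clo H.ξ Q.kap G') ∩ (H.E0 ∩ H.f ⁻¹' Γ) := ⟨_, rfl⟩
  have hE'o : IsOpen E' := by
    rw [hE']
    exact ((isOpen_clo _ _ _).inter (isOpen_clo _ _ _)).inter (H.oE.inter (hop Γ))
  have hE'E : E' ⊆ H.E0 := by
    rw [hE']
    exact inter_subset_right.trans inter_subset_left
  have hE'Γ : E' ⊆ H.f ⁻¹' Γ := by
    rw [hE']
    exact inter_subset_right.trans inter_subset_right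
  have hE'G : E' ⊆ clo H.ξ Q.kap G' := by
    rw [hE']
    exact inter_subset_left.trans inter_subset_right
  have hp : H.Pair G' E' := by
    refine ⟨hG'o, hE'o, hG'ne, hG'G.trans hGs, hE'E, ?_⟩
    rw [hE']
    refine Subset.trans ?_ (Cf.inter_clo H.hξ (Cf.inter H.hξ (Cf_clo (he.trans hk1) D) (Cf_clo hk1 G')))
    exact subset_inter (subset_inter hG'e (subset_clo hG'o)) hG'A
  -- (iv)
  have hnc := hC.nco h2 _ _ hp e he
  unfold Co at hnc
  push Not at hnc
  obtain ⟨θ, hθ⟩ := hnc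
  obtain ⟨η, hη⟩ : ∃ η : Clopens CC, η = θ ⊓ Γ := ⟨_, rfl⟩
  have hηΓ : η ≤ Γ := by rw [hη]; exact inf_le_right
  have hmem : ∀ x ∈ E', (x ∈ H.f ⁻¹' (η : Set CC) ↔ x ∈ H.f ⁻¹' (θ : Set CC)) := by
    intro x hx
    rw [hη]
    constructor
    · intro h
      exact h.1
    · intro h
      exact ⟨h, hE'Γ hx⟩
  have e1 : E' ∩ H.f ⁻¹' (η : Set CC) = E' ∩ H.f ⁻¹' (θ : Set CC) := by
    ext x
    exact ⟨fun h => ⟨h.1, (hmem x h.1).1 h.2⟩, fun h => ⟨h.1, (hmem x h.1).2 h.2⟩⟩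
  have e2 : E' \ H.f ⁻¹' (η : Set CC) = E' \ H.f ⁻¹' (θ : Set CC) := by
    ext x
    exact ⟨fun h => ⟨h.1, fun h' => h.2 ((hmem x h.1).2 h')⟩, fun h => ⟨h.1, fun h' => h.2 ((hmem x h.1).1 h')⟩⟩
  rw [← e1, ← e2] at hθ
  obtain ⟨W, hW⟩ : ∃ W, W = E' ∩ H.f ⁻¹' (η : Set CC) ∩ clo H.ξ e (E' \ H.f ⁻¹' (η : Set CC)) := ⟨_, rfl⟩
  rw [← hW] at hθ
  have hWne : W.Nonempty := hθ
  have hWo : IsOpen W := by
    rw [hW]
    exact (hE'o.inter (hop η)).inter (isOpen_clo _ _ _)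
  -- (v)
  by_cases ha : (G ∩ clo H.ξ (Q.kap + 1) (H.E0 ∩ H.f ⁻¹' (Γ \ η : Clopens CC)) ∩
      clo H.ξ e (D ∩ H.f ⁻¹' (η : Set CC))).Nonempty
  · refine ⟨η, hηΓ, D ∩ H.f ⁻¹' (η : Set CC), Subset.rfl, _, inter_subset_left.trans inter_subset_left,
      hD.inter (hop η), ?_, (hG.inter (isOpen_clo _ _ _)).inter (isOpen_clo _ _ _), ha,
      inter_subset_left.trans inter_subset_right, inter_subset_right⟩
    exact xb8_ne inter_subset_right ha
  by_cases hb : (G ∩ clo H.ξ (Q.kap + 1) (H.E0 ∩ H.f ⁻¹' (η : Set CC)) ∩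
      clo H.ξ e (D \ H.f ⁻¹' (η : Set CC))).Nonempty
  · have hη' : Γ \ (Γ \ η) = η := by
      rw [_root_.sdiff_sdiff_right_self]
      exact inf_eq_right.2 hηΓ
    refine ⟨Γ \ η, sdiff_le, D \ H.f ⁻¹' (η : Set CC), ?_, _, inter_subset_left.trans inter_subset_left,
      hD.inter (hcl η), ?_, (hG.inter (isOpen_clo _ _ _)).inter (isOpen_clo _ _ _), hb, ?_, inter_subset_right⟩
    · intro x hx
      exact ⟨hx.1, (hDs hx.1).2, hx.2⟩
    · exact xb8_ne inter_subset_right hb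
    · rw [hη']
      exact inter_subset_left.trans inter_subset_right
  -- (vi)
  exfalso
  have ha := Set.not_nonempty_iff_eq_empty.1 ha
  obtain ⟨K, hK⟩ : ∃ K, K = clo H.ξ e (D \ H.f ⁻¹' (η : Set CC)) := ⟨_, rfl⟩
  have h3 : G' ∩ clo H.ξ (Q.kap + 1) (H.E0 ∩ H.f ⁻¹' (Γ \ η : Clopens CC)) ⊆ K := by
    rw [hK]
    refine subset_clo_of_union (G₁ := D ∩ H.f ⁻¹' (η : Set CC)) H.hξ (hG'o.inter (isOpen_clo _ _ _)) ?_ ?_
    · rw [inter_union_sdiff]
      exact inter_subset_left.trans hG'e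
    · rw [← Set.subset_empty_iff, ← ha]
      exact inter_subset_inter_left _ (inter_subset_inter_left _ hG'G)
  have h4 : E' \ H.f ⁻¹' (η : Set CC) ⊆ K := by
    have h5 := xb8_ii H hC h2 (Γ \ η) (D := E' \ H.f ⁻¹' (η : Set CC)) (G := G') (hE'o.inter (hcl η)) ?_ hG'o
      (hG'G.trans hGs) (Set.sdiff_subset.trans hE'G)
    · refine h5.trans ((clo_mono h3).trans ?_)
      rw [hK]
      exact (clo_clo_of_le he.le _).subset
    · intro x hx
      exact ⟨hE'E hx.1, hE'Γ hx.1, hx.2⟩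
  have h6 : W ⊆ K := by
    rw [hW]
    refine inter_subset_right.trans ((clo_mono h4).trans ?_)
    rw [hK]
    exact clo_idem.subset
  have h7 := xb8_ii H hC h2 η (D := W) (G := G') hWo (by
    rw [hW]
    intro x hx
    exact ⟨hE'E hx.1.1, hx.1.2⟩) hG'o (hG'G.trans hGs) (by
    rw [hW]
    intro x hx
    exact hE'G hx.1.1)
  have h8 : Cf H.ξ Q.kap K := by
    rw [hK]
    exact Cf_clo he _
  obtain ⟨x, hx⟩ := hWne
  obtain ⟨y, hy1, hy2, hy3⟩ := (subset_clo_iff hWo).1 h7 K h8 ⟨x, h6 hx, hx⟩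
  rw [hK] at hy1
  exact hb ⟨y, ⟨hG'G hy2, hy3⟩, hy1⟩

/-- The result of the first half of the extension step (`D = D w`, `S ⊇ S w`, `R` the regions). -/
structure BOut (H : Hyp Q τ) (T : Finset (Nd Q)) (g : Cfg Q H.P) (w : Nd Q)
    (R : Option (Nd Q) → Nd Q → Clopens CC) (D S : Set H.P) (gg et jj : Clopens CC) (e : Ordinal.{0}) : Prop where
  via : Via H T (g.wr R)
  hD : Yp H g w D
  hS : Sp H g w S
  he : EOk H g w e
  nf : ∀ σ ∈ nf (τ.mc w) w, S ⊆ clo H.ξ (lvl ((g.wr R).wD w D e) σ) (H.G ((g.wr R).wD w D e) σ)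
  /-- not constant -/
  nB : τ.cB = false → gg ≤ g.reg (τ.cls (some (q univ w))) (τ.kp w) ∧ Sml w.length gg ∧ et ≤ gg ∧
    D ⊆ H.f ⁻¹' et ∧ R = RB τ g w gg et
  /-- class III -/
  c0 : τ.cl = 0 → S ⊆ clo H.ξ (Q.kap + 1) (g.E ∩ H.f ⁻¹' et)
  /-- classes III and I, constant -/
  c1 : τ.cl ≠ 2 → τ.cB = true → R = g.reg ∧ et = ⊤
  /-- class II -/
  c2 : τ.cl = 2 → jj ≤ gg ∧ Disjoint et jj ∧ S ⊆ clo H.ξ (Q.kap + 1) (g.E ∩ H.f ⁻¹' jj)
  /-- class II, constant -/
  c2c : τ.cl = 2 → τ.cB = true → gg ≤ g.reg (some (q univ w)) (q univ w) ∧ Sml w.length gg ∧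
    D ⊆ H.f ⁻¹' (gg \ jj) ∧
    R = upR g.reg (some (q univ w)) (q univ w) (g.reg (some (q univ w)) (q univ w) \ jj)

private theorem xb9_rel {m : Mv Q} {u : Nd Q} (H : Hyp Q τ) {g : Cfg Q H.P} {e : Ordinal.{0}}
    (he : EOk H g (m :: u) e) : ∀ y ∈ rel ⊥ (m :: u), g.ex y.1 ≤ e := by
  intro y hy
  obtain ⟨h1, h2, h3, h4, h5, h6⟩ := hy
  exact (he.lt y.1 h2 (h5.trans ((dep_le_length _).trans h4.suffix.length_le))).le

private theorem xb9_exz (H : Hyp Q τ) {T : Finset (Nd Q)} {g : Cfg Q H.P} (I : Inv H T g) {w u : Nd Q} (hu : u ∈ T)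
    {e : Ordinal.{0}} (he : EOk H g w e) : Q.md = true → ∀ v, v <:+ u → g.exz v ≤ e := by
  intro hmd v hv
  rw [(I.i2.md hmd v (I.i1.mem_of_suffix hu hv)).1, he.md hmd]

private theorem xb9_E (H : Hyp Q τ) {T : Finset (Nd Q)} {g : Cfg Q H.P} (I : Inv H T g) {m : Mv Q} {u : Nd Q}
    (hu : u ∈ T) : ∃ e, EOk H g (m :: u) e :=
  exists_EOk H I.i2.adm fun h0 => I.i2.cell h0 _ (I.i1.mem_of_suffix hu (q_suffix univ m u))

/-- MODULE xb9 (size 2): classes III and I.

Constant: `R = g.reg`, `et = gg = ⊤`, `jj = ⊥`, `D = Y`, `mc = oc` (`mc_eq_const`), `S` from `bsel` with `N = univ`; `nf` by `nf_of_D` (hypotheses: `EOk.lt`, `ι y.1 ≤ dep y.2 ≤ w.length`, `Inv2.md`).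
Not constant: `bchoice` gives `θ = gg = et` and `Z`.  Class III: `Co eB E0` and `Co.exists_Cf` (with `Y = E0`, `D = Z`): a test set `N` of order `eB` meeting `Z` with `N ∩ E0 ⊆ f ⁻¹' θ`; `D = Z ∩ N`.  Class I: if `DB r = Iio ⊤` then `D = Z`, `N = univ`, otherwise `Co (ec r) (C r)` in the same way.  `bnew`, `bsel`, `nf_of_D`, `via_new`.
`c0`: `S ⊆ N ∩ clo (kap+1) E ⊆ clo (kap+1) (N ∩ E)`, `N ∩ E ⊆ f ⁻¹' θ`. -/
theorem bstep_const (H : Hyp Q τ) {T : Finset (Nd Q)} {g : Cfg Q H.P} (I : Inv H T g) (h2 : τ.cl ≠ 2)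
    (hB : τ.cB = true) {m : Mv Q} {u : Nd Q} (hw : Ok (m :: u)) (hu : u ∈ T) (hT : m :: u ∉ T) :
    ∃ R D S gg et jj e, BOut H T g (m :: u) R D S gg et jj e := by
  obtain ⟨Y, hY⟩ := exists_Yp H I hw hu hT
  obtain ⟨e, he⟩ := xb9_E H I (m := m) hu
  obtain ⟨S, hS, hSe, _⟩ := bsel H I.i1.oS hY (Cf_univ) (subset_univ Y) he.kap he.one
  refine ⟨g.reg, Y, S, ⊤, ⊤, ⊥, e, ?_⟩
  have hmc : τ.mc (m :: u) = τ.oc (m :: u) := funext fun k => mc_eq_const τ hB k
  refine ⟨I.via, hY, hS, he, ?_, ?_, ?_, ?_, ?_, ?_⟩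
  · rw [hmc]
    exact nf_of_D H hw (τ.oc (m :: u)) hY.o hS.o hSe (xb9_rel H he) (xb9_exz H I hu he) hY.D hY.A
  · intro h
    rw [hB] at h
    exact absurd h (by simp)
  · intro _
    have h1 := hS.G
    rw [G_S] at h1
    have h3 : g.E ∩ H.f ⁻¹' ((⊤ : Clopens CC) : Set CC) = g.E := by
      rw [Clopens.coe_top, preimage_univ, inter_univ]
    rw [h3]
    exact h1.trans inter_subset_right
  · intro _ _
    exact ⟨rfl, rfl⟩
  · intro h
    exact absurd h h2
  · intro h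
    exact absurd h h2

private theorem xb9_fin (H : Hyp Q τ) {T : Finset (Nd Q)} {g : Cfg Q H.P} (I : Inv H T g) (h2 : τ.cl ≠ 2)
    (hB : τ.cB = false) {m : Mv Q} {u : Nd Q} (hw : Ok (m :: u)) (hu : u ∈ T) (hT : m :: u ∉ T)
    {e : Ordinal.{0}} (he : EOk H g (m :: u) e) {θ : Clopens CC}
    (hθ : θ ≤ g.reg (τ.cls (some (q univ (m :: u)))) (τ.kp (m :: u))) (hs : Sml (m :: u).length θ)
    (hv : Via H T (g.wr (upR g.reg (τ.cls (some (q univ (m :: u)))) (τ.kp (m :: u))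
          (g.reg (τ.cls (some (q univ (m :: u)))) (τ.kp (m :: u)) \ θ))))
    {D : Set H.P} (hD : Yp H g (m :: u) D) (hDθ : D ⊆ H.f ⁻¹' θ)
    (hDo : ∀ y ∈ rel ⊥ (m :: u), y.1 ∈ τ.DB (q univ (m :: u)) →
        D ⊆ clo H.ξ (g.ex y.1) (H.G (g.wr (upR g.reg (τ.cls (some (q univ (m :: u)))) (τ.kp (m :: u))
          (g.reg (τ.cls (some (q univ (m :: u)))) (τ.kp (m :: u)) \ θ)))
            (.A (y.1 : WithBot Q.L) y.2 (τ.oc (m :: u) y.1))))
    (hN : (τ.cl ≠ 0 ∧ τ.DB (q univ (m :: u)) = Iio ⊤) ∨ ((τ.cl = 0 ∨ τ.DB (q univ (m :: u)) ≠ Iio ⊤) ∧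
      ∃ N, Cf H.ξ (if τ.cl = 0 then H.eB else g.ec (q univ (m :: u))) N ∧ D ⊆ N ∧
        N ∩ (if τ.cl = 0 then H.E0 else g.C (q univ (m :: u))) ⊆ H.f ⁻¹' θ))
    {M : Set H.P} (hM : Cf H.ξ Q.kap M) (hDM : D ⊆ M) (hM0 : τ.cl = 0 → M ∩ H.E0 ⊆ H.f ⁻¹' θ) :
    ∃ R D S gg et jj e, BOut H T g (m :: u) R D S gg et jj e := by
  obtain ⟨S, hS, hSe, hSM⟩ := bsel H I.i1.oS hD hM hDM he.kap he.one
  obtain ⟨b1, b2⟩ := bnew H I hB hw hu hT hD hDθ hDo hN
  refine ⟨RB τ g (m :: u) θ θ, D, S, θ, θ, ⊥, e, ?_⟩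
  have i1' : Inv1 H T (g.wr (upR g.reg (τ.cls (some (q univ (m :: u)))) (τ.kp (m :: u))
          (g.reg (τ.cls (some (q univ (m :: u)))) (τ.kp (m :: u)) \ θ))) := by
    have i1 := I.i1
    exact ⟨i1.nil, i1.ok, i1.len, i1.oS, i1.oD, i1.oC, i1.oE, i1.sE, i1.S_ne, i1.S_sub, i1.D_ne, i1.D_sub,
      i1.C_ne, i1.C_sub, i1.S_cl, i1.S_di, i1.D_cl, i1.D_cl', i1.D_di, i1.D_C, i1.U_le, i1.U_di⟩
  refine ⟨via_new H i1' hT (τ.cls (some (q univ (m :: u)))) θ hv, hD, hS, he, ?_, ?_, ?_, ?_, ?_, ?_⟩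
  · exact nf_of_D H (g := g.wr (RB τ g (m :: u) θ θ)) hw (τ.mc (m :: u)) hD.o hS.o hSe
      (show ∀ y ∈ rel ⊥ (m :: u), g.ex y.1 ≤ e from xb9_rel H he)
      (show Q.md = true → ∀ v, v <:+ u → g.exz v ≤ e from xb9_exz H I hu he) b1 b2
  · intro _
    exact ⟨hθ, hs, le_rfl, hDθ, rfl⟩
  · intro h0
    have h1 := hS.G
    rw [G_S] at h1
    have h3 : S ⊆ M ∩ clo H.ξ (Q.kap + 1) g.E := subset_inter hSM (h1.trans inter_subset_right)
    refine (h3.trans (Cf.inter_clo H.hξ (hM.mono (lt_add_one _).le))).trans (clo_mono ?_)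
    intro x hx
    exact ⟨hx.2, hM0 h0 ⟨hx.1, I.i1.sE hx.2⟩⟩
  · intro _ h
    rw [hB] at h
    exact absurd h (by simp)
  · intro h
    exact absurd h h2
  · intro h
    exact absurd h h2

theorem bstep_01 (H : Hyp Q τ) {T : Finset (Nd Q)} {g : Cfg Q H.P} (I : Inv H T g) (h2 : τ.cl ≠ 2)
    (hB : τ.cB = false) {m : Mv Q} {u : Nd Q} (hw : Ok (m :: u)) (hu : u ∈ T) (hT : m :: u ∉ T) :
    ∃ R D S gg et jj e, BOut H T g (m :: u) R D S gg et jj e := by
  obtain ⟨Y, hY⟩ := exists_Yp H I hw hu hT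
  obtain ⟨e, he⟩ := xb9_E H I (m := m) hu
  obtain ⟨θ, hθ, hs, ⟨Z, hZ, hZo, hZne, hZc⟩, hv⟩ := bchoice H I hB hw hu hY
  have hZY : Yp H g (m :: u) Z := hY.mono (hZ.trans inter_subset_left) hZo hZne
  have hZθ : Z ⊆ H.f ⁻¹' θ := hZ.trans inter_subset_right
  by_cases h0 : τ.cl = 0
  · obtain ⟨N, hN, hNne, hNE⟩ := (H.c0_in h0 hB).1.exists_Cf hZo hZne hZY.E0 hZθ
    have hYN : Yp H g (m :: u) (N ∩ Z) := hZY.mono inter_subset_right ((Cf.isOpen H.hξ hN).inter hZo) hNne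
    refine xb9_fin H I h2 hB hw hu hT he hθ hs hv hYN (inter_subset_right.trans hZθ)
      (fun y hy hy' => inter_subset_right.trans (hZc y hy hy')) (Or.inr ⟨Or.inl h0, N, ?_, inter_subset_left, ?_⟩)
      (hN.mono H.eB_lt.le) inter_subset_left (fun _ => hNE)
    · rw [if_pos h0]
      exact hN
    · rw [if_pos h0]
      exact hNE
  · by_cases hDB : τ.DB (q univ (m :: u)) = Iio ⊤
    · exact xb9_fin H I h2 hB hw hu hT he hθ hs hv hZY hZθ hZc (Or.inl ⟨h0, hDB⟩) Cf_univ (subset_univ _)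
        (fun h => absurd h h0)
    · have hr : q univ (m :: u) ∈ T := I.i1.mem_of_suffix hu (q_suffix univ m u)
      obtain ⟨h3, h4, _⟩ := (I.i2.cell h0 _ hr).cin hB hDB
      obtain ⟨N, hN, hNne, hNC⟩ := h4.exists_Cf hZo hZne (hZY.C h0) hZθ
      have hYN : Yp H g (m :: u) (N ∩ Z) := hZY.mono inter_subset_right ((Cf.isOpen H.hξ hN).inter hZo) hNne
      refine xb9_fin H I h2 hB hw hu hT he hθ hs hv hYN (inter_subset_right.trans hZθ)
        (fun y hy hy' => inter_subset_right.trans (hZc y hy hy')) (Or.inr ⟨Or.inr hDB, N, ?_, inter_subset_left, ?_⟩)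
        (hN.mono ((lt_add_one _).trans h3).le) inter_subset_left (fun h => absurd h h0)
      · rw [if_neg h0]
        exact hN
      · rw [if_neg h0]
        exact hNC

private theorem xb10_rel {m : Mv Q} {u : Nd Q} (H : Hyp Q τ) {g : Cfg Q H.P} {e : Ordinal.{0}}
    (he : EOk H g (m :: u) e) : ∀ y ∈ rel ⊥ (m :: u), g.ex y.1 ≤ e := by
  intro y hy
  obtain ⟨h1, h2, h3, h4, h5, h6⟩ := hy
  exact (he.lt y.1 h2 (h5.trans ((dep_le_length _).trans h4.suffix.length_le))).le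

private theorem xb10_exz (H : Hyp Q τ) {T : Finset (Nd Q)} {g : Cfg Q H.P} (I : Inv H T g) {w u : Nd Q} (hu : u ∈ T)
    {e : Ordinal.{0}} (he : EOk H g w e) : Q.md = true → ∀ v, v <:+ u → g.exz v ≤ e := by
  intro hmd v hv
  rw [(I.i2.md hmd v (I.i1.mem_of_suffix hu hv)).1, he.md hmd]

private theorem xb10_E (H : Hyp Q τ) {T : Finset (Nd Q)} {g : Cfg Q H.P} (I : Inv H T g) {m : Mv Q} {u : Nd Q}
    (hu : u ∈ T) : ∃ e, EOk H g (m :: u) e :=
  exists_EOk H I.i2.adm fun h0 => I.i2.cell h0 _ (I.i1.mem_of_suffix hu (q_suffix univ m u))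

private theorem xb10_fin (H : Hyp Q τ) {T : Finset (Nd Q)} {g : Cfg Q H.P} (I : Inv H T g) (h2 : τ.cl = 2)
    (hB : τ.cB = false) {m : Mv Q} {u : Nd Q} (hw : Ok (m :: u)) (hu : u ∈ T) (hT : m :: u ∉ T)
    {e : Ordinal.{0}} (he : EOk H g (m :: u) e) {θ η : Clopens CC} (hηθ : η ≤ θ)
    (hθ : θ ≤ g.reg (τ.cls (some (q univ (m :: u)))) (τ.kp (m :: u))) (hs : Sml (m :: u).length θ)
    (hv : Via H T (g.wr (upR g.reg (τ.cls (some (q univ (m :: u)))) (τ.kp (m :: u))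
          (g.reg (τ.cls (some (q univ (m :: u)))) (τ.kp (m :: u)) \ θ))))
    {D : Set H.P} (hD : Yp H g (m :: u) D) (hDη : D ⊆ H.f ⁻¹' η)
    (hDo : ∀ y ∈ rel ⊥ (m :: u), y.1 ∈ τ.DB (q univ (m :: u)) →
        D ⊆ clo H.ξ (g.ex y.1) (H.G (g.wr (upR g.reg (τ.cls (some (q univ (m :: u)))) (τ.kp (m :: u))
          (g.reg (τ.cls (some (q univ (m :: u)))) (τ.kp (m :: u)) \ θ)))
            (.A (y.1 : WithBot Q.L) y.2 (τ.oc (m :: u) y.1))))
    (hN : (τ.cl ≠ 0 ∧ τ.DB (q univ (m :: u)) = Iio ⊤) ∨ ((τ.cl = 0 ∨ τ.DB (q univ (m :: u)) ≠ Iio ⊤) ∧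
      ∃ N, Cf H.ξ (if τ.cl = 0 then H.eB else g.ec (q univ (m :: u))) N ∧ D ⊆ N ∧
        N ∩ (if τ.cl = 0 then H.E0 else g.C (q univ (m :: u))) ⊆ H.f ⁻¹' η))
    {S' : Set H.P} (ho : IsOpen S') (hne : S'.Nonempty)
    (hG : S' ⊆ H.G g (.S (q univ (m :: u)) (τ.an none (q τ.DA (m :: u)))))
    (hSc : S' ⊆ clo H.ξ (Q.kap + 1) (H.E0 ∩ H.f ⁻¹' (θ \ η : Clopens CC))) (hSe : S' ⊆ clo H.ξ e D) :
    ∃ R D S gg et jj e, BOut H T g (m :: u) R D S gg et jj e := by
  have hU : S' ⊆ H.ξ ⁻¹' (g.U (m :: u)) := by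
    refine hSe.trans ((clo_anti he.one D).trans ((clo_mono hD.U).trans ?_))
    exact (clo_preimage H.hξ le_rfl (g.U (m :: u)).isClopen).subset
  obtain ⟨S, hSS, hS⟩ := Sp_of H I.i1.oS ho hne hU hG
  obtain ⟨b1, b2⟩ := bnew H I hB hw hu hT hD hDη hDo hN
  refine ⟨RB τ g (m :: u) θ η, D, S, θ, η, θ \ η, e, ?_⟩
  have i1' : Inv1 H T (g.wr (upR g.reg (τ.cls (some (q univ (m :: u)))) (τ.kp (m :: u))
          (g.reg (τ.cls (some (q univ (m :: u)))) (τ.kp (m :: u)) \ θ))) := by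
    have i1 := I.i1
    exact ⟨i1.nil, i1.ok, i1.len, i1.oS, i1.oD, i1.oC, i1.oE, i1.sE, i1.S_ne, i1.S_sub, i1.D_ne, i1.D_sub,
      i1.C_ne, i1.C_sub, i1.S_cl, i1.S_di, i1.D_cl, i1.D_cl', i1.D_di, i1.D_C, i1.U_le, i1.U_di⟩
  refine ⟨via_new H i1' hT (τ.cls (some (q univ (m :: u)))) η hv, hD, hS, he, ?_, ?_, ?_, ?_, ?_, ?_⟩
  · exact nf_of_D H (g := g.wr (RB τ g (m :: u) θ η)) hw (τ.mc (m :: u)) hD.o hS.o (hSS.trans hSe)
      (show ∀ y ∈ rel ⊥ (m :: u), g.ex y.1 ≤ e from xb10_rel H he)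
      (show Q.md = true → ∀ v, v <:+ u → g.exz v ≤ e from xb10_exz H I hu he) b1 b2
  · intro _
    exact ⟨hθ, hs, hηθ, hDη, rfl⟩
  · intro h
    rw [h2] at h
    exact absurd h (by decide)
  · intro h
    exact absurd h2 h
  · intro _
    refine ⟨sdiff_le, disjoint_sdiff_self_right, hSS.trans ?_⟩
    have hE : g.E = H.E0 := I.i4.E2 (by rw [h2]; decide)
    rw [hE]
    exact hSc
  · intro _ h
    rw [hB] at h
    exact absurd h (by simp)

/-- MODULE xb10 (size 3): class II, not constant.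

`exists_EOk` gives `e`.  `bchoice`: `gg = θ`, `Z`.  `lemII` with `Γ = θ`, `D = Z`, `G = G g (S r xA)` (`Z ⊆ clo kap G` by `Yp.S`): `η`, `D'`, `S'`; `et = η`, `jj = θ \ η`.  If `DB r = Iio ⊤`: `D = D'`, `S''= S'`.  Otherwise: `K = clo (ec r) (C r \ f ⁻¹' η)`: `K ∩ D' = ∅` (`Co (ec r) (C r)`), `K` is a test set of order `ec r + 1 ≤ e` and `S' ⊆ clo e D'`, so `K ∩ S' = ∅`; by `exists_Cf_of_disjoint` there is a
test set `N` of order `ec r` with `N ∩ S' ≠ ∅`, `N ∩ C r ⊆ f ⁻¹' η`; `D = D' ∩ N`, `S'' = S' ∩ N ⊆ clo e (D' ∩ N)`, so `D ≠ ∅`.  `S'' ⊆ ξ ⁻¹' U w` as `clo e D ⊆ clo 1 (ξ ⁻¹' U w) = ξ ⁻¹' U w` (`clo_preimage`).  `Sp_of` gives `S ⊆ S''`.  `g.E = E0` (`E2`).  `bnew`, `nf_of_D`, `via_new`. -/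
theorem bstep_2 (H : Hyp Q τ) (hC : H.Cls) {T : Finset (Nd Q)} {g : Cfg Q H.P} (I : Inv H T g) (h2 : τ.cl = 2)
    (hB : τ.cB = false) {m : Mv Q} {u : Nd Q} (hw : Ok (m :: u)) (hu : u ∈ T) (hT : m :: u ∉ T) :
    ∃ R D S gg et jj e, BOut H T g (m :: u) R D S gg et jj e := by
  have h0 : τ.cl ≠ 0 := by rw [h2]; decide
  have hr : q univ (m :: u) ∈ T := I.i1.mem_of_suffix hu (q_suffix univ m u)
  obtain ⟨Y, hY⟩ := exists_Yp H I hw hu hT
  obtain ⟨e, he⟩ := xb10_E H I (m := m) hu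
  obtain ⟨θ, hθ, hs, ⟨Z, hZ, hZo, hZne, hZc⟩, hv⟩ := bchoice H I hB hw hu hY
  have hZY : Yp H g (m :: u) Z := hY.mono (hZ.trans inter_subset_left) hZo hZne
  have hZθ : Z ⊆ H.f ⁻¹' θ := hZ.trans inter_subset_right
  have hGo : IsOpen (H.G g (.S (q univ (m :: u)) (τ.an none (q τ.DA (m :: u))))) := I.i1.isOpen_G _
  have hGs : H.G g (.S (q univ (m :: u)) (τ.an none (q τ.DA (m :: u)))) ⊆ H.S0 := by
    rw [G_S]
    intro x hx
    exact (I.i1.S_sub _ hr hx.1.1).1
  obtain ⟨η, hηθ, D', hD', S', hS', hDo', hDne', hSo', hSne', hSc, hSe⟩ :=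
    lemII H hC h2 θ hZo hZne (subset_inter hZY.E0 hZθ) hGo hGs hZY.S he.kap
  have hDZ : D' ⊆ Z := hD'.trans inter_subset_left
  have hDη : D' ⊆ H.f ⁻¹' η := hD'.trans inter_subset_right
  by_cases hDB : τ.DB (q univ (m :: u)) = Iio ⊤
  · exact xb10_fin H I h2 hB hw hu hT he hηθ hθ hs hv (hZY.mono hDZ hDo' hDne') hDη
      (fun y hy hy' => hDZ.trans (hZc y hy hy')) (Or.inl ⟨h0, hDB⟩) hSo' hSne' hS' hSc hSe
  · obtain ⟨h3, h4, _⟩ := (I.i2.cell h0 _ hr).cin hB hDB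
    have hee : g.ec (q univ (m :: u)) + 1 ≤ e := he.ec h0 hB hDB
    have hlt : g.ec (q univ (m :: u)) < g.ec (q univ (m :: u)) + 1 := lt_add_one _
    -- `K` does not meet `D'`
    have hKD : clo H.ξ (g.ec (q univ (m :: u))) (g.C (q univ (m :: u)) \ H.f ⁻¹' η) ∩ D' = ∅ := by
      rw [← Set.not_nonempty_iff_eq_empty]
      rintro ⟨x, hx1, hx2⟩
      have h5 := h4 η
      have : x ∈ g.C (q univ (m :: u)) ∩ H.f ⁻¹' η ∩
          clo H.ξ (g.ec (q univ (m :: u))) (g.C (q univ (m :: u)) \ H.f ⁻¹' η) :=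
        ⟨⟨hZY.C h0 (hDZ hx2), hDη hx2⟩, hx1⟩
      rw [h5] at this
      exact this
    have hKS : S' ∩ clo H.ξ (g.ec (q univ (m :: u))) (g.C (q univ (m :: u)) \ H.f ⁻¹' η) = ∅ := by
      rw [← Set.not_nonempty_iff_eq_empty]
      rintro ⟨x, hx1, hx2⟩
      have h5 := (subset_clo_iff hSo').1 hSe _ ((Cf_clo hlt (g.C (q univ (m :: u)) \ H.f ⁻¹' η)).mono hee)
        ⟨x, hx2, hx1⟩
      rw [hKD] at h5
      exact Set.not_nonempty_empty h5
    obtain ⟨N, hN, hNS, hNC⟩ := exists_Cf_of_disjoint hSo' hSne' hKS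
    have hNo : IsOpen N := Cf.isOpen H.hξ hN
    have hNe : Cf H.ξ e N := hN.mono (hlt.le.trans hee)
    have hNCr : N ∩ g.C (q univ (m :: u)) ⊆ H.f ⁻¹' η := by
      intro x hx
      by_contra hx2
      have : x ∈ N ∩ (g.C (q univ (m :: u)) \ H.f ⁻¹' η) := ⟨hx.1, hx.2, hx2⟩
      rw [hNC] at this
      exact this
    have hNDne : (N ∩ D').Nonempty := (subset_clo_iff hSo').1 hSe N hNe hNS
    have hYN : Yp H g (m :: u) (N ∩ D') :=
      hZY.mono (inter_subset_right.trans hDZ) (hNo.inter hDo') hNDne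
    refine xb10_fin H I h2 hB hw hu hT he hηθ hθ hs hv hYN (inter_subset_right.trans hDη)
      (fun y hy hy' => inter_subset_right.trans (hDZ.trans (hZc y hy hy')))
      (Or.inr ⟨Or.inr hDB, N, ?_, inter_subset_left, ?_⟩) (hNo.inter hSo') hNS
      (inter_subset_right.trans hS') (inter_subset_right.trans hSc) ?_
    · rw [if_neg h0]
      exact hN
    · rw [if_neg h0]
      exact hNCr
    · exact (inter_subset_inter_right N hSe).trans (Cf.inter_clo H.hξ hNe)

/-- In the constant case the keys of the cells are constant: the key of the cell `r` is `r`. -/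
def Kc : Sta Q → Prop
  | .A _ _ c => ∀ r x, c (some r) = some x → x = r
  | .D _ _ c => ∀ r x, c (some r) = some x → x = r
  | .S _ _ => True
  | .E => True

private theorem xb11_suffix {m : Mv Q} {u p : Nd Q} (h : p <:+ (m :: u)) (hne : p ≠ m :: u) : p <:+ u := by
  rcases List.suffix_cons_iff.1 h with h | h
  · exact absurd h hne
  · exact h

private theorem xb11_an (τ : Ty Q) (h0 : τ.cl ≠ 0) (hB : τ.cB = true) (r p : Nd Q) : τ.an (some r) p = r := by
  simp only [Ty.an, hB, if_true, if_neg h0]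

private theorem xb11_cls_eq (τ : Ty Q) (h0 : τ.cl ≠ 0) (r : Nd Q) : τ.cls (some r) = some r := by
  simp only [Ty.cls, if_neg h0]

/-- MODULE xb11 (size 3): class II, constant.

`clo_Kc`: `an (some r) p = r`.  `G_Kc`: the base sets of the states `D r v c` are `C r ∩ f ⁻¹' (reg (some r) r)`, `D v ∩ f ⁻¹' (reg (some r) r)`, `D v ⊆ C r`, and `C r` is mapped into both regions: the base sets agree.
`bstep_2c`: `f` is constant on `C r`, with value `y` in `reg (some r) r` (`reg2`); `gg ∋ y` a small clopen subset of `reg (some r) r`; `lemII` with `Γ = gg`, `D = Y`, `G = G g (S r xA)`: `η`, `D'`, `S'`; `y ∈ η` as `∅ ≠ D' ⊆ C r ∩ f ⁻¹' η`; `et = η`, `jj = gg \ η`.  `D = D'`, `S ⊆ S'` by `Sp_of`.  The sets `G` do not change (`G_Kc`); `mc = oc`. -/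
theorem clo_Kc (τ : Ty Q) (h0 : τ.cl ≠ 0) (hB : τ.cB = true) : Clo (TT τ) {σ | Kc σ} := by
  intro σ hσ σ' hσ'
  have hupd : ∀ (c : Ctx Q) (k : Q.L) (p : Nd Q), (∀ r x, c (some r) = some x → x = r) →
      ∀ r x, τ.upd k c p (some r) = some x → x = r := by
    intro c k p hc r x hx
    unfold Ty.upd at hx
    rcases hcr : c (some r) with _ | y
    · rw [hcr] at hx
      simp only at hx
      split_ifs at hx
      rw [xb11_an τ h0 hB] at hx
      exact (Option.some.inj hx).symm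
    · rw [hcr] at hx
      simp only at hx
      rw [← Option.some.inj hx]
      exact hc r y hcr
  match σ, hσ, hσ' with
  | .A k p c, hσ, hσ' =>
    have hc : ∀ r x, c (some r) = some x → x = r := hσ
    rcases mem_trs_A.1 hσ' with ⟨y, _, h⟩ | h | ⟨r, _, h⟩
    · subst h
      exact hupd c _ _ hc
    · subst h
      exact hupd c _ _ hc
    · subst h
      exact hupd c _ _ hc
  | .D r v c, hσ, hσ' =>
    have hc : ∀ r x, c (some r) = some x → x = r := hσ
    rcases (mem_trs_D (v := v)).1 hσ' with h | ⟨r', _, h⟩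
    · subst h
      exact trivial
    · subst h
      exact hc
  | .S r x, hσ, hσ' =>
    have h := (mem_trs_S (τ := τ) (r := r) (x := x)).1 hσ'
    subst h
    exact trivial
  | .E, hσ, hσ' =>
    exact absurd hσ' (Finset.notMem_empty σ')

theorem Kc_oc (τ : Ty Q) (h0 : τ.cl ≠ 0) (hB : τ.cB = true) (w : Nd Q) (k : Q.L) :
    ∀ r x, τ.oc w k (some r) = some x → x = r := by
  intro r x hx
  unfold Ty.oc at hx
  split_ifs at hx
  rw [xb11_an τ h0 hB] at hx
  exact (Option.some.inj hx).symm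

theorem G_Kc (H : Hyp Q τ) (h0 : τ.cl ≠ 0) (hB : τ.cB = true) {T : Finset (Nd Q)} {g : Cfg Q H.P}
    (i1 : Inv1 H T g) {r : Nd Q} {A : Clopens CC} (h : g.C r ⊆ H.f ⁻¹' (g.reg (some r) r)) (h' : g.C r ⊆ H.f ⁻¹' A)
    {u : Nd Q} (hu : u ∈ T) {σ : Sta Q} (hσ : On u σ) (hk : Kc σ) :
    H.G (g.wr (upR g.reg (some r) r A)) σ = H.G g σ := by
  have hR : Clo (TT τ) ({σ | On u σ} ∩ {σ | Kc σ}) := fun σ hσ σ' hσ' =>
    ⟨clo_On τ u σ hσ.1 σ' hσ', clo_Kc τ h0 hB σ hσ.2 σ' hσ'⟩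
  have hkey : ∀ (r' : Nd Q) (c : Ctx Q), (∀ r x, c (some r) = some x → x = r) →
      (c (some r')).getD (τ.an (some r') r') = r' := by
    intro r' c hc
    rcases hcr : c (some r') with _ | y
    · rw [Option.getD_none, xb11_an τ h0 hB]
    · rw [Option.getD_some]
      exact hc r' y hcr
  have hset : ∀ (r' : Nd Q) (X : Set H.P), X ⊆ g.C r' →
      X ∩ H.f ⁻¹' (upR g.reg (some r) r A (some r') r') = X ∩ H.f ⁻¹' (g.reg (some r') r') := by
    intro r' X hX
    by_cases hr : r' = r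
    · subst hr
      have h1 : upR g.reg (some r') r' A (some r') r' = A := by
        unfold upR
        rw [if_pos ⟨rfl, rfl⟩]
      rw [h1, inter_eq_left.2 (hX.trans h), inter_eq_left.2 (hX.trans h')]
    · have h1 : upR g.reg (some r) r A (some r') r' = g.reg (some r') r' := by
        unfold upR
        rw [if_neg (fun h => hr h.2)]
      rw [h1]
  refine GG_congr hR ?_ ?_ (σ := σ) ⟨hσ, hk⟩
  · rintro σ ⟨_, _⟩
    match σ with
    | .A none p c => rfl
    | .A (some k) p c => rfl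
    | .D r none c => rfl
    | .D r (some v) c => rfl
    | .S r x => rfl
    | .E => rfl
  · intro σ hσ
    match σ, hσ with
    | .A k p c, hσ => rfl
    | .D r' none c, hσ =>
      obtain ⟨h1, h2⟩ := hσ
      show g.C r' ∩ H.f ⁻¹' (upR g.reg (some r) r A (τ.cls (some r')) _) =
        g.C r' ∩ H.f ⁻¹' (g.reg (τ.cls (some r')) _)
      rw [hkey r' c h2, xb11_cls_eq τ h0]
      exact hset r' _ Subset.rfl
    | .D r' (some v) c, hσ =>
      obtain ⟨⟨h1, h3⟩, h2⟩ := hσ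
      obtain ⟨hv1, hv2, hv3⟩ := h3 v rfl
      show g.D v ∩ H.f ⁻¹' (upR g.reg (some r) r A (τ.cls (some r')) _) =
        g.D v ∩ H.f ⁻¹' (g.reg (τ.cls (some r')) _)
      rw [hkey r' c h2, xb11_cls_eq τ h0]
      have h5 := i1.D_C v (i1.mem_of_suffix hu hv1) hv2 h0
      rw [hv3] at h5
      exact hset r' _ h5
    | .S r' x, hσ =>
      show g.S r' ∩ H.f ⁻¹' (upR g.reg (some r) r A none x) = g.S r' ∩ H.f ⁻¹' (g.reg none x)
      have h1 : upR g.reg (some r) r A none x = g.reg none x := by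
        unfold upR
        rw [if_neg (fun h => by simp at h)]
      rw [h1]
    | .E, hσ => rfl

theorem bstep_2c (H : Hyp Q τ) (hC : H.Cls) {T : Finset (Nd Q)} {g : Cfg Q H.P} (I : Inv H T g) (h2 : τ.cl = 2)
    (hB : τ.cB = true) {m : Mv Q} {u : Nd Q} (hw : Ok (m :: u)) (hu : u ∈ T) (hT : m :: u ∉ T) :
    ∃ R D S gg et jj e, BOut H T g (m :: u) R D S gg et jj e := by
  have h0 : τ.cl ≠ 0 := by
    rw [h2]
    decide
  have hru : q univ (m :: u) <:+ u := q_suffix _ m u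
  have hrT : q univ (m :: u) ∈ T := I.i1.mem_of_suffix hu hru
  obtain ⟨Y, hY⟩ := exists_Yp H I hw hu hT
  obtain ⟨e, he⟩ := exists_EOk H I.i2.adm (w := m :: u) (fun _ => I.i2.cell h0 _ hrT)
  obtain ⟨x₀, hx₀⟩ := id hY.ne
  have hYC := hY.C h0
  obtain ⟨_, hCr, _⟩ := I.i4.reg2 h2 hB _ hrT
  have hconst := (I.i2.cell h0 _ hrT).ctrue hB
  -- the small region
  have hclo : IsClopen ((g.reg (some (q univ (m :: u))) (q univ (m :: u)) : Set CC) ∩
      ⋂ i ∈ Finset.range (m :: u).length, {y : CC | y i = H.f x₀ i}) := by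
    refine (Clopens.isClopen _).inter (isClopen_biInter_finset fun i _ => ?_)
    exact (isClopen_discrete {H.f x₀ i}).preimage (continuous_apply i)
  let gg : Clopens CC := ⟨_, hclo⟩
  have hmem : ∀ y : CC, y ∈ gg ↔ (y ∈ g.reg (some (q univ (m :: u))) (q univ (m :: u)) ∧
      ∀ i < (m :: u).length, y i = H.f x₀ i) := by
    intro y
    change y ∈ ((g.reg (some (q univ (m :: u))) (q univ (m :: u)) : Set CC) ∩
      ⋂ i ∈ Finset.range (m :: u).length, {y : CC | y i = H.f x₀ i}) ↔ _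
    simp only [mem_inter_iff, mem_iInter, Finset.mem_range, mem_ofPred_eq, SetLike.mem_coe]
  have hgle : gg ≤ g.reg (some (q univ (m :: u))) (q univ (m :: u)) := fun y hy => ((hmem y).1 hy).1
  have hgs : Sml (m :: u).length gg := fun y hy y' hy' i hi => by
    rw [((hmem y).1 hy).2 i hi, ((hmem y').1 hy').2 i hi]
  have hYg : Y ⊆ H.f ⁻¹' gg := by
    intro x hx
    have h3 : H.f x = H.f x₀ := hconst x (hYC hx) x₀ (hYC hx₀)
    exact (hmem _).2 ⟨hCr (hYC hx), fun i _ => by rw [h3]⟩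
  have hGo : IsOpen (H.G g (.S (q univ (m :: u)) (τ.an none (q τ.DA (m :: u))))) := I.i1.isOpen_G _
  have hGs : H.G g (.S (q univ (m :: u)) (τ.an none (q τ.DA (m :: u)))) ⊆ H.S0 := by
    rw [G_S]
    exact fun x hx => (I.i1.S_sub _ hrT hx.1.1).1
  obtain ⟨η, hη, D', hD', S', hS', oD', neD', oS', neS', hSj, hSD⟩ :=
    lemII H hC h2 gg hY.o hY.ne (subset_inter hY.E0 hYg) hGo hGs hY.S he.kap
  have hD'Y : D' ⊆ Y := hD'.trans inter_subset_left
  have hYp := hY.mono hD'Y oD' neD'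
  obtain ⟨x₁, hx₁⟩ := id neD'
  have hSU : S' ⊆ H.ξ ⁻¹' (g.U (m :: u)) := by
    rw [← clo_preimage H.hξ he.one (g.U (m :: u)).isClopen]
    exact hSD.trans (clo_mono (hYp.U))
  obtain ⟨S, hSS, hSp⟩ := Sp_of H I.i1.oS oS' neS' hSU hS'
  have hA : g.C (q univ (m :: u)) ⊆ H.f ⁻¹' ((g.reg (some (q univ (m :: u))) (q univ (m :: u)) \ (gg \ η) :
      Clopens CC) : Set CC) := by
    intro x hx
    have h3 : H.f x = H.f x₁ := hconst x hx x₁ (hYC (hD'Y hx₁))
    refine ⟨hCr hx, fun h4 => ?_⟩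
    apply h4.2
    show H.f x ∈ η
    rw [h3]
    exact (hD' hx₁).2
  have hKey := fun {v : Nd Q} (hv : v ∈ T) {σ : Sta Q} (hσ : On v σ) (hk : Kc σ) =>
    G_Kc H h0 hB I.i1 hCr hA hv hσ hk
  refine ⟨upR g.reg (some (q univ (m :: u))) (q univ (m :: u))
    (g.reg (some (q univ (m :: u))) (q univ (m :: u)) \ (gg \ η)), D', S, gg, η, gg \ η, e, ?_⟩
  refine ⟨?_, hYp, hSp, he, ?_, ?_, ?_, ?_, ?_, ?_⟩
  · intro v hv m' hm' hmT
    rw [hKey hv (σ := .A ⊥ v (fun _ => none)) (List.suffix_refl v) (fun r x hx => by simp at hx)]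
    exact I.via v hv m' hm' hmT
  · have hmc : τ.mc (m :: u) = τ.oc (m :: u) := funext fun k => mc_eq_const τ hB k
    rw [hmc]
    refine nf_of_D H hw (τ.oc (m :: u)) oD' hSp.o (hSS.trans hSD) ?_ ?_ ?_ ?_
    · rintro ⟨k, p⟩ ⟨_, hy2, _, hy4, hy5, _⟩
      refine (he.lt k hy2 ?_).le
      exact hy5.trans ((dep_le_length p).trans hy4.length_le)
    · intro hmd v hv
      show g.exz v ≤ e
      rw [(I.i2.md hmd v (I.i1.mem_of_suffix hu hv)).1, he.md hmd]
    · rw [hKey hu (σ := .D (q univ (m :: u)) (dpar (m :: u)) (τ.oc (m :: u) ⊤)) ?_ (Kc_oc τ h0 hB _ _)]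
      · exact hYp.D
      · refine ⟨hru, fun v hv => ?_⟩
        obtain ⟨h3, h4, _, _, h5⟩ := dpar_some hw (List.cons_ne_nil _ _) hv
        exact ⟨h5.suffix.trans (q_suffix _ m u), h4, h3⟩
    · rintro ⟨k, p⟩ hy
      obtain ⟨_, hy2, hy3, hy4, hy5, _⟩ := id hy
      rw [hKey hu (σ := .A (k : WithBot Q.L) p (τ.oc (m :: u) k)) (xb11_suffix hy4.suffix hy3) (Kc_oc τ h0 hB _ _)]
      exact hYp.A ⟨k, p⟩ hy
  · intro h
    rw [hB] at h
    exact absurd h (by decide)
  · intro h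
    exact absurd h h0
  · intro h
    exact absurd h2 h
  · intro _
    refine ⟨sdiff_le, disjoint_sdiff_self_right, ?_⟩
    rw [I.i4.E2 (by rw [h2]; decide)]
    exact hSS.trans hSj
  · intro _ _
    refine ⟨hgle, hgs, ?_, rfl⟩
    intro x hx
    refine ⟨hη (hD' hx).2, fun h4 => h4.2 (hD' hx).2⟩

theorem bstep (H : Hyp Q τ) (hC : H.Cls) {T : Finset (Nd Q)} {g : Cfg Q H.P} (I : Inv H T g) {m : Mv Q} {u : Nd Q}
    (hw : Ok (m :: u)) (hu : u ∈ T) (hT : m :: u ∉ T) :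
    ∃ R D S gg et jj e, BOut H T g (m :: u) R D S gg et jj e := by
  by_cases h2 : τ.cl = 2
  · rcases hB : τ.cB with _ | _
    · exact bstep_2 H hC I h2 hB hw hu hT
    · exact bstep_2c H hC I h2 hB hw hu hT
  · rcases hB : τ.cB with _ | _
    · exact bstep_01 H I h2 hB hw hu hT
    · exact bstep_const H I h2 hB hw hu hT

/-! ## The regions of the side `A` -/

/-- Add the sets `S`, `D` and the exponents of the node `w`. -/
noncomputable def Cfg.wS {P : Type} (g : Cfg Q P) (w : Nd Q) (S D : Set P) (e : Ordinal.{0}) : Cfg Q P :=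
  { g with S := Function.update g.S w S, D := Function.update g.D w D, exz := Function.update g.exz w e,
           exf := Function.update g.exf w e }

/-- The result of the second half: `g₁` is the configuration with `S w = S`, `D w`, `exz w`, `exf w`. -/
structure AOut (H : Hyp Q τ) (T : Finset (Nd Q)) (g₁ : Cfg Q H.P) (w : Nd Q)
    (R : Option (Nd Q) → Nd Q → Clopens CC) (S : Set H.P) (th : Clopens CC) : Prop where
  o : IsOpen S
  ne : S.Nonempty
  sub : S ⊆ g₁.S w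
  via : Via H T (g₁.wr R)
  nf : ∀ σ ∈ nf (τ.nc w) w, S ⊆ clo H.ξ (lvl g₁ σ) (H.G (g₁.wr R) σ)
  rs : ∀ κ, κ ≠ none → R κ = g₁.reg κ
  cA : τ.cA = true → R = g₁.reg
  nA : τ.cA = false → th ≤ g₁.reg none (q τ.DA w) ∧ Sml w.length th ∧ S ⊆ H.f ⁻¹' th ∧
    R = upR (upR g₁.reg none (q τ.DA w) (g₁.reg none (q τ.DA w) \ th)) none w th

private theorem xb12_suffix {m : Mv Q} {u p : Nd Q} (h : p <:+ (m :: u)) (hne : p ≠ m :: u) : p <:+ u := by
  rcases List.suffix_cons_iff.1 h with h | h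
  · exact absurd h hne
  · exact h

private theorem xb12_not_suffix {m : Mv Q} {u : Nd Q} : ¬ (m :: u) <:+ u := by
  intro h
  have h1 := h.length_le
  simp at h1

private theorem xb12_cls_ne_none (τ : Ty Q) (r : Nd Q) : τ.cls (some r) ≠ none := by
  unfold Ty.cls
  simp only
  split_ifs <;> simp

private theorem xb12_cls_none (τ : Ty Q) {i : Option (Nd Q)} (h : τ.cls i = none) : i = none := by
  rcases i with _ | r
  · rfl
  · exact absurd h (xb12_cls_ne_none τ r)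

private theorem xb12_wr {H : Hyp Q τ} {T : Finset (Nd Q)} {g : Cfg Q H.P} (i1 : Inv1 H T g)
    (R : Option (Nd Q) → Nd Q → Clopens CC) : Inv1 H T (g.wr R) :=
  ⟨i1.nil, i1.ok, i1.len, i1.oS, i1.oD, i1.oC, i1.oE, i1.sE, i1.S_ne, i1.S_sub, i1.D_ne, i1.D_sub, i1.C_ne,
    i1.C_sub, i1.S_cl, i1.S_di, i1.D_cl, i1.D_cl', i1.D_di, i1.D_C, i1.U_le, i1.U_di⟩

private theorem xb12_wS {H : Hyp Q τ} {T : Finset (Nd Q)} {g : Cfg Q H.P} (i1 : Inv1 H T g) {w : Nd Q}
    (hT : w ∉ T) {S D : Set H.P} (oS : IsOpen S) (oD : IsOpen D) (e : Ordinal.{0}) : Inv1 H T (g.wS w S D e) := by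
  have hn : ∀ v ∈ T, v ≠ w := fun v hv h => hT (h ▸ hv)
  have hS : ∀ v ∈ T, (g.wS w S D e).S v = g.S v := fun v hv => Function.update_of_ne (hn v hv) _ _
  have hD : ∀ v ∈ T, (g.wS w S D e).D v = g.D v := fun v hv => Function.update_of_ne (hn v hv) _ _
  refine ⟨i1.nil, i1.ok, i1.len, ?_, ?_, i1.oC, i1.oE, i1.sE, ?_, ?_, ?_, ?_, i1.C_ne, i1.C_sub, ?_, ?_, ?_, ?_, ?_,
    ?_, i1.U_le, i1.U_di⟩
  · intro v
    by_cases h : v = w
    · subst h
      show IsOpen (Function.update g.S v S v)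
      rw [Function.update_self]
      exact oS
    · show IsOpen (Function.update g.S w S v)
      rw [Function.update_of_ne h]
      exact i1.oS v
  · intro v
    by_cases h : v = w
    · subst h
      show IsOpen (Function.update g.D v D v)
      rw [Function.update_self]
      exact oD
    · show IsOpen (Function.update g.D w D v)
      rw [Function.update_of_ne h]
      exact i1.oD v
  · intro v hv
    rw [hS v hv]
    exact i1.S_ne v hv
  · intro v hv
    rw [hS v hv]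
    exact i1.S_sub v hv
  · intro v hv
    rw [hD v hv]
    exact i1.D_ne v hv
  · intro v hv
    rw [hD v hv]
    exact i1.D_sub v hv
  · intro v hv hv0
    have hq : q univ v ∈ T := i1.mem_of_suffix hv (q_le univ v).suffix
    rw [hS v hv, hS _ hq]
    exact i1.S_cl v hv hv0
  · intro v hv
    rw [hS v hv]
    exact i1.S_di v hv
  · intro v hv
    rw [hD v hv]
    exact i1.D_cl v hv
  · intro v hv hv0 v' hv'
    obtain ⟨_, _, _, _, h5⟩ := dpar_some (i1.ok v hv) hv0 hv'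
    have hv'T : v' ∈ T := i1.mem_of_suffix hv (h5.suffix.trans (q_le _ v).suffix)
    rw [hD v hv, hD v' hv'T]
    exact i1.D_cl' v hv hv0 v' hv'
  · intro v hv
    rw [hD v hv]
    exact i1.D_di v hv
  · intro v hv
    rw [hD v hv]
    exact i1.D_C v hv

/-- The region of the side `A` in `R`. -/
private theorem xb12_Rnone (H : Hyp Q τ) {T : Finset (Nd Q)} {g : Cfg Q H.P} {w : Nd Q}
    {R : Option (Nd Q) → Nd Q → Clopens CC} {D S : Set H.P} {gg et jj : Clopens CC} {e : Ordinal.{0}}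
    (B : BOut H T g w R D S gg et jj e) : R none = g.reg none := by
  by_cases hB : τ.cB = true
  · by_cases h2 : τ.cl = 2
    · rw [(B.c2c h2 hB).2.2.2]
      funext x
      unfold upR
      rw [if_neg (fun h => by simp at h)]
    · rw [(B.c1 h2 hB).1]
  · rw [(B.nB (Bool.eq_false_iff.2 hB)).2.2.2.2]
    funext x
    unfold RB upR
    rw [if_neg (fun h => xb12_cls_ne_none τ _ h.1.symm), if_neg (fun h => xb12_cls_ne_none τ _ h.1.symm)]

/-- MODULE xb12 (size 3): the region of `w` on the side `A`.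

`g₁ = (g.wr R).wS w S D e`.  First: `Inv1 H T g₁` (`w ∉ T`, openness), `Via H T g₁` (`via_congr`), and `∀ σ ∈ nf (mc w) w, S ⊆ clo (lvl g₁ σ) (G g₁ σ)` (`G_congr` with `Rch_nf`: `g₁` and `(g.wr R).wD w D e` agree on `u`, `w`).
Constant: `nc = mc`, `R₂ = g₁.reg`, `S₂ = S`.
Not constant: `xA = q DA w`.  `reg_choice` for `g₁`, `κ = none`, `x = q DA w`, `Z = S` (`S ⊆ f ⁻¹' (g.reg none xA)`, `R none = g.reg none`), `Tg` the states of `nf (mc w) w` of the form `A k' p' _` with `k' ∈ DA`, and the `D`-states if `⊤ ∈ DA`; `e` the maximum of their levels (or `0`): `f` is not continuous of order `e` on open subsets of `S ⊆ S0`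
by `cA_out` (the levels are `< kap`: `EOk.kap`, `Inv2.kap`).  This gives `th`, `Z'`, `R' = upR g₁.reg none xA (.. \ th)`; `R₂ = upR R' none w th` (`via_new`).
For `σ = A k' p' (mc w k')` with `k' ∈ DA`: `nc w k' = mc w k'` (`nc_eq`, `phic_mc_of_mem`) and `G (g₁.wr R₂) σ = G (g₁.wr R') σ` (`G_new`, `κ = none`: `mc w k' none = none`); if `⊤ ∈ DA` the same for the `D`-states, and `S₂ = Z'`: done.
If `⊤ ∉ DA`: `Co eA S0`, `Co.exists_Cf`: a test set `N` of order `eA` meeting `Z'` with `N ∩ S0 ⊆ f ⁻¹' th`; `S₂ = Z' ∩ N`.  For the other `σ ∈ nf (mc w) w`: `N ∩ G g₁ σ ⊆ G (g₁.wr R₂) (phi none w σ)` by `loc` with `u := w`, `D₀ = DA`, `e = eA` (`g₁.S w = S ⊆ S0`, `g₁.exz w = g₁.exf w = e ≥ eA`; `Gd`: the coordinate `none` is set as `k' ∉ DA`, `⊤ ∉ DA`), and `phi none w (A k' p' (mc w k')) = A k' p' (nc w k')` by `nc_eq`. -/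
theorem astep (H : Hyp Q τ) {T : Finset (Nd Q)} {g : Cfg Q H.P} (I : Inv H T g) {m : Mv Q} {u : Nd Q}
    (hw : Ok (m :: u)) (hu : u ∈ T) (hT : m :: u ∉ T) {R : Option (Nd Q) → Nd Q → Clopens CC} {D S : Set H.P}
    {gg et jj : Clopens CC} {e : Ordinal.{0}} (B : BOut H T g (m :: u) R D S gg et jj e) :
    ∃ R₂ S₂ th, AOut H T ((g.wr R).wS (m :: u) S D e) (m :: u) R₂ S₂ th := by
  have hru : q univ (m :: u) <:+ u := q_suffix _ m u
  have hrT : q univ (m :: u) ∈ T := I.i1.mem_of_suffix hu hru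
  have i1r : Inv1 H T (g.wr R) := xb12_wr I.i1 R
  have i1 : Inv1 H T ((g.wr R).wS (m :: u) S D e) := xb12_wS i1r hT B.hS.o B.hD.o e
  have hne : ∀ {p : Nd Q}, p <:+ u → p ≠ m :: u := fun hp h => xb12_not_suffix (h ▸ hp)
  have hneT : ∀ {p : Nd Q}, p ∈ T → p ≠ m :: u := fun hp h => hT (h ▸ hp)
  have hSu : ∀ p, p ≠ m :: u → ((g.wr R).wS (m :: u) S D e).S p = g.S p := fun p hp =>
    Function.update_of_ne hp _ _
  have hDu : ∀ p, p ≠ m :: u → ((g.wr R).wS (m :: u) S D e).D p = g.D p := fun p hp =>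
    Function.update_of_ne hp _ _
  have hzu : ∀ p, p ≠ m :: u → ((g.wr R).wS (m :: u) S D e).exz p = g.exz p := fun p hp =>
    Function.update_of_ne hp _ _
  have hfu : ∀ p, p ≠ m :: u → ((g.wr R).wS (m :: u) S D e).exf p = g.exf p := fun p hp =>
    Function.update_of_ne hp _ _
  have hSw : ((g.wr R).wS (m :: u) S D e).S (m :: u) = S := Function.update_self _ _ _
  have hzw : ((g.wr R).wS (m :: u) S D e).exz (m :: u) = e := Function.update_self _ _ _
  have hfw : ((g.wr R).wS (m :: u) S D e).exf (m :: u) = e := Function.update_self _ _ _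
  have hvia : Via H T ((g.wr R).wS (m :: u) S D e) := by
    refine via_congr H i1r (fun v hv => ?_) (fun v _ m' => rfl) B.via
    have hp : ∀ p, p <:+ v → p ≠ m :: u := fun p hp => hneT (I.i1.mem_of_suffix hv hp)
    exact ⟨fun p h => hSu p (hp p h), fun p h => hDu p (hp p h), fun p _ => rfl, fun x _ => rfl,
      fun r _ x _ => rfl, rfl, fun k _ _ => rfl, fun p h => hzu p (hp p h), fun p h => hfu p (hp p h)⟩
  have h0 : ∀ σ ∈ nf (τ.mc (m :: u)) (m :: u),
      S ⊆ clo H.ξ (lvl ((g.wr R).wS (m :: u) S D e) σ) (H.G ((g.wr R).wS (m :: u) S D e) σ) := by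
    intro σ hσ
    have h1 := B.nf σ hσ
    have h2 : H.G ((g.wr R).wS (m :: u) S D e) σ = H.G ((g.wr R).wD (m :: u) D e) σ := by
      refine G_congr H (List.suffix_cons m u) ?_ (Rch_nf τ (Or.inr (Or.inl rfl)) hσ)
      exact ⟨fun p h => hSu p (hne h), fun p h => rfl, fun p _ => rfl, fun x _ => rfl,
        fun r _ x _ => rfl, rfl, fun k _ _ => rfl, fun p h => rfl, fun p h => hfu p (hne h)⟩
    have h3 : lvl ((g.wr R).wS (m :: u) S D e) σ = lvl ((g.wr R).wD (m :: u) D e) σ := by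
      unfold nf at hσ
      rcases Finset.mem_union.1 hσ with h | h
      · obtain ⟨y, _, rfl⟩ := Finset.mem_image.1 h
        rfl
      · obtain ⟨r, _, rfl⟩ := Finset.mem_image.1 h
        rfl
    rw [h2, h3]
    exact h1
  have hSS0 : S ⊆ H.S0 := fun x hx => (I.i1.S_sub _ hrT (B.hS.cl (subset_closure hx))).1
  rcases hA : τ.cA with _ | _
  · -- not constant
    have hw0 : m :: u ≠ [] := List.cons_ne_nil _ _
    have hnc : ∀ k, τ.nc (m :: u) k = τ.phic none (m :: u) (τ.mc (m :: u) k) := fun k => nc_eq τ hA k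
    have hxA : τ.an none (q τ.DA (m :: u)) = q τ.DA (m :: u) := by
      simp only [Ty.an, hA, Bool.false_eq_true, if_false]
    have hZr : S ⊆ H.f ⁻¹' (((g.wr R).wS (m :: u) S D e).reg none (q τ.DA (m :: u))) := by
      show S ⊆ H.f ⁻¹' (R none (q τ.DA (m :: u)))
      rw [xb12_Rnone H B]
      have h1 := B.hS.G
      rw [G_S, hxA] at h1
      exact fun x hx => (h1 hx).1.2
    -- the levels of the states `nf`
    let PP : Sta Q → Prop := fun σ => (∃ k p c, σ = .A ((k : Q.L) : WithBot Q.L) p c ∧ k ∈ τ.DA) ∨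
      ((∃ r v c, σ = .D r v c) ∧ ⊤ ∈ τ.DA)
    let Tg : Finset (Sta Q) := (nf (τ.mc (m :: u)) (m :: u)).filter PP
    obtain ⟨hc0, hc1, hc2⟩ : (∀ D' ⊆ H.S0, IsOpen D' → D'.Nonempty → ¬ Co H.ξ H.f 0 D') ∧
        (∀ D' ⊆ H.S0, IsOpen D' → D'.Nonempty → ∀ k ∈ τ.DA, k ≠ ⊤ → ¬ Co H.ξ H.f (g.ex k) D') ∧
        (∀ D' ⊆ H.S0, IsOpen D' → D'.Nonempty → ⊤ ∈ τ.DA → ∀ e < Q.kap, ¬ Co H.ξ H.f e D') :=
      ⟨fun D' h1 h2 h3 => (H.cA_out hA D' h1 h2 h3).1,
        fun D' h1 h2 h3 => (H.cA_out hA D' h1 h2 h3).2.1 g.ex I.i2.adm,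
        fun D' h1 h2 h3 => (H.cA_out hA D' h1 h2 h3).2.2⟩
    have hkap : ∀ v, v <:+ m :: u → ((g.wr R).wS (m :: u) S D e).exz v < Q.kap := by
      intro v hv
      by_cases h : v = m :: u
      · rw [h, hzw]
        exact B.he.kap
      · rw [hzu v h]
        exact (I.i2.kap v (I.i1.mem_of_suffix hu (xb12_suffix hv h))).1
    obtain ⟨th, hth1, hth2, ⟨Z', hZ', oZ', neZ', hZT⟩, hth4⟩ := reg_choice H i1 hvia none (q τ.DA (m :: u))
      B.hS.o B.hS.ne hZr Tg (Tg.sup (lvl ((g.wr R).wS (m :: u) S D e)))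
      (fun σ hσ => ⟨h0 σ (Finset.mem_filter.1 hσ).1, Finset.le_sup (f := lvl ((g.wr R).wS (m :: u) S D e)) hσ⟩)
      (by
        intro D' hD' oD' neD'
        have hD'0 : D' ⊆ H.S0 := hD'.trans hSS0
        rcases Tg.eq_empty_or_nonempty with hE | hE
        · rw [hE, Finset.sup_empty]
          exact hc0 D' hD'0 oD' neD'
        · obtain ⟨σ, hσ, hs⟩ := Finset.exists_mem_eq_sup Tg hE (lvl ((g.wr R).wS (m :: u) S D e))
          rw [hs]
          obtain ⟨hσ1, hσ2⟩ := Finset.mem_filter.1 hσ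
          unfold nf at hσ1
          rcases Finset.mem_union.1 hσ1 with h | h
          · obtain ⟨y, hy, hyσ⟩ := Finset.mem_image.1 h
            rw [Set.Finite.mem_toFinset] at hy
            subst hyσ
            have hk : y.1 ∈ τ.DA := by
              rcases hσ2 with ⟨k, p, c, h3, h4⟩ | ⟨⟨r, v, c, h3⟩, _⟩
              · injection h3 with h5 _ _
                rw [WithBot.coe_inj.1 h5]
                exact h4
              · exact absurd h3 (by simp)
            exact hc1 D' hD'0 oD' neD' y.1 hk hy.2.1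
          · obtain ⟨r, hr, hyσ⟩ := Finset.mem_image.1 h
            rw [Set.Finite.mem_toFinset] at hr
            subst hyσ
            have hk : ⊤ ∈ τ.DA := by
              rcases hσ2 with ⟨k, p, c, h3, h4⟩ | ⟨_, h4⟩
              · exact absurd h3 (by simp)
              · exact h4
            refine hc2 D' hD'0 oD' neD' hk _ (hkap _ chd_suffix))
      (m :: u).length
    have hviaR : Via H T (((g.wr R).wS (m :: u) S D e).wr (upR (upR ((g.wr R).wS (m :: u) S D e).reg none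
        (q τ.DA (m :: u)) (((g.wr R).wS (m :: u) S D e).reg none (q τ.DA (m :: u)) \ th)) none (m :: u) th)) :=
      via_new H (xb12_wr i1 _) hT none th hth4
    have hR2 : ∀ κ' ≠ none, upR (upR ((g.wr R).wS (m :: u) S D e).reg none
        (q τ.DA (m :: u)) (((g.wr R).wS (m :: u) S D e).reg none (q τ.DA (m :: u)) \ th)) none (m :: u) th κ' =
        ((g.wr R).wS (m :: u) S D e).reg κ' := by
      intro κ' h
      funext x
      unfold upR
      rw [if_neg (fun h' => h h'.1), if_neg (fun h' => h h'.1)]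
    have hR2w : upR (upR ((g.wr R).wS (m :: u) S D e).reg none
        (q τ.DA (m :: u)) (((g.wr R).wS (m :: u) S D e).reg none (q τ.DA (m :: u)) \ th)) none (m :: u) th none
          (m :: u) = th := by
      show upR _ _ _ _ _ _ = _
      unfold upR
      rw [if_pos ⟨rfl, rfl⟩]
    have hZS : Z' ⊆ S := hZ'.trans inter_subset_left
    -- the states below the continuity
    have hlow : ∀ σ ∈ nf (τ.mc (m :: u)) (m :: u), PP σ →
        Z' ⊆ clo H.ξ (lvl ((g.wr R).wS (m :: u) S D e) σ) (H.G (((g.wr R).wS (m :: u) S D e).wr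
          (upR (upR ((g.wr R).wS (m :: u) S D e).reg none (q τ.DA (m :: u))
            (((g.wr R).wS (m :: u) S D e).reg none (q τ.DA (m :: u)) \ th)) none (m :: u) th)) σ) := by
      intro σ hσ hP
      refine (hZT σ (Finset.mem_filter.2 ⟨hσ, hP⟩)).trans (clo_mono (le_of_eq ?_))
      have hnk : Nk τ none u (m :: u) σ := by
        unfold nf at hσ
        rcases Finset.mem_union.1 hσ with h | h
        · obtain ⟨y, hy, hyσ⟩ := Finset.mem_image.1 h
          rw [Set.Finite.mem_toFinset] at hy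
          subst hyσ
          obtain ⟨_, _, hy3, hy4, _, _⟩ := hy
          have hk : y.1 ∈ τ.DA := by
            rcases hP with ⟨k, p, c, h3, h4⟩ | ⟨⟨r, v, c, h3⟩, _⟩
            · injection h3 with h5 _ _
              rw [WithBot.coe_inj.1 h5]
              exact h4
            · exact absurd h3 (by simp)
          refine ⟨xb12_suffix hy4.suffix hy3, fun i hi => ?_⟩
          rw [xb12_cls_none τ hi]
          show τ.oc (m :: u) y.1 none ≠ _
          have hoc : τ.oc (m :: u) y.1 none = none := by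
            unfold Ty.oc
            rw [if_pos]
            exact hk
          rw [hoc]
          simp
        · obtain ⟨r, hr, hyσ⟩ := Finset.mem_image.1 h
          rw [Set.Finite.mem_toFinset] at hr
          subst hyσ
          obtain ⟨hr1, hr2, _⟩ := hr
          have hk : ⊤ ∈ τ.DA := by
            rcases hP with ⟨k, p, c, h3, h4⟩ | ⟨_, h4⟩
            · exact absurd h3 (by simp)
            · exact h4
          refine ⟨xb12_suffix hr2.suffix hr1, fun i hi => ?_⟩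
          rw [xb12_cls_none τ hi]
          show τ.oc (m :: u) ⊤ none ≠ _
          have hoc : τ.oc (m :: u) ⊤ none = none := by
            unfold Ty.oc
            rw [if_pos]
            exact hk
          rw [hoc]
          simp
      exact (G_new H xb12_not_suffix (by simp) (((g.wr R).wS (m :: u) S D e).wr _) th hnk).symm
    by_cases hTop : ⊤ ∈ τ.DA
    · -- everything is below the continuity
      refine ⟨_, Z', th, oZ', neZ', ?_, hviaR, ?_, hR2, ?_, ?_⟩
      · rw [hSw]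
        exact hZS
      · have hnm : τ.nc (m :: u) = τ.mc (m :: u) := by
          funext k
          rw [hnc k]
          exact phic_mc_of_mem τ (τ.lowA le_top hTop) _
        rw [hnm]
        intro σ hσ
        refine hlow σ hσ ?_
        unfold nf at hσ
        rcases Finset.mem_union.1 hσ with h | h
        · obtain ⟨y, hy, hyσ⟩ := Finset.mem_image.1 h
          exact Or.inl ⟨y.1, y.2, _, hyσ.symm, τ.lowA le_top hTop⟩
        · obtain ⟨r, hr, hyσ⟩ := Finset.mem_image.1 h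
          exact Or.inr ⟨⟨_, _, _, hyσ.symm⟩, hTop⟩
      · intro h
        rw [hA] at h
        exact absurd h (by decide)
      · intro _
        exact ⟨hth1, hth2, hZ'.trans inter_subset_right, rfl⟩
    · obtain ⟨hco, hexA⟩ := H.cA_in hA hTop
      obtain ⟨N, hN1, hN2, hN3⟩ := hco.exists_Cf oZ' neZ' (hZS.trans hSS0) (θ := th) (hZ'.trans inter_subset_right)
      have hloc : ∀ σ, On (m :: u) σ → Gd τ none τ.DA σ →
          N ∩ H.G ((g.wr R).wS (m :: u) S D e) σ ⊆ H.G (((g.wr R).wS (m :: u) S D e).wr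
          (upR (upR ((g.wr R).wS (m :: u) S D e).reg none (q τ.DA (m :: u))
            (((g.wr R).wS (m :: u) S D e).reg none (q τ.DA (m :: u)) \ th)) none (m :: u) th))
              (τ.phi none (m :: u) σ) := by
        intro σ hσ hG
        refine loc H τ.lowA hN1 hR2 (fun k hk hkt => hexA g.ex I.i2.adm k hk hkt) H.eA_lt.le ?_ ?_ ?_ ?_ hσ hG
        · rintro r v c ⟨hr, hv⟩ _
          rcases v with _ | v
          · show H.eA ≤ ((g.wr R).wS (m :: u) S D e).exf r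
            by_cases h : r = m :: u
            · rw [h, hfw]
              exact B.he.eA
            · rw [hfu r h]
              exact (I.i2.eA r (I.i1.mem_of_suffix hu (xb12_suffix hr h))).2
          · show H.eA ≤ ((g.wr R).wS (m :: u) S D e).exz v
            by_cases h : v = m :: u
            · rw [h, hzw]
              exact B.he.eA
            · rw [hzu v h]
              exact (I.i2.eA v (I.i1.mem_of_suffix hu (xb12_suffix (hv v rfl).1 h))).1
        · intro _ r hr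
          rw [hR2w]
          refine (inter_subset_inter_right N ?_).trans hN3
          by_cases h : r = m :: u
          · rw [h, hSw]
            exact hSS0
          · rw [hSu r h]
            exact (I.i1.S_sub r (I.i1.mem_of_suffix hu (xb12_suffix hr h))).trans inter_subset_left
        · intro r _ h
          exact absurd h (xb12_cls_ne_none τ r)
        · intro r v _ _ _ h
          exact absurd h (xb12_cls_ne_none τ r)
      have hoS2 : IsOpen (N ∩ Z') := (hN1.isOpen H.hξ).inter oZ'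
      refine ⟨_, N ∩ Z', th, hoS2, hN2, ?_, hviaR, ?_, hR2, ?_, ?_⟩
      · rw [hSw]
        exact inter_subset_right.trans hZS
      · intro σ hσ
        unfold nf at hσ
        rcases Finset.mem_union.1 hσ with h | h
        · obtain ⟨y, hy, hyσ⟩ := Finset.mem_image.1 h
          subst hyσ
          have hmem : Sta.A (y.1 : WithBot Q.L) y.2 (τ.mc (m :: u) y.1) ∈ nf (τ.mc (m :: u)) (m :: u) := by
            unfold nf
            exact Finset.mem_union_left _ (Finset.mem_image.2 ⟨y, hy, rfl⟩)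
          rw [Set.Finite.mem_toFinset] at hy
          by_cases hk : y.1 ∈ τ.DA
          · rw [hnc, phic_mc_of_mem τ hk]
            exact inter_subset_right.trans (hlow _ hmem (Or.inl ⟨y.1, y.2, _, rfl, hk⟩))
          · rw [hnc]
            have h1 := hloc (.A (y.1 : WithBot Q.L) y.2 (τ.mc (m :: u) y.1)) hy.2.2.2.1.suffix
              ⟨⟨y.1, rfl, hy.2.1, hk⟩, fun i hi => by
                rw [xb12_cls_none τ hi]
                exact Gd_oc τ (i₀ := none) rfl hk none rfl⟩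
            have h2 : N ∩ Z' ⊆ N ∩ clo H.ξ (g.ex y.1) (H.G ((g.wr R).wS (m :: u) S D e)
                (.A (y.1 : WithBot Q.L) y.2 (τ.mc (m :: u) y.1))) :=
              inter_subset_inter_right N (hZS.trans (h0 _ hmem))
            exact (h2.trans (Cf.inter_clo H.hξ (hN1.mono (hexA g.ex I.i2.adm y.1 hk hy.2.1)))).trans (clo_mono h1)
        · obtain ⟨r, hr, hyσ⟩ := Finset.mem_image.1 h
          subst hyσ
          have hmem : Sta.D r (some (chd univ r (m :: u))) (τ.mc (m :: u) ⊤) ∈ nf (τ.mc (m :: u)) (m :: u) := by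
            unfold nf
            exact Finset.mem_union_right _ (Finset.mem_image.2 ⟨r, hr, rfl⟩)
          rw [Set.Finite.mem_toFinset] at hr
          obtain ⟨hr1, hr2, _⟩ := hr
          obtain ⟨h3, h4, h5⟩ := chd_spec hr2 hr1
          rw [hnc]
          have hon : On (m :: u) (.D r (some (chd univ r (m :: u))) (τ.mc (m :: u) ⊤)) := by
            refine ⟨hr2.suffix, ?_⟩
            intro v hv
            rw [← Option.some.inj hv]
            exact ⟨chd_suffix, h4, h3⟩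
          have h1 := hloc (.D r (some (chd univ r (m :: u))) (τ.mc (m :: u) ⊤)) hon
            (fun i hi => by
                rw [xb12_cls_none τ hi]
                exact Gd_oc τ (i₀ := none) rfl hTop none rfl)
          have hle : H.eA ≤ ((g.wr R).wS (m :: u) S D e).exz (chd univ r (m :: u)) := by
            by_cases h : chd univ r (m :: u) = m :: u
            · rw [h, hzw]
              exact B.he.eA
            · rw [hzu _ h]
              exact (I.i2.eA _ (I.i1.mem_of_suffix hu (xb12_suffix chd_suffix h))).1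
          have h2 : N ∩ Z' ⊆ N ∩ clo H.ξ (((g.wr R).wS (m :: u) S D e).exz (chd univ r (m :: u)))
              (H.G ((g.wr R).wS (m :: u) S D e)
                (.D r (some (chd univ r (m :: u))) (τ.mc (m :: u) ⊤))) :=
            inter_subset_inter_right N (hZS.trans (h0 _ hmem))
          exact (h2.trans (Cf.inter_clo H.hξ (hN1.mono hle))).trans (clo_mono h1)
      · intro h
        rw [hA] at h
        exact absurd h (by decide)
      · intro _
        exact ⟨hth1, hth2, (inter_subset_right.trans hZ').trans inter_subset_right, rfl⟩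
  · -- constant
    refine ⟨((g.wr R).wS (m :: u) S D e).reg, S, ⊤, B.hS.o, B.hS.ne, ?_, hvia, ?_, fun _ _ => rfl, fun _ => rfl, ?_⟩
    · rw [hSw]
    · have hnm : τ.nc (m :: u) = τ.mc (m :: u) := funext fun k => nc_eq_const τ hA k
      rw [hnm]
      exact h0
    · intro h
      rw [hA] at h
      exact absurd h (by decide)

end Pool.Agent.Bsw
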