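import Pool.Agent.Bsw.Ext2

/-!
# Extension step, part 3: the cell of the new node, the final configuration
-/

set_option autoImplicit false

open Set Filter Topology TopologicalSpace
open scoped Classical

namespace Pool.Agent.Bsw

variable {Q : Par} {τ : Ty Q}

/-- The conditions on the exponent `exf w`. -/
structure FOk (H : Hyp Q τ) (ex : Q.L → Ordinal.{0}) (w : Nd Q) (ecw e : Ordinal.{0}) : Prop where
  one : 1 ≤ e
  kap : e < Q.kap
  md : Q.md = true → e = Q.o ⊤
  lt : ∀ k, k ≠ ⊤ → Q.ι k ≤ w.length → ex k < e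
  eA : H.eA ≤ e
  eB : H.eB ≤ e
  ec : τ.cl ≠ 0 → τ.cB = false → τ.DB w ≠ Iio ⊤ → ecw ≤ e

/-- The situation before the cell step. -/
structure CIn (H : Hyp Q τ) (T : Finset (Nd Q)) (g : Cfg Q H.P) (w : Nd Q) (S : Set H.P) (et jj : Clopens CC) :
    Prop where
  ok : ∀ v ∈ T, Ok v
  oS : ∀ w, IsOpen (g.S w)
  oD : ∀ w, IsOpen (g.D w)
  oC : ∀ w, IsOpen (g.C w)
  oE : IsOpen g.E
  sE : g.E ⊆ H.E0
  adm : H.Adm g.ex
  o : IsOpen S
  ne : S.Nonempty
  sS : S ⊆ H.S0
  SE : S ⊆ clo H.ξ (Q.kap + 1) g.E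
  via : Via H T g
  hh : τ.cl = 1 → ∀ v ∈ T, g.E ∩ H.f ⁻¹' (g.hh v) = ∅
  nf : ∀ σ ∈ nf (τ.nc w) w, S ⊆ clo H.ξ (lvl g σ) (H.G g σ)
  c0 : τ.cl = 0 → S ⊆ clo H.ξ (Q.kap + 1) (g.E ∩ H.f ⁻¹' et)
  c2 : τ.cl = 2 → S ⊆ clo H.ξ (Q.kap + 1) (g.E ∩ H.f ⁻¹' jj)

/-- Remove a region from the set `E` (class I). -/
noncomputable def Cfg.wE {P : Type} (τ : Ty Q) (f : P → CC) (g : Cfg Q P) (hh : Clopens CC) : Cfg Q P :=
  { g with E := if τ.cl = 1 then g.E \ f ⁻¹' hh else g.E }

/-- The result of the cell step: the set `C w = C`, the new exponents `ex`, `ec w = ecw`, `exf w = e`, the final set `S w = S₃`. -/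
structure COut (H : Hyp Q τ) (T : Finset (Nd Q)) (g : Cfg Q H.P) (w : Nd Q) (S : Set H.P) (et jj : Clopens CC)
    (ex : Q.L → Ordinal.{0}) (C S₃ : Set H.P) (hh : Clopens CC) (ecw e : Ordinal.{0}) : Prop where
  ext : H.Ext w.length g.ex ex
  oC : IsOpen C
  neC : C.Nonempty
  sC : C ⊆ g.E
  o : IsOpen S₃
  ne : S₃.Nonempty
  sub : S₃ ⊆ S
  SC : S₃ ⊆ clo H.ξ e C
  CS : C ⊆ clo H.ξ Q.kap S₃
  fe : FOk H ex w ecw e
  cell : τ.cl ≠ 0 → H.CellP ex w ecw C
  c0 : τ.cl = 0 → C ⊆ H.f ⁻¹' et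
  c1 : τ.cl = 1 → C ⊆ H.f ⁻¹' hh ∧ ∀ v ∈ T, Disjoint hh (g.hh v)
  c2 : τ.cl = 2 → C ⊆ H.f ⁻¹' jj
  SE : S₃ ⊆ clo H.ξ (Q.kap + 1) (g.wE τ H.f hh).E
  via : Via H T (g.wE τ H.f hh)
  nf : ∀ σ ∈ nf (τ.nc w) w, S₃ ⊆ clo H.ξ (lvl g σ) (H.G (g.wE τ H.f hh) σ)

/-- MODULE xc1 (size 1): tools.

`clo_rich`: let `N` be a test set of order `κ` meeting `S` (`subset_clo_iff`): `clo κ (N ∩ S)` is a test set of order `κ + 1`, it meets `S`, so it meets `E`; and `clo κ (N ∩ S) ⊆ N ∩ clo κ S` for a test set `N` of order `κ` (`N = univ`; `clo_preimage`; `clo κ N ⊆ clo k' N = N`).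
`exists_FOk`: as `exists_EOk` (`exists_exp`; classes I, II: `CellP.cin`).
`shrink_S`: `clo e C` is a test set of order `κ` containing `C`; it meets `S`, and `C ⊆ clo e C ∩ clo κ S ⊆ clo κ (S ∩ clo e C)`. -/
theorem clo_rich {P X : Type} [TopologicalSpace P] [TopologicalSpace X] {ξ : P → X} (hξ : Continuous ξ)
    {κ : Ordinal.{0}} {S E : Set P} (hS : IsOpen S) (h : S ⊆ clo ξ (κ + 1) E) :
    S ⊆ clo ξ κ (E ∩ clo ξ κ S) := by
  refine (subset_clo_iff hS).2 fun N hN hne => ?_
  have hNo := Cf.isOpen hξ hN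
  have h1 : Cf ξ (κ + 1) (clo ξ κ (N ∩ S)) := Cf_clo (Order.lt_add_one_iff.2 le_rfl) _
  have h2 : (clo ξ κ (N ∩ S) ∩ S).Nonempty := by
    obtain ⟨x, hx⟩ := hne
    exact ⟨x, subset_clo (hNo.inter hS) hx, hx.2⟩
  obtain ⟨z, hz1, hz2⟩ := (subset_clo_iff hS).1 h _ h1 h2
  refine ⟨z, ?_, hz2, clo_mono inter_subset_right hz1⟩
  have h3 : z ∈ clo ξ κ N := clo_mono inter_subset_left hz1
  rcases hN with hN | ⟨hk, U, hU, hN⟩ | ⟨k', hk', -, hN⟩
  · rw [hN]
    exact mem_univ z
  · rw [hN, clo_preimage hξ hk hU] at h3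
    rw [hN]
    exact h3
  · have h4 := clo_anti hk'.le N h3
    rwa [hN] at h4

theorem exists_FOk (H : Hyp Q τ) {ex : Q.L → Ordinal.{0}} (hadm : H.Adm ex) {w : Nd Q} {ecw : Ordinal.{0}}
    {C : Set H.P} (hc : τ.cl ≠ 0 → H.CellP ex w ecw C) : ∃ e, FOk H ex w ecw e := by
  have hfin : {k : Q.L | k ≠ ⊤ ∧ Q.ι k ≤ w.length}.Finite := by
    refine Set.Finite.subset ((Set.finite_Iic w.length).preimage Q.ι_inj.injOn) ?_
    intro k hk
    exact hk.2
  by_cases hm : Q.md = true
  · have hk : Q.kap = Q.o ⊤ + 1 := by rw [Par.kap, if_pos hm]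
    obtain ⟨e, h1, h2, h3, h4⟩ := exists_exp Q (hfin.toFinset.image ex) (by
      intro x hx
      obtain ⟨k, hk', rfl⟩ := Finset.mem_image.1 hx
      have hk2 := (hfin.mem_toFinset.1 hk').1
      have h5 := H.adm_lt _ hadm k hk2
      refine ⟨lt_of_le_of_lt le_self_add h5, fun _ => ?_⟩
      rw [hk] at h5
      exact Order.add_one_le_iff.1 (Order.lt_add_one_iff.1 h5))
    have h5 := h3 hm
    refine ⟨e, ?_⟩
    exact
      { one := h1
        kap := h2
        md := h3
        lt := fun k hk1 hk2 => h4 _ (Finset.mem_image_of_mem _ (hfin.mem_toFinset.2 ⟨hk1, hk2⟩))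
        eA := by
          have h6 := H.eA_lt
          rw [hk] at h6
          rw [h5]
          exact Order.lt_add_one_iff.1 h6
        eB := by
          have h6 := H.eB_lt
          rw [hk] at h6
          rw [h5]
          exact Order.lt_add_one_iff.1 h6
        ec := by
          intro h6 h7 h8
          have h9 := ((hc h6).cin h7 h8).1
          rw [hk] at h9
          rw [h5]
          exact le_self_add.trans (Order.lt_add_one_iff.1 h9) }
  · obtain ⟨e, h1, h2, h3, h4⟩ := exists_exp Q (hfin.toFinset.image ex ∪ {H.eA, H.eB} ∪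
        (if τ.cl ≠ 0 ∧ τ.cB = false ∧ τ.DB w ≠ Iio ⊤ then {ecw} else ∅)) (by
      intro x hx
      refine ⟨?_, fun h => absurd h hm⟩
      rcases Finset.mem_union.1 hx with hx | hx
      · rcases Finset.mem_union.1 hx with hx | hx
        · obtain ⟨k, hk', rfl⟩ := Finset.mem_image.1 hx
          have hk2 := (hfin.mem_toFinset.1 hk').1
          exact lt_of_le_of_lt le_self_add (H.adm_lt _ hadm k hk2)
        · rcases Finset.mem_insert.1 hx with rfl | hx
          · exact H.eA_lt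
          · rw [Finset.mem_singleton.1 hx]
            exact H.eB_lt
      · split_ifs at hx with h5
        · rw [Finset.mem_singleton.1 hx]
          exact lt_of_le_of_lt le_self_add ((hc h5.1).cin h5.2.1 h5.2.2).1
        · exact absurd hx (Finset.notMem_empty _))
    refine ⟨e, ?_⟩
    exact
      { one := h1
        kap := h2
        md := h3
        lt := fun k hk1 hk2 => h4 _ (Finset.mem_union_left _ (Finset.mem_union_left _
          (Finset.mem_image_of_mem _ (hfin.mem_toFinset.2 ⟨hk1, hk2⟩))))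
        eA := (h4 _ (Finset.mem_union_left _ (Finset.mem_union_right _ (by simp)))).le
        eB := (h4 _ (Finset.mem_union_left _ (Finset.mem_union_right _ (by simp)))).le
        ec := by
          intro h6 h7 h8
          refine (h4 _ (Finset.mem_union_right _ ?_)).le
          rw [if_pos ⟨h6, h7, h8⟩]
          exact Finset.mem_singleton_self _ }

theorem shrink_S {P X : Type} [TopologicalSpace P] [TopologicalSpace X] {ξ : P → X} (hξ : Continuous ξ)
    {κ e : Ordinal.{0}} (he : e < κ) {S C : Set P} (hC : IsOpen C) (hne : C.Nonempty) (h : C ⊆ clo ξ κ S) :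
    (S ∩ clo ξ e C).Nonempty ∧ C ⊆ clo ξ κ (S ∩ clo ξ e C) := by
  have h1 : Cf ξ κ (clo ξ e C) := Cf_clo he C
  have h2 : C ⊆ clo ξ e C := subset_clo hC
  constructor
  · obtain ⟨x, hx⟩ := hne
    have h3 := meets_clo h1 ⟨x, h2 hx, h hx⟩
    rwa [inter_comm] at h3
  · have h3 : C ⊆ clo ξ e C ∩ clo ξ κ S := subset_inter h2 h
    have h4 := h3.trans (Cf.inter_clo hξ h1)
    rwa [inter_comm (clo ξ e C) S] at h4

/-- MODULE xc2 (size 2): the cell step in the classes III and II.  (`g.wE = g`, `hh` arbitrary.)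

Class III: `C = g.E ∩ f ⁻¹' et ∩ clo kap S` (`clo_rich`: `S ⊆ clo kap C`, so `C ≠ ∅`), `ex = g.ex`, `ecw = 0`, `exists_FOk`, `S₃ = S` (`clo kap C ⊆ clo e C`).
Class II: `cellII` for the pair `(S, g.E ∩ f ⁻¹' jj)`: `ex`, `ecw`, `C`; `exists_FOk`, `S₃ = S ∩ clo e C` (`shrink_S`). -/
theorem cstep_02 (H : Hyp Q τ) (hC : H.Cls) {T : Finset (Nd Q)} {g : Cfg Q H.P} {w : Nd Q} {S : Set H.P}
    {et jj : Clopens CC} (h1 : τ.cl ≠ 1) (K : CIn H T g w S et jj) :
    ∃ ex C S₃ hh ecw e, COut H T g w S et jj ex C S₃ hh ecw e := by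
  have hwE : ∀ hh, g.wE τ H.f hh = g := by
    intro hh
    unfold Cfg.wE
    rw [if_neg h1]
  have h02 : τ.cl = 0 ∨ τ.cl = 2 := by
    have h3 : ∀ c : Fin 3, c ≠ 1 → c = 0 ∨ c = 2 := by decide
    exact h3 _ h1
  rcases h02 with h0 | h2
  · have hS := K.c0 h0
    have hr := clo_rich H.hξ K.o hS
    have hCo : IsOpen (g.E ∩ H.f ⁻¹' et ∩ clo H.ξ Q.kap S) :=
      (K.oE.inter (et.isClopen.isOpen.preimage H.hf)).inter (isOpen_clo _ _ _)
    have hCne : (g.E ∩ H.f ⁻¹' et ∩ clo H.ξ Q.kap S).Nonempty := by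
      by_contra hemp
      rw [Set.not_nonempty_iff_eq_empty] at hemp
      rw [hemp, clo_empty] at hr
      obtain ⟨x, hx⟩ := K.ne
      exact hr hx
    obtain ⟨e, he⟩ := exists_FOk H K.adm (w := w) (ecw := 0) (C := S) (fun h => absurd h0 h)
    refine ⟨g.ex, g.E ∩ H.f ⁻¹' et ∩ clo H.ξ Q.kap S, S, ⊤, 0, e, ?_⟩
    exact
      { ext := ⟨K.adm, fun _ _ => rfl, fun _ => le_rfl⟩
        oC := hCo
        neC := hCne
        sC := inter_subset_left.trans inter_subset_left
        o := K.o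
        ne := K.ne
        sub := Subset.rfl
        SC := hr.trans (clo_anti he.kap.le _)
        CS := inter_subset_right
        fe := he
        cell := fun h => absurd h0 h
        c0 := fun _ => inter_subset_left.trans inter_subset_right
        c1 := fun h => absurd h h1
        c2 := fun h => by
          rw [h0] at h
          exact absurd h (by decide)
        SE := by
          rw [hwE]
          exact K.SE
        via := by
          rw [hwE]
          exact K.via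
        nf := by
          rw [hwE]
          exact K.nf }
  · have hP : H.Pair S (g.E ∩ H.f ⁻¹' jj) :=
      { oS := K.o
        oE := K.oE.inter (jj.isClopen.isOpen.preimage H.hf)
        ne := K.ne
        sS := K.sS
        sE := inter_subset_left.trans K.sE
        hclo := K.c2 h2 }
    obtain ⟨ex', hext, ecw, D, hDo, hDne, hDs, hcell⟩ := hC.cellII h2 w g.ex K.adm S _ hP
    obtain ⟨e, he⟩ := exists_FOk H hext.adm (w := w) (ecw := ecw) (C := D) (fun _ => hcell)
    obtain ⟨h3, h4⟩ := shrink_S H.hξ he.kap hDo hDne (hDs.trans inter_subset_right)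
    refine ⟨ex', D, S ∩ clo H.ξ e D, ⊤, ecw, e, ?_⟩
    exact
      { ext := hext
        oC := hDo
        neC := hDne
        sC := (hDs.trans inter_subset_left).trans inter_subset_left
        o := K.o.inter (isOpen_clo _ _ _)
        ne := h3
        sub := inter_subset_left
        SC := inter_subset_right
        CS := h4
        fe := he
        cell := fun _ => hcell
        c0 := fun h => by
          rw [h2] at h
          exact absurd h (by decide)
        c1 := fun h => absurd h h1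
        c2 := fun _ => (hDs.trans inter_subset_left).trans inter_subset_right
        SE := by
          rw [hwE]
          exact inter_subset_left.trans K.SE
        via := by
          rw [hwE]
          exact K.via
        nf := by
          rw [hwE]
          exact fun σ hσ => inter_subset_left.trans (K.nf σ hσ) }

/-- `A` is a good region (class I). -/
def Gud (H : Hyp Q τ) (w : Nd Q) (ex : Q.L → Ordinal.{0}) (E : Set H.P) (F : Clopens CC → Set H.P)
    (A : Clopens CC) : Prop :=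
  ∃ ex', H.Ext w.length ex ex' ∧ ∃ (e : Ordinal.{0}) (D : Set H.P), IsOpen D ∧ D.Nonempty ∧ D ⊆ E ∩ H.f ⁻¹' A ∧
    D ⊆ clo H.ξ Q.kap (F A) ∧ H.CellP ex' w e D

/-- MODULE xc3 (size 3): class I, one region.

`F A ⊆ S` open, of multiplicity at most `n` in `S`; `S' ⊆ S` open nonempty, `S' ⊆ clo (κ+1) (E \ f ⁻¹' Φ)`.  Then there is a good region `A` disjoint from `Φ` and an open nonempty `S'' ⊆ S'` with `S'' ⊆ clo (κ+1) (E \ f ⁻¹' (Φ ⊔ A))`.

Proof.  Suppose not.  By induction on `j` there are `j` pairwise disjoint (distinct) clopen sets `A_1, …, A_j`, all disjoint from `Φ`, and an open nonempty `S_j ⊆ S'` with `S_j ⊆ clo (κ+1) (E \ f ⁻¹' Φ_j)`, `Φ_j = Φ ⊔ A_1 ⊔ … ⊔ A_j`, `S_j ∩ F A_i = ∅`.  Given `S_j`: `cellI` for the pair `(S_j, E \ f ⁻¹' Φ_j)` and `w`, `ex`: `ex'`, `A`, `e`, `D`.  Let `A_(j+1) = A \ Φ_j`: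
`D ⊆ E ∩ f ⁻¹' A_(j+1)` (so `A_(j+1) ≠ ⊥` is different from the others), `E \ f ⁻¹' Φ_j \ f ⁻¹' A = E \ f ⁻¹' Φ_(j+1)`, `D ⊆ clo κ (S_j ∩ clo (κ+1) (E \ f ⁻¹' Φ_(j+1)))`.  If `D ∩ clo κ (F A_(j+1)) ≠ ∅` then `A_(j+1)` is good (with `D' = D ∩ clo κ (F A_(j+1))`, `CellP.mono`) and `S'' = S_j ∩ clo (κ+1) (E \ f ⁻¹' Φ_(j+1)) ≠ ∅` (it is contained in `clo (κ+1) (E \ f ⁻¹' (Φ ⊔ A_(j+1)))`).
Otherwise there is a test set `M` of order `κ` with `M ∩ D ≠ ∅`, `M ∩ F A_(j+1) = ∅` (`exists_Cf_of_disjoint`), and `S_(j+1) = M ∩ S_j ∩ clo (κ+1) (E \ f ⁻¹' Φ_(j+1)) ≠ ∅`.  For `j = n + 1` this contradicts the multiplicity of `F`. -/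
theorem Hyp.CellP.mono {H : Hyp Q τ} {ex : Q.L → Ordinal.{0}} {w : Nd Q} {e : Ordinal.{0}} {C C' : Set H.P}
    (h : H.CellP ex w e C) (h' : C' ⊆ C) : H.CellP ex w e C' := by
  exact
    { ctrue := fun hB x hx y hy => h.ctrue hB x (h' hx) y (h' hy)
      out := fun hB D hD ho hne => h.out hB D (hD.trans h') ho hne
      cin := fun hB hd => ⟨(h.cin hB hd).1, Co.mono le_rfl h' (h.cin hB hd).2.1, (h.cin hB hd).2.2⟩ }

theorem av_one (H : Hyp Q τ) (hC : H.Cls) (h1 : τ.cl = 1) {w : Nd Q} {ex : Q.L → Ordinal.{0}} (hex : H.Adm ex)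
    {S E : Set H.P} (oE : IsOpen E) (sS : S ⊆ H.S0) (sE : E ⊆ H.E0) {n : ℕ} {F : Clopens CC → Set H.P}
    (hM : Mul (fun t t' : Clopens CC => Disjoint t t') n S F) {Φ : Clopens CC} {S' : Set H.P} (hS' : S' ⊆ S)
    (oS' : IsOpen S') (neS' : S'.Nonempty) (hΦ : S' ⊆ clo H.ξ (Q.kap + 1) (E \ H.f ⁻¹' Φ)) :
    ∃ A : Clopens CC, Disjoint A Φ ∧ Gud H w ex E F A ∧ ∃ S'' ⊆ S', IsOpen S'' ∧ S''.Nonempty ∧
      S'' ⊆ clo H.ξ (Q.kap + 1) (E \ H.f ⁻¹' (Φ ⊔ A : Clopens CC)) := by
  by_contra hno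
  have key : ∀ j : ℕ, ∃ s : Finset (Clopens CC), s.card = j ∧
      (s : Set (Clopens CC)).Pairwise (fun t t' => Disjoint t t') ∧ ∃ Sj ⊆ S', IsOpen Sj ∧ Sj.Nonempty ∧
        Sj ⊆ clo H.ξ (Q.kap + 1) (E \ H.f ⁻¹' (Φ ⊔ s.sup id : Clopens CC)) ∧ ∀ A ∈ s, Sj ∩ F A = ∅ := by
    intro j
    induction j with
    | zero =>
      refine ⟨∅, rfl, by simp, S', Subset.rfl, oS', neS', ?_, by simp⟩
      rw [Finset.sup_empty, sup_bot_eq]
      exact hΦ
    | succ j ih =>
      obtain ⟨s, hcard, hpair, Sj, hSj, oSj, neSj, hSjE, hSjF⟩ := ih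
      set Ψ : Clopens CC := Φ ⊔ s.sup id with hΨ
      have hP : H.Pair Sj (E \ H.f ⁻¹' Ψ) :=
        { oS := oSj
          oE := oE.sdiff (Ψ.isClopen.isClosed.preimage H.hf)
          ne := neSj
          sS := (hSj.trans hS').trans sS
          sE := sdiff_subset.trans sE
          hclo := hSjE }
      obtain ⟨ex', hext, A, e, D, hDo, hDne, hDs, hDc, hcell⟩ := hC.cellI h1 w ex hex Sj _ hP
      have hA' : Disjoint (A \ Ψ) Ψ := disjoint_sdiff_self_left
      have hDA : D ⊆ E ∩ H.f ⁻¹' ((A \ Ψ : Clopens CC) : Set CC) := by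
        intro x hx
        obtain ⟨⟨h3, h4⟩, h5⟩ := hDs hx
        exact ⟨h3, h5, h4⟩
      have hWo : IsOpen (Sj ∩ clo H.ξ (Q.kap + 1) ((E \ H.f ⁻¹' Ψ) \ H.f ⁻¹' A)) :=
        oSj.inter (isOpen_clo _ _ _)
      have hWs : ∀ Θ : Clopens CC, Θ ≤ Ψ ⊔ A → Sj ∩ clo H.ξ (Q.kap + 1) ((E \ H.f ⁻¹' Ψ) \ H.f ⁻¹' A) ⊆
          clo H.ξ (Q.kap + 1) (E \ H.f ⁻¹' Θ) := by
        intro Θ hΘ
        refine inter_subset_right.trans (clo_mono ?_)
        rintro x ⟨⟨h3, h4⟩, h5⟩
        refine ⟨h3, fun h6 => ?_⟩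
        rcases hΘ h6 with h7 | h7
        · exact h4 h7
        · exact h5 h7
      by_cases hg : (D ∩ clo H.ξ Q.kap (F (A \ Ψ))).Nonempty
      · exfalso
        apply hno
        refine ⟨A \ Ψ, hA'.mono_right le_sup_left, ⟨ex', hext, e, D ∩ clo H.ξ Q.kap (F (A \ Ψ)),
          hDo.inter (isOpen_clo _ _ _), hg, inter_subset_left.trans hDA, inter_subset_right,
          hcell.mono inter_subset_left⟩, _, inter_subset_left.trans hSj, hWo, ?_, hWs _ ?_⟩
        · by_contra hemp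
          rw [Set.not_nonempty_iff_eq_empty] at hemp
          rw [hemp, clo_empty] at hDc
          obtain ⟨x, hx⟩ := hDne
          exact hDc hx
        · exact sup_le_sup le_sup_left sdiff_le
      · rw [Set.not_nonempty_iff_eq_empty] at hg
        obtain ⟨M, hM', hMD, hMF⟩ := exists_Cf_of_disjoint hDo hDne hg
        have hAs : A \ Ψ ∉ s := by
          intro hmem
          have h3 : A \ Ψ ≤ Ψ := (Finset.le_sup (f := id) hmem).trans le_sup_right
          have h4 : A \ Ψ = ⊥ := by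
            have h5 := hA'.mono_right h3
            exact disjoint_self.1 h5
          obtain ⟨x, hx⟩ := hDne
          have h5 := (hDA hx).2
          rw [h4] at h5
          exact h5
        refine ⟨insert (A \ Ψ) s, ?_, ?_, M ∩ (Sj ∩ clo H.ξ (Q.kap + 1) ((E \ H.f ⁻¹' Ψ) \ H.f ⁻¹' A)),
          (inter_subset_right.trans inter_subset_left).trans hSj, (Cf.isOpen H.hξ hM').inter hWo, ?_, ?_, ?_⟩
        · rw [Finset.card_insert_of_notMem hAs, hcard]
        · rw [Finset.coe_insert]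
          refine hpair.insert ?_
          intro B hB _
          have h3 : B ≤ Ψ := (Finset.le_sup (f := id) hB).trans le_sup_right
          exact ⟨hA'.mono_right h3, (hA'.mono_right h3).symm⟩
        · exact (subset_clo_iff hDo).1 hDc M hM' hMD
        · refine inter_subset_right.trans (hWs _ ?_)
          rw [Finset.sup_insert, id]
          refine sup_le ?_ (sup_le ?_ ?_)
          · exact le_sup_left.trans le_sup_left
          · exact sdiff_le.trans le_sup_right
          · exact le_sup_right.trans le_sup_left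
        · intro B hB
          rw [← Set.not_nonempty_iff_eq_empty]
          rintro ⟨x, ⟨hxM, hxS, -⟩, hxF⟩
          rcases Finset.mem_insert.1 hB with rfl | hB
          · have h3 : x ∈ M ∩ F (A \ Ψ) := ⟨hxM, hxF⟩
            rw [hMF] at h3
            exact h3
          · have h3 : x ∈ Sj ∩ F B := ⟨hxS, hxF⟩
            rw [hSjF B hB] at h3
            exact h3
  obtain ⟨s, hcard, hpair, Sj, hSj, oSj, neSj, -, hSjF⟩ := key (n + 1)
  obtain ⟨t, ht, hne⟩ := hM s hpair (by omega) Sj (hSj.trans hS') oSj neSj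
  rw [hSjF t ht] at hne
  exact Set.not_nonempty_empty hne

/-- MODULE xc4 (size 3): class I.

`av_many`: iterate `av_one` with `Φ = Φ₀ ⊔` the previous regions (good regions are nonempty, so disjoint ones are distinct).
`cstep_1`: `Φ₀ = ⨆_(v ∈ T) g.hh v`, `g.E \ f ⁻¹' Φ₀ = g.E`; `F A = S ∩ clo (κ+1) (g.E \ f ⁻¹' A) ∩ ⋂_(σ ∈ nf (nc w) w) clo (lvl g σ) (G (g.wE A) σ)`: finite multiplicity in `S` (`A ↦ E \ f ⁻¹' A` has multiplicity `1` in `E`: for disjoint `A, A'` an open set missing `E \ f ⁻¹' A` and `E \ f ⁻¹' A'` misses `E`; `GG_mul`, `Mul.clo`, `Mul.inter`, `Mul.biInter`, `Mul.mono`).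
The slots: for the finitely many `(v, m)`, `v ∈ T`, `Ok (m :: v)` (`finite_moves`), `m :: v ∉ T`, the set `G g (A ⊥ v none) ∩ ξ ⁻¹' U (m :: v)` is open nonempty and `A ↦ G (g.wE A) (A ⊥ v none) ∩ ξ ⁻¹' U (m :: v)` has finite multiplicity.  `av_many` with more options than the sum of the multiplicities, `Mul.exists_alive`: a good region `A = hh` with all slots alive.
`ex`, `ecw`, `C = D` from `Gud`; `exists_FOk` gives `e`; `S₃ = F A ∩ clo e C` (`shrink_S`). -/
theorem av_many (H : Hyp Q τ) (hC : H.Cls) (h1 : τ.cl = 1) {w : Nd Q} {ex : Q.L → Ordinal.{0}} (hex : H.Adm ex)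
    {S E : Set H.P} (oS : IsOpen S) (neS : S.Nonempty) (oE : IsOpen E) (sS : S ⊆ H.S0) (sE : E ⊆ H.E0) {n : ℕ}
    {F : Clopens CC → Set H.P} (hM : Mul (fun t t' : Clopens CC => Disjoint t t') n S F) {Φ : Clopens CC}
    (hΦ : S ⊆ clo H.ξ (Q.kap + 1) (E \ H.f ⁻¹' Φ)) (N : ℕ) :
    ∃ s : Finset (Clopens CC), s.card = N ∧ (s : Set (Clopens CC)).Pairwise (fun t t' => Disjoint t t') ∧
      ∀ A ∈ s, Disjoint A Φ ∧ Gud H w ex E F A := by
  have key : ∀ N : ℕ, ∃ (s : Finset (Clopens CC)) (Φ' : Clopens CC) (S' : Set H.P), s.card = N ∧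
      (s : Set (Clopens CC)).Pairwise (fun t t' => Disjoint t t') ∧
      (∀ A ∈ s, Disjoint A Φ ∧ Gud H w ex E F A) ∧ Φ ≤ Φ' ∧ (∀ A ∈ s, A ≤ Φ') ∧ S' ⊆ S ∧ IsOpen S' ∧
      S'.Nonempty ∧ S' ⊆ clo H.ξ (Q.kap + 1) (E \ H.f ⁻¹' Φ') := by
    intro N
    induction N with
    | zero =>
      refine ⟨∅, Φ, S, rfl, ?_, fun A hA => absurd hA (Finset.notMem_empty A), le_rfl,
        fun A hA => absurd hA (Finset.notMem_empty A), Subset.rfl, oS, neS, hΦ⟩
      intro t ht
      exact absurd ht (Finset.notMem_empty t)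
    | succ N ih =>
      obtain ⟨s, Φ', S', hcard, hpw, hs, hΦΦ, hsΦ, hS'S, oS', neS', hS'⟩ := ih
      obtain ⟨A, hAΦ, hA, S'', hS'', oS'', neS'', hcl⟩ :=
        av_one H hC h1 hex oE sS sE hM hS'S oS' neS' hS'
      have hAs : A ∉ s := by
        intro hAs
        obtain ⟨ex', _, e, D, _, ⟨x, hx⟩, hD, _⟩ := hA
        have h2 : A ≤ ⊥ := hAΦ le_rfl (hsΦ A hAs)
        exact h2 (hD hx).2
      refine ⟨insert A s, Φ' ⊔ A, S'', ?_, ?_, ?_, hΦΦ.trans le_sup_left, ?_, hS''.trans hS'S, oS'', neS'', hcl⟩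
      · rw [Finset.card_insert_of_notMem hAs, hcard]
      · rw [Finset.coe_insert]
        refine hpw.insert fun b hb _ => ?_
        have h2 : Disjoint A b := hAΦ.mono_right (hsΦ b hb)
        exact ⟨h2, h2.symm⟩
      · intro B hB
        rcases Finset.mem_insert.1 hB with rfl | hB
        · exact ⟨hAΦ.mono_right hΦΦ, hA⟩
        · exact hs B hB
      · intro B hB
        rcases Finset.mem_insert.1 hB with rfl | hB
        · exact le_sup_right
        · exact (hsΦ B hB).trans le_sup_left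
  obtain ⟨s, _, _, h2, h3, h4, _⟩ := key N
  exact ⟨s, h2, h3, h4⟩

private theorem xc4_lvl {P : Type} (g : Cfg Q P) (f : P → CC) (A : Clopens CC) : lvl (g.wE τ f A) = lvl g := by
  funext σ
  rcases σ with ⟨_ | e, p, c⟩ | ⟨r, _ | v, c⟩ | ⟨r, y⟩ | _ <;> rfl

private theorem xc4_E {P : Type} (h1 : τ.cl = 1) (g : Cfg Q P) (f : P → CC) (A : Clopens CC) :
    (g.wE τ f A).E = g.E \ f ⁻¹' A := if_pos h1

private theorem xc4_Emul {P : Type} [TopologicalSpace P] (f : P → CC) (E : Set P) :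
    Mul (fun t t' : Clopens CC => Disjoint t t') 1 E (fun A => E \ f ⁻¹' (A : Set CC)) := by
  refine (Mul.preimage f E univ).mono ?_ (fun t => ?_) le_rfl
  · rw [preimage_univ, inter_univ]
  · rintro x ⟨h1, h2⟩
    exact ⟨h1, h2.2⟩

private theorem xc4_oE (H : Hyp Q τ) {E : Set H.P} (oE : IsOpen E) (A : Clopens CC) :
    IsOpen (E \ H.f ⁻¹' (A : Set CC)) := by
  have h2 : E \ H.f ⁻¹' (A : Set CC) = E ∩ H.f ⁻¹' ((A : Set CC))ᶜ := rfl
  rw [h2]
  exact oE.inter (A.isClopen.compl.isOpen.preimage H.hf)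

private theorem xc4_G_mul (H : Hyp Q τ) (h1 : τ.cl = 1) {g : Cfg Q H.P} (oS : ∀ w, IsOpen (g.S w))
    (oD : ∀ w, IsOpen (g.D w)) (oC : ∀ w, IsOpen (g.C w)) (oE : IsOpen g.E) (σ : Sta Q) :
    ∃ n, Mul (fun t t' : Clopens CC => Disjoint t t') n (H.G g σ) (fun A => H.G (g.wE τ H.f A) σ) := by
  have hoE : ∀ A : Clopens CC, IsOpen (g.wE τ H.f A).E := fun A => by
    rw [xc4_E h1]
    exact xc4_oE H oE A
  have h2 := GG_mul (T := TT τ) (ξ := H.ξ) (lv := lvl g) (B := bse τ H.f g)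
    (B' := fun A : Clopens CC => bse τ H.f (g.wE τ H.f A))
    (r := fun t t' : Clopens CC => Disjoint t t') H.hξ (R := univ) (fun _ _ _ _ => mem_univ _)
    (isOpen_bse H oS oD oC oE)
    (fun A => isOpen_bse H (g := g.wE τ H.f A) oS oD oC (hoE A))
    (fun σ _ => by
      have hc : ∀ K : Set H.P, ∃ n, Mul (fun t t' : Clopens CC => Disjoint t t') n K (fun _ => K) :=
        fun K => ⟨0, Mul.const K⟩
      cases σ with
      | A k p c => exact hc (g.S p)
      | D r v c =>
        cases v with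
        | none => exact hc (g.C r ∩ _)
        | some v => exact hc (g.D v ∩ _)
      | S r y => exact hc (g.S r ∩ _)
      | E =>
        refine ⟨1, ?_⟩
        have h3 : (fun A : Clopens CC => bse τ H.f (g.wE τ H.f A) .E) =
            fun A : Clopens CC => g.E \ H.f ⁻¹' (A : Set CC) := by
          funext A
          exact xc4_E h1 g H.f A
        rw [h3]
        exact xc4_Emul H.f g.E) (mem_univ σ)
  obtain ⟨n, hn⟩ := h2
  refine ⟨n, ?_⟩
  have h4 : (fun A : Clopens CC => H.G (g.wE τ H.f A) σ) =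
      fun A => GG (TT τ) H.ξ (lvl g) (bse τ H.f (g.wE τ H.f A)) σ := by
    funext A
    unfold Hyp.G
    rw [xc4_lvl]
  rw [h4]
  exact hn

theorem cstep_1 (H : Hyp Q τ) (hC : H.Cls) {T : Finset (Nd Q)} {g : Cfg Q H.P} {w : Nd Q} {S : Set H.P}
    {et jj : Clopens CC} (h1 : τ.cl = 1) (K : CIn H T g w S et jj) :
    ∃ ex C S₃ hh ecw e, COut H T g w S et jj ex C S₃ hh ecw e := by
  classical
  choose n hnn using fun σ : Sta Q => xc4_G_mul H h1 K.oS K.oD K.oC K.oE σ
  have hoG : ∀ σ : Sta Q, IsOpen (H.G g σ) := fun σ =>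
    isOpen_GG (T := TT τ) (isOpen_bse H K.oS K.oD K.oC K.oE) σ
  -- the region already used
  have hΦ : S ⊆ clo H.ξ (Q.kap + 1) (g.E \ H.f ⁻¹' (T.sup g.hh : Clopens CC)) := by
    refine K.SE.trans (clo_mono fun x hx => ⟨hx, fun hx2 => ?_⟩)
    have h3 : ∀ T' ⊆ T, H.f x ∉ (T'.sup g.hh : Clopens CC) := by
      intro T'
      induction T' using Finset.induction_on with
      | empty =>
        intro _ h
        rw [Finset.sup_empty] at h
        exact h
      | insert a T' _ ih =>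
        intro hsub h
        rw [Finset.sup_insert] at h
        rcases h with h | h
        · have h4 : x ∈ g.E ∩ H.f ⁻¹' (g.hh a) := ⟨hx, h⟩
          rw [K.hh h1 a (hsub (Finset.mem_insert_self a T'))] at h4
          exact h4
        · exact ih (fun b hb => hsub (Finset.mem_insert_of_mem hb)) h
    exact h3 T (Finset.Subset.refl T) hx2
  -- the family
  let F : Clopens CC → Set H.P := fun A => (S ∩ clo H.ξ (Q.kap + 1) (g.E \ H.f ⁻¹' (A : Set CC))) ∩
    ⋂ σ ∈ nf (τ.nc w) w, clo H.ξ (lvl g σ) (H.G (g.wE τ H.f A) σ)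
  have hFo : ∀ A, IsOpen (F A) := fun A =>
    (K.o.inter (isOpen_clo _ _ _)).inter (isOpen_biInter_finset fun σ _ => isOpen_clo _ _ _)
  have hFM : Mul (fun t t' : Clopens CC => Disjoint t t') ((0 + 1) + ∑ σ ∈ nf (τ.nc w) w, n σ) S F := by
    have m1 : Mul (fun t t' : Clopens CC => Disjoint t t') (0 + 1) (S ∩ clo H.ξ (Q.kap + 1) g.E)
        (fun A => S ∩ clo H.ξ (Q.kap + 1) (g.E \ H.f ⁻¹' (A : Set CC))) :=
      Mul.inter (Mul.const S) (Mul.clo H.hξ K.oE (xc4_Emul H.f g.E)) (fun _ => isOpen_clo _ _ _)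
    have m2 : Mul (fun t t' : Clopens CC => Disjoint t t') (∑ σ ∈ nf (τ.nc w) w, n σ)
        (⋂ σ ∈ nf (τ.nc w) w, clo H.ξ (lvl g σ) (H.G g σ))
        (fun A => ⋂ σ ∈ nf (τ.nc w) w, clo H.ξ (lvl g σ) (H.G (g.wE τ H.f A) σ)) := by
      refine Mul.biInter (nf (τ.nc w) w) (K := fun σ => clo H.ξ (lvl g σ) (H.G g σ))
        (F := fun σ (A : Clopens CC) => clo H.ξ (lvl g σ) (H.G (g.wE τ H.f A) σ)) ?_ ?_
      · intro σ _
        exact Mul.clo H.hξ (hoG σ) (hnn σ)
      · intro σ _ t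
        exact isOpen_clo _ _ _
    have m3 := Mul.inter m1 m2 (fun _ => isOpen_biInter_finset fun σ _ => isOpen_clo _ _ _)
    exact m3.mono (subset_inter (subset_inter Subset.rfl K.SE) (subset_iInter₂ K.nf)) (fun _ => Subset.rfl) le_rfl
  -- the slots
  have hfin : {w : Nd Q | ∃ v ∈ T, ∃ m', w = m' :: v ∧ Ok w ∧ w ∉ T}.Finite := by
    refine (T.finite_toSet.biUnion fun v hv => (finite_moves (K.ok v hv)).image fun m' => m' :: v).subset ?_
    rintro w ⟨v, hv, m', rfl, hok, _⟩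
    exact mem_biUnion hv ⟨m', hok, rfl⟩
  obtain ⟨s, hsc, hsp, hs⟩ := av_many H hC h1 (w := w) K.adm K.o K.ne K.oE K.sS K.sE hFM hΦ
    (∑ w ∈ hfin.toFinset, n (.A ⊥ w.tail (fun _ => none)) + 1)
  obtain ⟨A, hA, hal⟩ := Mul.exists_alive (r := fun t t' : Clopens CC => Disjoint t t') hfin.toFinset
    (n := fun w => n (.A ⊥ w.tail (fun _ => none)))
    (K := fun w => H.G g (.A ⊥ w.tail (fun _ => none)) ∩ H.ξ ⁻¹' (g.U w))
    (F := fun w (A : Clopens CC) => H.G (g.wE τ H.f A) (.A ⊥ w.tail (fun _ => none)) ∩ H.ξ ⁻¹' (g.U w))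
    (by
      intro w _
      have h2 := Mul.inter (hnn (.A ⊥ w.tail (fun _ => none)))
        (Mul.const (r := fun t t' : Clopens CC => Disjoint t t') (H.ξ ⁻¹' (g.U w : Set CC)))
        (fun _ => (g.U w).isClopen.isOpen.preimage H.hξ)
      exact h2)
    (by
      intro w hw
      obtain ⟨v, hvT, m', rfl, hok, hwT⟩ := hfin.mem_toFinset.1 hw
      exact ⟨(hoG _).inter ((g.U _).isClopen.isOpen.preimage H.hξ), K.via v hvT m' hok hwT⟩)
    s hsp (by omega)
  obtain ⟨hAΦ, ex', hext, ecw, D, oD, neD, hDE, hDF, hcell⟩ := hs A hA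
  obtain ⟨e, he⟩ := exists_FOk H hext.adm (w := w) (ecw := ecw) (C := D) (fun _ => hcell)
  obtain ⟨hne, hcl⟩ := shrink_S H.hξ he.kap oD neD hDF
  refine ⟨ex', D, F A ∩ clo H.ξ e D, A, ecw, e, ?_⟩
  exact
    { ext := hext
      oC := oD
      neC := neD
      sC := fun x hx => (hDE hx).1
      o := (hFo A).inter (isOpen_clo _ _ _)
      ne := hne
      sub := fun x hx => hx.1.1.1
      SC := inter_subset_right
      CS := hcl
      fe := he
      cell := fun _ => hcell
      c0 := fun h => absurd (h1.symm.trans h) (by decide)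
      c1 := fun _ => ⟨fun x hx => (hDE hx).2, fun v hv => hAΦ.mono_right (Finset.le_sup (f := g.hh) hv)⟩
      c2 := fun h => absurd (h1.symm.trans h) (by decide)
      SE := by
        rw [xc4_E h1]
        exact fun x hx => hx.1.1.2
      via := by
        intro v hvT m' hok hmT
        have h4 := hal (m' :: v) (hfin.mem_toFinset.2 ⟨v, hvT, m', rfl, hok, hmT⟩)
        exact h4.mono inter_subset_right
      nf := fun σ hσ x hx => mem_iInter₂.1 hx.1.2 σ hσ }

theorem cstep (H : Hyp Q τ) (hC : H.Cls) {T : Finset (Nd Q)} {g : Cfg Q H.P} {w : Nd Q} {S : Set H.P}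
    {et jj : Clopens CC} (K : CIn H T g w S et jj) :
    ∃ ex C S₃ hh ecw e, COut H T g w S et jj ex C S₃ hh ecw e := by
  by_cases h1 : τ.cl = 1
  · exact cstep_1 H hC h1 K
  · exact cstep_02 H hC h1 K

/-- MODULE xc5 (size 2): the fresh state and the new slots.

`an_own`: the key of the cell `w` at `w` is `w` (class III: `[]` if constant; `w` otherwise).
`freshD`: `subset_GG`.  Base set: key `an (some w) w` (`⊤ ∉ DB w`).  The transition to `S w x`, `x = an none w` in both cases: `G_S`: `G g (S w x) = S w` by `hSr`, `hSE`, so `C w ⊆ clo kap (S w)`.  The transitions to `D r' (some (chd univ r' w)) (nc w ⊤)`, `r' ∈ rdd w` (successor mode, so `exz = o ⊤ ≤ kap`: `hz`): `C w ⊆ clo kap (S w) ⊆ clo kap (clo (exz ..) (G ..)) = clo (exz ..) (G ..)`.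
`aliveA`: `subset_GG`: the transitions of `A ⊥ w none` are the states of `nf (nc w) w` and `D w none (nc w ⊤)` (`upd_none`, `mem_trs_A`); `S w ⊆ clo (exf w) (C w)`. -/
theorem an_own (τ : Ty Q) (w : Nd Q) : τ.an (some w) w = if τ.cB = true ∧ τ.cl = 0 then [] else w := by
  have h3 : anr (τ.DB w) w w = w := by
    rcases anr_spec (τ.DB w) w w with ⟨h, _⟩ | ⟨h1, h2, h3, _⟩
    · exact h
    · have h4 := q_length_lt (univ : Set Q.L) h1
      rw [h2] at h4
      exact absurd h3.suffix.length_le (by omega)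
  unfold Ty.an
  simp only
  by_cases hB : τ.cB = true
  · by_cases h0 : τ.cl = 0
    · rw [if_pos hB, if_pos h0, if_pos ⟨hB, h0⟩]
    · rw [if_pos hB, if_neg h0, if_neg (fun h : τ.cB = true ∧ τ.cl = 0 => h0 h.2)]
  · rw [if_neg hB, if_neg (fun h : τ.cB = true ∧ τ.cl = 0 => hB h.1)]
    by_cases h0 : τ.cl = 0
    · rw [if_pos h0]
    · rw [if_neg h0, h3]

theorem freshD (H : Hyp Q τ) {g : Cfg Q H.P} {w : Nd Q} (oS : IsOpen (g.S w)) (oC : IsOpen (g.C w))
    (hCr : g.C w ⊆ H.f ⁻¹' (g.reg (τ.cls (some w)) (τ.an (some w) w))) (hCS : g.C w ⊆ clo H.ξ Q.kap (g.S w))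
    (hSr : g.S w ⊆ H.f ⁻¹' (g.reg none (τ.an none w))) (hSE : g.S w ⊆ clo H.ξ (Q.kap + 1) g.E)
    (hr : ∀ r' ∈ rdd w, g.exz (chd univ r' w) ≤ Q.kap ∧
      g.S w ⊆ clo H.ξ (g.exz (chd univ r' w)) (H.G g (.D r' (some (chd univ r' w)) (τ.nc w ⊤)))) :
    g.C w ⊆ H.G g (.D w none (τ.nc w ⊤)) := by
  have hkey : ((τ.nc w ⊤ (some w)).getD (τ.an (some w) w)) = τ.an (some w) w := by
    unfold Ty.nc
    split_ifs <;> rfl
  have hkeyn : ((τ.nc w ⊤ none).getD (τ.an none w)) = τ.an none w := by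
    unfold Ty.nc
    split_ifs <;> rfl
  refine subset_GG (T := TT τ) ?_ ?_
  · show g.C w ⊆ g.C w ∩ H.f ⁻¹' (g.reg (τ.cls (some w)) ((τ.nc w ⊤ (some w)).getD (τ.an (some w) w)))
    rw [hkey]
    exact subset_inter Subset.rfl hCr
  · intro σ' hσ'
    rcases (mem_trs_D (τ := τ) (r := w) (v := none) (c := τ.nc w ⊤) (σ := σ')).1 hσ' with rfl | ⟨r', hr', rfl⟩
    · rw [hkeyn]
      have h2 : g.S w ⊆ H.G g (.S w (τ.an none w)) := by
        rw [G_S]
        exact subset_inter (subset_inter Subset.rfl hSr) hSE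
      exact hCS.trans (clo_mono h2)
    · obtain ⟨h2, h3⟩ := hr r' hr'
      exact (hCS.trans (clo_mono h3)).trans (clo_clo_of_le h2 _).subset

theorem aliveA (H : Hyp Q τ) {g : Cfg Q H.P} {w : Nd Q} (oS : IsOpen (g.S w))
    (hC : g.C w ⊆ H.G g (.D w none (τ.nc w ⊤))) (hS : g.S w ⊆ clo H.ξ (g.exf w) (g.C w))
    (hnf : ∀ σ ∈ nf (τ.nc w) w, g.S w ⊆ clo H.ξ (lvl g σ) (H.G g σ)) :
    g.S w ⊆ H.G g (.A ⊥ w (fun _ => none)) := by
  refine subset_GG (T := TT τ) Subset.rfl ?_
  intro σ' hσ'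
  rcases (mem_trs_A (τ := τ) (k := ⊥) (p := w) (c := fun _ => none) (σ := σ')).1 hσ' with
    ⟨y, hy, rfl⟩ | rfl | ⟨r, hr, rfl⟩
  · rw [upd_none]
    refine hnf _ (Finset.mem_union_left _ (Finset.mem_image.2 ⟨y, ?_, rfl⟩))
    rw [Set.Finite.mem_toFinset]
    exact hy
  · rw [upd_none]
    exact hS.trans (clo_mono hC)
  · rw [upd_none]
    refine hnf _ (Finset.mem_union_right _ (Finset.mem_image.2 ⟨r, ?_, rfl⟩))
    rw [Set.Finite.mem_toFinset]
    exact hr

/-- The cylinder of `y` of length `n`. -/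
private def xc6_cyl (n : ℕ) (y : CC) : Clopens CC where
  carrier := {z | ∀ i < n, z i = y i}
  isClopen' := by
    have h : {z : CC | ∀ i < n, z i = y i} = ⋂ i ∈ Finset.range n, {z : CC | z i = y i} := by
      ext z; simp
    rw [h]
    refine isClopen_biInter_finset fun i _ => ?_
    exact (isClopen_discrete {y i}).preimage (continuous_apply i)

private theorem xc6_mem {n : ℕ} {y z : CC} : z ∈ xc6_cyl n y ↔ ∀ i < n, z i = y i := Iff.rfl

private theorem xc6_fin (H : Hyp Q τ) (n : ℕ) (M : Finset (Mv Q)) : ∀ (S : Set H.P) (V : Clopens CC), IsOpen S →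
    S.Nonempty → S ⊆ H.S0 → S ⊆ H.ξ ⁻¹' V →
    ∃ U : Mv Q → Clopens CC, (∀ m ∈ M, U m ≤ V ∧ Sml n (U m) ∧ (S ∩ H.ξ ⁻¹' (U m)).Nonempty) ∧
      ∀ m ∈ M, ∀ m' ∈ M, m ≠ m' → Disjoint (U m) (U m') := by
  classical
  induction M using Finset.induction_on with
  | empty =>
    intro S V _ _ _ _
    exact ⟨fun _ => ⊥, by simp, by simp⟩
  | insert a M ha ih =>
    intro S V oS ne sS hV
    obtain ⟨x, hx, y, hy, hxy⟩ := H.nc S sS oS ne
    obtain ⟨i, hi⟩ : ∃ i, H.ξ x i ≠ H.ξ y i := by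
      by_contra hc
      push Not at hc
      exact hxy (funext hc)
    set K : ℕ := max n (i + 1) with hK
    have hyV : H.ξ y ∉ xc6_cyl K (H.ξ x) := by
      intro h
      exact hi (xc6_mem.1 h i (by omega)).symm
    have hxV : H.ξ x ∈ xc6_cyl K (H.ξ x) := fun _ _ => rfl
    obtain ⟨U, hU, hUd⟩ := ih (S ∩ H.ξ ⁻¹' (V \ xc6_cyl K (H.ξ x) : Clopens CC)) (V \ xc6_cyl K (H.ξ x))
      (oS.inter ((V \ xc6_cyl K (H.ξ x)).isClopen.isOpen.preimage H.hξ)) ⟨y, hy, hV hy, hyV⟩
      (inter_subset_left.trans sS) inter_subset_right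
    have hdis : ∀ m ∈ M, Disjoint (V ⊓ xc6_cyl K (H.ξ x)) (U m) := by
      intro m hm
      exact (disjoint_sdiff_self_right.mono_right (hU m hm).1).mono_left inf_le_right
    refine ⟨Function.update U a (V ⊓ xc6_cyl K (H.ξ x)), ?_, ?_⟩
    · intro m hm
      rcases Finset.mem_insert.1 hm with rfl | hm
      · rw [Function.update_self]
        refine ⟨inf_le_left, ?_, x, hx, hV hx, hxV⟩
        intro z hz z' hz' j hj
        have h1 := xc6_mem.1 hz.2 j (by omega)
        have h2 := xc6_mem.1 hz'.2 j (by omega)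
        rw [h1, h2]
      · have hma : m ≠ a := fun e => ha (e ▸ hm)
        rw [Function.update_of_ne hma]
        obtain ⟨h1, h2, z, hz, hz'⟩ := hU m hm
        exact ⟨h1.trans sdiff_le, h2, z, hz.1, hz'⟩
    · intro m hm m' hm' hne
      rcases Finset.mem_insert.1 hm with h1 | h1
      · rcases Finset.mem_insert.1 hm' with h2 | h2
        · exact absurd (h1.trans h2.symm) hne
        · have h3 : m' ≠ a := fun e => ha (e ▸ h2)
          rw [h1, Function.update_self, Function.update_of_ne h3]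
          exact hdis m' h2
      · have hma : m ≠ a := fun e => ha (e ▸ h1)
        rcases Finset.mem_insert.1 hm' with h2 | h2
        · rw [h2, Function.update_self, Function.update_of_ne hma]
          exact (hdis m h1).symm
        · have hma' : m' ≠ a := fun e => ha (e ▸ h2)
          rw [Function.update_of_ne hma, Function.update_of_ne hma']
          exact hUd m h1 m' h2 hne

/-- MODULE xc6 (size 2): slots.

`ξ` is not constant on open nonempty subsets of `S ⊆ S0`: by induction on `N` there are `N` pairwise disjoint clopen `V_i ≤ V` with `S ∩ ξ ⁻¹' V_i ≠ ∅`; for each choose a point and shrink `V_i` to a small clopen set.  There are finitely many moves `m` with `Ok (m :: w)` (`finite_moves`): distribute. -/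
theorem exists_slots (H : Hyp Q τ) {w : Nd Q} (hw : Ok w) {S : Set H.P} (oS : IsOpen S) (ne : S.Nonempty)
    (sS : S ⊆ H.S0) {V : Clopens CC} (hV : S ⊆ H.ξ ⁻¹' V) :
    ∃ U : Mv Q → Clopens CC, (∀ m, Ok (m :: w) → U m ≤ V ∧ Sml w.length (U m) ∧ (S ∩ H.ξ ⁻¹' (U m)).Nonempty) ∧
      ∀ m m', Ok (m :: w) → Ok (m' :: w) → m ≠ m' → Disjoint (U m) (U m') := by
  have hf := finite_moves hw
  obtain ⟨U, h1, h2⟩ := xc6_fin H w.length hf.toFinset S V oS ne sS hV
  refine ⟨U, fun m hm => h1 m (hf.mem_toFinset.2 hm), fun m m' hm hm' hne =>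
    h2 m (hf.mem_toFinset.2 hm) m' (hf.mem_toFinset.2 hm') hne⟩

/-- The data chosen in an extension step. -/
structure Dat (Q : Par) (P : Type) where
  R : Option (Nd Q) → Nd Q → Clopens CC
  D : Set P
  S : Set P
  gg : Clopens CC
  et : Clopens CC
  jj : Clopens CC
  e : Ordinal.{0}
  R₂ : Option (Nd Q) → Nd Q → Clopens CC
  S₂ : Set P
  th : Clopens CC
  ex : Q.L → Ordinal.{0}
  C : Set P
  S₃ : Set P
  hh : Clopens CC
  ec : Ordinal.{0}
  ef : Ordinal.{0}
  U : Mv Q → Clopens CC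

/-- The configuration before the cell step. -/
noncomputable def Dat.g₂ {P : Type} (d : Dat Q P) (g : Cfg Q P) (w : Nd Q) : Cfg Q P :=
  ((g.wr d.R).wS w d.S d.D d.e).wr d.R₂

/-- The final configuration. -/
noncomputable def Dat.fin {P : Type} (d : Dat Q P) (τ : Ty Q) (f : P → CC) (g : Cfg Q P) (w : Nd Q) : Cfg Q P where
  S := Function.update g.S w d.S₃
  D := Function.update g.D w d.D
  C := Function.update g.C w d.C
  reg := if τ.cl = 0 then d.R₂ else upR d.R₂ (some w) w (if τ.cl = 1 then d.hh else d.jj)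
  E := if τ.cl = 1 then g.E \ f ⁻¹' d.hh else g.E
  ex := d.ex
  exz := Function.update g.exz w d.e
  exf := Function.update g.exf w d.ef
  ec := Function.update g.ec w d.ec
  U := fun x => match x with
    | [] => g.U []
    | m :: v => if v = w then d.U m else g.U (m :: v)
  th := Function.update g.th w d.th
  et := Function.update g.et w d.et
  gg := Function.update g.gg w d.gg
  jj := Function.update g.jj w d.jj
  hh := Function.update g.hh w d.hh

/-- The data are as obtained in the steps. -/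
structure Stp (H : Hyp Q τ) (T : Finset (Nd Q)) (g : Cfg Q H.P) (w : Nd Q) (d : Dat Q H.P) : Prop where
  I : Inv H T g
  ok : Ok w
  ne : w ≠ []
  nT : w ∉ T
  len : ∀ w', Ok w' → w'.length < w.length → w' ∈ T
  B : BOut H T g w d.R d.D d.S d.gg d.et d.jj d.e
  A : AOut H T ((g.wr d.R).wS w d.S d.D d.e) w d.R₂ d.S₂ d.th
  K : COut H T (d.g₂ g w) w d.S₂ d.et d.jj d.ex d.C d.S₃ d.hh d.ec d.ef
  U : ∀ m, Ok (m :: w) → d.U m ≤ g.U w ∧ Sml w.length (d.U m) ∧ (d.S₃ ∩ H.ξ ⁻¹' (d.U m)).Nonempty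
  Udi : ∀ m m', Ok (m :: w) → Ok (m' :: w) → m ≠ m' → Disjoint (d.U m) (d.U m')

/- MODULE xc7 (size 2): the steps can be carried out.

`w = m :: u`, `u ∈ T` by `hlen`.  `bstep`, `astep`; `CIn` for `d.g₂ g w` and `S₂`: openness (`S`, `D` open), `sE`, `adm` from `I`; `S₂ ⊆ S ⊆ S0` (`Sp.cl`: `S ⊆ g.S (q univ w) ⊆ S0`), `S ⊆ clo (kap+1) E` (`Sp.G`, `G_S`); `via` = `AOut.via`; `hh` from `Inv4.f_hh`; `nf` = `AOut.nf`; `c0`, `c2` from `BOut`.  `cstep`, `exists_slots` (`V = g.U w`). -/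

private theorem xc7_lvl {P : Type} (g : Cfg Q P) (R : Option (Nd Q) → Nd Q → Clopens CC) (σ : Sta Q) :
    lvl (g.wr R) σ = lvl g σ := by
  cases σ with
  | A k p c => cases k <;> rfl
  | D r v c => cases v <;> rfl
  | S r x => rfl
  | E => rfl

theorem exists_Stp (H : Hyp Q τ) (hC : H.Cls) {T : Finset (Nd Q)} {g : Cfg Q H.P} (I : Inv H T g) {w : Nd Q}
    (hw : Ok w) (hne : w ≠ []) (hT : w ∉ T) (hlen : ∀ w', Ok w' → w'.length < w.length → w' ∈ T) :
    ∃ d, Stp H T g w d := by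
  obtain ⟨m, u, rfl⟩ : ∃ m u, w = m :: u := by
    cases w with
    | nil => exact absurd rfl hne
    | cons m u => exact ⟨m, u, rfl⟩
  have hu : u ∈ T := hlen u (hw.suffix (List.suffix_cons _ _)) (by simp)
  have hr : q univ (m :: u) ∈ T := I.i1.mem_of_suffix hu (q_suffix univ m u)
  obtain ⟨R, D, S, gg, et, jj, e, B⟩ := bstep H hC I hw hu hT
  obtain ⟨R₂, S₂, th, A⟩ := astep H I hw hu hT B
  have hsub : S₂ ⊆ S := by
    have h1 := A.sub
    have h2 : ((g.wr R).wS (m :: u) S D e).S (m :: u) = S := Function.update_self _ _ _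
    rwa [h2] at h1
  have hSS0 : S ⊆ H.S0 :=
    (subset_closure.trans B.hS.cl).trans ((I.i1.S_sub _ hr).trans inter_subset_left)
  have hSE : S ⊆ clo H.ξ (Q.kap + 1) g.E := by
    have h1 := B.hS.G
    rw [G_S] at h1
    exact h1.trans inter_subset_right
  have K : CIn H T (((g.wr R).wS (m :: u) S D e).wr R₂) (m :: u) S₂ et jj := by
    refine ⟨I.i1.ok, ?_, ?_, I.i1.oC, I.i1.oE, I.i1.sE, I.i2.adm, A.o, A.ne, hsub.trans hSS0,
      hsub.trans hSE, A.via, ?_, ?_, ?_, ?_⟩
    · intro v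
      show IsOpen (Function.update g.S (m :: u) S v)
      by_cases h : v = m :: u
      · rw [h, Function.update_self]; exact B.hS.o
      · rw [Function.update_of_ne h]; exact I.i1.oS v
    · intro v
      show IsOpen (Function.update g.D (m :: u) D v)
      by_cases h : v = m :: u
      · rw [h, Function.update_self]; exact B.hD.o
      · rw [Function.update_of_ne h]; exact I.i1.oD v
    · intro h v hv
      exact (I.i4.f_hh h v hv).2
    · intro σ hσ
      rw [xc7_lvl]
      exact A.nf σ hσ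
    · intro h
      exact hsub.trans (B.c0 h)
    · intro h
      exact hsub.trans (B.c2 h).2.2
  obtain ⟨ex, C, S₃, hh, ecw, ef, K'⟩ := cstep H hC K
  obtain ⟨U, hU, hUd⟩ := exists_slots H hw K'.o K'.ne (K'.sub.trans (hsub.trans hSS0))
    (V := g.U (m :: u)) (K'.sub.trans (hsub.trans B.hS.U))
  exact ⟨⟨R, D, S, gg, et, jj, e, R₂, S₂, th, ex, C, S₃, hh, ecw, ef, U⟩,
    ⟨I, hw, hne, hT, hlen, B, A, K', hU, hUd⟩⟩

private theorem xc8_ne {H : Hyp Q τ} {T : Finset (Nd Q)} {g : Cfg Q H.P} {w : Nd Q} {d : Dat Q H.P}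
    (s : Stp H T g w d) {v : Nd Q} (hv : v ∈ T) : v ≠ w := fun e => s.nT (e ▸ hv)

private theorem xc8_q (D : Set Q.L) (v : Nd Q) : q D v <:+ v := (q_le D v).suffix

private theorem xc8_mem {H : Hyp Q τ} {T : Finset (Nd Q)} {g : Cfg Q H.P} {w : Nd Q} {d : Dat Q H.P}
    (s : Stp H T g w d) {v p : Nd Q} (hv : v ∈ T) (hp : p <:+ v) : p ∈ T := s.I.i1.mem_of_suffix hv hp

/-- parents of the new node -/
private theorem xc8_qw {H : Hyp Q τ} {T : Finset (Nd Q)} {g : Cfg Q H.P} {w : Nd Q} {d : Dat Q H.P}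
    (s : Stp H T g w d) (D : Set Q.L) : q D w ∈ T :=
  s.len _ (s.ok.suffix (xc8_q D w)) (q_length_lt D s.ne)

private theorem xc8_cls (τ : Ty Q) (r : Nd Q) : τ.cls (some r) ≠ none := by
  simp only [Ty.cls]
  split_ifs <;> exact Option.some_ne_none _

private theorem xc8_upR_ne (R : Option (Nd Q) → Nd Q → Clopens CC) {κ κ' : Option (Nd Q)} (x : Nd Q)
    (A : Clopens CC) (h : κ' ≠ κ) : upR R κ x A κ' = R κ' := by
  funext x'
  exact if_neg fun h' => h h'.1

private theorem xc8_upR_self (R : Option (Nd Q) → Nd Q → Clopens CC) (κ : Option (Nd Q)) (x : Nd Q)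
    (A : Clopens CC) : upR R κ x A κ x = A := if_pos ⟨rfl, rfl⟩

private theorem xc8_upR_other (R : Option (Nd Q) → Nd Q → Clopens CC) (κ : Option (Nd Q)) {x x' : Nd Q}
    (A : Clopens CC) (h : x' ≠ x) : upR R κ x A κ x' = R κ x' := if_neg fun h' => h h'.2

/-- the first half does not change the regions of the side `A` -/
private theorem xc8_Rn {H : Hyp Q τ} {T : Finset (Nd Q)} {g : Cfg Q H.P} {w : Nd Q} {d : Dat Q H.P}
    (s : Stp H T g w d) : d.R none = g.reg none := by
  rcases hB : τ.cB with _ | _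
  · rw [(s.B.nB hB).2.2.2.2, RB, xc8_upR_ne _ _ _ (xc8_cls τ _).symm, xc8_upR_ne _ _ _ (xc8_cls τ _).symm]
  · by_cases h2 : τ.cl = 2
    · rw [(s.B.c2c h2 hB).2.2.2, xc8_upR_ne _ _ _ (Option.some_ne_none _).symm]
    · rw [(s.B.c1 h2 hB).1]

private theorem xc8_R2 {H : Hyp Q τ} {T : Finset (Nd Q)} {g : Cfg Q H.P} {w : Nd Q} {d : Dat Q H.P}
    (s : Stp H T g w d) {κ : Option (Nd Q)} (hκ : κ ≠ none) : d.R₂ κ = d.R κ := s.A.rs κ hκ

private theorem xc8_fin_none {H : Hyp Q τ} {g : Cfg Q H.P} {w : Nd Q} {d : Dat Q H.P} :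
    (d.fin τ H.f g w).reg none = d.R₂ none := by
  show (if τ.cl = 0 then d.R₂ else upR d.R₂ (some w) w (if τ.cl = 1 then d.hh else d.jj)) none = _
  split_ifs
  · rfl
  · exact xc8_upR_ne _ _ _ (Option.some_ne_none _).symm
  · exact xc8_upR_ne _ _ _ (Option.some_ne_none _).symm

/-- regions of the side `A`, constant -/
private theorem xc8_n1 {H : Hyp Q τ} {T : Finset (Nd Q)} {g : Cfg Q H.P} {w : Nd Q} {d : Dat Q H.P}
    (s : Stp H T g w d) (hA : τ.cA = true) : (d.fin τ H.f g w).reg none = g.reg none := by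
  rw [xc8_fin_none, s.A.cA hA]
  exact xc8_Rn s

/-- regions of the side `A`, not constant -/
private theorem xc8_n2 {H : Hyp Q τ} {T : Finset (Nd Q)} {g : Cfg Q H.P} {w : Nd Q} {d : Dat Q H.P}
    (s : Stp H T g w d) (hA : τ.cA = false) : (d.fin τ H.f g w).reg none w = d.th ∧
      (d.fin τ H.f g w).reg none (q τ.DA w) = g.reg none (q τ.DA w) \ d.th ∧
      (∀ x, x ≠ w → x ≠ q τ.DA w → (d.fin τ H.f g w).reg none x = g.reg none x) ∧
      d.th ≤ g.reg none (q τ.DA w) ∧ Sml w.length d.th ∧ d.S₂ ⊆ H.f ⁻¹' d.th := by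
  obtain ⟨h1, h2, h3, h4⟩ := s.A.nA hA
  have h0 : ((g.wr d.R).wS w d.S d.D d.e).reg none = g.reg none := xc8_Rn s
  have hq : q τ.DA w ≠ w := xc8_ne s (xc8_qw s τ.DA)
  rw [h0] at h1 h4
  rw [xc8_fin_none, h4]
  refine ⟨xc8_upR_self _ _ _ _, ?_, ?_, h1, h2, h3⟩
  · rw [xc8_upR_other _ _ _ hq, xc8_upR_self]
  · intro x hx hx'
    rw [xc8_upR_other _ _ _ hx, xc8_upR_other _ _ _ hx', h0]

/-- the key of the parent region of a node -/
private theorem xc8_kp (τ : Ty Q) (v : Nd Q) : τ.kp v <:+ v :=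
  (an_suffix τ (xc8_q _ v) (xc8_q univ v)).2

private theorem xc8_kpw {H : Hyp Q τ} {T : Finset (Nd Q)} {g : Cfg Q H.P} {w : Nd Q} {d : Dat Q H.P}
    (s : Stp H T g w d) : τ.kp w ∈ T := by
  obtain ⟨m, u, rfl⟩ : ∃ m u, w = m :: u := List.exists_cons_of_ne_nil s.ne
  have hu : u ∈ T := s.len u s.ok.1 (Nat.lt_succ_self _)
  exact xc8_mem s hu (an_suffix τ (q_suffix _ m u) (q_suffix univ m u)).2

private theorem xc8_key (τ : Ty Q) (hB : τ.cB = false) (v : Nd Q) :
    τ.cl = 0 ∨ τ.kp v = q univ v ∨ (τ.kp v ≠ [] ∧ q univ (τ.kp v) = q univ v) := by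
  by_cases h0 : τ.cl = 0
  · exact Or.inl h0
  · right
    have h1 : τ.kp v = anr (τ.DB (q univ v)) (q univ v) (q (τ.DB (q univ v)) v) := by
      simp [Ty.kp, Ty.an, hB, h0]
    rw [h1]
    rcases anr_spec (τ.DB (q univ v)) (q univ v) (q (τ.DB (q univ v)) v) with h | h
    · exact Or.inl h.1
    · exact Or.inr ⟨h.1, h.2.1⟩

/-- the final regions of the classes of the cells -/
private theorem xc8_reg {H : Hyp Q τ} {T : Finset (Nd Q)} {g : Cfg Q H.P} {w : Nd Q} {d : Dat Q H.P}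
    (s : Stp H T g w d) {κ : Option (Nd Q)} (hκ : κ ≠ none) {x : Nd Q} (h : τ.cl = 0 ∨ κ ≠ some w ∨ x ≠ w) :
    (d.fin τ H.f g w).reg κ x = d.R κ x := by
  show (if τ.cl = 0 then d.R₂ else upR d.R₂ (some w) w (if τ.cl = 1 then d.hh else d.jj)) κ x = _
  by_cases h0 : τ.cl = 0
  · rw [if_pos h0, xc8_R2 s hκ]
  · rw [if_neg h0]
    have h1 : ¬ (κ = some w ∧ x = w) := by
      rintro ⟨a, b⟩
      rcases h with h | h | h
      · exact h0 h
      · exact h a
      · exact h b
    show (if κ = some w ∧ x = w then _ else d.R₂ κ x) = _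
    rw [if_neg h1, xc8_R2 s hκ]

private theorem xc8_regw {H : Hyp Q τ} {g : Cfg Q H.P} {w : Nd Q} {d : Dat Q H.P} (h0 : τ.cl ≠ 0) :
    (d.fin τ H.f g w).reg (some w) w = if τ.cl = 1 then d.hh else d.jj := by
  show (if τ.cl = 0 then d.R₂ else upR d.R₂ (some w) w (if τ.cl = 1 then d.hh else d.jj)) (some w) w = _
  rw [if_neg h0, xc8_upR_self]

/-- not constant: the regions become smaller -/
private theorem xc8_le {H : Hyp Q τ} {T : Finset (Nd Q)} {g : Cfg Q H.P} {w : Nd Q} {d : Dat Q H.P}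
    (s : Stp H T g w d) (hB : τ.cB = false) {κ : Option (Nd Q)} (hκ : κ ≠ none) {x : Nd Q} (hx : x ≠ w) :
    (d.fin τ H.f g w).reg κ x ≤ g.reg κ x := by
  rw [xc8_reg s hκ (Or.inr (Or.inr hx)), (s.B.nB hB).2.2.2.2]
  unfold RB upR
  rw [if_neg (fun h => hx h.2)]
  split_ifs with h
  · rw [h.1, h.2]
    exact sdiff_le
  · exact le_rfl

/-- not constant: the new regions -/
private theorem xc8_new {H : Hyp Q τ} {T : Finset (Nd Q)} {g : Cfg Q H.P} {w : Nd Q} {d : Dat Q H.P}
    (s : Stp H T g w d) (hB : τ.cB = false) :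
    d.R (τ.cls (some (q univ w))) w = d.et ∧ d.R (τ.cls (some (q univ w))) (τ.kp w) =
      g.reg (τ.cls (some (q univ w))) (τ.kp w) \ d.gg := by
  rw [(s.B.nB hB).2.2.2.2, RB]
  refine ⟨xc8_upR_self _ _ _ _, ?_⟩
  rw [xc8_upR_other _ _ _ (xc8_ne s (xc8_kpw s)), xc8_upR_self]

private theorem xc8_cls0 (h0 : τ.cl = 0) (r : Nd Q) : τ.cls (some r) = some [] := by
  simp only [Ty.cls, if_pos h0]

private theorem xc8_cls1 (h0 : τ.cl ≠ 0) (r : Nd Q) : τ.cls (some r) = some r := by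
  simp only [Ty.cls, if_neg h0]

private theorem xc8_orig {H : Hyp Q τ} {T : Finset (Nd Q)} {g : Cfg Q H.P} {w : Nd Q} {d : Dat Q H.P}
    (s : Stp H T g w d) (κ : Option (Nd Q)) {x : Nd Q} (hx : x ∈ T) :
    orig τ (d.fin τ H.f g w) κ x = orig τ g κ x := by
  have h1 : (d.fin τ H.f g w).hh x = g.hh x := Function.update_of_ne (xc8_ne s hx) _ _
  have h2 : (d.fin τ H.f g w).jj x = g.jj x := Function.update_of_ne (xc8_ne s hx) _ _
  have h3 : (d.fin τ H.f g w).et x = g.et x := Function.update_of_ne (xc8_ne s hx) _ _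
  unfold orig
  rw [h1, h2, h3]

/-- agreement of the configurations before and after the final changes -/
private theorem xc8_agr {H : Hyp Q τ} {T : Finset (Nd Q)} {g : Cfg Q H.P} {w : Nd Q} {d : Dat Q H.P}
    (s : Stp H T g w d) {u' w' : Nd Q} (hu : ∀ p, p <:+ u' → p ≠ w) (hw : w'.length ≤ w.length) :
    Agr τ u' w' ((d.g₂ g w).wE τ H.f d.hh) (d.fin τ H.f g w) := by
  refine ⟨?_, fun _ _ => rfl, ?_, ?_, ?_, rfl, ?_, fun _ _ => rfl, ?_⟩
  · intro p hp
    show Function.update g.S w d.S₃ p = Function.update g.S w d.S p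
    rw [Function.update_of_ne (hu p hp), Function.update_of_ne (hu p hp)]
  · intro p hp
    show Function.update g.C w d.C p = g.C p
    rw [Function.update_of_ne (hu p hp)]
  · intro x _
    rw [xc8_fin_none]
    rfl
  · intro r hr x _
    show (if τ.cl = 0 then d.R₂ else upR d.R₂ (some w) w (if τ.cl = 1 then d.hh else d.jj)) (τ.cls (some r)) x =
      d.R₂ (τ.cls (some r)) x
    by_cases h0 : τ.cl = 0
    · rw [if_pos h0]
    · rw [if_neg h0, xc8_cls1 h0]
      refine if_neg fun h => hu r hr ?_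
      have h1 := h.1
      rwa [Option.some.injEq] at h1
  · intro k _ hk
    exact s.K.ext.eq k (H.F_iota _ _ (hk.trans hw))
  · intro p hp
    show Function.update g.exf w d.ef p = Function.update g.exf w d.e p
    rw [Function.update_of_ne (hu p hp), Function.update_of_ne (hu p hp)]

private theorem xc8_lvl {P : Type} {u w : Nd Q} {g g' : Cfg Q P} (h : Agr τ u w g g') {σ : Sta Q}
    (hσ : Rch u w σ) : lvl g' σ = lvl g σ := by
  rcases σ with ⟨k, p, c⟩ | ⟨r, v, c⟩ | ⟨r, x⟩ | _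
  · obtain ⟨_, hk, _⟩ := hσ
    rcases k with _ | k
    · rfl
    · obtain ⟨h1, h2⟩ := hk k rfl
      exact h.ex k h1 h2
  · obtain ⟨hr, hv, _⟩ := hσ
    rcases v with _ | v
    · exact h.exf r hr
    · exact h.exz v (hv v rfl).1
  · rfl
  · rfl

private theorem xc8_nf {H : Hyp Q τ} {T : Finset (Nd Q)} {g : Cfg Q H.P} {w : Nd Q} {d : Dat Q H.P}
    (s : Stp H T g w d) : ∀ σ ∈ nf (τ.nc w) w,
      d.S₃ ⊆ clo H.ξ (lvl (d.fin τ H.f g w) σ) (H.G (d.fin τ H.f g w) σ) := by
  obtain ⟨m, u, rfl⟩ : ∃ m u, w = m :: u := List.exists_cons_of_ne_nil s.ne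
  intro σ hσ
  have hR := Rch_nf τ (Or.inr (Or.inr rfl)) hσ
  have hA := xc8_agr s (u' := u) (w' := m :: u) (fun p hp e => by
    have h1 := hp.length_le
    rw [e, List.length_cons] at h1
    omega) le_rfl
  rw [xc8_lvl hA hR, G_congr H (List.suffix_cons m u) hA hR]
  exact s.K.nf σ hσ

/-- MODULE xc8 (size 3): the new slots and the old slots are alive.

Let `g' = d.fin τ f g w`, `g₂ = (d.g₂ g w).wE τ f d.hh`, `w = m :: u`.  The configurations agree for the states in `Rch u w` (`G_congr`, `Agr u w g₂ g'`: they differ in `S w`, `C w`, `exf w`, `reg (some w) w` (`cl ≠ 0`; `cls (some r) = some r ≠ some w` for `r <:+ u`), and the exponents `ex k` with `ι k > w.length`: `COut.ext`, `F_iota`).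
`fin_alive`: `aliveA`, `freshD` for `g'`: `S w = S₃ ⊆ f ⁻¹' (reg none (an none w))`: constant: `reg none [] = ⊤` (`Inv3.const`), not constant: `R₂ none w = th`, `S₃ ⊆ f ⁻¹' th`; `C ⊆ f ⁻¹' (reg (cls (some w)) (an (some w) w))`: class III not constant: `reg (some []) w = et` (`BOut.nB`, `AOut.rs`), constant: `reg (some []) [] = ⊤` (`Inv4.const0`; `R = g.reg`); classes I, II: `reg (some w) w = hh`, `jj`.
For `r' ∈ rdd w` (successor mode): the state is in `nf (nc w) w` (`rto w`), `exz = o ⊤ ≤ kap`; `COut.nf`.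
`fin_via`: for `v ∈ T` and `m :: v ∉ insert w T`: `COut.via` for `g₂` and `via_congr`/`G_congr` with `Agr v v g₂ g'` (`v.length ≤ w.length`, `w` is not a suffix of `v`; `(g₂.U (m :: v)) = g'.U (m :: v)` as `v ≠ w`).  For `v = w`: `fin_alive` and `Stp.U`. -/
theorem fin_alive (H : Hyp Q τ) {T : Finset (Nd Q)} {g : Cfg Q H.P} {w : Nd Q} {d : Dat Q H.P}
    (s : Stp H T g w d) : d.S₃ ⊆ H.G (d.fin τ H.f g w) (.A ⊥ w (fun _ => none)) := by
  have uS : (d.fin τ H.f g w).S w = d.S₃ := Function.update_self _ _ _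
  have uC : (d.fin τ H.f g w).C w = d.C := Function.update_self _ _ _
  have uef : (d.fin τ H.f g w).exf w = d.ef := Function.update_self _ _ _
  have oS : IsOpen ((d.fin τ H.f g w).S w) := by rw [uS]; exact s.K.o
  have oC : IsOpen ((d.fin τ H.f g w).C w) := by rw [uC]; exact s.K.oC
  have htop : ∀ A : Clopens CC, A = ⊤ → ∀ Y : Set H.P, Y ⊆ H.f ⁻¹' (A : Set CC) := by
    rintro A rfl Y x _
    trivial
  have hCr : (d.fin τ H.f g w).C w ⊆ H.f ⁻¹' ((d.fin τ H.f g w).reg (τ.cls (some w)) (τ.an (some w) w)) := by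
    rw [uC, an_own]
    by_cases h0 : τ.cl = 0
    · rw [xc8_reg s (xc8_cls τ w) (Or.inl h0), xc8_cls0 h0]
      rcases hB : τ.cB with _ | _
      · rw [if_neg (fun h => by simp at h)]
        have h1 := (xc8_new s hB).1
        rw [xc8_cls0 h0] at h1
        rw [h1]
        exact s.K.c0 h0
      · have h2 : τ.cl ≠ 2 := by rw [h0]; decide
        rw [if_pos ⟨rfl, h0⟩, (s.B.c1 h2 hB).1]
        exact htop _ (s.I.i4.const0 h0 hB) _
    · rw [if_neg (fun h => h0 h.2), xc8_cls1 h0, xc8_regw h0]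
      by_cases h1 : τ.cl = 1
      · rw [if_pos h1]
        exact (s.K.c1 h1).1
      · rw [if_neg h1]
        have h2 : τ.cl = 2 := by
          have h3 : ∀ a : Fin 3, a ≠ 0 → a ≠ 1 → a = 2 := by decide
          exact h3 _ h0 h1
        exact s.K.c2 h2
  have hSr : (d.fin τ H.f g w).S w ⊆ H.f ⁻¹' ((d.fin τ H.f g w).reg none (τ.an none w)) := by
    rw [uS]
    rcases hA : τ.cA with _ | _
    · have h1 : τ.an none w = w := by simp [Ty.an, hA]
      rw [h1, (xc8_n2 s hA).1]
      exact s.K.sub.trans (xc8_n2 s hA).2.2.2.2.2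
    · have h1 : τ.an none w = [] := by simp [Ty.an, hA]
      rw [h1, xc8_n1 s hA]
      exact htop _ (s.I.i3.const hA) _
  have hnf := xc8_nf s
  have key := aliveA H (g := d.fin τ H.f g w) (w := w) oS
    (freshD H oS oC hCr (by rw [uC, uS]; exact s.K.CS) hSr (by rw [uS]; exact s.K.SE) ?_)
    (by rw [uS, uef, uC]; exact s.K.SC) (by rw [uS]; exact hnf)
  · rw [uS] at key
    exact key
  · intro r' hr'
    obtain ⟨h1, h2, h3⟩ := hr'
    obtain ⟨h4, h5, h6⟩ := chd_spec h3 h2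
    constructor
    · by_cases hv : chd univ r' w = w
      · have h7 : (d.fin τ H.f g w).exz (chd univ r' w) = d.e := by
          rw [hv]
          exact Function.update_self _ _ _
        rw [h7]
        exact s.B.he.kap.le
      · have h7 : (d.fin τ H.f g w).exz (chd univ r' w) = g.exz (chd univ r' w) :=
          Function.update_of_ne hv _ _
        rw [h7]
        have h8 : chd univ r' w ∈ T := by
          refine s.len _ (s.ok.suffix h6.suffix) ?_
          exact lt_of_le_of_ne h6.suffix.length_le (fun e => hv (h6.suffix.eq_of_length e))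
        exact (s.I.i2.kap _ h8).1.le
    · rw [uS]
      have h9 : (.D r' (some (chd univ r' w)) (τ.nc w ⊤) : Sta Q) ∈ nf (τ.nc w) w := by
        refine Finset.mem_union_right _ (Finset.mem_image.2 ⟨r', ?_, rfl⟩)
        rw [Set.Finite.mem_toFinset]
        exact ⟨h2, h3, fun hmd => by rw [h1] at hmd; exact absurd hmd (by simp)⟩
      exact hnf _ h9

theorem fin_via (H : Hyp Q τ) {T : Finset (Nd Q)} {g : Cfg Q H.P} {w : Nd Q} {d : Dat Q H.P}
    (s : Stp H T g w d) : Via H (insert w T) (d.fin τ H.f g w) := by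
  intro v hv m hok hm
  rcases Finset.mem_insert.1 hv with rfl | hvT
  · have h1 : (d.fin τ H.f g v).U (m :: v) = d.U m := if_pos rfl
    rw [h1]
    obtain ⟨x, hx1, hx2⟩ := (s.U m hok).2.2
    exact ⟨x, fin_alive H s hx1, hx2⟩
  · have h1 : (d.fin τ H.f g w).U (m :: v) = g.U (m :: v) := if_neg (xc8_ne s hvT)
    rw [h1]
    have hA := xc8_agr s (u' := v) (w' := v) (fun p hp => xc8_ne s (xc8_mem s hvT hp))
      (s.I.i1.length_le s.ok s.nT hvT)
    have hR : Rch v v (.A ⊥ v (fun _ => none) : Sta Q) := by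
      refine ⟨List.suffix_refl _, fun e he => absurd he (WithBot.bot_ne_coe), fun x hx => absurd hx (by simp),
        fun r _ x hx => absurd hx (by simp)⟩
    rw [G_congr H (List.suffix_refl v) hA hR]
    exact s.K.via v hvT m hok (fun h => hm (Finset.mem_insert_of_mem h))

/- MODULE xc9 (size 2): the invariants `Inv1`, `Inv2`.

All the nodes of `T` have length `≤ w.length`; suffixes and parents of nodes of `T` are in `T`, so different from `w`.  `Inv1`: `S₃ ⊆ S`, `Sp`, `Yp` (`D_C`: `Yp.C`).  `Inv2`: `adm`, `Ext.adm`; `lt`: `ι k ≤ v.length ≤ w.length`, so `ex' k = ex k` (`F_iota`), `EOk.lt`, `FOk.lt`; `cell`: old cells `r`: `out`: `ex' k = ex k` for `k ∈ DB r`, `k ≠ ⊤` (`F_DB`, `F_mono`), `cin`: `ex k ≤ ex' k`; the new cell `COut.cell`;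
`ec`: `v = w`, `r = q univ w`: `EOk.ec`; `r = w`: `FOk.ec`, no children of `w` in `insert w T`. -/

section xc9
variable (H : Hyp Q τ) {T : Finset (Nd Q)} {g : Cfg Q H.P} {w : Nd Q} {d : Dat Q H.P}

private theorem xc9_ne (s : Stp H T g w d) {v : Nd Q} (hv : v ∈ T) : v ≠ w := fun e => s.nT (e ▸ hv)

private theorem xc9_ins {v : Nd Q} (hv : v ∈ insert w T) : v = w ∨ v ∈ T := Finset.mem_insert.1 hv

private theorem xc9_len (s : Stp H T g w d) {v : Nd Q} (hv : v ∈ T) : v.length ≤ w.length :=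
  s.I.i1.length_le s.ok s.nT hv

private theorem xc9_suf (s : Stp H T g w d) {v p : Nd Q} (hv : v ∈ insert w T) (hp : p <:+ v) (hne : p ≠ v) :
    p ∈ T := by
  rcases xc9_ins hv with rfl | hv
  · refine s.len p (s.ok.suffix hp) ?_
    rcases lt_or_eq_of_le hp.length_le with h | h
    · exact h
    · exact absurd (hp.eq_of_length h) hne
  · exact s.I.i1.mem_of_suffix hv hp

private theorem xc9_q (s : Stp H T g w d) {v : Nd Q} (hv : v ∈ insert w T) (hne : v ≠ []) : q univ v ∈ T := by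
  refine xc9_suf H s hv ?_ ?_
  · cases v with
    | nil => exact absurd rfl hne
    | cons m u => exact (q_suffix univ m u).trans (List.suffix_cons _ _)
  · intro e
    have := q_length_lt univ hne
    rw [e] at this
    exact lt_irrefl _ this

private theorem xc9_S0 (s : Stp H T g w d) : d.S₃ ⊆ d.S := by
  have h1 := s.A.sub
  have h2 : ((g.wr d.R).wS w d.S d.D d.e).S w = d.S := Function.update_self _ _ _
  rw [h2] at h1
  exact s.K.sub.trans h1

private theorem xc9_U (s : Stp H T g w d) {v : Nd Q} (hv : v ∈ insert w T) :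
    (d.fin τ H.f g w).U v = g.U v := by
  cases v with
  | nil => rfl
  | cons m v =>
    refine if_neg fun e => ?_
    subst e
    rcases xc9_ins hv with h | h
    · exact List.cons_ne_self _ _ h
    · exact s.nT (s.I.i1.mem_of_suffix h (List.suffix_cons _ _))

private theorem xc9_Uc (s : Stp H T g w d) {v : Nd Q} (hv : v ∈ T) (m : Mv Q) :
    (d.fin τ H.f g w).U (m :: v) = g.U (m :: v) := if_neg (xc9_ne H s hv)

private theorem xc9_Uw (m : Mv Q) : (d.fin τ H.f g w).U (m :: w) = d.U m := if_pos rfl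

private theorem xc9_ex (s : Stp H T g w d) {k : Q.L} (hk : k ∈ H.F w.length) : d.ex k = g.ex k :=
  s.K.ext.eq k hk

end xc9

theorem fin_inv1 (H : Hyp Q τ) {T : Finset (Nd Q)} {g : Cfg Q H.P} {w : Nd Q} {d : Dat Q H.P}
    (s : Stp H T g w d) : Inv1 H (insert w T) (d.fin τ H.f g w) := by
  have hS : ∀ v ∈ T, (d.fin τ H.f g w).S v = g.S v := fun v hv => Function.update_of_ne (xc9_ne H s hv) _ _
  have hD : ∀ v ∈ T, (d.fin τ H.f g w).D v = g.D v := fun v hv => Function.update_of_ne (xc9_ne H s hv) _ _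
  have hC : ∀ v ∈ T, (d.fin τ H.f g w).C v = g.C v := fun v hv => Function.update_of_ne (xc9_ne H s hv) _ _
  have hSw : (d.fin τ H.f g w).S w = d.S₃ := Function.update_self _ _ _
  have hDw : (d.fin τ H.f g w).D w = d.D := Function.update_self _ _ _
  have hCw : (d.fin τ H.f g w).C w = d.C := Function.update_self _ _ _
  have hqw : q univ w ∈ T := xc9_q H s (Finset.mem_insert_self _ _) s.ne
  have hSS := xc9_S0 H s
  have hS0 : d.S ⊆ H.S0 :=
    (subset_closure.trans s.B.hS.cl).trans ((s.I.i1.S_sub _ hqw).trans inter_subset_left)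
  constructor
  · exact Finset.mem_insert_of_mem s.I.i1.nil
  · intro v hv
    rcases xc9_ins hv with rfl | hv
    · exact s.ok
    · exact s.I.i1.ok v hv
  · intro v hv w' hw' hl
    rcases xc9_ins hv with rfl | hv
    · exact Finset.mem_insert_of_mem (s.len w' hw' hl)
    · exact Finset.mem_insert_of_mem (s.I.i1.len v hv w' hw' hl)
  · intro v
    by_cases h : v = w
    · rw [h, hSw]; exact s.K.o
    · have : (d.fin τ H.f g w).S v = g.S v := Function.update_of_ne h _ _
      rw [this]; exact s.I.i1.oS v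
  · intro v
    by_cases h : v = w
    · rw [h, hDw]; exact s.B.hD.o
    · have : (d.fin τ H.f g w).D v = g.D v := Function.update_of_ne h _ _
      rw [this]; exact s.I.i1.oD v
  · intro v
    by_cases h : v = w
    · rw [h, hCw]; exact s.K.oC
    · have : (d.fin τ H.f g w).C v = g.C v := Function.update_of_ne h _ _
      rw [this]; exact s.I.i1.oC v
  · show IsOpen (if τ.cl = 1 then g.E \ H.f ⁻¹' d.hh else g.E)
    split_ifs
    · exact s.I.i1.oE.sdiff (d.hh.isClopen.isClosed.preimage H.hf)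
    · exact s.I.i1.oE
  · show (if τ.cl = 1 then g.E \ H.f ⁻¹' d.hh else g.E) ⊆ H.E0
    split_ifs
    · exact diff_subset.trans s.I.i1.sE
    · exact s.I.i1.sE
  · intro v hv
    rcases xc9_ins hv with h | h
    · rw [h, hSw]; exact s.K.ne
    · rw [hS v h]; exact s.I.i1.S_ne v h
  · intro v hv
    rw [xc9_U H s hv]
    rcases xc9_ins hv with h | h
    · rw [h, hSw]; exact subset_inter (hSS.trans hS0) (hSS.trans s.B.hS.U)
    · rw [hS v h]; exact s.I.i1.S_sub v h
  · intro v hv hne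
    rcases xc9_ins hv with h | h
    · rw [h, hDw]; exact s.B.hD.ne
    · rw [hD v h]; exact s.I.i1.D_ne v h hne
  · intro v hv hne
    rw [xc9_U H s hv]
    rcases xc9_ins hv with h | h
    · rw [h, hDw]; exact subset_inter s.B.hD.E0 s.B.hD.U
    · rw [hD v h]; exact s.I.i1.D_sub v h hne
  · intro v hv
    rcases xc9_ins hv with h | h
    · rw [h, hCw]; exact s.K.neC
    · rw [hC v h]; exact s.I.i1.C_ne v h
  · intro v hv
    rcases xc9_ins hv with h | h
    · rw [h, hCw]; exact s.K.sC.trans s.I.i1.sE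
    · rw [hC v h]; exact s.I.i1.C_sub v h
  · intro v hv hne
    rw [hS _ (xc9_q H s hv hne)]
    rcases xc9_ins hv with h | h
    · rw [h, hSw]; exact (closure_mono hSS).trans s.B.hS.cl
    · rw [hS v h]; exact s.I.i1.S_cl v h hne
  · intro v hv hne
    rcases xc9_ins hv with h | h
    · rw [h, hSw]; exact fun x hx y hy => s.B.hS.di x (hSS hx) y (hSS hy)
    · rw [hS v h]; exact s.I.i1.S_di v h hne
  · intro v hv hne hdp
    rw [hC _ (xc9_q H s hv hne)]
    rcases xc9_ins hv with h | h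
    · subst h; rw [hDw]; exact s.B.hD.cl hdp
    · rw [hD v h]; exact s.I.i1.D_cl v h hne hdp
  · intro v hv hne v' hdp
    have hok : Ok v := by
      rcases xc9_ins hv with h | h
      · rw [h]; exact s.ok
      · exact s.I.i1.ok v h
    obtain ⟨-, -, h3, h4, -⟩ := dpar_some hok hne hdp
    rw [hD v' (xc9_suf H s hv h3.suffix h4)]
    rcases xc9_ins hv with h | h
    · subst h; rw [hDw]; exact s.B.hD.cl' v' hdp
    · rw [hD v h]; exact s.I.i1.D_cl' v h hne v' hdp
  · intro v hv hne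
    rcases xc9_ins hv with h | h
    · subst h; rw [hDw]; exact s.B.hD.di
    · rw [hD v h]; exact s.I.i1.D_di v h hne
  · intro v hv hne h0
    rw [hC _ (xc9_q H s hv hne)]
    rcases xc9_ins hv with h | h
    · subst h; rw [hDw]; exact s.B.hD.C h0
    · rw [hD v h]; exact s.I.i1.D_C v h hne h0
  · intro v hv m hm
    rw [xc9_U H s hv]
    rcases xc9_ins hv with h | h
    · subst h
      rw [xc9_Uw]
      exact ⟨(s.U m hm).1, (s.U m hm).2.1⟩
    · rw [xc9_Uc H s h]; exact s.I.i1.U_le v h m hm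
  · intro v hv m m' hm hm' hne
    rcases xc9_ins hv with h | h
    · subst h
      rw [xc9_Uw, xc9_Uw]
      exact s.Udi m m' hm hm' hne
    · rw [xc9_Uc H s h, xc9_Uc H s h]; exact s.I.i1.U_di v h m m' hm hm' hne

theorem fin_inv2 (H : Hyp Q τ) {T : Finset (Nd Q)} {g : Cfg Q H.P} {w : Nd Q} {d : Dat Q H.P}
    (s : Stp H T g w d) : Inv2 H (insert w T) (d.fin τ H.f g w) := by
  have hC : ∀ v ∈ T, (d.fin τ H.f g w).C v = g.C v := fun v hv => Function.update_of_ne (xc9_ne H s hv) _ _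
  have hz : ∀ v ∈ T, (d.fin τ H.f g w).exz v = g.exz v := fun v hv => Function.update_of_ne (xc9_ne H s hv) _ _
  have hf : ∀ v ∈ T, (d.fin τ H.f g w).exf v = g.exf v := fun v hv => Function.update_of_ne (xc9_ne H s hv) _ _
  have hc : ∀ v ∈ T, (d.fin τ H.f g w).ec v = g.ec v := fun v hv => Function.update_of_ne (xc9_ne H s hv) _ _
  have hCw : (d.fin τ H.f g w).C w = d.C := Function.update_self _ _ _
  have hzw : (d.fin τ H.f g w).exz w = d.e := Function.update_self _ _ _
  have hfw : (d.fin τ H.f g w).exf w = d.ef := Function.update_self _ _ _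
  have hcw : (d.fin τ H.f g w).ec w = d.ec := Function.update_self _ _ _
  have hex : (d.fin τ H.f g w).ex = d.ex := rfl
  constructor
  · exact s.K.ext.adm
  · intro v hv k hk hι
    rw [hex]
    rcases xc9_ins hv with h | h
    · subst h
      rw [hzw, hfw]
      refine ⟨?_, s.K.fe.lt k hk hι⟩
      rw [xc9_ex H s (H.F_iota _ k hι)]
      exact s.B.he.lt k hk hι
    · rw [hz v h, hf v h, xc9_ex H s (H.F_iota _ k (hι.trans (xc9_len H s h)))]
      exact s.I.i2.lt v h k hk hι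
  · intro v hv
    rcases xc9_ins hv with h | h
    · subst h; rw [hzw, hfw]; exact ⟨s.B.he.kap, s.K.fe.kap⟩
    · rw [hz v h, hf v h]; exact s.I.i2.kap v h
  · intro v hv
    rcases xc9_ins hv with h | h
    · subst h; rw [hzw, hfw]; exact ⟨s.B.he.one, s.K.fe.one⟩
    · rw [hz v h, hf v h]; exact s.I.i2.one v h
  · intro hmd v hv
    rcases xc9_ins hv with h | h
    · subst h; rw [hzw, hfw]; exact ⟨s.B.he.md hmd, s.K.fe.md hmd⟩
    · rw [hz v h, hf v h]; exact s.I.i2.md hmd v h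
  · intro v hv
    rcases xc9_ins hv with h | h
    · subst h; rw [hzw, hfw]; exact ⟨s.B.he.eA, s.K.fe.eA⟩
    · rw [hz v h, hf v h]; exact s.I.i2.eA v h
  · intro v hv
    rcases xc9_ins hv with h | h
    · subst h; rw [hzw, hfw]; exact ⟨s.B.he.eB, s.K.fe.eB⟩
    · rw [hz v h, hf v h]; exact s.I.i2.eB v h
  · intro h0 r hr
    rw [hex]
    rcases xc9_ins hr with h | h
    · subst h; rw [hcw, hCw]; exact s.K.cell h0
    · rw [hc r h, hC r h]
      have h1 := s.I.i2.cell h0 r h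
      refine ⟨h1.ctrue, ?_, ?_⟩
      · intro hB D hD oD neD
        obtain ⟨h2, h3⟩ := h1.out hB D hD oD neD
        refine ⟨h2, fun k hk hkt => ?_⟩
        have hF : k ∈ H.F w.length := H.F_mono (xc9_len H s h) (H.F_DB h0 r ⟨hk, hkt⟩)
        rw [xc9_ex H s hF]
        exact h3 k hk hkt
      · intro hB hD
        obtain ⟨h2, h3, h4⟩ := h1.cin hB hD
        exact ⟨h2, h3, fun k hk hkt => (h4 k hk hkt).trans (s.K.ext.le k)⟩
  · intro h0 hB r hr hDB
    rcases xc9_ins hr with h | h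
    · subst h
      rw [hcw, hfw]
      refine ⟨s.K.fe.ec h0 hB hDB, ?_⟩
      intro v hv hne hq
      exact absurd (hq ▸ xc9_q H s hv hne) s.nT
    · rw [hc r h, hf r h]
      obtain ⟨h1, h2⟩ := s.I.i2.ec h0 hB r h hDB
      refine ⟨h1, ?_⟩
      intro v hv hne hq
      rcases xc9_ins hv with h' | h'
      · subst h'
        rw [hzw]
        subst hq
        exact s.B.he.ec h0 hB hDB
      · rw [hz v h']; exact h2 v h' hne hq

/-- MODULE xc10 (size 2): the invariants `Inv3`.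

`R₂ none`: not constant: `th ≤ reg none (q DA w)` (`R none = g.reg none` in all cases: `BOut.nB`, `c1`, `c2c`), `th_di`: `th w ≤ reg none (q DA w')`, disjoint from `th w'` by `reg_di`.  `reg_le`: `reg none x ≤ th x` for `x = w`: equal; `x = q DA w`: smaller than before.  The final change (`some w`) does not concern `none`. -/
theorem fin_inv3 (H : Hyp Q τ) {T : Finset (Nd Q)} {g : Cfg Q H.P} {w : Nd Q} {d : Dat Q H.P}
    (s : Stp H T g w d) : Inv3 H (insert w T) (d.fin τ H.f g w) := by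
  have hth : (d.fin τ H.f g w).th = Function.update g.th w d.th := rfl
  have hth' : ∀ v ∈ T, (d.fin τ H.f g w).th v = g.th v := fun v hv =>
    Function.update_of_ne (xc8_ne s hv) _ _
  have hthw : (d.fin τ H.f g w).th w = d.th := Function.update_self _ _ _
  have hS' : ∀ v ∈ T, (d.fin τ H.f g w).S v = g.S v := fun v hv =>
    Function.update_of_ne (xc8_ne s hv) _ _
  have hSw : (d.fin τ H.f g w).S w = d.S₃ := Function.update_self _ _ _
  have I3 := s.I.i3
  refine ⟨?_, ?_, ?_, ?_, ?_, ?_⟩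
  · intro hA
    rw [xc8_n1 s hA]
    exact I3.const hA
  · intro hA v hv hne
    obtain ⟨n1, n2, n3, n4, n5, n6⟩ := xc8_n2 s hA
    rcases Finset.mem_insert.1 hv with rfl | hv
    · rw [hthw, hth' _ (xc8_qw s τ.DA)]
      exact ⟨n4.trans (I3.reg_le hA _ (xc8_qw s τ.DA)), n5⟩
    · rw [hth' v hv, hth' _ (xc8_mem s hv (xc8_q τ.DA v))]
      exact I3.th_le hA v hv hne
  · intro hA v hv hne
    obtain ⟨n1, n2, n3, n4, n5, n6⟩ := xc8_n2 s hA
    rcases Finset.mem_insert.1 hv with rfl | hv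
    · rw [hthw, hSw]
      exact s.K.sub.trans n6
    · rw [hth' v hv, hS' v hv]
      exact I3.f_th hA v hv hne
  · intro hA v hv v' hv' hne hne' hvv hq
    obtain ⟨n1, n2, n3, n4, n5, n6⟩ := xc8_n2 s hA
    rcases Finset.mem_insert.1 hv with rfl | hvT
    · rcases Finset.mem_insert.1 hv' with rfl | hvT'
      · exact absurd rfl hvv
      · rw [hthw, hth' v' hvT']
        rw [hq] at n4
        exact (I3.reg_di hA v' hvT' hne').mono_left n4
    · rcases Finset.mem_insert.1 hv' with rfl | hvT'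
      · rw [hthw, hth' v hvT]
        rw [← hq] at n4
        exact ((I3.reg_di hA v hvT hne).mono_left n4).symm
      · rw [hth' v hvT, hth' v' hvT']
        exact I3.th_di hA v hvT v' hvT' hne hne' hvv hq
  · intro hA x hx
    obtain ⟨n1, n2, n3, n4, n5, n6⟩ := xc8_n2 s hA
    rcases Finset.mem_insert.1 hx with rfl | hx
    · rw [n1, hthw]
    · rw [hth' x hx]
      by_cases hq : x = q τ.DA w
      · rw [hq, n2]
        exact sdiff_le.trans (I3.reg_le hA _ (xc8_qw s τ.DA))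
      · rw [n3 x (xc8_ne s hx) hq]
        exact I3.reg_le hA x hx
  · intro hA v hv hne
    obtain ⟨n1, n2, n3, n4, n5, n6⟩ := xc8_n2 s hA
    rcases Finset.mem_insert.1 hv with rfl | hv
    · rw [hthw, n2]
      exact disjoint_sdiff_self_left
    · rw [hth' v hv]
      have h1 := I3.reg_di hA v hv hne
      by_cases hq : q τ.DA v = q τ.DA w
      · rw [hq, n2]
        rw [hq] at h1
        exact h1.mono_left sdiff_le
      · rw [n3 _ (xc8_ne s (xc8_mem s hv (xc8_q τ.DA v))) hq]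
        exact h1

/-- MODULE xc11 (size 3): the invariants `Inv4`.

The regions of the classes `≠ none` are `d.R` (`AOut.rs`, `AOut.cA`), and `reg (some w) w = hh` or `jj` (`cl ≠ 0`).  `kp w ∈ T` (or `= r`), and `kp w = r` or `q univ (kp w) = r` in the classes I, II (`anr_spec`), so `gg ≤ reg κ (kp w) ≤ orig κ (kp w)` by `reg_le`.  `orig` of old keys does not change (`kp w' ∈ T` for `w' ∈ T`).
`gg_di`: `gg w ≤ reg κ (kp w')`, disjoint from `gg w'` by `reg_di`.  `reg_le` for the new key: class III and `r = q univ w`: `reg κ w = et w = orig κ w` (`some r ≠ some w`); new cell: `reg (some w) w = orig (some w) w`; no other `x ∈ insert w T` has `q univ x = w`.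
Class I: `hh_di`, `f_hh`: `E' = E \ f ⁻¹' hh`, `E' ⊆ E`; `f_hh` for the new node: `COut.c1`.  Class II: `f_jj`, `jj_le`: `BOut.c2`; constant: `BOut.c2c`, `jj ≤ gg ≤ reg (some r) r`, disjoint from the `jj w'` by `reg2`; `reg2` for `r`: `f` is constant on `C r ⊇ D ≠ ∅`, `D ⊆ f ⁻¹' (gg \ jj)`, so `C r ⊆ f ⁻¹' (reg (some r) r \ jj)`; for the new cell: `reg (some w) w = jj w`. -/
theorem fin_inv4 (H : Hyp Q τ) {T : Finset (Nd Q)} {g : Cfg Q H.P} {w : Nd Q} {d : Dat Q H.P}
    (s : Stp H T g w d) : Inv4 H (insert w T) (d.fin τ H.f g w) := by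
  have I4 := s.I.i4
  have uth : ∀ v ∈ T, (d.fin τ H.f g w).gg v = g.gg v := fun v hv => Function.update_of_ne (xc8_ne s hv) _ _
  have ugw : (d.fin τ H.f g w).gg w = d.gg := Function.update_self _ _ _
  have uet : ∀ v ∈ T, (d.fin τ H.f g w).et v = g.et v := fun v hv => Function.update_of_ne (xc8_ne s hv) _ _
  have uew : (d.fin τ H.f g w).et w = d.et := Function.update_self _ _ _
  have ujj : ∀ v ∈ T, (d.fin τ H.f g w).jj v = g.jj v := fun v hv => Function.update_of_ne (xc8_ne s hv) _ _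
  have ujw : (d.fin τ H.f g w).jj w = d.jj := Function.update_self _ _ _
  have uhh : ∀ v ∈ T, (d.fin τ H.f g w).hh v = g.hh v := fun v hv => Function.update_of_ne (xc8_ne s hv) _ _
  have uhw : (d.fin τ H.f g w).hh w = d.hh := Function.update_self _ _ _
  have uS : ∀ v ∈ T, (d.fin τ H.f g w).S v = g.S v := fun v hv => Function.update_of_ne (xc8_ne s hv) _ _
  have uSw : (d.fin τ H.f g w).S w = d.S₃ := Function.update_self _ _ _
  have uD : ∀ v ∈ T, (d.fin τ H.f g w).D v = g.D v := fun v hv => Function.update_of_ne (xc8_ne s hv) _ _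
  have uDw : (d.fin τ H.f g w).D w = d.D := Function.update_self _ _ _
  have uC : ∀ v ∈ T, (d.fin τ H.f g w).C v = g.C v := fun v hv => Function.update_of_ne (xc8_ne s hv) _ _
  have uCw : (d.fin τ H.f g w).C w = d.C := Function.update_self _ _ _
  have uE : (d.fin τ H.f g w).E = if τ.cl = 1 then g.E \ H.f ⁻¹' d.hh else g.E := rfl
  have hrw : q univ w ∈ T := xc8_qw s univ
  have hrne : q univ w ≠ w := xc8_ne s hrw
  have hqm : ∀ v ∈ T, q univ v ∈ T := fun v hv => xc8_mem s hv (xc8_q univ v)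
  have hkm : ∀ v ∈ T, τ.kp v ∈ T := fun v hv => xc8_mem s hv (xc8_kp τ v)
  have hS₃ : d.S₃ ⊆ d.S := by
    refine s.K.sub.trans (s.A.sub.trans (le_of_eq ?_))
    exact Function.update_self _ _ _
  refine
    { gg_le := ?_, f_et := ?_, gg_di := ?_, reg_le := ?_, reg_di := ?_, const0 := ?_, hh_di := ?_, f_hh := ?_,
      const1 := ?_, E2 := ?_, f_jj := ?_, jj_le := ?_, gg_le2 := ?_, jj_di := ?_, reg2 := ?_ }
  · intro hB v hv hne
    rcases Finset.mem_insert.1 hv with rfl | hvT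
    · obtain ⟨n1, n2, n3, n4, n5⟩ := s.B.nB hB
      rw [ugw, uew, xc8_orig s _ (xc8_kpw s)]
      exact ⟨n1.trans (I4.reg_le hB _ hrw _ (xc8_kpw s) (xc8_key τ hB _)), n2, n3⟩
    · rw [uth v hvT, uet v hvT, xc8_orig s _ (hkm v hvT)]
      exact I4.gg_le hB v hvT hne
  · intro hB v hv hne
    rcases Finset.mem_insert.1 hv with rfl | hvT
    · obtain ⟨n1, n2, n3, n4, n5⟩ := s.B.nB hB
      rw [uDw, uew]
      exact n4
    · rw [uD v hvT, uet v hvT]
      exact I4.f_et hB v hvT hne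
  · intro hB v hv v' hv' hne hne' hvv hc hk
    obtain ⟨n1, n2, n3, n4, n5⟩ := s.B.nB hB
    rcases Finset.mem_insert.1 hv with rfl | hvT
    · rcases Finset.mem_insert.1 hv' with rfl | hvT'
      · exact absurd rfl hvv
      · rw [ugw, uth v' hvT']
        rw [hc, hk] at n1
        exact (I4.reg_di hB v' hvT' hne').mono_left n1
    · rcases Finset.mem_insert.1 hv' with rfl | hvT'
      · rw [ugw, uth v hvT]
        rw [← hc, ← hk] at n1
        exact ((I4.reg_di hB v hvT hne).mono_left n1).symm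
      · rw [uth v hvT, uth v' hvT']
        exact I4.gg_di hB v hvT v' hvT' hne hne' hvv hc hk
  · intro hB r hr x hx hc
    have hκ : τ.cls (some r) ≠ none := xc8_cls τ r
    rcases Finset.mem_insert.1 hx with rfl | hxT
    · by_cases h0 : τ.cl = 0
      · have h1 : τ.cls (some r) = τ.cls (some (q univ x)) := by rw [xc8_cls0 h0, xc8_cls0 h0]
        rw [xc8_reg s hκ (Or.inl h0), h1, (xc8_new s hB).1]
        unfold orig
        rw [if_neg (fun h => h.2 h0), uew]
      · rw [xc8_cls1 h0]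
        rcases hc with hc | rfl | ⟨_, hc⟩
        · exact absurd hc h0
        · have h5 : orig τ (d.fin τ H.f g x) (some x) x = if τ.cl = 1 then (d.fin τ H.f g x).hh x
              else (d.fin τ H.f g x).jj x := if_pos ⟨rfl, h0⟩
          rw [xc8_regw h0, h5, uhw, ujw]
        · have h2 : (some r : Option (Nd Q)) ≠ some x := by
            intro h
            rw [Option.some.injEq] at h
            exact hrne (hc.trans h)
          have h3 : d.R (some r) x = d.et := by
            have h4 := (xc8_new s hB).1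
            rw [xc8_cls1 h0, hc] at h4
            exact h4
          rw [xc8_reg s (Option.some_ne_none _) (Or.inr (Or.inl h2)), h3]
          unfold orig
          rw [if_neg (fun h => h2 h.1), uew]
    · rw [xc8_orig s _ hxT]
      refine (xc8_le s hB hκ (xc8_ne s hxT)).trans ?_
      rcases Finset.mem_insert.1 hr with rfl | hrT
      · by_cases h0 : τ.cl = 0
        · rw [xc8_cls0 h0]
          have h1 := I4.reg_le hB [] s.I.i1.nil x hxT (Or.inl h0)
          rw [xc8_cls0 h0] at h1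
          exact h1
        · exfalso
          rcases hc with hc | hc | ⟨_, hc⟩
          · exact h0 hc
          · exact xc8_ne s hxT hc
          · exact xc8_ne s (hqm x hxT) hc
      · exact I4.reg_le hB r hrT x hxT hc
  · intro hB v hv hne
    have hκ : τ.cls (some (q univ v)) ≠ none := xc8_cls τ _
    rcases Finset.mem_insert.1 hv with rfl | hvT
    · rw [ugw, xc8_reg s hκ (Or.inr (Or.inr (xc8_ne s (xc8_kpw s)))), (xc8_new s hB).2]
      exact disjoint_sdiff_self_left
    · rw [uth v hvT]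
      exact (I4.reg_di hB v hvT hne).mono_left (xc8_le s hB hκ (xc8_ne s (hkm v hvT)))
  · intro h0 hB
    have h2 : τ.cl ≠ 2 := by rw [h0]; decide
    rw [xc8_reg s (Option.some_ne_none _) (Or.inl h0), (s.B.c1 h2 hB).1]
    exact I4.const0 h0 hB
  · intro h1 v hv v' hv' hvv
    have hd := (s.K.c1 h1).2
    rcases Finset.mem_insert.1 hv with rfl | hvT
    · rcases Finset.mem_insert.1 hv' with rfl | hvT'
      · exact absurd rfl hvv
      · rw [uhw, uhh v' hvT']
        exact hd v' hvT'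
    · rcases Finset.mem_insert.1 hv' with rfl | hvT'
      · rw [uhw, uhh v hvT]
        exact (hd v hvT).symm
      · rw [uhh v hvT, uhh v' hvT']
        exact I4.hh_di h1 v hvT v' hvT' hvv
  · intro h1 v hv
    rw [uE, if_pos h1]
    rcases Finset.mem_insert.1 hv with rfl | hvT
    · rw [uCw, uhw]
      refine ⟨(s.K.c1 h1).1, ?_⟩
      rw [← Set.not_nonempty_iff_eq_empty]
      rintro ⟨x, hx1, hx2⟩
      exact hx1.2 hx2
    · rw [uC v hvT, uhh v hvT]
      refine ⟨(I4.f_hh h1 v hvT).1, ?_⟩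
      rw [← Set.subset_empty_iff, ← (I4.f_hh h1 v hvT).2]
      intro x hx
      exact ⟨hx.1.1, hx.2⟩
  · intro h1 hB r hr
    have h0 : τ.cl ≠ 0 := by rw [h1]; decide
    have h2 : τ.cl ≠ 2 := by rw [h1]; decide
    rcases Finset.mem_insert.1 hr with rfl | hrT
    · rw [xc8_regw h0, if_pos h1, uhw]
    · rw [xc8_reg s (Option.some_ne_none _) (Or.inr (Or.inr (xc8_ne s hrT))), (s.B.c1 h2 hB).1, uhh r hrT]
      exact I4.const1 h1 hB r hrT
  · intro h1
    rw [uE, if_neg h1]
    exact I4.E2 h1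
  · intro h2 v hv
    have h1 : τ.cl ≠ 1 := by rw [h2]; decide
    rw [uE, if_neg h1]
    rcases Finset.mem_insert.1 hv with rfl | hvT
    · rw [uCw, ujw, uSw]
      exact ⟨s.K.c2 h2, hS₃.trans (s.B.c2 h2).2.2⟩
    · rw [uC v hvT, ujj v hvT, uS v hvT]
      exact I4.f_jj h2 v hvT
  · intro h2 v hv hne
    rcases Finset.mem_insert.1 hv with rfl | hvT
    · rw [ujw, ugw, uew]
      exact ⟨(s.B.c2 h2).1, (s.B.c2 h2).2.1⟩
    · rw [ujj v hvT, uth v hvT, uet v hvT]
      exact I4.jj_le h2 v hvT hne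
  · intro h2 hB v hv hne
    rcases Finset.mem_insert.1 hv with rfl | hvT
    · obtain ⟨n1, n2, n3, n4⟩ := s.B.c2c h2 hB
      rw [ugw, ujj _ hrw, ujw, uDw]
      exact ⟨n1.trans (I4.reg2 h2 hB _ hrw).1, n2, n3⟩
    · rw [uth v hvT, ujj v hvT, ujj _ (hqm v hvT), uD v hvT]
      exact I4.gg_le2 h2 hB v hvT hne
  · intro h2 hB v hv v' hv' hne hne' hvv hq
    obtain ⟨n1, n2, n3, n4⟩ := s.B.c2c h2 hB
    have n5 := (s.B.c2 h2).1.trans n1
    rcases Finset.mem_insert.1 hv with rfl | hvT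
    · rcases Finset.mem_insert.1 hv' with rfl | hvT'
      · exact absurd rfl hvv
      · rw [ujw, ujj v' hvT']
        exact ((I4.reg2 h2 hB _ hrw).2.2 v' hvT' hne' hq.symm).mono_left n5
    · rcases Finset.mem_insert.1 hv' with rfl | hvT'
      · rw [ujw, ujj v hvT]
        exact (((I4.reg2 h2 hB _ hrw).2.2 v hvT hne hq).mono_left n5).symm
      · rw [ujj v hvT, ujj v' hvT']
        exact I4.jj_di h2 hB v hvT v' hvT' hne hne' hvv hq
  · intro h2 hB r hr
    have h0 : τ.cl ≠ 0 := by rw [h2]; decide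
    have h1 : τ.cl ≠ 1 := by rw [h2]; decide
    obtain ⟨n1, n2, n3, n4⟩ := s.B.c2c h2 hB
    rcases Finset.mem_insert.1 hr with rfl | hrT
    · rw [xc8_regw h0, if_neg h1, ujw, uCw]
      refine ⟨le_rfl, s.K.c2 h2, ?_⟩
      intro v hv hne hq
      exfalso
      rcases Finset.mem_insert.1 hv with rfl | hvT
      · exact hrne hq
      · exact xc8_ne s (hqm v hvT) hq
    · obtain ⟨j1, j2, j3⟩ := I4.reg2 h2 hB r hrT
      rw [xc8_reg s (Option.some_ne_none _) (Or.inr (Or.inr (xc8_ne s hrT))), n4, ujj r hrT, uC r hrT]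
      by_cases hrr : r = q univ w
      · subst hrr
        rw [xc8_upR_self]
        refine ⟨sdiff_le.trans j1, ?_, ?_⟩
        · obtain ⟨y, hy⟩ := s.B.hD.ne
          intro x hx
          have hfx : H.f x = H.f y := (s.I.i2.cell h0 _ hrT).ctrue hB x hx y (s.B.hD.C h0 hy)
          refine ⟨j2 hx, ?_⟩
          rw [hfx]
          exact (n3 hy).2
        · intro v hv hne hq
          rcases Finset.mem_insert.1 hv with rfl | hvT
          · rw [ujw]
            exact disjoint_sdiff_self_left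
          · rw [ujj v hvT]
            exact (j3 v hvT hne hq).mono_left sdiff_le
      · have hsr : upR g.reg (some (q univ w)) (q univ w) (g.reg (some (q univ w)) (q univ w) \ d.jj) (some r) r =
            g.reg (some r) r := if_neg fun h => hrr h.2
        rw [hsr]
        refine ⟨?_, ?_, ?_⟩
        · exact j1
        · exact j2
        · intro v hv hne hq
          rcases Finset.mem_insert.1 hv with rfl | hvT
          · exact absurd hq.symm hrr
          · rw [ujj v hvT]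
            exact j3 v hvT hne hq

/-- Agreement on the nodes of `T`. -/
structure Pres {P : Type} (T : Finset (Nd Q)) (g g' : Cfg Q P) : Prop where
  S : ∀ v ∈ T, g'.S v = g.S v
  D : ∀ v ∈ T, g'.D v = g.D v
  C : ∀ v ∈ T, g'.C v = g.C v
  th : ∀ v ∈ T, g'.th v = g.th v
  et : ∀ v ∈ T, g'.et v = g.et v
  gg : ∀ v ∈ T, g'.gg v = g.gg v
  jj : ∀ v ∈ T, g'.jj v = g.jj v
  hh : ∀ v ∈ T, g'.hh v = g.hh v
  U : ∀ v ∈ T, g'.U v = g.U v ∧ ∀ m, g'.U (m :: v) = g.U (m :: v)

theorem extend (H : Hyp Q τ) (hC : H.Cls) {T : Finset (Nd Q)} {g : Cfg Q H.P} (I : Inv H T g) {w : Nd Q}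
    (hw : Ok w) (hT : w ∉ T) (hlen : ∀ w', Ok w' → w'.length < w.length → w' ∈ T) :
    ∃ g', Inv H (insert w T) g' ∧ Pres T g g' := by
  have hne : w ≠ [] := fun h => hT (h ▸ I.i1.nil)
  obtain ⟨d, s⟩ := exists_Stp H hC I hw hne hT hlen
  refine ⟨d.fin τ H.f g w, ⟨fin_inv1 H s, fin_inv2 H s, fin_inv3 H s, fin_inv4 H s, fin_via H s⟩, ?_⟩
  have hv : ∀ v ∈ T, v ≠ w := fun v hv e => hT (e ▸ hv)
  constructor
  · intro v h; exact Function.update_of_ne (hv v h) _ _
  · intro v h; exact Function.update_of_ne (hv v h) _ _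
  · intro v h; exact Function.update_of_ne (hv v h) _ _
  · intro v h; exact Function.update_of_ne (hv v h) _ _
  · intro v h; exact Function.update_of_ne (hv v h) _ _
  · intro v h; exact Function.update_of_ne (hv v h) _ _
  · intro v h; exact Function.update_of_ne (hv v h) _ _
  · intro v h; exact Function.update_of_ne (hv v h) _ _
  · intro v h
    refine ⟨?_, fun m => if_neg (hv v h)⟩
    rcases v with _ | ⟨m, v⟩
    · rfl
    · refine if_neg fun e => ?_
      subst e
      exact hT (I.i1.mem_of_suffix h (List.suffix_cons _ _))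

/- MODULE xc12 (size 2): the initial configuration.

`g₀`: `S _ = S0`, `D _ = E0`, `C _ = E0`, `reg _ _ = ⊤`, `E = E0`, `ex` from `adm0`, exponents `0`, all regions `⊤`.  `CIn H ∅ g₀ [] S0 ⊤ ⊤`: `nf (nc []) [] = ∅` (`rel ⊥ [] = ∅`, `rto [] = ∅`: no proper suffixes).  `cstep` gives `ex`, `C`, `S₃`, `hh`, `ecw`, `e`; `exists_slots` for `S₃`, `V = ⊤`.
`g' = { S _ := S₃, D _ := E0, C _ := C, reg κ x := if κ = some [] ∧ τ.cl = 1 then hh else ⊤, E := if τ.cl = 1 then E0 \ f ⁻¹' hh else E0, ex := ex, exz _ := e, exf _ := e, ec _ := ecw, U := ⊤ except U (m :: []) from the slots, th, et, gg, jj := ⊤, hh _ := hh }`.  `T = {[]}`: most of the invariants are vacuous.  `Via`: `aliveA`, `freshD` (`rdd [] = ∅`), `an_own`. -/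

private theorem xc12_nf (c : Q.L → Ctx Q) (σ : Sta Q) : σ ∉ nf c [] := by
  intro hσ
  rcases Finset.mem_union.1 hσ with h | h
  · obtain ⟨y, hy, -⟩ := Finset.mem_image.1 h
    rw [Set.Finite.mem_toFinset] at hy
    exact hy.2.2.1 (List.suffix_nil.1 hy.2.2.2.1.suffix)
  · obtain ⟨r, hr, -⟩ := Finset.mem_image.1 h
    rw [Set.Finite.mem_toFinset] at hr
    exact hr.1 (List.suffix_nil.1 hr.2.1.suffix)

theorem root (H : Hyp Q τ) (hC : H.Cls) : ∃ g : Cfg Q H.P, Inv H {[]} g := by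
  obtain ⟨ex₀, hex₀⟩ := H.adm0
  let g₀ : Cfg Q H.P :=
    { S := fun _ => H.S0, D := fun _ => H.E0, C := fun _ => H.E0, reg := fun _ _ => ⊤, E := H.E0, ex := ex₀,
      exz := fun _ => 0, exf := fun _ => 0, ec := fun _ => 0, U := fun _ => ⊤, th := fun _ => ⊤,
      et := fun _ => ⊤, gg := fun _ => ⊤, jj := fun _ => ⊤, hh := fun _ => ⊤ }
  have htop : ∀ X : Set H.P, X ⊆ H.f ⁻¹' ((⊤ : Clopens CC) : Set CC) := fun X x _ => trivial
  have K₀ : CIn H ∅ g₀ [] H.S0 ⊤ ⊤ := by
    have hc : H.S0 ⊆ clo H.ξ (Q.kap + 1) (H.E0 ∩ H.f ⁻¹' ((⊤ : Clopens CC) : Set CC)) :=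
      H.hclo.trans (clo_mono (subset_inter Subset.rfl (htop _)))
    exact ⟨fun v hv => absurd hv (Finset.notMem_empty _), fun _ => H.oS, fun _ => H.oE, fun _ => H.oE, H.oE,
      Subset.rfl, hex₀, H.oS, H.neS, Subset.rfl, H.hclo, fun v hv => absurd hv (Finset.notMem_empty _),
      fun _ v hv => absurd hv (Finset.notMem_empty _), fun σ hσ => absurd hσ (xc12_nf _ σ), fun _ => hc, fun _ => hc⟩
  obtain ⟨ex, C, S₃, hh, ecw, e, K⟩ := cstep H hC K₀
  have hok : Ok ([] : Nd Q) := trivial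
  obtain ⟨U, hU, hUd⟩ := exists_slots H hok K.o K.ne K.sub (V := ⊤) (fun x _ => trivial)
  let g : Cfg Q H.P :=
    { S := fun _ => S₃, D := fun _ => H.E0, C := fun _ => C,
      reg := fun κ x => if κ = some [] ∧ x = [] ∧ τ.cl = 1 then hh else ⊤,
      E := if τ.cl = 1 then H.E0 \ H.f ⁻¹' hh else H.E0, ex := ex,
      exz := fun _ => e, exf := fun _ => e, ec := fun _ => ecw,
      U := fun x => match x with
        | [] => ⊤
        | m :: v => if v = [] then U m else ⊤
      th := fun _ => ⊤, et := fun _ => ⊤, gg := fun _ => ⊤, jj := fun _ => ⊤, hh := fun _ => hh }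
  have hr0 : ∀ x, g.reg none x = ⊤ := by
    intro x
    show (if (none : Option (Nd Q)) = some [] ∧ x = [] ∧ τ.cl = 1 then hh else ⊤) = ⊤
    rw [if_neg (fun h => Option.some_ne_none _ h.1.symm)]
  have hr1 : τ.cl = 1 → g.reg (some []) [] = hh := fun h => if_pos ⟨rfl, rfl, h⟩
  have hr2 : τ.cl ≠ 1 → g.reg (some []) [] = ⊤ := fun h => if_neg (fun h' => h h'.2.2)
  have hcls : τ.cls (some []) = some [] := by
    show (if τ.cl = 0 then some [] else some []) = some []
    simp
  have hz : ∀ v : Nd Q, v ∈ ({[]} : Finset (Nd Q)) → v = [] := fun v hv => Finset.mem_singleton.1 hv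
  have hE1 : τ.cl = 1 → g.E = H.E0 \ H.f ⁻¹' hh := fun h => if_pos h
  have hE2 : τ.cl ≠ 1 → g.E = H.E0 := fun h => if_neg h
  have hSE : S₃ ⊆ clo H.ξ (Q.kap + 1) g.E := K.SE
  have hal : S₃ ⊆ H.G g (.A ⊥ [] (fun _ => none)) := by
    refine aliveA H (g := g) (w := []) K.o ?_ K.SC (fun σ hσ => absurd hσ (xc12_nf _ σ))
    refine freshD H (g := g) (w := []) K.o K.oC ?_ K.CS ?_ hSE ?_
    · have h1 : τ.an (some []) [] = ([] : Nd Q) := by rw [an_own]; split_ifs <;> rfl
      rw [h1, hcls]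
      by_cases h : τ.cl = 1
      · rw [hr1 h]; exact (K.c1 h).1
      · rw [hr2 h]; exact htop _
    · rw [hr0]; exact htop _
    · rintro r' ⟨-, h1, h2⟩
      exact absurd (List.suffix_nil.1 h2.suffix) h1
  refine ⟨g, ⟨?_, ?_, ?_, ?_, ?_⟩⟩
  · constructor
    · exact Finset.mem_singleton_self _
    · intro v hv; rw [hz v hv]; exact hok
    · intro v hv w' _ hl
      rw [hz v hv] at hl
      exact absurd hl (Nat.not_lt_zero _)
    · exact fun _ => K.o
    · exact fun _ => H.oE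
    · exact fun _ => K.oC
    · by_cases h : τ.cl = 1
      · rw [hE1 h]; exact H.oE.sdiff (hh.isClopen.isClosed.preimage H.hf)
      · rw [hE2 h]; exact H.oE
    · by_cases h : τ.cl = 1
      · rw [hE1 h]; exact diff_subset
      · rw [hE2 h]
    · exact fun _ _ => K.ne
    · intro v hv
      rw [hz v hv]
      exact subset_inter K.sub (fun x _ => trivial)
    · exact fun v hv hne => absurd (hz v hv) hne
    · exact fun v hv hne => absurd (hz v hv) hne
    · exact fun _ _ => K.neC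
    · exact fun _ _ => K.sC
    · exact fun v hv hne => absurd (hz v hv) hne
    · exact fun v hv hne => absurd (hz v hv) hne
    · exact fun v hv hne => absurd (hz v hv) hne
    · exact fun v hv hne => absurd (hz v hv) hne
    · exact fun v hv hne => absurd (hz v hv) hne
    · exact fun v hv hne => absurd (hz v hv) hne
    · intro v hv m hm
      have h := hz v hv
      subst h
      refine ⟨le_top, ?_⟩
      intro z _ z' _ i hi
      exact absurd hi (Nat.not_lt_zero _)
    · intro v hv m m' hm hm' hne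
      have h := hz v hv
      subst h
      exact hUd m m' hm hm' hne
  · constructor
    · exact K.ext.adm
    · intro v hv k hk hι
      rw [hz v hv] at hι
      exact ⟨K.fe.lt k hk hι, K.fe.lt k hk hι⟩
    · exact fun _ _ => ⟨K.fe.kap, K.fe.kap⟩
    · exact fun _ _ => ⟨K.fe.one, K.fe.one⟩
    · exact fun h _ _ => ⟨K.fe.md h, K.fe.md h⟩
    · exact fun _ _ => ⟨K.fe.eA, K.fe.eA⟩
    · exact fun _ _ => ⟨K.fe.eB, K.fe.eB⟩
    · intro h0 r hr
      rw [hz r hr]; exact K.cell h0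
    · intro h0 hB r hr hDB
      rw [hz r hr] at hDB
      exact ⟨K.fe.ec h0 hB hDB, fun v hv hne => absurd (hz v hv) hne⟩
  · constructor
    · exact fun _ => hr0 _
    · exact fun _ v hv hne => absurd (hz v hv) hne
    · exact fun _ v hv hne => absurd (hz v hv) hne
    · exact fun _ v hv _ _ hne => absurd (hz v hv) hne
    · exact fun _ _ _ => le_top
    · exact fun _ v hv hne => absurd (hz v hv) hne
  · constructor
    · exact fun _ v hv hne => absurd (hz v hv) hne
    · exact fun _ v hv hne => absurd (hz v hv) hne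
    · exact fun _ v hv _ _ hne => absurd (hz v hv) hne
    · intro _ r hr x hx _
      rw [hz r hr, hz x hx, hcls]
      by_cases h : τ.cl = 1
      · rw [hr1 h]
        have h2 : orig τ g (some []) [] = hh := by
          unfold orig
          rw [if_pos ⟨rfl, by rw [h]; decide⟩, if_pos h]
        rw [h2]
      · have h2 : orig τ g (some []) [] = ⊤ := by
          unfold orig
          rw [if_neg h]
          split_ifs <;> rfl
        rw [h2]; exact le_top
    · exact fun _ v hv hne => absurd (hz v hv) hne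
    · intro h _
      exact hr2 (by rw [h]; decide)
    · exact fun _ v hv v' hv' hne => absurd ((hz v hv).trans (hz v' hv').symm) hne
    · intro h v hv
      refine ⟨(K.c1 h).1, ?_⟩
      rw [hE1 h]
      exact diff_inter_self
    · intro h _ r hr
      rw [hz r hr]; exact hr1 h
    · exact hE2
    · intro h v hv
      exact ⟨htop _, hSE.trans (clo_mono (subset_inter Subset.rfl (htop _)))⟩
    · exact fun _ v hv hne => absurd (hz v hv) hne
    · exact fun _ _ v hv hne => absurd (hz v hv) hne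
    · exact fun _ _ v hv _ _ hne => absurd (hz v hv) hne
    · intro h _ r hr
      refine ⟨le_top, ?_, fun w hw hne => absurd (hz w hw) hne⟩
      rw [hz r hr, hr2 (by rw [h]; decide)]
      exact htop _
  · intro v hv m hm _
    have h := hz v hv
    subst h
    obtain ⟨x, hx, hx'⟩ := (hU m hm).2.2
    exact ⟨x, hal hx, hx'⟩

end Pool.Agent.Bsw
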