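import Pool.Agent.Bsw.Ric

/-!
# The game

Player I plays the moves of the tree, player II replies with a digit of the point, a digit `a` (side `A`) and a digit `b` (side `B`).  Positions are lists, newest first.
-/

set_option autoImplicit false

open Set Filter Topology TopologicalSpace
open scoped Classical

namespace Pool.Agent.Bsw

/-- The Baire space. -/
abbrev NN := ℕ → ℕ

/-- `y` extends the list `l` (newest first). -/
def Agl {α : Type} : List α → (ℕ → α) → Prop
  | [], _ => True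
  | c :: l, y => c = y l.length ∧ Agl l y

/-- Replies: the digit of the point, `a`, `b`. -/
abbrev Rp := Bool × ℕ × ℕ

/-- Positions. -/
abbrev Ps (Q : Par) := List (Mv Q × Rp)

variable {Q : Par}

/-- The node of a position. -/
def nd (p : Ps Q) : Nd Q := p.map Prod.fst

/-- The digits of the point. -/
def xs (p : Ps Q) : List Bool := p.map (fun z => z.2.1)

theorem lastN_length_le {α : Type} (n : ℕ) (u : List α) : (lastN n u).length ≤ u.length :=
  (lastN_suffix n u).length_le

/-- The sequence on the side `A`. -/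
noncomputable def sA : Ps Q → List ℕ
  | [] => []
  | z :: p => z.2.2.1 :: sA (lastN (q univ (nd (z :: p))).length p)
termination_by p => p.length
decreasing_by exact Nat.lt_succ_of_le (lastN_length_le _ _)

/-- The sequence on the side `B`. -/
noncomputable def eB : Ps Q → List ℕ
  | [] => []
  | z :: p => z.2.2.2 :: (if dpar (nd (z :: p)) = none then [] else eB (lastN ((dpar (nd (z :: p))).getD []).length p))
termination_by p => p.length
decreasing_by exact Nat.lt_succ_of_le (lastN_length_le _ _)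

/-- Legal positions. -/
def Leg (a b : NN → CC) : Ps Q → Prop
  | [] => True
  | z :: p => Leg a b p ∧ Ok (nd (z :: p)) ∧ (∃ y, Agl (sA (z :: p)) y ∧ Agl (xs (z :: p)) (a y)) ∧
      ∃ y, Agl (eB (z :: p)) y ∧ Agl (xs (z :: p)) (b y)

/-- Player I wins from `p` with rank `≤ α`. -/
def Wn (a b : NN → CC) (α : Ordinal.{0}) (p : Ps Q) : Prop :=
  ∃ m, Ok (m :: nd p) ∧ ∀ r, Leg a b ((m, r) :: p) → ∃ β : Iio α, Wn a b β.1 ((m, r) :: p)
termination_by α
decreasing_by exact β.2

/-- MODULE ga1 (size 1): lists. -/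
theorem nd_lastN (p : Ps Q) (n : ℕ) : nd (lastN n p) = lastN n (nd p) := by
  simp only [nd, lastN, List.map_drop, List.length_map]

theorem nd_length (p : Ps Q) : (nd p).length = p.length := by
  simp only [nd, List.length_map]

theorem nd_suffix {p P : Ps Q} (h : p <:+ P) : nd p <:+ nd P := by
  exact h.map _

theorem Agl_suffix {α : Type} {l l' : List α} {y : ℕ → α} (h : Agl l y) (hl : l' <:+ l) : Agl l' y := by
  obtain ⟨t, rfl⟩ := hl
  induction t with
  | nil => exact h
  | cons c t ih => exact ih h.2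

theorem Agl_iff {α : Type} {l : List α} {y : ℕ → α} : Agl l y ↔ ∀ i < l.length, l.reverse[i]? = some (y i) := by
  induction l with
  | nil => simp [Agl]
  | cons c l ih =>
    rw [Agl, ih, List.reverse_cons, List.length_cons]
    constructor
    · rintro ⟨h1, h2⟩ i hi
      rcases Nat.lt_or_ge i l.length with h3 | h3
      · rw [List.getElem?_append_left (by rw [List.length_reverse]; exact h3)]
        exact h2 i h3
      · have h4 : i = l.length := by omega
        subst h4
        rw [List.getElem?_append_right (by rw [List.length_reverse]), List.length_reverse, Nat.sub_self, h1]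
        rfl
    · intro h
      refine ⟨?_, fun i hi => ?_⟩
      · have h1 := h l.length (by omega)
        rw [List.getElem?_append_right (by rw [List.length_reverse]), List.length_reverse, Nat.sub_self] at h1
        exact Option.some.inj h1
      · have h1 := h i (by omega)
        rwa [List.getElem?_append_left (by rw [List.length_reverse]; exact hi)] at h1

theorem Leg.ok {a b : NN → CC} {p : Ps Q} (h : Leg a b p) : Ok (nd p) := by
  cases p with
  | nil => trivial
  | cons z p => exact h.2.1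

theorem Leg.suffix {a b : NN → CC} {p P : Ps Q} (h : Leg a b P) (hp : p <:+ P) : Leg a b p := by
  obtain ⟨t, rfl⟩ := hp
  induction t with
  | nil => exact h
  | cons c t ih => exact ih h.1

/-- The set of the `x` which extend `l` is clopen. -/
theorem isClopen_Agl {α : Type} [TopologicalSpace α] [DiscreteTopology α] (l : List α) :
    IsClopen {x : ℕ → α | Agl l x} := by
  induction l with
  | nil => exact isClopen_univ
  | cons c l ih =>
    have h1 : IsClopen {x : ℕ → α | c = x l.length} :=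
      (isClopen_discrete {u : α | c = u}).preimage (continuous_apply l.length)
    exact h1.inter ih

/-- MODULE ga2 (size 2): the strategy of player II.

Proof.  Call `p` lost if `Wn a b α p` for some `α`.  If `p` is not lost and `Ok (m :: nd p)` then there is `r` with `Leg ((m, r) :: p)` and `(m, r) :: p` not lost: otherwise for every `r` with `Leg ((m, r) :: p)` choose `β r` with `Wn a b (β r) ((m, r) :: p)`; `α = ⨆ r, (β r + 1)` (countably many `r`) gives `Wn a b α p`.  Recursion along the nodes: `F [] = []`, `F (m :: u) = (m, r) :: F u` with `r` chosen for `F u`, `m`. -/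
theorem exists_F {a b : NN → CC} (h : ¬ ∃ α, Wn a b α ([] : Ps Q)) :
    ∃ F : Nd Q → Ps Q, F [] = [] ∧ ∀ m u, Ok (m :: u) → (∃ r, F (m :: u) = (m, r) :: F u) ∧ Leg a b (F (m :: u)) := by
  have key : ∀ (p : Ps Q) (m : Mv Q), (¬ ∃ α, Wn a b α p) → Ok (m :: nd p) →
      ∃ r, Leg a b ((m, r) :: p) ∧ ¬ ∃ α, Wn a b α ((m, r) :: p) := by
    intro p m hp hm
    by_contra hcon
    push Not at hcon
    apply hp
    choose β hβ using hcon
    let γ : Rp → Ordinal.{0} := fun r => if h : Leg a b ((m, r) :: p) then β r h + 1 else 0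
    refine ⟨⨆ r, γ r, ?_⟩
    rw [Wn]
    refine ⟨m, hm, fun r hr => ?_⟩
    have h1 : β r hr < ⨆ r, γ r := by
      have h2 : γ r = β r hr + 1 := dif_pos hr
      have h3 : γ r ≤ ⨆ r, γ r := le_ciSup Ordinal.bddAbove_of_small r
      rw [h2] at h3
      exact lt_of_lt_of_le (Order.lt_add_one_iff.2 le_rfl) h3
    exact ⟨⟨β r hr, h1⟩, hβ r hr⟩
  let F : Nd Q → Ps Q := fun w => List.rec (motive := fun _ => Ps Q) []
    (fun m _ Fu => (m, if h : ∃ r, Leg a b ((m, r) :: Fu) ∧ ¬ ∃ α, Wn a b α ((m, r) :: Fu) then h.choose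
      else (false, 0, 0)) :: Fu) w
  have hF : ∀ w : Nd Q, Ok w → nd (F w) = w ∧ Leg a b (F w) ∧ ¬ ∃ α, Wn a b α (F w) := by
    intro w
    induction w with
    | nil => exact fun _ => ⟨rfl, trivial, h⟩
    | cons m u ih =>
      intro hw
      obtain ⟨h1, h2, h3⟩ := ih hw.1
      have h4 : ∃ r, Leg a b ((m, r) :: F u) ∧ ¬ ∃ α, Wn a b α ((m, r) :: F u) := by
        refine key (F u) m h3 ?_
        rw [h1]
        exact hw
      have h5 : F (m :: u) = (m, h4.choose) :: F u := by
        show (m, if h : ∃ r, Leg a b ((m, r) :: F u) ∧ ¬ ∃ α, Wn a b α ((m, r) :: F u) then h.choose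
          else (false, 0, 0)) :: F u = (m, h4.choose) :: F u
        rw [dif_pos h4]
      rw [h5]
      refine ⟨?_, h4.choose_spec.1, h4.choose_spec.2⟩
      show m :: nd (F u) = m :: u
      rw [h1]
  refine ⟨F, rfl, fun m u hw => ⟨⟨_, rfl⟩, (hF (m :: u) hw).2.1⟩⟩

/-- MODULE ga3 (size 3): the system from a strategy of player II.

Proof.  `nd (F w) = w` for `Ok w`, and `F p` is the restriction `lastN p.length (F w)` for `p <:+ w`.  For an `A`-chain `c`: `sA (F (c (n+1))) = a :: sA (F (c n))` (`q univ (c (n+1)) = c n`), so `(sA (F (c n))).length = n`: they define `ζ z : NN` with `Agl (sA (F (c n))) (ζ z)`; `B`-chains: `eB (F (v 0)) = [b]` (`dpar = none`), `eB (F (v (n+1))) = b :: eB (F (v n))`: `(eB (F (v n))).length = n + 1`.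
`ξ z` is the point with `Agl (xs (F (pre (brn z) n))) (ξ z)` for all `n`.  `Hx`: the first `n` digits of `ξ z` depend on `pre (brn z) n`.  `ζ` is continuous: the first `n` digits of `ζ z` depend on `c n` (the coordinate `z.1 (n+1)`) or on `v n` (the coordinate `z.1 (n+2)`).
`ξ z = a (ζ z)` for `z ∈ PA`: by `Leg` there is `y n` with `Agl (sA (F (c n))) (y n)`, `Agl (xs (F (c n))) (a (y n))`: `y n → ζ z`, and `a (y n)` agrees with `ξ z` below `(c n).length → ∞` (`Pr_brn`).  The same for `PB`. -/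
theorem exists_sys {a b : NN → CC} (ha : Continuous a) (hb : Continuous b) (h : ¬ ∃ α, Wn a b α ([] : Ps Q)) :
    ∃ (ξ : Pt Q → CC) (ζ : Pt Q → NN), Hx ξ ∧ Continuous ζ ∧ (∀ z ∈ PA Q, ξ z = a (ζ z)) ∧
      ∀ z ∈ PB Q, ξ z = b (ζ z) := by
  obtain ⟨F, hF0, hF⟩ := exists_F h
  -- basic facts on `F`
  have hsuf : ∀ w : Nd Q, Ok w → ∀ p : Nd Q, p <:+ w → F p <:+ F w := by
    intro w
    induction w with
    | nil =>
      intro _ p hp
      rw [List.suffix_nil.1 hp]
    | cons m u ih =>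
      intro hw p hp
      rcases List.suffix_cons_iff.1 hp with rfl | h1
      · exact List.suffix_rfl
      · obtain ⟨r, hr⟩ := (hF m u hw).1
        rw [hr]
        exact (ih hw.1 p h1).trans (List.suffix_cons _ _)
  have hnd : ∀ w : Nd Q, Ok w → nd (F w) = w := by
    intro w
    induction w with
    | nil => intro _; rw [hF0, nd, List.map_nil]
    | cons m u ih =>
      intro hw
      obtain ⟨r, hr⟩ := (hF m u hw).1
      rw [hr]
      show m :: nd (F u) = m :: u
      rw [ih hw.1]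
  have hlen : ∀ w : Nd Q, Ok w → (F w).length = w.length := by
    intro w hw
    have h1 := congrArg List.length (hnd w hw)
    rwa [nd, List.length_map] at h1
  have hlast : ∀ w : Nd Q, Ok w → ∀ p : Nd Q, p <:+ w → lastN p.length (F w) = F p := by
    intro w hw p hp
    rw [← hlen p (hw.suffix hp)]
    exact lastN_of_suffix (hsuf w hw p hp)
  -- the sequences
  have hsA : ∀ (m : Mv Q) (u : Nd Q), Ok (m :: u) → ∃ k, sA (F (m :: u)) = k :: sA (F (q univ (m :: u))) := by
    intro m u hw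
    obtain ⟨r, hr⟩ := (hF m u hw).1
    have h1 := hnd _ hw
    rw [hr] at h1
    rw [hr, sA, h1, hlast u hw.1 _ (q_suffix univ m u)]
    exact ⟨_, rfl⟩
  have heB0 : ∀ (m : Mv Q) (u : Nd Q), Ok (m :: u) → dpar (m :: u) = none → ∃ k, eB (F (m :: u)) = [k] := by
    intro m u hw hd
    obtain ⟨r, hr⟩ := (hF m u hw).1
    have h1 := hnd _ hw
    rw [hr] at h1
    rw [hr, eB, h1, if_pos hd]
    exact ⟨_, rfl⟩
  have heB1 : ∀ (m : Mv Q) (u v : Nd Q), Ok (m :: u) → dpar (m :: u) = some v → v <:+ u →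
      ∃ k, eB (F (m :: u)) = k :: eB (F v) := by
    intro m u v hw hd hv
    obtain ⟨r, hr⟩ := (hF m u hw).1
    have h1 := hnd _ hw
    rw [hr] at h1
    have h2 : ¬ dpar (m :: u) = none := by rw [hd]; simp
    rw [hr, eB, h1, if_neg h2, hd, Option.getD_some, hlast u hw.1 v hv]
    exact ⟨_, rfl⟩
  -- the point
  let ξ : Pt Q → CC := fun z k => (xs (F (pre (brn z) (k + 1)))).headD false
  have hξ : ∀ z n, (xs (F (pre (brn z) n))).length = n ∧ Agl (xs (F (pre (brn z) n))) (ξ z) := by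
    intro z n
    induction n with
    | zero =>
      have h1 : F (pre (brn z) 0) = [] := hF0
      rw [h1]
      exact ⟨rfl, trivial⟩
    | succ n ih =>
      have hok : Ok (brn z n :: pre (brn z) n) := brn_mem z (n + 1)
      obtain ⟨r, hr⟩ := (hF _ _ hok).1
      have h1 : xs (F (pre (brn z) (n + 1))) = r.1 :: xs (F (pre (brn z) n)) := by
        show xs (F (brn z n :: pre (brn z) n)) = _
        rw [hr]
        rfl
      have h2 : ξ z n = r.1 := by
        show (xs (F (pre (brn z) (n + 1)))).headD false = r.1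
        rw [h1]
        rfl
      rw [h1]
      refine ⟨by rw [List.length_cons, ih.1], ?_, ih.2⟩
      rw [ih.1, h2]
  let dn : ℕ → Nd Q := Function.invFun (cd Q)
  have hdn : ∀ w, dn (cd Q w) = w := Function.leftInverse_invFun (cd_inj Q)
  let ζ : Pt Q → NN := fun z k => if z.1 0 = 0 then (sA (F (dn (z.1 (k + 2))))).headD 0
    else (eB (F (dn (z.1 (k + 2))))).headD 0
  have hζA : ∀ z ∈ PA Q, ∀ c, ACh c → (∀ n, z.1 (n + 1) = cd Q (c n)) → ∀ n,
      (sA (F (c n))).length = n ∧ Agl (sA (F (c n))) (ζ z) := by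
    intro z hz c hc hcz n
    induction n with
    | zero =>
      rw [hc.zero, hF0]
      exact ⟨by rw [sA]; rfl, by rw [sA]; trivial⟩
    | succ n ih =>
      obtain ⟨m, u, hu⟩ := List.exists_cons_of_ne_nil (hc.ne n)
      have hok := hc.ok (n + 1)
      have hq := hc.q n
      rw [hu] at hok hq
      obtain ⟨k, hk⟩ := hsA m u hok
      rw [hq] at hk
      have h1 : ζ z n = k := by
        show (if z.1 0 = 0 then (sA (F (dn (z.1 (n + 2))))).headD 0
          else (eB (F (dn (z.1 (n + 2))))).headD 0) = k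
        have h0 : z.1 0 = 0 := hz
        rw [if_pos h0, show z.1 (n + 2) = cd Q (c (n + 1)) from hcz (n + 1), hdn, hu, hk]
        rfl
      rw [hu, hk]
      refine ⟨by rw [List.length_cons, ih.1], ?_, ih.2⟩
      rw [ih.1, h1]
  have hζB : ∀ z ∈ PB Q, ∀ r v, BCh r v → (∀ n, z.1 (n + 2) = cd Q (v n)) → ∀ n,
      (eB (F (v n))).length = n + 1 ∧ Agl (eB (F (v n))) (ζ z) := by
    intro z hz r v hc hcz n
    have hval : ∀ n m u k l, v n = m :: u → eB (F (m :: u)) = k :: l → ζ z n = k := by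
      intro n m u k l hu hk
      show (if z.1 0 = 0 then (sA (F (dn (z.1 (n + 2))))).headD 0
        else (eB (F (dn (z.1 (n + 2))))).headD 0) = k
      have h0 : ¬ z.1 0 = 0 := by
        have h1 : z.1 0 = 1 := hz
        rw [h1]
        exact one_ne_zero
      rw [if_neg h0, hcz n, hdn, hu, hk]
      rfl
    induction n with
    | zero =>
      obtain ⟨m, u, hu⟩ := List.exists_cons_of_ne_nil (hc.ne 0)
      have hok := hc.ok 0
      have hd := hc.zero
      rw [hu] at hok hd
      obtain ⟨k, hk⟩ := heB0 m u hok hd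
      have h1 := hval 0 m u k [] hu hk
      rw [hu, hk]
      exact ⟨rfl, h1.symm, trivial⟩
    | succ n ih =>
      obtain ⟨m, u, hu⟩ := List.exists_cons_of_ne_nil (hc.ne (n + 1))
      have hok := hc.ok (n + 1)
      have hd := hc.succ n
      have hs := hc.suffix n
      rw [hu] at hok hd hs
      have hv : v n <:+ u := by
        rcases List.suffix_cons_iff.1 hs.1 with h1 | h1
        · have h2 := hs.2
          rw [h1] at h2
          exact absurd h2 (lt_irrefl _)
        · exact h1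
      obtain ⟨k, hk⟩ := heB1 m u (v n) hok hd hv
      have h1 := hval (n + 1) m u k _ hu hk
      rw [hu, hk]
      refine ⟨by rw [List.length_cons, ih.1], ?_, ih.2⟩
      rw [ih.1, h1]
  have hagl : ∀ {α : Type} (l : List α) (y y' : ℕ → α), Agl l y → Agl l y' → ∀ i < l.length, y i = y' i := by
    intro α l y y'
    induction l with
    | nil => intro _ _ i hi; exact absurd hi (Nat.not_lt_zero _)
    | cons c l ih =>
      intro h1 h2 i hi
      rcases Nat.lt_or_ge i l.length with h3 | h3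
      · exact ih h1.2 h2.2 i h3
      · have h4 : i = l.length := by
          rw [List.length_cons] at hi
          omega
        rw [h4, ← h1.1, ← h2.1]
  have hloc : ∀ (g : NN → CC), Continuous g → ∀ (y : NN) (k : ℕ), ∃ N, ∀ y' : NN, (∀ i < N, y' i = y i) →
      g y' k = g y k := by
    intro g hg y k
    have h1 : IsOpen {y' : NN | g y' k = g y k} := by
      have h2 : Continuous fun y' : NN => g y' k := (continuous_apply k).comp hg
      exact (isOpen_discrete {g y k}).preimage h2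
    obtain ⟨I, w, hw, hI⟩ := isOpen_pi_iff.mp h1 y rfl
    refine ⟨I.sup id + 1, fun y' hy' => hI fun i hi => ?_⟩
    have h3 : i ≤ I.sup id := Finset.le_sup (f := id) (Finset.mem_coe.mp hi)
    rw [hy' i (by omega)]
    exact (hw i (Finset.mem_coe.mp hi)).2
  refine ⟨ξ, ζ, ?_, ?_, ?_, ?_⟩
  · intro z V hV
    obtain ⟨W, hWV, hW, hzW⟩ := mem_nhds_iff.1 hV
    obtain ⟨I, w, hw, hI⟩ := isOpen_pi_iff.mp hW (ξ z) hzW
    refine ⟨pre (brn z) (I.sup id + 1), Pr_pre _ _, fun z' hz' => hWV (hI fun i hi => ?_)⟩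
    have h3 : i ≤ I.sup id := Finset.le_sup (f := id) (Finset.mem_coe.mp hi)
    have h4 : Pr (pre (brn z) (i + 1)) (brn z') := Pr_of_suffix hz' (pre_suffix _ (by omega))
    have h5 : pre (brn z') (i + 1) = pre (brn z) (i + 1) := by
      have h6 : pre (brn z') (pre (brn z) (i + 1)).length = pre (brn z) (i + 1) := h4
      rwa [pre_length] at h6
    have h6 : ξ z' i = ξ z i := by
      show (xs (F (pre (brn z') (i + 1)))).headD false = (xs (F (pre (brn z) (i + 1)))).headD false
      rw [h5]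
    rw [h6]
    exact (hw i (Finset.mem_coe.mp hi)).2
  · refine continuous_pi fun k => ?_
    have h1 : Continuous fun z : Pt Q => (z.1 0, z.1 (k + 2)) :=
      ((continuous_apply 0).comp continuous_subtype_val).prodMk
        ((continuous_apply (k + 2)).comp continuous_subtype_val)
    have h2 : Continuous fun t : ℕ × ℕ => if t.1 = 0 then (sA (F (dn t.2))).headD 0
        else (eB (F (dn t.2))).headD 0 := continuous_of_discreteTopology
    exact h2.comp h1
  · intro z hz
    obtain ⟨c, hc, hcz⟩ := exists_ACh hz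
    have hlenc : ∀ n, n ≤ (c n).length := by
      intro n
      induction n with
      | zero => exact Nat.zero_le _
      | succ n ih => exact lt_of_le_of_lt ih (hc.suffix n).2
    funext k
    obtain ⟨N, hN⟩ := hloc a ha (ζ z) k
    have hne : c (N + k + 1) ≠ [] := hc.ne _
    obtain ⟨m, u, hu⟩ := List.exists_cons_of_ne_nil hne
    have hok := hc.ok (N + k + 1)
    have hAg := hζA z hz c hc hcz (N + k + 1)
    have hPr : Pr (c (N + k + 1)) (brn z) := Pr_brn (Or.inl ⟨hz, _, hcz _⟩)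
    have hl := hlenc (N + k + 1)
    have hx := hξ z (c (N + k + 1)).length
    rw [show pre (brn z) (c (N + k + 1)).length = c (N + k + 1) from hPr] at hx
    rw [hu] at hok hAg hx
    obtain ⟨r, hr⟩ := (hF m u hok).1
    have hLeg := (hF m u hok).2
    rw [hr] at hLeg
    obtain ⟨y, hy1, hy2⟩ := hLeg.2.2.1
    rw [← hr] at hy1 hy2
    have e1 : a y k = a (ζ z) k := hN y fun i hi => hagl _ y (ζ z) hy1 hAg.2 i (by rw [hAg.1]; omega)
    have e2 : ξ z k = a y k := hagl _ (ξ z) (a y) hx.2 hy2 k (by rw [hx.1, ← hu]; omega)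
    rw [e2, e1]
  · intro z hz
    obtain ⟨r, c, hc, _, hcz⟩ := exists_BCh hz
    have hlenc : ∀ n, n ≤ (c n).length := by
      intro n
      induction n with
      | zero => exact Nat.zero_le _
      | succ n ih => exact lt_of_le_of_lt ih (hc.suffix n).2
    funext k
    obtain ⟨N, hN⟩ := hloc b hb (ζ z) k
    have hne : c (N + k + 1) ≠ [] := hc.ne _
    obtain ⟨m, u, hu⟩ := List.exists_cons_of_ne_nil hne
    have hok := hc.ok (N + k + 1)
    have hAg := hζB z hz r c hc hcz (N + k + 1)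
    have hPr : Pr (c (N + k + 1)) (brn z) := Pr_brn (Or.inr ⟨hz, _, hcz _⟩)
    have hl := hlenc (N + k + 1)
    have hx := hξ z (c (N + k + 1)).length
    rw [show pre (brn z) (c (N + k + 1)).length = c (N + k + 1) from hPr] at hx
    rw [hu] at hok hAg hx
    obtain ⟨r', hr⟩ := (hF m u hok).1
    have hLeg := (hF m u hok).2
    rw [hr] at hLeg
    obtain ⟨y, hy1, hy2⟩ := hLeg.2.2.2
    rw [← hr] at hy1 hy2
    have e1 : b y k = b (ζ z) k := hN y fun i hi => hagl _ y (ζ z) hy1 hAg.2 i (by rw [hAg.1]; omega)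
    have e2 : ξ z k = b y k := hagl _ (ξ z) (b y) hx.2 hy2 k (by rw [hx.1, ← hu]; omega)
    rw [e2, e1]

/-! ## Player I wins -/

/-- A strategy of player I with an injective rank function. -/
structure Gm (Q : Par) where
  a : NN → CC
  b : NN → CC
  σ : Ps Q → Mv Q
  key : Ps Q → Ordinal.{0}

/-- Positions which follow the strategy. -/
inductive Fol (σ : Ps Q → Mv Q) : Ps Q → Prop
  | nil : Fol σ []
  | cons {p : Ps Q} (r : Rp) : Fol σ p → Fol σ ((σ p, r) :: p)

/-- It is winning. -/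
structure Gm.Win (G : Gm Q) : Prop where
  inj : Function.Injective G.key
  ok : ∀ p, Fol G.σ p → Leg G.a G.b p → Ok (G.σ p :: nd p)
  dec : ∀ p, Fol G.σ p → Leg G.a G.b p → ∀ r, Leg G.a G.b ((G.σ p, r) :: p) → G.key ((G.σ p, r) :: p) < G.key p

/-- MODULE ga4 (size 2).

Proof.  `ρ p` the least `α` with `Wn a b α p`, `σ p` a move which witnesses `Wn a b (ρ p) p`.  If `p` is lost (`∃ α, Wn a b α p`) then every legal reply gives a lost position of smaller `ρ`.  `key p = ω * ρ p + code p` with an injective `code : Ps Q → ℕ`. -/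
theorem exists_Gm {a b : NN → CC} (h : ∃ α, Wn a b α ([] : Ps Q)) : ∃ G : Gm Q, G.a = a ∧ G.b = b ∧ G.Win := by
  have hC : Countable (Ps Q) := inferInstance
  obtain ⟨code, hcode⟩ := exists_injective_nat (Ps Q)
  let ρ : Ps Q → Ordinal.{0} := fun p => sInf {α | Wn a b α p}
  have hρ : ∀ p : Ps Q, (∃ α, Wn a b α p) → Wn a b (ρ p) p := fun p hp => csInf_mem hp
  have hρle : ∀ (p : Ps Q) (α : Ordinal.{0}), Wn a b α p → ρ p ≤ α := fun p α h => csInf_le' h
  have hσ : ∀ p : Ps Q, ∃ m : Mv Q, (∃ α, Wn a b α p) → Ok (m :: nd p) ∧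
      ∀ r, Leg a b ((m, r) :: p) → ∃ β, β < ρ p ∧ Wn a b β ((m, r) :: p) := by
    intro p
    by_cases hp : ∃ α, Wn a b α p
    · have h1 := hρ p hp
      rw [Wn] at h1
      obtain ⟨m, hm, h2⟩ := h1
      refine ⟨m, fun _ => ⟨hm, fun r hr => ?_⟩⟩
      obtain ⟨β, hβ⟩ := h2 r hr
      exact ⟨β.1, β.2, hβ⟩
    · exact ⟨[], fun h => absurd h hp⟩
  choose σ hσ using hσ
  let key : Ps Q → Ordinal.{0} := fun p => Ordinal.omega0 * ρ p + (code p : Ordinal.{0})
  have hlost : ∀ p, Fol σ p → Leg a b p → ∃ α, Wn a b α p := by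
    intro p hp
    induction hp with
    | nil => exact fun _ => h
    | cons r _ ih =>
      intro hl
      obtain ⟨β, _, hβ⟩ := (hσ _ (ih hl.1)).2 r hl
      exact ⟨β, hβ⟩
  refine ⟨⟨a, b, σ, key⟩, rfl, rfl, ?_, ?_, ?_⟩
  · intro p p' hpp
    apply hcode
    have h1 : ((code p : Ordinal.{0})) = (code p' : Ordinal.{0}) := by
      have h2 : key p % Ordinal.omega0 = key p' % Ordinal.omega0 := by rw [show key p = key p' from hpp]
      have h3 : ∀ p, key p % Ordinal.omega0 = (code p : Ordinal.{0}) := by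
        intro p
        show (Ordinal.omega0 * ρ p + (code p : Ordinal.{0})) % Ordinal.omega0 = _
        rw [Ordinal.mul_add_mod_self]
        exact Ordinal.mod_eq_of_lt (Ordinal.natCast_lt_omega0 _)
      rw [h3, h3] at h2
      exact h2
    exact_mod_cast h1
  · intro p hp hl
    exact (hσ p (hlost p hp hl)).1
  · intro p hp hl r hr
    obtain ⟨β, hβ1, hβ2⟩ := (hσ p (hlost p hp hl)).2 r hr
    have h1 : ρ ((σ p, r) :: p) < ρ p := lt_of_le_of_lt (hρle _ _ hβ2) hβ1
    show Ordinal.omega0 * ρ ((σ p, r) :: p) + (code ((σ p, r) :: p) : Ordinal.{0}) <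
      Ordinal.omega0 * ρ p + (code p : Ordinal.{0})
    calc Ordinal.omega0 * ρ ((σ p, r) :: p) + (code ((σ p, r) :: p) : Ordinal.{0})
        < Ordinal.omega0 * ρ ((σ p, r) :: p) + Ordinal.omega0 := by
          exact add_lt_add_right (Ordinal.natCast_lt_omega0 _) _
      _ = Ordinal.omega0 * (ρ ((σ p, r) :: p) + 1) := by rw [mul_add, mul_one]
      _ ≤ Ordinal.omega0 * ρ p := mul_le_mul_right (Order.add_one_le_of_lt h1) _
      _ ≤ Ordinal.omega0 * ρ p + (code p : Ordinal.{0}) := le_self_add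

instance instWfL (Q : Par) : WellFoundedRelation (ULift.{0} Q.L) := ⟨fun a b => a.down < b.down, InvImage.wf ULift.down wellFounded_lt⟩

/-- The level `e` is active at `w`. -/
def act (e : Q.L) (w : Nd Q) : Prop := Q.ι e ≤ dep w

namespace Gm

variable (G : Gm Q)

/-- The next node. -/
def nx (P : Ps Q) : Nd Q := G.σ P :: nd P

/-- The extension of order `Iio e`: `Mf e'` for the largest active level `e' < e`. -/
def MDo (Mf : Q.L → Ps Q → Ps Q → Prop) (e : Q.L) (p P : Ps Q) : Prop :=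
  ((∀ e' < e, ¬ act e' (nd p)) ∧ P = p) ∨
    ∃ e' < e, act e' (nd p) ∧ (∀ e'' < e, act e'' (nd p) → e'' ≤ e') ∧ Mf e' p P

/-- The line of order `Iio e`. -/
inductive QLo (x : CC) (Mf : Q.L → Ps Q → Ps Q → Prop) (e : Q.L) : Ps Q → Prop
  | nil : QLo x Mf e []
  | next {p P : Ps Q} {r : Rp} : QLo x Mf e p → MDo Mf e p P → Agl (xs ((G.σ P, r) :: P)) x →
      Leg G.a G.b ((G.σ P, r) :: P) → QLo x Mf e ((G.σ P, r) :: P)

/-- The candidates for the extension at the level `e`. -/
def Cando (x : CC) (Mf : Q.L → Ps Q → Ps Q → Prop) (e : Q.L) (p P' : Ps Q) : Prop :=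
  ∃ P, p <:+ P ∧ G.QLo x Mf e P ∧ MDo Mf e P P' ∧ q (Iic e) (G.nx P') = nd p

/-- The extension at the level `e`: the candidate of minimal rank. -/
def MR (x : CC) (e : Q.L) (p P : Ps Q) : Prop :=
  G.Cando x (fun e' p P => ∃ _ : e' < e, MR x e' p P) e p P ∧
    ∀ P', G.Cando x (fun e' p P => ∃ _ : e' < e, MR x e' p P) e p P' → G.key P ≤ G.key P'
termination_by (⟨e⟩ : ULift.{0} Q.L)
decreasing_by all_goals assumption

/-- The extension of order `Iio e`. -/
def MD (x : CC) (e : Q.L) (p P : Ps Q) : Prop := MDo (G.MR x) e p P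

/-- The line of order `Iio e`. -/
def QL (x : CC) (e : Q.L) (p : Ps Q) : Prop := G.QLo x (G.MR x) e p

omit G in
private theorem ga5_MDo {Mf Mf' : Q.L → Ps Q → Ps Q → Prop} {e : Q.L}
    (h : ∀ e' < e, ∀ p P, Mf e' p P ↔ Mf' e' p P) {p P : Ps Q} : MDo Mf e p P ↔ MDo Mf' e p P := by
  constructor
  · rintro (h1 | ⟨e', he', h1, h2, h3⟩)
    · exact Or.inl h1
    · exact Or.inr ⟨e', he', h1, h2, (h e' he' p P).1 h3⟩
  · rintro (h1 | ⟨e', he', h1, h2, h3⟩)
    · exact Or.inl h1
    · exact Or.inr ⟨e', he', h1, h2, (h e' he' p P).2 h3⟩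

private theorem ga5_QLo {x : CC} {Mf Mf' : Q.L → Ps Q → Ps Q → Prop} {e : Q.L}
    (h : ∀ e' < e, ∀ p P, Mf e' p P ↔ Mf' e' p P) {p : Ps Q} (hp : G.QLo x Mf e p) : G.QLo x Mf' e p := by
  induction hp with
  | nil => exact QLo.nil
  | next _ h2 h3 h4 ih => exact QLo.next ih ((ga5_MDo h).1 h2) h3 h4

private theorem ga5_can {x : CC} {Mf Mf' : Q.L → Ps Q → Ps Q → Prop} {e : Q.L}
    (h : ∀ e' < e, ∀ p P, Mf e' p P ↔ Mf' e' p P) {p P : Ps Q} : G.Cando x Mf e p P ↔ G.Cando x Mf' e p P := by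
  constructor
  · rintro ⟨P₀, h1, h2, h3, h4⟩
    exact ⟨P₀, h1, ga5_QLo G h h2, (ga5_MDo h).1 h3, h4⟩
  · rintro ⟨P₀, h1, h2, h3, h4⟩
    exact ⟨P₀, h1, ga5_QLo G (fun e' he' p P => (h e' he' p P).symm) h2, (ga5_MDo h).2 h3, h4⟩

/-- MODULE ga5 (size 1): unfolding (the operators for `e` use only the levels `e' < e`), uniqueness (`key` injective), `p <:+ P`. -/
theorem MR_iff (x : CC) (e : Q.L) (p P : Ps Q) : G.MR x e p P ↔
    G.Cando x (G.MR x) e p P ∧ ∀ P', G.Cando x (G.MR x) e p P' → G.key P ≤ G.key P' := by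
  have h1 : ∀ p P, G.MR x e p P ↔ G.Cando x (fun e' p P => ∃ _ : e' < e, G.MR x e' p P) e p P ∧
      ∀ P', G.Cando x (fun e' p P => ∃ _ : e' < e, G.MR x e' p P) e p P' → G.key P ≤ G.key P' := by
    intro p P
    rw [MR]
  have h2 : ∀ e' < e, ∀ p P, (∃ _ : e' < e, G.MR x e' p P) ↔ G.MR x e' p P := by
    intro e' he' p P
    exact ⟨fun ⟨_, h⟩ => h, fun h => ⟨he', h⟩⟩
  rw [h1]
  simp only [ga5_can G h2]

/-- There is a candidate: there is a minimal one. -/
theorem exists_MR {x : CC} {e : Q.L} {p P : Ps Q} (h : G.Cando x (G.MR x) e p P) : ∃ P', G.MR x e p P' := by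
  obtain ⟨P', hP', hmin⟩ := WellFounded.has_min (InvImage.wf G.key wellFounded_lt)
    {P | G.Cando x (G.MR x) e p P} ⟨P, h⟩
  refine ⟨P', (G.MR_iff x e p P').2 ⟨hP', fun P'' hP'' => ?_⟩⟩
  exact not_lt.1 (hmin P'' hP'')

variable {G}

theorem MR_unique (hG : G.Win) {x : CC} {e : Q.L} {p P P' : Ps Q} (h : G.MR x e p P) (h' : G.MR x e p P') :
    P = P' := by
  rw [MR_iff] at h h'
  exact hG.inj (le_antisymm (h.2 P' h'.1) (h'.2 P h.1))

theorem MD_unique (hG : G.Win) {x : CC} {e : Q.L} {p P P' : Ps Q} (h : G.MD x e p P) (h' : G.MD x e p P') :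
    P = P' := by
  rcases h with ⟨h1, rfl⟩ | ⟨e₁, he₁, h1, h2, h3⟩
  · rcases h' with ⟨_, rfl⟩ | ⟨e₂, he₂, h4, _, _⟩
    · rfl
    · exact absurd h4 (h1 e₂ he₂)
  · rcases h' with ⟨h4, _⟩ | ⟨e₂, he₂, h4, h5, h6⟩
    · exact absurd h1 (h4 e₁ he₁)
    · have h7 : e₁ = e₂ := le_antisymm (h5 e₁ he₁ h1) (h2 e₂ he₂ h4)
      subst h7
      exact MR_unique hG h3 h6

private theorem ga5_suf (x : CC) : ∀ (e : Q.L) (p P : Ps Q), G.MR x e p P → p <:+ P := by
  intro e
  induction e using WellFoundedLT.induction with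
  | ind e ih =>
    intro p P h
    rw [MR_iff] at h
    obtain ⟨⟨P₀, h1, _, h2, _⟩, _⟩ := h
    rcases h2 with ⟨_, rfl⟩ | ⟨e₁, he₁, _, _, h3⟩
    · exact h1
    · exact h1.trans (ih e₁ he₁ _ _ h3)

theorem MD_suffix {x : CC} {e : Q.L} {p P : Ps Q} (h : G.MD x e p P) : p <:+ P := by
  rcases h with ⟨_, rfl⟩ | ⟨e₁, _, _, _, h3⟩
  · exact List.suffix_rfl
  · exact ga5_suf x e₁ _ _ h3

theorem MR_suffix {x : CC} {e : Q.L} {p P : Ps Q} (h : G.MR x e p P) : p <:+ P := by
  exact ga5_suf x e _ _ h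

/-- `MD` at `e` is `MR` at one level `e' < e`, or trivial. -/
theorem MD_cases (x : CC) (e : Q.L) (p : Ps Q) : ((∀ e' < e, ¬ act e' (nd p)) ∧ ∀ P, G.MD x e p P ↔ P = p) ∨
    ∃ e' < e, act e' (nd p) ∧ (∀ e'' < e, act e'' (nd p) → e'' ≤ e') ∧ ∀ P, G.MD x e p P ↔ G.MR x e' p P := by
  by_cases h : ∀ e' < e, ¬ act e' (nd p)
  · refine Or.inl ⟨h, fun P => ⟨?_, fun hP => Or.inl ⟨h, hP⟩⟩⟩
    rintro (⟨_, h1⟩ | ⟨e', he', h1, _, _⟩)
    · exact h1
    · exact absurd h1 (h e' he')
  · refine Or.inr ?_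
    push Not at h
    obtain ⟨e₀, he₀, h0⟩ := h
    have hfin : {e' : Q.L | e' < e ∧ act e' (nd p)}.Finite := by
      refine Set.Finite.subset ((Set.finite_Iic (dep (nd p))).preimage (Q.ι_inj.injOn)) ?_
      rintro e' ⟨_, h1⟩
      exact h1
    obtain ⟨e₁, he₁, hmax⟩ := hfin.exists_maximal ⟨e₀, he₀, h0⟩
    have hmax' : ∀ e'' < e, act e'' (nd p) → e'' ≤ e₁ := by
      intro e'' he'' h1
      rcases le_total e'' e₁ with h2 | h2
      · exact h2
      · exact hmax ⟨he'', h1⟩ h2
    refine ⟨e₁, he₁.1, he₁.2, hmax', fun P => ⟨?_, fun hP => Or.inr ⟨e₁, he₁.1, he₁.2, hmax', hP⟩⟩⟩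
    rintro (⟨h1, _⟩ | ⟨e₂, he₂, h1, h2, h3⟩)
    · exact absurd he₁.2 (h1 e₁ he₁.1)
    · have h4 : e₁ = e₂ := le_antisymm (h2 e₁ he₁.1 he₁.2) (hmax' e₂ he₂ h1)
      subst h4
      exact h3

private theorem ga6_MD_step {x : CC} {e : Q.L}
    (ih : ∀ e' < e, ∀ p, G.QL x e' p → (Fol G.σ p ∧ Leg G.a G.b p ∧ Agl (xs p) x) ∧
      ∀ P, G.MD x e' p P → Fol G.σ P ∧ Leg G.a G.b P ∧ Agl (xs P) x)
    {p P : Ps Q} (hp : Fol G.σ p ∧ Leg G.a G.b p ∧ Agl (xs p) x) (h : G.MD x e p P) :
    Fol G.σ P ∧ Leg G.a G.b P ∧ Agl (xs P) x := by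
  rcases h with ⟨-, rfl⟩ | ⟨e', he', -, -, h1⟩
  · exact hp
  · obtain ⟨⟨P₀, -, h2, h3, -⟩, -⟩ := (MR_iff G x e' p P).1 h1
    exact (ih e' he' P₀ h2).2 P h3

private theorem ga6_good (x : CC) (e : Q.L) : ∀ p, G.QL x e p → (Fol G.σ p ∧ Leg G.a G.b p ∧ Agl (xs p) x) ∧
      ∀ P, G.MD x e p P → Fol G.σ P ∧ Leg G.a G.b P ∧ Agl (xs P) x := by
  induction e using WellFoundedLT.induction with
  | ind e ih =>
    intro p hp
    have h1 : Fol G.σ p ∧ Leg G.a G.b p ∧ Agl (xs p) x := by
      induction hp with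
      | nil => exact ⟨Fol.nil, trivial, trivial⟩
      | @next p P r hp hM hA hL ihp =>
        exact ⟨Fol.cons r (ga6_MD_step ih ihp hM).1, hL, hA⟩
    exact ⟨h1, fun P hP => ga6_MD_step ih h1 hP⟩

/-- MODULE ga6 (size 2): good positions.

`QL_good`: clear (`Fol`, induction: `P` follows the strategy by `MD_good`).  `MD_good`: induction on `e`: `P = p`, or `MR x e' p P`, so `MD x e' P₀ P` with `QL x e' P₀`.  `key_lt`: along the suffixes.
`QL_line`: two elements `p <:+ P` of the line: if `p ≠ P`, `P = (σ P₁, r) :: P₁`, `MD x e P₀ P₁`, `QL x e P₀` then `p <:+ P₀`.  Proof by strong induction on `p.length + P.length`: `p <:+ P₁`.  Otherwise `P₀ <:+ p`, `P₀ ≠ p`; `p = (σ p₁, r') :: p₁`, `MD x e p₀ p₁`, and `P₀ <:+ p₀` by induction for `(P₀, p)`.  If `P₀ = p₀` then `P₁ = p₁` (`MD_unique`) is shorter than `p`: contradiction with `p <:+ P₁`.  If `P₀ ≠ p₀`: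
let `p'` be the element of the chain of `p` whose predecessor is `P₀` (the chain of `p`: predecessors `p₀`, …; by induction for `(P₀, p₀)`, …): `p' = (σ P₁, r'') :: P₁ <:+ p <:+ P₁`: contradiction. -/
theorem QL_good {x : CC} {e : Q.L} {p : Ps Q} (h : G.QL x e p) : Fol G.σ p ∧ Leg G.a G.b p ∧ Agl (xs p) x := by
  exact (ga6_good x e p h).1

theorem MD_good {x : CC} {e : Q.L} {p P : Ps Q} (h : G.QL x e p) (h' : G.MD x e p P) :
    Fol G.σ P ∧ Leg G.a G.b P ∧ Agl (xs P) x := by
  exact (ga6_good x e p h).2 P h'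

theorem key_lt (hG : G.Win) {p P : Ps Q} (h : p <:+ P) (hne : p ≠ P) (hf : Fol G.σ P) (hl : Leg G.a G.b P) :
    G.key P < G.key p := by
  induction P with
  | nil => exact absurd (List.suffix_nil.1 h) hne
  | cons z P ih =>
    cases hf with
    | cons r hf =>
      have hd := hG.dec P hf hl.1 r hl
      have h1 : p <:+ P := (List.suffix_cons_iff.1 h).resolve_left hne
      by_cases h2 : p = P
      · rw [h2]
        exact hd
      · exact hd.trans (ih h1 h2 hf hl.1)

private theorem ga6_pred {x : CC} {e : Q.L} {p : Ps Q} (h : G.QL x e p) (hne : p ≠ []) :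
    ∃ P₀ P₁ r, G.QL x e P₀ ∧ G.MD x e P₀ P₁ ∧ p = (G.σ P₁, r) :: P₁ := by
  cases h with
  | nil => exact absurd rfl hne
  | @next P₀ P₁ r h0 h1 hA hL => exact ⟨P₀, P₁, r, h0, h1, rfl⟩

private theorem ga6_line (hG : G.Win) {x : CC} {e : Q.L} (n : ℕ) :
    (∀ p P₀ P₁ r, G.QL x e p → G.QL x e P₀ → G.MD x e P₀ P₁ → ((G.σ P₁, r) :: P₁).length = n →
      p <:+ (G.σ P₁, r) :: P₁ → p ≠ (G.σ P₁, r) :: P₁ → p <:+ P₀) ∧
    (∀ P₀ P₁ p, G.QL x e P₀ → G.QL x e p → G.MD x e P₀ P₁ → p.length = n → P₀ <:+ p → P₀ ≠ p →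
      ∃ r, (G.σ P₁, r) :: P₁ <:+ p) := by
  induction n using Nat.strong_induction_on with
  | _ n ih =>
    have hL : ∀ p P₀ P₁ r, G.QL x e p → G.QL x e P₀ → G.MD x e P₀ P₁ → ((G.σ P₁, r) :: P₁).length = n →
        p <:+ (G.σ P₁, r) :: P₁ → p ≠ (G.σ P₁, r) :: P₁ → p <:+ P₀ := by
      intro p P₀ P₁ r h h0 h1 hn hp hne
      have h2 : p <:+ P₁ := (List.suffix_cons_iff.1 hp).resolve_left hne
      have h3 : P₀ <:+ P₁ := MD_suffix h1
      by_cases h4 : p = P₀
      · rw [h4]
      · rcases le_total p.length P₀.length with h5 | h5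
        · exact List.suffix_of_suffix_length_le h2 h3 h5
        · exfalso
          have h6 : P₀ <:+ p := List.suffix_of_suffix_length_le h3 h2 h5
          rw [List.length_cons] at hn
          have h7 := h2.length_le
          obtain ⟨r', h8⟩ := (ih p.length (by omega)).2 P₀ P₁ p h0 h h1 rfl h6 (Ne.symm h4)
          have h9 := h8.length_le
          rw [List.length_cons] at h9
          omega
    refine ⟨hL, fun P₀ P₁ p h0 h h1 hn hp hne => ?_⟩
    have hp0 : p ≠ [] := by
      rintro rfl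
      exact hne (List.suffix_nil.1 hp)
    obtain ⟨p₀, p₁, r, h2, h3, rfl⟩ := ga6_pred h hp0
    have h4 : P₀ <:+ p₀ := hL P₀ p₀ p₁ r h0 h2 h3 hn hp hne
    by_cases h5 : P₀ = p₀
    · subst h5
      rw [MD_unique hG h1 h3]
      exact ⟨r, List.suffix_rfl⟩
    · have h6 := (MD_suffix h3).length_le
      rw [List.length_cons] at hn
      obtain ⟨r', h7⟩ := (ih p₀.length (by omega)).2 P₀ P₁ p₀ h0 h2 h1 rfl h4 h5
      exact ⟨r', h7.trans ((MD_suffix h3).trans (List.suffix_cons _ _))⟩

theorem QL_line (hG : G.Win) {x : CC} {e : Q.L} {p P₀ P₁ : Ps Q} {r : Rp} (h : G.QL x e p) (h0 : G.QL x e P₀)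
    (h1 : G.MD x e P₀ P₁) (hp : p <:+ (G.σ P₁, r) :: P₁) (hne : p ≠ (G.σ P₁, r) :: P₁) : p <:+ P₀ := by
  exact (ga6_line hG _).1 p P₀ P₁ r h h0 h1 rfl hp hne

/-- The predecessor in the line. -/
theorem QL_pred {x : CC} {e : Q.L} {p : Ps Q} (h : G.QL x e p) (hne : p ≠ []) :
    ∃ P₀ P₁ r, G.QL x e P₀ ∧ G.MD x e P₀ P₁ ∧ p = (G.σ P₁, r) :: P₁ := by
  exact ga6_pred h hne

private theorem ga7_stay {m : Mv Q} {u : Nd Q} (h : Ok (m :: u)) {e : Q.L} {D' : Set Q.L} (hD' : IsLowerSet D')
    (hs : D' ⊆ Iio e) {t : Nd Q} (h0 : q D' (m :: u) = t)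
    (hst : ∀ e' < e, e' ∉ D' → q (Iio e') (m :: u) = t → q (Iic e') (m :: u) = t) : q (Iio e) (m :: u) = t := by
  have key : ∀ e' : Q.L, e' < e → e' ∉ D' → q (Iic e') (m :: u) = t := by
    intro e'
    induction e' using WellFoundedLT.induction with
    | ind e' ih =>
      intro he' hn
      refine hst e' he' hn ?_
      by_contra h1
      have h2 : D' ⊆ Iio e' := by
        intro y hy
        by_contra h3
        exact hn (hD' (not_lt.1 h3) hy)
      rw [← h0] at h1
      obtain ⟨e₂, ⟨h3, h4⟩, h5, -⟩ := h.exists_drop (isLowerSet_Iio e') hD' h2 h1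
      have h6 := ih e₂ h3 (lt_trans h3 he') h4
      rw [h5, ← h0] at h6
      exact h1 h6
  by_contra h1
  rw [← h0] at h1
  obtain ⟨e₂, ⟨h3, h4⟩, h5, -⟩ := h.exists_drop (isLowerSet_Iio e) hD' hs h1
  have h6 := key e₂ h3 h4
  rw [h5, ← h0] at h6
  exact h1 h6

/-- Part (a). -/
private def ga7_A (G : Gm Q) (x : CC) (e : Q.L) (p : Ps Q) : Prop := ∀ e' < e, G.QL x e' p

/-- Part (b). -/
private def ga7_B (G : Gm Q) (x : CC) (e : Q.L) (p : Ps Q) : Prop :=
  ∀ e' < e, ∀ r, Le (Iic e') r (nd p) → r ≠ nd p → act e' r →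
    ∃ P₁ r₁, G.MR x e' (lastN r.length p) P₁ ∧ (G.σ P₁, r₁) :: P₁ <:+ p

/-- Part (d). -/
private def ga7_E (G : Gm Q) (x : CC) (e : Q.L) (p : Ps Q) : Prop :=
  ∃ P, G.MD x e p P ∧ q (Iio e) (G.nx P) = nd p

/-- Part (c). -/
private theorem ga7_c (hG : G.Win) {x : CC} {e : Q.L} {p P : Ps Q} (hB : ga7_B G x e p) {e' : Q.L} (he' : e' < e)
    (hQ : G.QL x e' p) (hM : G.MD x e' p P) (hq : q (Iio e') (G.nx P) = nd p) : q (Iic e') (G.nx P) = nd p := by
  by_contra h1
  obtain ⟨hF, hL, -⟩ := MD_good hQ hM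
  have hOk : Ok (G.σ P :: nd P) := hG.ok P hF hL
  have h2 : q (Iic e') (G.σ P :: nd P) ≠ q (Iio e') (G.σ P :: nd P) := by
    change q (Iic e') (G.nx P) ≠ q (Iio e') (G.nx P)
    rw [hq]
    exact h1
  obtain ⟨n, b, -, -, ⟨-, h4, h5, -⟩, -⟩ := hOk.drop h2
  change Le (Iic e') (q (Iic e') (G.nx P)) (q (Iio e') (G.nx P)) at h4
  change e' ≠ ⊤ → Q.ι e' ≤ dep (q (Iic e') (G.nx P)) ∧ _ at h5
  rw [hq] at h4
  have h6 : act e' (q (Iic e') (G.nx P)) := (h5 (ne_of_lt (lt_of_lt_of_le he' le_top))).1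
  obtain ⟨P₁, r₁, h7, h8⟩ := hB e' he' _ h4 h1 h6
  have hs : q (Iic e') (G.nx P) <:+ nd p := h4.suffix
  have hc : G.Cando x (G.MR x) e' (lastN (q (Iic e') (G.nx P)).length p) P := by
    refine ⟨p, lastN_suffix _ _, hQ, hM, ?_⟩
    rw [nd_lastN]
    exact (lastN_of_suffix hs).symm
  have h9 := ((MR_iff G x e' _ P₁).1 h7).2 P hc
  have h10 : (G.σ P₁, r₁) :: P₁ <:+ P := h8.trans (MD_suffix hM)
  have h11 : P₁ <:+ P := (List.suffix_cons _ _).trans h10
  have h12 : P₁ ≠ P := by
    rintro rfl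
    have h13 := h10.length_le
    rw [List.length_cons] at h13
    omega
  exact absurd (key_lt hG h11 h12 hF hL) (not_lt.2 h9)

/-- Part (d) from parts (a), (b). -/
private theorem ga7_d (hG : G.Win) {x : CC} {e : Q.L} {p : Ps Q} (ihe : ∀ e' < e, ∀ p, G.QL x e' p → ga7_E G x e' p)
    (hQ : G.QL x e p) (hA : ga7_A G x e p) (hB : ga7_B G x e p) : ga7_E G x e p := by
  have hfin : ∀ P D', IsLowerSet D' → D' ⊆ Iio e → G.MD x e p P → q D' (G.nx P) = nd p →
      (∀ e' < e, e' ∉ D' → G.MD x e' p P) → q (Iio e) (G.nx P) = nd p := by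
    intro P D' hD' hs hM h0 h1
    obtain ⟨hF, hL, -⟩ := MD_good hQ hM
    refine ga7_stay (m := G.σ P) (u := nd P) (hG.ok P hF hL) hD' hs h0 fun e' he' hn h2 => ?_
    exact ga7_c hG hB he' (hA e' he') (h1 e' he' hn) h2
  by_cases hact : ∃ e' < e, act e' (nd p) ∧ ∀ e'' < e, act e'' (nd p) → e'' ≤ e'
  · obtain ⟨e₁, he₁, ha, hm⟩ := hact
    obtain ⟨P₀, h1, h2⟩ := ihe e₁ he₁ p (hA e₁ he₁)
    have h3 := ga7_c hG hB he₁ (hA e₁ he₁) h1 h2
    obtain ⟨P, hP⟩ := exists_MR G (x := x) (e := e₁) (p := p) (P := P₀) ⟨p, List.suffix_rfl, hA e₁ he₁, h1, h3⟩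
    have h4 : G.MD x e p P := Or.inr ⟨e₁, he₁, ha, hm, hP⟩
    refine ⟨P, h4, hfin P (Iic e₁) (isLowerSet_Iic e₁) (fun y hy => lt_of_le_of_lt hy he₁) h4 ?_ ?_⟩
    · obtain ⟨⟨P₂, -, -, -, h5⟩, -⟩ := (MR_iff G x e₁ p P).1 hP
      exact h5
    · intro e' he' hn
      exact Or.inr ⟨e₁, not_le.1 hn, ha, fun e'' h6 h7 => hm e'' (h6.trans he') h7, hP⟩
  · have hno : ∀ e' < e, ¬ act e' (nd p) := by
      rcases MD_cases (G := G) x e p with ⟨h1, -⟩ | ⟨e₁, he₁, ha, hm, -⟩
      · exact h1
      · exact absurd ⟨e₁, he₁, ha, hm⟩ hact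
    have h4 : G.MD x e p p := Or.inl ⟨hno, rfl⟩
    refine ⟨p, h4, hfin p ∅ isLowerSet_empty (empty_subset _) h4 (q_empty _ _) ?_⟩
    intro e' he' _
    exact Or.inl ⟨fun e'' h5 => hno e'' (h5.trans he'), rfl⟩

/-- MODULE ga7 (size 3): the main lemma.

Proof.  By well-founded induction on `e`; for fixed `e` by induction on the length of `p` (all the parts simultaneously, for all shorter elements of the line).  Let `QL x e p`; if `p ≠ []` let `p = (σ P₁, r) :: P₁`, `MD x e p⁻ P₁`, `QL x e p⁻`; the statement holds for `p⁻`, in particular `q (Iio e) (nd p) = nd p⁻` (uniqueness of `P₁`).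
(a) `QL x e' p` for `e' < e`: `p = []` clear.  `MD_cases` for `p⁻`: no active level `< e`: `P₁ = p⁻`, `MD x e' p⁻ P₁` too, `QLo.next`.  Otherwise `MR x e₁ p⁻ P₁`, `e₁` the largest active level `< e` at `nd p⁻`.  If `e₁ < e'`: `MD x e' p⁻ P₁`: `QLo.next`.  If `e' ≤ e₁`: `MR_iff`, `Cando`: `P`, `QL x e₁ P`, `MD x e₁ P P₁`, so `QL x e₁ p` by `QLo.next`, and `QL x e' p` (`e' = e₁`, or (a) for `e₁ < e`).
(b) For `e' < e`, `Le (Iic e') r (nd p)`, `r ≠ nd p`, `act e' r`: there are `P₁', r₁` with `MR x e' (lastN r.length p) P₁'` and `(σ P₁', r₁) :: P₁' <:+ p`.  `p ≠ []`.  If `MR x e₁ p⁻ P₁` with `e₁ > e'`: `QL x e₁ p` as in (a); (b) for `e₁`.  Otherwise `q (Iic e') (nd p) = nd p⁻`: if no level `< e` is active at `nd p⁻`: `P₁ = p⁻`, `q (Iio e) (nd p) = nd p⁻ = q ∅ (nd p)`; if `e₁ ≤ e'`: `q (Iic e₁) (nd p) = nd p⁻ = q (Iio e) (nd p)`; use `Ok.le_q_q`.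
So `Le (Iic e') r (nd p⁻)`.  If `r ≠ nd p⁻`: (b) for `p⁻`.  If `r = nd p⁻`: `e'` is active at `nd p⁻`, so `e₁ = e'`, `MR x e' p⁻ P₁` and `p = (σ P₁, _) :: P₁`.
(c) Let `P'` with `MD x e'' p P'` and let `e*` with `e'' ≤ e* < e`, suppose that `MD x e* p P'` (so `QL x e* p`, `P'` good), `q (Iio e*) (nx P') = nd p`.  Then `q (Iic e*) (nx P') = nd p`: otherwise, by `Ok.drop`, `r = q (Iic e*) (nx P') ≠ nd p`, `Le (Iic e*) r (nd p)`, `act e* r`; by (b) there are `P₁'`, `MR x e* (lastN r.length p) P₁'`, `(σ P₁', _) :: P₁' <:+ p`; `P'` is a candidate at the level `e*` for `lastN r.length p` (`P = p`), so `key P₁' ≤ key P'`;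
but `P₁' <:+ P'`, `P₁' ≠ P'`, so `key P' < key P₁'` (`key_lt`): contradiction.
(d) existence: no active level `< e` at `nd p`: `P' = p`, `MD x e* p p` for all `e* ≤ e`, `nx p = σ p :: nd p`, `q ∅ (nx p) = nd p`.  If `q (Iio e) (nx p) ≠ nd p` then by `Ok.exists_drop` some `e' < e` has `q (Iic e') (nx p) ≠ nd p`; for the least such `e'` `q (Iio e') (nx p) = nd p` (`Ok.exists_drop` again): contradiction with (c).
Otherwise let `e''` be the largest active level `< e`.  `QL x e'' p` by (a); by induction `MD x e'' p P₀`, `q (Iio e'') (nx P₀) = nd p`, and `q (Iic e'') (nx P₀) = nd p` by (c): so `P₀` is a candidate at `e''` for `p`; `exists_MR`: `MR x e'' p P'`, so `MD x e p P'`, `q (Iic e'') (nx P') = nd p`.  `MD x e* p P'` for all `e'' < e* ≤ e`.  If `q (Iio e) (nx P') ≠ nd p`: the least `e* > e''` with `q (Iic e*) (nx P') ≠ nd p`, `e* < e` (`Ok.exists_drop` with `D' = Iic e''`),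
has `q (Iio e*) (nx P') = nd p`: contradiction with (c). -/
theorem main (hG : G.Win) (x : CC) (e : Q.L) (p : Ps Q) (h : G.QL x e p) :
    (∀ e' < e, G.QL x e' p) ∧
    (∀ e' < e, ∀ r, Le (Iic e') r (nd p) → r ≠ nd p → act e' r →
      ∃ P₁ r₁, G.MR x e' (lastN r.length p) P₁ ∧ (G.σ P₁, r₁) :: P₁ <:+ p) ∧
    ∃ P, G.MD x e p P ∧ q (Iio e) (G.nx P) = nd p := by
  induction e using WellFoundedLT.induction generalizing p with
  | ind e ihe =>
    have ihe' : ∀ e' < e, ∀ p, G.QL x e' p → ga7_A G x e' p ∧ ga7_B G x e' p ∧ ga7_E G x e' p := ihe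
    have key : ∀ n, ∀ p : Ps Q, p.length = n → G.QL x e p → ga7_A G x e p ∧ ga7_B G x e p ∧ ga7_E G x e p := by
      intro n
      induction n using Nat.strong_induction_on with
      | _ n ihn =>
        intro p hn hp
        have hAB : ga7_A G x e p ∧ ga7_B G x e p := by
          by_cases hp0 : p = []
          · subst hp0
            refine ⟨fun e' _ => QLo.nil, fun e' _ r hr hne _ => ?_⟩
            rcases (Le_iff _).1 hr with h1 | h1
            · exact absurd h1 hne
            · exact absurd rfl h1.1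
          · obtain ⟨p₀, P₁, r, h0, h1, rfl⟩ := QL_pred hp hp0
            have hlen : p₀.length < n := by
              have h2 := (MD_suffix h1).length_le
              rw [List.length_cons] at hn
              omega
            obtain ⟨hA0, hB0, P, hM, hqM⟩ := ihn _ hlen p₀ rfl h0
            have hPP : P = P₁ := MD_unique hG hM h1
            subst hPP
            obtain ⟨-, hLp, hAp⟩ := QL_good hp
            have hOk : Ok (G.σ P :: nd P) := hLp.2.1
            have hnext : ∀ e' p', G.QL x e' p' → G.MD x e' p' P → G.QL x e' ((G.σ P, r) :: P) :=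
              fun e' p' h2 h3 => QLo.next h2 h3 hAp hLp
            -- the elements of the line of order `Iio e₁` through `MR`
            have hMR : ∀ e₁ < e, G.MR x e₁ p₀ P → G.QL x e₁ ((G.σ P, r) :: P) ∧ q (Iic e₁) (G.nx P) = nd p₀ := by
              intro e₁ he₁ h2
              obtain ⟨⟨P₂, -, h3, h4, h5⟩, -⟩ := (MR_iff G x e₁ p₀ P).1 h2
              exact ⟨hnext e₁ P₂ h3 h4, h5⟩
            have hlast : lastN (nd p₀).length ((G.σ P, r) :: P) = p₀ := by
              rw [nd_length]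
              exact lastN_of_suffix ((MD_suffix h1).trans (List.suffix_cons _ _))
            have hB' : ∀ e' < e, q (Iic e') (G.nx P) = nd p₀ → (act e' (nd p₀) → G.MR x e' p₀ P) →
                ∀ r', Le (Iic e') r' (G.nx P) → r' ≠ G.nx P → act e' r' →
                ∃ P₁ r₁, G.MR x e' (lastN r'.length ((G.σ P, r) :: P)) P₁ ∧
                  (G.σ P₁, r₁) :: P₁ <:+ (G.σ P, r) :: P := by
              intro e' he' hq h2 r' hr' hne hact
              have h3 := (hr'.le_q hne).2
              rw [hq] at h3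
              by_cases h4 : r' = nd p₀
              · subst h4
                rw [hlast]
                exact ⟨P, r, h2 hact, List.suffix_rfl⟩
              · obtain ⟨P₂, r₂, h5, h6⟩ := hB0 e' he' r' h3 h4 hact
                have h7 : lastN r'.length ((G.σ P, r) :: P) = lastN r'.length p₀ := by
                  have h8 := h3.length_le
                  rw [← hlast, lastN_lastN h8]
                rw [h7]
                exact ⟨P₂, r₂, h5, h6.trans ((MD_suffix h1).trans (List.suffix_cons _ _))⟩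
            rcases MD_cases (G := G) x e p₀ with ⟨hno, h2⟩ | ⟨e₁, he₁, ha, hm, h2⟩
            · have h3 := (h2 P).1 h1
              have hMe : ∀ e' < e, G.MD x e' p₀ P := fun e' he' =>
                Or.inl ⟨fun e'' h4 => hno e'' (h4.trans he'), h3⟩
              refine ⟨fun e' he' => hnext e' p₀ (hA0 e' he') (hMe e' he'), fun e' he' => ?_⟩
              refine hB' e' he' ?_ fun h4 => absurd h4 (hno e' he')
              have h4 : Le ∅ (q (Iic e') (G.nx P)) (q ∅ (G.nx P)) :=
                Ok.le_q_q (w := G.nx P) hOk (isLowerSet_Iic e') isLowerSet_empty (empty_subset _)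
              have h5 : Le (Iic e') (q (Iio e) (G.nx P)) (q (Iic e') (G.nx P)) :=
                Ok.le_q_q (w := G.nx P) hOk (isLowerSet_Iio e) (isLowerSet_Iic e')
                  (fun y hy => lt_of_le_of_lt hy he')
              have h6 : q ∅ (G.nx P) = nd p₀ := by
                rw [h3]
                exact q_empty _ _
              rw [h6] at h4
              rw [hqM] at h5
              exact (h5.eq_of_length h4.length_le).symm
            · have h3 := (h2 P).1 h1
              obtain ⟨h4, h5⟩ := hMR e₁ he₁ h3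
              refine ⟨fun e' he' => ?_, fun e' he' => ?_⟩
              · rcases lt_trichotomy e₁ e' with h6 | h6 | h6
                · exact hnext e' p₀ (hA0 e' he')
                    (Or.inr ⟨e₁, h6, ha, fun e'' h7 h8 => hm e'' (h7.trans he') h8, h3⟩)
                · rw [← h6]
                  exact h4
                · exact (ihe' e₁ he₁ _ h4).1 e' h6
              · rcases lt_or_ge e' e₁ with h6 | h6
                · exact (ihe' e₁ he₁ _ h4).2.1 e' h6
                · refine hB' e' he' ?_ fun h7 => ?_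
                  · have h7 : Le (Iic e₁) (q (Iic e') (G.nx P)) (q (Iic e₁) (G.nx P)) :=
                      Ok.le_q_q (w := G.nx P) hOk (isLowerSet_Iic e') (isLowerSet_Iic e₁)
                        (fun y hy => le_trans hy h6)
                    have h8 : Le (Iic e') (q (Iio e) (G.nx P)) (q (Iic e') (G.nx P)) :=
                      Ok.le_q_q (w := G.nx P) hOk (isLowerSet_Iio e) (isLowerSet_Iic e')
                        (fun y hy => lt_of_le_of_lt hy he')
                    rw [h5] at h7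
                    rw [hqM] at h8
                    exact (h8.eq_of_length h7.length_le).symm
                  · have h8 : e₁ = e' := le_antisymm h6 (hm e' he' h7)
                    rw [← h8]
                    exact h3
        exact ⟨hAB.1, hAB.2, ga7_d hG (fun e' he' p' h => (ihe' e' he' p' h).2.2) hp hAB.1 hAB.2⟩
    exact key _ p rfl h

variable (G)

/-- The line in the cell `c` with the digit `a'`. -/
def Line (x : CC) (c : Ps Q) (a' : ℕ) (p : Ps Q) : Prop :=
  G.QL x ⊤ p ∧ (p = c ∨ (c <:+ p ∧ q univ (nd p) = nd c ∧ ∃ m i b p', p = (m, i, a', b) :: p'))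

/-- The points which stay in the cell `c` with the digit `a'`. -/
def Cs (c : Ps Q) (a' : ℕ) : Set CC :=
  {x | G.QL x ⊤ c ∧ (∀ n, ∃ y, Agl (a' :: sA c) y ∧ ∀ i < n, G.a y i = x i) ∧ ∀ p, G.Line x c a' p →
    ∃ P P', (Q.md = false → P = p) ∧ p <:+ P ∧ G.QL x ⊤ P ∧ G.MD x ⊤ P P' ∧ q univ (G.nx P') = nd c ∧
      dpar (G.nx P') = if p = c then none else some (nd p)}

variable {G}

private theorem ga8_agl_congr {α : Type} {l : List α} {x y : ℕ → α} (h : Agl l x)
    (h' : ∀ i < l.length, y i = x i) : Agl l y := by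
  induction l with
  | nil => trivial
  | cons c l ih =>
    refine ⟨?_, ih h.2 fun i hi => h' i (by rw [List.length_cons]; omega)⟩
    rw [h' _ (by rw [List.length_cons]; omega)]
    exact h.1

private theorem ga8_lastN {c P : Ps Q} (h : c <:+ P) : lastN (nd c).length P = c := by
  rw [nd_length]
  exact lastN_of_suffix h

private theorem ga8_sA {c P : Ps Q} {m : Mv Q} {i : Bool} {s t : ℕ} (h : c <:+ P)
    (hq : q univ (m :: nd P) = nd c) : sA ((m, i, s, t) :: P) = s :: sA c := by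
  have h1 : nd ((m, i, s, t) :: P) = m :: nd P := rfl
  rw [sA, h1, hq, ga8_lastN h]

private theorem ga8_eB_none {P : Ps Q} {m : Mv Q} {i : Bool} {s t : ℕ}
    (hq : dpar (m :: nd P) = none) : eB ((m, i, s, t) :: P) = [t] := by
  have h1 : nd ((m, i, s, t) :: P) = m :: nd P := rfl
  rw [eB, h1, if_pos hq]

private theorem ga8_eB_some {p P : Ps Q} {m : Mv Q} {i : Bool} {s t : ℕ} (h : p <:+ P)
    (hq : dpar (m :: nd P) = some (nd p)) : eB ((m, i, s, t) :: P) = t :: eB p := by
  have h1 : nd ((m, i, s, t) :: P) = m :: nd P := rfl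
  have h2 : ¬ (some (nd p) = none) := by simp
  rw [eB, h1, hq, if_neg h2, Option.getD_some, ga8_lastN h]

/-- MODULE ga8 (size 2): the side `B` is excluded.

Proof.  Let `x = b e ∈ Cs c a'`.  Construct `p_0 = c`, `p_1, p_2, …` in `Line x c a'` with `p_n <:+ p_(n+1)`, `≠`, and `eB p_n = [e (n-1), …, e 0]` for `n ≥ 1`: given `p_n`, let `P, P'` be as in the definition of `Cs`; `p_(n+1) = (σ P', x P'.length, a', e n) :: P'`, `nd p_(n+1) = nx P'`.  It is legal: `sA p_(n+1) = a' :: sA c` (`q univ (nx P') = nd c`, `lastN (nd c).length P' = c`), the second condition of `Cs` with `n = P'.length + 1`;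
`eB p_(n+1) = e n :: eB p_n` (`dpar`; `[e 0]` for `n = 0`): use `y = e`, `b e = x`.  So it is in the line (`QLo.next`).  The keys decrease: contradiction. -/
theorem not_mem_Cs (hG : G.Win) {e : NN} {c : Ps Q} {a' : ℕ} : G.b e ∉ G.Cs c a' := by
  intro hx
  obtain ⟨hc, hy, hL⟩ := hx
  set x := G.b e with hxe
  have key : ∀ α : Ordinal.{0}, ∀ p, G.key p = α → G.Line x c a' p → (p = c ∨ Agl (eB p) e) → False := by
    intro α
    induction α using WellFoundedLT.induction with
    | ind α ih =>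
      intro p hα hp hpe
      obtain ⟨P, P', -, h1, h2, h3, h4, h5⟩ := hL p hp
      obtain ⟨hF, hLg, hA⟩ := MD_good h2 h3
      have hcp : c <:+ p := by
        rcases hp.2 with h | h
        · rw [h]
        · exact h.1
      have hpP' : p <:+ P' := h1.trans (MD_suffix h3)
      have hcP' : c <:+ P' := hcp.trans hpP'
      have hxs : (xs P').length = P'.length := by simp [xs]
      obtain ⟨n, hn⟩ : ∃ n, Agl (eB ((G.σ P', x P'.length, a', e n) :: P')) e := by
        by_cases hpc : p = c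
        · rw [if_pos hpc] at h5
          refine ⟨0, ?_⟩
          rw [ga8_eB_none h5]
          exact ⟨rfl, trivial⟩
        · rw [if_neg hpc] at h5
          refine ⟨(eB p).length, ?_⟩
          rw [ga8_eB_some hpP' h5]
          exact ⟨rfl, hpe.resolve_left hpc⟩
      set p' : Ps Q := (G.σ P', x P'.length, a', e n) :: P' with hp'
      have hAx : Agl (xs p') x := by
        refine ⟨?_, hA⟩
        change x P'.length = x (xs P').length
        rw [hxs]
      have hOk : Ok (nd p') := hG.ok P' hF hLg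
      have hLeg : Leg G.a G.b p' := by
        refine ⟨hLg, hOk, ?_, e, hn, hAx⟩
        obtain ⟨y, hy1, hy2⟩ := hy (P'.length + 1)
        refine ⟨y, ?_, ?_⟩
        · rw [ga8_sA hcP' h4]
          exact hy1
        · refine ga8_agl_congr hAx fun i hi => hy2 i ?_
          simpa [xs, hp'] using hi
      have hQL : G.QL x ⊤ p' := QLo.next h2 h3 hAx hLeg
      have hLine : G.Line x c a' p' :=
        ⟨hQL, Or.inr ⟨hcP'.trans (List.suffix_cons _ _), h4, G.σ P', x P'.length, e n, P', rfl⟩⟩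
      have hne : p ≠ p' := by
        intro h
        have h6 := hpP'.length_le
        rw [h, hp', List.length_cons] at h6
        omega
      have hlt := key_lt hG (hpP'.trans (List.suffix_cons _ _)) hne (QL_good hQL).1 hLeg
      rw [hα] at hlt
      exact ih _ hlt p' rfl hLine (Or.inr hn)
  exact key _ c rfl ⟨hc, Or.inl rfl⟩ (Or.inl rfl)

private theorem ga9_len {c : Ps Q} : (nd c).length = c.length := nd_length c

private theorem ga9_nx {G : Gm Q} {P : Ps Q} {r : Rp} : nd ((G.σ P, r) :: P) = G.nx P := rfl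

private theorem ga9_M (hG : G.Win) {x : CC} {p P : Ps Q} (h : G.QL x ⊤ p) (h' : G.MD x ⊤ p P) :
    q (Iio ⊤) (G.nx P) = nd p := by
  obtain ⟨-, -, P', h1, h2⟩ := main hG x ⊤ p h
  rw [MD_unique hG h' h1]
  exact h2

private theorem ga9_ok (hG : G.Win) {x : CC} {p P : Ps Q} (h : G.QL x ⊤ p) (h' : G.MD x ⊤ p P) :
    Ok (G.nx P) := by
  obtain ⟨h1, h2, -⟩ := MD_good h h'
  exact hG.ok P h1 h2

private theorem ga9_q (hG : G.Win) {x : CC} {p P : Ps Q} (h : G.QL x ⊤ p) (h' : G.MD x ⊤ p P) :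
    q univ (G.nx P) = nd p ∨ (q univ (G.nx P) ≠ nd p ∧ Le univ (q univ (G.nx P)) (nd p) ∧
      (Q.md = false → q univ (G.nx P) = q univ (nd p))) := by
  by_cases h1 : q univ (G.nx P) = nd p
  · exact Or.inl h1
  · refine Or.inr ⟨h1, ?_⟩
    have h2 := ga9_M hG h h'
    have h3 : q (Iic ⊤) (G.nx P) ≠ q (Iio ⊤) (G.nx P) := by
      rw [h2, Iic_top_eq]
      exact h1
    obtain ⟨n, b, -, -, h4, -⟩ := Ok.drop (m := G.σ P) (u := nd P) (ga9_ok hG h h') h3
    obtain ⟨-, h5, -, h6⟩ := h4
    have h7 := h6 rfl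
    rw [show (G.σ P :: nd P : Nd Q) = G.nx P from rfl] at h5 h7
    rw [h2, Iic_top_eq] at h5 h7
    exact ⟨h5, h7.1⟩

private theorem ga9_le (hG : G.Win) {x : CC} {p P : Ps Q} (h : G.QL x ⊤ p) (h' : G.MD x ⊤ p P) :
    Le univ (q univ (G.nx P)) (nd p) := by
  rcases ga9_q hG h h' with h1 | h1
  · rw [h1]
    exact Le.refl
  · exact h1.2.1

private theorem ga9_dpar (hG : G.Win) {x : CC} {c p P M : Ps Q} (h : G.QL x ⊤ P) (h' : G.MD x ⊤ P M)
    (hq : q univ (G.nx M) = nd c) (hp : nd p ≠ []) (hqp : q univ (nd p) = nd c) (hne : nd P ≠ nd c)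
    (hle : Le univ (nd p) (nd P)) : dpar (G.nx M) = some (nd p) := by
  have h1 := ga9_M hG h h'
  rw [dpar, h1, hq, if_neg hne, chd_unique hp hqp hle]

/-- The invariant of the construction. -/
private def ga9_Inv (G : Gm Q) (x : CC) (c : Ps Q) : Prop :=
  (Q.md = false → c ≠ [] → ∀ M, G.MD x ⊤ c M → q univ (G.nx M) ≠ q univ (nd c)) ∧
    (Q.md = true → ∀ P M, G.QL x ⊤ P → c <:+ P → G.MD x ⊤ P M → ∀ r, Le univ r (nd c) → r ≠ nd c →
      q univ (G.nx M) ≠ r)

private theorem ga9_step (hG : G.Win) {x : CC} {c p : Ps Q} (hc : ga9_Inv G x c) (hp : G.QL x ⊤ p)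
    (hcp : c <:+ p) (hne : c ≠ p) (hq : q univ (nd p) = nd c)
    (hno : ∀ P P', ¬ ((Q.md = false → P = p) ∧ p <:+ P ∧ G.QL x ⊤ P ∧ G.MD x ⊤ P P' ∧
      q univ (G.nx P') = nd c ∧ dpar (G.nx P') = some (nd p))) : ga9_Inv G x p := by
  have hlt : c.length < p.length := by
    refine lt_of_le_of_ne hcp.length_le fun h => hne (hcp.eq_of_length h)
  have hp0 : nd p ≠ [] := by
    intro h
    have h1 := congrArg List.length h
    rw [ga9_len, List.length_nil] at h1
    omega
  have hPc : ∀ P : Ps Q, p <:+ P → nd P ≠ nd c := by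
    intro P hP h
    have h1 := congrArg List.length h
    rw [ga9_len, ga9_len] at h1
    have h2 := hP.length_le
    omega
  refine ⟨fun hm _ M hM h => ?_, fun hm => ?_⟩
  · rw [hq] at h
    exact hno p M ⟨fun _ => rfl, List.suffix_rfl, hp, hM, h,
      ga9_dpar hG hp hM h hp0 hq (hPc p List.suffix_rfl) Le.refl⟩
  · have key : ∀ n, ∀ P : Ps Q, P.length = n → G.QL x ⊤ P → p <:+ P →
        (∀ M, G.MD x ⊤ P M → q univ (G.nx M) ≠ nd c) ∧ Le univ (nd p) (nd P) := by
      intro n
      induction n using Nat.strong_induction_on with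
      | _ n ih =>
        intro P hn hP hpP
        have h1 : Le univ (nd p) (nd P) := by
          by_cases hpe : p = P
          · rw [hpe]
            exact Le.refl
          · have hP0 : P ≠ [] := by
              rintro rfl
              exact hpe (List.suffix_nil.1 hpP)
            obtain ⟨P₀, P₁, r, h2, h3, rfl⟩ := QL_pred hP hP0
            have h4 : p <:+ P₀ := QL_line hG hp h2 h3 hpP hpe
            have h5 : P₀.length < n := by
              have h6 := (MD_suffix h3).length_le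
              rw [List.length_cons] at hn
              omega
            obtain ⟨h7, h8⟩ := ih _ h5 P₀ rfl h2 h4
            have h9 := ga9_le hG h2 h3
            have h10 : Le univ (nd p) (q univ (G.nx P₁)) := by
              rcases h8.total h9 with h11 | h11
              · exact h11
              · by_cases h12 : q univ (G.nx P₁) = nd p
                · rw [h12]
                  exact Le.refl
                · exfalso
                  have h13 := (h11.le_q h12).2
                  rw [hq] at h13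
                  exact hc.2 hm P₀ P₁ h2 (hcp.trans h4) h3 _ h13 (h7 P₁ h3) rfl
            refine Le.step ?_ ?_
            · rw [ga9_nx]
              exact List.cons_ne_nil _ _
            · rw [ga9_nx]
              exact h10
        refine ⟨fun M hM h => ?_, h1⟩
        exact hno P M ⟨fun h2 => absurd (hm.symm.trans h2) (by simp), hpP, hP, hM, h,
          ga9_dpar hG hP hM h hp0 hq (hPc P hpP) h1⟩
    intro P M hP hpP hM r hr hrne
    have h1 := (hr.le_q hrne).2
    rw [hq] at h1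
    by_cases h2 : r = nd c
    · rw [h2]
      exact (key _ P rfl hP hpP).1 M hM
    · exact hc.2 hm P M hP (hcp.trans hpP) hM r h1 h2

/-- MODULE ga9 (size 3): the side `A` is covered.

Proof.  Let `x = a s` and suppose `x ∉ Cs c a'` for all `c`, `a'`.  For `p` in the line `QL x ⊤` let `M p` be the `P` with `MD x ⊤ p P`, `q (Iio ⊤) (nx (M p)) = nd p` (`main`).  `q univ (nx (M p))` is `nd p` or (`Ok.drop` for `e = ⊤`) a proper ancestor `r` of order `univ` of `nd p`, and `r = q univ (nd p)` in limit mode.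
Construct `c_0 = [], c_1, …` in the line, `c_n <:+ c_(n+1)`, `q univ (nd c_(n+1)) = nd c_n`, `Agl (sA c_n) s`, `(sA c_n).length = n` with the invariant: (successor mode) for every `P` in the line with `c_n <:+ P`, `q univ (nx (M P)) ≠ nd c_j` for all `j < n`; (limit mode) `q univ (nx (M c_n)) ≠ nd c_(n-1)` (`n ≥ 1`).  The proper ancestors of order `univ` of `nd c_n` are the `nd c_j`, `j < n`.  So `q univ (nx (M c_n)) = nd c_n`.
Step: `c = c_n`, `a' = s n`: the first two conditions of `Cs` hold (`y = s`).  So there is `p` in `Line x c a'` without `P, P'`.  `p ≠ c`: `P = c`, `P' = M c` satisfies all the conditions (`dpar (nx (M c)) = none` as `q (Iio ⊤) (nx (M c)) = nd c = q univ (nx (M c))`).  So `q univ (nd p) = nd c`, the last digit is `s n`: `sA p = s n :: sA c`.  Let `c_(n+1) = p`.  The invariant: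
limit mode: suppose `q univ (nx (M p)) = nd c`; then `P = p`, `P' = M p` satisfies the conditions: `dpar (nx (M p)) = some (chd univ (nd c) (nd p)) = some (nd p)` (`chd_unique`).
Successor mode: for `j < n` it holds as `c_n <:+ p`.  Suppose that there is `P` in the line with `p <:+ P`, `q univ (nx (M P)) = nd c`; take one of minimal length.  Claim: `Le univ (nd p) (nd P)`: for all elements `P_i` of the line between `p` and `P` (predecessors of `P`, `QL_pred`, `QL_line`; induction upwards): `nd P_(i+1) = nx (M P_i)` and `q univ (nd P_(i+1))` is `nd P_i` or an ancestor of order `univ` of it, comparable with `nd p` (`Le.total`): if `nd p` is an ancestor of order `univ` of it we are done; otherwise it is a proper ancestor of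
`nd p`, i.e. `nd c_j` with `j ≤ n`: excluded by the invariant (`j < n`) and by the minimality of `P` (`j = n`).  So `dpar (nx (M P)) = some (chd univ (nd c) (nd P)) = some (nd p)` (`chd_unique`), (`nd P ≠ nd c`), and `P`, `M P` satisfy the conditions: contradiction.
The keys of the `c_n` decrease: contradiction. -/
theorem mem_Cs (hG : G.Win) (s : NN) : ∃ c a', G.a s ∈ G.Cs c a' := by
  by_contra hcon
  push Not at hcon
  set x := G.a s with hx
  have key : ∀ α : Ordinal.{0}, ∀ c, G.key c = α → G.QL x ⊤ c → Agl (sA c) s → ga9_Inv G x c → False := by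
    intro α
    induction α using WellFoundedLT.induction with
    | ind α ih =>
      intro c hα hc hs hI
      obtain ⟨-, -, M, hM, -⟩ := main hG x ⊤ c hc
      have hqM : q univ (G.nx M) = nd c := by
        rcases ga9_q hG hc hM with h1 | ⟨h1, h2, h3⟩
        · exact h1
        · exfalso
          cases hm : Q.md with
          | false =>
            refine hI.1 hm ?_ M hM (h3 hm)
            rintro rfl
            rcases (Le_iff univ).1 h2 with h4 | h4
            · exact h1 h4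
            · exact h4.1 rfl
          | true => exact hI.2 hm c M hc List.suffix_rfl hM _ h2 h1 rfl
      have h1 := hcon c (s (sA c).length)
      have h2 : ¬ ∀ p, G.Line x c (s (sA c).length) p →
          ∃ P P', (Q.md = false → P = p) ∧ p <:+ P ∧ G.QL x ⊤ P ∧ G.MD x ⊤ P P' ∧ q univ (G.nx P') = nd c ∧
            dpar (G.nx P') = if p = c then none else some (nd p) := by
        intro h2
        exact h1 ⟨hc, fun n => ⟨s, ⟨rfl, hs⟩, fun i _ => rfl⟩, h2⟩
      push Not at h2
      obtain ⟨p, ⟨hp, hp'⟩, hno⟩ := h2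
      have hpc : p ≠ c := by
        rintro rfl
        refine hno p M (fun _ => rfl) List.suffix_rfl hp hM hqM ?_
        rw [if_pos rfl, dpar, if_pos]
        rw [ga9_M hG hp hM, hqM]
      obtain ⟨hcp, hq, m, i, b, p', rfl⟩ := hp'.resolve_left hpc
      have hcp' : c <:+ p' := by
        rcases List.suffix_cons_iff.1 hcp with h | h
        · exact absurd h.symm hpc
        · exact h
      have hlt := key_lt hG hcp hpc.symm (QL_good hp).1 (QL_good hp).2.1
      rw [hα] at hlt
      refine ih _ hlt _ rfl hp ?_ (ga9_step hG hI hp hcp hpc.symm hq ?_)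
      · rw [sA, hq, ga9_len, lastN_of_suffix hcp']
        exact ⟨rfl, hs⟩
      · rintro P P' ⟨h3, h4, h5, h6, h7, h8⟩
        refine hno P P' h3 h4 h5 h6 h7 ?_
        rw [if_neg hpc]
        exact h8
  refine key _ [] rfl QLo.nil ?_ ⟨fun _ h => absurd rfl h, fun _ P M _ _ _ r hr hrne => ?_⟩
  · rw [sA]
    trivial
  · rcases (Le_iff univ).1 hr with h | h
    · exact absurd h hrne
    · exact absurd rfl h.1

/-- Sets of ambiguous class below the level `e`. -/
def Dl (e : Q.L) (S : Set CC) : Prop := De 0 S ∨ ∃ e' < e, De (Q.o e' + 1) S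

private theorem ga10_max {e : Q.L} {S S' : Set CC} (h : Dl e S) (h' : Dl e S') :
    (De 0 S ∧ De 0 S') ∨ ∃ e' < e, De (Q.o e' + 1) S ∧ De (Q.o e' + 1) S' := by
  rcases h with h | ⟨e₁, he₁, h⟩
  · rcases h' with h' | ⟨e₂, he₂, h'⟩
    · exact Or.inl ⟨h, h'⟩
    · exact Or.inr ⟨e₂, he₂, h.mono zero_le, h'⟩
  · rcases h' with h' | ⟨e₂, he₂, h'⟩
    · exact Or.inr ⟨e₁, he₁, h, h'.mono zero_le⟩
    · rcases le_total e₁ e₂ with h1 | h1
      · exact Or.inr ⟨e₂, he₂, h.mono (by gcongr; exact Q.o_mono.monotone h1), h'⟩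
      · exact Or.inr ⟨e₁, he₁, h, h'.mono (by gcongr; exact Q.o_mono.monotone h1)⟩

private theorem ga10_const {e : Q.L} (c : Prop) : Dl e {_x : CC | c} := by
  refine Or.inl (De.of_clopen ?_)
  by_cases h : c
  · have h1 : {_x : CC | c} = univ := by
      ext x
      exact ⟨fun _ => trivial, fun _ => h⟩
    rw [h1]
    exact isClopen_univ
  · have h1 : {_x : CC | c} = ∅ := by
      ext x
      exact ⟨fun h2 => h h2, fun h2 => h2.elim⟩
    rw [h1]
    exact isClopen_empty

/-- MODULE ga10 (size 2): complexity of the lines.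

`Dl` is closed under finite Boolean combinations (`De.mono`, maximum of the levels); `Dl e S → De (o e) S` (`o e' + 1 ≤ o e`).
By well-founded induction on `e`: (1) `Dl e {x | MD x e p P}`: `MD_cases` does not depend on `x`: `{x | P = p}` is `∅` or `univ`, or `{x | MR x e' p P}` with `e' < e`, of class `De (o e' + 1)` by (3).  (2) `Dl e {x | QL x e p}` by induction on the length of `p`: for `p = (m, r) :: P`: `m = σ P`, `Leg p`, `Agl (xs p) x` (`isClopen_Agl`) and there is `p⁻ <:+ P` with `QL x e p⁻`, `MD x e p⁻ P`: finitely many `p⁻`.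
(3) `{x | MR x e p P}` is in `De (o e + 1)`: `{x | Cando x (MR x) e p P}`: finitely many `P₀ <:+ P`, so in `De (o e)`; `{x | ∃ P', key P' < key P, Cando .. P'}` is a countable union of such sets, so in `Sg (o e)` (`o_one`), so `MR` is the intersection of a set in `De (o e)` and of the complement of a set in `Sg (o e)`. -/
theorem Dl.compl {e : Q.L} {S : Set CC} (h : Dl e S) : Dl e Sᶜ := by
  rcases h with h | ⟨e', he', h⟩
  · exact Or.inl h.compl
  · exact Or.inr ⟨e', he', h.compl⟩

theorem Dl.inter {e : Q.L} {S S' : Set CC} (h : Dl e S) (h' : Dl e S') : Dl e (S ∩ S') := by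
  rcases ga10_max h h' with ⟨h1, h2⟩ | ⟨e', he', h1, h2⟩
  · exact Or.inl (h1.inter h2)
  · exact Or.inr ⟨e', he', h1.inter h2⟩

theorem Dl.de {e : Q.L} {S : Set CC} (h : Dl e S) : De (Q.o e) S := by
  rcases h with h | ⟨e', he', h⟩
  · exact h.mono zero_le
  · refine h.mono ?_
    rw [← Order.succ_eq_add_one]
    exact Order.succ_le_of_lt (Q.o_mono he')

theorem Dl.biUnion {e : Q.L} {ι : Type} (s : Finset ι) {S : ι → Set CC} (h : ∀ i ∈ s, Dl e (S i)) :
    Dl e (⋃ i ∈ s, S i) := by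
  induction s using Finset.induction_on with
  | empty =>
    have h1 : (⋃ i ∈ (∅ : Finset ι), S i) = {_x : CC | False} := by
      ext x
      simp
    rw [h1]
    exact ga10_const False
  | insert a s ha ih =>
    rw [Finset.set_biUnion_insert]
    have h1 := h a (Finset.mem_insert_self a s)
    have h2 := ih fun i hi => h i (Finset.mem_insert_of_mem hi)
    rcases ga10_max h1 h2 with ⟨h3, h4⟩ | ⟨e', he', h3, h4⟩
    · exact Or.inl (h3.union h4)
    · exact Or.inr ⟨e', he', h3.union h4⟩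

private theorem ga10_MD (G : Gm Q) (e : Q.L) (ih : ∀ e' < e, ∀ p P, De (Q.o e' + 1) {x | G.MR x e' p P})
    (p P : Ps Q) : Dl e {x | G.MD x e p P} := by
  by_cases h : ∃ e' < e, act e' (nd p) ∧ ∀ e'' < e, act e'' (nd p) → e'' ≤ e'
  · obtain ⟨e', he', ha, hmax⟩ := h
    have h1 : {x | G.MD x e p P} = {x | G.MR x e' p P} := by
      ext x
      rcases MD_cases (G := G) x e p with ⟨h2, -⟩ | ⟨e₂, he₂, ha₂, hmax₂, h3⟩
      · exact absurd ha (h2 e' he')
      · have h4 : e₂ = e' := le_antisymm (hmax e₂ he₂ ha₂) (hmax₂ e' he' ha)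
        rw [h4] at h3
        exact h3 P
    rw [h1]
    exact Or.inr ⟨e', he', ih e' he' p P⟩
  · have h1 : {x | G.MD x e p P} = {_x | P = p} := by
      ext x
      rcases MD_cases (G := G) x e p with ⟨-, h2⟩ | ⟨e₂, he₂, ha₂, hmax₂, -⟩
      · exact h2 P
      · exact absurd ⟨e₂, he₂, ha₂, hmax₂⟩ h
    rw [h1]
    exact ga10_const _

private theorem ga10_QL (G : Gm Q) (e : Q.L) (h1 : ∀ p P, Dl e {x | G.MD x e p P}) :
    ∀ n, ∀ p : Ps Q, p.length ≤ n → Dl e {x | G.QL x e p} := by
  have hnil : Dl e {x | G.QL x e []} := by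
    have h2 : {x | G.QL x e []} = {_x : CC | True} := by
      ext x
      exact ⟨fun _ => trivial, fun _ => QLo.nil⟩
    rw [h2]
    exact ga10_const True
  intro n
  induction n with
  | zero =>
    intro p hp
    have h2 : p = [] := List.length_eq_zero_iff.1 (by omega)
    rw [h2]
    exact hnil
  | succ n ih =>
    intro p hp
    rcases p with _ | ⟨⟨m, r⟩, P⟩
    · exact hnil
    · rw [List.length_cons] at hp
      have h2 : {x | G.QL x e ((m, r) :: P)} = ({_x | m = G.σ P ∧ Leg G.a G.b ((m, r) :: P)} ∩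
          {x | Agl (xs ((m, r) :: P)) x}) ∩
          ⋃ k ∈ Finset.range (P.length + 1), ({x | G.QL x e (lastN k P)} ∩ {x | G.MD x e (lastN k P) P}) := by
        ext x
        simp only [mem_inter_iff, mem_iUnion, mem_setOf_eq, Finset.mem_range, exists_prop]
        constructor
        · intro h
          obtain ⟨P₀, P₁, r', h3, h4, h5⟩ := QL_pred h (List.cons_ne_nil _ _)
          obtain ⟨-, h6, h7⟩ := QL_good h
          have h8 : P₁ = P := (List.cons.inj h5).2.symm
          have h9 : m = G.σ P := by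
            have := (Prod.mk.inj (List.cons.inj h5).1).1
            rw [this, h8]
          rw [h8] at h4
          have h10 := MD_suffix h4
          refine ⟨⟨⟨h9, h6⟩, h7⟩, P₀.length, Nat.lt_succ_of_le h10.length_le, ?_, ?_⟩
          · rw [lastN_of_suffix h10]
            exact h3
          · rw [lastN_of_suffix h10]
            exact h4
        · rintro ⟨⟨⟨h3, h4⟩, h5⟩, k, -, h6, h7⟩
          subst h3
          exact QLo.next h6 h7 h5 h4
      rw [h2]
      refine ((ga10_const _).inter (Or.inl (De.of_clopen (isClopen_Agl _)))).inter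
        (Dl.biUnion _ fun k _ => (ih _ ?_).inter (h1 _ _))
      exact (lastN_length_le k P).trans (by omega)

private theorem ga10_C (G : Gm Q) (e : Q.L) (h1 : ∀ p P, Dl e {x | G.MD x e p P})
    (h2 : ∀ p, Dl e {x | G.QL x e p}) (p P' : Ps Q) : Dl e {x | G.Cando x (G.MR x) e p P'} := by
  have h3 : {x | G.Cando x (G.MR x) e p P'} = ⋃ k ∈ Finset.range (P'.length + 1),
      ({_x | p <:+ lastN k P' ∧ q (Iic e) (G.nx P') = nd p} ∩
        ({x | G.QL x e (lastN k P')} ∩ {x | G.MD x e (lastN k P') P'})) := by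
    ext x
    simp only [mem_inter_iff, mem_iUnion, mem_setOf_eq, Finset.mem_range, exists_prop]
    constructor
    · rintro ⟨P, h4, h5, h6, h7⟩
      have h8 : P <:+ P' := MD_suffix h6
      refine ⟨P.length, Nat.lt_succ_of_le h8.length_le, ?_⟩
      rw [lastN_of_suffix h8]
      exact ⟨⟨h4, h7⟩, h5, h6⟩
    · rintro ⟨k, -, ⟨h4, h5⟩, h6, h7⟩
      exact ⟨lastN k P', h4, h6, h7, h5⟩
  rw [h3]
  exact Dl.biUnion _ fun k _ => (ga10_const _).inter ((h2 _).inter (h1 _ _))

private theorem ga10_MR (G : Gm Q) (e : Q.L) (h1 : ∀ p P', Dl e {x | G.Cando x (G.MR x) e p P'}) (p P : Ps Q) :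
    De (Q.o e + 1) {x | G.MR x e p P} := by
  have hlt : Q.o e < Q.o e + 1 := by
    rw [← Order.succ_eq_add_one]
    exact Order.lt_succ _
  have h2 : {x | G.MR x e p P} = {x | G.Cando x (G.MR x) e p P} ∩
      (⋃ P' : {P' : Ps Q // G.key P' < G.key P}, {x | G.Cando x (G.MR x) e p P'.1})ᶜ := by
    ext x
    simp only [mem_inter_iff, mem_compl_iff, mem_iUnion, mem_setOf_eq, Subtype.exists, exists_prop, not_exists,
      not_and]
    rw [MR_iff]
    constructor
    · rintro ⟨h3, h4⟩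
      exact ⟨h3, fun P' h5 h6 => not_lt_of_ge (h4 P' h6) h5⟩
    · rintro ⟨h3, h4⟩
      exact ⟨h3, fun P' h5 => le_of_not_gt fun h6 => h4 P' h6 h5⟩
  rw [h2]
  refine ((h1 p P).de.mono hlt.le).inter (De.compl (De.of_lt hlt ?_))
  exact Sg.iUnion (Q.o_one e) fun P' => (h1 p P'.1).de.1

theorem complexity (G : Gm Q) (e : Q.L) : (∀ p P, Dl e {x | G.MD x e p P}) ∧ (∀ p, Dl e {x | G.QL x e p}) ∧
    ∀ p P, De (Q.o e + 1) {x | G.MR x e p P} := by
  induction e using WellFoundedLT.induction with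
  | ind e ih =>
    have h1 := ga10_MD G e fun e' he' => (ih e' he').2.2
    have h2 : ∀ p, Dl e {x | G.QL x e p} := fun p => ga10_QL G e h1 p.length p le_rfl
    exact ⟨h1, h2, ga10_MR G e (ga10_C G e h1 h2)⟩

private theorem ga11_lt {α β : Ordinal.{0}} (h : Order.IsSuccLimit β) (h' : α < β) : α + 1 < β := by
  rw [← Order.succ_eq_add_one]
  exact h.succ_lt h'

private theorem ga11_Dl (hm : Q.md = false) {S : Set CC} (h : Dl (⊤ : Q.L) S) :
    ∃ β, 1 ≤ β ∧ β < Q.o ⊤ ∧ De β S := by
  have hl := Q.lim hm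
  rcases h with h | ⟨e', he', h⟩
  · refine ⟨0 + 1, ?_, ?_, h.mono zero_le⟩
    · rw [zero_add]
    · exact ga11_lt hl (lt_of_lt_of_le zero_lt_one (Q.o_one ⊤))
  · exact ⟨Q.o e' + 1, le_add_self, ga11_lt hl (Q.o_mono he'), h⟩

private theorem ga11_MD (G : Gm Q) (hm : Q.md = false) (p : Ps Q) :
    ∃ β, 1 ≤ β ∧ β < Q.o ⊤ ∧ ∀ P, De β {x | G.MD x ⊤ p P} := by
  have hl := Q.lim hm
  by_cases h : ∃ e' < (⊤ : Q.L), act e' (nd p) ∧ ∀ e'' < (⊤ : Q.L), act e'' (nd p) → e'' ≤ e'
  · obtain ⟨e', he', ha, hmax⟩ := h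
    refine ⟨Q.o e' + 1, le_add_self, ga11_lt hl (Q.o_mono he'), fun P => ?_⟩
    have h1 : {x | G.MD x ⊤ p P} = {x | G.MR x e' p P} := by
      ext x
      rcases MD_cases (G := G) x ⊤ p with ⟨h2, -⟩ | ⟨e₂, he₂, ha₂, hmax₂, h3⟩
      · exact absurd ha (h2 e' he')
      · have h4 : e₂ = e' := le_antisymm (hmax e₂ he₂ ha₂) (hmax₂ e' he' ha)
        rw [h4] at h3
        exact h3 P
    rw [h1]
    exact (complexity G e').2.2 p P
  · refine ⟨0 + 1, ?_, ?_, fun P => ?_⟩
    · rw [zero_add]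
    · exact ga11_lt hl (lt_of_lt_of_le zero_lt_one (Q.o_one ⊤))
    · have h1 : {x | G.MD x ⊤ p P} = {_x | P = p} := by
        ext x
        rcases MD_cases (G := G) x ⊤ p with ⟨-, h2⟩ | ⟨e₂, he₂, ha₂, hmax₂, -⟩
        · exact h2 P
        · exact absurd ⟨e₂, he₂, ha₂, hmax₂⟩ h
      rw [h1]
      refine De.of_clopen ?_
      by_cases h2 : P = p
      · simp only [h2]
        exact isClopen_univ
      · simp only [h2]
        exact isClopen_empty

private theorem ga11_clopen (G : Gm Q) (l : List ℕ) (n : ℕ) :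
    IsClopen {x : CC | ¬ ∃ y, Agl l y ∧ ∀ i < n, G.a y i = x i} := by
  have hc : Continuous (fun (x : CC) (i : Fin n) => x i) :=
    continuous_pi fun i => continuous_apply _
  have h1 : {x : CC | ¬ ∃ y, Agl l y ∧ ∀ i < n, G.a y i = x i} =
      (fun (x : CC) (i : Fin n) => x i) ⁻¹' {u | ¬ ∃ y, Agl l y ∧ ∀ i : Fin n, G.a y i = u i} := by
    ext x
    simp only [mem_preimage, mem_ofPred_eq, not_iff_not]
    constructor
    · rintro ⟨y, h2, h3⟩
      exact ⟨y, h2, fun i => h3 i i.2⟩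
    · rintro ⟨y, h2, h3⟩
      exact ⟨y, h2, fun i hi => h3 ⟨i, hi⟩⟩
  rw [h1]
  exact (isClopen_discrete _).preimage hc

/-- The condition on `P`, `P'` which does not depend on the point. -/
private def ga11_cd (G : Gm Q) (c p P P' : Ps Q) : Prop :=
  (Q.md = false → P = p) ∧ p <:+ P ∧ q univ (G.nx P') = nd c ∧
    dpar (G.nx P') = if p = c then none else some (nd p)

private def ga11_Y (G : Gm Q) (c p : Ps Q) (z : Ps Q × Ps Q) : Set CC :=
  {x | ga11_cd G c p z.1 z.2 ∧ G.QL x ⊤ z.1 ∧ G.MD x ⊤ z.1 z.2}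

private theorem ga11_X (G : Gm Q) (c p : Ps Q) : ∃ β, β < Q.kap ∧ Sg β (⋃ z, ga11_Y G c p z) := by
  have key : ∀ β : Ordinal.{0}, 1 ≤ β → (∀ P P', (Q.md = false → P = p) → De β ({x | G.QL x ⊤ P} ∩ {x | G.MD x ⊤ P P'})) →
      Sg β (⋃ z, ga11_Y G c p z) := by
    intro β hβ h
    refine Sg.iUnion hβ fun z => ?_
    by_cases hz : ga11_cd G c p z.1 z.2
    · have h1 : ga11_Y G c p z = {x | G.QL x ⊤ z.1} ∩ {x | G.MD x ⊤ z.1 z.2} := by
        ext x
        exact ⟨fun h => h.2, fun h => ⟨hz, h⟩⟩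
      rw [h1]
      exact (h _ _ hz.1).1
    · have h1 : ga11_Y G c p z = ∅ := by
        ext x
        exact ⟨fun h => hz h.1, fun h => h.elim⟩
      rw [h1]
      exact Sg.clopen isClopen_empty
  obtain ⟨hMD, hQL, -⟩ := complexity G (⊤ : Q.L)
  by_cases hm : Q.md = true
  · refine ⟨Q.o ⊤, ?_, key _ (Q.o_one ⊤) fun P P' _ => (hQL P).de.inter (hMD P P').de⟩
    rw [Par.kap, if_pos hm, ← Order.succ_eq_add_one]
    exact Order.lt_succ _
  · have hm' : Q.md = false := by simpa using hm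
    obtain ⟨β₁, h1, h2, h3⟩ := ga11_Dl hm' (hQL p)
    obtain ⟨β₂, h4, h5, h6⟩ := ga11_MD G hm' p
    refine ⟨max β₁ β₂, ?_, key _ (h1.trans (le_max_left _ _)) fun P P' hP => ?_⟩
    · rw [Par.kap, if_neg hm]
      exact max_lt h2 h5
    · rw [hP hm']
      exact (h3.mono (le_max_left _ _)).inter ((h6 P').mono (le_max_right _ _))

/-- MODULE ga11 (size 2): complexity of the sets `Cs`.

Proof.  The complement is the union of `{x | ¬ QL x ⊤ c}`, of the sets `{x | ¬ ∃ y, Agl (a' :: sA c) y ∧ ∀ i < n, a y i = x i}` (clopen: depends on finitely many coordinates) and of the sets `X p = {x | Line x c a' p} ∩ (Y p)ᶜ`, `Y p` the union over `P, P'` (satisfying the conditions which do not depend on `x`) of `{x | QL x ⊤ P} ∩ {x | MD x ⊤ P P'}`.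
`{x | Line x c a' p}` is in `Dl ⊤`.  Successor mode: all these sets are in `De (o ⊤)`, so `Y p` is in `Sg (o ⊤)`, `X p` in `De (o ⊤ + 1)`, `kap = o ⊤ + 1`.  Limit mode: `P = p`; by `MD_cases` and `complexity` the sets `{x | MD x ⊤ p P'}` for all `P'` are in `De β` for a `β ≥ 1` with `β < o ⊤` which depends only on `p` (`o e' + 1 < o ⊤`, a limit ordinal), and `{x | QL x ⊤ p}` is in `De β'`, `β' < o ⊤`; `Y p` is in `Sg (max β β')`,
`X p` in `De (max .. + 1)`, `max .. + 1 < o ⊤ = kap`.  So in both cases all the sets are in `Sg kap`; countable union. -/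
theorem Sg_Cs (G : Gm Q) (c : Ps Q) (a' : ℕ) : Sg Q.kap (G.Cs c a')ᶜ := by
  obtain ⟨-, hQL, -⟩ := complexity G (⊤ : Q.L)
  have hk : Q.o ⊤ ≤ Q.kap := by
    unfold Par.kap
    split_ifs
    · rw [← Order.succ_eq_add_one]
      exact Order.le_succ _
    · exact le_rfl
  have hk1 : 1 ≤ Q.kap := (Q.o_one ⊤).trans hk
  have e1 : (G.Cs c a')ᶜ = {x | G.QL x ⊤ c}ᶜ ∪
      ((⋃ n, {x | ¬ ∃ y, Agl (a' :: sA c) y ∧ ∀ i < n, G.a y i = x i}) ∪
        ⋃ p, {x | G.Line x c a' p} ∩ (⋃ z, ga11_Y G c p z)ᶜ) := by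
    ext x
    constructor
    · intro hx
      by_cases h1 : G.QL x ⊤ c
      · by_cases h2 : ∀ n, ∃ y, Agl (a' :: sA c) y ∧ ∀ i < n, G.a y i = x i
        · right; right
          by_contra h3
          refine hx ⟨h1, h2, fun p hp => ?_⟩
          by_contra h4
          refine h3 (mem_iUnion.2 ⟨p, hp, fun h5 => h4 ?_⟩)
          obtain ⟨z, ⟨h6, h7, h8, h9⟩, h10, h11⟩ := mem_iUnion.1 h5
          exact ⟨z.1, z.2, h6, h7, h10, h11, h8, h9⟩
        · right; left
          obtain ⟨n, hn⟩ := not_forall.1 h2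
          exact mem_iUnion.2 ⟨n, hn⟩
      · left
        exact h1
    · rintro (h | h | h) ⟨h1, h2, h3⟩
      · exact h h1
      · obtain ⟨n, hn⟩ := mem_iUnion.1 h
        exact hn (h2 n)
      · obtain ⟨p, hp, hp'⟩ := mem_iUnion.1 h
        obtain ⟨P, P', h4, h5, h6, h7, h8, h9⟩ := h3 p hp
        exact hp' (mem_iUnion.2 ⟨(P, P'), ⟨h4, h5, h8, h9⟩, h6, h7⟩)
  rw [e1]
  refine Sg.union' ((hQL c).de.2.mono hk) (Sg.union' ?_ ?_)
  · exact Sg.iUnion hk1 fun n => Sg.clopen (ga11_clopen G _ n)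
  · refine Sg.iUnion hk1 fun p => Sg.inter ?_ ?_
    · by_cases h : p = c ∨ (c <:+ p ∧ q univ (nd p) = nd c ∧ ∃ m i b p', p = (m, i, a', b) :: p')
      · have h1 : {x | G.Line x c a' p} = {x | G.QL x ⊤ p} := by
          ext x
          exact ⟨fun h' => h'.1, fun h' => ⟨h', h⟩⟩
        rw [h1]
        exact (hQL p).de.1.mono hk
      · have h1 : {x | G.Line x c a' p} = ∅ := by
          ext x
          exact ⟨fun h' => h h'.2, fun h' => h'.elim⟩
        rw [h1]
        exact Sg.clopen isClopen_empty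
    · obtain ⟨β, hβ, h⟩ := ga11_X G c p
      exact h.compl hβ

end Gm

/-- The theorem of the game. -/
theorem game {a b : NN → CC} (ha : Continuous a) (hb : Continuous b)
    (h : ¬ ∃ Θ : Set CC, Sg (Q.kap + 1) Θ ∧ (∀ y, a y ∈ Θ) ∧ ∀ y, b y ∉ Θ) :
    ∃ (ξ : Pt Q → CC) (ζ : Pt Q → NN), Hx ξ ∧ Continuous ζ ∧ (∀ z ∈ PA Q, ξ z = a (ζ z)) ∧
      ∀ z ∈ PB Q, ξ z = b (ζ z) := by
  refine exists_sys ha hb fun hw => h ?_
  obtain ⟨G, rfl, rfl, hG⟩ := exists_Gm hw
  refine ⟨⋃ i : Ps Q × ℕ, G.Cs i.1 i.2, ?_, fun y => ?_, fun y hy => ?_⟩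
  · refine Sg.iUnion (by simp) fun i => ?_
    have h1 := (Gm.Sg_Cs G i.1 i.2).compl (show Q.kap < Q.kap + 1 from Order.lt_add_one_iff.2 le_rfl)
    rwa [compl_compl] at h1
  · obtain ⟨c, a', hc⟩ := Gm.mem_Cs hG y
    exact mem_iUnion.2 ⟨(c, a'), hc⟩
  · obtain ⟨i, hi⟩ := mem_iUnion.1 hy
    exact Gm.not_mem_Cs hG hi

end Pool.Agent.Bsw
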