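import Pool.Agent.Bsw.Cla
import Pool.Agent.Bsw.Gam
import Pool.Agent.Bs2.Asd
import Pool.Agent.Bs2.Bc

/-!
# Final assembly
-/

set_option autoImplicit false

open Set Filter Topology TopologicalSpace
open scoped Classical Ordinal Cardinal

namespace Pool.Agent.Bsw

open Pool.Agent.Bs2 (BaireClass BorelFn)

/-- MODULE fn1 (size 2): the parameters of the tree exist.

`exists_lv`: `L = {i : (z + 1).ToType // 1 ≤ o i}`, `o i` the ordinal of `i` (`Ordinal.typein`, or the inverse of the enumeration isomorphism); countable as `z + 1` is a countable ordinal.  `exists_Par`: `α = z + 1` with `z ≥ 1`: successor mode; `α` a limit ordinal (`Ordinal.zero_or_succ_or_isSuccLimit` or similar): limit mode, `z = α`. -/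
theorem exists_lv {z : Ordinal.{0}} (hz : 1 ≤ z) (hc : z.card ≤ ℵ₀) :
    ∃ (L : Type) (_ : LinearOrder L) (_ : OrderTop L) (o : L → Ordinal.{0}) (ι : L → ℕ), WellFoundedLT L ∧
      StrictMono o ∧ (∀ e, 1 ≤ o e) ∧ (∀ k, 1 ≤ k → k ≤ z → ∃ e, o e = k) ∧ Function.Injective ι ∧ o ⊤ = z := by
  have hlt : ∀ k : Ordinal.{0}, k ≤ z → k ∈ Iio (z + 1) := fun k hk => Order.lt_add_one_iff.2 hk
  have hcard : Cardinal.mk (z + 1).ToType ≤ ℵ₀ := by
    rw [Cardinal.mk_toType, Ordinal.card_add, Ordinal.card_one]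
    exact Cardinal.add_le_aleph0.2 ⟨hc, Cardinal.one_le_aleph0⟩
  have hcT : Countable (z + 1).ToType := Cardinal.mk_le_aleph0_iff.1 hcard
  have hcL : Countable {i : (z + 1).ToType // 1 ≤ ((Ordinal.ToType.mk (o := z + 1)).symm i : Ordinal.{0})} :=
    Subtype.countable
  obtain ⟨ι, hι⟩ := exists_injective_nat
    {i : (z + 1).ToType // 1 ≤ ((Ordinal.ToType.mk (o := z + 1)).symm i : Ordinal.{0})}
  have htop : (1 : Ordinal.{0}) ≤ ((Ordinal.ToType.mk (o := z + 1)).symm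
      (Ordinal.ToType.mk ⟨z, hlt z le_rfl⟩) : Ordinal.{0}) := by
    rw [OrderIso.symm_apply_apply]
    exact hz
  refine ⟨{i : (z + 1).ToType // 1 ≤ ((Ordinal.ToType.mk (o := z + 1)).symm i : Ordinal.{0})}, inferInstance,
    { top := ⟨Ordinal.ToType.mk ⟨z, hlt z le_rfl⟩, htop⟩, le_top := ?_ },
    fun i => ((Ordinal.ToType.mk (o := z + 1)).symm i.1 : Ordinal.{0}), ι, inferInstance, ?_, ?_, ?_, hι, ?_⟩
  · rintro ⟨i, hi⟩
    show i ≤ Ordinal.ToType.mk ⟨z, hlt z le_rfl⟩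
    rw [← OrderIso.symm_apply_le]
    exact Subtype.coe_le_coe.1 (Order.lt_add_one_iff.1 ((Ordinal.ToType.mk (o := z + 1)).symm i).2)
  · intro i j hij
    exact (Ordinal.ToType.mk (o := z + 1)).symm.lt_iff_lt.2 hij
  · intro i
    exact i.2
  · intro k hk hkz
    refine ⟨⟨Ordinal.ToType.mk ⟨k, hlt k hkz⟩, ?_⟩, ?_⟩
    · rw [OrderIso.symm_apply_apply]
      exact hk
    · show ((Ordinal.ToType.mk (o := z + 1)).symm (Ordinal.ToType.mk ⟨k, hlt k hkz⟩) : Ordinal.{0}) = k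
      rw [OrderIso.symm_apply_apply]
  · show ((Ordinal.ToType.mk (o := z + 1)).symm (Ordinal.ToType.mk ⟨z, hlt z le_rfl⟩) : Ordinal.{0}) = z
    rw [OrderIso.symm_apply_apply]

theorem exists_Par {α : Ordinal.{0}} (h2 : 2 ≤ α) (hc : α.card ≤ ℵ₀) : ∃ Q : Par, Q.kap = α := by
  rcases Ordinal.zero_or_succ_or_isSuccLimit α with h0 | ⟨z, hz⟩ | hl
  · rw [h0] at h2
    exact absurd h2 (not_le_of_gt (by norm_num))
  · rw [Order.succ_eq_add_one] at hz
    have hz1 : 1 ≤ z := by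
      rw [← hz, ← one_add_one_eq_two] at h2
      exact Order.lt_add_one_iff.1 (lt_of_lt_of_le (Order.lt_add_one_iff.2 le_rfl) h2)
    have hzc : z.card ≤ ℵ₀ := (Ordinal.card_le_card (by rw [← hz]; exact le_self_add)).trans hc
    obtain ⟨L, i1, i2, o, ι, h3, h4, h5, h6, h7, h8⟩ := exists_lv hz1 hzc
    refine ⟨@Par.mk L i1 h3 i2 o h4 h5 (fun k hk hk' => h6 k hk (by rwa [h8] at hk')) ι h7 true
      (fun h => absurd h (by decide)), ?_⟩
    unfold Par.kap
    rw [if_pos rfl]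
    show o ⊤ + 1 = α
    rw [h8, hz]
  · obtain ⟨L, i1, i2, o, ι, h3, h4, h5, h6, h7, h8⟩ :=
      exists_lv (z := α) ((show (1 : Ordinal.{0}) ≤ 2 by norm_num).trans h2) hc
    refine ⟨@Par.mk L i1 h3 i2 o h4 h5 (fun k hk hk' => h6 k hk (by rwa [h8] at hk')) ι h7 false
      (fun _ => by rw [h8]; exact hl), ?_⟩
    unfold Par.kap
    rw [if_neg (show ¬ (false = true) from Bool.false_ne_true)]
    exact h8

/-- MODULE fn2 (size 1): `ξ` is not constant.

Suppose `ξ` is constant `= c` on `S' ≠ ∅`.  `N = interior (ξ ⁻¹' {c})` satisfies `clo ξ 1 N = N`: if `W` is one of the open sets of the union `clo ξ 1 N` and `p ∈ W`, `ξ p ≠ c`, take a clopen `U ∋ ξ p` without `c`: `ξ ⁻¹' U` meets `W` but not `N`; so `W ⊆ ξ ⁻¹' {c}`.  So `N` is a test set of order `2 ≤ κ + 1`; it meets `S' ⊆ clo (κ + 1) E`, so it meets `E`: a point of `E` with `ξ = c`: contradiction. -/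
theorem nc_of {P : Type} [TopologicalSpace P] {ξ : P → CC} (hξ : Continuous ξ) {κ : Ordinal.{0}} (hκ : 1 ≤ κ)
    {S E : Set P} (h : S ⊆ clo ξ (κ + 1) E) (hd : ∀ p ∈ S, ∀ r ∈ E, ξ p ≠ ξ r) :
    ∀ S' ⊆ S, IsOpen S' → S'.Nonempty → ∃ x ∈ S', ∃ y ∈ S', ξ x ≠ ξ y := by
  intro S' hS' hS'o hne
  by_contra hcon
  push Not at hcon
  obtain ⟨p, hp⟩ := hne
  have hc : ∀ y ∈ S', ξ y = ξ p := fun y hy => hcon y hy p hp
  have hcl : clo ξ 1 (interior (ξ ⁻¹' {ξ p})) = interior (ξ ⁻¹' {ξ p}) := by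
    refine Subset.antisymm (interior_maximal ?_ (isOpen_clo ξ 1 _)) (subset_clo isOpen_interior)
    intro s hs
    by_contra hns
    have hns' : ξ s ≠ ξ p := hns
    obtain ⟨i, hi⟩ := Function.ne_iff.1 hns'
    have hU : IsClopen {y : CC | y i = ξ s i} :=
      (isClopen_discrete {ξ s i}).preimage (continuous_apply i)
    obtain ⟨r, hr1, hr2⟩ := meets_clo (Cf_preimage (ξ := ξ) (k := 1) le_rfl hU) ⟨s, rfl, hs⟩
    have hr5 : r ∈ ξ ⁻¹' {ξ p} := interior_subset hr2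
    have hr3 : ξ r = ξ p := hr5
    have hr4 : ξ r i = ξ s i := hr1
    rw [hr3] at hr4
    exact hi hr4.symm
  have hCf : Cf ξ (κ + 1) (interior (ξ ⁻¹' {ξ p})) :=
    Or.inr (Or.inr ⟨1, Order.lt_add_one_iff.2 hκ, isOpen_interior, hcl⟩)
  have hSN : S' ⊆ interior (ξ ⁻¹' {ξ p}) := interior_maximal (fun y hy => hc y hy) hS'o
  obtain ⟨r, hr1, hr2⟩ := meets_clo hCf ⟨p, hSN hp, h (hS' hp)⟩
  have hr5 : r ∈ ξ ⁻¹' {ξ p} := interior_subset hr1
  have hr3 : ξ r = ξ p := hr5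
  exact hd p (hS' hp) r hr2 hr3.symm

private theorem fn3_bas (Q : Par) {ξ f : Pt Q → CC} (hξ : Continuous ξ) (hf : Continuous f)
    (hr : PA Q ⊆ clo ξ (Q.kap + 1) (PB Q))
    (hn : ∀ S' ⊆ PA Q, IsOpen S' → S'.Nonempty → ∃ x ∈ S', ∃ y ∈ S', ξ x ≠ ξ y) {V : Set CC} (hV : IsClopen V)
    (hVS : ∀ y ∈ PA Q, f y ∈ V) (hVE : ∀ y ∈ PB Q, f y ∉ V) :
    ∃ c ∈ Cds Q, ∃ (ψ : BN Q → CC) (p : BN Q → Pt Q), Continuous ψ ∧ Function.Injective ψ ∧
      (∀ x, ξ (p x) = ψ x) ∧ Typ (mkTy Q c) fun x => f (p x) := by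
  let := upgradeIsCompletelyMetrizable (Pt Q)
  let b : Bas := { P := Pt Q, ξ := ξ, f := f, hξ := hξ, hf := hf }
  have hP : PairB b Q.kap (PA Q) (PB Q) := ⟨isOpen_PA Q, isOpen_PB Q, PA_nonempty Q, hr, hn⟩
  obtain ⟨c, hc, hC⟩ := classify Q b hP hV hVS hVE
  exact ⟨c, hc, hC⟩

/-- MODULE fn3 (size 3): every function which is not of the Baire class `kap` contains a function of one of the types.

Proof (see `Bs2/Fin.lean`, `exists_typ`).  `V` clopen with `F.f ⁻¹' V` not in `Sg (kap + 1)` (`baireClass_of_Sg`, `F.zeroY`).  `ιX`, `ιY` (`Bs2.exists_emb`), `ιY ⁻¹' V' = V`.  `A = F.f ⁻¹' V` and its complement are not empty (otherwise clopen) and Borel.  `Bs2.exists_param` for `A` and `Aᶜ`: `g`, `g'`; `a = ιX ∘ g`, `b = ιX ∘ g'`.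
`game`: a separating set `Θ` would give `ιX ⁻¹' Θ = A` in `Sg (kap + 1)` (`Sg.preimage`).  So `ξ`, `ζ`.  `Pt Q` is Polish: choose a complete metric (`TopologicalSpace.upgradeIsCompletelyMetrizable`).  `f z = ιY (F.f (g (ζ z)))` on `PA`, `ιY (F.f (g' (ζ z)))` on `PB` (complementary open sets): continuous.  `S0 = PA Q`, `E0 = PB Q`: `PairB` by `rich`, `PA_nonempty`, `nc_of` (`ξ (PA)` and `ξ (PB)` are disjoint: `A ∩ Aᶜ = ∅`, `ιX` injective).
`classify` with `V'`: `c`, `ψ`, `p`.  `φ x = g (ζ (p x))` or `g' (ζ (p x))`: `ιX (φ x) = ξ (p x) = ψ x`, so `φ` is continuous and injective on the compact space `BN Q` (`isCompact_BC`), an embedding; `f (p x) = ιY (F.f (φ x))`. -/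
theorem exists_typ (Q : Par) (F : BorelFn) (h : ¬ BaireClass Q.kap F.f) :
    ∃ c ∈ Cds Q, ∃ (φ : BN Q → F.X) (ι : F.Y → CC), IsEmbedding φ ∧ IsEmbedding ι ∧
      Typ (mkTy Q c) fun x => ι (F.f (φ x)) := by
  obtain ⟨V, hV, hVs⟩ : ∃ V : Set F.Y, IsClopen V ∧ ¬ Sg (Q.kap + 1) (F.f ⁻¹' V) := by
    by_contra hcon
    push Not at hcon
    exact h (baireClass_of_Sg F.zeroY hcon)
  obtain ⟨ιX, hX, -⟩ := Bs2.exists_emb F.zeroX isClopen_univ
  obtain ⟨ιY, hY, V', hV', hVV⟩ := Bs2.exists_emb F.zeroY hV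
  have hAne : (F.f ⁻¹' V).Nonempty := by
    rw [nonempty_iff_ne_empty]
    intro h0
    exact hVs (by rw [h0]; exact Sg.clopen isClopen_empty)
  have hBne : (F.f ⁻¹' V)ᶜ.Nonempty := by
    rw [nonempty_iff_ne_empty]
    intro h0
    rw [compl_empty_iff] at h0
    exact hVs (by rw [h0]; exact Sg.clopen isClopen_univ)
  have hAm : @MeasurableSet F.X (borel F.X) (F.f ⁻¹' V) := F.borelf V hV.isOpen
  have hBm : @MeasurableSet F.X (borel F.X) (F.f ⁻¹' V)ᶜ := @MeasurableSet.compl F.X _ (borel F.X) hAm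
  obtain ⟨g, hg, hgr, hfg⟩ := Bs2.exists_param F hAm hAne
  obtain ⟨g', hg', hgr', hfg'⟩ := Bs2.exists_param F hBm hBne
  have hgA : ∀ y, g y ∈ F.f ⁻¹' V := fun y => by rw [← hgr]; exact mem_range_self y
  have hgB : ∀ y, g' y ∉ F.f ⁻¹' V := fun y => by
    have h1 : g' y ∈ (F.f ⁻¹' V)ᶜ := by rw [← hgr']; exact mem_range_self y
    exact h1
  have hgame : ¬ ∃ Θ : Set CC, Sg (Q.kap + 1) Θ ∧ (∀ y, (fun y => ιX (g y)) y ∈ Θ) ∧
      ∀ y, (fun y => ιX (g' y)) y ∉ Θ := by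
    rintro ⟨Θ, h1, h2, h3⟩
    apply hVs
    have h4 : F.f ⁻¹' V = ιX ⁻¹' Θ := by
      ext x
      constructor
      · intro hx
        rw [← hgr] at hx
        obtain ⟨y, rfl⟩ := hx
        exact h2 y
      · intro hx
        by_contra hx'
        have h5 : x ∈ (F.f ⁻¹' V)ᶜ := hx'
        rw [← hgr'] at h5
        obtain ⟨y, rfl⟩ := h5
        exact h3 y hx
    rw [h4]
    exact h1.preimage hX.continuous
  obtain ⟨ξ, ζ, hHx, hζ, hPA, hPB⟩ := game (Q := Q) (hX.continuous.comp hg) (hX.continuous.comp hg') hgame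
  have hPA' : ∀ z ∈ PA Q, ξ z = ιX (g (ζ z)) := hPA
  have hPB' : ∀ z ∈ PB Q, ξ z = ιX (g' (ζ z)) := hPB
  have hdis : ∀ z, z ∈ PA Q → z ∉ PB Q := by
    intro z hz hz'
    have h1 : z.1 0 = 0 := hz
    have h2 : z.1 0 = 1 := hz'
    omega
  have hfc : Continuous fun z : Pt Q => if z ∈ PA Q then ιY (F.f (g (ζ z))) else ιY (F.f (g' (ζ z))) := by
    rw [continuous_iff_continuousAt]
    intro z
    rcases PA_union_PB Q z with hz | hz
    · have h1 : ContinuousAt (fun z : Pt Q => ιY (F.f (g (ζ z)))) z :=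
        (hY.continuous.comp (hfg.comp hζ)).continuousAt
      refine h1.congr ?_
      filter_upwards [(isOpen_PA Q).mem_nhds hz] with y hy
      rw [if_pos hy]
    · have h1 : ContinuousAt (fun z : Pt Q => ιY (F.f (g' (ζ z)))) z :=
        (hY.continuous.comp (hfg'.comp hζ)).continuousAt
      refine h1.congr ?_
      filter_upwards [(isOpen_PB Q).mem_nhds hz] with y hy
      rw [if_neg fun hy' => hdis y hy' hy]
  have hne : ∀ z ∈ PA Q, ∀ z' ∈ PB Q, ξ z ≠ ξ z' := by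
    intro z hz z' hz' he
    rw [hPA' z hz, hPB' z' hz'] at he
    have h1 := hX.injective he
    exact hgB (ζ z') (by rw [← h1]; exact hgA (ζ z))
  have hκ : 1 ≤ Q.kap := by
    unfold Par.kap
    split_ifs
    · exact le_add_self
    · exact Q.o_one ⊤
  obtain ⟨b, hbP, hb⟩ := fn3_bas Q hHx.continuous hfc (rich hHx) (nc_of hHx.continuous hκ (rich hHx) hne)
    hV' (fun y hy => by
      rw [if_pos hy]
      show F.f (g (ζ y)) ∈ ιY ⁻¹' V'
      rw [hVV]
      exact hgA _) (fun y hy => by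
      rw [if_neg fun hy' => hdis y hy' hy]
      intro h1
      have h2 : F.f (g' (ζ y)) ∈ ιY ⁻¹' V' := h1
      rw [hVV] at h2
      exact hgB _ h2)
  obtain ⟨ψ, p, hψ, hψi, hξp, hT⟩ := hb
  have hφ : ∀ x, ιX (if p x ∈ PA Q then g (ζ (p x)) else g' (ζ (p x))) = ψ x := by
    intro x
    rw [← hξp x]
    rcases PA_union_PB Q (p x) with hz | hz
    · rw [if_pos hz, hPA' _ hz]
    · rw [if_neg fun hy' => hdis _ hy' hz, hPB' _ hz]
  have hφc : Continuous fun x => if p x ∈ PA Q then g (ζ (p x)) else g' (ζ (p x)) := by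
    rw [hX.continuous_iff]
    have e : (ιX ∘ fun x => if p x ∈ PA Q then g (ζ (p x)) else g' (ζ (p x))) = ψ := funext hφ
    rw [e]
    exact hψ
  have hφi : Function.Injective fun x => if p x ∈ PA Q then g (ζ (p x)) else g' (ζ (p x)) := by
    intro x y hxy
    apply hψi
    rw [← hφ x, ← hφ y]
    exact congrArg ιX hxy
  have : CompactSpace (BN Q) := isCompact_iff_compactSpace.1 (isCompact_BC Q)
  refine ⟨b, hbP, _, ιY, (hφc.isClosedEmbedding hφi).isEmbedding, hY, ?_⟩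
  have e : (fun x => ιY (F.f (if p x ∈ PA Q then g (ζ (p x)) else g' (ζ (p x))))) =
      fun x => if p x ∈ PA Q then ιY (F.f (g (ζ (p x)))) else ιY (F.f (g' (ζ (p x)))) := by
    funext x
    split_ifs <;> rfl
  rw [e]
  exact hT

/-- MODULE fn4 (size 2): the theorem for the parameters `Q`; as `Bs2/Fin.lean`, `main`.

Let `𝒫` be the finite set of the codes `c ∈ Cds Q` for which there is `g : BN Q → CC` of the type `mkTy Q c` with Borel preimages of open sets; `B` the chosen functions.  `←`: `Typ.up`.  `→`: `exists_typ`, `Typ.homeo`. -/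
theorem zero_BN (Q : Par) : IsTopologicalBasis {U : Set (BN Q) | IsClopen U} := by
  have : CompactSpace (BN Q) := isCompact_iff_compactSpace.1 (isCompact_BC Q)
  exact isTopologicalBasis_isClopen

theorem polish_BN (Q : Par) : PolishSpace (BN Q) := by
  exact (isCompact_BC Q).isClosed.polishSpace

theorem main_Par (Q : Par) : ∃ (n : ℕ) (B : Fin n → BorelFn), (∀ i, ¬ BaireClass Q.kap (B i).f) ∧
    ∀ F : BorelFn, ¬ BaireClass Q.kap F.f ↔ ∃ i, (B i).Emb F := by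
  have hfin : {c : Cd | c ∈ Cds Q ∧ ∃ g : BN Q → CC, Typ (mkTy Q c) g ∧
      ∀ V : Set CC, IsOpen V → @MeasurableSet (BN Q) (borel (BN Q)) (g ⁻¹' V)}.Finite :=
    (finite_Cds Q).subset fun c hc => hc.1
  let P : Finset Cd := hfin.toFinset
  have hP : ∀ q : P, ∃ g : BN Q → CC, Typ (mkTy Q q.1) g ∧
      ∀ V : Set CC, IsOpen V → @MeasurableSet (BN Q) (borel (BN Q)) (g ⁻¹' V) :=
    fun q => (hfin.mem_toFinset.1 q.2).2
  choose g hg hgB using hP
  have := polish_BN Q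
  have : PolishSpace CC := { }
  let e := P.equivFin
  refine ⟨P.card, fun k => ⟨BN Q, CC, zero_BN Q, isTopologicalBasis_isClopen, g (e.symm k), hgB (e.symm k)⟩,
    ?_, ?_⟩
  · intro k
    exact (hg (e.symm k)).not_baireClass
  · intro F
    constructor
    · intro hF
      obtain ⟨c, hc, φ, ι, hφ, hι, ht⟩ := exists_typ Q F hF
      have hq : c ∈ P := by
        refine hfin.mem_toFinset.2 ⟨hc, _, ht, fun V hV => ?_⟩
        exact hφ.continuous.borel_measurable (F.borelf _ (hV.preimage hι.continuous))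
      have key : ∀ q : P, q.1 = c → ∃ (σ : BN Q → F.X) (τ : range (g q) → range F.f), IsEmbedding σ ∧
          IsEmbedding τ ∧ ∀ x, (τ ⟨g q x, mem_range_self x⟩ : F.Y) = F.f (σ x) := by
        intro q hq
        have hgq := hg q
        rw [hq] at hgq
        obtain ⟨τ, hτ, hτg⟩ := hgq.homeo ht
        choose ξ hξ using fun z : range (fun x => ι (F.f (φ x))) => z.2
        let ρ : range (fun x => ι (F.f (φ x))) → range F.f := fun z => ⟨F.f (φ (ξ z)), mem_range_self _⟩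
        have hj : IsEmbedding (fun w : range F.f => ι w.1) := hι.comp IsEmbedding.subtypeVal
        have hjρ : (fun w : range F.f => ι w.1) ∘ ρ = Subtype.val := funext hξ
        have hρ : IsEmbedding ρ := by
          rw [← hj.of_comp_iff, hjρ]
          exact IsEmbedding.subtypeVal
        refine ⟨φ, ρ ∘ τ, hφ, hρ.comp hτ, fun x => hι.injective ?_⟩
        rw [← hτg x]
        exact congrFun hjρ (τ ⟨g q x, mem_range_self x⟩)
      obtain ⟨σ, τ, h1, h2, h3⟩ := key (e.symm (e ⟨c, hq⟩)) (by rw [Equiv.symm_apply_apply])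
      exact ⟨e ⟨c, hq⟩, σ, τ, h1, h2, h3⟩
    · rintro ⟨k, σ, τ, hσ, hτ, hc⟩
      exact (hg (e.symm k)).up hσ hτ hc

/-- MODULE fn5 (size 1): `α < ω₁` is `α.card ≤ ℵ₀`. -/
theorem card_le_of_lt {α : Ordinal.{0}} (h : α < ω₁) : α.card ≤ ℵ₀ := by
  rw [← Cardinal.ord_aleph, Cardinal.lt_ord, ← Cardinal.succ_aleph0, Order.lt_succ_iff] at h
  exact h

/-- The main theorem. -/
theorem main {α : Ordinal.{0}} (h2 : 2 ≤ α) (h : α < ω₁) : ∃ (n : ℕ) (B : Fin n → BorelFn),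
    (∀ i, ¬ BaireClass α (B i).f) ∧ ∀ F : BorelFn, ¬ BaireClass α F.f ↔ ∃ i, (B i).Emb F := by
  obtain ⟨Q, rfl⟩ := exists_Par h2 (card_le_of_lt h)
  exact main_Par Q

end Pool.Agent.Bsw
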