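import Pool.Agent.Bsw.Sta

/-!
# Hypotheses, configurations, invariants
-/

set_option autoImplicit false

open Set Filter Topology TopologicalSpace
open scoped Classical

namespace Pool.Agent.Bsw

variable {Q : Par}

/-- The elements of `θ` agree below `m`. -/
def Sml (m : ℕ) (θ : Clopens CC) : Prop := ∀ y ∈ θ, ∀ y' ∈ θ, ∀ i < m, y i = y' i

/-- A configuration.  `S`, `D`, `C`: the sets of the nodes; `reg κ x`: the free region of the key `x` of the class `κ`; `E`: the part of the side `B` still free for cells; `ex`: exponents of the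
levels below the top; `exz w`, `exf w`, `ec w`: exponents for the top level over `w`, for the cell of `w`, continuity exponent in the cell of `w`; `U`: the slots; `th`, `et`, `gg`, `jj`, `hh`: original regions. -/
structure Cfg (Q : Par) (P : Type) where
  S : Nd Q → Set P
  D : Nd Q → Set P
  C : Nd Q → Set P
  reg : Option (Nd Q) → Nd Q → Clopens CC
  E : Set P
  ex : Q.L → Ordinal.{0}
  exz : Nd Q → Ordinal.{0}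
  exf : Nd Q → Ordinal.{0}
  ec : Nd Q → Ordinal.{0}
  U : Nd Q → Clopens CC
  th : Nd Q → Clopens CC
  et : Nd Q → Clopens CC
  gg : Nd Q → Clopens CC
  jj : Nd Q → Clopens CC
  hh : Nd Q → Clopens CC

/-- The order of the closure for the transitions to a state. -/
noncomputable def lvl {P : Type} (g : Cfg Q P) : Sta Q → Ordinal.{0}
  | .A none _ _ => 0
  | .A (some e) _ _ => g.ex e
  | .D r none _ => g.exf r
  | .D _ (some v) _ => g.exz v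
  | .S _ _ => Q.kap
  | .E => Q.kap + 1

/-- The base sets. -/
noncomputable def bse {P : Type} (τ : Ty Q) (f : P → CC) (g : Cfg Q P) : Sta Q → Set P
  | .A _ p _ => g.S p
  | .D r none c => g.C r ∩ f ⁻¹' (g.reg (τ.cls (some r)) ((c (some r)).getD (τ.an (some r) r)))
  | .D r (some v) c => g.D v ∩ f ⁻¹' (g.reg (τ.cls (some r)) ((c (some r)).getD (τ.an (some r) r)))
  | .S r x => g.S r ∩ f ⁻¹' (g.reg none x)
  | .E => g.E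

/-- The hypotheses on the system: the result of the classification. -/
structure Hyp (Q : Par) (τ : Ty Q) where
  P : Type
  [met : MetricSpace P]
  [cmp : CompleteSpace P]
  [sec : SecondCountableTopology P]
  ξ : P → CC
  f : P → CC
  hξ : Continuous ξ
  hf : Continuous f
  S0 : Set P
  E0 : Set P
  oS : IsOpen S0
  oE : IsOpen E0
  neS : S0.Nonempty
  /-- `ξ` is not constant on open subsets of `S0` -/
  nc : ∀ S ⊆ S0, IsOpen S → S.Nonempty → ∃ x ∈ S, ∃ y ∈ S, ξ x ≠ ξ y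
  hclo : S0 ⊆ clo ξ (Q.kap + 1) E0
  /-- admissible exponents of the levels below the top -/
  Adm : (Q.L → Ordinal.{0}) → Prop
  /-- the levels whose exponents are fixed at the time `n` -/
  F : ℕ → Set Q.L
  adm0 : ∃ ex, Adm ex
  adm_mono : ∀ ex, Adm ex → ∀ k k', k < k' → k' ≠ ⊤ → ex k < ex k'
  adm_lt : ∀ ex, Adm ex → ∀ k, k ≠ ⊤ → ex k + 1 < Q.kap
  adm_one : ∀ ex, Adm ex → ∀ k, k ≠ ⊤ → 1 ≤ ex k
  F_iota : ∀ n k, Q.ι k ≤ n → k ∈ F n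
  F_mono : Monotone F
  F_DB : τ.cl ≠ 0 → ∀ r, τ.DB r \ {⊤} ⊆ F r.length
  /-- the side `A` -/
  cA_true : τ.cA = true → ∀ x ∈ S0, ∀ y ∈ S0, f x = f y
  cA_out : τ.cA = false → ∀ D ⊆ S0, IsOpen D → D.Nonempty → ¬ Co ξ f 0 D ∧
    (∀ ex, Adm ex → ∀ k ∈ τ.DA, k ≠ ⊤ → ¬ Co ξ f (ex k) D) ∧ (⊤ ∈ τ.DA → ∀ e < Q.kap, ¬ Co ξ f e D)
  eA : Ordinal.{0}
  eA_lt : eA < Q.kap
  cA_in : τ.cA = false → ⊤ ∉ τ.DA → Co ξ f eA S0 ∧ ∀ ex, Adm ex → ∀ k ∉ τ.DA, k ≠ ⊤ → eA ≤ ex k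
  /-- the side `B`, class III -/
  c0_true : τ.cl = 0 → τ.cB = true → ∀ x ∈ E0, ∀ y ∈ E0, f x = f y
  c0_out : τ.cl = 0 → τ.cB = false → ∀ D ⊆ E0, IsOpen D → D.Nonempty → ¬ Co ξ f 0 D ∧
    (∀ ex, Adm ex → ∀ k ∈ τ.DB [], k ≠ ⊤ → ¬ Co ξ f (ex k) D)
  eB : Ordinal.{0}
  eB_lt : eB < Q.kap
  c0_in : τ.cl = 0 → τ.cB = false → Co ξ f eB E0 ∧ ∀ ex, Adm ex → ∀ k ∉ τ.DB [], k ≠ ⊤ → eB ≤ ex k

attribute [instance] Hyp.met Hyp.cmp Hyp.sec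

variable {τ : Ty Q}

/-- Pairs. -/
structure Hyp.Pair (H : Hyp Q τ) (S E : Set H.P) : Prop where
  oS : IsOpen S
  oE : IsOpen E
  ne : S.Nonempty
  sS : S ⊆ H.S0
  sE : E ⊆ H.E0
  hclo : S ⊆ clo H.ξ (Q.kap + 1) E

/-- The property of the sets `C` of the cell `w` (classes I and II). -/
structure Hyp.CellP (H : Hyp Q τ) (ex : Q.L → Ordinal.{0}) (w : Nd Q) (e : Ordinal.{0}) (C : Set H.P) : Prop where
  ctrue : τ.cB = true → ∀ x ∈ C, ∀ y ∈ C, H.f x = H.f y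
  out : τ.cB = false → ∀ D ⊆ C, IsOpen D → D.Nonempty → ¬ Co H.ξ H.f 0 D ∧
    ∀ k ∈ τ.DB w, k ≠ ⊤ → ¬ Co H.ξ H.f (ex k) D
  cin : τ.cB = false → τ.DB w ≠ Iio ⊤ → e + 1 < Q.kap ∧ Co H.ξ H.f e C ∧ ∀ k ∉ τ.DB w, k ≠ ⊤ → e ≤ ex k

/-- The new exponents `ex'` extend `ex` at the time `n`. -/
structure Hyp.Ext (H : Hyp Q τ) (n : ℕ) (ex ex' : Q.L → Ordinal.{0}) : Prop where
  adm : H.Adm ex'
  eq : ∀ k ∈ H.F n, ex' k = ex k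
  le : ∀ k, ex k ≤ ex' k

/-- The hypotheses in the classes I and II. -/
structure Hyp.Cls (H : Hyp Q τ) : Prop where
  /-- class I: cells with a region `A` which is avoided by the rest -/
  cellI : τ.cl = 1 → ∀ (w : Nd Q) (ex : Q.L → Ordinal.{0}), H.Adm ex → ∀ S E : Set H.P, H.Pair S E →
    ∃ ex', H.Ext w.length ex ex' ∧ ∃ (A : Clopens CC) (e : Ordinal.{0}) (D : Set H.P), IsOpen D ∧ D.Nonempty ∧
      D ⊆ E ∩ H.f ⁻¹' A ∧ D ⊆ clo H.ξ Q.kap (S ∩ clo H.ξ (Q.kap + 1) (E \ H.f ⁻¹' A)) ∧ H.CellP ex' w e D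
  /-- class II: cells -/
  cellII : τ.cl = 2 → ∀ (w : Nd Q) (ex : Q.L → Ordinal.{0}), H.Adm ex → ∀ S E : Set H.P, H.Pair S E →
    ∃ ex', H.Ext w.length ex ex' ∧ ∃ (e : Ordinal.{0}) (D : Set H.P), IsOpen D ∧ D.Nonempty ∧
      D ⊆ E ∩ clo H.ξ Q.kap S ∧ H.CellP ex' w e D
  /-- class II: nothing can be avoided -/
  nav : τ.cl = 2 → ∀ S E : Set H.P, H.Pair S E → ∀ A : Clopens CC,
    E ∩ H.f ⁻¹' A ∩ clo H.ξ Q.kap (S ∩ clo H.ξ (Q.kap + 1) (E \ H.f ⁻¹' A)) = ∅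
  /-- class II: no continuity on a pair -/
  nco : τ.cl = 2 → ∀ S E : Set H.P, H.Pair S E → ∀ e < Q.kap, ¬ Co H.ξ H.f e E

/-- The sets `G`. -/
noncomputable def Hyp.G (H : Hyp Q τ) (g : Cfg Q H.P) (σ : Sta Q) : Set H.P :=
  GG (TT τ) H.ξ (lvl g) (bse τ H.f g) σ

/-- The class of the regions of the cell `r`, and the key of the parent region of `w`. -/
noncomputable def Ty.kp (τ : Ty Q) (w : Nd Q) : Nd Q := τ.an (some (q univ w)) (q (τ.DB (q univ w)) w)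

/-- The original region of a key of a cell. -/
noncomputable def orig {P : Type} (τ : Ty Q) (g : Cfg Q P) (κ : Option (Nd Q)) (x : Nd Q) : Clopens CC :=
  if κ = some x ∧ τ.cl ≠ 0 then (if τ.cl = 1 then g.hh x else g.jj x) else g.et x

/-- The invariants: the tree and the sets. -/
structure Inv1 (H : Hyp Q τ) (T : Finset (Nd Q)) (g : Cfg Q H.P) : Prop where
  nil : [] ∈ T
  ok : ∀ w ∈ T, Ok w
  len : ∀ w ∈ T, ∀ w', Ok w' → w'.length < w.length → w' ∈ T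
  oS : ∀ w, IsOpen (g.S w)
  oD : ∀ w, IsOpen (g.D w)
  oC : ∀ w, IsOpen (g.C w)
  oE : IsOpen g.E
  sE : g.E ⊆ H.E0
  S_ne : ∀ w ∈ T, (g.S w).Nonempty
  S_sub : ∀ w ∈ T, g.S w ⊆ H.S0 ∩ H.ξ ⁻¹' (g.U w)
  D_ne : ∀ w ∈ T, w ≠ [] → (g.D w).Nonempty
  D_sub : ∀ w ∈ T, w ≠ [] → g.D w ⊆ H.E0 ∩ H.ξ ⁻¹' (g.U w)
  C_ne : ∀ w ∈ T, (g.C w).Nonempty
  C_sub : ∀ w ∈ T, g.C w ⊆ H.E0
  S_cl : ∀ w ∈ T, w ≠ [] → closure (g.S w) ⊆ g.S (q univ w)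
  S_di : ∀ w ∈ T, w ≠ [] → ∀ x ∈ g.S w, ∀ y ∈ g.S w, dist x y ≤ (1 / 2 : ℝ) ^ w.length
  D_cl : ∀ w ∈ T, w ≠ [] → dpar w = none → closure (g.D w) ⊆ g.C (q univ w)
  D_cl' : ∀ w ∈ T, w ≠ [] → ∀ v, dpar w = some v → closure (g.D w) ⊆ g.D v
  D_di : ∀ w ∈ T, w ≠ [] → ∀ x ∈ g.D w, ∀ y ∈ g.D w, dist x y ≤ (1 / 2 : ℝ) ^ w.length
  D_C : ∀ w ∈ T, w ≠ [] → τ.cl ≠ 0 → g.D w ⊆ g.C (q univ w)
  U_le : ∀ v ∈ T, ∀ m, Ok (m :: v) → g.U (m :: v) ≤ g.U v ∧ Sml v.length (g.U (m :: v))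
  U_di : ∀ v ∈ T, ∀ m m', Ok (m :: v) → Ok (m' :: v) → m ≠ m' → Disjoint (g.U (m :: v)) (g.U (m' :: v))

/-- The invariants: the exponents and the cells. -/
structure Inv2 (H : Hyp Q τ) (T : Finset (Nd Q)) (g : Cfg Q H.P) : Prop where
  adm : H.Adm g.ex
  lt : ∀ w ∈ T, ∀ k, k ≠ ⊤ → Q.ι k ≤ w.length → g.ex k < g.exz w ∧ g.ex k < g.exf w
  kap : ∀ w ∈ T, g.exz w < Q.kap ∧ g.exf w < Q.kap
  one : ∀ w ∈ T, 1 ≤ g.exz w ∧ 1 ≤ g.exf w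
  md : Q.md = true → ∀ w ∈ T, g.exz w = Q.o ⊤ ∧ g.exf w = Q.o ⊤
  eA : ∀ w ∈ T, H.eA ≤ g.exz w ∧ H.eA ≤ g.exf w
  eB : ∀ w ∈ T, H.eB ≤ g.exz w ∧ H.eB ≤ g.exf w
  cell : τ.cl ≠ 0 → ∀ r ∈ T, H.CellP g.ex r (g.ec r) (g.C r)
  ec : τ.cl ≠ 0 → τ.cB = false → ∀ r ∈ T, τ.DB r ≠ Iio ⊤ → g.ec r ≤ g.exf r ∧
    ∀ v ∈ T, v ≠ [] → q univ v = r → g.ec r + 1 ≤ g.exz v

/-- The invariants: the regions of the side `A`. -/
structure Inv3 (H : Hyp Q τ) (T : Finset (Nd Q)) (g : Cfg Q H.P) : Prop where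
  const : τ.cA = true → g.reg none [] = ⊤
  th_le : τ.cA = false → ∀ w ∈ T, w ≠ [] → g.th w ≤ g.th (q τ.DA w) ∧ Sml w.length (g.th w)
  f_th : τ.cA = false → ∀ w ∈ T, w ≠ [] → g.S w ⊆ H.f ⁻¹' (g.th w)
  th_di : τ.cA = false → ∀ w ∈ T, ∀ w' ∈ T, w ≠ [] → w' ≠ [] → w ≠ w' → q τ.DA w = q τ.DA w' →
    Disjoint (g.th w) (g.th w')
  reg_le : τ.cA = false → ∀ x ∈ T, g.reg none x ≤ g.th x
  reg_di : τ.cA = false → ∀ w ∈ T, w ≠ [] → Disjoint (g.reg none (q τ.DA w)) (g.th w)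

/-- The invariants: the regions of the side `B`. -/
structure Inv4 (H : Hyp Q τ) (T : Finset (Nd Q)) (g : Cfg Q H.P) : Prop where
  /-- not constant -/
  gg_le : τ.cB = false → ∀ w ∈ T, w ≠ [] → g.gg w ≤ orig τ g (τ.cls (some (q univ w))) (τ.kp w) ∧
    Sml w.length (g.gg w) ∧ g.et w ≤ g.gg w
  f_et : τ.cB = false → ∀ w ∈ T, w ≠ [] → g.D w ⊆ H.f ⁻¹' (g.et w)
  gg_di : τ.cB = false → ∀ w ∈ T, ∀ w' ∈ T, w ≠ [] → w' ≠ [] → w ≠ w' →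
    τ.cls (some (q univ w)) = τ.cls (some (q univ w')) → τ.kp w = τ.kp w' → Disjoint (g.gg w) (g.gg w')
  reg_le : τ.cB = false → ∀ r ∈ T, ∀ x ∈ T, (τ.cl = 0 ∨ x = r ∨ (x ≠ [] ∧ q univ x = r)) →
    g.reg (τ.cls (some r)) x ≤ orig τ g (τ.cls (some r)) x
  reg_di : τ.cB = false → ∀ w ∈ T, w ≠ [] → Disjoint (g.reg (τ.cls (some (q univ w))) (τ.kp w)) (g.gg w)
  /-- class III, constant -/
  const0 : τ.cl = 0 → τ.cB = true → g.reg (some []) [] = ⊤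
  /-- class I -/
  hh_di : τ.cl = 1 → ∀ w ∈ T, ∀ w' ∈ T, w ≠ w' → Disjoint (g.hh w) (g.hh w')
  f_hh : τ.cl = 1 → ∀ w ∈ T, g.C w ⊆ H.f ⁻¹' (g.hh w) ∧ g.E ∩ H.f ⁻¹' (g.hh w) = ∅
  const1 : τ.cl = 1 → τ.cB = true → ∀ r ∈ T, g.reg (some r) r = g.hh r
  /-- class II -/
  E2 : τ.cl ≠ 1 → g.E = H.E0
  f_jj : τ.cl = 2 → ∀ w ∈ T, g.C w ⊆ H.f ⁻¹' (g.jj w) ∧ g.S w ⊆ clo H.ξ (Q.kap + 1) (g.E ∩ H.f ⁻¹' (g.jj w))
  jj_le : τ.cl = 2 → ∀ w ∈ T, w ≠ [] → g.jj w ≤ g.gg w ∧ Disjoint (g.et w) (g.jj w)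
  /-- class II, constant -/
  gg_le2 : τ.cl = 2 → τ.cB = true → ∀ w ∈ T, w ≠ [] → g.gg w ≤ g.jj (q univ w) ∧ Sml w.length (g.gg w) ∧
    g.D w ⊆ H.f ⁻¹' (g.gg w \ g.jj w)
  jj_di : τ.cl = 2 → τ.cB = true → ∀ w ∈ T, ∀ w' ∈ T, w ≠ [] → w' ≠ [] → w ≠ w' → q univ w = q univ w' →
    Disjoint (g.jj w) (g.jj w')
  reg2 : τ.cl = 2 → τ.cB = true → ∀ r ∈ T, g.reg (some r) r ≤ g.jj r ∧ g.C r ⊆ H.f ⁻¹' (g.reg (some r) r) ∧
    ∀ w ∈ T, w ≠ [] → q univ w = r → Disjoint (g.reg (some r) r) (g.jj w)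

/-- The slots are alive. -/
def Via (H : Hyp Q τ) (T : Finset (Nd Q)) (g : Cfg Q H.P) : Prop :=
  ∀ v ∈ T, ∀ m, Ok (m :: v) → m :: v ∉ T →
    (H.G g (.A ⊥ v (fun _ => none)) ∩ H.ξ ⁻¹' (g.U (m :: v))).Nonempty

/-- All the invariants. -/
structure Inv (H : Hyp Q τ) (T : Finset (Nd Q)) (g : Cfg Q H.P) : Prop where
  i1 : Inv1 H T g
  i2 : Inv2 H T g
  i3 : Inv3 H T g
  i4 : Inv4 H T g
  via : Via H T g

end Pool.Agent.Bsw
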