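import Pool.Agent.Bsw.Tre
import Pool.Agent.Bsw.Bor

/-!
# The space of chains
-/

set_option autoImplicit false

open Set Filter Topology TopologicalSpace
open scoped Classical

namespace Pool.Agent.Bsw

variable {Q : Par}

instance Par.countable (Q : Par) : Countable Q.L := Q.ι_inj.countable

/-- A code for nodes. -/
noncomputable def cd (Q : Par) : Nd Q → ℕ := (exists_injective_nat (Nd Q)).choose

theorem cd_inj (Q : Par) : Function.Injective (cd Q) := (exists_injective_nat (Nd Q)).choose_spec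

/-- Codes of chains: `0` for the side `A`, followed by the codes of the nodes; `1` for the side `B`, followed by the code of the cell and the codes of the nodes. -/
def CP (Q : Par) : Set (ℕ → ℕ) :=
  {z | z 0 = 0 ∧ ∃ c, ACh c ∧ ∀ n, z (n + 1) = cd Q (c n)} ∪
    {z | z 0 = 1 ∧ ∃ r v, BCh r v ∧ z 1 = cd Q r ∧ ∀ n, z (n + 2) = cd Q (v n)}

/-- The space of chains. -/
abbrev Pt (Q : Par) := ↥(CP Q)

/-- The side `A`. -/
def PA (Q : Par) : Set (Pt Q) := {z | z.1 0 = 0}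

/-- The side `B`. -/
def PB (Q : Par) : Set (Pt Q) := {z | z.1 0 = 1}

/-- The `A`-chains through `w`. -/
def BA (w : Nd Q) : Set (Pt Q) := {z | z.1 0 = 0 ∧ ∃ n, z.1 (n + 1) = cd Q w}

/-- The `B`-chains through `v`. -/
def BB (v : Nd Q) : Set (Pt Q) := {z | z.1 0 = 1 ∧ ∃ n, z.1 (n + 2) = cd Q v}

/-- Decoding of nodes. -/
private noncomputable def ri1_dn (Q : Par) (k : ℕ) : Nd Q := if h : ∃ w, cd Q w = k then h.choose else []

private theorem ri1_dn_cd (w : Nd Q) : ri1_dn Q (cd Q w) = w := by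
  have h : ∃ w', cd Q w' = cd Q w := ⟨w, rfl⟩
  rw [ri1_dn, dif_pos h]
  exact cd_inj Q h.choose_spec

private theorem ri1_cl (a b : ℕ) (P : ℕ → ℕ → Prop) : IsClosed {z : ℕ → ℕ | P (z a) (z b)} := by
  have h : IsClosed {p : ℕ × ℕ | P p.1 p.2} := isClosed_discrete _
  have hc : Continuous (fun z : ℕ → ℕ => (z a, z b)) :=
    (continuous_apply a).prodMk (continuous_apply b)
  exact h.preimage hc

private theorem ri1_op (a : ℕ) (P : ℕ → Prop) : IsOpen {z : Pt Q | P (z.1 a)} := by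
  have h : IsOpen {p : ℕ | P p} := isOpen_discrete _
  have hc : Continuous (fun z : Pt Q => z.1 a) := (continuous_apply a).comp continuous_subtype_val
  exact h.preimage hc

/-- MODULE ri1 (size 2): topology of the space of chains.

Proof.  `CP Q` is closed: a limit of codes with `z 0 = 0`: for every `n` the values `z (n+1)` are codes of nodes `c n`, and the conditions (`c 0 = []`, `c (n+1) ≠ []`, `q univ (c (n+1)) = c n`, `Ok (c n)`) involve finitely many coordinates; likewise for `B`.  Sets defined by finitely many coordinates are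
clopen. -/
theorem isClosed_CP (Q : Par) : IsClosed (CP Q) := by
  have hA : IsClosed {z : ℕ → ℕ | z 0 = 0 ∧ ∃ c, ACh c ∧ ∀ n, z (n + 1) = cd Q (c n)} := by
    have e : {z : ℕ → ℕ | z 0 = 0 ∧ ∃ c, ACh c ∧ ∀ n, z (n + 1) = cd Q (c n)}
        = {z : ℕ → ℕ | z 0 = 0 ∧ (∀ n, cd Q (ri1_dn Q (z (n + 1))) = z (n + 1)) ∧
          ri1_dn Q (z 1) = [] ∧ (∀ n, ri1_dn Q (z (n + 2)) ≠ []) ∧
          (∀ n, q univ (ri1_dn Q (z (n + 2))) = ri1_dn Q (z (n + 1))) ∧
          (∀ n, Ok (ri1_dn Q (z (n + 1))))} := by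
      ext z
      constructor
      · rintro ⟨h0, c, hc, hz⟩
        refine ⟨h0, fun n => ?_, ?_, fun n => ?_, fun n => ?_, fun n => ?_⟩
        · rw [hz, ri1_dn_cd]
        · have := hz 0
          rw [zero_add] at this
          rw [this, ri1_dn_cd, hc.zero]
        · rw [hz (n + 1), ri1_dn_cd]; exact hc.ne n
        · rw [hz (n + 1), hz n, ri1_dn_cd, ri1_dn_cd]; exact hc.q n
        · rw [hz n, ri1_dn_cd]; exact hc.ok n
      · rintro ⟨h0, h1, h2, h3, h4, h5⟩
        exact ⟨h0, fun n => ri1_dn Q (z (n + 1)), ⟨h2, h3, h4, h5⟩, fun n => (h1 n).symm⟩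
    rw [e]
    simp only [Set.setOf_and, Set.setOf_forall]
    refine (ri1_cl 0 0 (fun a _ => a = 0)).inter ((isClosed_iInter fun n => ?_).inter
      (IsClosed.inter ?_ ((isClosed_iInter fun n => ?_).inter ((isClosed_iInter fun n => ?_).inter
      (isClosed_iInter fun n => ?_)))))
    · exact ri1_cl (n + 1) (n + 1) (fun a _ => cd Q (ri1_dn Q a) = a)
    · exact ri1_cl 1 1 (fun a _ => ri1_dn Q a = [])
    · exact ri1_cl (n + 2) (n + 2) (fun a _ => ri1_dn Q a ≠ [])
    · exact ri1_cl (n + 2) (n + 1) (fun a b => q univ (ri1_dn Q a) = ri1_dn Q b)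
    · exact ri1_cl (n + 1) (n + 1) (fun a _ => Ok (ri1_dn Q a))
  have hB : IsClosed {z : ℕ → ℕ | z 0 = 1 ∧ ∃ r v, BCh r v ∧ z 1 = cd Q r ∧ ∀ n, z (n + 2) = cd Q (v n)} := by
    have e : {z : ℕ → ℕ | z 0 = 1 ∧ ∃ r v, BCh r v ∧ z 1 = cd Q r ∧ ∀ n, z (n + 2) = cd Q (v n)}
        = {z : ℕ → ℕ | z 0 = 1 ∧ cd Q (ri1_dn Q (z 1)) = z 1 ∧
          (∀ n, cd Q (ri1_dn Q (z (n + 2))) = z (n + 2)) ∧
          (∀ n, ri1_dn Q (z (n + 2)) ≠ []) ∧
          (∀ n, q univ (ri1_dn Q (z (n + 2))) = ri1_dn Q (z 1)) ∧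
          dpar (ri1_dn Q (z 2)) = none ∧
          (∀ n, dpar (ri1_dn Q (z (n + 3))) = some (ri1_dn Q (z (n + 2)))) ∧
          (∀ n, Ok (ri1_dn Q (z (n + 2))))} := by
      ext z
      constructor
      · rintro ⟨h0, r, v, hc, hr, hz⟩
        have hz1 : ∀ n, z (n + 3) = cd Q (v (n + 1)) := fun n => hz (n + 1)
        have hz0 : z 2 = cd Q (v 0) := hz 0
        refine ⟨h0, ?_, fun n => ?_, fun n => ?_, fun n => ?_, ?_, fun n => ?_, fun n => ?_⟩
        · rw [hr, ri1_dn_cd]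
        · rw [hz, ri1_dn_cd]
        · rw [hz n, ri1_dn_cd]; exact hc.ne n
        · rw [hz n, hr, ri1_dn_cd, ri1_dn_cd]; exact hc.q n
        · rw [hz0, ri1_dn_cd]; exact hc.zero
        · rw [hz1 n, hz n, ri1_dn_cd, ri1_dn_cd]; exact hc.succ n
        · rw [hz n, ri1_dn_cd]; exact hc.ok n
      · rintro ⟨h0, h1, h2, h3, h4, h5, h6, h7⟩
        exact ⟨h0, ri1_dn Q (z 1), fun n => ri1_dn Q (z (n + 2)), ⟨h3, h4, h5, h6, h7⟩, h1.symm,
          fun n => (h2 n).symm⟩
    rw [e]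
    simp only [Set.setOf_and, Set.setOf_forall]
    refine (ri1_cl 0 0 (fun a _ => a = 1)).inter (IsClosed.inter ?_ ((isClosed_iInter fun n => ?_).inter
      ((isClosed_iInter fun n => ?_).inter ((isClosed_iInter fun n => ?_).inter
      (IsClosed.inter ?_ ((isClosed_iInter fun n => ?_).inter (isClosed_iInter fun n => ?_)))))))
    · exact ri1_cl 1 1 (fun a _ => cd Q (ri1_dn Q a) = a)
    · exact ri1_cl (n + 2) (n + 2) (fun a _ => cd Q (ri1_dn Q a) = a)
    · exact ri1_cl (n + 2) (n + 2) (fun a _ => ri1_dn Q a ≠ [])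
    · exact ri1_cl (n + 2) 1 (fun a b => q univ (ri1_dn Q a) = ri1_dn Q b)
    · exact ri1_cl 2 2 (fun a _ => dpar (ri1_dn Q a) = none)
    · exact ri1_cl (n + 3) (n + 2) (fun a b => dpar (ri1_dn Q a) = some (ri1_dn Q b))
    · exact ri1_cl (n + 2) (n + 2) (fun a _ => Ok (ri1_dn Q a))
  exact hA.union hB

instance (Q : Par) : PolishSpace (Pt Q) := (isClosed_CP Q).polishSpace

theorem isOpen_PA (Q : Par) : IsOpen (PA Q) := by
  exact ri1_op 0 (fun a => a = 0)

theorem isOpen_PB (Q : Par) : IsOpen (PB Q) := by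
  exact ri1_op 0 (fun a => a = 1)

theorem PA_union_PB (Q : Par) (z : Pt Q) : z ∈ PA Q ∨ z ∈ PB Q := by
  rcases z.2 with h | h
  · exact Or.inl h.1
  · exact Or.inr h.1

theorem isOpen_BA (w : Nd Q) : IsOpen (BA w) := by
  have e : BA w = PA Q ∩ ⋃ n, {z : Pt Q | z.1 (n + 1) = cd Q w} := by
    ext z
    simp only [BA, PA, mem_setOf_eq, mem_inter_iff, mem_iUnion]
  rw [e]
  exact (isOpen_PA Q).inter (isOpen_iUnion fun n => ri1_op (n + 1) (fun a => a = cd Q w))

theorem isOpen_BB (v : Nd Q) : IsOpen (BB v) := by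
  have e : BB v = PB Q ∩ ⋃ n, {z : Pt Q | z.1 (n + 2) = cd Q v} := by
    ext z
    simp only [BB, PB, mem_setOf_eq, mem_inter_iff, mem_iUnion]
  rw [e]
  exact (isOpen_PB Q).inter (isOpen_iUnion fun n => ri1_op (n + 2) (fun a => a = cd Q v))

/-- The chain of a point of `PA`. -/
theorem exists_ACh {z : Pt Q} (h : z ∈ PA Q) : ∃ c, ACh c ∧ ∀ n, z.1 (n + 1) = cd Q (c n) := by
  have h' : z.1 0 = 0 := h
  rcases z.2 with h1 | h1
  · exact h1.2
  · have := h1.1
    omega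

theorem exists_BCh {z : Pt Q} (h : z ∈ PB Q) : ∃ r v, BCh r v ∧ z.1 1 = cd Q r ∧ ∀ n, z.1 (n + 2) = cd Q (v n) := by
  have h' : z.1 0 = 1 := h
  rcases z.2 with h1 | h1
  · have := h1.1
    omega
  · exact h1.2

theorem exists_pt_of_ACh {c : ℕ → Nd Q} (h : ACh c) : ∃ z : Pt Q, z ∈ PA Q ∧ ∀ n, z.1 (n + 1) = cd Q (c n) := by
  let z : ℕ → ℕ := fun n => Nat.casesOn n 0 (fun k => cd Q (c k))
  have hz : z ∈ CP Q := Or.inl ⟨rfl, c, h, fun n => rfl⟩
  have h0 : z 0 = 0 := rfl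
  exact ⟨⟨z, hz⟩, h0, fun n => rfl⟩

theorem exists_pt_of_BCh {r : Nd Q} {v : ℕ → Nd Q} (h : BCh r v) :
    ∃ z : Pt Q, z ∈ PB Q ∧ z.1 1 = cd Q r ∧ ∀ n, z.1 (n + 2) = cd Q (v n) := by
  let z : ℕ → ℕ := fun n => Nat.casesOn n 1 (fun k => Nat.casesOn k (cd Q r) (fun j => cd Q (v j)))
  have hz : z ∈ CP Q := Or.inr ⟨rfl, r, v, h, rfl, fun n => rfl⟩
  have h0 : z 0 = 1 := rfl
  have h1 : z 1 = cd Q r := rfl
  exact ⟨⟨z, hz⟩, h0, h1, fun n => rfl⟩

private theorem ri2_nb {z : Pt Q} {N : Set (Pt Q)} (hN : IsOpen N) (hz : z ∈ N) :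
    ∃ m, ∀ z' : Pt Q, (∀ i < m, z'.1 i = z.1 i) → z' ∈ N := by
  obtain ⟨V, hV, rfl⟩ := isOpen_induced_iff.mp hN
  obtain ⟨I, u, hu, hI⟩ := isOpen_pi_iff.mp hV z.1 hz
  refine ⟨I.sup id + 1, fun z' hz' => hI fun i hi => ?_⟩
  have h1 : i ≤ I.sup id := Finset.le_sup (f := id) (Finset.mem_coe.mp hi)
  rw [hz' i (by omega)]
  exact (hu i (Finset.mem_coe.mp hi)).2

private theorem ri2_A {c c' : ℕ → Nd Q} (hc : ACh c) (hc' : ACh c') :
    ∀ n j, c' j = c n → j = n ∧ ∀ i ≤ n, c' i = c i := by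
  intro n
  induction n with
  | zero =>
    intro j hj
    rw [hc.zero] at hj
    rcases Nat.eq_zero_or_pos j with h | h
    · subst h
      refine ⟨rfl, fun i hi => ?_⟩
      have : i = 0 := by omega
      rw [this, hc.zero, hc'.zero]
    · obtain ⟨k, rfl⟩ : ∃ k, j = k + 1 := ⟨j - 1, by omega⟩
      exact absurd hj (hc'.ne k)
  | succ n ih =>
    intro j hj
    rcases Nat.eq_zero_or_pos j with h | h
    · subst h
      rw [hc'.zero] at hj
      exact absurd hj.symm (hc.ne n)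
    · obtain ⟨k, rfl⟩ : ∃ k, j = k + 1 := ⟨j - 1, by omega⟩
      have h1 : c' k = c n := by rw [← hc'.q k, ← hc.q n, hj]
      obtain ⟨h2, h3⟩ := ih k h1
      subst h2
      refine ⟨rfl, fun i hi => ?_⟩
      rcases Nat.lt_or_ge i (k + 1) with h4 | h4
      · exact h3 i (by omega)
      · have : i = k + 1 := by omega
        rw [this, hj]

private theorem ri2_B {r r' : Nd Q} {c c' : ℕ → Nd Q} (hc : BCh r c) (hc' : BCh r' c') :
    ∀ n j, c' j = c n → j = n ∧ ∀ i ≤ n, c' i = c i := by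
  intro n
  induction n with
  | zero =>
    intro j hj
    rcases Nat.eq_zero_or_pos j with h | h
    · subst h
      refine ⟨rfl, fun i hi => ?_⟩
      have : i = 0 := by omega
      rw [this, hj]
    · obtain ⟨k, rfl⟩ : ∃ k, j = k + 1 := ⟨j - 1, by omega⟩
      have h1 := hc'.succ k
      rw [hj, hc.zero] at h1
      cases h1
  | succ n ih =>
    intro j hj
    rcases Nat.eq_zero_or_pos j with h | h
    · subst h
      have h1 := hc'.zero
      rw [hj, hc.succ] at h1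
      cases h1
    · obtain ⟨k, rfl⟩ : ∃ k, j = k + 1 := ⟨j - 1, by omega⟩
      have h0 := hc'.succ k
      rw [hj, hc.succ] at h0
      have h1 : c' k = c n := (Option.some.inj h0).symm
      obtain ⟨h2, h3⟩ := ih k h1
      subst h2
      refine ⟨rfl, fun i hi => ?_⟩
      rcases Nat.lt_or_ge i (k + 1) with h4 | h4
      · exact h3 i (by omega)
      · have : i = k + 1 := by omega
        rw [this, hj]

/-- MODULE ri2 (size 2): bases.  An open set containing the point `z` of `PA` contains `BA (c n)` for all large `n` (the node `c n` determines `c 0, …, c (n-1)`: if `w` is a member of an `A`-chain then the previous member is `q univ w`; so the points of `BA (c n)` agree with `z` on the first `n + 2` coordinates: by induction `c n` has the same index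
because the number of ancestors of order `univ` is determined).  For `B`: `dpar` determines the previous members and `q univ` the cell.  Depths increase along chains by `dep_lt_of_le` (`Le univ (c n) (c (n+1))`, `Ok.mono`; `dpar_some`). -/
theorem exists_BA_subset {z : Pt Q} {c : ℕ → Nd Q} (hc : ACh c) (hz : z ∈ PA Q) (h : ∀ n, z.1 (n + 1) = cd Q (c n))
    {N : Set (Pt Q)} (hN : IsOpen N) (hzN : z ∈ N) : ∃ n₀, ∀ n ≥ n₀, BA (c n) ⊆ N := by
  obtain ⟨m, hm⟩ := ri2_nb hN hzN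
  refine ⟨m, fun n hn z' hz' => hm z' fun i hi => ?_⟩
  obtain ⟨hz0, j, hj⟩ := hz'
  obtain ⟨c', hc', h'⟩ := exists_ACh (z := z') hz0
  rw [h' j] at hj
  have hj' := ri2_A hc hc' n j (cd_inj Q hj)
  rcases Nat.eq_zero_or_pos i with h0 | h0
  · subst h0
    have h2 : z.1 0 = 0 := hz
    rw [hz0, h2]
  · obtain ⟨k, rfl⟩ : ∃ k, i = k + 1 := ⟨i - 1, by omega⟩
    rw [h' k, h k, hj'.2 k (by omega)]

theorem exists_BB_subset {z : Pt Q} {r : Nd Q} {v : ℕ → Nd Q} (hc : BCh r v) (hz : z ∈ PB Q)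
    (h1 : z.1 1 = cd Q r) (h : ∀ n, z.1 (n + 2) = cd Q (v n)) {N : Set (Pt Q)} (hN : IsOpen N) (hzN : z ∈ N) :
    ∃ n₀, ∀ n ≥ n₀, BB (v n) ⊆ N := by
  obtain ⟨m, hm⟩ := ri2_nb hN hzN
  refine ⟨m, fun n hn z' hz' => hm z' fun i hi => ?_⟩
  obtain ⟨hz0, j, hj⟩ := hz'
  obtain ⟨r', c', hc', h1', h'⟩ := exists_BCh (z := z') hz0
  rw [h' j] at hj
  have hj'' := cd_inj Q hj
  have hj' := ri2_B hc hc' n j hj''
  have hr : r' = r := by rw [← hc'.q j, ← hc.q n, hj'']
  rcases Nat.eq_zero_or_pos i with h0 | h0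
  · subst h0
    have h2 : z.1 0 = 1 := hz
    rw [hz0, h2]
  · rcases Nat.eq_zero_or_pos (i - 1) with h3 | h3
    · have : i = 1 := by omega
      rw [this, h1', h1, hr]
    · obtain ⟨k, rfl⟩ : ∃ k, i = k + 2 := ⟨i - 2, by omega⟩
      rw [h' k, h k, hj'.2 k (by omega)]

private theorem ri2_leA {c : ℕ → Nd Q} (hc : ACh c) {k m : ℕ} (h : k ≤ m) : Le univ (c k) (c m) := by
  induction m, h using Nat.le_induction with
  | base => exact Le.refl
  | succ m _ ih =>
    refine Le.step (hc.ne m) ?_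
    rw [hc.q m]
    exact ih

private theorem ri2_Iio : IsLowerSet (Iio (⊤ : Q.L)) := isLowerSet_Iio _

private theorem ri2_depA_lt {c : ℕ → Nd Q} (hc : ACh c) {k m : ℕ} (h : k < m) : dep (c k) < dep (c m) := by
  have h1 : ∀ i, dep (c i) < dep (c (i + 1)) := by
    intro i
    have h2 : Le univ (c i) (c (i + 1)) := ri2_leA hc (Nat.le_succ i)
    have h3 : Le (Iio (⊤ : Q.L)) (c i) (c (i + 1)) :=
      (hc.ok (i + 1)).mono isLowerSet_univ ri2_Iio (subset_univ _) h2
    refine dep_lt_of_le h3 fun h4 => ?_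
    have := (hc.suffix i).2
    rw [← h4] at this
    exact lt_irrefl _ this
  exact strictMono_nat_of_lt_succ h1 h

private theorem ri2_depA {c : ℕ → Nd Q} (hc : ACh c) (n : ℕ) : n ≤ dep (c n) := by
  induction n with
  | zero => exact Nat.zero_le _
  | succ n ih => exact lt_of_le_of_lt ih (ri2_depA_lt hc (Nat.lt_succ_self n))

private theorem ri2_leB {r : Nd Q} {c : ℕ → Nd Q} (hc : BCh r c) {k m : ℕ} (h : k ≤ m) :
    Le (Iio ⊤) (c k) (c m) := by
  induction m, h using Nat.le_induction with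
  | base => exact Le.refl
  | succ m _ ih =>
    exact ih.trans (dpar_some (hc.ok (m + 1)) (hc.ne (m + 1)) (hc.succ m)).2.2.1

private theorem ri2_depB_lt {r : Nd Q} {c : ℕ → Nd Q} (hc : BCh r c) {k m : ℕ} (h : k < m) :
    dep (c k) < dep (c m) := by
  have h1 : ∀ i, dep (c i) < dep (c (i + 1)) := by
    intro i
    have h2 := dpar_some (hc.ok (i + 1)) (hc.ne (i + 1)) (hc.succ i)
    exact dep_lt_of_le h2.2.2.1 h2.2.2.2.1
  exact strictMono_nat_of_lt_succ h1 h

private theorem ri2_depB {r : Nd Q} {c : ℕ → Nd Q} (hc : BCh r c) (n : ℕ) : n ≤ dep (c n) := by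
  induction n with
  | zero => exact Nat.zero_le _
  | succ n ih => exact lt_of_le_of_lt ih (ri2_depB_lt hc (Nat.lt_succ_self n))

/-- An open set which meets `BA w` contains `BA w'` for a descendant `w'` of `w` of large depth (and length). -/
theorem exists_BA {w : Nd Q} {N : Set (Pt Q)} (hN : IsOpen N) (h : (N ∩ BA w).Nonempty) (n : ℕ) :
    ∃ w', Ok w' ∧ Le univ w w' ∧ n ≤ dep w' ∧ n ≤ w'.length ∧ w ≠ w' ∧ BA w' ⊆ N := by
  obtain ⟨z, hzN, hz0, k, hk⟩ := h
  obtain ⟨c, hc, hz⟩ := exists_ACh (z := z) hz0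
  rw [hz k] at hk
  have hk' := cd_inj Q hk
  obtain ⟨n₀, hn₀⟩ := exists_BA_subset hc hz0 hz hN hzN
  have hdep := ri2_depA hc
  have hlt : dep (c k) < dep (c (n₀ + n + k + 1)) := ri2_depA_lt hc (by omega)
  have hd : n ≤ dep (c (n₀ + n + k + 1)) := le_trans (by omega) (hdep _)
  refine ⟨c (n₀ + n + k + 1), hc.ok _, ?_, hd, hd.trans (dep_le_length _), ?_, hn₀ _ (by omega)⟩
  · rw [← hk']
    exact ri2_leA hc (by omega)
  · intro h
    rw [← hk'] at h
    rw [h] at hlt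
    exact lt_irrefl _ hlt

theorem exists_BB {v : Nd Q} {N : Set (Pt Q)} (hN : IsOpen N) (h : (N ∩ BB v).Nonempty) (n : ℕ) :
    ∃ v', Ok v' ∧ v' ≠ [] ∧ Le (Iio ⊤) v v' ∧ q univ v' = q univ v ∧ n ≤ dep v' ∧ v ≠ v' ∧ BB v' ⊆ BB v ∧
      BB v' ⊆ N := by
  obtain ⟨z, hzN, hz0, k, hk⟩ := h
  obtain ⟨r, c, hc, hr, hz⟩ := exists_BCh (z := z) hz0
  rw [hz k] at hk
  have hk' := cd_inj Q hk
  obtain ⟨n₀, hn₀⟩ := exists_BB_subset hc hz0 hr hz hN hzN
  have hlt : dep (c k) < dep (c (n₀ + n + k + 1)) := ri2_depB_lt hc (by omega)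
  have hd : n ≤ dep (c (n₀ + n + k + 1)) := le_trans (by omega) (ri2_depB hc _)
  refine ⟨c (n₀ + n + k + 1), hc.ok _, hc.ne _, ?_, ?_, hd, ?_, ?_, hn₀ _ (by omega)⟩
  · rw [← hk']
    exact ri2_leB hc (by omega)
  · rw [← hk', hc.q, hc.q]
  · intro h
    rw [← hk'] at h
    rw [h] at hlt
    exact lt_irrefl _ hlt
  · rintro z' ⟨hz'0, j, hj⟩
    obtain ⟨r', c', hc', hr', hz'⟩ := exists_BCh (z := z') hz'0
    rw [hz' j] at hj
    have := (ri2_B hc hc' _ j (cd_inj Q hj)).2 k (by omega)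
    exact ⟨hz'0, k, by rw [hz' k, this, hk']⟩

private theorem ri3_nil {u : Nd Q} (h : Ok u) : Ok (([] : Mv Q) :: u) := ⟨h, trivial⟩

private theorem ri3_rep {w : Nd Q} (h : Ok w) (j : ℕ) : Ok (List.replicate j ([] : Mv Q) ++ w) := by
  induction j with
  | zero => exact h
  | succ j ih =>
    rw [List.replicate_succ, List.cons_append]
    exact ri3_nil ih

private theorem ri3_exA : ∀ (k : ℕ) (w : Nd Q), Ok w → w.length ≤ k → ∃ c, ACh c ∧ ∃ n, c n = w := by
  intro k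
  induction k with
  | zero =>
    intro w _ hw
    have h0 : w = [] := List.eq_nil_of_length_eq_zero (by omega)
    subst h0
    refine ⟨fun n => List.replicate n ([] : Mv Q), ⟨rfl, fun n => ?_, fun n => ?_, fun n => ?_⟩, 0, rfl⟩
    · simp [List.replicate_succ]
    · simp only [List.replicate_succ]; rfl
    · have := ri3_rep (Q := Q) (w := []) trivial n
      rwa [List.append_nil] at this
  | succ k ih =>
    intro w hw hl
    by_cases h0 : w = []
    · exact ih w hw (by rw [h0]; exact Nat.zero_le _)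
    · have h1 : (q univ w).length < w.length := q_length_lt _ h0
      have h2 : Ok (q univ w) := hw.suffix (q_le univ w).suffix
      obtain ⟨c, hc, n, hn⟩ := ih (q univ w) h2 (by omega)
      refine ⟨fun i => if i ≤ n then c i else List.replicate (i - n - 1) ([] : Mv Q) ++ w,
        ⟨?_, fun i => ?_, fun i => ?_, fun i => ?_⟩, n + 1, ?_⟩
      · simp only [Nat.zero_le, if_true]; exact hc.zero
      · by_cases h3 : i + 1 ≤ n
        · simp only [h3, if_true]; exact hc.ne i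
        · simp only [h3, if_false]
          intro h4
          exact h0 (List.append_eq_nil_iff.mp h4).2
      · by_cases h3 : i + 1 ≤ n
        · have h4 : i ≤ n := by omega
          simp only [h3, h4, if_true]; exact hc.q i
        · by_cases h4 : i ≤ n
          · have h5 : i = n := by omega
            subst h5
            have h6 : i + 1 - i - 1 = 0 := by omega
            simp only [h3, if_false, le_refl, if_true, h6, List.replicate_zero, List.nil_append]
            exact hn.symm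
          · have h6 : i + 1 - n - 1 = (i - n - 1) + 1 := by omega
            simp only [h3, h4, if_false, h6, List.replicate_succ, List.cons_append]
            rfl
      · by_cases h3 : i ≤ n
        · simp only [h3, if_true]; exact hc.ok i
        · simp only [h3, if_false]; exact ri3_rep hw _
      · have h3 : ¬ n + 1 ≤ n := by omega
        have h6 : n + 1 - n - 1 = 0 := by omega
        simp only [h3, if_false, h6, List.replicate_zero, List.nil_append]

private theorem ri3_alwtop {u r : Nd Q} (hr : Le univ r u) (hne : r ≠ u) (hm : Q.md = false → r = q univ u) :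
    Alw (⊤ : Q.L) r u 0 := by
  refine ⟨hne, ?_, fun h => absurd rfl h, fun _ => ⟨hm, rfl⟩⟩
  rw [Iic_top_eq]; exact hr

private theorem ri3_top {u r : Nd Q} (h : Ok u) (hr : Le univ r u) (hne : r ≠ u)
    (hm : Q.md = false → r = q univ u) :
    Ok ([(⊤, r.length, 0)] :: u) ∧ q univ ([(⊤, r.length, 0)] :: u) = r ∧
      dpar ([(⊤, r.length, 0)] :: u) = some (chd univ r u) := by
  have hl : lastN r.length u = r := lastN_of_suffix hr.suffix
  have hlt : r.length < u.length := by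
    refine lt_of_le_of_ne hr.length_le fun h1 => hne (hr.eq_of_length h1.ge)
  have hq : q univ ([((⊤ : Q.L), r.length, 0)] :: u) = r := by
    simp only [q, tg, mem_univ, if_true, hl]
  have hq' : q (Iio ⊤) ([((⊤ : Q.L), r.length, 0)] :: u) = u := by
    have : (⊤ : Q.L) ∉ Iio (⊤ : Q.L) := by simp
    simp only [q, tg, this, if_false]
  refine ⟨⟨h, ?_⟩, hq, ?_⟩
  · refine ⟨WithBot.bot_lt_coe _, hlt, ?_, trivial⟩
    rw [hl]
    exact ri3_alwtop hr hne hm
  · unfold dpar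
    rw [hq, hq', if_neg (Ne.symm hne)]

private theorem ri3_chd {u : Nd Q} (hne : u ≠ []) : chd univ (q univ u) u = u := by
  rw [chd_eq, if_neg hne, if_pos rfl]

private noncomputable def ri3_ext (r v : Nd Q) : ℕ → Nd Q
  | 0 => v
  | n + 1 => [(⊤, r.length, 0)] :: ri3_ext r v n

private theorem ri3_ext_spec {r v : Nd Q} (h : Ok v) (hne : v ≠ []) (hr : q univ v = r) (n : ℕ) :
    Ok (ri3_ext r v n) ∧ ri3_ext r v n ≠ [] ∧ q univ (ri3_ext r v n) = r ∧
      dpar (ri3_ext r v (n + 1)) = some (ri3_ext r v n) := by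
  have step : ∀ u : Nd Q, Ok u → u ≠ [] → q univ u = r →
      Ok ([(⊤, r.length, 0)] :: u) ∧ q univ ([(⊤, r.length, 0)] :: u) = r ∧
        dpar ([(⊤, r.length, 0)] :: u) = some u := by
    intro u hu hune hur
    have h1 : Le univ r u := by rw [← hur]; exact q_le univ u
    have h2 : r ≠ u := by
      intro h3
      have := q_length_lt (Q := Q) univ hune
      rw [hur, h3] at this
      exact lt_irrefl _ this
    have h3 := ri3_top hu h1 h2 (fun _ => hur.symm)
    refine ⟨h3.1, h3.2.1, ?_⟩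
    rw [h3.2.2]
    congr 1
    rw [← hur]
    exact ri3_chd hune
  induction n with
  | zero =>
    exact ⟨h, hne, hr, (step v h hne hr).2.2⟩
  | succ n ih =>
    have h1 := step _ ih.1 ih.2.1 ih.2.2.1
    have hne1 : ri3_ext r v (n + 1) ≠ [] := List.cons_ne_nil _ _
    exact ⟨h1.1, hne1, h1.2.1, (step _ h1.1 hne1 h1.2.1).2.2⟩

private theorem ri3_exB : ∀ (k : ℕ) (v : Nd Q), Ok v → v ≠ [] → v.length ≤ k →
    ∃ c, BCh (q univ v) c ∧ ∃ n, c n = v := by
  intro k
  induction k with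
  | zero =>
    intro v _ hne hl
    exact absurd (List.eq_nil_of_length_eq_zero (by omega)) hne
  | succ k ih =>
    intro v hv hne hl
    have hx := ri3_ext_spec hv hne rfl
    cases hd : dpar v with
    | none =>
      refine ⟨ri3_ext (q univ v) v, ⟨fun n => (hx n).2.1, fun n => (hx n).2.2.1, hd,
        fun n => (hx n).2.2.2, fun n => (hx n).1⟩, 0, rfl⟩
    | some v₀ =>
      have h1 := dpar_some hv hne hd
      have h2 : v₀.length < v.length :=
        lt_of_le_of_ne h1.2.2.1.length_le fun h3 => h1.2.2.2.1 (h1.2.2.1.eq_of_length h3.ge)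
      obtain ⟨c, hc, n, hn⟩ := ih v₀ (hv.suffix h1.2.2.1.suffix) h1.2.1 (by omega)
      rw [h1.1] at hc
      refine ⟨fun i => if i ≤ n then c i else ri3_ext (q univ v) v (i - n - 1),
        ⟨fun i => ?_, fun i => ?_, ?_, fun i => ?_, fun i => ?_⟩, n + 1, ?_⟩
      · by_cases h3 : i ≤ n
        · simp only [h3, if_true]; exact hc.ne i
        · simp only [h3, if_false]; exact (hx _).2.1
      · by_cases h3 : i ≤ n
        · simp only [h3, if_true]; exact hc.q i
        · simp only [h3, if_false]; exact (hx _).2.2.1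
      · simp only [Nat.zero_le, if_true]; exact hc.zero
      · by_cases h3 : i + 1 ≤ n
        · have h4 : i ≤ n := by omega
          simp only [h3, h4, if_true]; exact hc.succ i
        · by_cases h4 : i ≤ n
          · have h5 : i = n := by omega
            subst h5
            have h6 : i + 1 - i - 1 = 0 := by omega
            simp only [h3, if_false, le_refl, if_true, h6]
            show dpar v = some (c i)
            rw [hn, hd]
          · have h6 : i + 1 - n - 1 = (i - n - 1) + 1 := by omega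
            simp only [h3, h4, if_false, h6]
            exact (hx _).2.2.2
      · by_cases h3 : i ≤ n
        · simp only [h3, if_true]; exact hc.ok i
        · simp only [h3, if_false]; exact (hx _).1
      · have h3 : ¬ n + 1 ≤ n := by omega
        have h6 : n + 1 - n - 1 = 0 := by omega
        simp only [h3, if_false, h6]
        rfl

/-- MODULE ri3 (size 2): new nodes.  `BA w ≠ ∅`: ancestors of order `univ` down to `[]`, and upwards add empty moves (`q univ ([] :: w) = w`).  `BB v ≠ ∅`: downwards `dpar`, upwards the nodes `[(⊤, (q univ v).length, 0)] :: v`. -/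
theorem BA_nonempty {w : Nd Q} (h : Ok w) : (BA w).Nonempty := by
  obtain ⟨c, hc, n, hn⟩ := ri3_exA w.length w h le_rfl
  obtain ⟨z, hz, hz'⟩ := exists_pt_of_ACh hc
  exact ⟨z, hz, n, by rw [hz', hn]⟩

theorem BB_nonempty {v : Nd Q} (h : Ok v) (hne : v ≠ []) : (BB v).Nonempty := by
  obtain ⟨c, hc, n, hn⟩ := ri3_exB v.length v h hne le_rfl
  obtain ⟨z, hz, _, hz'⟩ := exists_pt_of_BCh hc
  exact ⟨z, hz, n, by rw [hz', hn]⟩

theorem BA_subset {w w' : Nd Q} (h : q univ w' = w) (hne : w' ≠ []) : BA w' ⊆ BA w := by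
  rintro z ⟨hz0, n, hn⟩
  obtain ⟨c, hc, hz⟩ := exists_ACh (z := z) hz0
  rw [hz n] at hn
  have h1 := cd_inj Q hn
  rcases Nat.eq_zero_or_pos n with h2 | h2
  · subst h2
    rw [hc.zero] at h1
    exact absurd h1.symm hne
  · obtain ⟨k, rfl⟩ : ∃ k, n = k + 1 := ⟨n - 1, by omega⟩
    exact ⟨hz0, k, by rw [hz k, ← hc.q k, h1, h]⟩

theorem BA_subset_of_le {w w' : Nd Q} (h : Le univ w w') : BA w' ⊆ BA w := by
  induction h with
  | refl => exact subset_rfl
  | step hne _ ih => exact (BA_subset rfl hne).trans ih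

theorem BB_subset {v v' : Nd Q} (h : dpar v' = some v) : BB v' ⊆ BB v := by
  rintro z ⟨hz0, n, hn⟩
  obtain ⟨r, c, hc, hr, hz⟩ := exists_BCh (z := z) hz0
  rw [hz n] at hn
  have h1 := cd_inj Q hn
  rcases Nat.eq_zero_or_pos n with h2 | h2
  · subst h2
    have := hc.zero
    rw [h1, h] at this
    cases this
  · obtain ⟨k, rfl⟩ : ∃ k, n = k + 1 := ⟨n - 1, by omega⟩
    have h3 := hc.succ k
    rw [h1, h] at h3
    exact ⟨hz0, k, by rw [hz k, Option.some.inj h3]⟩

theorem Ok_nil_cons {u : Nd Q} (h : Ok u) : Ok ([] :: u) ∧ ∀ D : Set Q.L, q D ([] :: u) = u := by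
  refine ⟨?_, fun D => ?_⟩
  · show Ok u ∧ OkP ⊥ u []
    exact ⟨h, trivial⟩
  · show tg D [] u = u
    rfl

/-- One drop at `e ≠ ⊤`. -/
theorem Ok_one {u w : Nd Q} (h : Ok u) {e : Q.L} (he : e ≠ ⊤) (hw : Le (Iic e) w u) (hne : w ≠ u)
    (hd : Q.ι e ≤ dep w) (hb : 1 ≤ bud e (chd (Iic e) w u)) :
    Ok ([(e, w.length, 0)] :: u) ∧ q univ ([(e, w.length, 0)] :: u) = w ∧
      (∀ e' < e, q (Iic e') ([(e, w.length, 0)] :: u) = u ∧ 1 ≤ bud e' ([(e, w.length, 0)] :: u)) := by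
  have hl : lastN w.length u = w := lastN_of_suffix hw.suffix
  have hlt : w.length < u.length :=
    lt_of_le_of_ne hw.length_le fun h1 => hne (hw.eq_of_length h1.ge)
  refine ⟨⟨h, ?_⟩, ?_, fun e' he' => ?_⟩
  · refine ⟨WithBot.bot_lt_coe _, hlt, ?_, trivial⟩
    rw [hl]
    exact ⟨hne, hw, fun _ => ⟨hd, hb⟩, fun h1 => absurd h1 he⟩
  · simp only [q, tg, mem_univ, if_true, hl]
  · have h1 : e ∉ Iic e' := by simpa using he'
    have h2 : ¬ e = e' := fun h3 => by rw [h3] at he'; exact lt_irrefl _ he'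
    refine ⟨by simp only [q, tg, h1, if_false], ?_⟩
    simp [bud, h2]

/-- A drop at the top level. -/
theorem Ok_top {u r : Nd Q} (h : Ok u) (hr : Le univ r u) (hne : r ≠ u) (hm : Q.md = false → r = q univ u) :
    Ok ([(⊤, r.length, 0)] :: u) ∧ q univ ([(⊤, r.length, 0)] :: u) = r ∧
      dpar ([(⊤, r.length, 0)] :: u) = some (chd univ r u) ∧
      (∀ e' < (⊤ : Q.L), q (Iic e') ([(⊤, r.length, 0)] :: u) = u ∧ 1 ≤ bud e' ([(⊤, r.length, 0)] :: u)) := by
  have h1 := ri3_top h hr hne hm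
  refine ⟨h1.1, h1.2.1, h1.2.2, fun e' he' => ?_⟩
  have h2 : (⊤ : Q.L) ∉ Iic e' := fun h4 => lt_irrefl _ (lt_of_lt_of_le he' h4)
  have h3 : ¬ (⊤ : Q.L) = e' := fun h4 => by rw [← h4] at he'; exact lt_irrefl _ he'
  refine ⟨by simp only [q, tg, h2, if_false], ?_⟩
  simp [bud, h3]

/-- A drop at `e` to `v` followed by a drop at the top level to the parent of `v`. -/
theorem Ok_two {u v : Nd Q} (h : Ok u) {e : Q.L} (he : e ≠ ⊤) (hv : Le (Iic e) v u) (hne : v ≠ u) (hv0 : v ≠ [])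
    (hd : Q.ι e ≤ dep v) (hb : 1 ≤ bud e (chd (Iic e) v u)) :
    Ok ([(e, v.length, 0), (⊤, (q univ v).length, 0)] :: u) ∧
      dpar ([(e, v.length, 0), (⊤, (q univ v).length, 0)] :: u) = some v ∧
      (∀ e' < e, q (Iic e') ([(e, v.length, 0), (⊤, (q univ v).length, 0)] :: u) = u ∧
        1 ≤ bud e' ([(e, v.length, 0), (⊤, (q univ v).length, 0)] :: u)) := by
  have hl : lastN v.length u = v := lastN_of_suffix hv.suffix
  have hlt : v.length < u.length :=
    lt_of_le_of_ne hv.length_le fun h1 => hne (hv.eq_of_length h1.ge)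
  have hq : Le univ (q univ v) v := q_le univ v
  have hql : (q univ v).length < v.length := q_length_lt _ hv0
  have hqn : q univ v ≠ v := fun h1 => by rw [h1] at hql; exact lt_irrefl _ hql
  have hl2 : lastN (q univ v).length v = q univ v := lastN_of_suffix hq.suffix
  have het : e < ⊤ := lt_top_iff_ne_top.mpr he
  refine ⟨⟨h, ?_⟩, ?_, fun e' he' => ?_⟩
  · refine ⟨WithBot.bot_lt_coe _, hlt, ?_, ?_⟩
    · rw [hl]
      exact ⟨hne, hv, fun _ => ⟨hd, hb⟩, fun h1 => absurd h1 he⟩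
    · rw [hl]
      refine ⟨WithBot.coe_lt_coe.mpr het, hql, ?_, trivial⟩
      rw [hl2]
      exact ri3_alwtop hq hqn (fun _ => rfl)
  · have h1 : q (Iio ⊤) ([(e, v.length, 0), (⊤, (q univ v).length, 0)] :: u) = v := by
      have h2 : e ∈ Iio (⊤ : Q.L) := het
      have h3 : (⊤ : Q.L) ∉ Iio (⊤ : Q.L) := by simp
      simp only [q, tg, h2, if_true, hl, h3, if_false]
    have h2 : q univ ([(e, v.length, 0), (⊤, (q univ v).length, 0)] :: u) = q univ v := by
      have h4 : ∀ n : ℕ, q univ ([(e, v.length, 0), (⊤, n, 0)] :: u) = lastN n (lastN v.length u) :=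
        fun n => by simp only [q, tg, mem_univ, if_true]
      rw [h4, hl, hl2]
    unfold dpar
    rw [h1, h2, if_neg (Ne.symm hqn), ri3_chd hv0]
  · have h1 : e ∉ Iic e' := by simpa using he'
    have h2 : ¬ e = e' := fun h3 => by rw [h3] at he'; exact lt_irrefl _ he'
    have h3 : ¬ (⊤ : Q.L) = e' := fun h4 => by rw [← h4] at he'; exact not_top_lt he'
    refine ⟨?_, ?_⟩
    · have h4 : ∀ n : ℕ, q (Iic e') ([(e, v.length, 0), (⊤, n, 0)] :: u) = u :=
        fun n => by simp only [q, tg, h1, if_false]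
      exact h4 _
    · simp [bud, h2, h3]

/-- The branch of a point. -/
theorem exists_brn (z : Pt Q) : ∃ x ∈ Br Q, (∀ w, z ∈ BA w ∨ z ∈ BB w → Pr w x) := by
  rcases PA_union_PB Q z with hz | hz
  · obtain ⟨c, hc, h⟩ := exists_ACh hz
    obtain ⟨x, hx⟩ := exists_branch (fun n => (hc.suffix n).1) (fun n => (hc.suffix n).2)
    refine ⟨x, fun n => ?_, fun w hw => ?_⟩
    · have h1 : n ≤ (c n).length := (ri2_depA hc n).trans (dep_le_length _)
      have h2 : pre x n <:+ pre x (c n).length := pre_suffix x h1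
      have h3 : pre x (c n).length = c n := hx n
      rw [h3] at h2
      exact (hc.ok n).suffix h2
    · rcases hw with hw | hw
      · obtain ⟨-, n, hn⟩ := hw
        rw [h n] at hn
        rw [← cd_inj Q hn]
        exact hx n
      · have h1 : z.1 0 = 1 := hw.1
        have h2 : z.1 0 = 0 := hz
        omega
  · obtain ⟨r, c, hc, -, h⟩ := exists_BCh hz
    obtain ⟨x, hx⟩ := exists_branch (fun n => (hc.suffix n).1) (fun n => (hc.suffix n).2)
    refine ⟨x, fun n => ?_, fun w hw => ?_⟩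
    · have h1 : n ≤ (c n).length := (ri2_depB hc n).trans (dep_le_length _)
      have h2 : pre x n <:+ pre x (c n).length := pre_suffix x h1
      have h3 : pre x (c n).length = c n := hx n
      rw [h3] at h2
      exact (hc.ok n).suffix h2
    · rcases hw with hw | hw
      · have h1 : z.1 0 = 0 := hw.1
        have h2 : z.1 0 = 1 := hz
        omega
      · obtain ⟨-, n, hn⟩ := hw
        rw [h n] at hn
        rw [← cd_inj Q hn]
        exact hx n

/-- The branch of a point. -/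
noncomputable def brn (z : Pt Q) : ℕ → Mv Q := (exists_brn z).choose

theorem brn_mem (z : Pt Q) : brn z ∈ Br Q := (exists_brn z).choose_spec.1

theorem Pr_brn {z : Pt Q} {w : Nd Q} (h : z ∈ BA w ∨ z ∈ BB w) : Pr w (brn z) := (exists_brn z).choose_spec.2 w h

/-- The hypothesis on the map `ξ`: it depends continuously on the branch. -/
def Hx {X : Type} [TopologicalSpace X] (ξ : Pt Q → X) : Prop :=
  ∀ z, ∀ V ∈ 𝓝 (ξ z), ∃ u, Pr u (brn z) ∧ ∀ z', Pr u (brn z') → ξ z' ∈ V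

/-- The long members of the chain of `z ∈ BA w` in an open set `ξ ⁻¹' U`: all points whose branch goes through `u` are in `ξ ⁻¹' U`. -/
theorem Hx.exists_A {X : Type} [TopologicalSpace X] {ξ : Pt Q → X} (h : Hx ξ) {U : Set X} (hU : IsOpen U)
    {w : Nd Q} (hne : (ξ ⁻¹' U ∩ BA w).Nonempty) :
    ∃ u, Ok u ∧ Le univ w u ∧ w ≠ u ∧ ∀ z', Pr u (brn z') → ξ z' ∈ U := by
  obtain ⟨z, hzU, hz0, k, hk⟩ := hne
  obtain ⟨c, hc, hz⟩ := exists_ACh (z := z) hz0
  rw [hz k] at hk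
  have hk' := cd_inj Q hk
  obtain ⟨u₀, hu₀, hU'⟩ := h z U (hU.mem_nhds hzU)
  have hlt : dep (c k) < dep (c (u₀.length + k + 1)) := ri2_depA_lt hc (by omega)
  have hlen : u₀.length ≤ (c (u₀.length + k + 1)).length :=
    le_trans (by omega) ((ri2_depA hc (u₀.length + k + 1)).trans (dep_le_length _))
  have hm : Pr (c (u₀.length + k + 1)) (brn z) := Pr_brn (Or.inl ⟨hz0, _, hz _⟩)
  refine ⟨c (u₀.length + k + 1), hc.ok _, ?_, ?_, fun z' hz' => hU' z' ?_⟩
  · rw [← hk']; exact ri2_leA hc (by omega)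
  · intro h1
    rw [← hk'] at h1
    rw [h1] at hlt
    exact lt_irrefl _ hlt
  · exact Pr_of_suffix hz' (suffix_of_Pr hu₀ hm hlen)

theorem Hx.exists_B {X : Type} [TopologicalSpace X] {ξ : Pt Q → X} (h : Hx ξ) {U : Set X} (hU : IsOpen U)
    {v : Nd Q} (hne : (ξ ⁻¹' U ∩ BB v).Nonempty) :
    ∃ u, Ok u ∧ u ≠ [] ∧ Le (Iio ⊤) v u ∧ q univ u = q univ v ∧ v ≠ u ∧ ∀ z', Pr u (brn z') → ξ z' ∈ U := by
  obtain ⟨z, hzU, hz0, k, hk⟩ := hne
  obtain ⟨r, c, hc, -, hz⟩ := exists_BCh (z := z) hz0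
  rw [hz k] at hk
  have hk' := cd_inj Q hk
  obtain ⟨u₀, hu₀, hU'⟩ := h z U (hU.mem_nhds hzU)
  have hlt : dep (c k) < dep (c (u₀.length + k + 1)) := ri2_depB_lt hc (by omega)
  have hlen : u₀.length ≤ (c (u₀.length + k + 1)).length :=
    le_trans (by omega) ((ri2_depB hc (u₀.length + k + 1)).trans (dep_le_length _))
  have hm : Pr (c (u₀.length + k + 1)) (brn z) := Pr_brn (Or.inr ⟨hz0, _, hz _⟩)
  refine ⟨c (u₀.length + k + 1), hc.ok _, hc.ne _, ?_, ?_, ?_, fun z' hz' => hU' z' ?_⟩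
  · rw [← hk']; exact ri2_leB hc (by omega)
  · rw [← hk', hc.q, hc.q]
  · intro h1
    rw [← hk'] at h1
    rw [h1] at hlt
    exact lt_irrefl _ hlt
  · exact Pr_of_suffix hz' (suffix_of_Pr hu₀ hm hlen)

theorem Hx.continuous {X : Type} [TopologicalSpace X] {ξ : Pt Q → X} (h : Hx ξ) : Continuous ξ := by
  rw [continuous_iff_continuousAt]
  intro z V hV
  rw [Filter.mem_map]
  obtain ⟨u₀, hu₀, hV'⟩ := h z V hV
  rcases PA_union_PB Q z with hz0 | hz0
  · obtain ⟨c, hc, hz⟩ := exists_ACh hz0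
    have hlen : u₀.length ≤ (c u₀.length).length := (ri2_depA hc u₀.length).trans (dep_le_length _)
    have hmem : z ∈ BA (c u₀.length) := ⟨hz0, _, hz _⟩
    have hm : Pr (c u₀.length) (brn z) := Pr_brn (Or.inl hmem)
    refine Filter.mem_of_superset ((isOpen_BA (c u₀.length)).mem_nhds hmem) fun z' hz' => ?_
    exact hV' z' (Pr_of_suffix (Pr_brn (Or.inl hz')) (suffix_of_Pr hu₀ hm hlen))
  · obtain ⟨r, c, hc, -, hz⟩ := exists_BCh hz0
    have hlen : u₀.length ≤ (c u₀.length).length := (ri2_depB hc u₀.length).trans (dep_le_length _)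
    have hmem : z ∈ BB (c u₀.length) := ⟨hz0, _, hz _⟩
    have hm : Pr (c u₀.length) (brn z) := Pr_brn (Or.inr hmem)
    refine Filter.mem_of_superset ((isOpen_BB (c u₀.length)).mem_nhds hmem) fun z' hz' => ?_
    exact hV' z' (Pr_of_suffix (Pr_brn (Or.inr hz')) (suffix_of_Pr hu₀ hm hlen))

/-- The closeness statement at the level `e ≠ ⊤`. -/
def R1 {X : Type} [TopologicalSpace X] (ξ : Pt Q → X) (e : Q.L) : Prop :=
  ∀ w w' : Nd Q, Ok w' → Le (Iic e) w w' → w ≠ w' → Q.ι e ≤ dep w → 1 ≤ bud e (chd (Iic e) w w') →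
    BA w' ⊆ clo ξ (Q.o e) (BA w) ∧ (w' ≠ [] → BB w' ⊆ clo ξ (Q.o e) (BA w))

/-- The closeness of the side `A` to the side `B`. -/
def R2 {X : Type} [TopologicalSpace X] (ξ : Pt Q → X) (e : Q.L) : Prop :=
  ∀ v : Nd Q, Ok v → v ≠ [] → (Q.md = false → ∃ e₁, e ≤ e₁ ∧ e₁ ≠ ⊤ ∧ Q.ι e₁ ≤ dep v) →
    BA ([] :: v) ⊆ clo ξ (Q.o e) (BB v)

private theorem ri4_end {e : Q.L} {w w' : Nd Q} (hw : Ok w) (hw' : Ok w') (he : e ≠ ⊤) (hle : Le (Iic e) w w')
    (hne : w ≠ w') (hι : Q.ι e ≤ dep w) (hb : 1 ≤ bud e (chd (Iic e) w w')) {N : Set (Pt Q)} {u : Nd Q}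
    (hu : Ok u) (hlu : Le (Iic e) w' u)
    (hu' : ∀ w₁ : Nd Q, Ok w₁ → u <:+ w₁ → (∀ e' < e, q (Iic e') w₁ = u ∧ 1 ≤ bud e' w₁) → u ≠ w₁ → w₁ ≠ [] →
      BA w₁ ⊆ N) : (N ∩ BA w).Nonempty := by
  have h1 : Le (Iic e) w u := hle.trans hlu
  have h2 : w ≠ u := by
    intro h3
    have h4 := hlu.length_le
    rw [← h3] at h4
    exact hne (hle.eq_of_length h4)
  have h3 : chd (Iic e) w u = chd (Iic e) w w' := chd_of_le hle hne hlu
  obtain ⟨hok, hq, hrest⟩ := Ok_one hu he h1 h2 hι (by rw [h3]; exact hb)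
  obtain ⟨z, hz⟩ := BA_nonempty hok
  refine ⟨z, hu' _ hok (List.suffix_cons _ _) hrest ?_ (List.cons_ne_nil _ _) hz,
    BA_subset hq (List.cons_ne_nil _ _) hz⟩
  intro h4
  have := congrArg List.length h4
  simp at this

private theorem ri4_core {X : Type} [TopologicalSpace X] {ξ : Pt Q → X} (h : Hx ξ) {e : Q.L} (he : e ≠ ⊤)
    (ih : ∀ e' < e, R1 ξ e' ∧ R2 ξ e') {w w' : Nd Q} (hw' : Ok w') (hle : Le (Iic e) w w')
    (hne : w ≠ w') (hι : Q.ι e ≤ dep w) (hb : 1 ≤ bud e (chd (Iic e) w w')) {N : Set (Pt Q)}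
    (hN : Cf ξ (Q.o e) N) (hN' : (N ∩ BA w').Nonempty ∨ (w' ≠ [] ∧ (N ∩ BB w').Nonempty)) :
    (N ∩ BA w).Nonempty ∨ ∃ u, Ok u ∧ Le (Iic e) w' u ∧
      ∀ w₁ : Nd Q, Ok w₁ → u <:+ w₁ → (∀ e' < e, q (Iic e') w₁ = u ∧ 1 ≤ bud e' w₁) → u ≠ w₁ → w₁ ≠ [] →
      BA w₁ ⊆ N := by
  have hw : Ok w := hw'.suffix hle.suffix
  have hne' : N.Nonempty := by
    rcases hN' with h1 | ⟨-, h1⟩
    · exact h1.mono inter_subset_left
    · exact h1.mono inter_subset_left
  have hIic : IsLowerSet (Iic e) := isLowerSet_Iic e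
  have hsub : Iic e ⊆ Iio (⊤ : Q.L) := fun a ha => lt_of_le_of_lt ha (lt_top_iff_ne_top.mpr he)
  rcases hN with h1 | ⟨-, U, hU, h1⟩ | ⟨k', hk', hNo, hNk⟩
  · left
    rw [h1, univ_inter]
    exact BA_nonempty hw
  · right
    subst h1
    have key : ∃ u, Ok u ∧ Le (Iic e) w' u ∧ ∀ z', Pr u (brn z') → ξ z' ∈ U := by
      rcases hN' with h2 | ⟨-, h2⟩
      · obtain ⟨u, hu, hl, -, hp⟩ := h.exists_A hU.isOpen h2
        exact ⟨u, hu, hu.mono isLowerSet_univ hIic (subset_univ _) hl, hp⟩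
      · obtain ⟨u, hu, -, hl, -, -, hp⟩ := h.exists_B hU.isOpen h2
        exact ⟨u, hu, hu.mono ri2_Iio hIic hsub hl, hp⟩
    obtain ⟨u, hu, hl, hp⟩ := key
    refine ⟨u, hu, hl, fun w₁ _ hs _ _ _ z' hz' => hp z' ?_⟩
    exact Pr_of_suffix (Pr_brn (Or.inl hz')) hs
  · by_cases hk0 : k' = 0
    · left
      rw [hk0, clo_zero hne'] at hNk
      rw [← hNk, univ_inter]
      exact BA_nonempty hw
    · right
      obtain ⟨e', he'⟩ := Q.o_surj k' (Order.one_le_iff_ne_zero.mpr hk0)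
        (hk'.le.trans (Q.o_mono.monotone le_top))
      have hlt : e' < e := by
        rw [← he'] at hk'
        exact Q.o_mono.lt_iff_lt.mp hk'
      have he't : e' ≠ ⊤ := ne_top_of_lt hlt
      obtain ⟨hR1, hR2⟩ := ih e' hlt
      have key : ∃ u, Ok u ∧ Le (Iic e) w' u ∧ Q.ι e' ≤ dep u ∧ BA u ⊆ N := by
        rcases hN' with h2 | ⟨-, h2⟩
        · obtain ⟨u, hu, hl, hd, -, -, hs⟩ := exists_BA hNo h2 (Q.ι e')
          exact ⟨u, hu, hu.mono isLowerSet_univ hIic (subset_univ _) hl, hd, hs⟩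
        · obtain ⟨v, hv, hv0, hl, -, hd, -, -, hs⟩ := exists_BB hNo h2 (Q.ι e')
          have hok : Ok (([] : Mv Q) :: v) := (Ok_nil_cons hv).1
          have hq : ∀ D : Set Q.L, q D (([] : Mv Q) :: v) = v := (Ok_nil_cons hv).2
          have hle2 : ∀ D : Set Q.L, Le D v (([] : Mv Q) :: v) := fun D => by
            have := q_le D (([] : Mv Q) :: v)
            rwa [hq D] at this
          refine ⟨[] :: v, hok, (hv.mono ri2_Iio hIic hsub hl).trans (hle2 _), ?_, ?_⟩
          · refine hd.trans (dep_lt_of_le (hle2 _) fun h3 => ?_).le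
            have := congrArg List.length h3
            simp at this
          · have h3 := hR2 v hv hv0 (fun _ => ⟨e', le_rfl, he't, hd⟩)
            refine h3.trans ((clo_mono hs).trans ?_)
            rw [he', hNk]
      obtain ⟨u, hu, hl, hd, hs⟩ := key
      refine ⟨u, hu, hl, fun w₁ hw₁ _ hq hne₁ hw0 => ?_⟩
      have h3 : Le (Iic e') u w₁ := by
        have := q_le (Iic e') w₁
        rwa [(hq e' hlt).1] at this
      have h4 : chd (Iic e') u w₁ = w₁ := by
        rw [chd_eq, if_neg hw0, if_pos (hq e' hlt).1]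
      have h5 := (hR1 u w₁ hw₁ h3 hne₁ hd (by rw [h4]; exact (hq e' hlt).2)).1
      refine h5.trans ((clo_mono hs).trans ?_)
      rw [he', hNk]

/-- MODULE ri4 (size 2): `R1`.

Proof.  Let `N` be a test set of order `o e` which meets `BA w'` or `BB w'` (`subset_clo_iff`).  (`w` is `Ok`, `w ≠ w'`.)
(a) `N = univ`: `BA w ≠ ∅`.  (b) `N = ξ ⁻¹' U`: by `Hx.exists_A/B` there is `u` with `Le univ w' u` or `Le (Iio ⊤) w' u` and all points through `u` in `N`.  So `Le (Iic e) w' u` (`Ok.mono`, `Iic e ⊆ Iio ⊤`), `Le (Iic e) w u`, `chd (Iic e) w u = chd (Iic e) w w'` (`chd_of_le`).  `w₁ = [(e, w.length, 0)] :: u` is `Ok` (`Ok_one`), `BA w₁ ⊆ BA w` is nonempty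
and its points go through `u`.
(c) `N = clo k' N`, `k' < o e`: if `k' = 0`, `N` is `univ` (nonempty, `clo_zero`): as (a).  Otherwise `k' = o e'` (`o_surj`), `e' < e`.  If `N` meets `BA w'`: `exists_BA` gives `w''`, `Le univ w' w''`, `ι e' ≤ dep w''`, `BA w'' ⊆ N`.  If `N` meets `BB w'`: `exists_BB` gives `v''` with `BB v'' ⊆ N`, `ι e' ≤ dep v''`, `Le (Iio ⊤) w' v''`; by `R2` at `e'` (with `e₁ = e'`) `BA ([] :: v'') ⊆ clo k' (BB v'') ⊆ clo k' N = N`;
let `w'' = [] :: v''` (`dep` increases: `dep_lt_of_le` with `q_le`).  In both cases `Le (Iic e) w' w''`.  `w₁ = [(e, w.length, 0)] :: w''` is `Ok` as in (b), `BA w₁ ⊆ BA w`, and by `R1` at `e'` for `w'', w₁` (`q (Iic e') w₁ = w''`, so `chd (Iic e') w'' w₁ = w₁`, budget `≥ 1` by `Ok_one`) `BA w₁ ⊆ clo k' (BA w'') ⊆ clo k' N = N`. -/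
theorem R1_of {X : Type} [TopologicalSpace X] {ξ : Pt Q → X} (h : Hx ξ) {e : Q.L} (he : e ≠ ⊤)
    (ih : ∀ e' < e, R1 ξ e' ∧ R2 ξ e') : R1 ξ e := by
  intro w w' hw' hle hne hι hb
  have hw : Ok w := hw'.suffix hle.suffix
  refine ⟨?_, fun hne0 => ?_⟩
  · rw [subset_clo_iff (isOpen_BA w')]
    intro N hN hN'
    rcases ri4_core h he ih hw' hle hne hι hb hN (Or.inl hN') with hc | ⟨u, hu, hlu, hu'⟩
    · exact hc
    · exact ri4_end hw hw' he hle hne hι hb hu hlu hu'
  · rw [subset_clo_iff (isOpen_BB w')]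
    intro N hN hN'
    rcases ri4_core h he ih hw' hle hne hι hb hN (Or.inr ⟨hne0, hN'⟩) with hc | ⟨u, hu, hlu, hu'⟩
    · exact hc
    · exact ri4_end hw hw' he hle hne hι hb hu hlu hu'

/-- MODULE ri5 (size 2): `R2`.

Proof.  Let `s = [] :: v`, `r = q univ v`, `N` a test set of order `o e` which meets `BA s`.  `N = univ`: trivial.  `N = ξ ⁻¹' U`: `u` from `Hx.exists_A`, `Le univ s u`; `N = clo k' N`, `0 < k' = o e' < o e`: `u = w''` from `exists_BA`, `Le univ s w''`, `ι e' ≤ dep w''`, `BA w'' ⊆ N`.  Let `v₁` be: in successor mode `[(⊤, r.length, 0)] :: u`: `Le univ r v`, `Le univ v u`; `Ok_top`: `dpar v₁ = some (chd univ r u) = some v`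
(`chd_unique`).  In limit mode: `[(e₁, v.length, 0), (⊤, r.length, 0)] :: u` (`Ok_two`): `Le (Iic e₁) v u`, `chd (Iic e₁) v u = s` (`q (Iic e₁) s = v`, `Le univ s u`, `Ok.mono`), `bud e₁ s = s.length ≥ 1`; `dpar v₁ = some v`.  `BB v₁ ⊆ BB v` is nonempty; in the first case its points go through `u`; in the second case `BB v₁ ⊆ clo k' (BA w'') ⊆ N` by
`R1` at `e'` for `w'', v₁` (`e' < e ≤ e₁`, `q (Iic e') v₁ = w''`, budget `≥ 1`). -/
theorem R2_of {X : Type} [TopologicalSpace X] {ξ : Pt Q → X} (h : Hx ξ) {e : Q.L} (ih : ∀ e' < e, R1 ξ e') :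
    R2 ξ e := by
  intro v hv hv0 hlim
  have hok : Ok (([] : Mv Q) :: v) := (Ok_nil_cons hv).1
  have hq : ∀ D : Set Q.L, q D (([] : Mv Q) :: v) = v := (Ok_nil_cons hv).2
  rw [subset_clo_iff (isOpen_BA _)]
  intro N hN hN'
  -- the final step
  have fin : ∀ u : Nd Q, Ok u → Le univ (([] : Mv Q) :: v) u →
      (∀ w₁ : Nd Q, Ok w₁ → u <:+ w₁ → (∀ e' < e, q (Iic e') w₁ = u ∧ 1 ≤ bud e' w₁) → u ≠ w₁ →
        w₁ ≠ [] → BB w₁ ⊆ N) → (N ∩ BB v).Nonempty := by
    intro u hu hl hN1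
    have hvs : Le univ v (([] : Mv Q) :: v) := by
      have := q_le univ (([] : Mv Q) :: v)
      rwa [hq univ] at this
    have hvu : Le univ v u := hvs.trans hl
    have hvlen : v.length < u.length := by
      have := hl.length_le
      simp at this
      omega
    have hrv : Le univ (q univ v) v := q_le univ v
    have hrlen : (q univ v).length < v.length := q_length_lt _ hv0
    have hru : Le univ (q univ v) u := hrv.trans hvu
    by_cases hmd : Q.md = false
    · obtain ⟨e₁, hee, he₁, hι₁⟩ := hlim hmd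
      have h1 : Le (Iic e₁) v u := hu.mono isLowerSet_univ (isLowerSet_Iic e₁) (subset_univ _) hvu
      have h2 : v ≠ u := fun h3 => by rw [h3] at hvlen; exact lt_irrefl _ hvlen
      have h3 : Le (Iic e₁) (([] : Mv Q) :: v) u :=
        hu.mono isLowerSet_univ (isLowerSet_Iic e₁) (subset_univ _) hl
      have h4 : chd (Iic e₁) v u = ([] : Mv Q) :: v := chd_unique (List.cons_ne_nil _ _) (hq _) h3
      have h5 : 1 ≤ bud e₁ (chd (Iic e₁) v u) := by
        rw [h4]
        simp [bud]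
      obtain ⟨ho, hd, hr⟩ := Ok_two hu he₁ h1 h2 hv0 hι₁ h5
      obtain ⟨z, hz⟩ := BB_nonempty ho (List.cons_ne_nil _ _)
      refine ⟨z, hN1 _ ho (List.suffix_cons _ _) (fun e' he' => hr e' (lt_of_lt_of_le he' hee)) ?_
        (List.cons_ne_nil _ _) hz, BB_subset hd hz⟩
      intro h6
      have := congrArg List.length h6
      simp at this
    · have h2 : q univ v ≠ u := fun h3 => by
        rw [h3] at hrlen
        exact absurd (hrlen.trans hvlen) (lt_irrefl _)
      obtain ⟨ho, -, hd, hr⟩ := Ok_top hu hru h2 (fun h3 => absurd h3 hmd)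
      rw [chd_unique hv0 rfl hvu] at hd
      obtain ⟨z, hz⟩ := BB_nonempty ho (List.cons_ne_nil _ _)
      refine ⟨z, hN1 _ ho (List.suffix_cons _ _) (fun e' he' => hr e' (lt_of_lt_of_le he' le_top)) ?_
        (List.cons_ne_nil _ _) hz, BB_subset hd hz⟩
      intro h6
      have := congrArg List.length h6
      simp at this
  rcases hN with h1 | ⟨-, U, hU, h1⟩ | ⟨k', hk', hNo, hNk⟩
  · rw [h1, univ_inter]
    exact BB_nonempty hv hv0
  · subst h1
    obtain ⟨u, hu, hl, -, hp⟩ := h.exists_A hU.isOpen hN'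
    refine fin u hu hl fun w₁ _ hs _ _ _ z' hz' => hp z' ?_
    exact Pr_of_suffix (Pr_brn (Or.inr hz')) hs
  · by_cases hk0 : k' = 0
    · rw [hk0, clo_zero (hN'.mono inter_subset_left)] at hNk
      rw [← hNk, univ_inter]
      exact BB_nonempty hv hv0
    · obtain ⟨e', he'⟩ := Q.o_surj k' (Order.one_le_iff_ne_zero.mpr hk0)
        (hk'.le.trans (Q.o_mono.monotone le_top))
      have hlt : e' < e := by
        rw [← he'] at hk'
        exact Q.o_mono.lt_iff_lt.mp hk'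
      obtain ⟨u, hu, hl, hd, -, -, hs⟩ := exists_BA hNo hN' (Q.ι e')
      refine fin u hu hl fun w₁ hw₁ _ hq₁ hne₁ hw0 => ?_
      have h3 : Le (Iic e') u w₁ := by
        have := q_le (Iic e') w₁
        rwa [(hq₁ e' hlt).1] at this
      have h4 : chd (Iic e') u w₁ = w₁ := by
        rw [chd_eq, if_neg hw0, if_pos (hq₁ e' hlt).1]
      have h5 := (ih e' hlt u w₁ hw₁ h3 hne₁ hd (by rw [h4]; exact (hq₁ e' hlt).2)).2 hw0
      refine h5.trans ((clo_mono hs).trans ?_)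
      rw [he', hNk]

private theorem ri6_all {X : Type} [TopologicalSpace X] {ξ : Pt Q → X} (h : Hx ξ) :
    ∀ e : Q.L, (e ≠ ⊤ → R1 ξ e) ∧ R2 ξ e := by
  intro e
  induction e using WellFoundedLT.induction with
  | _ e ih =>
    refine ⟨fun he => R1_of h he fun e' he' => ?_, R2_of h fun e' he' => ?_⟩
    · exact ⟨(ih e' he').1 (ne_top_of_lt he'), (ih e' he').2⟩
    · exact (ih e' he').1 (ne_top_of_lt he')

private theorem ri6_R3 {X : Type} [TopologicalSpace X] {ξ : Pt Q → X} (h : Hx ξ)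
    (hall : ∀ e : Q.L, (e ≠ ⊤ → R1 ξ e) ∧ R2 ξ e) {v : Nd Q} (hv : Ok v) (hv0 : v ≠ []) :
    BB v ⊆ clo ξ Q.kap (BA (q univ v)) := by
  rw [subset_clo_iff (isOpen_BB _)]
  intro N hN hN'
  have hr : Ok (q univ v) := hv.suffix (q_le univ v).suffix
  rcases hN with h1 | ⟨-, U, hU, h1⟩ | ⟨k', hk', hNo, hNk⟩
  · rw [h1, univ_inter]
    exact BA_nonempty hr
  · subst h1
    obtain ⟨u, hu, hu0, -, hqu, -, hp⟩ := h.exists_B hU.isOpen hN'
    obtain ⟨z, hz⟩ := BA_nonempty hu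
    exact ⟨z, hp z (Pr_brn (Or.inl hz)), BA_subset hqu hu0 hz⟩
  · by_cases hk0 : k' = 0
    · rw [hk0, clo_zero (hN'.mono inter_subset_left)] at hNk
      rw [← hNk, univ_inter]
      exact BA_nonempty hr
    · have hk2 : k' ≤ Q.o ⊤ ∧ (Q.md = false → k' < Q.o ⊤) := by
        by_cases hmd : Q.md = true
        · have : Q.kap = Q.o ⊤ + 1 := by simp [Par.kap, hmd]
          rw [this] at hk'
          exact ⟨Order.lt_add_one_iff.mp hk', fun h2 => by rw [hmd] at h2; cases h2⟩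
        · have : Q.kap = Q.o ⊤ := by simp [Par.kap, hmd]
          rw [this] at hk'
          exact ⟨hk'.le, fun _ => hk'⟩
      obtain ⟨e', he'⟩ := Q.o_surj k' (Order.one_le_iff_ne_zero.mpr hk0) hk2.1
      obtain ⟨v', hv', hv'0, -, hqv, hd, -, -, hs⟩ := exists_BB hNo hN' (Q.ι e')
      have h3 := (hall e').2 v' hv' hv'0 (fun hmd => ⟨e', le_rfl, fun h4 => by
        have h5 := hk2.2 hmd
        rw [← he', h4] at h5
        exact lt_irrefl _ h5, hd⟩)
      obtain ⟨z, hz⟩ := BA_nonempty (Ok_nil_cons hv').1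
      refine ⟨z, ?_, ?_⟩
      · have h5 := clo_mono (ξ := ξ) (k := Q.o e') hs (h3 hz)
        rwa [he', hNk] at h5
      · exact BA_subset hqv hv'0 (BA_subset ((Ok_nil_cons hv').2 univ) (List.cons_ne_nil _ _) hz)

/-- MODULE ri6 (size 2): the main result.

Proof.  By well-founded induction `R1 ξ e` for `e ≠ ⊤` and `R2 ξ e` for all `e`.  (R3) for `Ok v`, `v ≠ []`, `r = q univ v`: `BB v ⊆ clo ξ kap (BA r)`: `N` a test set of order `kap` meeting `BB v`; `univ`: trivial; `ξ ⁻¹' U`: `Hx.exists_B` gives `u`, `q univ u = r`, `BA u ⊆ BA r`; `N = clo k' N`, `k' < kap`, `k' ≠ 0`: `k' ≤ o ⊤`, `k' = o e'` (in limit mode `e' < ⊤`); `exists_BB`: `BB v'' ⊆ N`, `q univ v'' = r`,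
`ι e' ≤ dep v''`; `R2` at `e'` (`e₁ = e'` in limit mode): `BA ([] :: v'') ⊆ clo k' (BB v'') ⊆ N`, and `BA ([] :: v'') ⊆ BA r`.  Then: `N` a test set of order `kap + 1` meeting `PA`: `univ`: `BB ([] :: []) ≠ ∅`; `ξ ⁻¹' U`: (`PA = BA []`) `u` as above, `v = [] :: u`, `dpar v = none`; `BB v ≠ ∅` and its points go through `u`; `N = clo k' N`, `k' ≤ kap`: `BA u ⊆ N`, `v = [] :: u`,
`BB v ⊆ clo kap (BA u) ⊆ clo k' (BA u) ⊆ N`. -/
theorem rich {X : Type} [TopologicalSpace X] {ξ : Pt Q → X} (h : Hx ξ) : PA Q ⊆ clo ξ (Q.kap + 1) (PB Q) := by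
  have hall := ri6_all h
  rw [subset_clo_iff (isOpen_PA Q)]
  intro N hN hN'
  have hBA : (N ∩ BA ([] : Nd Q)).Nonempty := by
    obtain ⟨z, hzN, hz0⟩ := hN'
    obtain ⟨c, hc, hz⟩ := exists_ACh hz0
    exact ⟨z, hzN, hz0, 0, by rw [hz 0, hc.zero]⟩
  have hPB : ∀ v : Nd Q, BB v ⊆ PB Q := fun v z hz => hz.1
  have hnil : Ok (([] : Mv Q) :: ([] : Nd Q)) := (Ok_nil_cons (Q := Q) (u := []) trivial).1
  rcases hN with h1 | ⟨-, U, hU, h1⟩ | ⟨k', hk', hNo, hNk⟩
  · rw [h1, univ_inter]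
    exact (BB_nonempty hnil (List.cons_ne_nil _ _)).mono (hPB _)
  · subst h1
    obtain ⟨u, hu, -, -, hp⟩ := h.exists_A hU.isOpen hBA
    obtain ⟨z, hz⟩ := BB_nonempty (Ok_nil_cons hu).1 (List.cons_ne_nil _ _)
    exact ⟨z, hp z (Pr_of_suffix (Pr_brn (Or.inr hz)) (List.suffix_cons _ _)), hPB _ hz⟩
  · have hk2 : k' ≤ Q.kap := Order.lt_add_one_iff.mp hk'
    obtain ⟨u, hu, -, -, -, -, hs⟩ := exists_BA hNo hBA 0
    have h3 := ri6_R3 h hall (Ok_nil_cons hu).1 (List.cons_ne_nil _ _)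
    rw [(Ok_nil_cons hu).2 univ] at h3
    obtain ⟨z, hz⟩ := BB_nonempty (Ok_nil_cons hu).1 (List.cons_ne_nil _ _)
    refine ⟨z, ?_, hPB _ hz⟩
    have h4 := clo_anti (ξ := ξ) hk2 (BA u) (h3 hz)
    have h5 := clo_mono (ξ := ξ) (k := k') hs h4
    rwa [hNk] at h5

theorem PA_nonempty (Q : Par) : (PA Q).Nonempty := by
  obtain ⟨z, hz⟩ := BA_nonempty (Q := Q) (w := []) trivial
  exact ⟨z, hz.1⟩

end Pool.Agent.Bsw
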