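import Pool.Agent.Bsw.Ext3
import Pool.Agent.Bsw.Ric

/-!
# The system and its limit
-/

set_option autoImplicit false

open Set Filter Topology TopologicalSpace
open scoped Classical

namespace Pool.Agent.Bsw

variable {Q : Par} {τ : Ty Q}

/-- The sets and regions of all the nodes. -/
structure SD (Q : Par) (P : Type) where
  S : Nd Q → Set P
  D : Nd Q → Set P
  C : Nd Q → Set P
  U : Nd Q → Clopens CC
  th : Nd Q → Clopens CC
  et : Nd Q → Clopens CC
  gg : Nd Q → Clopens CC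
  jj : Nd Q → Clopens CC
  hh : Nd Q → Clopens CC

/-- The original region of a key. -/
noncomputable def SD.orig {P : Type} (s : SD Q P) (τ : Ty Q) (κ : Option (Nd Q)) (x : Nd Q) : Clopens CC :=
  if κ = some x ∧ τ.cl ≠ 0 then (if τ.cl = 1 then s.hh x else s.jj x) else s.et x

/-- The properties of the system. -/
structure Sy (H : Hyp Q τ) (s : SD Q H.P) : Prop where
  S_ne : ∀ w, Ok w → (s.S w).Nonempty
  S_sub : ∀ w, Ok w → s.S w ⊆ H.S0 ∩ H.ξ ⁻¹' (s.U w)
  D_ne : ∀ w, Ok w → w ≠ [] → (s.D w).Nonempty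
  D_sub : ∀ w, Ok w → w ≠ [] → s.D w ⊆ H.E0 ∩ H.ξ ⁻¹' (s.U w)
  C_sub : ∀ w, Ok w → s.C w ⊆ H.E0
  S_cl : ∀ w, Ok w → w ≠ [] → closure (s.S w) ⊆ s.S (q univ w)
  S_di : ∀ w, Ok w → w ≠ [] → ∀ x ∈ s.S w, ∀ y ∈ s.S w, dist x y ≤ (1 / 2 : ℝ) ^ w.length
  D_cl : ∀ w, Ok w → w ≠ [] → dpar w = none → closure (s.D w) ⊆ s.C (q univ w)
  D_cl' : ∀ w, Ok w → w ≠ [] → ∀ v, dpar w = some v → closure (s.D w) ⊆ s.D v
  D_di : ∀ w, Ok w → w ≠ [] → ∀ x ∈ s.D w, ∀ y ∈ s.D w, dist x y ≤ (1 / 2 : ℝ) ^ w.length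
  D_C : ∀ w, Ok w → w ≠ [] → τ.cl ≠ 0 → s.D w ⊆ s.C (q univ w)
  U_le : ∀ v, ∀ m, Ok (m :: v) → s.U (m :: v) ≤ s.U v ∧ Sml v.length (s.U (m :: v))
  U_di : ∀ v, ∀ m m', Ok (m :: v) → Ok (m' :: v) → m ≠ m' → Disjoint (s.U (m :: v)) (s.U (m' :: v))
  th_le : τ.cA = false → ∀ w, Ok w → w ≠ [] → s.th w ≤ s.th (q τ.DA w) ∧ Sml w.length (s.th w)
  f_th : τ.cA = false → ∀ w, Ok w → w ≠ [] → s.S w ⊆ H.f ⁻¹' (s.th w)
  th_di : τ.cA = false → ∀ w w', Ok w → Ok w' → w ≠ [] → w' ≠ [] → w ≠ w' → q τ.DA w = q τ.DA w' →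
    Disjoint (s.th w) (s.th w')
  gg_le : τ.cB = false → ∀ w, Ok w → w ≠ [] → s.gg w ≤ s.orig τ (τ.cls (some (q univ w))) (τ.kp w) ∧
    Sml w.length (s.gg w) ∧ s.et w ≤ s.gg w
  f_et : τ.cB = false → ∀ w, Ok w → w ≠ [] → s.D w ⊆ H.f ⁻¹' (s.et w)
  gg_di : τ.cB = false → ∀ w w', Ok w → Ok w' → w ≠ [] → w' ≠ [] → w ≠ w' →
    τ.cls (some (q univ w)) = τ.cls (some (q univ w')) → τ.kp w = τ.kp w' → Disjoint (s.gg w) (s.gg w')
  cC : τ.cl ≠ 0 → τ.cB = true → ∀ r, Ok r → ∀ x ∈ s.C r, ∀ y ∈ s.C r, H.f x = H.f y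
  hh_di : τ.cl = 1 → ∀ w w', Ok w → Ok w' → w ≠ w' → Disjoint (s.hh w) (s.hh w')
  f_hh : τ.cl = 1 → ∀ w, Ok w → s.C w ⊆ H.f ⁻¹' (s.hh w)
  f_jj : τ.cl = 2 → ∀ w, Ok w → s.C w ⊆ H.f ⁻¹' (s.jj w)
  jj_le : τ.cl = 2 → ∀ w, Ok w → w ≠ [] → s.jj w ≤ s.gg w ∧ Disjoint (s.et w) (s.jj w)
  gg_le2 : τ.cl = 2 → τ.cB = true → ∀ w, Ok w → w ≠ [] → s.gg w ≤ s.jj (q univ w) ∧ Sml w.length (s.gg w) ∧
    s.D w ⊆ H.f ⁻¹' (s.gg w \ s.jj w)
  jj_di : τ.cl = 2 → τ.cB = true → ∀ w w', Ok w → Ok w' → w ≠ [] → w' ≠ [] → w ≠ w' → q univ w = q univ w' →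
    Disjoint (s.jj w) (s.jj w')

private theorem la1_refl {P : Type} (T : Finset (Nd Q)) (g : Cfg Q P) : Pres T g g :=
  ⟨fun _ _ => rfl, fun _ _ => rfl, fun _ _ => rfl, fun _ _ => rfl, fun _ _ => rfl, fun _ _ => rfl,
    fun _ _ => rfl, fun _ _ => rfl, fun _ _ => ⟨rfl, fun _ => rfl⟩⟩

private theorem la1_trans {P : Type} {T T' : Finset (Nd Q)} {g g' g'' : Cfg Q P} (hT : T ⊆ T') (h : Pres T g g')
    (h' : Pres T' g' g'') : Pres T g g'' :=
  ⟨fun v hv => (h'.S v (hT hv)).trans (h.S v hv), fun v hv => (h'.D v (hT hv)).trans (h.D v hv),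
    fun v hv => (h'.C v (hT hv)).trans (h.C v hv), fun v hv => (h'.th v (hT hv)).trans (h.th v hv),
    fun v hv => (h'.et v (hT hv)).trans (h.et v hv), fun v hv => (h'.gg v (hT hv)).trans (h.gg v hv),
    fun v hv => (h'.jj v (hT hv)).trans (h.jj v hv), fun v hv => (h'.hh v (hT hv)).trans (h.hh v hv),
    fun v hv => ⟨(h'.U v (hT hv)).1.trans (h.U v hv).1, fun m => ((h'.U v (hT hv)).2 m).trans ((h.U v hv).2 m)⟩⟩

private theorem la1_seq (H : Hyp Q τ) (hC : H.Cls) : ∃ (T : ℕ → Finset (Nd Q)) (g : ℕ → Cfg Q H.P),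
    (∀ n, Inv H (T n) (g n)) ∧ (∀ n, T n ⊆ T (n + 1)) ∧ (∀ n, Pres (T n) (g n) (g (n + 1))) ∧
      ∀ w, Ok w → ∃ n, w ∈ T n := by
  have hstep : ∀ s : {p : Finset (Nd Q) × Cfg Q H.P // Inv H p.1 p.2},
      ∃ s' : {p : Finset (Nd Q) × Cfg Q H.P // Inv H p.1 p.2}, Pres s.1.1 s.1.2 s'.1.2 ∧
        (((∀ w, Ok w → w ∈ s.1.1) ∧ s'.1.1 = s.1.1) ∨ ∃ w, Ok w ∧ w ∉ s.1.1 ∧
          (∀ w', Ok w' → w'.length < w.length → w' ∈ s.1.1) ∧ s'.1.1 = insert w s.1.1) := by
    rintro ⟨⟨T, g⟩, hI⟩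
    by_cases hall : ∀ w, Ok w → w ∈ T
    · exact ⟨⟨⟨T, g⟩, hI⟩, la1_refl _ _, Or.inl ⟨hall, rfl⟩⟩
    · have hex : ∃ n, ∃ w, Ok w ∧ w ∉ T ∧ w.length = n := by
        by_contra hno
        apply hall
        intro w hw
        by_contra hwT
        exact hno ⟨_, w, hw, hwT, rfl⟩
      obtain ⟨w, hw, hwT, hwn⟩ := Nat.find_spec hex
      have hmin : ∀ w', Ok w' → w'.length < w.length → w' ∈ T := by
        intro w' hw' hl
        by_contra hc
        rw [hwn] at hl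
        exact Nat.find_min hex hl ⟨w', hw', hc, rfl⟩
      obtain ⟨g', hI', hP'⟩ := extend H hC hI hw hwT hmin
      exact ⟨⟨⟨insert w T, g'⟩, hI'⟩, hP', Or.inr ⟨w, hw, hwT, hmin, rfl⟩⟩
  choose f hf1 hf2 using hstep
  obtain ⟨g0, hg0⟩ := root H hC
  let s : ℕ → {p : Finset (Nd Q) × Cfg Q H.P // Inv H p.1 p.2} := fun n =>
    Nat.rec ⟨⟨{[]}, g0⟩, hg0⟩ (fun _ p => f p) n
  have hs : ∀ n, s (n + 1) = f (s n) := fun n => rfl
  have hsub : ∀ n, (s n).1.1 ⊆ (s (n + 1)).1.1 := by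
    intro n
    rw [hs]
    rcases hf2 (s n) with ⟨_, h⟩ | ⟨w, _, _, _, h⟩
    · rw [h]
    · rw [h]; exact Finset.subset_insert _ _
  refine ⟨fun n => (s n).1.1, fun n => (s n).1.2, fun n => (s n).2, hsub, fun n => hf1 (s n), ?_⟩
  intro w hw
  by_contra hno
  have hno' : ∀ n, w ∉ (s n).1.1 := fun n hn => hno ⟨n, hn⟩
  have key : ∀ n, (s n).1.1 ⊆ (finite_nodes_le (Q := Q) w.length).toFinset ∧ n < (s n).1.1.card := by
    intro n
    induction n with
    | zero =>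
      constructor
      · intro x hx
        have hx' : x ∈ ({[]} : Finset (Nd Q)) := hx
        rw [Finset.mem_singleton] at hx'
        rw [Set.Finite.mem_toFinset, hx']
        exact ⟨trivial, Nat.zero_le _⟩
      · show 0 < ({[]} : Finset (Nd Q)).card
        simp
    | succ n ih =>
      rw [hs]
      rcases hf2 (s n) with ⟨h, _⟩ | ⟨w', h1, h2, h3, h⟩
      · exact absurd (h w hw) (hno' n)
      · rw [h]
        constructor
        · intro x hx
          rcases Finset.mem_insert.1 hx with rfl | hx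
          · rw [Set.Finite.mem_toFinset]
            refine ⟨h1, ?_⟩
            by_contra hc
            exact hno' n (h3 w hw (not_le.1 hc))
          · exact ih.1 hx
        · rw [Finset.card_insert_of_notMem h2]
          omega
  have h1 := key (finite_nodes_le (Q := Q) w.length).toFinset.card
  have h2 := Finset.card_le_card h1.1
  omega

private structure la1_Eq {P : Type} (s : SD Q P) (g : Cfg Q P) (w : Nd Q) : Prop where
  S : s.S w = g.S w
  D : s.D w = g.D w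
  C : s.C w = g.C w
  U : s.U w = g.U w
  th : s.th w = g.th w
  et : s.et w = g.et w
  gg : s.gg w = g.gg w
  jj : s.jj w = g.jj w
  hh : s.hh w = g.hh w

private theorem la1_ok_q (D : Set Q.L) {w : Nd Q} (hw : Ok w) : Ok (Bsw.q D w) := hw.suffix (q_le D w).suffix

private theorem la1_ok_kp {w : Nd Q} (hw : Ok w) : Ok (τ.kp w) := by
  unfold Ty.kp Ty.an
  simp only
  split_ifs
  · trivial
  · exact la1_ok_q _ hw
  · exact la1_ok_q _ hw
  · rcases anr_spec (τ.DB (q univ w)) (q univ w) (q (τ.DB (q univ w)) w) with ⟨h, _⟩ | ⟨_, _, h, _⟩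
    · rw [h]; exact la1_ok_q _ hw
    · exact (la1_ok_q _ hw).suffix h.suffix

private theorem la1_orig {P : Type} {s : SD Q P} {g : Cfg Q P} {x : Nd Q} (h : la1_Eq s g x)
    {κ : Option (Nd Q)} : s.orig τ κ x = orig τ g κ x := by
  unfold SD.orig orig
  rw [h.hh, h.jj, h.et]

/-- MODULE la1 (size 2): the system exists.

Proof.  `root`, `extend`.  By recursion a sequence `(T n, g n)` with `Inv H (T n) (g n)`, `T 0 = {[]}`, and if not all `Ok` nodes are in `T n`: `T (n+1) = insert w (T n)`, `Pres (T n) (g n) (g (n+1))`, where `w` is an `Ok` node `∉ T n` of minimal length (so all shorter ones are in `T n`); otherwise the same.  There are finitely many `Ok` nodes of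
length `≤ l` (`finite_nodes_le`), so all of them are in `T n` for some `n`.  `s.S w = (g n).S w` for the least `n` with `w ∈ T n`; it is the same for all larger `n` (`Pres`).  The properties: take `n` with all the nodes involved (and for `U_le`: `m :: v ∈ T n`, so `v ∈ T n`) in `T n` (`orig` involves `kp w`, a suffix of `w` or `q univ w`).  `cC`: `CellP.ctrue`. -/
theorem exists_Sy (H : Hyp Q τ) (hC : H.Cls) : ∃ s : SD Q H.P, Sy H s := by
  obtain ⟨T, g, hI, hT, hP, hall⟩ := la1_seq H hC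
  choose! k hk using hall
  have hmono : ∀ n m, n ≤ m → T n ⊆ T m := by
    intro n m h
    induction m, h using Nat.le_induction with
    | base => exact Finset.Subset.refl _
    | succ m _ ih => exact ih.trans (hT m)
  have hPr : ∀ n m, n ≤ m → Pres (T n) (g n) (g m) := by
    intro n m h
    induction m, h using Nat.le_induction with
    | base => exact la1_refl _ _
    | succ m hm ih => exact la1_trans (hmono n m hm) ih (hP m)
  let s : SD Q H.P := ⟨fun w => (g (k w)).S w, fun w => (g (k w)).D w, fun w => (g (k w)).C w,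
    fun w => (g (k w)).U w, fun w => (g (k w)).th w, fun w => (g (k w)).et w, fun w => (g (k w)).gg w,
    fun w => (g (k w)).jj w, fun w => (g (k w)).hh w⟩
  have hs : ∀ n w, w ∈ T n → Ok w → la1_Eq s (g n) w := by
    intro n w hw ho
    rcases le_total n (k w) with h | h
    · have e := hPr n (k w) h
      exact ⟨e.S w hw, e.D w hw, e.C w hw, (e.U w hw).1, e.th w hw, e.et w hw, e.gg w hw, e.jj w hw, e.hh w hw⟩
    · have e := hPr (k w) n h
      have hw' := hk w ho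
      exact ⟨(e.S w hw').symm, (e.D w hw').symm, (e.C w hw').symm, (e.U w hw').1.symm, (e.th w hw').symm,
        (e.et w hw').symm, (e.gg w hw').symm, (e.jj w hw').symm, (e.hh w hw').symm⟩
  have b1 : ∀ w, Ok w → ∃ n, w ∈ T n ∧ la1_Eq s (g n) w :=
    fun w hw => ⟨k w, hk w hw, hs _ w (hk w hw) hw⟩
  have b3 : ∀ w w' w'', Ok w → Ok w' → Ok w'' → ∃ n, (w ∈ T n ∧ la1_Eq s (g n) w) ∧
      (w' ∈ T n ∧ la1_Eq s (g n) w') ∧ (w'' ∈ T n ∧ la1_Eq s (g n) w'') := by
    intro w w' w'' hw hw' hw''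
    let n := max (k w) (max (k w') (k w''))
    have h1 : w ∈ T n := hmono _ _ (le_max_left _ _) (hk w hw)
    have h2 : w' ∈ T n := hmono _ _ ((le_max_left _ _).trans (le_max_right _ _)) (hk w' hw')
    have h3 : w'' ∈ T n := hmono _ _ ((le_max_right _ _).trans (le_max_right _ _)) (hk w'' hw'')
    exact ⟨n, ⟨h1, hs n w h1 hw⟩, ⟨h2, hs n w' h2 hw'⟩, ⟨h3, hs n w'' h3 hw''⟩⟩
  have b2 : ∀ w w', Ok w → Ok w' → ∃ n, (w ∈ T n ∧ la1_Eq s (g n) w) ∧ (w' ∈ T n ∧ la1_Eq s (g n) w') := by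
    intro w w' hw hw'
    obtain ⟨n, h1, h2, _⟩ := b3 w w' w' hw hw' hw'
    exact ⟨n, h1, h2⟩
  have oq : ∀ (D : Set Q.L) {w : Nd Q}, Ok w → Ok (Bsw.q D w) := fun D w hw => la1_ok_q D hw
  refine ⟨s, ?_⟩
  constructor
  · intro w hw
    obtain ⟨n, h, e⟩ := b1 w hw
    rw [e.S]; exact (hI n).i1.S_ne w h
  · intro w hw
    obtain ⟨n, h, e⟩ := b1 w hw
    rw [e.S, e.U]; exact (hI n).i1.S_sub w h
  · intro w hw hne
    obtain ⟨n, h, e⟩ := b1 w hw
    rw [e.D]; exact (hI n).i1.D_ne w h hne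
  · intro w hw hne
    obtain ⟨n, h, e⟩ := b1 w hw
    rw [e.D, e.U]; exact (hI n).i1.D_sub w h hne
  · intro w hw
    obtain ⟨n, h, e⟩ := b1 w hw
    rw [e.C]; exact (hI n).i1.C_sub w h
  · intro w hw hne
    obtain ⟨n, ⟨h, e⟩, _, e'⟩ := b2 w _ hw (oq univ hw)
    rw [e.S, e'.S]; exact (hI n).i1.S_cl w h hne
  · intro w hw hne
    obtain ⟨n, h, e⟩ := b1 w hw
    rw [e.S]; exact (hI n).i1.S_di w h hne
  · intro w hw hne hd
    obtain ⟨n, ⟨h, e⟩, _, e'⟩ := b2 w _ hw (oq univ hw)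
    rw [e.D, e'.C]; exact (hI n).i1.D_cl w h hne hd
  · intro w hw hne v hv
    obtain ⟨n, ⟨h, e⟩, _, e'⟩ := b2 w v hw (hw.suffix (dpar_some hw hne hv).2.2.1.suffix)
    rw [e.D, e'.D]; exact (hI n).i1.D_cl' w h hne v hv
  · intro w hw hne
    obtain ⟨n, h, e⟩ := b1 w hw
    rw [e.D]; exact (hI n).i1.D_di w h hne
  · intro w hw hne h0
    obtain ⟨n, ⟨h, e⟩, _, e'⟩ := b2 w _ hw (oq univ hw)
    rw [e.D, e'.C]; exact (hI n).i1.D_C w h hne h0
  · intro v m hm
    obtain ⟨n, ⟨h, e⟩, _, e'⟩ := b2 v (m :: v) hm.1 hm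
    rw [e.U, e'.U]; exact (hI n).i1.U_le v h m hm
  · intro v m m' hm hm' hne
    obtain ⟨n, ⟨h, _⟩, ⟨_, e⟩, _, e'⟩ := b3 v (m :: v) (m' :: v) hm.1 hm hm'
    rw [e.U, e'.U]; exact (hI n).i1.U_di v h m m' hm hm' hne
  · intro hA w hw hne
    obtain ⟨n, ⟨h, e⟩, _, e'⟩ := b2 w _ hw (oq τ.DA hw)
    rw [e.th, e'.th]; exact (hI n).i3.th_le hA w h hne
  · intro hA w hw hne
    obtain ⟨n, h, e⟩ := b1 w hw
    rw [e.S, e.th]; exact (hI n).i3.f_th hA w h hne
  · intro hA w w' hw hw' hne hne' hd hq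
    obtain ⟨n, ⟨h, e⟩, h', e'⟩ := b2 w w' hw hw'
    rw [e.th, e'.th]; exact (hI n).i3.th_di hA w h w' h' hne hne' hd hq
  · intro hB w hw hne
    obtain ⟨n, ⟨h, e⟩, _, e'⟩ := b2 w _ hw (la1_ok_kp (τ := τ) hw)
    rw [la1_orig e', e.gg, e.et]; exact (hI n).i4.gg_le hB w h hne
  · intro hB w hw hne
    obtain ⟨n, h, e⟩ := b1 w hw
    rw [e.D, e.et]; exact (hI n).i4.f_et hB w h hne
  · intro hB w w' hw hw' hne hne' hd hq hk'
    obtain ⟨n, ⟨h, e⟩, h', e'⟩ := b2 w w' hw hw'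
    rw [e.gg, e'.gg]; exact (hI n).i4.gg_di hB w h w' h' hne hne' hd hq hk'
  · intro h0 hB r hr
    obtain ⟨n, h, e⟩ := b1 r hr
    rw [e.C]; exact ((hI n).i2.cell h0 r h).ctrue hB
  · intro h1 w w' hw hw' hd
    obtain ⟨n, ⟨h, e⟩, h', e'⟩ := b2 w w' hw hw'
    rw [e.hh, e'.hh]; exact (hI n).i4.hh_di h1 w h w' h' hd
  · intro h1 w hw
    obtain ⟨n, h, e⟩ := b1 w hw
    rw [e.C, e.hh]; exact ((hI n).i4.f_hh h1 w h).1
  · intro h2 w hw
    obtain ⟨n, h, e⟩ := b1 w hw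
    rw [e.C, e.jj]; exact ((hI n).i4.f_jj h2 w h).1
  · intro h2 w hw hne
    obtain ⟨n, h, e⟩ := b1 w hw
    rw [e.jj, e.gg, e.et]; exact (hI n).i4.jj_le h2 w h hne
  · intro h2 hB w hw hne
    obtain ⟨n, ⟨h, e⟩, _, e'⟩ := b2 w _ hw (oq univ hw)
    rw [e.gg, e'.jj, e.D, e.jj]; exact (hI n).i4.gg_le2 h2 hB w h hne
  · intro h2 hB w w' hw hw' hne hne' hd hq
    obtain ⟨n, ⟨h, e⟩, h', e'⟩ := b2 w w' hw hw'
    rw [e.jj, e'.jj]; exact (hI n).i4.jj_di h2 hB w h w' h' hne hne' hd hq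

/-! ## Chains of a branch -/

/-- `x` has a chain on the side `A`. -/
def AQ (Q : Par) : Set (ℕ → Mv Q) := {x | ∃ c, ACh c ∧ ∀ n, Pr (c n) x}

/-- `w` is an ancestor of order `D` of a member of the `A`-chain. -/
def MA (D : Set Q.L) (x : ℕ → Mv Q) (w : Nd Q) : Prop := ∃ c n, ACh c ∧ (∀ k, Pr (c k) x) ∧ Le D w (c n)

/-- `x` is in the cell `r`. -/
def Cel (r : Nd Q) (x : ℕ → Mv Q) : Prop := ∃ v, BCh r v ∧ ∀ k, Pr (v k) x

/-- `w` is an ancestor of order `D` of a member of the `B`-chain of `x`, in the cell `r`. -/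
def MB (D : Set Q.L) (r : Nd Q) (x : ℕ → Mv Q) (w : Nd Q) : Prop := ∃ v n, BCh r v ∧ (∀ k, Pr (v k) x) ∧ Le D w (v n)

/-- MODULE la2 (size 2): uniqueness of the chains.

`ICh_of_le`: as `ICh.restrict`: the ancestors of order `D` of the `v n` form an infinite chain.  `ACh_unique`: `ICh.unique_Iic` for `e = ⊤` (`Iic ⊤ = univ`).
`BCh_unique`: `Le (Iio ⊤) (v n) (v (n+1))` (`dpar_some`), so by `ICh_of_le` and `ICh.unique_Iio` the members of `v` and `v'` are in one infinite chain `t` of order `Iio ⊤`.  `r = r'`: suppose `r` is not longer than `r'` (both are initial segments of `x`), `r ≠ r'`.  Choose `v m` longer than `r'` and `v' n` longer than `v m`: `Le univ r' (v' n)`, `Le (Iio ⊤) (v m) (v' n)`, so `Le univ r' (v m)` by `coh_top`,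
`r' ≠ v m`, so `Le univ r' (q univ (v m)) = r`: `r'` is not longer than `r`, contradiction.  `v = v'`: `v 0`, `v' 0`: `q (Iio ⊤) (v 0) = q univ (v 0) = r` (`dpar = none`), the same for `v' 0`, so both are the successor of `r` in `t`.  If `v n = v' n` and `v (n+1)` is shorter than `v' (n+1)`: let `T = q (Iio ⊤) (v' (n+1))`, it is `v (n+1)` or later in `t`, `chd univ r T = v' n = v n`, so `Le univ (v n) T`, and `Le (Iio ⊤) (v (n+1)) T`,
so `Le univ (v n) (v (n+1))` by `coh_top`, and `v n ≠ v (n+1)`, so `Le univ (v n) (q univ (v (n+1))) = r`: too long. -/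
theorem ICh_of_le {D : Set Q.L} (hD : IsLowerSet D) {x : ℕ → Mv Q} {v : ℕ → Nd Q} (hne : ∀ n, v n ≠ v (n + 1))
    (hle : ∀ n, Le D (v n) (v (n + 1))) (hpr : ∀ n, Pr (v n) x) : ∃ t, ICh D x t ∧ ∀ n, ∃ j, t j = v n := by
  have hmono : ∀ {n m : ℕ}, n ≤ m → Le D (v n) (v m) := by
    intro n m h
    induction m, h using Nat.le_induction with
    | base => exact Le.refl
    | succ m _ ih => exact ih.trans (hle m)
  have hlen : ∀ n, n ≤ (v n).length := by
    intro n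
    induction n with
    | zero => exact Nat.zero_le _
    | succ n ih =>
      have h1 : (v n).length < (v (n + 1)).length := by
        refine lt_of_le_of_ne (hle n).length_le fun h => hne n ?_
        exact (hle n).eq_of_length h.ge
      omega
  -- the successor
  have hsucc : ∀ p : {p : Nd Q // ∃ n, Le D p (v n)}, ∃ s : {p : Nd Q // ∃ n, Le D p (v n)},
      Bsw.q D s.1 = p.1 ∧ s.1 ≠ [] := by
    rintro ⟨p, n, hp⟩
    have hlen' : p.length < (v (max n (p.length + 1))).length := by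
      have := hlen (max n (p.length + 1))
      have h3 : p.length + 1 ≤ max n (p.length + 1) := le_max_right _ _
      omega
    have hp' : Le D p (v (max n (p.length + 1))) := hp.trans (hmono (le_max_left _ _))
    have hne' : p ≠ v (max n (p.length + 1)) := by
      intro hc
      rw [← hc] at hlen'
      exact lt_irrefl _ hlen'
    obtain ⟨h1, h2, h3⟩ := chd_spec hp' hne'
    exact ⟨⟨_, _, h3⟩, h1, h2⟩
  choose s hs1 hs2 using hsucc
  let t'' : ℕ → {p : Nd Q // ∃ n, Le D p (v n)} := fun n =>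
    Nat.rec ⟨[], 0, Le_nil _ _⟩ (fun _ p => s p) n
  have ht'' : ∀ n, t'' (n + 1) = s (t'' n) := fun n => rfl
  have hI : ICh D x (fun n => (t'' n).1) := by
    refine ⟨rfl, ?_, ?_, ?_⟩
    · intro n
      show (t'' (n + 1)).1 ≠ []
      rw [ht'']; exact hs2 _
    · intro n
      show Bsw.q D (t'' (n + 1)).1 = (t'' n).1
      rw [ht'']; exact hs1 _
    · intro n
      obtain ⟨k, hk⟩ := (t'' n).2
      exact Pr_of_suffix (hpr k) hk.suffix
  refine ⟨_, hI, ?_⟩
  intro n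
  obtain ⟨k, hk⟩ := (t'' (v n).length).2
  have hk1 : Le D (t'' (v n).length).1 (v (max n k)) := hk.trans (hmono (le_max_right _ _))
  have hk2 : Le D (v n) (v (max n k)) := hmono (le_max_left _ _)
  have hlen' : (v n).length ≤ ((t'' (v n).length).1).length := (hI.length (v n).length).2
  rcases Le.total hk2 hk1 with h4 | h4
  · obtain ⟨j, -, hj⟩ := hI.mem_of_le h4
    exact ⟨j, hj⟩
  · exact ⟨(v n).length, h4.eq_of_length hlen'⟩

theorem ACh_unique {x : ℕ → Mv Q} (hx : x ∈ Br Q) {c c' : ℕ → Nd Q} (h : ACh c) (hc : ∀ n, Pr (c n) x)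
    (h' : ACh c') (hc' : ∀ n, Pr (c' n) x) : c = c' := by
  refine ICh.unique_Iic hx ⊤ ?_ ?_
  · rw [Iic_top_eq]; exact ⟨h.zero, h.ne, h.q, hc⟩
  · rw [Iic_top_eq]; exact ⟨h'.zero, h'.ne, h'.q, hc'⟩

private theorem la2_len {r : Nd Q} {v : ℕ → Nd Q} (h : BCh r v) (n : ℕ) : n ≤ (v n).length := by
  induction n with
  | zero => exact Nat.zero_le _
  | succ n ih =>
    have := (h.suffix n).2
    omega

private theorem la2_mono {D : Set Q.L} {x : ℕ → Mv Q} {t : ℕ → Nd Q} (h : ICh D x t) :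
    StrictMono fun n => (t n).length := strictMono_nat_of_lt_succ fun n => (h.length n).1

private theorem la2_lt {r : Nd Q} {v : ℕ → Nd Q} (h : BCh r v) (n : ℕ) : r.length < (v n).length := by
  have := q_length_lt univ (h.ne n)
  rwa [h.q n] at this

private theorem la2_r {x : ℕ → Mv Q} {r r' : Nd Q} {v v' t : ℕ → Nd Q} (ht : ICh (Iio ⊤) x t) (h : BCh r v)
    (htv : ∀ n, ∃ j, t j = v n) (h' : BCh r' v') (htv' : ∀ n, ∃ j, t j = v' n) (hl : r.length ≤ r'.length) :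
    r = r' := by
  let m := r'.length + 1
  let n := (v m).length
  have h1 : r'.length < (v m).length := by
    have := la2_len h m
    omega
  have h2 : (v m).length ≤ (v' n).length := la2_len h' n
  have h3 : Le univ r' (v' n) := by
    have := q_le univ (v' n)
    rwa [h'.q n] at this
  have h4 : Le (Iio ⊤) (v m) (v' n) := by
    obtain ⟨i, hi⟩ := htv m
    obtain ⟨j, hj⟩ := htv' n
    rw [← hi, ← hj] at h2 ⊢
    exact ht.le ((la2_mono ht).le_iff_le.1 h2)
  have h5 := coh_top (h'.ok n) h3 h4 h1.le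
  have h6 : r' ≠ v m := by
    intro hc
    rw [← hc] at h1
    exact lt_irrefl _ h1
  have h7 := (h5.le_q h6).2
  rw [h.q m] at h7
  exact (h7.eq_of_length hl).symm

private theorem la2_step {x : ℕ → Mv Q} {r : Nd Q} {v v' t : ℕ → Nd Q} (ht : ICh (Iio ⊤) x t) (h : BCh r v)
    (h' : BCh r v') {n i j : ℕ} (hn : v n = v' n) (hi : t i = v (n + 1)) (hj : t j = v' (n + 1)) : ¬ i < j := by
  intro hij
  obtain ⟨k, rfl⟩ : ∃ k, j = k + 1 := ⟨j - 1, by omega⟩
  have h1 : Bsw.q (Iio ⊤) (v' (n + 1)) = t k := by rw [← hj]; exact ht.q k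
  obtain ⟨_, _, _, _, h2⟩ := dpar_some (h'.ok (n + 1)) (h'.ne (n + 1)) (h'.succ n)
  rw [h1, ← hn] at h2
  have h3 : Le (Iio ⊤) (v (n + 1)) (t k) := by
    rw [← hi]
    exact ht.le (by omega)
  have hok : Ok (t k) := by
    rw [← h1]
    exact (h'.ok (n + 1)).suffix (q_le _ _).suffix
  have h4 := (h.suffix n).2
  have h5 := coh_top hok h2 h3 h4.le
  have h6 : v n ≠ v (n + 1) := by
    intro hc
    rw [← hc] at h4
    exact lt_irrefl _ h4
  have h7 := (h5.le_q h6).2.length_le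
  rw [h.q (n + 1)] at h7
  have h8 := la2_lt h n
  omega

private theorem la2_chain {x : ℕ → Mv Q} {r : Nd Q} {v : ℕ → Nd Q} (h : BCh r v) (hv : ∀ n, Pr (v n) x) :
    ∃ t, ICh (Iio ⊤) x t ∧ ∀ n, ∃ j, t j = v n := by
  refine ICh_of_le (isLowerSet_Iio ⊤) ?_ ?_ hv
  · intro n
    exact (dpar_some (h.ok (n + 1)) (h.ne (n + 1)) (h.succ n)).2.2.2.1
  · intro n
    exact (dpar_some (h.ok (n + 1)) (h.ne (n + 1)) (h.succ n)).2.2.1

private theorem la2_zero {r : Nd Q} {v : ℕ → Nd Q} (h : BCh r v) : Bsw.q (Iio ⊤) (v 0) = r := by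
  have h1 := h.zero
  unfold dpar at h1
  split_ifs at h1 with h2
  rw [h2, h.q 0]

theorem BCh_unique {x : ℕ → Mv Q} (hx : x ∈ Br Q) {r r' : Nd Q} {v v' : ℕ → Nd Q} (h : BCh r v)
    (hv : ∀ n, Pr (v n) x) (h' : BCh r' v') (hv' : ∀ n, Pr (v' n) x) : r = r' ∧ v = v' := by
  obtain ⟨t, ht, htv⟩ := la2_chain h hv
  obtain ⟨t', ht', htv'⟩ := la2_chain h' hv'
  obtain rfl := ICh.unique_Iio hx ⊤ ht ht'
  have hr : r = r' := by
    rcases le_total r.length r'.length with hl | hl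
    · exact la2_r ht h htv h' htv' hl
    · exact (la2_r ht h' htv' h htv hl).symm
  subst hr
  refine ⟨rfl, ?_⟩
  funext n
  induction n with
  | zero =>
    obtain ⟨i, hi⟩ := htv 0
    obtain ⟨j, hj⟩ := htv' 0
    have h1 := la2_zero h
    have h2 := la2_zero h'
    have hi0 : i ≠ 0 := by
      rintro rfl
      exact h.ne 0 (by rw [← hi]; exact ht.zero)
    have hj0 : j ≠ 0 := by
      rintro rfl
      exact h'.ne 0 (by rw [← hj]; exact ht.zero)
    obtain ⟨i, rfl⟩ := Nat.exists_eq_succ_of_ne_zero hi0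
    obtain ⟨j, rfl⟩ := Nat.exists_eq_succ_of_ne_zero hj0
    rw [← hi] at h1
    rw [← hj] at h2
    have h3 : t i = t j := by
      rw [← ht.q i, ← ht.q j]
      exact h1.trans h2.symm
    have h4 : i = j := (la2_mono ht).injective (by simp [h3])
    rw [← hi, ← hj, h4]
  | succ n ih =>
    obtain ⟨i, hi⟩ := htv (n + 1)
    obtain ⟨j, hj⟩ := htv' (n + 1)
    have h1 := la2_step ht h h' ih hi hj
    have h2 := la2_step ht h' h ih.symm hj hi
    have h3 : i = j := by omega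
    rw [← hi, ← hj, h3]

/-- MODULE la3 (size 2): members of the chains.

`MA.next`, `MB.next`: `w` is an ancestor of order `D` of `c n`, so of `c (n+1)` (`Le univ (c n) (c (n+1))`, `Ok.mono`; `B`: `Le (Iio ⊤) (v n) (v (n+1))` and `D ⊆ Iio ⊤`), `w ≠ c (n+1)`: `chd D w (c (n+1))`, `chd_spec`. -/
theorem MA.next {D : Set Q.L} (hD : IsLowerSet D) {x : ℕ → Mv Q} {w : Nd Q} (h : MA D x w) :
    ∃ w', w' ≠ [] ∧ q D w' = w ∧ MA D x w' := by
  obtain ⟨c, n, hc, hp, hle⟩ := h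
  have h1 : Le univ (c n) (c (n + 1)) := Le.step (hc.ne n) (by rw [hc.q n]; exact Le.refl)
  have h2 : Le D w (c (n + 1)) := hle.trans ((hc.ok (n + 1)).mono isLowerSet_univ hD (subset_univ _) h1)
  have h3 : w ≠ c (n + 1) := by
    intro hw
    have h4 := hle.length_le
    have h5 := (hc.suffix n).2
    rw [← hw] at h5
    omega
  obtain ⟨a, b, d⟩ := chd_spec h2 h3
  exact ⟨_, b, a, c, n + 1, hc, hp, d⟩

theorem MA.par {D : Set Q.L} {x : ℕ → Mv Q} {w : Nd Q} (h : MA D x w) : MA D x (q D w) := by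
  obtain ⟨c, n, hc, hp, hle⟩ := h
  exact ⟨c, n, hc, hp, (q_le D w).trans hle⟩

theorem MA.ok {D : Set Q.L} {x : ℕ → Mv Q} {w : Nd Q} (h : MA D x w) : Ok w := by
  obtain ⟨c, n, hc, hp, hle⟩ := h
  exact (hc.ok n).suffix hle.suffix

theorem MB.next {D : Set Q.L} (hD : IsLowerSet D) (ht : ⊤ ∉ D) {r : Nd Q} {x : ℕ → Mv Q} {w : Nd Q}
    (h : MB D r x w) : ∃ w', w' ≠ [] ∧ q D w' = w ∧ MB D r x w' := by
  obtain ⟨v, n, hc, hp, hle⟩ := h
  have h1 : Le (Iio ⊤) (v n) (v (n + 1)) := (dpar_some (hc.ok (n + 1)) (hc.ne (n + 1)) (hc.succ n)).2.2.1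
  have hsub : D ⊆ Iio ⊤ := fun y hy => lt_top_iff_ne_top.2 fun h => ht (h ▸ hy)
  have h2 : Le D w (v (n + 1)) := hle.trans ((hc.ok (n + 1)).mono (isLowerSet_Iio ⊤) hD hsub h1)
  have h3 : w ≠ v (n + 1) := by
    intro hw
    have h4 := hle.length_le
    have h5 := (hc.suffix n).2
    rw [← hw] at h5
    omega
  obtain ⟨a, b, d⟩ := chd_spec h2 h3
  exact ⟨_, b, a, v, n + 1, hc, hp, d⟩

theorem MB.par {D : Set Q.L} {r : Nd Q} {x : ℕ → Mv Q} {w : Nd Q} (h : MB D r x w) : MB D r x (q D w) := by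
  obtain ⟨v, n, hc, hp, hle⟩ := h
  exact ⟨v, n, hc, hp, (q_le D w).trans hle⟩

theorem MB.ok {D : Set Q.L} {r : Nd Q} {x : ℕ → Mv Q} {w : Nd Q} (h : MB D r x w) : Ok w := by
  obtain ⟨v, n, hc, hp, hle⟩ := h
  exact (hc.ok n).suffix hle.suffix

/-- The keys: `kp s` is `r` or a child of `r`, an ancestor of order `DB r` of `s` (classes I, II, not constant; `anr_spec`); it is shorter than `s`. -/
theorem kp_spec (h0 : τ.cl ≠ 0) (hB : τ.cB = false) {s r : Nd Q} (hs : s ≠ []) (hr : q univ s = r) :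
    (τ.kp s).length < s.length ∧ (τ.kp s = r ∨ (τ.kp s ≠ [] ∧ q univ (τ.kp s) = r ∧ Le (τ.DB r) (τ.kp s) s)) ∧
      ∀ s', s' ≠ [] → q univ s' = r → Le (τ.DB r) s' s → s' ≠ s → τ.kp s ≠ r ∧ Le (τ.DB r) s' (τ.kp s) := by
  subst hr
  have e : τ.kp s = anr (τ.DB (q univ s)) (q univ s) (q (τ.DB (q univ s)) s) := by
    unfold Ty.kp Ty.an
    simp only [hB, h0, if_false, Bool.false_eq_true]
  rw [e]
  rcases anr_spec (τ.DB (q univ s)) (q univ s) (q (τ.DB (q univ s)) s) with ⟨h1, h2⟩ | ⟨h1, h2, h3, h4⟩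
  · refine ⟨?_, Or.inl h1, ?_⟩
    · rw [h1]; exact q_length_lt _ hs
    · intro s' hs' hq hle hne
      exact absurd (hle.le_q hne).2 (h2 s' hs' hq)
  · refine ⟨?_, Or.inr ⟨h1, h2, h3.trans (q_le _ _)⟩, ?_⟩
    · exact lt_of_le_of_lt h3.length_le (q_length_lt _ hs)
    · intro s' hs' hq hle hne
      refine ⟨?_, h4 s' hs' hq (hle.le_q hne).2⟩
      intro hc
      have h5 := q_length_lt univ h1
      rw [h2, hc] at h5
      exact lt_irrefl _ h5

/-- Between a child `s` of `r` (or `r`) and a later child `t` of `r` above it there is a child `s'` with key `s`: induction on the length of `t` (`kp_spec`). -/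
theorem exists_kp (h0 : τ.cl ≠ 0) (hB : τ.cB = false) {r s t : Nd Q} (ht : t ≠ []) (hr : q univ t = r)
    (hs : s = r ∨ (s ≠ [] ∧ q univ s = r ∧ Le (τ.DB r) s t ∧ s ≠ t)) :
    ∃ s', s' ≠ [] ∧ q univ s' = r ∧ Le (τ.DB r) s' t ∧ τ.kp s' = s := by
  by_cases hk : τ.kp t = s
  · exact ⟨t, ht, hr, Le.refl, hk⟩
  · obtain ⟨h1, h2, h3⟩ := kp_spec h0 hB ht hr
    rcases h2 with h2 | ⟨h4, h5, h6⟩
    · exfalso
      rcases hs with rfl | ⟨a, b, c, d⟩
      · exact hk h2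
      · exact (h3 s a b c d).1 h2
    · have hs' : s = r ∨ (s ≠ [] ∧ q univ s = r ∧ Le (τ.DB r) s (τ.kp t) ∧ s ≠ τ.kp t) := by
        rcases hs with rfl | ⟨a, b, c, d⟩
        · exact Or.inl rfl
        · exact Or.inr ⟨a, b, (h3 s a b c d).2, fun h => hk h.symm⟩
      obtain ⟨s', a, b, c, d⟩ := exists_kp h0 hB h4 h5 hs'
      exact ⟨s', a, b, c.trans h6, d⟩
termination_by t.length


/-- MODULE la4 (size 1): an abstract lemma.  `R w ⊆ R (par w)`, siblings are disjoint; `M` a set of nodes closed under `par`, `y ∈ R w` for `w ∈ M`; every element of `M` has a child in `M` or no child `w'` with `y ∈ R w'`.  Then `y ∈ R w ↔ w ∈ M`.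

Proof of `→`: induction on `ℓ w`: `y ∈ R w`, so `par w = o` or `y ∈ R (par w)`; so `par w ∈ M`.  The second alternative for `par w` contradicts `y ∈ R w`; the first gives `w' ∈ M`, `par w' = par w`, `y ∈ R w'`, so `w = w'`. -/
theorem tree_abs {ι : Type} {ℓ : ι → ℕ} {o : ι} {N : Set ι} {par : ι → ι} {R : ι → Set CC}
    (hp : ∀ w ∈ N, w ≠ o → par w ∈ N ∧ ℓ (par w) < ℓ w) (hR : ∀ w ∈ N, w ≠ o → par w ≠ o → R w ⊆ R (par w))
    (hd : ∀ w ∈ N, ∀ w' ∈ N, w ≠ o → w' ≠ o → w ≠ w' → par w = par w' → Disjoint (R w) (R w')) {M : Set ι}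
    (hM : M ⊆ N) (ho : o ∈ M) {y : CC} (hy : ∀ w ∈ M, w ≠ o → y ∈ R w)
    (hn : ∀ w ∈ M, (∃ w' ∈ M, w' ≠ o ∧ par w' = w) ∨ ∀ w' ∈ N, w' ≠ o → par w' = w → y ∉ R w') :
    ∀ w ∈ N, w ≠ o → (y ∈ R w ↔ w ∈ M) := by
  have key : ∀ n : ℕ, ∀ w ∈ N, ℓ w = n → w ≠ o → y ∈ R w → w ∈ M := by
    intro n
    induction n using Nat.strong_induction_on with
    | _ n ih =>
      intro w hw hl hwo hyw
      obtain ⟨hp1, hp2⟩ := hp w hw hwo
      have hpM : par w ∈ M := by
        by_cases h : par w = o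
        · rw [h]
          exact ho
        · exact ih (ℓ (par w)) (hl ▸ hp2) (par w) hp1 rfl h (hR w hw hwo h hyw)
      rcases hn _ hpM with ⟨w', hw', hw'o, hpw⟩ | h
      · by_contra hcon
        have hne : w ≠ w' := fun h => hcon (h ▸ hw')
        exact Set.disjoint_left.1 (hd w hw w' (hM hw') hwo hw'o hne hpw.symm) hyw (hy w' hw' hw'o)
      · exact absurd hyw (h w hw hwo rfl)
  exact fun w hw hwo => ⟨fun h => key _ w hw rfl hwo h, fun h => hy w h hwo⟩

/-! ## The space of branches -/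

/-- Codes of branches: the codes of the initial segments. -/
def BC (Q : Par) : Set (ℕ → ℕ) := {z | ∃ x ∈ Br Q, ∀ n, z n = cd Q (pre x n)}

/-- The space of branches. -/
abbrev BN (Q : Par) := ↥(BC Q)

/-- The branch. -/
noncomputable def bm (z : BN Q) : ℕ → Mv Q := z.2.choose

theorem bm_mem (z : BN Q) : bm z ∈ Br Q := z.2.choose_spec.1

theorem bm_code (z : BN Q) (n : ℕ) : z.1 n = cd Q (pre (bm z) n) := z.2.choose_spec.2 n

/-- The code of a branch. -/
noncomputable def bc (x : ℕ → Mv Q) (hx : x ∈ Br Q) : BN Q := ⟨fun n => cd Q (pre x n), x, hx, fun _ => rfl⟩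

private theorem la5_inj {x x' : ℕ → Mv Q} (h : ∀ n, pre x n = pre x' n) : x = x' := by
  funext n
  have h1 := h (n + 1)
  rw [pre, pre] at h1
  exact (List.cons.inj h1).1

private theorem la5_pre_eq {x x' : ℕ → Mv Q} {n i : ℕ} (hi : i ≤ n) (h : pre x n = pre x' n) :
    pre x i = pre x' i := by
  have h1 : pre x i <:+ pre x n := pre_suffix x hi
  have h2 : pre x' i <:+ pre x n := h ▸ pre_suffix x' hi
  have hl : (pre x i).length = (pre x' i).length := by rw [pre_length, pre_length]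
  exact (List.suffix_of_suffix_length_le h1 h2 hl.le).eq_of_length hl

private theorem la5_cl (a b : ℕ) (P : ℕ → ℕ → Prop) : IsClosed {z : ℕ → ℕ | P (z a) (z b)} := by
  have h : IsClosed {p : ℕ × ℕ | P p.1 p.2} := isClosed_discrete _
  have hc : Continuous (fun z : ℕ → ℕ => (z a, z b)) :=
    (continuous_apply a).prodMk (continuous_apply b)
  exact h.preimage hc

/-- MODULE la5 (size 2): topology of the space of branches.

`pre_inj`: `pre x n` for all `n` determines `x`.  Compactness: `BC Q` is closed (a limit of codes: for every `n` the value `z n` is the code of an `Ok` node of length `n`, and `z (n+1)` is the code of `m :: w` if `z n` is the code of `w`: these conditions involve finitely many coordinates) and contained in a product of finite sets (`finite_nodes n`). -/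
theorem bm_bc (x : ℕ → Mv Q) (hx : x ∈ Br Q) : bm (bc x hx) = x := by
  refine la5_inj fun n => ?_
  exact cd_inj Q (bm_code (bc x hx) n).symm

theorem bm_inj {z z' : BN Q} (h : bm z = bm z') : z = z' := by
  apply Subtype.ext
  funext n
  rw [bm_code z n, bm_code z' n, h]

theorem isCompact_BC (Q : Par) : IsCompact (BC Q) := by
  have hcl : IsClosed (BC Q) := by
    have e : BC Q = ⋂ n : ℕ, {z : ℕ → ℕ | (fun a b => ∃ (w : Nd Q) (m : Mv Q), a = cd Q w ∧ b = cd Q (m :: w) ∧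
        Ok (m :: w) ∧ w.length = n) (z n) (z (n + 1))} := by
      ext z
      simp only [mem_iInter, mem_ofPred_eq]
      constructor
      · rintro ⟨x, hx, hz⟩ n
        exact ⟨pre x n, x n, hz n, hz (n + 1), hx (n + 1), pre_length x n⟩
      · intro h
        choose w m h1 h2 h3 h4 using h
        have h5 : ∀ n, w (n + 1) = m n :: w n := fun n => cd_inj Q ((h1 (n + 1)).symm.trans (h2 n))
        have h6 : ∀ n, pre m n = w n := by
          intro n
          induction n with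
          | zero => exact (List.length_eq_zero_iff.1 (h4 0)).symm
          | succ n ih => rw [pre, ih, h5]
        refine ⟨m, fun n => ?_, fun n => by rw [h6]; exact h1 n⟩
        show Ok (pre m n)
        rw [h6]
        exact (h3 n).suffix (List.suffix_cons _ _)
    rw [e]
    exact isClosed_iInter fun n => la5_cl n (n + 1) (fun a b => ∃ (w : Nd Q) (m : Mv Q), a = cd Q w ∧
      b = cd Q (m :: w) ∧ Ok (m :: w) ∧ w.length = n)
  have hsub : BC Q ⊆ Set.pi univ (fun n => cd Q '' {w : Nd Q | Ok w ∧ w.length = n}) := by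
    rintro z ⟨x, hx, hz⟩ n _
    exact ⟨pre x n, ⟨hx n, pre_length x n⟩, (hz n).symm⟩
  have hcp : IsCompact (Set.pi univ (fun n => cd Q '' {w : Nd Q | Ok w ∧ w.length = n})) :=
    isCompact_univ_pi fun n => ((finite_nodes n).image _).isCompact
  exact hcp.of_isClosed_subset hcl hsub

/-- Basic neighbourhoods. -/
theorem nhds_bm (z : BN Q) (V : Set (BN Q)) : V ∈ 𝓝 z ↔ ∃ n, ∀ z' : BN Q, pre (bm z') n = pre (bm z) n → z' ∈ V := by
  constructor
  · intro h
    obtain ⟨U, hU, hUV⟩ := (mem_nhds_subtype _ z V).1 h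
    obtain ⟨s, ⟨x, n, hs⟩, hzs, hsU⟩ :=
      ((PiNat.isTopologicalBasis_cylinders (fun _ : ℕ => ℕ)).mem_nhds_iff).1 hU
    subst hs
    refine ⟨n, fun z' hz' => hUV ?_⟩
    apply hsU
    intro i hi
    rw [bm_code z' i, la5_pre_eq hi.le hz', ← bm_code z i]
    exact hzs i hi
  · rintro ⟨n, hn⟩
    have hc : Continuous (fun z' : BN Q => z'.1 n) := (continuous_apply n).comp continuous_subtype_val
    have ho : IsOpen {z' : BN Q | z'.1 n = z.1 n} := (isOpen_discrete ({z.1 n} : Set ℕ)).preimage hc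
    refine Filter.mem_of_superset (ho.mem_nhds rfl) fun z' hz' => hn z' ?_
    have hz'' : z'.1 n = z.1 n := hz'
    rw [bm_code z' n, bm_code z n] at hz''
    exact cd_inj Q hz''

/-- The branches with a chain on the side `A`. -/
def AN (Q : Par) : Set (BN Q) := {z | bm z ∈ AQ Q}


/-- MODULE la6 (size 2): the set `AN` is not of the class `kap + 1`.

`not_Sg_of_clo` for `ξ : Pt Q → BN Q`, `ξ z = bc (brn z) _`: `Hx ξ` by `nhds_bm` (`u = pre (brn z) n`), `rich`, `PA_nonempty`.  `ξ z ∈ AN` for `z ∈ PA` (`exists_ACh`, `Pr_brn`: the chain of `z` is in `BA`).  `ξ z ∉ AN` for `z ∈ PB`: the branch has a `B`-chain; if it also had an `A`-chain `c`: `ICh univ x c`, the members of the chain `v` of the cell `r`: by restriction `c` and `v` are in the same chain of order `Iio ⊤`; take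
`c n` longer than `r`, `v m` longer than `c n`, `c k` longer than `v m`: `Le univ (c n) (c k)`, `Le (Iio ⊤) (v m) (c k)`, so `Le univ (c n) (v m)` (`coh_top`), so `Le univ (c n) r`: too long. -/
theorem not_A_and_B {x : ℕ → Mv Q} (hx : x ∈ Br Q) {r : Nd Q} (h : Cel r x) : x ∉ AQ Q := by
  rintro ⟨c, hc, hcx⟩
  obtain ⟨v, hv, hvx⟩ := h
  have hI : ICh univ x c := ⟨hc.zero, hc.ne, hc.q, hcx⟩
  obtain ⟨t, ht, htc⟩ := hI.restrict isLowerSet_univ (isLowerSet_Iio (⊤ : Q.L)) (subset_univ _) hx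
  obtain ⟨t', ht', htv⟩ := ICh_of_le (isLowerSet_Iio (⊤ : Q.L))
    (fun n => (dpar_some (hv.ok (n + 1)) (hv.ne (n + 1)) (hv.succ n)).2.2.2.1)
    (fun n => (dpar_some (hv.ok (n + 1)) (hv.ne (n + 1)) (hv.succ n)).2.2.1) hvx
  have htt : t' = t := ICh.unique_Iio hx ⊤ ht' ht
  subst htt
  have hvlen : ∀ n, n ≤ (v n).length := by
    intro n
    induction n with
    | zero => exact Nat.zero_le _
    | succ k ih => exact lt_of_le_of_lt ih (hv.suffix k).2
  have hclen : ∀ n, n ≤ (c n).length := fun n => (hI.length n).2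
  have hmono : StrictMono fun n => (t' n).length := strictMono_nat_of_lt_succ fun n => (ht'.length n).1
  have hvc : ∀ a b, (v a).length ≤ (c b).length → Le (Iio ⊤) (v a) (c b) := by
    intro a b hab
    obtain ⟨i, hi⟩ := htv a
    obtain ⟨j, hj⟩ := htc b
    rw [← hi, ← hj] at hab ⊢
    exact ht'.le (hmono.le_iff_le.1 hab)
  have key : ∀ N M : ℕ, (c N).length < (v M).length → Le univ (c N) (v M) := by
    intro N M hNM
    have h6 : (v M).length ≤ (c (max N (v M).length)).length := (le_max_right _ _).trans (hclen _)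
    exact coh_top (hc.ok _) (hI.le (le_max_left _ _)) (hvc _ _ h6) hNM.le
  have h5 : (c (r.length + 1)).length < (v ((c (r.length + 1)).length + 1)).length :=
    lt_of_lt_of_le (Nat.lt_succ_self _) (hvlen _)
  have h7 : c (r.length + 1) ≠ v ((c (r.length + 1)).length + 1) := by
    intro h
    rw [← h] at h5
    exact lt_irrefl _ h5
  have h8 := ((key _ _ h5).le_q h7).2.length_le
  rw [hv.q] at h8
  have h2 := hclen (r.length + 1)
  omega

theorem not_Sg_AN (Q : Par) : ¬ Sg (Q.kap + 1) (AN Q) := by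
  let ξ : Pt Q → BN Q := fun z => bc (brn z) (brn_mem z)
  have hbm : ∀ z, bm (ξ z) = brn z := fun z => bm_bc _ _
  have hH : Hx ξ := by
    intro z V hV
    obtain ⟨n, hn⟩ := (nhds_bm _ _).1 hV
    refine ⟨pre (brn z) n, Pr_pre _ _, fun z' hz' => hn _ ?_⟩
    rw [hbm, hbm]
    have h1 : pre (brn z') (pre (brn z) n).length = pre (brn z) n := hz'
    rwa [pre_length] at h1
  refine not_Sg_of_clo hH.continuous (isOpen_PA Q) (isOpen_PB Q) (PA_nonempty Q) (rich hH) ?_ ?_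
  · intro z hz
    obtain ⟨c, hc, h⟩ := exists_ACh hz
    show bm (ξ z) ∈ AQ Q
    rw [hbm]
    exact ⟨c, hc, fun n => Pr_brn (Or.inl ⟨hz, n, h n⟩)⟩
  · intro z hz hA
    obtain ⟨r, v, hv, _, h⟩ := exists_BCh hz
    have hA' : bm (ξ z) ∈ AQ Q := hA
    rw [hbm] at hA'
    exact not_A_and_B (brn_mem z) ⟨v, hv, fun n => Pr_brn (Or.inr ⟨hz, n, h n⟩)⟩ hA'

/-! ## The limit -/

/-- A realisation of the system. -/
structure Rea (H : Hyp Q τ) (s : SD Q H.P) (ψ : BN Q → CC) (p : BN Q → H.P) : Prop where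
  cont : Continuous ψ
  inj : Function.Injective ψ
  ξ : ∀ x, H.ξ (p x) = ψ x
  A0 : ∀ x, bm x ∈ AQ Q → p x ∈ H.S0
  B0 : ∀ x, bm x ∉ AQ Q → p x ∈ H.E0
  A : ∀ x c, ACh c → (∀ n, Pr (c n) (bm x)) → ∀ n, p x ∈ s.S (c n)
  B : ∀ x r v, BCh r v → (∀ n, Pr (v n) (bm x)) → ∀ n, p x ∈ s.D (v n)
  C : ∀ x r, Cel r (bm x) → τ.cl ≠ 0 → p x ∈ s.C r

private theorem la7_lim {P : Type} [MetricSpace P] [CompleteSpace P] {F : ℕ → Set P} (ne : ∀ n, (F n).Nonempty)
    (cl : ∀ n, closure (F (n + 1)) ⊆ F n) (di : ∀ n, ∀ x ∈ F n, ∀ y ∈ F n, dist x y ≤ (1 / 2 : ℝ) ^ n) :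
    ∃ a, ∀ n, a ∈ F n := by
  choose y hy using ne
  have hanti : ∀ {n m : ℕ}, n ≤ m → F m ⊆ F n := by
    intro n m hnm
    induction m, hnm using Nat.le_induction with
    | base => exact Subset.rfl
    | succ k _ ih => exact (subset_closure.trans (cl k)).trans ih
  have hc : CauchySeq y := by
    refine cauchySeq_of_le_geometric (1 / 2 : ℝ) 1 (by norm_num) fun n => ?_
    rw [one_mul]
    exact di n _ (hy n) _ (hanti (Nat.le_succ n) (hy (n + 1)))
  obtain ⟨a, ha⟩ := cauchySeq_tendsto_of_complete hc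
  refine ⟨a, fun n => cl n ?_⟩
  refine mem_closure_of_tendsto ha ?_
  filter_upwards [eventually_ge_atTop (n + 1)] with m hm
  exact hanti hm (hy m)

private theorem la7_ok {x : ℕ → Mv Q} (hx : x ∈ Br Q) {p : Nd Q} (hp : Pr p x) : Ok p := by
  have := hx p.length
  rwa [show pre x p.length = p from hp] at this

private theorem la7_anti (H : Hyp Q τ) {s : SD Q H.P} (hs : Sy H s) {x : ℕ → Mv Q} (hx : x ∈ Br Q) {n m : ℕ}
    (h : n ≤ m) : s.U (pre x m) ≤ s.U (pre x n) := by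
  induction m, h using Nat.le_induction with
  | base => exact le_rfl
  | succ k _ ih => exact (hs.U_le (pre x k) (x k) (hx (k + 1))).1.trans ih

/-- Two points of `U (pre x n)` for all large `n` are equal. -/
private theorem la7_eq (H : Hyp Q τ) {s : SD Q H.P} (hs : Sy H s) {x : ℕ → Mv Q} (hx : x ∈ Br Q) {y y' : CC}
    (hy : ∀ n, ∃ m, n ≤ m ∧ y ∈ s.U (pre x m) ∧ y' ∈ s.U (pre x m)) : y = y' := by
  funext i
  obtain ⟨m, hm, h1, h2⟩ := hy (i + 2)
  obtain ⟨k, rfl⟩ : ∃ k, m = k + 1 := ⟨m - 1, by omega⟩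
  refine (hs.U_le (pre x k) (x k) (hx (k + 1))).2 y h1 y' h2 i ?_
  rw [pre_length]
  omega

private theorem la7_psi (H : Hyp Q τ) {s : SD Q H.P} (hs : Sy H s) (x : BN Q) :
    ∃ y : CC, ∀ n, y ∈ s.U (pre (bm x) n) := by
  have h := IsCompact.nonempty_iInter_of_sequence_nonempty_isCompact_isClosed
    (fun n => (s.U (pre (bm x) n) : Set CC))
    (fun n => la7_anti H hs (bm_mem x) (Nat.le_succ n))
    (fun n => by
      obtain ⟨a, ha⟩ := hs.S_ne (pre (bm x) n) (bm_mem x n)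
      exact ⟨H.ξ a, (hs.S_sub _ (bm_mem x n) ha).2⟩)
    (Clopens.isClopen _).isClosed.isCompact
    (fun n => (Clopens.isClopen _).isClosed)
  obtain ⟨y, hy⟩ := h
  exact ⟨y, fun n => mem_iInter.1 hy n⟩

/-- A point of the sets of a chain is mapped to the point of the branch. -/
private theorem la7_xi (H : Hyp Q τ) {s : SD Q H.P} (hs : Sy H s) {x : ℕ → Mv Q} (hx : x ∈ Br Q) {y : CC}
    (hy : ∀ n, y ∈ s.U (pre x n)) {c : ℕ → Nd Q} (hc : ∀ n, Pr (c n) x) (hl : ∀ n, n ≤ (c n).length) {a : CC}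
    (ha : ∀ n, a ∈ s.U (c n)) : a = y := by
  refine la7_eq H hs hx fun n => ⟨(c n).length, hl n, ?_, hy _⟩
  have h1 : pre x (c n).length = c n := hc n
  rw [h1]
  exact ha n

private theorem la7_pt (H : Hyp Q τ) {s : SD Q H.P} (hs : Sy H s) (x : BN Q) {y : CC}
    (hy : ∀ n, y ∈ s.U (pre (bm x) n)) :
    ∃ a : H.P, H.ξ a = y ∧ (bm x ∈ AQ Q → a ∈ H.S0) ∧ (bm x ∉ AQ Q → a ∈ H.E0) ∧
      (∀ c, ACh c → (∀ n, Pr (c n) (bm x)) → ∀ n, a ∈ s.S (c n)) ∧
      (∀ r v, BCh r v → (∀ n, Pr (v n) (bm x)) → ∀ n, a ∈ s.D (v n)) ∧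
      (∀ r, Cel r (bm x) → τ.cl ≠ 0 → a ∈ s.C r) := by
  rcases exists_chain (bm_mem x) with ⟨c, hc, hcx⟩ | ⟨r, v, hv, hvx⟩
  · have hAQ : bm x ∈ AQ Q := ⟨c, hc, hcx⟩
    have hlen : ∀ n, n ≤ (c n).length := by
      intro n
      induction n with
      | zero => exact Nat.zero_le _
      | succ k ih => exact lt_of_le_of_lt ih (hc.suffix k).2
    obtain ⟨a, ha⟩ := la7_lim (F := fun n => s.S (c (n + 1))) (fun n => hs.S_ne _ (hc.ok _))
      (fun n => by
        have h1 := hs.S_cl (c (n + 2)) (hc.ok _) (hc.ne _)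
        rw [hc.q] at h1
        exact h1)
      (fun n p hp p' hp' => by
        refine (hs.S_di (c (n + 1)) (hc.ok _) (hc.ne _) p hp p' hp').trans ?_
        exact pow_le_pow_of_le_one (by norm_num) (by norm_num) ((Nat.le_succ n).trans (hlen (n + 1))))
    have ha' : ∀ n, a ∈ s.S (c n) := by
      intro n
      have h1 := hs.S_cl (c (n + 1)) (hc.ok _) (hc.ne _)
      rw [hc.q] at h1
      exact h1 (subset_closure (ha n))
    refine ⟨a, ?_, ?_, ?_, ?_, ?_, ?_⟩
    · exact la7_xi H hs (bm_mem x) hy hcx hlen fun n => (hs.S_sub _ (hc.ok n) (ha' n)).2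
    · intro _
      exact (hs.S_sub _ (hc.ok 0) (ha' 0)).1
    · intro h
      exact absurd hAQ h
    · intro c' hc' hc'x
      rw [← ACh_unique (bm_mem x) hc hcx hc' hc'x]
      exact ha'
    · intro r v hv hvx
      exact absurd hAQ (not_A_and_B (bm_mem x) ⟨v, hv, hvx⟩)
    · intro r hr _
      exact absurd hAQ (not_A_and_B (bm_mem x) hr)
  · have hcel : Cel r (bm x) := ⟨v, hv, hvx⟩
    have hAQ : bm x ∉ AQ Q := not_A_and_B (bm_mem x) hcel
    have hlen : ∀ n, n ≤ (v n).length := by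
      intro n
      induction n with
      | zero => exact Nat.zero_le _
      | succ k ih => exact lt_of_le_of_lt ih (hv.suffix k).2
    obtain ⟨a, ha⟩ := la7_lim (F := fun n => s.D (v n)) (fun n => hs.D_ne _ (hv.ok _) (hv.ne _))
      (fun n => hs.D_cl' (v (n + 1)) (hv.ok _) (hv.ne _) _ (hv.succ n))
      (fun n p hp p' hp' => by
        refine (hs.D_di (v n) (hv.ok _) (hv.ne _) p hp p' hp').trans ?_
        exact pow_le_pow_of_le_one (by norm_num) (by norm_num) (hlen n))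
    refine ⟨a, ?_, ?_, ?_, ?_, ?_, ?_⟩
    · exact la7_xi H hs (bm_mem x) hy hvx hlen fun n => (hs.D_sub _ (hv.ok n) (hv.ne n) (ha n)).2
    · intro h
      exact absurd h hAQ
    · intro _
      exact (hs.D_sub _ (hv.ok 0) (hv.ne 0) (ha 0)).1
    · intro c hc hcx
      exact absurd ⟨c, hc, hcx⟩ hAQ
    · intro r' v' hv' hv'x
      rw [← (BCh_unique (bm_mem x) hv hvx hv' hv'x).2]
      exact ha
    · rintro r' ⟨v', hv', hv'x⟩ h0
      rw [← (BCh_unique (bm_mem x) hv hvx hv' hv'x).1]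
      have h1 := hs.D_C (v 0) (hv.ok _) (hv.ne _) h0 (ha 0)
      rwa [hv.q] at h1

/-- MODULE la7 (size 2): realisation.

`ψ x` is the point of `⋂ U (pre (bm x) n)`: nonempty (`S (pre ..) ≠ ∅` is mapped into it), decreasing, compact, `Sml`.  Continuity: `nhds_bm`; injectivity: `U_di` at the first difference.  By `exists_chain` the branch has a chain `c` (or `r, v`, then it is not in `AQ`); the sets `closure (S (c (n+1))) ⊆ S (c n)` (`closure (D (v (n+1))) ⊆ D (v n)`, `closure (D (v 0)) ⊆ C r`) are decreasing with diameters tending to `0`: a point `p x` by completeness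
(lengths tend to infinity: `ACh.suffix`, `BCh.suffix`).  `ξ (p x) ∈ U (c n)` for all `n`, so `ξ (p x) = ψ x`.  The chains are unique (`ACh_unique`, `BCh_unique`, `not_A_and_B`).  `C`: `p x ∈ D (v 0) ⊆ C r` (`D_C`). -/
theorem exists_Rea (H : Hyp Q τ) {s : SD Q H.P} (hs : Sy H s) : ∃ ψ p, Rea H s ψ p := by
  choose ψ hψ using la7_psi H hs
  choose p hp1 hp2 hp3 hp4 hp5 hp6 using fun x => la7_pt H hs x (hψ x)
  refine ⟨ψ, p, ?_, ?_, hp1, hp2, hp3, hp4, hp5, hp6⟩
  · refine continuous_pi fun i => ?_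
    rw [continuous_iff_continuousAt]
    intro x
    have h1 : {z : BN Q | ψ z i = ψ x i} ∈ 𝓝 x := by
      refine (nhds_bm x _).2 ⟨i + 2, fun z hz => ?_⟩
      have h2 := hψ z (i + 2)
      have h3 := hψ x (i + 2)
      rw [hz] at h2
      refine (hs.U_le (pre (bm x) (i + 1)) (bm x (i + 1)) (bm_mem x (i + 2))).2 _ h2 _ h3 i ?_
      rw [pre_length]
      exact Nat.lt_succ_self i
    have h4 : Tendsto (fun _ : BN Q => ψ x i) (𝓝 x) (𝓝 (ψ x i)) := tendsto_const_nhds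
    refine h4.congr' ?_
    filter_upwards [h1] with z hz
    exact hz.symm
  · intro x x' hxx
    apply bm_inj
    have key : ∀ n, pre (bm x) n = pre (bm x') n := by
      intro n
      induction n with
      | zero => rfl
      | succ k ih =>
        rw [pre, pre, ih]
        congr 1
        by_contra hne
        have h1 := hψ x (k + 1)
        have h2 := hψ x' (k + 1)
        rw [pre, ih] at h1
        rw [pre, ← hxx] at h2
        have ho1 : Ok (bm x k :: pre (bm x') k) := by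
          have := bm_mem x (k + 1)
          rwa [pre, ih] at this
        have h3 := hs.U_di (pre (bm x') k) (bm x k) (bm x' k) ho1 (bm_mem x' (k + 1)) hne
        rw [← Clopens.coe_disjoint] at h3
        exact Set.disjoint_left.1 h3 h1 h2
    funext n
    have h1 := key (n + 1)
    rw [pre, pre] at h1
    exact (List.cons.inj h1).1

/-- The convergence relation on the side `A`. -/
def RelA (τ : Ty Q) (w : ℕ → ℕ → Mv Q) (x : ℕ → Mv Q) : Prop :=
  τ.cA = false → ∀ u, MA τ.DA x u → ∀ᶠ n in atTop, MA τ.DA (w n) u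

/-- The convergence relation on the side `B`. -/
def RelB (τ : Ty Q) (w : ℕ → ℕ → Mv Q) (x : ℕ → Mv Q) : Prop :=
  (τ.cl = 0 → τ.cB = false → ∀ u, (∃ r, MB (τ.DB []) r x u) → ∀ᶠ n in atTop, ∃ r, MB (τ.DB []) r (w n) u) ∧
  (τ.cl = 1 → ∀ r, Cel r x → (∀ᶠ n in atTop, Cel r (w n)) ∧
    (τ.cB = false → ∀ s, s ≠ [] → q univ s = r → MB (τ.DB r) r x s → ∀ᶠ n in atTop, MB (τ.DB r) r (w n) s)) ∧
  (τ.cl = 2 → τ.cB = false → ∀ r, Cel r x → ∀ s, s ≠ [] → q univ s = r → MB (τ.DB r) r x s →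
    ∀ᶠ n in atTop, MB (τ.DB r) r (w n) s ∨
      ∃ r', Cel r' (w n) ∧ r' ≠ r ∧ Le univ r r' ∧ Le (τ.DB r) s (chd univ r r')) ∧
  (τ.cl = 2 → τ.cB = true → ∀ r, Cel r x → (∀ᶠ n in atTop, ∃ r', Cel r' (w n) ∧ Le univ r r') ∧
    ∀ s, s ≠ [] → q univ s = r → ∀ᶠ n in atTop, ¬ ∃ r', Cel r' (w n) ∧ Le univ s r')

/-- The function `g` on the branches has the type `τ`. -/
structure Typ (τ : Ty Q) (g : BN Q → CC) : Prop where
  clopen : ∃ V : Set CC, IsClopen V ∧ ∀ x : BN Q, g x ∈ V ↔ bm x ∈ AQ Q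
  a : ∀ (w : ℕ → BN Q) (x : BN Q), bm x ∈ AQ Q → (∀ n, bm (w n) ∈ AQ Q) →
    (Tendsto (fun n => g (w n)) atTop (𝓝 (g x)) ↔ RelA τ (fun n => bm (w n)) (bm x))
  b : ∀ (w : ℕ → BN Q) (x : BN Q), bm x ∉ AQ Q → (∀ n, bm (w n) ∉ AQ Q) →
    (Tendsto (fun n => g (w n)) atTop (𝓝 (g x)) ↔ RelB τ (fun n => bm (w n)) (bm x))

/-- MODULE la8 (size 2): the side `A`.

Constant: `cA_true`.  Not constant: `tree_abs` with `N = {w | Ok w}`, `o = []`, `par = q DA`, `R = th`, `M = {w | MA DA (bm x) w}`, `y = f (p x)`: for `w ∈ M`, `w ≠ []`: `Le DA w (c n)`, `p x ∈ S (c n)`, `f (p x) ∈ th (c n) ⊆ th w` (`th_le` along the chain).  So `f (p x) ∈ th w ↔ MA DA (bm x) w` for `Ok w`, `w ≠ []`.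
`→`: `th w` is open.  `←`: for `u ∈ M` long (`MA.next`), eventually `f (p (w n)) ∈ th u` and `f (p x) ∈ th u` agree below `u.length` (`Sml`). -/
private theorem la8_tendsto {y : ℕ → CC} {x : CC} :
    Tendsto y atTop (𝓝 x) ↔ ∀ i, ∀ᶠ n in atTop, y n i = x i := by
  rw [tendsto_pi_nhds]
  refine forall_congr' fun i => ?_
  rw [nhds_discrete, tendsto_pure]

private theorem la8_okq {D : Set Q.L} {w : Nd Q} (h : Ok w) : Ok (q D w) := h.suffix (q_le D w).suffix

private theorem la8_th {H : Hyp Q τ} {s : SD Q H.P} (hs : Sy H s) (hA : τ.cA = false) {u v : Nd Q}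
    (h : Le τ.DA u v) (hv : Ok v) : s.th v ≤ s.th u := by
  induction h with
  | refl => exact le_rfl
  | @step v hne _ ih => exact (hs.th_le hA v hv hne).1.trans (ih (la8_okq hv))

private theorem la8_key {H : Hyp Q τ} {s : SD Q H.P} (hs : Sy H s) {ψ : BN Q → CC} {p : BN Q → H.P}
    (hr : Rea H s ψ p) (hA : τ.cA = false) {z : BN Q} (hz : bm z ∈ AQ Q) {u : Nd Q} (hu : Ok u) (hne : u ≠ []) :
    H.f (p z) ∈ (s.th u : Set CC) ↔ MA τ.DA (bm z) u := by
  obtain ⟨c, hc, hpr⟩ := hz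
  refine tree_abs (ℓ := List.length) (o := ([] : Nd Q)) (N := {w | Ok w}) (par := q τ.DA)
    (R := fun w => (s.th w : Set CC)) (M := {w | MA τ.DA (bm z) w}) ?_ ?_ ?_ ?_ ?_ ?_ ?_ u hu hne
  · intro w hw h
    exact ⟨la8_okq hw, q_length_lt _ h⟩
  · intro w hw h _
    exact (hs.th_le hA w hw h).1
  · intro w hw w' hw' h h' hne he
    exact disjoint_iff_inf_le.mpr fun y hy => by
      have h1 := (hs.th_di hA w w' hw hw' h h' hne he)
      have h2 : y ∈ (s.th w ⊓ s.th w' : Clopens CC) := hy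
      rw [h1.eq_bot] at h2
      exact h2
  · intro w hw
    exact MA.ok hw
  · exact ⟨c, 0, hc, hpr, Le_nil _ _⟩
  · rintro w ⟨c', n, hc', hpr', hle⟩ hw
    have h1 : c' n ≠ [] := by
      intro h0
      rw [h0] at hle
      exact hw (List.suffix_nil.1 hle.suffix)
    have h2 : H.f (p z) ∈ s.th (c' n) := hs.f_th hA _ (hc'.ok n) h1 (hr.A z c' hc' hpr' n)
    exact la8_th hs hA hle (hc'.ok n) h2
  · intro w hw
    obtain ⟨w', h1, h2, h3⟩ := MA.next τ.lowA hw
    exact Or.inl ⟨w', h3, h1, h2⟩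

private theorem la8_long {D : Set Q.L} {P : Nd Q → Prop} (h0 : ∃ u, P u)
    (h : ∀ w, P w → ∃ w', w' ≠ [] ∧ q D w' = w ∧ P w') (m : ℕ) : ∃ u, P u ∧ m ≤ u.length := by
  induction m with
  | zero => exact ⟨_, h0.choose_spec, Nat.zero_le _⟩
  | succ m ih =>
    obtain ⟨u, hu, hm⟩ := ih
    obtain ⟨w', h1, h2, h3⟩ := h u hu
    refine ⟨w', h3, ?_⟩
    have := q_length_lt D h1
    rw [h2] at this
    omega

theorem lim_A (H : Hyp Q τ) {s : SD Q H.P} (hs : Sy H s) {ψ : BN Q → CC} {p : BN Q → H.P} (hr : Rea H s ψ p)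
    (w : ℕ → BN Q) (x : BN Q) (hx : bm x ∈ AQ Q) (hw : ∀ n, bm (w n) ∈ AQ Q) :
    Tendsto (fun n => H.f (p (w n))) atTop (𝓝 (H.f (p x))) ↔ RelA τ (fun n => bm (w n)) (bm x) := by
  rcases hA : τ.cA with _ | _
  · constructor
    · intro ht _ u hu
      by_cases h0 : u = []
      · subst h0
        refine Eventually.of_forall fun n => ?_
        obtain ⟨c, hc, hpr⟩ := hw n
        exact ⟨c, 0, hc, hpr, Le_nil _ _⟩
      · have hok : Ok u := MA.ok hu
        have h1 : H.f (p x) ∈ (s.th u : Set CC) := (la8_key hs hr hA hx hok h0).2 hu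
        filter_upwards [ht ((s.th u).isOpen.mem_nhds h1)] with n hn
        exact (la8_key hs hr hA (hw n) hok h0).1 hn
    · intro hR
      rw [la8_tendsto]
      intro i
      obtain ⟨c, hc, hpr⟩ := hx
      obtain ⟨u, hu, hl⟩ := la8_long (D := τ.DA) (P := fun u => MA τ.DA (bm x) u) ⟨[], c, 0, hc, hpr, Le_nil _ _⟩
        (fun w hw => MA.next τ.lowA hw) (i + 1)
      have hne : u ≠ [] := by
        rintro rfl
        simp at hl
      have hok : Ok u := MA.ok hu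
      have h1 : H.f (p x) ∈ (s.th u : Set CC) := (la8_key hs hr hA ⟨c, hc, hpr⟩ hok hne).2 hu
      filter_upwards [hR hA u hu] with n hn
      have h2 : H.f (p (w n)) ∈ (s.th u : Set CC) := (la8_key hs hr hA (hw n) hok hne).2 hn
      exact (hs.th_le hA u hok hne).2 _ h2 _ h1 i (by omega)
  · have h1 : RelA τ (fun n => bm (w n)) (bm x) := fun h => by
      rw [hA] at h
      exact absurd h (by decide)
    refine ⟨fun _ => h1, fun _ => ?_⟩
    have h2 : (fun n => H.f (p (w n))) = fun _ => H.f (p x) := by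
      funext n
      exact H.cA_true hA _ (hr.A0 _ (hw n)) _ (hr.A0 _ hx)
    rw [h2]
    exact tendsto_const_nhds

/-- MODULE la9 (size 2): the side `B`, class III.  Constant: `c0_true`.  Not constant: as `lim_A` with `R = gg`, `par = q (DB [])` (`kp w = q (DB []) w`, `orig = et ≤ gg`), `M = {w | ∃ r, MB (DB []) r (bm x) w}`, `f (p x) ∈ et (v n) ⊆ gg (v n)` (`f_et`). -/
private theorem la9_chain {z : BN Q} (hz : bm z ∉ AQ Q) : ∃ r v, BCh r v ∧ ∀ n, Pr (v n) (bm z) := by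
  rcases exists_chain (bm_mem z) with ⟨c, hc, hpr⟩ | h
  · exact absurd ⟨c, hc, hpr⟩ hz
  · exact h

private theorem la9_kp (h0 : τ.cl = 0) (hB : τ.cB = false) (w : Nd Q) : τ.kp w = q (τ.DB []) w := by
  simp [Ty.kp, Ty.an, h0, hB, τ.const h0 (q univ w)]

private theorem la9_cls (h0 : τ.cl = 0) (w : Nd Q) : τ.cls (some w) = some [] := by
  simp [Ty.cls, h0]

private theorem la9_le {H : Hyp Q τ} {s : SD Q H.P} (hs : Sy H s) (h0 : τ.cl = 0) (hB : τ.cB = false)
    {w : Nd Q} (hw : Ok w) (hne : w ≠ []) (hne' : q (τ.DB []) w ≠ []) : s.gg w ≤ s.gg (q (τ.DB []) w) := by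
  have h1 := (hs.gg_le hB w hw hne).1
  have h2 := (hs.gg_le hB _ (la8_okq (D := τ.DB []) hw) hne').2.2
  refine h1.trans (le_trans (le_of_eq ?_) h2)
  rw [la9_kp h0 hB]
  simp [SD.orig, h0]

private theorem la9_gg {H : Hyp Q τ} {s : SD Q H.P} (hs : Sy H s) (h0 : τ.cl = 0) (hB : τ.cB = false) {u v : Nd Q}
    (h : Le (τ.DB []) u v) (hv : Ok v) (hu : u ≠ []) : s.gg v ≤ s.gg u := by
  induction h with
  | refl => exact le_rfl
  | @step v hne hle ih =>
    have h1 : q (τ.DB []) v ≠ [] := by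
      intro h
      rw [h] at hle
      exact hu (List.suffix_nil.1 hle.suffix)
    exact (la9_le hs h0 hB hv hne h1).trans (ih (la8_okq hv))

private theorem la9_key {H : Hyp Q τ} {s : SD Q H.P} (hs : Sy H s) {ψ : BN Q → CC} {p : BN Q → H.P}
    (hr : Rea H s ψ p) (h0 : τ.cl = 0) (hB : τ.cB = false) {z : BN Q} (hz : bm z ∉ AQ Q) {u : Nd Q} (hu : Ok u)
    (hne : u ≠ []) : H.f (p z) ∈ (s.gg u : Set CC) ↔ ∃ r, MB (τ.DB []) r (bm z) u := by
  obtain ⟨r, v, hv, hpr⟩ := la9_chain hz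
  refine tree_abs (ℓ := List.length) (o := ([] : Nd Q)) (N := {w | Ok w}) (par := q (τ.DB []))
    (R := fun w => (s.gg w : Set CC)) (M := {w | ∃ r, MB (τ.DB []) r (bm z) w}) ?_ ?_ ?_ ?_ ?_ ?_ ?_ u hu hne
  · intro w hw h
    exact ⟨la8_okq hw, q_length_lt _ h⟩
  · intro w hw h h'
    exact la9_le hs h0 hB hw h h'
  · intro w hw w' hw' h h' hne he
    have h1 := hs.gg_di hB w w' hw hw' h h' hne (by rw [la9_cls h0, la9_cls h0])
      (by rw [la9_kp h0 hB, la9_kp h0 hB]; exact he)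
    exact disjoint_iff_inf_le.mpr fun y hy => by
      have h2 : y ∈ (s.gg w ⊓ s.gg w' : Clopens CC) := hy
      rw [h1.eq_bot] at h2
      exact h2
  · rintro w ⟨r, hw⟩
    exact MB.ok hw
  · exact ⟨r, v, 0, hv, hpr, Le_nil _ _⟩
  · rintro w ⟨r', v', n, hv', hpr', hle⟩ hw
    have h2 : H.f (p z) ∈ s.et (v' n) := hs.f_et hB _ (hv'.ok n) (hv'.ne n) (hr.B z r' v' hv' hpr' n)
    have h3 : H.f (p z) ∈ s.gg (v' n) := (hs.gg_le hB _ (hv'.ok n) (hv'.ne n)).2.2 h2
    exact la9_gg hs h0 hB hle (hv'.ok n) hw h3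
  · rintro w ⟨r, hw⟩
    obtain ⟨w', h1, h2, h3⟩ := MB.next (τ.lowB []) (τ.top []) hw
    exact Or.inl ⟨w', ⟨r, h3⟩, h1, h2⟩

theorem lim_B0 (H : Hyp Q τ) {s : SD Q H.P} (hs : Sy H s) {ψ : BN Q → CC} {p : BN Q → H.P} (hr : Rea H s ψ p)
    (h0 : τ.cl = 0) (w : ℕ → BN Q) (x : BN Q) (hx : bm x ∉ AQ Q) (hw : ∀ n, bm (w n) ∉ AQ Q) :
    Tendsto (fun n => H.f (p (w n))) atTop (𝓝 (H.f (p x))) ↔ RelB τ (fun n => bm (w n)) (bm x) := by
  have h01 : τ.cl ≠ 1 := by rw [h0]; decide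
  have h02 : τ.cl ≠ 2 := by rw [h0]; decide
  rcases hB : τ.cB with _ | _
  · constructor
    · intro ht
      refine ⟨fun _ _ u hu => ?_, fun h => absurd h h01, fun h => absurd h h02, fun h => absurd h h02⟩
      by_cases h0' : u = []
      · subst h0'
        refine Eventually.of_forall fun n => ?_
        obtain ⟨r, v, hv, hpr⟩ := la9_chain (hw n)
        exact ⟨r, v, 0, hv, hpr, Le_nil _ _⟩
      · have hok : Ok u := by
          obtain ⟨r, hu⟩ := hu
          exact MB.ok hu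
        have h1 : H.f (p x) ∈ (s.gg u : Set CC) := (la9_key hs hr h0 hB hx hok h0').2 hu
        filter_upwards [ht ((s.gg u).isOpen.mem_nhds h1)] with n hn
        exact (la9_key hs hr h0 hB (hw n) hok h0').1 hn
    · intro hR
      rw [la8_tendsto]
      intro i
      obtain ⟨r, v, hv, hpr⟩ := la9_chain hx
      obtain ⟨u, hu, hl⟩ := la8_long (D := τ.DB []) (P := fun u => ∃ r, MB (τ.DB []) r (bm x) u)
        ⟨[], r, v, 0, hv, hpr, Le_nil _ _⟩
        (fun w hw => by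
          obtain ⟨r, hw⟩ := hw
          obtain ⟨w', h1, h2, h3⟩ := MB.next (τ.lowB []) (τ.top []) hw
          exact ⟨w', h1, h2, r, h3⟩) (i + 1)
      have hne : u ≠ [] := by
        rintro rfl
        simp at hl
      have hok : Ok u := by
        obtain ⟨r, hu⟩ := hu
        exact MB.ok hu
      have h1 : H.f (p x) ∈ (s.gg u : Set CC) := (la9_key hs hr h0 hB hx hok hne).2 hu
      filter_upwards [hR.1 h0 hB u hu] with n hn
      have h2 : H.f (p (w n)) ∈ (s.gg u : Set CC) := (la9_key hs hr h0 hB (hw n) hok hne).2 hn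
      exact (hs.gg_le hB u hok hne).2.1 _ h2 _ h1 i (by omega)
  · have h1 : RelB τ (fun n => bm (w n)) (bm x) := by
      refine ⟨fun _ h => ?_, fun h => absurd h h01, fun h => absurd h h02, fun h => absurd h h02⟩
      rw [hB] at h
      exact absurd h (by decide)
    refine ⟨fun _ => h1, fun _ => ?_⟩
    have h2 : (fun n => H.f (p (w n))) = fun _ => H.f (p x) := by
      funext n
      exact H.c0_true h0 hB _ (hr.B0 _ (hw n)) _ (hr.B0 _ hx)
    rw [h2]
    exact tendsto_const_nhds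

private theorem la10_sub {r : Nd Q} : τ.DB r ⊆ Iio ⊤ := by
  intro k hk
  rw [mem_Iio, lt_top_iff_ne_top]
  rintro rfl
  exact τ.top r hk

private theorem la10_len {s r : Nd Q} (hs : s ≠ []) (hr : q univ s = r) : r.length < s.length := by
  rw [← hr]
  exact q_length_lt _ hs

private theorem la10_ne {s r : Nd Q} (hs : s ≠ []) (hr : q univ s = r) : s ≠ r := by
  intro e
  have := la10_len hs hr
  rw [e] at this
  exact lt_irrefl _ this

private theorem la10_cls (h0 : τ.cl ≠ 0) (r : Nd Q) : τ.cls (some r) = some r := by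
  rw [Ty.cls, if_neg h0]

/-- `gg` below the region `et` of the key -/
private theorem la10_gg (h0 : τ.cl ≠ 0) (hB : τ.cB = false) {H : Hyp Q τ} {s : SD Q H.P} (hs : Sy H s) {t : Nd Q}
    (ht : Ok t) (hne : t ≠ []) (hk : τ.kp t ≠ q univ t) :
    s.gg t ≤ s.et (τ.kp t) ∧ s.et (τ.kp t) ≤ s.gg (τ.kp t) ∧ Ok (τ.kp t) ∧ τ.kp t ≠ [] ∧
      q univ (τ.kp t) = q univ t ∧ (τ.kp t).length < t.length ∧ Sml t.length (s.gg t) := by
  obtain ⟨h1, h2, -⟩ := kp_spec (τ := τ) h0 hB hne rfl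
  rcases h2 with h2 | ⟨h2, h3, h4⟩
  · exact absurd h2 hk
  · have hok : Ok (τ.kp t) := ht.suffix h4.suffix
    obtain ⟨a, b, -⟩ := hs.gg_le hB t ht hne
    rw [la10_cls h0, SD.orig, if_neg] at a
    · exact ⟨a, (hs.gg_le hB _ hok h2).2.2, hok, h2, h3, h1, b⟩
    · rintro ⟨e, -⟩
      exact hk (Option.some.inj e).symm

private theorem la10_mono (h0 : τ.cl ≠ 0) (hB : τ.cB = false) {H : Hyp Q τ} {s : SD Q H.P} (hs : Sy H s) :
    ∀ (n : ℕ) {t u : Nd Q}, t.length ≤ n → Ok t → t ≠ [] → u ≠ [] → q univ u = q univ t →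
      Le (τ.DB (q univ t)) u t → s.gg t ≤ s.gg u := by
  intro n
  induction n with
  | zero =>
    intro t u hl _ hne
    exact absurd (List.length_eq_zero_iff.1 (Nat.le_zero.1 hl)) hne
  | succ n ih =>
    intro t u hl ht hne hu hq hle
    by_cases e : u = t
    · rw [e]
    · obtain ⟨h1, h2, h3⟩ := kp_spec (τ := τ) h0 hB hne rfl
      obtain ⟨hk, hle'⟩ := h3 u hu hq hle e
      obtain ⟨a, b, c, d, f, g, -⟩ := la10_gg h0 hB hs ht hne hk
      refine (a.trans b).trans (ih (by omega) c d hu (hq.trans f.symm) ?_)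
      rw [f]
      exact hle'

/-- the chain in the cell: `Le (DB r) (v n) (v (n + 1))` -/
private theorem la10_next {r : Nd Q} {v : ℕ → Nd Q} (h : BCh r v) (n : ℕ) :
    Le (τ.DB r) (v n) (v (n + 1)) ∧ (v n).length < (v (n + 1)).length := by
  obtain ⟨-, -, h3, -, -⟩ := dpar_some (h.ok (n + 1)) (h.ne (n + 1)) (h.succ n)
  exact ⟨(h.ok (n + 1)).mono (isLowerSet_Iio _) (τ.lowB r) la10_sub h3, (h.suffix n).2⟩

private theorem la10_long {r : Nd Q} {v : ℕ → Nd Q} (h : BCh r v) : ∀ n, n ≤ (v n).length := by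
  intro n
  induction n with
  | zero => exact Nat.zero_le _
  | succ n ih => exact (Nat.lt_of_le_of_lt ih (h.suffix n).2)

private theorem la10_okr {r : Nd Q} {x : ℕ → Mv Q} (h : Cel r x) : Ok r := by
  obtain ⟨v, hv, -⟩ := h
  have h1 := (hv.ok 0).suffix (q_le univ (v 0)).suffix
  rw [hv.q 0] at h1
  exact h1

private theorem la10_cell {z : BN Q} (hz : bm z ∉ AQ Q) : ∃ r, Cel r (bm z) := by
  rcases exists_chain (bm_mem z) with ⟨c, hc, hc'⟩ | ⟨r, v, hv, hv'⟩
  · exact absurd ⟨c, hc, hc'⟩ hz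
  · exact ⟨r, v, hv, hv'⟩

private theorem la10_uni {z : BN Q} {r r' : Nd Q} (h : Cel r (bm z)) (h' : Cel r' (bm z)) : r = r' := by
  obtain ⟨v, hv, hp⟩ := h
  obtain ⟨v', hv', hp'⟩ := h'
  exact (BCh_unique (bm_mem z) hv hp hv' hp').1

private theorem la10_mb {D : Set Q.L} {x : ℕ → Mv Q} {r w : Nd Q} (h : MB D r x w) : Cel r x := by
  obtain ⟨v, n, hv, hp, -⟩ := h
  exact ⟨v, hv, hp⟩

/-- the point is in the region `gg` of the members of the chain -/
private theorem la10_mem (h0 : τ.cl ≠ 0) (hB : τ.cB = false) {H : Hyp Q τ} {s : SD Q H.P} (hs : Sy H s)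
    {ψ : BN Q → CC} {p : BN Q → H.P} (hr : Rea H s ψ p) {z : BN Q} {r t : Nd Q} (hne : t ≠ []) (hq : q univ t = r)
    (h : MB (τ.DB r) r (bm z) t) : H.f (p z) ∈ s.gg t := by
  obtain ⟨v, n, hv, hp, hle⟩ := h
  have h1 : H.f (p z) ∈ s.et (v n) := hs.f_et hB (v n) (hv.ok n) (hv.ne n) (hr.B z r v hv hp n)
  have h2 : H.f (p z) ∈ s.gg (v n) := (hs.gg_le hB (v n) (hv.ok n) (hv.ne n)).2.2 h1
  have h3 := la10_mono h0 hB hs (v n).length le_rfl (hv.ok n) (hv.ne n) hne (hq.trans (hv.q n).symm)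
    (by rw [hv.q n]; exact hle)
  exact h3 h2

private theorem la10_tree (h1 : τ.cl = 1) (hB : τ.cB = false) {H : Hyp Q τ} {s : SD Q H.P} (hs : Sy H s)
    {ψ : BN Q → CC} {p : BN Q → H.P} (hr : Rea H s ψ p) {z : BN Q} {r : Nd Q} (hz : Cel r (bm z)) {t : Nd Q}
    (ht : Ok t) (hne : t ≠ []) (hq : q univ t = r) : H.f (p z) ∈ s.gg t ↔ MB (τ.DB r) r (bm z) t := by
  have h0 : τ.cl ≠ 0 := by
    rw [h1]
    decide
  obtain ⟨v, hv, hp⟩ := id hz
  have key := tree_abs (ι := Nd Q) (ℓ := List.length) (o := r)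
    (N := {u | u = r ∨ (Ok u ∧ u ≠ [] ∧ q univ u = r)}) (par := τ.kp) (R := fun u => (s.gg u : Set CC))
    (M := {u | u = r ∨ (u ≠ [] ∧ q univ u = r ∧ MB (τ.DB r) r (bm z) u)}) (y := H.f (p z)) ?_ ?_ ?_ ?_ ?_ ?_ ?_
    t (Or.inr ⟨ht, hne, hq⟩) (la10_ne hne hq)
  · refine key.trans ⟨?_, fun h => Or.inr ⟨hne, hq, h⟩⟩
    rintro (h | ⟨-, -, h⟩)
    · exact absurd h (la10_ne hne hq)
    · exact h
  · rintro w (hw | ⟨hw, hw1, hw2⟩) hwr
    · exact absurd hw hwr
    · obtain ⟨k1, k2, -⟩ := kp_spec (τ := τ) h0 hB hw1 hw2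
      refine ⟨?_, k1⟩
      rcases k2 with k2 | ⟨k2, k3, k4⟩
      · exact Or.inl k2
      · exact Or.inr ⟨hw.suffix k4.suffix, k2, k3⟩
  · rintro w (hw | ⟨hw, hw1, hw2⟩) hwr hk
    · exact absurd hw hwr
    · obtain ⟨a, b, -⟩ := la10_gg h0 hB hs hw hw1 (by rw [hw2]; exact hk)
      exact fun y hy => b (a hy)
  · rintro w (hw | ⟨hw, hw1, hw2⟩) w' (hw' | ⟨hw', hw1', hw2'⟩) hwr hwr' hne' hk
    · exact absurd hw hwr
    · exact absurd hw hwr
    · exact absurd hw' hwr'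
    · have h3 := hs.gg_di hB w w' hw hw' hw1 hw1' hne' (by rw [hw2, hw2']) hk
      rw [Set.disjoint_left]
      intro y hy hy'
      have h4 : y ∈ s.gg w ⊓ s.gg w' := ⟨hy, hy'⟩
      rw [h3.eq_bot] at h4
      exact h4
  · rintro w (hw | ⟨hw1, hw2, hw3⟩)
    · exact Or.inl hw
    · exact Or.inr ⟨hw3.ok, hw1, hw2⟩
  · exact Or.inl rfl
  · rintro w (hw | ⟨hw1, hw2, hw3⟩) hwr
    · exact absurd hw hwr
    · exact la10_mem h0 hB hs hr hw1 hw2 hw3
  · rintro w (hw | ⟨hw1, hw2, v', n, hv', hp', hle⟩)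
    · left
      obtain ⟨s', a, b, c, d⟩ := exists_kp (τ := τ) h0 hB (hv.ne 0) (hv.q 0) (s := r) (Or.inl rfl)
      exact ⟨s', Or.inr ⟨a, b, v, 0, hv, hp, c⟩, la10_ne a b, d.trans hw.symm⟩
    · left
      obtain ⟨k1, k2⟩ := la10_next (τ := τ) hv' n
      have k3 := hle.length_le
      obtain ⟨s', a, b, c, d⟩ := exists_kp (τ := τ) h0 hB (hv'.ne (n + 1)) (hv'.q (n + 1)) (s := w)
        (Or.inr ⟨hw1, hw2, hle.trans k1, fun e => by rw [← e] at k2; omega⟩)
      exact ⟨s', Or.inr ⟨a, b, v', n + 1, hv', hp', c⟩, la10_ne a b, d⟩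

private theorem la10_hh (h1 : τ.cl = 1) {H : Hyp Q τ} {s : SD Q H.P} (hs : Sy H s)
    {ψ : BN Q → CC} {p : BN Q → H.P} (hr : Rea H s ψ p) {z : BN Q} (hz : bm z ∉ AQ Q) {r : Nd Q} (hr' : Ok r) :
    H.f (p z) ∈ s.hh r ↔ Cel r (bm z) := by
  have h0 : τ.cl ≠ 0 := by
    rw [h1]
    decide
  have h2 : ∀ r, Cel r (bm z) → H.f (p z) ∈ s.hh r := fun r h => hs.f_hh h1 r (la10_okr h) (hr.C z r h h0)
  refine ⟨fun h => ?_, h2 r⟩
  obtain ⟨r', h'⟩ := la10_cell hz
  by_cases e : r = r'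
  · rw [e]
    exact h'
  · have h3 := hs.hh_di h1 r r' hr' (la10_okr h') e
    have h4 : H.f (p z) ∈ s.hh r ⊓ s.hh r' := ⟨h, h2 r' h'⟩
    rw [h3.eq_bot] at h4
    exact absurd h4 (fun h => h)

private theorem la10_open {y : ℕ → CC} {y₀ : CC} (h : Tendsto y atTop (𝓝 y₀)) {V : Clopens CC} (hV : y₀ ∈ V) :
    ∀ᶠ n in atTop, y n ∈ V := h (V.isClopen.isOpen.mem_nhds hV)

private theorem la10_tend {y : ℕ → CC} {y₀ : CC}
    (h : ∀ m : ℕ, ∃ V : Clopens CC, Sml m V ∧ y₀ ∈ V ∧ ∀ᶠ n in atTop, y n ∈ V) : Tendsto y atTop (𝓝 y₀) := by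
  rw [tendsto_pi_nhds]
  intro i
  obtain ⟨V, h1, h2, h3⟩ := h (i + 1)
  have h4 : ∀ᶠ n in atTop, y₀ i = y n i := h3.mono fun n hn => h1 _ h2 _ hn i (Nat.lt_succ_self i)
  exact tendsto_const_nhds.congr' h4

private theorem la10_sml {m n : ℕ} (h : m ≤ n) {V : Clopens CC} (hV : Sml n V) : Sml m V :=
  fun y hy y' hy' i hi => hV y hy y' hy' i (lt_of_lt_of_le hi h)

/-- MODULE la10 (size 3): the side `B`, class I.

The cell `r` of `x` is unique (`exists_chain`, `BCh_unique`); `f (p x) ∈ hh r' ↔ r' = r` (`f_hh`, `hh_di`).  Constant: `cC`.  Not constant: for `Cel r x`: `tree_abs` with `N = {r} ∪ {s | Ok s, s ≠ [], q univ s = r}`, `o = r`, `par = kp` (`kp_spec`), `R = gg` (`gg s ≤ orig (some r) (kp s) = et (kp s) ≤ gg (kp s)` if `kp s ≠ r`), `M = {r} ∪ {s | s ≠ [], q univ s = r, MB (DB r) r x s}`; children in `M`: `exists_kp` with `t = v n`, `n` large (for `s ∈ M`: `Le (DB r) s (v n)` for all large `n`);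
`f (p x) ∈ et (v n) ⊆ gg (v n) ⊆ gg s` for `s ∈ M`.  So `f (p x) ∈ gg s ↔ MB (DB r) r x s`.  Convergence as in `lim_A` (the `v n` are in `M`, `Sml`). -/
theorem lim_B1 (H : Hyp Q τ) {s : SD Q H.P} (hs : Sy H s) {ψ : BN Q → CC} {p : BN Q → H.P} (hr : Rea H s ψ p)
    (h1 : τ.cl = 1) (w : ℕ → BN Q) (x : BN Q) (hx : bm x ∉ AQ Q) (hw : ∀ n, bm (w n) ∉ AQ Q) :
    Tendsto (fun n => H.f (p (w n))) atTop (𝓝 (H.f (p x))) ↔ RelB τ (fun n => bm (w n)) (bm x) := by
  have h0 : τ.cl ≠ 0 := by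
    rw [h1]
    decide
  have h2 : τ.cl ≠ 2 := by
    rw [h1]
    decide
  constructor
  · intro hT
    refine ⟨fun h => absurd h h0, fun _ r hr' => ?_, fun h => absurd h h2, fun h => absurd h h2⟩
    have k1 : ∀ᶠ n in atTop, Cel r (bm (w n)) :=
      (la10_open hT ((la10_hh h1 hs hr hx (la10_okr hr')).2 hr')).mono fun n hn =>
        (la10_hh h1 hs hr (hw n) (la10_okr hr')).1 hn
    refine ⟨k1, fun hB t ht hq hM => ?_⟩
    filter_upwards [k1, la10_open hT (la10_mem h0 hB hs hr ht hq hM)] with n hn hn'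
    exact (la10_tree h1 hB hs hr hn hM.ok ht hq).1 hn'
  · rintro ⟨-, hR, -, -⟩
    obtain ⟨r, hr'⟩ := la10_cell hx
    obtain ⟨k1, k2⟩ := hR h1 r hr'
    rcases hB : τ.cB with _ | _
    · obtain ⟨v, hv, hp⟩ := id hr'
      refine la10_tend fun m => ⟨s.gg (v m), ?_, ?_, ?_⟩
      · exact la10_sml (la10_long hv m) (hs.gg_le hB (v m) (hv.ok m) (hv.ne m)).2.1
      · exact la10_mem h0 hB hs hr (hv.ne m) (hv.q m) ⟨v, m, hv, hp, Le.refl⟩
      · refine (k2 hB (v m) (hv.ne m) (hv.q m) ⟨v, m, hv, hp, Le.refl⟩).mono fun n hn => ?_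
        exact la10_mem h0 hB hs hr (hv.ne m) (hv.q m) hn
    · refine tendsto_const_nhds.congr' (k1.mono fun n hn => ?_)
      exact hs.cC h0 hB r (la10_okr hr') _ (hr.C x r hr' h0) _ (hr.C (w n) r hn h0)

private theorem la11_orig (h0 : τ.cl ≠ 0) (h1 : τ.cl ≠ 1) (hB : τ.cB = false) {H : Hyp Q τ} {s : SD Q H.P}
    (hs : Sy H s) {t : Nd Q} (ht : Ok t) (hne : t ≠ []) (hk : τ.kp t = q univ t) : s.gg t ≤ s.jj (q univ t) := by
  obtain ⟨a, -, -⟩ := hs.gg_le hB t ht hne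
  rwa [la10_cls h0, hk, SD.orig, if_pos ⟨rfl, h0⟩, if_neg h1] at a

/-- `gg` below the region `jj` of the cell -/
private theorem la11_jj (h0 : τ.cl ≠ 0) (h1 : τ.cl ≠ 1) (hB : τ.cB = false) {H : Hyp Q τ} {s : SD Q H.P}
    (hs : Sy H s) : ∀ (n : ℕ) {t : Nd Q}, t.length ≤ n → Ok t → t ≠ [] → s.gg t ≤ s.jj (q univ t) := by
  intro n
  induction n with
  | zero =>
    intro t hl _ hne
    exact absurd (List.length_eq_zero_iff.1 (Nat.le_zero.1 hl)) hne
  | succ n ih =>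
    intro t hl ht hne
    by_cases hk : τ.kp t = q univ t
    · exact la11_orig h0 h1 hB hs ht hne hk
    · obtain ⟨a, b, c, d, f, g, -⟩ := la10_gg h0 hB hs ht hne hk
      have := ih (t := τ.kp t) (by omega) c d
      rw [f] at this
      exact (a.trans b).trans this

/-- `jj` decreases along `Le univ` -/
private theorem la11_le (h2 : τ.cl = 2) (hB : τ.cB = false) {H : Hyp Q τ} {s : SD Q H.P}
    (hs : Sy H s) {r r' : Nd Q} (hr : Ok r) (h : Le univ r' r) : s.jj r ≤ s.jj r' := by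
  have h0 : τ.cl ≠ 0 := by
    rw [h2]
    decide
  have h1 : τ.cl ≠ 1 := by
    rw [h2]
    decide
  induction h with
  | refl => exact le_rfl
  | @step w hw h3 ih =>
    have h4 : Ok (q univ w) := hr.suffix (q_le univ w).suffix
    exact ((hs.jj_le h2 w hr hw).1.trans (la11_jj h0 h1 hB hs w.length le_rfl hr hw)).trans (ih h4)

/-- the members of the tree -/
private def la11_M (τ : Ty Q) (r : Nd Q) (x : ℕ → Mv Q) : Set (Bool × Nd Q) :=
  {u | (u.1 = true ∧ Le univ u.2 r) ∨ (u.1 = false ∧ u.2 ≠ [] ∧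
    ((q univ u.2 = r ∧ MB (τ.DB r) r x u.2) ∨ (q univ u.2 ≠ r ∧ Le univ (q univ u.2) r ∧
      Le (τ.DB (q univ u.2)) u.2 (chd univ (q univ u.2) r))))}

private theorem la11_tree (h2 : τ.cl = 2) (hB : τ.cB = false) {H : Hyp Q τ} {s : SD Q H.P} (hs : Sy H s)
    {ψ : BN Q → CC} {p : BN Q → H.P} (hr : Rea H s ψ p) {z : BN Q} {r : Nd Q} (hz : Cel r (bm z)) {t : Nd Q}
    (ht : Ok t) (hne : t ≠ []) : H.f (p z) ∈ s.gg t ↔ (false, t) ∈ la11_M τ r (bm z) := by
  have h0 : τ.cl ≠ 0 := by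
    rw [h2]
    decide
  have h1 : τ.cl ≠ 1 := by
    rw [h2]
    decide
  have hro : Ok r := la10_okr hz
  have hjj : H.f (p z) ∈ s.jj r := hs.f_jj h2 r hro (hr.C z r hz h0)
  obtain ⟨v, hv, hp⟩ := id hz
  refine tree_abs (ι := Bool × Nd Q) (ℓ := fun u => if u.1 = true then 2 * u.2.length + 1 else 2 * u.2.length)
    (o := (true, [])) (N := {u | Ok u.2 ∧ (u.1 = false → u.2 ≠ [])})
    (par := fun u => if u.1 = true then (false, u.2) else
      if τ.kp u.2 = q univ u.2 then (true, q univ u.2) else (false, τ.kp u.2))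
    (R := fun u => if u.1 = true then (s.jj u.2 : Set CC) else (s.gg u.2 : Set CC))
    (M := la11_M τ r (bm z)) (y := H.f (p z)) ?_ ?_ ?_ ?_ ?_ ?_ ?_
    (false, t) ⟨ht, fun _ => hne⟩ (by simp)
  · rintro ⟨b, w⟩ ⟨hw, hw'⟩ hwo
    rcases b with _ | _
    · have hw1 : w ≠ [] := hw' rfl
      have k0 := q_length_lt univ hw1
      obtain ⟨k1, k2, -⟩ := kp_spec (τ := τ) h0 hB hw1 rfl
      by_cases hk : τ.kp w = q univ w
      · simp only [hk, Bool.false_eq_true, if_false, if_true]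
        exact ⟨⟨hw.suffix (q_le univ w).suffix, fun h => absurd h (by simp)⟩, by omega⟩
      · simp only [hk, Bool.false_eq_true, if_false]
        rcases k2 with k2 | ⟨k2, k3, k4⟩
        · exact absurd k2 hk
        · exact ⟨⟨hw.suffix k4.suffix, fun _ => k2⟩, by omega⟩
    · have hw1 : w ≠ [] := fun e => hwo (by rw [e])
      simp only [if_true, Bool.false_eq_true, if_false]
      exact ⟨⟨hw, fun _ => hw1⟩, by omega⟩
  · rintro ⟨b, w⟩ ⟨hw, hw'⟩ hwo hk0
    rcases b with _ | _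
    · have hw1 : w ≠ [] := hw' rfl
      by_cases hk : τ.kp w = q univ w
      · simp only [hk, Bool.false_eq_true, if_false, if_true]
        exact fun y hy => la11_orig h0 h1 hB hs hw hw1 hk hy
      · simp only [hk, Bool.false_eq_true, if_false]
        obtain ⟨a, b, -⟩ := la10_gg h0 hB hs hw hw1 hk
        exact fun y hy => b (a hy)
    · have hw1 : w ≠ [] := fun e => hwo (by rw [e])
      simp only [if_true, Bool.false_eq_true, if_false]
      exact fun y hy => (hs.jj_le h2 w hw hw1).1 hy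
  · -- siblings
    have key1 : ∀ w w' : Nd Q, Ok w → Ok w' → w ≠ [] → w' ≠ [] → τ.kp w' ≠ q univ w' → w = τ.kp w' →
        Disjoint (s.jj w : Set CC) (s.gg w') := by
      intro w w' hw hw' hw1 hw1' hk e
      obtain ⟨a, -⟩ := la10_gg h0 hB hs hw' hw1' hk
      rw [← e] at a
      have h3 := (hs.jj_le h2 w hw hw1).2
      rw [Set.disjoint_left]
      intro y hy hy'
      have h4 : y ∈ s.et w ⊓ s.jj w := ⟨a hy', hy⟩
      rw [h3.eq_bot] at h4
      exact h4
    have key2 : ∀ w w' : Nd Q, Ok w → Ok w' → w ≠ [] → w' ≠ [] → w ≠ w' → q univ w = q univ w' →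
        τ.kp w = τ.kp w' → Disjoint (s.gg w : Set CC) (s.gg w') := by
      intro w w' hw hw' hw1 hw1' hne' hq hk
      have h3 := hs.gg_di hB w w' hw hw' hw1 hw1' hne' (by rw [hq]) hk
      rw [Set.disjoint_left]
      intro y hy hy'
      have h4 : y ∈ s.gg w ⊓ s.gg w' := ⟨hy, hy'⟩
      rw [h3.eq_bot] at h4
      exact h4
    rintro ⟨b, w⟩ ⟨hw, hwb⟩ ⟨b', w'⟩ ⟨hw', hwb'⟩ hwo hwo' hne' hpar
    rcases b with _ | _ <;> rcases b' with _ | _
    · have hw1 : w ≠ [] := hwb rfl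
      have hw1' : w' ≠ [] := hwb' rfl
      have hne2 : w ≠ w' := fun e => hne' (by rw [e])
      simp only [Bool.false_eq_true, if_false] at hpar ⊢
      by_cases hk : τ.kp w = q univ w <;> by_cases hk' : τ.kp w' = q univ w'
      · rw [if_pos hk, if_pos hk'] at hpar
        have e : q univ w = q univ w' := (Prod.ext_iff.1 hpar).2
        exact key2 w w' hw hw' hw1 hw1' hne2 e (hk.trans (e.trans hk'.symm))
      · rw [if_pos hk, if_neg hk'] at hpar
        exact absurd (Prod.ext_iff.1 hpar).1 (by simp)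
      · rw [if_neg hk, if_pos hk'] at hpar
        exact absurd (Prod.ext_iff.1 hpar).1 (by simp)
      · rw [if_neg hk, if_neg hk'] at hpar
        have e : τ.kp w = τ.kp w' := (Prod.ext_iff.1 hpar).2
        obtain ⟨-, -, -, -, f, -⟩ := la10_gg h0 hB hs hw hw1 hk
        obtain ⟨-, -, -, -, f', -⟩ := la10_gg h0 hB hs hw' hw1' hk'
        exact key2 w w' hw hw' hw1 hw1' hne2 (by rw [← f, ← f', e]) e
    · have hw1 : w ≠ [] := hwb rfl
      have hw1' : w' ≠ [] := fun e => hwo' (by rw [e])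
      simp only [Bool.false_eq_true, if_false, if_true] at hpar ⊢
      by_cases hk : τ.kp w = q univ w
      · rw [if_pos hk] at hpar
        exact absurd (Prod.ext_iff.1 hpar).1 (by simp)
      · rw [if_neg hk] at hpar
        exact (key1 w' w hw' hw hw1' hw1 hk (Prod.ext_iff.1 hpar).2.symm).symm
    · have hw1 : w ≠ [] := fun e => hwo (by rw [e])
      have hw1' : w' ≠ [] := hwb' rfl
      simp only [Bool.false_eq_true, if_false, if_true] at hpar ⊢
      by_cases hk : τ.kp w' = q univ w'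
      · rw [if_pos hk] at hpar
        exact absurd (Prod.ext_iff.1 hpar).1 (by simp)
      · rw [if_neg hk] at hpar
        exact key1 w w' hw hw' hw1 hw1' hk (Prod.ext_iff.1 hpar).2
    · simp only [if_true] at hpar
      exact (hne' (congrArg (Prod.mk true) (Prod.ext_iff.1 hpar).2)).elim
  · rintro ⟨b, w⟩ (⟨hb, hw⟩ | ⟨hb, hw1, ⟨hq, hM⟩ | ⟨hq, hle, hM⟩⟩)
    · simp only at hb hw
      exact ⟨hro.suffix hw.suffix, fun h => by simp [hb] at h⟩
    · exact ⟨hM.ok, fun _ => hw1⟩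
    · exact ⟨hro.suffix (hM.suffix.trans chd_suffix), fun _ => hw1⟩
  · exact Or.inl ⟨rfl, Le_nil _ _⟩
  · rintro ⟨b, w⟩ (⟨hb, hw⟩ | ⟨hb, hw1, ⟨hq, hM⟩ | ⟨hq, hle, hM⟩⟩) hwo
    · simp only at hb hw
      subst hb
      simp only [if_true]
      exact la11_le h2 hB hs hro hw hjj
    · simp only at hb hw1 hq hM
      subst hb
      simp only [Bool.false_eq_true, if_false]
      exact la10_mem h0 hB hs hr hw1 hq hM
    · simp only at hb hw1 hq hle hM
      subst hb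
      simp only [Bool.false_eq_true, if_false]
      obtain ⟨c1, c2, c3⟩ := chd_spec hle hq
      have hco : Ok (chd univ (q univ w) r) := hro.suffix chd_suffix
      have k1 := la11_le h2 hB hs hro c3 hjj
      have k2 := (hs.jj_le h2 _ hco c2).1 k1
      exact la10_mono h0 hB hs _ le_rfl hco c2 hw1 c1.symm (by rw [c1]; exact hM) k2
  · rintro ⟨b, w⟩ (⟨hb, hw⟩ | ⟨hb, hw1, ⟨hq, hM⟩ | ⟨hq, hle, hM⟩⟩)
    · simp only at hb hw
      subst hb
      left
      by_cases e : w = r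
      · obtain ⟨s', a, b, c, d⟩ := exists_kp (τ := τ) h0 hB (hv.ne 0) (hv.q 0) (s := r) (Or.inl rfl)
        refine ⟨(false, s'), Or.inr ⟨rfl, a, Or.inl ⟨b, v, 0, hv, hp, c⟩⟩, by simp, ?_⟩
        simp only [Bool.false_eq_true, if_false]
        rw [if_pos (d.trans b.symm), b, e]
      · obtain ⟨c1, c2, c3⟩ := chd_spec hw e
        obtain ⟨s', a, b, c, d⟩ := exists_kp (τ := τ) h0 hB c2 c1 (s := w) (Or.inl rfl)
        refine ⟨(false, s'), Or.inr ⟨rfl, a, Or.inr ?_⟩, by simp, ?_⟩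
        · simp only [b]
          exact ⟨e, hw, c⟩
        · simp only [Bool.false_eq_true, if_false]
          rw [if_pos (d.trans b.symm), b]
    · simp only at hb hw1 hq hM
      subst hb
      left
      obtain ⟨v', n, hv', hp', hle⟩ := hM
      obtain ⟨k1, k2⟩ := la10_next (τ := τ) hv' n
      have k3 := hle.length_le
      obtain ⟨s', a, b, c, d⟩ := exists_kp (τ := τ) h0 hB (hv'.ne (n + 1)) (hv'.q (n + 1)) (s := w)
        (Or.inr ⟨hw1, hq, hle.trans k1, fun e => by rw [← e] at k2; omega⟩)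
      refine ⟨(false, s'), Or.inr ⟨rfl, a, Or.inl ⟨b, v', n + 1, hv', hp', c⟩⟩, by simp, ?_⟩
      simp only [Bool.false_eq_true, if_false]
      rw [if_neg (by rw [d, b]; exact la10_ne hw1 hq), d]
    · simp only at hb hw1 hq hle hM
      subst hb
      left
      obtain ⟨c1, c2, c3⟩ := chd_spec hle hq
      by_cases e : w = chd univ (q univ w) r
      · refine ⟨(true, w), Or.inl ⟨rfl, ?_⟩, ?_, by simp⟩
        · simp only
          rw [e]
          exact c3
        · simp only [ne_eq, Prod.mk.injEq, true_and]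
          exact hw1
      · obtain ⟨s', a, b, c, d⟩ := exists_kp (τ := τ) h0 hB c2 c1 (s := w) (Or.inr ⟨hw1, rfl, hM, e⟩)
        refine ⟨(false, s'), Or.inr ⟨rfl, a, Or.inr ?_⟩, by simp, ?_⟩
        · simp only [b]
          exact ⟨hq, hle, c⟩
        · simp only [Bool.false_eq_true, if_false]
          rw [if_neg (by rw [d, b]; exact la10_ne hw1 rfl), d]

/-- MODULE la11 (size 3): the side `B`, class II, not constant.

`tree_abs` with `ι = Bool × Nd Q`, `R (true, r) = jj r`, `R (false, s) = gg s`, `o = (true, [])`, `N = {(true, r) | Ok r} ∪ {(false, s) | Ok s, s ≠ []}`, `par (true, s) = (false, s)`, `par (false, s) = (true, q univ s)` if `kp s = q univ s` and `(false, kp s)` otherwise; `ℓ (true, s) = 2 * s.length + 1`, `ℓ (false, s) = 2 * s.length`.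
`R w ⊆ R (par w)`: `jj s ≤ gg s`; `gg s ≤ orig (some r) (kp s)`, which is `jj r` if `kp s = r` and `et (kp s) ≤ gg (kp s)` otherwise.  Siblings: `(true, s)` and `(false, s')` with `par = (false, s)`: `gg s' ≤ et s` disjoint from `jj s`; `(false, s)`, `(false, s')`: `gg_di` (the cells `q univ s = q univ s'` agree).
For `Cel r x` with chain `v`: `M = {(true, r') | Le univ r' r} ∪ {(false, s) | s ≠ [], q univ s ≠ r, Le univ (q univ s) r, Le (DB (q univ s)) s (chd univ (q univ s) r)} ∪ {(false, s) | s ≠ [], q univ s = r, MB (DB r) r x s}`.  Closed under `par` and `f (p x) ∈ R`: `f (p x) ∈ jj r` (`f_jj`), `∈ et (v n) ⊆ gg (v n)`, and `R` increases along `par`.  Children in `M`: `exists_kp` with `t = chd univ r' r` or `t = v n`; `(false, t)` with `t = chd univ r' r` has the child `(true, t)`.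
So for a child `s` of `r`, `Cel r' y`: `f (p y) ∈ gg s ↔ MB (DB r) r y s ∨ (r' ≠ r ∧ Le univ r r' ∧ Le (DB r) s (chd univ r r'))`.  Convergence to `f (p x)`, `Cel r x`: `gg s` is open; the `v n` are children of `r` in `M`, `Sml`. -/
theorem lim_B2 (H : Hyp Q τ) {s : SD Q H.P} (hs : Sy H s) {ψ : BN Q → CC} {p : BN Q → H.P} (hr : Rea H s ψ p)
    (h2 : τ.cl = 2) (hB : τ.cB = false) (w : ℕ → BN Q) (x : BN Q) (hx : bm x ∉ AQ Q) (hw : ∀ n, bm (w n) ∉ AQ Q) :
    Tendsto (fun n => H.f (p (w n))) atTop (𝓝 (H.f (p x))) ↔ RelB τ (fun n => bm (w n)) (bm x) := by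
  have h0 : τ.cl ≠ 0 := by
    rw [h2]
    decide
  have h1 : τ.cl ≠ 1 := by
    rw [h2]
    decide
  constructor
  · intro hT
    refine ⟨fun h => absurd h h0, fun h => absurd h h1, fun _ _ r hr' t ht hq hM => ?_,
      fun _ h => absurd (hB.symm.trans h) (by simp)⟩
    filter_upwards [la10_open hT (la10_mem h0 hB hs hr ht hq hM)] with n hn
    obtain ⟨r', h'⟩ := la10_cell (hw n)
    rcases (la11_tree h2 hB hs hr h' hM.ok ht).1 hn with ⟨h, -⟩ | ⟨-, -, ⟨k1, k2⟩ | ⟨k1, k2, k3⟩⟩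
    · exact absurd h (by simp)
    · simp only at k1 k2
      have e : r' = r := k1.symm.trans hq
      rw [e] at k2
      exact Or.inl k2
    · simp only at k1 k2 k3
      rw [hq] at k1 k2 k3
      exact Or.inr ⟨r', h', fun e => k1 e.symm, k2, k3⟩
  · rintro ⟨-, -, hR, -⟩
    obtain ⟨r, hr'⟩ := la10_cell hx
    obtain ⟨v, hv, hp⟩ := id hr'
    refine la10_tend fun m => ⟨s.gg (v m), ?_, ?_, ?_⟩
    · exact la10_sml (la10_long hv m) (hs.gg_le hB (v m) (hv.ok m) (hv.ne m)).2.1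
    · exact la10_mem h0 hB hs hr (hv.ne m) (hv.q m) ⟨v, m, hv, hp, Le.refl⟩
    · refine (hR h2 hB r hr' (v m) (hv.ne m) (hv.q m) ⟨v, m, hv, hp, Le.refl⟩).mono fun n hn => ?_
      rcases hn with hn | ⟨r', k1, k2, k3, k4⟩
      · exact la10_mem h0 hB hs hr (hv.ne m) (hv.q m) hn
      · refine (la11_tree h2 hB hs hr k1 (hv.ok m) (hv.ne m)).2 (Or.inr ⟨rfl, hv.ne m, Or.inr ?_⟩)
        simp only [hv.q m]
        exact ⟨fun e => k2 e.symm, k3, k4⟩

/-- MODULE la12 (size 2): the side `B`, class II, constant.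

`tree_abs` with `N = {w | Ok w}`, `o = []`, `par = q univ`, `R = jj` (`jj w ≤ gg w ≤ jj (q univ w)`, `jj_di`), `M = {r' | Le univ r' r}` for `Cel r x`: for a child `s` of `r`: `D s ≠ ∅`, `D s ⊆ C r`, `f` is constant on `C r`, so `f (p x) ∈ gg s \ jj s`.  So `f (p x) ∈ jj r' ↔ Le univ r' r` (for `r' ≠ []`; `jj []` contains everything on the side `B`: `gg w ≤ jj []`, or directly).
`→`: `jj r` is open (for `r = []` the first statement is trivial: `Le_nil`), `(jj s)ᶜ` is open.  `←`: given `m`, for the finitely many children `s` of `r` of length `≤ m` (`finite_nodes_le`) eventually `w n` is not in a cell above `s`, but in a cell `r'` above `r`; if `r' = r`: `f (p (w n)) = f (p x)` (`cC`); otherwise `s'' = chd univ r r'` is longer than `m`, `f (p (w n)) ∈ jj r' ⊆ jj s'' ⊆ gg s''` and `f (p x) ∈ gg s''`: they agree below `m`. -/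
private theorem la12_jj {H : Hyp Q τ} {s : SD Q H.P} (hs : Sy H s) (h2 : τ.cl = 2) (hB : τ.cB = true)
    {u v : Nd Q} (h : Le univ u v) (hv : Ok v) : s.jj v ≤ s.jj u := by
  induction h with
  | refl => exact le_rfl
  | @step v hne _ ih =>
    exact ((hs.jj_le h2 v hv hne).1.trans (hs.gg_le2 h2 hB v hv hne).1).trans (ih (la8_okq hv))

private theorem la12_child {H : Hyp Q τ} {s : SD Q H.P} (hs : Sy H s) {ψ : BN Q → CC} {p : BN Q → H.P}
    (hr : Rea H s ψ p) (h2 : τ.cl = 2) (hB : τ.cB = true) {z : BN Q} {r : Nd Q}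
    (hz : Cel r (bm z)) {u : Nd Q} (hu : Ok u) (hne : u ≠ []) (hq : q univ u = r) :
    H.f (p z) ∈ s.gg u ∧ H.f (p z) ∉ s.jj u := by
  have hc : τ.cl ≠ 0 := by rw [h2]; decide
  obtain ⟨d, hd⟩ := hs.D_ne u hu hne
  have h3 : d ∈ s.C r := by
    rw [← hq]
    exact hs.D_C u hu hne hc hd
  have hok : Ok r := by
    rw [← hq]
    exact la8_okq hu
  have h4 : H.f d = H.f (p z) := hs.cC hc hB r hok d h3 (p z) (hr.C z r hz hc)
  have h5 := (hs.gg_le2 h2 hB u hu hne).2.2 hd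
  rw [mem_preimage, h4] at h5
  exact ⟨h5.1, h5.2⟩

private theorem la12_ok {r : Nd Q} {x : ℕ → Mv Q} (h : Cel r x) : Ok r := by
  obtain ⟨v, hv, -⟩ := h
  rw [← hv.q 0]
  exact la8_okq (hv.ok 0)

private theorem la12_mem {H : Hyp Q τ} {s : SD Q H.P} (hs : Sy H s) {ψ : BN Q → CC} {p : BN Q → H.P}
    (hr : Rea H s ψ p) (h2 : τ.cl = 2) (hB : τ.cB = true) {z : BN Q} {r : Nd Q}
    (hz : Cel r (bm z)) {u : Nd Q} (hu : Le univ u r) : H.f (p z) ∈ s.jj u := by
  have hc : τ.cl ≠ 0 := by rw [h2]; decide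
  have hok := la12_ok hz
  exact la12_jj hs h2 hB hu hok (hs.f_jj h2 r hok (hr.C z r hz hc))

private theorem la12_key {H : Hyp Q τ} {s : SD Q H.P} (hs : Sy H s) {ψ : BN Q → CC} {p : BN Q → H.P}
    (hr : Rea H s ψ p) (h2 : τ.cl = 2) (hB : τ.cB = true) {z : BN Q} {r : Nd Q}
    (hz : Cel r (bm z)) {u : Nd Q} (hu : Ok u) (hne : u ≠ []) :
    H.f (p z) ∈ (s.jj u : Set CC) ↔ Le univ u r := by
  have hok := la12_ok hz
  refine tree_abs (ℓ := List.length) (o := ([] : Nd Q)) (N := {w | Ok w}) (par := q univ)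
    (R := fun w => (s.jj w : Set CC)) (M := {w | Le univ w r}) ?_ ?_ ?_ ?_ ?_ ?_ ?_ u hu hne
  · intro w hw h
    exact ⟨la8_okq hw, q_length_lt _ h⟩
  · intro w hw h _
    exact (hs.jj_le h2 w hw h).1.trans (hs.gg_le2 h2 hB w hw h).1
  · intro w hw w' hw' h h' hne he
    have h1 := hs.jj_di h2 hB w w' hw hw' h h' hne he
    exact disjoint_iff_inf_le.mpr fun y hy => by
      have h2 : y ∈ (s.jj w ⊓ s.jj w' : Clopens CC) := hy
      rw [h1.eq_bot] at h2
      exact h2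
  · intro w hw
    exact hok.suffix hw.suffix
  · exact Le_nil _ _
  · intro w hw _
    exact la12_mem hs hr h2 hB hz hw
  · intro w hw
    by_cases hwr : w = r
    · right
      intro w' hw' hne' hq hmem
      exact (la12_child hs hr h2 hB hz hw' hne' (hq.trans hwr)).2 hmem
    · left
      obtain ⟨h3, h4, h5⟩ := chd_spec hw hwr
      exact ⟨chd univ w r, h5, h4, h3⟩

theorem lim_B2c (H : Hyp Q τ) {s : SD Q H.P} (hs : Sy H s) {ψ : BN Q → CC} {p : BN Q → H.P} (hr : Rea H s ψ p)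
    (h2 : τ.cl = 2) (hB : τ.cB = true) (w : ℕ → BN Q) (x : BN Q) (hx : bm x ∉ AQ Q) (hw : ∀ n, bm (w n) ∉ AQ Q) :
    Tendsto (fun n => H.f (p (w n))) atTop (𝓝 (H.f (p x))) ↔ RelB τ (fun n => bm (w n)) (bm x) := by
  have h20 : τ.cl ≠ 0 := by rw [h2]; decide
  have h21 : τ.cl ≠ 1 := by rw [h2]; decide
  have hcel : ∀ z : BN Q, bm z ∉ AQ Q → ∃ r, Cel r (bm z) := by
    intro z hz
    obtain ⟨r, v, hv, hpr⟩ := la9_chain hz
    exact ⟨r, v, hv, hpr⟩
  constructor
  · intro ht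
    refine ⟨fun h => absurd h h20, fun h => absurd h h21, fun _ h => ?_, fun _ _ r hcr => ⟨?_, ?_⟩⟩
    · rw [hB] at h
      exact absurd h (by decide)
    · by_cases hr0 : r = []
      · subst hr0
        refine Eventually.of_forall fun n => ?_
        obtain ⟨r', hr'⟩ := hcel _ (hw n)
        exact ⟨r', hr', Le_nil _ _⟩
      · have h3 : H.f (p x) ∈ (s.jj r : Set CC) := la12_mem hs hr h2 hB hcr Le.refl
        filter_upwards [ht ((s.jj r).isOpen.mem_nhds h3)] with n hn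
        obtain ⟨r', hr'⟩ := hcel _ (hw n)
        exact ⟨r', hr', (la12_key hs hr h2 hB hr' (la12_ok hcr) hr0).1 hn⟩
    · intro u hu hq
      by_cases hok : Ok u
      · have h3 : H.f (p x) ∈ ((s.jj u : Set CC))ᶜ := (la12_child hs hr h2 hB hcr hok hu hq).2
        filter_upwards [ht ((s.jj u).isClosed.isOpen_compl.mem_nhds h3)] with n hn
        rintro ⟨r', hr', hle⟩
        exact hn (la12_mem hs hr h2 hB hr' hle)
      · refine Eventually.of_forall fun n => ?_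
        rintro ⟨r', hr', hle⟩
        exact hok ((la12_ok hr').suffix hle.suffix)
  · intro hR
    rw [la8_tendsto]
    intro i
    obtain ⟨r, hcr⟩ := hcel x hx
    obtain ⟨h3, h4⟩ := hR.2.2.2 h2 hB r hcr
    have hfin : {u : Nd Q | Ok u ∧ u.length ≤ i}.Finite := finite_nodes_le i
    have h5 : ∀ᶠ n in atTop, ∀ u ∈ {u : Nd Q | Ok u ∧ u.length ≤ i}, u ≠ [] → q univ u = r →
        ¬ ∃ r', Cel r' (bm (w n)) ∧ Le univ u r' := by
      rw [Filter.eventually_all_finite hfin]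
      intro u _
      by_cases hu : u ≠ [] ∧ q univ u = r
      · filter_upwards [h4 u hu.1 hu.2] with n hn _ _
        exact hn
      · exact Eventually.of_forall fun n ha hb => absurd ⟨ha, hb⟩ hu
    filter_upwards [h3, h5] with n hn hn'
    obtain ⟨r', hr', hle⟩ := hn
    by_cases he : r = r'
    · subst he
      have h6 := hs.cC h20 hB r (la12_ok hcr) _ (hr.C _ r hr' h20) _ (hr.C _ r hcr h20)
      exact congrFun h6 i
    · obtain ⟨h6, h7, h8⟩ := chd_spec hle he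
      set u := chd univ r r' with hu
      have hok : Ok u := (la12_ok hr').suffix h8.suffix
      have hlen : i < u.length := by
        by_contra hcon
        exact hn' u ⟨hok, by omega⟩ h7 h6 ⟨r', hr', h8⟩
      have h9 : H.f (p (w n)) ∈ s.gg u := (hs.jj_le h2 u hok h7).1 (la12_mem hs hr h2 hB hr' h8)
      have h10 : H.f (p x) ∈ s.gg u := (la12_child hs hr h2 hB hcr hok h7 h6).1
      exact (hs.gg_le2 h2 hB u hok h7).2.1 _ h9 _ h10 i hlen

/-- The limit theorem. -/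
theorem lim_main (H : Hyp Q τ) (hC : H.Cls) {V : Set CC} (hV : IsClopen V) (hVS : ∀ y ∈ H.S0, H.f y ∈ V)
    (hVE : ∀ y ∈ H.E0, H.f y ∉ V) :
    ∃ (ψ : BN Q → CC) (p : BN Q → H.P), Continuous ψ ∧ Function.Injective ψ ∧ (∀ x, H.ξ (p x) = ψ x) ∧
      Typ τ fun x => H.f (p x) := by
  obtain ⟨s, hs⟩ := exists_Sy H hC
  obtain ⟨ψ, p, hr⟩ := exists_Rea H hs
  refine ⟨ψ, p, hr.cont, hr.inj, hr.ξ, ⟨⟨V, hV, fun x => ⟨fun h => ?_, fun h => hVS _ (hr.A0 x h)⟩⟩, ?_, ?_⟩⟩
  · by_contra hx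
    exact hVE _ (hr.B0 x hx) h
  · intro w x hx hw
    exact lim_A H hs hr w x hx hw
  · intro w x hx hw
    by_cases h0 : τ.cl = 0
    · exact lim_B0 H hs hr h0 w x hx hw
    by_cases h1 : τ.cl = 1
    · exact lim_B1 H hs hr h1 w x hx hw
    have h2 : τ.cl = 2 := by
      have : ∀ i : Fin 3, i ≠ 0 → i ≠ 1 → i = 2 := by decide
      exact this _ h0 h1
    rcases hB : τ.cB with _ | _
    · exact lim_B2 H hs hr h2 hB w x hx hw
    · exact lim_B2c H hs hr h2 hB w x hx hw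

private theorem la13_tendsto {g g' : BN Q → CC} (h : Typ τ g) (h' : Typ τ g') {w : ℕ → BN Q}
    {x : BN Q} (hw : Tendsto (fun n => g (w n)) atTop (𝓝 (g x))) : Tendsto (fun n => g' (w n)) atTop (𝓝 (g' x)) := by
  obtain ⟨V, hV, hVA⟩ := h.clopen
  by_cases hx : bm x ∈ AQ Q
  · have h1 : ∀ᶠ n in atTop, bm (w n) ∈ AQ Q := by
      have h2 : ∀ᶠ n in atTop, g (w n) ∈ V := hw (hV.isOpen.mem_nhds ((hVA x).2 hx))
      exact h2.mono fun n hn => (hVA _).1 hn
    have h3 : ∀ᶠ n in atTop, (if bm (w n) ∈ AQ Q then w n else x) = w n := h1.mono fun n hn => if_pos hn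
    have h4 : ∀ n, bm (if bm (w n) ∈ AQ Q then w n else x : BN Q) ∈ AQ Q := by
      intro n
      by_cases hn : bm (w n) ∈ AQ Q
      · rw [if_pos hn]
        exact hn
      · rw [if_neg hn]
        exact hx
    have h5 := (h.a (fun n => if bm (w n) ∈ AQ Q then w n else x) x hx h4).1
      (hw.congr' (h3.mono fun n hn => (congrArg g hn).symm))
    have h6 := (h'.a (fun n => if bm (w n) ∈ AQ Q then w n else x) x hx h4).2 h5
    exact h6.congr' (h3.mono fun n hn => congrArg g' hn)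
  · have h1 : ∀ᶠ n in atTop, bm (w n) ∉ AQ Q := by
      have h2 : ∀ᶠ n in atTop, g (w n) ∈ Vᶜ := hw (hV.compl.isOpen.mem_nhds fun hc => hx ((hVA x).1 hc))
      exact h2.mono fun n hn hc => hn ((hVA _).2 hc)
    have h3 : ∀ᶠ n in atTop, (if bm (w n) ∉ AQ Q then w n else x) = w n := h1.mono fun n hn => if_pos hn
    have h4 : ∀ n, bm (if bm (w n) ∉ AQ Q then w n else x : BN Q) ∉ AQ Q := by
      intro n
      by_cases hn : bm (w n) ∉ AQ Q
      · rw [if_pos hn]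
        exact hn
      · rw [if_neg hn]
        exact hx
    have h5 := (h.b (fun n => if bm (w n) ∉ AQ Q then w n else x) x hx h4).1
      (hw.congr' (h3.mono fun n hn => (congrArg g hn).symm))
    have h6 := (h'.b (fun n => if bm (w n) ∉ AQ Q then w n else x) x hx h4).2 h5
    exact h6.congr' (h3.mono fun n hn => congrArg g' hn)

private theorem la13_eq {g g' : BN Q → CC} (h : Typ τ g) (h' : Typ τ g') {x x' : BN Q}
    (hx : g x = g x') : g' x = g' x' := by
  have h1 : Tendsto (fun _ : ℕ => g x) atTop (𝓝 (g x')) := by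
    rw [← hx]
    exact tendsto_const_nhds
  have h2 := la13_tendsto h h' (w := fun _ => x) h1
  exact tendsto_nhds_unique tendsto_const_nhds h2

private theorem la13_map {g g' : BN Q → CC} (h : Typ τ g) (h' : Typ τ g') :
    ∃ ρ : range g → range g', Continuous ρ ∧ ∀ x, (ρ ⟨g x, mem_range_self x⟩ : CC) = g' x := by
  have hc : ∀ y : range g, ∃ x, g x = y := fun y => y.2
  choose c hc using hc
  refine ⟨fun y => ⟨g' (c y), mem_range_self _⟩, ?_, fun x => la13_eq h h' (hc ⟨g x, mem_range_self x⟩)⟩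
  rw [continuous_iff_seqContinuous]
  intro y x hy
  rw [tendsto_subtype_rng] at hy ⊢
  have h1 : Tendsto (fun n => g (c (y n))) atTop (𝓝 (g (c x))) := by
    simp only [hc]
    exact hy
  exact la13_tendsto h h' h1

/-- MODULE la13 (size 2): functions of the same type have homeomorphic images; as `Bs2/Fin.lean` (`z1`: replace `Tr`, `(x : ℕ → ℕ) ∈ AA`, `RelA i`, `RelB j` by `BN Q`, `bm x ∈ AQ Q`, `RelA τ`, `RelB τ`).
`Typ.not_baireClass`: `{x | bm x ∈ AQ Q} = g ⁻¹' V`, `Sg_of_baireClass`, `not_Sg_AN`.  `Typ.up`: as `Bs2/Fin.lean` `z3`, with `Sg_of_baireClass_open` (`W` open in `F.Y`), `Sg.preimage`. -/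
theorem Typ.homeo {g g' : BN Q → CC} (h : Typ τ g) (h' : Typ τ g') :
    ∃ ρ : range g → range g', IsEmbedding ρ ∧ ∀ x, (ρ ⟨g x, mem_range_self x⟩ : CC) = g' x := by
  obtain ⟨ρ, hρ, hρe⟩ := la13_map h h'
  obtain ⟨ρ', hρ', hρe'⟩ := la13_map h' h
  refine ⟨ρ, ?_, hρe⟩
  have hl : Function.LeftInverse ρ' ρ := by
    rintro ⟨_, x, rfl⟩
    have h1 : ρ ⟨g x, mem_range_self x⟩ = ⟨g' x, mem_range_self x⟩ := Subtype.ext (hρe x)
    apply Subtype.ext
    show (ρ' (ρ ⟨g x, mem_range_self x⟩) : CC) = g x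
    rw [h1]
    exact hρe' x
  exact hl.isEmbedding hρ' hρ

theorem Typ.not_baireClass {g : BN Q → CC} (h : Typ τ g) : ¬ Bs2.BaireClass Q.kap g := by
  intro hb
  obtain ⟨V, hV, hVA⟩ := h.clopen
  have e : AN Q = g ⁻¹' V := Set.ext fun x => (hVA x).symm
  apply not_Sg_AN Q
  rw [e]
  exact Sg_of_baireClass hb hV

theorem Typ.up {g : BN Q → CC} (h : Typ τ g) {F : Bs2.BorelFn} {σ : BN Q → F.X} {ρ : range g → range F.f}
    (hσ : IsEmbedding σ) (hρ : IsEmbedding ρ) (hc : ∀ x, (ρ ⟨g x, mem_range_self x⟩ : F.Y) = F.f (σ x)) :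
    ¬ Bs2.BaireClass Q.kap F.f := by
  intro hb
  obtain ⟨V, hV, hVA⟩ := h.clopen
  have h1 : IsOpen (Subtype.val ⁻¹' V : Set (range g)) := hV.isOpen.preimage continuous_subtype_val
  obtain ⟨W', hW', hWe'⟩ := hρ.isInducing.isOpen_iff.1 h1
  obtain ⟨W, hW, rfl⟩ := isOpen_induced_iff.1 hW'
  have h2 : Sg (Q.kap + 1) (σ ⁻¹' (F.f ⁻¹' W)) := (Sg_of_baireClass_open F.zeroY hb hW).preimage hσ.continuous
  have e : AN Q = σ ⁻¹' (F.f ⁻¹' W) := by
    ext x
    have h3 : (⟨g x, mem_range_self x⟩ : range g) ∈ ρ ⁻¹' (Subtype.val ⁻¹' W) ↔ g x ∈ V := by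
      rw [hWe']
      exact Iff.rfl
    have h4 : x ∈ AN Q ↔ bm x ∈ AQ Q := Iff.rfl
    rw [h4, ← hVA x, ← h3, mem_preimage, mem_preimage, mem_preimage, mem_preimage, hc x]
  apply not_Sg_AN Q
  rw [e]
  exact h2

end Pool.Agent.Bsw
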