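import Pool.Agent.Bsw.Cal

/-!
# The tree

`L` is the set of levels, a well-order with greatest element.  A node is a list of moves, newest first; a move is the list of
its drops `(e, n, b)`: at the level `e` to the suffix of length `n`, with the new budget `b`; levels increase along a move.
`tg D m t`: the target reached from `t` by the drops of `m` with levels in `D`.  `q D w`: the parent of `w` of order `D`.
`Le D p w`: `p` is an ancestor of `w` of order `D`.
-/

set_option autoImplicit false

open Set Filter Topology TopologicalSpace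
open scoped Classical

namespace Pool.Agent.Bsw

/-- The parameters of the tree. -/
structure Par where
  /-- levels -/
  L : Type
  /-- linear order -/
  [lin : LinearOrder L]
  /-- well-order -/
  [wf : WellFoundedLT L]
  /-- greatest element -/
  [top : OrderTop L]
  /-- the ordinals of the levels: exactly the ordinals `1 ≤ k ≤ o ⊤` -/
  o : L → Ordinal.{0}
  /-- strictly increasing -/
  o_mono : StrictMono o
  /-- positive -/
  o_one : ∀ e, 1 ≤ o e
  /-- all ordinals -/
  o_surj : ∀ k, 1 ≤ k → k ≤ o ⊤ → ∃ e, o e = k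
  /-- the enumeration of the levels -/
  ι : L → ℕ
  /-- injective -/
  ι_inj : Function.Injective ι
  /-- successor mode (`true`) or limit mode (`false`) -/
  md : Bool
  /-- in limit mode the top level is a limit ordinal -/
  lim : md = false → Order.IsSuccLimit (o ⊤)

attribute [instance] Par.lin Par.wf Par.top

/-- The order of the system: `o ⊤ + 1` in successor mode, `o ⊤` in limit mode. -/
noncomputable def Par.kap (Q : Par) : Ordinal.{0} := if Q.md = true then Q.o ⊤ + 1 else Q.o ⊤

variable {Q : Par}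

/-- A move: a list of drops `(e, n, b)`. -/
abbrev Mv (Q : Par) := List (Q.L × ℕ × ℕ)

/-- A node: a list of moves, newest first. -/
abbrev Nd (Q : Par) := List (Mv Q)

/-- The suffix of length `n`. -/
def lastN {α : Type} (n : ℕ) (u : List α) : List α := u.drop (u.length - n)

/-- The target of the drops of the move with levels in `D`, from `t`. -/
noncomputable def tg (D : Set Q.L) : Mv Q → Nd Q → Nd Q
  | [], t => t
  | x :: l, t => if x.1 ∈ D then tg D l (lastN x.2.1 t) else t

/-- The parent of order `D`. -/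
noncomputable def q (D : Set Q.L) : Nd Q → Nd Q
  | [] => []
  | m :: u => tg D m u

/-- `p` is an ancestor of `w` of order `D`, or equal. -/
inductive Le (D : Set Q.L) (p : Nd Q) : Nd Q → Prop
  | refl : Le D p p
  | step {w : Nd Q} : w ≠ [] → Le D p (q D w) → Le D p w

/-- MODULE tr1 (size 1): lists.  All by induction / `List.suffix` lemmas. -/
theorem lastN_suffix {α : Type} (n : ℕ) (u : List α) : lastN n u <:+ u := by
  exact List.drop_suffix _ _

theorem lastN_length {α : Type} {n : ℕ} {u : List α} (h : n ≤ u.length) : (lastN n u).length = n := by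
  rw [lastN, List.length_drop]
  omega

theorem lastN_of_suffix {α : Type} {p u : List α} (h : p <:+ u) : lastN p.length u = p := by
  obtain ⟨s, rfl⟩ := h
  rw [lastN, List.length_append, Nat.add_sub_cancel, List.drop_left]

theorem lastN_lastN {α : Type} {n k : ℕ} {u : List α} (h : n ≤ k) : lastN n (lastN k u) = lastN n u := by
  simp only [lastN, List.drop_drop, List.length_drop]
  congr 1
  omega

theorem tg_suffix (D : Set Q.L) (m : Mv Q) (t : Nd Q) : tg D m t <:+ t := by
  induction m generalizing t with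
  | nil => exact List.suffix_refl _
  | cons x l ih =>
    rw [tg]
    split_ifs
    · exact (ih _).trans (lastN_suffix _ _)
    · exact List.suffix_refl _

theorem q_nil (D : Set Q.L) : q D ([] : Nd Q) = [] := rfl

theorem q_empty (m : Mv Q) (u : Nd Q) : q ∅ (m :: u) = u := by
  cases m with
  | nil => rfl
  | cons x l => simp [q, tg]

theorem q_suffix (D : Set Q.L) (m : Mv Q) (u : Nd Q) : q D (m :: u) <:+ u := by
  exact tg_suffix D m u

theorem q_length_lt (D : Set Q.L) {w : Nd Q} (h : w ≠ []) : (q D w).length < w.length := by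
  cases w with
  | nil => exact absurd rfl h
  | cons m u =>
    have h1 := (q_suffix D m u).length_le
    simp only [List.length_cons]
    omega

theorem Le_iff (D : Set Q.L) {p w : Nd Q} : Le D p w ↔ p = w ∨ (w ≠ [] ∧ Le D p (q D w)) := by
  constructor
  · intro h
    cases h with
    | refl => exact Or.inl rfl
    | step h1 h2 => exact Or.inr ⟨h1, h2⟩
  · rintro (rfl | ⟨h1, h2⟩)
    · exact Le.refl
    · exact Le.step h1 h2

private theorem tr1_q_suffix (D : Set Q.L) (w : Nd Q) : q D w <:+ w := by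
  cases w with
  | nil => exact List.suffix_refl _
  | cons m u => exact (q_suffix D m u).trans (List.suffix_cons m u)

theorem Le.suffix {D : Set Q.L} {p w : Nd Q} (h : Le D p w) : p <:+ w := by
  induction h with
  | refl => exact List.suffix_refl _
  | step hw _ ih => exact ih.trans (tr1_q_suffix D _)

theorem Le.length_le {D : Set Q.L} {p w : Nd Q} (h : Le D p w) : p.length ≤ w.length := by
  exact h.suffix.length_le

theorem Le.eq_of_length {D : Set Q.L} {p w : Nd Q} (h : Le D p w) (h' : w.length ≤ p.length) : p = w := by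
  exact h.suffix.eq_of_length (le_antisymm h.length_le h')

theorem Le.trans {D : Set Q.L} {p w v : Nd Q} (h : Le D p w) (h' : Le D w v) : Le D p v := by
  induction h' with
  | refl => exact h
  | step hw _ ih => exact Le.step hw ih

/-- `Le D p w`, `p ≠ w`: then `Le D p (q D w)`. -/
theorem Le.le_q {D : Set Q.L} {p w : Nd Q} (h : Le D p w) (hne : p ≠ w) : w ≠ [] ∧ Le D p (q D w) := by
  exact ((Le_iff D).1 h).resolve_left hne

theorem Le.total {D : Set Q.L} {p p' w : Nd Q} (h : Le D p w) (h' : Le D p' w) : Le D p p' ∨ Le D p' p := by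
  induction h with
  | refl => exact Or.inr h'
  | step hw h1 ih =>
    rcases (Le_iff D).1 h' with rfl | ⟨_, h2⟩
    · exact Or.inl (Le.step hw h1)
    · exact ih h2

theorem Le_nil (D : Set Q.L) (w : Nd Q) : Le D [] w := by
  by_cases hw : w = []
  · rw [hw]
    exact Le.refl
  · exact Le.step hw (Le_nil D (q D w))
termination_by w.length
decreasing_by exact q_length_lt D hw

theorem q_le (D : Set Q.L) (w : Nd Q) : Le D (q D w) w := by
  by_cases hw : w = []
  · rw [hw]
    exact Le.refl
  · exact Le.step hw Le.refl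

/-- The child of `p` of order `D` below `w`. -/
noncomputable def chd (D : Set Q.L) (p : Nd Q) (w : Nd Q) : Nd Q :=
  if h : w = [] then [] else if q D w = p then w else chd D p (q D w)
termination_by w.length
decreasing_by exact q_length_lt D h

/-- MODULE tr2 (size 1): children.  Induction on the length of `w` (`Le_iff`). -/
theorem chd_eq (D : Set Q.L) (p w : Nd Q) :
    chd D p w = if w = [] then [] else if q D w = p then w else chd D p (q D w) := by
  rw [chd]
  by_cases hw : w = []
  · rw [dif_pos hw, if_pos hw]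
  · rw [dif_neg hw, if_neg hw]

theorem chd_spec {D : Set Q.L} {p w : Nd Q} (h : Le D p w) (hne : p ≠ w) :
    q D (chd D p w) = p ∧ chd D p w ≠ [] ∧ Le D (chd D p w) w := by
  induction h with
  | refl => exact absurd rfl hne
  | @step w hw h1 ih =>
    rw [chd_eq, if_neg hw]
    by_cases e : q D w = p
    · rw [if_pos e]
      exact ⟨e, hw, Le.refl⟩
    · rw [if_neg e]
      obtain ⟨a, b, c⟩ := ih (Ne.symm e)
      exact ⟨a, b, Le.step hw c⟩

/-- The child is determined. -/
theorem chd_unique {D : Set Q.L} {p s w : Nd Q} (hs : s ≠ []) (hp : q D s = p) (h : Le D s w) : chd D p w = s := by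
  induction h with
  | refl => rw [chd_eq, if_neg hs, if_pos hp]
  | @step w hw h1 ih =>
    have e : q D w ≠ p := by
      intro e
      rw [e] at h1
      have h2 := h1.length_le
      have h3 := q_length_lt D hs
      rw [hp] at h3
      omega
    rw [chd_eq, if_neg hw, if_neg e]
    exact ih

theorem chd_of_le {D : Set Q.L} {p t w : Nd Q} (h : Le D p t) (hne : p ≠ t) (h' : Le D t w) :
    chd D p w = chd D p t := by
  obtain ⟨a, b, c⟩ := chd_spec h hne
  exact chd_unique b a (c.trans h')

theorem chd_suffix {D : Set Q.L} {p w : Nd Q} : chd D p w <:+ w := by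
  rw [chd_eq]
  split_ifs with hw e
  · exact List.nil_suffix
  · exact List.suffix_refl _
  · exact chd_suffix.trans (tr1_q_suffix D w)
termination_by w.length
decreasing_by exact q_length_lt D hw

/-- The depth. -/
noncomputable def dep (w : Nd Q) : ℕ := if h : w = [] then 0 else dep (q (Iio ⊤) w) + 1
termination_by w.length
decreasing_by exact q_length_lt _ h

theorem dep_nil : dep ([] : Nd Q) = 0 := by
  rw [dep, dif_pos rfl]

theorem dep_of_ne {w : Nd Q} (h : w ≠ []) : dep w = dep (q (Iio ⊤) w) + 1 := by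
  conv_lhs => rw [dep]
  rw [dif_neg h]

theorem dep_le_length (w : Nd Q) : dep w ≤ w.length := by
  by_cases hw : w = []
  · rw [hw, dep_nil]
    exact Nat.zero_le _
  · rw [dep_of_ne hw]
    have h1 := dep_le_length (q (Iio ⊤) w)
    have h2 := q_length_lt (Iio ⊤) hw
    omega
termination_by w.length
decreasing_by exact q_length_lt _ hw

/-- The budget of `w` at the level `e`. -/
noncomputable def bud (e : Q.L) : Nd Q → ℕ
  | [] => 0
  | m :: u => ((m.find? (fun x => decide (x.1 = e))).map (fun x => x.2.2)).getD (m :: u).length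

/-- The drop at the level `e` to `p` from `t`, new budget `b`, is allowed. -/
def Alw (e : Q.L) (p t : Nd Q) (b : ℕ) : Prop :=
  p ≠ t ∧ Le (Iic e) p t ∧ (e ≠ ⊤ → Q.ι e ≤ dep p ∧ b < bud e (chd (Iic e) p t)) ∧
    (e = ⊤ → (Q.md = false → p = q univ t) ∧ b = 0)

/-- The remaining drops `m` from `t` are allowed; `k` is the last level. -/
def OkP : WithBot Q.L → Nd Q → Mv Q → Prop
  | _, _, [] => True
  | k, t, x :: l => k < x.1 ∧ x.2.1 < t.length ∧ Alw x.1 (lastN x.2.1 t) t x.2.2 ∧ OkP x.1 (lastN x.2.1 t) l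

/-- The nodes of the tree. -/
def Ok : Nd Q → Prop
  | [] => True
  | m :: u => Ok u ∧ OkP ⊥ u m

/-- MODULE tr3 (size 2): monotonicity.

`Ok.le_q_q`: for lower sets `D' ⊆ D`: `Le D' (q D w) (q D' w)`.  `Ok.mono`: `Le D p w → Le D' p w`.

Proof.  Simultaneous induction on the length of `w`.  For `w = m :: u`: claim for all `t <:+ u` and paths `l` with `OkP k t l` and `D'` : `Le D' (tg D l t) (tg D' l t)`, by induction on `l`: `l = []` is trivial; `l = x :: l'`, `e = x.1`: if
`e ∈ D'` then `e ∈ D`, induction; if `e ∉ D`: both are `t`; if `e ∈ D \ D'`: `tg D' l t = t`, `Le D' (tg D l' p) (tg D' l' p)` with `p = lastN _ t` and `tg D' l' p = p` (levels in `l'` are `> e`, so not in `D'`: `tg_of_lt`), and `Le D' p t` from `Le (Iic e) p t` and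
the induction hypothesis for `t` (`t` is `Ok`, shorter than `w`; `D' ⊆ Iic e` as `D'` is a lower set without `e`). Then `Le D p w → Le D' p w`: `p = w` or `Le D p (q D w)`, so `Le D' p (q D w)`, `Le D' (q D w) (q D' w)`. -/
theorem Ok.suffix {p w : Nd Q} (h : Ok w) (hp : p <:+ w) : Ok p := by
  induction w with
  | nil =>
    rw [List.suffix_nil.1 hp]
    trivial
  | cons m u ih =>
    rcases List.suffix_cons_iff.1 hp with rfl | h1
    · exact h
    · exact ih h.1 h1

/-- The levels of the remaining drops are larger. -/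
theorem OkP.lt {k : WithBot Q.L} {t : Nd Q} {l : Mv Q} (h : OkP k t l) : ∀ x ∈ l, k < x.1 := by
  induction l generalizing k t with
  | nil =>
    intro x hx
    exact absurd hx (List.not_mem_nil)
  | cons x l ih =>
    intro y hy
    rcases List.mem_cons.1 hy with rfl | hy
    · exact h.1
    · exact h.1.trans (ih h.2.2.2 y hy)

theorem OkP.mono {k k' : WithBot Q.L} (hk : k' ≤ k) {t : Nd Q} {l : Mv Q} (h : OkP k t l) : OkP k' t l := by
  cases l with
  | nil => trivial
  | cons x l => exact ⟨hk.trans_lt h.1, h.2⟩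

theorem tg_of_lt {D : Set Q.L} (hD : IsLowerSet D) {e : Q.L} (he : e ∉ D) {l : Mv Q} (hl : ∀ x ∈ l, e ≤ x.1) (t : Nd Q) :
    tg D l t = t := by
  cases l with
  | nil => rfl
  | cons x l =>
    rw [tg, if_neg]
    exact fun hx => he (hD (hl x (List.mem_cons_self)) hx)

private theorem tr3_le_tg {l : Mv Q} : ∀ {k : WithBot Q.L} {t : Nd Q}, Ok t → OkP k t l →
    (∀ t', t' <:+ t → Ok t' → ∀ D D' : Set Q.L, IsLowerSet D → IsLowerSet D' → D' ⊆ D →
      ∀ p, Le D p t' → Le D' p t') →
    ∀ {D D' : Set Q.L}, IsLowerSet D → IsLowerSet D' → D' ⊆ D → Le D' (tg D l t) (tg D' l t) := by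
  induction l with
  | nil =>
    intro k t _ _ _ D D' _ _ _
    exact Le.refl
  | cons x l ih =>
    intro k t ht h hm D D' hD hD' hs
    have hsuf : lastN x.2.1 t <:+ t := lastN_suffix _ _
    have hOk : Ok (lastN x.2.1 t) := ht.suffix hsuf
    have hrec := ih hOk h.2.2.2 (fun t' h1 => hm t' (h1.trans hsuf)) hD hD' hs
    by_cases h1 : x.1 ∈ D'
    · rw [tg, tg, if_pos h1, if_pos (hs h1)]
      exact hrec
    · by_cases h2 : x.1 ∈ D
      · rw [tg, tg, if_neg h1, if_pos h2]
        have h3 : tg D' l (lastN x.2.1 t) = lastN x.2.1 t :=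
          tg_of_lt hD' h1 (fun y hy => (WithBot.coe_lt_coe.1 (OkP.lt h.2.2.2 y hy)).le) _
        rw [h3] at hrec
        refine hrec.trans ?_
        refine hm t (List.suffix_refl _) ht (Iic x.1) D' (isLowerSet_Iic _) hD' ?_ _ h.2.2.1.2.1
        intro y hy
        by_contra hyx
        exact h1 (hD' (not_le.1 hyx).le hy)
      · rw [tg, tg, if_neg h1, if_neg h2]
        exact Le.refl

private theorem tr3_mono : ∀ (n : ℕ) (w : Nd Q), w.length ≤ n → Ok w → ∀ {D D' : Set Q.L}, IsLowerSet D →
    IsLowerSet D' → D' ⊆ D → ∀ p, Le D p w → Le D' p w := by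
  intro n
  induction n with
  | zero =>
    intro w hw _ D D' _ _ _ p hp
    have hw0 : w = [] := List.length_eq_zero_iff.1 (Nat.le_zero.1 hw)
    rcases (Le_iff D).1 hp with rfl | ⟨h1, _⟩
    · exact Le.refl
    · exact absurd hw0 h1
  | succ n ih =>
    intro w hw hOk D D' hD hD' hs p hp
    rcases (Le_iff D).1 hp with rfl | ⟨h1, h2⟩
    · exact Le.refl
    · refine Le.step h1 ?_
      cases w with
      | nil => exact absurd rfl h1
      | cons m u =>
        have hu : u.length ≤ n := by
          simp only [List.length_cons] at hw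
          omega
        have hm : ∀ t', t' <:+ u → Ok t' → ∀ D D' : Set Q.L, IsLowerSet D → IsLowerSet D' → D' ⊆ D →
            ∀ p, Le D p t' → Le D' p t' := fun t' h3 h4 D D' h5 h6 h7 p h8 =>
          ih t' (h3.length_le.trans hu) h4 h5 h6 h7 p h8
        have h3 : Le D' (tg D m u) (tg D' m u) := tr3_le_tg hOk.1 hOk.2 hm hD hD' hs
        have h4 : Le D' p (tg D m u) :=
          hm _ (tg_suffix D m u) (hOk.1.suffix (tg_suffix D m u)) D D' hD hD' hs p h2
        exact h4.trans h3

theorem OkP.le_tg {k : WithBot Q.L} {t : Nd Q} (ht : Ok t) {l : Mv Q} (h : OkP k t l) {D D' : Set Q.L}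
    (hD : IsLowerSet D) (hD' : IsLowerSet D') (hs : D' ⊆ D) : Le D' (tg D l t) (tg D' l t) := by
  exact tr3_le_tg ht h (fun t' _ h1 _ _ hD1 hD1' hs1 p hp => tr3_mono t'.length t' le_rfl h1 hD1 hD1' hs1 p hp)
    hD hD' hs

theorem Ok.le_q_q {w : Nd Q} (h : Ok w) {D D' : Set Q.L} (hD : IsLowerSet D) (hD' : IsLowerSet D') (hs : D' ⊆ D) :
    Le D' (q D w) (q D' w) := by
  cases w with
  | nil => exact Le.refl
  | cons m u => exact OkP.le_tg h.1 h.2 hD hD' hs

theorem Ok.mono {w : Nd Q} (h : Ok w) {D D' : Set Q.L} (hD : IsLowerSet D) (hD' : IsLowerSet D') (hs : D' ⊆ D)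
    {p : Nd Q} (hp : Le D p w) : Le D' p w := by
  exact tr3_mono w.length w le_rfl h hD hD' hs p hp

private theorem tr4_tg_of_not_mem {D : Set Q.L} {l : Mv Q} (hl : ∀ x ∈ l, x.1 ∉ D) (t : Nd Q) : tg D l t = t := by
  cases l with
  | nil => rfl
  | cons x l => rw [tg, if_neg (hl x List.mem_cons_self)]

private theorem tr4_tg_later {k : Q.L} {t : Nd Q} {l : Mv Q} (h : OkP k t l) (t' : Nd Q) : tg (Iic k) l t' = t' :=
  tr4_tg_of_not_mem (fun x hx hk => absurd (WithBot.coe_lt_coe.1 (OkP.lt h x hx)) (not_lt.2 hk)) t'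

private theorem tr4_path (e : Q.L) {l : Mv Q} : ∀ {k : WithBot Q.L} {t : Nd Q}, OkP k t l →
    Le (Iic e) (tg (Iic e) l t) (tg (Iio e) l t) := by
  induction l with
  | nil =>
    intro k t _
    exact Le.refl
  | cons x l ih =>
    intro k t h
    rcases lt_trichotomy x.1 e with h1 | h1 | h1
    · rw [tg, tg, if_pos (show x.1 ∈ Iic e from h1.le), if_pos (show x.1 ∈ Iio e from h1)]
      exact ih h.2.2.2
    · rw [tg, tg, if_pos (show x.1 ∈ Iic e from h1.le), if_neg (show x.1 ∉ Iio e from fun h2 => absurd h1 (ne_of_lt h2))]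
      rw [← h1, tr4_tg_later h.2.2.2]
      exact h.2.2.1.2.1
    · rw [tg, tg, if_neg (show x.1 ∉ Iic e from not_le.2 h1), if_neg (show x.1 ∉ Iio e from not_lt.2 h1.le)]
      exact Le.refl

/-- MODULE tr4 (size 2): coherence.

`Ok.le_q_Iic`: `Le (Iic e) (q (Iic e) w) (q (Iio e) w)`: the drop at the level `e` (if there is one) goes to an ancestor of order `Iic e`.  (Induction on the path: `x.1 < e`: continue; `x.1 = e`: `tg (Iio e) = t`, `tg (Iic e) (x :: l') t = p` as the later levels
are larger, `Le (Iic e) p t`; `x.1 > e`: both are `t`.)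

`coh`: if `Le (Iic e) p w`, `Le (Iio e) t w` and `p` is not longer than `t` then `Le (Iic e) p t`.  Proof: induction on `w`; `t = w` trivial; otherwise `Le (Iio e) t (q (Iio e) w)`; `p ≠ w` (length), `Le (Iic e) p (q (Iic e) w)`, and
`Le (Iic e) (q (Iic e) w) (q (Iio e) w)`, so `Le (Iic e) p (q (Iio e) w)`; induction. -/
theorem Ok.le_q_Iic {w : Nd Q} (h : Ok w) (e : Q.L) : Le (Iic e) (q (Iic e) w) (q (Iio e) w) := by
  cases w with
  | nil => exact Le.refl
  | cons m u => exact tr4_path e h.2

theorem coh {w : Nd Q} (h : Ok w) {e : Q.L} {p t : Nd Q} (hp : Le (Iic e) p w) (ht : Le (Iio e) t w)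
    (hl : p.length ≤ t.length) : Le (Iic e) p t := by
  induction ht with
  | refl => exact hp
  | @step w hw h1 ih =>
    have hsuf : q (Iio e) w <:+ w := tr1_q_suffix _ _
    have hpw : p ≠ w := by
      rintro rfl
      have h2 := h1.length_le
      have h3 := q_length_lt (Iio e) hw
      omega
    exact ih (h.suffix hsuf) ((hp.le_q hpw).2.trans (h.le_q_Iic e))

theorem Iic_top_eq : (Iic ⊤ : Set Q.L) = univ := by
  exact Set.Iic_top

theorem coh_top {w : Nd Q} (h : Ok w) {p t : Nd Q} (hp : Le univ p w) (ht : Le (Iio ⊤) t w)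
    (hl : p.length ≤ t.length) : Le univ p t := by
  rw [← Iic_top_eq] at hp ⊢
  exact coh h hp ht hl

private theorem tr4_drop (e : Q.L) {l : Mv Q} : ∀ {k : WithBot Q.L} {t : Nd Q}, OkP k t l →
    tg (Iic e) l t ≠ tg (Iio e) l t → ∃ n b, (e, n, b) ∈ l ∧ tg (Iic e) l t = lastN n (tg (Iio e) l t) ∧
      Alw e (tg (Iic e) l t) (tg (Iio e) l t) b ∧ l.find? (fun x => decide (x.1 = e)) = some (e, n, b) := by
  induction l with
  | nil =>
    intro k t _ hne
    exact absurd rfl hne
  | cons x l ih =>
    intro k t h hne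
    rcases lt_trichotomy x.1 e with h1 | h1 | h1
    · have e1 : tg (Iic e) (x :: l) t = tg (Iic e) l (lastN x.2.1 t) := by
        rw [tg, if_pos (show x.1 ∈ Iic e from h1.le)]
      have e2 : tg (Iio e) (x :: l) t = tg (Iio e) l (lastN x.2.1 t) := by
        rw [tg, if_pos (show x.1 ∈ Iio e from h1)]
      rw [e1, e2] at hne ⊢
      obtain ⟨n, b, h2, h3, h4, h5⟩ := ih h.2.2.2 hne
      refine ⟨n, b, List.mem_cons_of_mem _ h2, h3, h4, ?_⟩
      rw [List.find?_cons_of_neg (by simpa using h1.ne)]
      exact h5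
    · subst h1
      have e1 : tg (Iic x.1) (x :: l) t = lastN x.2.1 t := by
        rw [tg, if_pos (show x.1 ∈ Iic x.1 from le_rfl), tr4_tg_later h.2.2.2]
      have e2 : tg (Iio x.1) (x :: l) t = t := by
        rw [tg, if_neg (show x.1 ∉ Iio x.1 from lt_irrefl _)]
      rw [e1, e2]
      refine ⟨x.2.1, x.2.2, List.mem_cons_self, rfl, h.2.2.1, ?_⟩
      rw [List.find?_cons_of_pos (by simp)]
    · exfalso
      apply hne
      rw [tg, tg, if_neg (show x.1 ∉ Iic e from not_le.2 h1), if_neg (show x.1 ∉ Iio e from not_lt.2 h1.le)]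

/-- If the parents of order `Iio e` and `Iic e` are different then the move has a drop `(e, n, b)` at the level `e`, it is allowed, `q (Iic e) w = lastN n (q (Iio e) w)` and the budget of `w` at `e` is `b`. -/
theorem Ok.drop {m : Mv Q} {u : Nd Q} (h : Ok (m :: u)) {e : Q.L} (hne : q (Iic e) (m :: u) ≠ q (Iio e) (m :: u)) :
    ∃ n b, (e, n, b) ∈ m ∧ q (Iic e) (m :: u) = lastN n (q (Iio e) (m :: u)) ∧
      Alw e (q (Iic e) (m :: u)) (q (Iio e) (m :: u)) b ∧ bud e (m :: u) = b := by
  obtain ⟨n, b, h1, h2, h3, h4⟩ := tr4_drop e h.2 hne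
  refine ⟨n, b, h1, h2, h3, ?_⟩
  rw [bud, h4]
  rfl

private theorem tr4_none (e : Q.L) {l : Mv Q} : ∀ {k : WithBot Q.L} {t : Nd Q}, OkP k t l →
    tg (Iic e) l t = tg (Iio e) l t → l.find? (fun x => decide (x.1 = e)) = none := by
  induction l with
  | nil =>
    intro k t _ _
    rfl
  | cons x l ih =>
    intro k t h he
    rcases lt_trichotomy x.1 e with h1 | h1 | h1
    · have e1 : tg (Iic e) (x :: l) t = tg (Iic e) l (lastN x.2.1 t) := by
        rw [tg, if_pos (show x.1 ∈ Iic e from h1.le)]
      have e2 : tg (Iio e) (x :: l) t = tg (Iio e) l (lastN x.2.1 t) := by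
        rw [tg, if_pos (show x.1 ∈ Iio e from h1)]
      rw [e1, e2] at he
      rw [List.find?_cons_of_neg (by simpa using h1.ne)]
      exact ih h.2.2.2 he
    · exfalso
      subst h1
      have e1 : tg (Iic x.1) (x :: l) t = lastN x.2.1 t := by
        rw [tg, if_pos (show x.1 ∈ Iic x.1 from le_rfl), tr4_tg_later h.2.2.2]
      have e2 : tg (Iio x.1) (x :: l) t = t := by
        rw [tg, if_neg (show x.1 ∉ Iio x.1 from lt_irrefl _)]
      rw [e1, e2] at he
      exact h.2.2.1.1 he
    · rw [List.find?_eq_none]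
      intro y hy
      rcases List.mem_cons.1 hy with rfl | hy
      · simpa using h1.ne'
      · have h2 : x.1 < y.1 := WithBot.coe_lt_coe.1 (OkP.lt h.2.2.2 y hy)
        simpa using (h1.trans h2).ne'

/-- No drop at the level `e`: the budget is the length. -/
theorem Ok.bud_of_eq {m : Mv Q} {u : Nd Q} (h : Ok (m :: u)) {e : Q.L}
    (he : q (Iic e) (m :: u) = q (Iio e) (m :: u)) : bud e (m :: u) = (m :: u).length := by
  have h1 : m.find? (fun x => decide (x.1 = e)) = none := tr4_none e h.2 he
  rw [bud, h1]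
  rfl

private theorem tr5_path {l : Mv Q} : ∀ {k : WithBot Q.L} {t : Nd Q}, OkP k t l → ∀ {D D' : Set Q.L},
    IsLowerSet D → IsLowerSet D' → D' ⊆ D → tg D l t ≠ tg D' l t →
    ∃ e ∈ D \ D', tg (Iic e) l t = tg D l t ∧ tg (Iio e) l t ≠ tg (Iic e) l t := by
  induction l with
  | nil =>
    intro k t _ D D' _ _ _ hne
    exact absurd rfl hne
  | cons x l ih =>
    intro k t h D D' hD hD' hs hne
    have c1 : ∀ E : Set Q.L, x.1 ∈ E → tg E (x :: l) t = tg E l (lastN x.2.1 t) := fun E hE => by
      rw [tg, if_pos hE]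
    have c2 : ∀ E : Set Q.L, x.1 ∉ E → tg E (x :: l) t = t := fun E hE => by
      rw [tg, if_neg hE]
    by_cases h1 : x.1 ∈ D'
    · rw [c1 D (hs h1), c1 D' h1] at hne
      obtain ⟨e, ⟨he, he'⟩, h2, h3⟩ := ih h.2.2.2 hD hD' hs hne
      have hxe : x.1 < e := by
        by_contra hxe
        exact he' (hD' (not_lt.1 hxe) h1)
      refine ⟨e, ⟨he, he'⟩, ?_, ?_⟩
      · rw [c1 _ (show x.1 ∈ Iic e from hxe.le), c1 D (hs h1)]
        exact h2
      · rw [c1 _ (show x.1 ∈ Iic e from hxe.le), c1 _ (show x.1 ∈ Iio e from hxe)]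
        exact h3
    · by_cases h2 : x.1 ∈ D
      · by_cases h3 : tg D l (lastN x.2.1 t) = lastN x.2.1 t
        · refine ⟨x.1, ⟨h2, h1⟩, ?_, ?_⟩
          · rw [c1 _ (show x.1 ∈ Iic x.1 from le_rfl), c1 D h2, h3, tr4_tg_later h.2.2.2]
          · rw [c1 _ (show x.1 ∈ Iic x.1 from le_rfl), c2 _ (show x.1 ∉ Iio x.1 from lt_irrefl _),
              tr4_tg_later h.2.2.2]
            exact fun h4 => h.2.2.1.1 h4.symm
        · have h4 : tg D l (lastN x.2.1 t) ≠ tg (Iic x.1) l (lastN x.2.1 t) := by
            rw [tr4_tg_later h.2.2.2]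
            exact h3
          obtain ⟨e, ⟨he, he'⟩, h5, h6⟩ := ih h.2.2.2 hD (isLowerSet_Iic x.1)
            (fun y hy => hD hy h2) h4
          have hxe : x.1 < e := not_le.1 he'
          refine ⟨e, ⟨he, fun h7 => h1 (hD' hxe.le h7)⟩, ?_, ?_⟩
          · rw [c1 _ (show x.1 ∈ Iic e from hxe.le), c1 D h2]
            exact h5
          · rw [c1 _ (show x.1 ∈ Iic e from hxe.le), c1 _ (show x.1 ∈ Iio e from hxe)]
            exact h6
      · rw [c2 D h2, c2 D' h1] at hne
        exact absurd rfl hne

/-- MODULE tr5 (size 1): for lower sets `D' ⊆ D` with different parents there is a drop with level in `D \ D'` to `q D w`: the last drop with level in `D`. -/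
theorem Ok.exists_drop {m : Mv Q} {u : Nd Q} (h : Ok (m :: u)) {D : Set Q.L} (hD : IsLowerSet D) {D' : Set Q.L}
    (hD' : IsLowerSet D') (hs : D' ⊆ D) (hne : q D (m :: u) ≠ q D' (m :: u)) :
    ∃ e ∈ D \ D', q (Iic e) (m :: u) = q D (m :: u) ∧ q (Iio e) (m :: u) ≠ q (Iic e) (m :: u) := by
  exact tr5_path h.2 hD hD' hs hne

/-- The depth increases along ancestors of order `Iio ⊤`. -/
theorem dep_lt_of_le {p w : Nd Q} (h : Le (Iio ⊤) p w) (hne : p ≠ w) : dep p < dep w := by
  induction h with
  | refl => exact absurd rfl hne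
  | @step w hw h1 ih =>
    rw [dep_of_ne hw]
    by_cases h2 : p = q (Iio ⊤) w
    · rw [h2]
      exact Nat.lt_succ_self _
    · exact (ih h2).trans (Nat.lt_succ_self _)

/-- MODULE tr6 (size 2): finite branching.

Proof.  Let `Ok u`.  A move `m` with `OkP ⊥ u m` is a list with strictly increasing levels, the levels other than `⊤` have `ι e ≤ dep p ≤ u.length` for the target `p`: so the levels are in a finite set (`ι` injective).  The lengths `n` are `< u.length`, the budgets are `< bud e s` for suffixes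
`s` of `u` or `0`: bounded.  So the entries are in a finite set and the lists have no repetition (`List.Pairwise` of levels), so their length is bounded: finitely many (`List.finite_length_le` or similar). -/
theorem finite_moves {u : Nd Q} (h : Ok u) : {m : Mv Q | Ok (m :: u)}.Finite := by
  have hE : {e : Q.L | Q.ι e ≤ u.length}.Finite :=
    Set.Finite.preimage Q.ι_inj.injOn (Set.finite_Iic u.length)
  have hT : {t : Nd Q | t <:+ u}.Finite := by
    refine (List.finite_toSet u.tails).subset fun t ht => ?_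
    exact (List.mem_tails t u).2 ht
  obtain ⟨B, hB⟩ : ∃ B : ℕ, ∀ e, Q.ι e ≤ u.length → ∀ t : Nd Q, t <:+ u → bud e t ≤ B := by
    obtain ⟨B, hB⟩ := ((hE.prod hT).image fun x : Q.L × Nd Q => bud x.1 x.2).bddAbove
    exact ⟨B, fun e he t ht => hB ⟨(e, t), ⟨he, ht⟩, rfl⟩⟩
  let S : Set (Q.L × ℕ × ℕ) := ({e : Q.L | Q.ι e ≤ u.length} ∪ {⊤}) ×ˢ (Set.Iic u.length ×ˢ Set.Iic B)
  have hS : S.Finite := (hE.union (Set.finite_singleton _)).prod ((Set.finite_Iic _).prod (Set.finite_Iic _))
  have hent : ∀ (l : Mv Q) (k : WithBot Q.L) (t : Nd Q), t <:+ u → OkP k t l → ∀ x ∈ l, x ∈ S := by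
    intro l
    induction l with
    | nil =>
      intro k t _ _ x hx
      exact absurd hx List.not_mem_nil
    | cons y l ih =>
      intro k t ht hk x hx
      obtain ⟨h1, h2, h3, h4⟩ := hk
      have hp : lastN y.2.1 t <:+ u := (lastN_suffix _ _).trans ht
      rcases List.mem_cons.1 hx with rfl | hx
      · have hl : x.2.1 ≤ u.length := h2.le.trans ht.length_le
        obtain ⟨h5, h6, h7, h8⟩ := h3
        by_cases htop : x.1 = ⊤
        · refine ⟨Or.inr htop, hl, ?_⟩
          change x.2.2 ≤ B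
          rw [(h8 htop).2]
          exact Nat.zero_le _
        · have h9 : Q.ι x.1 ≤ u.length := (h7 htop).1.trans ((dep_le_length _).trans hp.length_le)
          refine ⟨Or.inl h9, hl, ?_⟩
          exact (h7 htop).2.le.trans (hB _ h9 _ (chd_suffix.trans ht))
      · exact ih _ _ hp h4 x hx
  have hpw : ∀ (l : Mv Q) (k : WithBot Q.L) (t : Nd Q), OkP k t l → l.Nodup := by
    intro l
    induction l with
    | nil =>
      intro k t _
      exact List.nodup_nil
    | cons y l ih =>
      intro k t hk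
      obtain ⟨h1, h2, h3, h4⟩ := hk
      refine List.nodup_cons.2 ⟨fun hy => ?_, ih _ _ h4⟩
      exact lt_irrefl _ (h4.lt y hy)
  have : Finite S := hS.to_subtype
  refine ((List.finite_length_le S hS.toFinset.card).image (List.map Subtype.val)).subset ?_
  rintro m ⟨_, hm⟩
  have h1 := hent m ⊥ u List.suffix_rfl hm
  have h2 := hpw m ⊥ u hm
  refine ⟨m.attach.map fun x => ⟨x.1, h1 x.1 x.2⟩, ?_, ?_⟩
  · change (m.attach.map _).length ≤ _
    rw [List.length_map, List.length_attach, ← List.toFinset_card_of_nodup h2]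
    refine Finset.card_le_card fun x hx => ?_
    exact hS.mem_toFinset.2 (h1 x (List.mem_toFinset.1 hx))
  · rw [List.map_map]
    exact List.attach_map_subtype_val m

theorem finite_nodes (n : ℕ) : {w : Nd Q | Ok w ∧ w.length = n}.Finite := by
  induction n with
  | zero =>
    refine (Set.finite_singleton ([] : Nd Q)).subset fun w hw => ?_
    exact List.length_eq_zero_iff.1 hw.2
  | succ n ih =>
    refine (ih.biUnion fun u hu => (finite_moves hu.1).image fun m => m :: u).subset ?_
    rintro w ⟨hw, hl⟩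
    cases w with
    | nil => simp at hl
    | cons m u =>
      refine Set.mem_biUnion (x := u) ⟨hw.1, by simpa using hl⟩ ⟨m, hw, rfl⟩

theorem finite_nodes_le (n : ℕ) : {w : Nd Q | Ok w ∧ w.length ≤ n}.Finite := by
  refine ((Set.finite_Iic n).biUnion fun k _ => finite_nodes (Q := Q) k).subset ?_
  rintro w ⟨hw, hl⟩
  exact Set.mem_biUnion (x := w.length) hl ⟨hw, rfl⟩

/-! ## Branches -/

/-- The initial segment of length `n`. -/
def pre (x : ℕ → Mv Q) : ℕ → Nd Q
  | 0 => []
  | n + 1 => x n :: pre x n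

/-- `w` is an initial segment of `x`. -/
def Pr (w : Nd Q) (x : ℕ → Mv Q) : Prop := pre x w.length = w

/-- The branches. -/
def Br (Q : Par) : Set (ℕ → Mv Q) := {x | ∀ n, Ok (pre x n)}

/-- The parent of `w` in the cell. -/
noncomputable def dpar (w : Nd Q) : Option (Nd Q) :=
  if q (Iio ⊤) w = q univ w then none else some (chd univ (q univ w) (q (Iio ⊤) w))

/-- Chains on the side `A`. -/
structure ACh (c : ℕ → Nd Q) : Prop where
  zero : c 0 = []
  ne : ∀ n, c (n + 1) ≠ []
  q : ∀ n, q univ (c (n + 1)) = c n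
  ok : ∀ n, Ok (c n)

/-- Chains on the side `B`, cell `r`. -/
structure BCh (r : Nd Q) (v : ℕ → Nd Q) : Prop where
  ne : ∀ n, v n ≠ []
  q : ∀ n, q univ (v n) = r
  zero : dpar (v 0) = none
  succ : ∀ n, dpar (v (n + 1)) = some (v n)
  ok : ∀ n, Ok (v n)

/-- MODULE tr7 (size 1): initial segments. -/
theorem pre_length (x : ℕ → Mv Q) (n : ℕ) : (pre x n).length = n := by
  induction n with
  | zero => rfl
  | succ n ih => rw [pre, List.length_cons, ih]

theorem pre_suffix (x : ℕ → Mv Q) {n m : ℕ} (h : n ≤ m) : pre x n <:+ pre x m := by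
  induction m, h using Nat.le_induction with
  | base => exact List.suffix_rfl
  | succ m _ ih => exact ih.trans (List.suffix_cons _ _)

theorem Pr_pre (x : ℕ → Mv Q) (n : ℕ) : Pr (pre x n) x := by
  unfold Pr
  rw [pre_length]

private theorem tr7_eq {α : Type} {p p' w : List α} (h : p <:+ w) (h' : p' <:+ w) (hl : p.length = p'.length) :
    p = p' := (List.suffix_of_suffix_length_le h h' hl.le).eq_of_length hl

theorem Pr_of_suffix {p w : Nd Q} {x : ℕ → Mv Q} (h : Pr w x) (hp : p <:+ w) : Pr p x := by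
  have h1 : pre x p.length <:+ w := by
    have h2 := pre_suffix x hp.length_le
    rwa [show pre x w.length = w from h] at h2
  exact tr7_eq h1 hp (pre_length _ _)

theorem suffix_of_Pr {p w : Nd Q} {x : ℕ → Mv Q} (h : Pr p x) (h' : Pr w x) (hl : p.length ≤ w.length) : p <:+ w := by
  have h2 := pre_suffix x hl
  rwa [show pre x w.length = w from h', show pre x p.length = p from h] at h2

/-- A sequence of nodes of unbounded length, each a suffix of the next one, determines a branch. -/
theorem exists_branch {c : ℕ → Nd Q} (h : ∀ n, c n <:+ c (n + 1)) (hl : ∀ n, (c n).length < (c (n + 1)).length) :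
    ∃ x : ℕ → Mv Q, ∀ n, Pr (c n) x := by
  have hlen : ∀ n, n ≤ (c n).length := by
    intro n
    induction n with
    | zero => exact Nat.zero_le _
    | succ n ih => exact Nat.succ_le_of_lt (lt_of_le_of_lt ih (hl n))
  have hsuf : ∀ n m, n ≤ m → c n <:+ c m := by
    intro n m hnm
    induction m, hnm using Nat.le_induction with
    | base => exact List.suffix_rfl
    | succ m _ ih => exact ih.trans (h m)
  have hd : ∀ i, lastN i (c i) <:+ lastN (i + 1) (c (i + 1)) := by
    intro i
    refine List.suffix_of_suffix_length_le ((lastN_suffix _ _).trans (h i)) (lastN_suffix _ _) ?_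
    rw [lastN_length (hlen i), lastN_length (hlen (i + 1))]
    exact Nat.le_succ i
  have hx : ∀ i, ∃ m : Mv Q, lastN (i + 1) (c (i + 1)) = m :: lastN i (c i) := by
    intro i
    obtain ⟨l, hl'⟩ := hd i
    have h1 := congrArg List.length hl'
    rw [List.length_append, lastN_length (hlen i), lastN_length (hlen (i + 1))] at h1
    have h2 : l.length = 1 := by omega
    obtain ⟨m, rfl⟩ := List.length_eq_one_iff.1 h2
    exact ⟨m, hl'.symm⟩
  choose x hx using hx
  have hpre : ∀ i, pre x i = lastN i (c i) := by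
    intro i
    induction i with
    | zero =>
      refine (List.length_eq_zero_iff.1 ?_).symm
      exact lastN_length (Nat.zero_le _)
    | succ i ih => rw [pre, ih, hx]
  refine ⟨x, fun n => ?_⟩
  unfold Pr
  rw [hpre]
  exact tr7_eq (lastN_suffix _ _) (hsuf n _ (hlen n)) (lastN_length (hlen _))

theorem ACh.suffix {c : ℕ → Nd Q} (h : ACh c) (n : ℕ) : c n <:+ c (n + 1) ∧ (c n).length < (c (n + 1)).length := by
  refine ⟨?_, ?_⟩
  · have h1 := h.q n
    have h2 := h.ne n
    obtain ⟨m, u, hu⟩ := List.exists_cons_of_ne_nil h2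
    rw [← h1, hu]
    exact (q_suffix _ _ _).trans (List.suffix_cons _ _)
  · have h1 := q_length_lt (univ : Set Q.L) (h.ne n)
    rwa [h.q n] at h1

/-- `dpar w = some v`: `v` is an ancestor of order `Iio ⊤` of `w`, with the same `q univ`. -/
theorem dpar_some {w v : Nd Q} (hw : Ok w) (hne : w ≠ []) (h : dpar w = some v) :
    q univ v = q univ w ∧ v ≠ [] ∧ Le (Iio ⊤) v w ∧ v ≠ w ∧ Le univ v (q (Iio ⊤) w) := by
  unfold dpar at h
  split_ifs at h with h1
  have hv : chd univ (q univ w) (q (Iio ⊤) w) = v := Option.some.inj h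
  have h2 : Le univ (q univ w) (q (Iio ⊤) w) := by
    have h3 := Ok.le_q_Iic hw (⊤ : Q.L)
    rwa [Iic_top_eq] at h3
  obtain ⟨h3, h4, h5⟩ := chd_spec h2 (fun h => h1 h.symm)
  rw [hv] at h3 h4 h5
  have h6 : q (Iio ⊤) w <:+ w := (q_le (Iio ⊤) w).suffix
  have h7 : Le (Iio ⊤) v (q (Iio ⊤) w) :=
    Ok.mono (hw.suffix h6) isLowerSet_univ (isLowerSet_Iio ⊤) (subset_univ _) h5
  refine ⟨h3, h4, Le.step hne h7, ?_, h5⟩
  intro h8
  have h9 := h5.length_le
  have h10 := q_length_lt (Iio (⊤ : Q.L)) hne
  rw [h8] at h9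
  omega

theorem BCh.suffix {r : Nd Q} {v : ℕ → Nd Q} (h : BCh r v) (n : ℕ) :
    v n <:+ v (n + 1) ∧ (v n).length < (v (n + 1)).length := by
  obtain ⟨_, _, h1, h2, _⟩ := dpar_some (h.ok (n + 1)) (h.ne (n + 1)) (h.succ n)
  refine ⟨h1.suffix, lt_of_le_of_ne h1.length_le fun h3 => h2 ?_⟩
  exact h1.eq_of_length h3.ge

/-- MODULE tk (size 2): König's lemma for a tree on `ℕ` given by its parent function.

Proof.  Suppose every `j` has finitely many children.  Call `j` big if it has infinitely many descendants (`n` with `par^k n = j` for some `k`).  `0` is big (every `n` is a descendant of `0`, by strong induction); a big `j` has a big child (its descendants other than `j` are the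
descendants of its finitely many children).  Choose. -/
theorem konig_nat (par : ℕ → ℕ) (h : ∀ n, 0 < n → par n < n) :
    (∃ j, {n | 0 < n ∧ par n = j}.Infinite) ∨ ∃ c : ℕ → ℕ, c 0 = 0 ∧ ∀ n, 0 < c (n + 1) ∧ par (c (n + 1)) = c n := by
  rw [or_iff_not_imp_left]
  intro hfin
  have hfin' : ∀ j, {n | 0 < n ∧ par n = j}.Finite := by
    intro j
    by_contra hj
    exact hfin ⟨j, hj⟩
  set p' : ℕ → ℕ := fun n => if n = 0 then 0 else par n with hp'
  have hp0 : p' 0 = 0 := by simp [hp']
  have hpp : ∀ n, 0 < n → p' n = par n := by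
    intro n hn
    simp [hp', hn.ne']
  have hlt : ∀ n, 0 < n → p' n < n := by
    intro n hn
    rw [hpp n hn]
    exact h n hn
  let D : ℕ → Set ℕ := fun j => {n | ∃ k, p'^[k] n = j}
  have hD0 : (D 0).Infinite := by
    have : D 0 = Set.univ := by
      ext n
      simp only [D, Set.mem_ofPred_eq, Set.mem_univ, iff_true]
      induction n using Nat.strong_induction_on with
      | _ n ih =>
        rcases Nat.eq_zero_or_pos n with hn | hn
        · exact ⟨0, by simpa using hn⟩
        · obtain ⟨k, hk⟩ := ih (p' n) (hlt n hn)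
          exact ⟨k + 1, by simpa using hk⟩
    rw [this]
    exact Set.infinite_univ
  have hstep : ∀ j, (D j).Infinite → ∃ c, (0 < c ∧ par c = j) ∧ (D c).Infinite := by
    intro j hj
    by_contra hno
    push Not at hno
    apply hj
    have hsub : D j ⊆ {j} ∪ ⋃ c ∈ {n | 0 < n ∧ par n = j}, D c := by
      intro n hn
      by_cases hnj : n = j
      · left; exact hnj
      · right
        have hn' : ∃ k, p'^[k] n = j := hn
        classical
        have hk := Nat.find_spec hn'
        have hmin := fun m => Nat.find_min hn' (m := m)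
        rcases Nat.eq_zero_or_pos (Nat.find hn') with hz | hz
        · exfalso
          rw [hz] at hk
          exact hnj (by simpa using hk)
        · obtain ⟨k, hk'⟩ : ∃ k, Nat.find hn' = k + 1 := ⟨Nat.find hn' - 1, by omega⟩
          rw [hk', Function.iterate_succ_apply'] at hk
          have hne : p'^[k] n ≠ j := hmin k (by omega)
          have hpos : 0 < p'^[k] n := by
            rcases Nat.eq_zero_or_pos (p'^[k] n) with h0 | h0
            · exfalso
              rw [h0, hp0] at hk
              exact hne (by rw [h0, hk])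
            · exact h0
          simp only [Set.mem_iUnion]
          refine ⟨p'^[k] n, ⟨hpos, ?_⟩, ⟨k, rfl⟩⟩
          rw [← hpp _ hpos]
          exact hk
    refine Set.Finite.subset ?_ hsub
    refine (Set.finite_singleton j).union ?_
    refine (hfin' j).biUnion ?_
    intro c hc
    exact hno c hc
  choose! g hg1 hg2 using hstep
  let c : ℕ → ℕ := fun n => Nat.rec 0 (fun _ x => g x) n
  have hc : ∀ n, (D (c n)).Infinite := by
    intro n
    induction n with
    | zero => exact hD0
    | succ n ih => exact hg2 _ ih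
  exact ⟨c, rfl, fun n => ⟨(hg1 _ (hc n)).1, (hg1 _ (hc n)).2⟩⟩

/-- An infinite chain of order `D` of initial segments of `x`. -/
structure ICh (D : Set Q.L) (x : ℕ → Mv Q) (t : ℕ → Nd Q) : Prop where
  zero : t 0 = []
  ne : ∀ n, t (n + 1) ≠ []
  q : ∀ n, q D (t (n + 1)) = t n
  pr : ∀ n, Pr (t n) x

/-- MODULE tr8a (size 1): infinite chains.

`ICh.restrict`: for lower sets `D' ⊆ D`: `Le D' (t n) (t (n+1))` (`Ok.mono`).  Let `t' j` be the `j`-th member (in increasing order of length, starting with `[]`) of the set of the ancestors of order `D'` of the `t n`; the ancestors of order `D'` of `t (n+1)` which are not longer than `t n` are the ancestors of `t n` (`Le.total`), so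
this is an infinite chain of order `D'`.  (E.g. let `anc k w` be the ancestor of depth `k`.) -/
theorem ICh.le {D : Set Q.L} {x : ℕ → Mv Q} {t : ℕ → Nd Q} (h : ICh D x t) {n m : ℕ} (hnm : n ≤ m) :
    Le D (t n) (t m) := by
  induction m, hnm using Nat.le_induction with
  | base => exact Le.refl
  | succ k hk ih => exact Le.step (h.ne k) (by rw [h.q k]; exact ih)

theorem ICh.length {D : Set Q.L} {x : ℕ → Mv Q} {t : ℕ → Nd Q} (h : ICh D x t) (n : ℕ) :
    (t n).length < (t (n + 1)).length ∧ n ≤ (t n).length := by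
  have h1 : ∀ k, (t k).length < (t (k + 1)).length := fun k => by
    have := q_length_lt D (h.ne k)
    rwa [h.q k] at this
  refine ⟨h1 n, ?_⟩
  induction n with
  | zero => exact Nat.zero_le _
  | succ k ih => exact lt_of_le_of_lt ih (h1 k)

theorem ICh.mem_of_le {D : Set Q.L} {x : ℕ → Mv Q} {t : ℕ → Nd Q} (h : ICh D x t) {n : ℕ} {p : Nd Q}
    (hp : Le D p (t n)) : ∃ j ≤ n, t j = p := by
  induction n with
  | zero =>
    rw [h.zero] at hp
    refine ⟨0, le_rfl, ?_⟩
    rw [h.zero]
    have := hp.length_le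
    simp only [List.length_nil, Nat.le_zero, List.length_eq_zero_iff] at this
    exact this.symm
  | succ k ih =>
    by_cases hk : p = t (k + 1)
    · exact ⟨k + 1, le_rfl, hk.symm⟩
    · have h2 := (hp.le_q hk).2
      rw [h.q k] at h2
      obtain ⟨j, hj, hj'⟩ := ih h2
      exact ⟨j, by omega, hj'⟩

private theorem tr8a_ok {x : ℕ → Mv Q} (hx : x ∈ Br Q) {p : Nd Q} (hp : Pr p x) : Ok p := by
  have := hx p.length
  rwa [show pre x p.length = p from hp] at this

private theorem tr8a_lt {D : Set Q.L} {x : ℕ → Mv Q} {t : ℕ → Nd Q} (h : ICh D x t) : StrictMono fun n => (t n).length :=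
  strictMono_nat_of_lt_succ fun n => (h.length n).1

theorem ICh.restrict {D D' : Set Q.L} (hD : IsLowerSet D) (hD' : IsLowerSet D') (hs : D' ⊆ D) {x : ℕ → Mv Q}
    (hx : x ∈ Br Q) {t : ℕ → Nd Q} (h : ICh D x t) : ∃ t', ICh D' x t' ∧ ∀ n, ∃ j, t' j = t n := by
  have hmono : ∀ {n m : ℕ}, n ≤ m → Le D' (t n) (t m) := fun hnm =>
    Ok.mono (tr8a_ok hx (h.pr _)) hD hD' hs (h.le hnm)
  -- the successor
  have hsucc : ∀ p : {p : Nd Q // ∃ n, Le D' p (t n)}, ∃ s : {p : Nd Q // ∃ n, Le D' p (t n)},
      Bsw.q D' s.1 = p.1 ∧ s.1 ≠ [] := by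
    rintro ⟨p, n, hp⟩
    have hlen : p.length < (t (max n (p.length + 1))).length := by
      have := (h.length (max n (p.length + 1))).2
      have h3 : p.length + 1 ≤ max n (p.length + 1) := le_max_right _ _
      omega
    have hp' : Le D' p (t (max n (p.length + 1))) := hp.trans (hmono (le_max_left _ _))
    have hne : p ≠ t (max n (p.length + 1)) := by
      intro hc
      rw [← hc] at hlen
      exact lt_irrefl _ hlen
    obtain ⟨h1, h2, h3⟩ := chd_spec hp' hne
    exact ⟨⟨_, _, h3⟩, h1, h2⟩
  choose s hs1 hs2 using hsucc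
  let t'' : ℕ → {p : Nd Q // ∃ n, Le D' p (t n)} := fun n =>
    Nat.rec ⟨[], 0, by rw [h.zero]; exact Le.refl⟩ (fun _ p => s p) n
  have ht'' : ∀ n, t'' (n + 1) = s (t'' n) := fun n => rfl
  have hI : ICh D' x (fun n => (t'' n).1) := by
    refine ⟨rfl, ?_, ?_, ?_⟩
    · intro n
      show (t'' (n + 1)).1 ≠ []
      rw [ht'']; exact hs2 _
    · intro n
      show Bsw.q D' (t'' (n + 1)).1 = (t'' n).1
      rw [ht'']; exact hs1 _
    · intro n
      obtain ⟨k, hk⟩ := (t'' n).2
      exact Pr_of_suffix (h.pr k) hk.suffix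
  refine ⟨_, hI, ?_⟩
  intro n
  obtain ⟨k, hk⟩ := (t'' (t n).length).2
  have hk1 : Le D' (t'' (t n).length).1 (t (max n k)) := hk.trans (hmono (le_max_right _ _))
  have hk2 : Le D' (t n) (t (max n k)) := hmono (le_max_left _ _)
  have hlen : (t n).length ≤ ((t'' (t n).length).1).length := (hI.length (t n).length).2
  rcases Le.total hk2 hk1 with h4 | h4
  · obtain ⟨j, -, hj⟩ := hI.mem_of_le h4
    exact ⟨j, hj⟩
  · exact ⟨(t n).length, h4.eq_of_length hlen⟩

theorem ICh_empty (x : ℕ → Mv Q) : ICh (∅ : Set Q.L) x (pre x) :=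
  ⟨rfl, fun n => by simp [pre], fun n => by simp only [pre]; exact q_empty _ _, fun n => Pr_pre x n⟩

private theorem tr8b_ok {x : ℕ → Mv Q} (hx : x ∈ Br Q) {p : Nd Q} (hp : Pr p x) : Ok p := by
  have := hx p.length
  rwa [show pre x p.length = p from hp] at this

private theorem tr8b_mono {D : Set Q.L} {x : ℕ → Mv Q} {t : ℕ → Nd Q} (h : ICh D x t) :
    StrictMono fun n => (t n).length :=
  strictMono_nat_of_lt_succ fun n => (h.length n).1

/-- Members of an infinite chain are comparable, by length. -/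
private theorem tr8b_le {D : Set Q.L} {x : ℕ → Mv Q} {t : ℕ → Nd Q} (h : ICh D x t) {n m : ℕ}
    (hl : (t n).length ≤ (t m).length) : Le D (t n) (t m) :=
  h.le ((tr8b_mono h).le_iff_le.1 hl)

private theorem tr8b_tg_congr {D D' : Set Q.L} : ∀ (l : Mv Q) (_ : ∀ y ∈ l, y.1 ∈ D ↔ y.1 ∈ D') (t : Nd Q),
    tg D l t = tg D' l t := by
  intro l
  induction l with
  | nil => intro _ t; rfl
  | cons y l ih =>
    intro h t
    have h1 := h y (by simp)
    simp only [tg]
    by_cases hy : y.1 ∈ D
    · rw [if_pos hy, if_pos (h1.1 hy)]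
      exact ih (fun z hz => h z (by simp [hz])) _
    · rw [if_neg hy, if_neg (fun hc => hy (h1.2 hc))]

/-- Below `e` and above `e₀` there is `e'` with the same parent as for `Iio e`. -/
private theorem tr8b_above (w : Nd Q) {e e₀ : Q.L} (h0 : e₀ < e) :
    ∃ e', e₀ ≤ e' ∧ e' < e ∧ q (Iic e') w = q (Iio e) w := by
  cases w with
  | nil => exact ⟨e₀, le_rfl, h0, rfl⟩
  | cons m u =>
    let F : Finset Q.L := insert e₀ ((m.map Prod.fst).toFinset.filter (fun z => z < e))
    have hF : F.Nonempty := ⟨e₀, Finset.mem_insert_self _ _⟩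
    have hlt : ∀ z ∈ F, z < e := by
      intro z hz
      rcases Finset.mem_insert.1 hz with rfl | hz
      · exact h0
      · exact (Finset.mem_filter.1 hz).2
    refine ⟨F.max' hF, F.le_max' _ (Finset.mem_insert_self _ _), hlt _ (F.max'_mem hF), ?_⟩
    show tg (Iic (F.max' hF)) m u = tg (Iio e) m u
    refine tr8b_tg_congr m (fun y hy => ?_) u
    constructor
    · intro h1
      exact lt_of_le_of_lt (show y.1 ≤ F.max' hF from h1) (hlt _ (F.max'_mem hF))
    · intro h1
      refine F.le_max' _ (Finset.mem_insert_of_mem (Finset.mem_filter.2 ⟨?_, h1⟩))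
      simp only [List.mem_toFinset, List.mem_map]
      exact ⟨y, hy, rfl⟩

/-- Two chains are equal if a member which is shorter than a member of the other one is below it. -/
private theorem tr8b_eq {D : Set Q.L} {x : ℕ → Mv Q} {t t' : ℕ → Nd Q} (h : ICh D x t) (h' : ICh D x t')
    (H : ∀ i, t i = t' i → (t (i + 1)).length < (t' (i + 1)).length → Le D (t (i + 1)) (t' (i + 1)))
    (H' : ∀ i, t i = t' i → (t' (i + 1)).length < (t (i + 1)).length → Le D (t' (i + 1)) (t (i + 1))) : t = t' := by
  funext n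
  induction n with
  | zero => rw [h.zero, h'.zero]
  | succ i ih =>
    have key : ∀ {s s' : ℕ → Nd Q}, ICh D x s → ICh D x s' → s i = s' i →
        Le D (s (i + 1)) (s' (i + 1)) → (s (i + 1)).length < (s' (i + 1)).length → False := by
      intro s s' hs hs' hi hle hlt
      have hne : s (i + 1) ≠ s' (i + 1) := fun hc => by rw [hc] at hlt; exact lt_irrefl _ hlt
      have h2 := (hle.le_q hne).2
      rw [hs'.q i, ← hi] at h2
      exact absurd h2.length_le (not_le.2 (hs.length i).1)
    rcases lt_trichotomy (t (i + 1)).length (t' (i + 1)).length with hl | hl | hl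
    · exact (key h h' ih (H i ih hl) hl).elim
    · have h1 : pre x (t (i + 1)).length = t (i + 1) := h.pr (i + 1)
      have h2 : pre x (t' (i + 1)).length = t' (i + 1) := h'.pr (i + 1)
      rw [← h1, ← h2, hl]
    · exact (key h' h ih.symm (H' i ih hl) hl).elim

private theorem tr8b_Iio {x : ℕ → Mv Q} (hx : x ∈ Br Q) (e : Q.L)
    (U : ∀ e' < e, ∀ t t' : ℕ → Nd Q, ICh (Iic e') x t → ICh (Iic e') x t' → t = t') {t t' : ℕ → Nd Q}
    (h : ICh (Iio e) x t) (h' : ICh (Iio e) x t') : t = t' := by
  have key : ∀ {s s' : ℕ → Nd Q}, ICh (Iio e) x s → ICh (Iio e) x s' → ∀ i, s i = s' i →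
        (s (i + 1)).length < (s' (i + 1)).length → Le (Iio e) (s (i + 1)) (s' (i + 1)) := by
    intro s s' hs hs' i hi hl
    exfalso
    by_cases hE : (Iio e).Nonempty
    · obtain ⟨e₀, he₀⟩ := hE
      obtain ⟨e', -, he', hq⟩ := tr8b_above (s' (i + 1)) (show e₀ < e from he₀)
      have hsub : Iic e' ⊆ Iio e := fun z hz => lt_of_le_of_lt (show z ≤ e' from hz) he'
      obtain ⟨r, hr, hr'⟩ := hs.restrict (isLowerSet_Iio e) (isLowerSet_Iic e') hsub hx
      obtain ⟨r', hrr, hrr'⟩ := hs'.restrict (isLowerSet_Iio e) (isLowerSet_Iic e') hsub hx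
      have hrr2 : r = r' := U e' he' r r' hr hrr
      subst hrr2
      obtain ⟨a, ha⟩ := hr' (i + 1)
      obtain ⟨b, hb⟩ := hrr' (i + 1)
      have hle : Le (Iic e') (s (i + 1)) (s' (i + 1)) := by
        rw [← ha, ← hb]
        exact tr8b_le hr (by rw [ha, hb]; exact hl.le)
      have hne : s (i + 1) ≠ s' (i + 1) := fun hc => by rw [hc] at hl; exact lt_irrefl _ hl
      have h2 := (hle.le_q hne).2
      rw [hq, hs'.q i, ← hi] at h2
      exact absurd h2.length_le (not_le.2 (hs.length i).1)
    · have hE' : (Iio e : Set Q.L) = ∅ := Set.not_nonempty_iff_eq_empty.1 hE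
      have hlen : ∀ {r : ℕ → Nd Q}, ICh (Iio e) x r → (r (i + 1)).length = (r i).length + 1 := by
        intro r hr
        have h1 := hr.q i
        rw [hE'] at h1
        cases hc : r (i + 1) with
        | nil => exact absurd hc (hr.ne i)
        | cons m u =>
          rw [hc, q_empty] at h1
          rw [h1]; simp
      rw [hlen hs, hlen hs', hi] at hl
      exact lt_irrefl _ hl
  exact tr8b_eq h h' (key h h') (fun i hi hl => key h' h i hi.symm hl)

/-- MODULE tr8b (size 2): infinite chains are unique.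

Proof.  By well-founded induction on `e`: statement `U e`: two infinite chains of order `Iic e` of `x` are equal.  Assume `U e'` for all `e' < e`.
(1) Two infinite chains `t, t'` of order `Iio e` are equal: suppose `t i = t' i = p` and `w = t (i+1) ≠ w' = t' (i+1)`, say `w` shorter (equal length implies equal, `Pr`).  If there is no `e' < e`, `Iio e = ∅` and the chain of order `∅` is `pre x`.  Otherwise for every `e' < e`, by `ICh.restrict` and `U e'`, `w` and `w'` are members of the same chain of order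
`Iic e'`, so `Le (Iic e') w w'` and `Le (Iic e') w (q (Iic e') w')`.  For `e' < e` above all levels `< e` of the last move of `w'` (take `e'` the largest of them, or any `e' < e` if there is none) `q (Iic e') w' = q (Iio e) w' = p`: `Le (Iic e') w p`, too long.
(2) `U e`: `t, t'` of order `Iic e`, `w, w'` as before (`w` shorter than `w'`); by restriction to `Iio e` and (1) `w`, `w'` and all members of `t` are in the same chain of order `Iio e`.  Let `W` be a member of `t` longer than `w'`: `Le (Iic e) w W`, `Le (Iio e) w' W`, so `Le (Iic e) w w'` by `coh`, `Le (Iic e) w (q (Iic e) w') = p`: too long. -/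
theorem ICh.unique_Iic {x : ℕ → Mv Q} (hx : x ∈ Br Q) (e : Q.L) {t t' : ℕ → Nd Q} (h : ICh (Iic e) x t)
    (h' : ICh (Iic e) x t') : t = t' := by
  induction e using WellFoundedLT.induction generalizing t t' with
  | _ e ih =>
    have U : ∀ e' < e, ∀ t t' : ℕ → Nd Q, ICh (Iic e') x t → ICh (Iic e') x t' → t = t' :=
      fun e' he' t t' ht ht' => ih e' he' ht ht'
    have hsub : Iio e ⊆ Iic e := Iio_subset_Iic_self
    obtain ⟨s, hs, hs1⟩ := h.restrict (isLowerSet_Iic e) (isLowerSet_Iio e) hsub hx
    obtain ⟨s', hs', hs1'⟩ := h'.restrict (isLowerSet_Iic e) (isLowerSet_Iio e) hsub hx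
    have hss : s = s' := tr8b_Iio hx e U hs hs'
    subst hss
    have key : ∀ {r r' : ℕ → Nd Q}, ICh (Iic e) x r → ICh (Iic e) x r' → (∀ n, ∃ j, s j = r n) →
        (∀ n, ∃ j, s j = r' n) → ∀ i, r i = r' i →
        (r (i + 1)).length < (r' (i + 1)).length → Le (Iic e) (r (i + 1)) (r' (i + 1)) := by
      intro r r' hr hr' h1 h2 i hi hl
      have hN := (hr.length (max (i + 1) (r' (i + 1)).length)).2
      have hle : Le (Iic e) (r (i + 1)) (r (max (i + 1) (r' (i + 1)).length)) := hr.le (le_max_left _ _)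
      obtain ⟨a, ha⟩ := h2 (i + 1)
      obtain ⟨b, hb⟩ := h1 (max (i + 1) (r' (i + 1)).length)
      have hle2 : Le (Iio e) (r' (i + 1)) (r (max (i + 1) (r' (i + 1)).length)) := by
        have h3 : Le (Iio e) (s a) (s b) := by
          refine tr8b_le hs ?_
          rw [ha, hb]
          exact (le_max_right _ _).trans hN
        rwa [ha, hb] at h3
      exact coh (tr8b_ok hx (hr.pr _)) hle hle2 hl.le
    exact tr8b_eq h h' (key h h' hs1 hs1') (fun i hi hl => key h' h hs1' hs1 i hi.symm hl)

theorem ICh.unique_Iio {x : ℕ → Mv Q} (hx : x ∈ Br Q) (e : Q.L) {t t' : ℕ → Nd Q} (h : ICh (Iio e) x t)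
    (h' : ICh (Iio e) x t') : t = t' :=
  tr8b_Iio hx e (fun e' _ _ _ ht ht' => ICh.unique_Iic hx e' ht ht') h h'

private theorem tr8c_inj {D : Set Q.L} {x : ℕ → Mv Q} {t : ℕ → Nd Q} (h : ICh D x t) {n m : ℕ} (hnm : t n = t m) :
    n = m :=
  (tr8b_mono h).injective (by show (t n).length = (t m).length; rw [hnm])

/-- MODULE tr8c (size 2): from `Iio e` to `Iic e`, `e ≠ ⊤`.

Proof.  Let `t` be the chain of order `Iio e`.  For `n ≥ 1`, `q (Iic e) (t n)` is an ancestor of order `Iio e` of `q (Iio e) (t n) = t (n-1)` (`Ok.le_q_q`), so it is `t (par n)` with `par n < n`.  Apply `konig_nat`.  An infinite chain for `par` gives `ICh (Iic e)`.  Otherwise some `p = t j` has infinitely many children: let `s, s'` be two consecutive ones,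
`s` before `s'`.  `T := q (Iio e) s'` is `s` or after `s`, so `T ≠ p = q (Iic e) s'`: by `Ok.drop` there is a drop at `e`, `Alw e p T b`, `bud e s' = b < bud e (chd (Iic e) p T)`.  `chd (Iic e) p T = s`: call it `s₀`: `q (Iic e) s₀ = p`, `Le (Iic e) s₀ T`, so `Le (Iio e) s₀ T` (`Ok.mono`) and `s₀` is a `t i` before `s'`, a child of `p`, so
it is `s` or before `s`; if before `s`: `coh` with `Le (Iic e) s₀ T`, `Le (Iio e) s T` gives `Le (Iic e) s₀ s`, `s₀ ≠ s`, so `Le (Iic e) s₀ (q (Iic e) s) = p`: too long.  So `bud e` decreases strictly along the children of `p`: contradiction. -/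
theorem ICh.step {x : ℕ → Mv Q} (hx : x ∈ Br Q) {e : Q.L} (he : e ≠ ⊤) {t : ℕ → Nd Q} (h : ICh (Iio e) x t) :
    ∃ t', ICh (Iic e) x t' := by
  have hpar : ∀ n, ∃ j, (0 < n → j < n) ∧ (0 < n → t j = Bsw.q (Iic e) (t n)) := by
    intro n
    cases n with
    | zero => exact ⟨0, fun hc => absurd hc (lt_irrefl _), fun hc => absurd hc (lt_irrefl _)⟩
    | succ k =>
      have h1 := (tr8b_ok hx (h.pr (k + 1))).le_q_q (isLowerSet_Iic e) (isLowerSet_Iio e) Iio_subset_Iic_self
      rw [h.q k] at h1
      obtain ⟨j, hj, hj'⟩ := h.mem_of_le h1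
      exact ⟨j, fun _ => Nat.lt_succ_of_le hj, fun _ => hj'⟩
  choose par hp1 hp2 using hpar
  rcases konig_nat par (fun n hn => hp1 n hn) with ⟨j, hinf⟩ | ⟨c, hc0, hc⟩
  · exfalso
    set S : ℕ → Prop := fun n => 0 < n ∧ par n = j with hS
    have hSinf : {n | S n}.Infinite := hinf
    set s : ℕ → ℕ := fun n => Nat.nth S n with hs
    have hsm : StrictMono s := Nat.nth_strictMono hSinf
    have hsS : ∀ n, S (s n) := fun n => Nat.nth_mem_of_infinite hSinf n
    have hcons : ∀ n i, S i → i < s (n + 1) → i ≤ s n := by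
      intro n i hi hlt
      have hr : i ∈ Set.range s := by
        have := Nat.range_nth_of_infinite hSinf
        rw [show s = Nat.nth S from rfl, this]
        exact hi
      obtain ⟨m, rfl⟩ := hr
      have : m < n + 1 := hsm.lt_iff_lt.1 hlt
      exact hsm.monotone (Nat.lt_succ_iff.1 this)
    have key : ∀ n, bud e (t (s (n + 1))) < bud e (t (s n)) := by
      intro n
      have hS' := hsS (n + 1)
      have hSn := hsS n
      obtain ⟨k, hk⟩ : ∃ k, s (n + 1) = k + 1 := ⟨s (n + 1) - 1, by have := hS'.1; omega⟩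
      have hsk : s n ≤ k := by have := hsm (Nat.lt_succ_self n); rw [hk] at this; omega
      have hT : Bsw.q (Iio e) (t (s (n + 1))) = t k := by rw [hk]; exact h.q k
      have hp : Bsw.q (Iic e) (t (s (n + 1))) = t j := by rw [← hp2 _ hS'.1, hS'.2]
      have hjs : j < s n := by have := hp1 _ hSn.1; rwa [hSn.2] at this
      have hne : Bsw.q (Iic e) (t (s (n + 1))) ≠ Bsw.q (Iio e) (t (s (n + 1))) := by
        rw [hT, hp]
        intro hcc
        have := tr8c_inj h hcc
        omega
      have hok := tr8b_ok hx (h.pr (s (n + 1)))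
      have hnn : t (s (n + 1)) ≠ [] := by rw [hk]; exact h.ne k
      obtain ⟨m, u, hmu⟩ := List.exists_cons_of_ne_nil hnn
      rw [hmu] at hne hok hT hp
      obtain ⟨a, b, -, -, halw, hb⟩ := hok.drop hne
      rw [hT, hp] at halw
      rw [hmu, hb]
      obtain ⟨h1, h2, h3, -⟩ := halw
      obtain ⟨-, h3⟩ := h3 he
      obtain ⟨g1, g2, g3⟩ := chd_spec h2 h1
      have hokT : Ok (t k) := tr8b_ok hx (h.pr k)
      have g4 : Le (Iio e) (chd (Iic e) (t j) (t k)) (t k) :=
        Ok.mono hokT (isLowerSet_Iic e) (isLowerSet_Iio e) Iio_subset_Iic_self g3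
      obtain ⟨i, hik, hi⟩ := h.mem_of_le g4
      have hi0 : 0 < i := by
        rcases Nat.eq_zero_or_pos i with h0 | h0
        · rw [h0, h.zero] at hi
          exact absurd hi.symm g2
        · exact h0
      have hpi : par i = j := by
        have e1 := hp2 i hi0
        rw [hi, g1] at e1
        exact tr8c_inj h e1
      have hile : i ≤ s n := hcons n i ⟨hi0, hpi⟩ (by rw [hk]; omega)
      have hieq : i = s n := by
        by_contra hcne
        have hilt : i < s n := lt_of_le_of_ne hile hcne
        have c1 : Le (Iic e) (t i) (t k) := by rw [hi]; exact g3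
        have c2 : Le (Iio e) (t (s n)) (t k) := h.le hsk
        have c3 := coh hokT c1 c2 ((tr8b_mono h).monotone hile)
        have c4 : t i ≠ t (s n) := fun hcc => hcne (tr8c_inj h hcc)
        have c5 := (c3.le_q c4).2
        rw [← hp2 _ hSn.1, hSn.2] at c5
        have c6 := c5.length_le
        have c7 : j < i := by have := hp1 i hi0; rwa [hpi] at this
        exact absurd c6 (not_le.2 (tr8b_mono h c7))
      rw [← hieq, hi]
      exact h3
    have hanti : ∀ n, bud e (t (s n)) + n ≤ bud e (t (s 0)) := by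
      intro n
      induction n with
      | zero => simp
      | succ n ih => have := key n; omega
    have := hanti (bud e (t (s 0)) + 1)
    omega
  · refine ⟨fun n => t (c n), ?_, ?_, ?_, ?_⟩
    · show t (c 0) = []
      rw [hc0, h.zero]
    · intro n
      obtain ⟨k, hk⟩ : ∃ k, c (n + 1) = k + 1 := ⟨c (n + 1) - 1, by have := (hc n).1; omega⟩
      show t (c (n + 1)) ≠ []
      rw [hk]; exact h.ne k
    · intro n
      show Bsw.q (Iic e) (t (c (n + 1))) = t (c n)
      rw [← hp2 _ (hc n).1, (hc n).2]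
    · intro n
      exact h.pr _

/-- A drop from different parents to `p` at a level `≠ ⊤` is at a level with small index. -/
private theorem tr8d_drop {w : Nd Q} (hw : Ok w) (hne : w ≠ []) {D D' : Set Q.L} (hD : IsLowerSet D)
    (hD' : IsLowerSet D') (hs : D' ⊆ D) (hq : q D w ≠ q D' w) (htop : ∀ e ∈ D, e ≠ ⊤) :
    ∃ e, e ∈ D ∧ e ∉ D' ∧ Q.ι e ≤ dep (q D w) := by
  obtain ⟨m, u, rfl⟩ := List.exists_cons_of_ne_nil hne
  obtain ⟨e, ⟨he1, he2⟩, h3, h4⟩ := hw.exists_drop hD hD' hs hq
  obtain ⟨a, b, -, -, halw, -⟩ := hw.drop (Ne.symm h4)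
  refine ⟨e, he1, he2, ?_⟩
  rw [← h3]
  exact (halw.2.2.1 (htop e he1)).1

/-- MODULE tr8d (size 3): limits.

Statement: `D = Iio e`, for every `e' < e` there is an infinite chain `T e'` of order `Iic e'`.  Then there is one of order `Iio e`.
Proof.  By `restrict` and uniqueness the members of `T e'` are members of `T e''` for `e'' ≤ e'`.  Call `p` true if `p` is a member of `T e'` for every `e' < e` (and an initial segment of `x`: for `Iio e = ∅`).  `[]` is true.  Claim: if `p` is true there is a true `w ≠ []` with `q (Iio e) w = p`.  Let `A = {e' < e | ι e' ≤ dep p}`: finite.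
Case `A = ∅`: `w := pre x (p.length + 1)`.  For `e' < e` let `t` be the successor of `p` in `T e'`: `q (Iic e') t = p`.  If `t ≠ w` then `q ∅ t ≠ p` (`q ∅ t` is the initial segment of length `t.length - 1`), so by `Ok.exists_drop` (`D' = ∅`) there is a drop of `t` at a level `e'' ≤ e'` to `p`, allowed: `e'' ≠ ⊤` so `ι e'' ≤ dep p`, `e'' ∈ A`: contradiction.  So `w = t` is in `T e'` for
all `e' < e`, and `q (Iic e') w = p` for all `e' < e`, so `q (Iio e) w = p` (if `Iio e` is nonempty take `e'` above all levels `< e` of the last move; otherwise `q ∅ w = p`).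
Case `A ≠ ∅`: `e₀ = max A`, `w` the successor of `p` in `T e₀`.  For `e₀ < e' < e` let `t` be the successor of `p` in `T e'`; `t` is in `T e₀`, after `p`, so `Le (Iic e₀) w t`; if `t ≠ w`, `Le (Iic e₀) w (q (Iic e₀) t)`, so `q (Iic e₀) t ≠ p = q (Iic e') t` and `Ok.exists_drop` gives a drop at a level `e'' ∈ Iic e' \ Iic e₀` to `p`, `ι e'' ≤ dep p`, so `e'' ∈ A`, `e'' > e₀`: contradiction.
So `w = t` is a member of `T e'` with `q (Iic e') w = p` for all `e₀ ≤ e' < e`, and it is a member of `T e'` for `e' < e₀` as well; `q (Iio e) w = p` as before.  Iterating the claim gives the chain. -/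
theorem ICh.limit {x : ℕ → Mv Q} (hx : x ∈ Br Q) {e : Q.L} (h : ∀ e' < e, ∃ t, ICh (Iic e') x t) :
    ∃ t, ICh (Iio e) x t := by
  choose T hT using h
  -- members of chains of higher order are members of chains of lower order
  have hdown : ∀ e₁ (h₁ : e₁ < e) e₂ (h₂ : e₂ < e), e₁ ≤ e₂ → ∀ n, ∃ j, T e₁ h₁ j = T e₂ h₂ n := by
    intro e₁ h₁ e₂ h₂ h12
    obtain ⟨t', ht', ht''⟩ := (hT e₂ h₂).restrict (isLowerSet_Iic e₂) (isLowerSet_Iic e₁) (Iic_subset_Iic.2 h12) hx
    have : t' = T e₁ h₁ := ICh.unique_Iic hx e₁ ht' (hT e₁ h₁)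
    rw [this] at ht''
    exact ht''
  have htop : ∀ e' < e, e' ≠ ⊤ := fun e' he' => ne_top_of_lt he'
  let G : Nd Q → Prop := fun p => Pr p x ∧ ∀ e' (he' : e' < e), ∃ n, T e' he' n = p
  have hG0 : G [] := ⟨rfl, fun e' he' => ⟨0, (hT e' he').zero⟩⟩
  have hstep : ∀ p, G p → ∃ w, w ≠ [] ∧ G w ∧ Bsw.q (Iio e) w = p := by
    intro p hp
    have hA : {e' | e' < e ∧ Q.ι e' ≤ dep p}.Finite :=
      Set.Finite.subset ((Set.finite_Iic (dep p)).preimage (Q.ι_inj.injOn)) fun z hz => hz.2
    rcases Set.eq_empty_or_nonempty {e' | e' < e ∧ Q.ι e' ≤ dep p} with hAe | hAn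
    · -- no levels of small index
      have hpre : Bsw.q (∅ : Set Q.L) (pre x (p.length + 1)) = p := by
        show Bsw.q (∅ : Set Q.L) (x p.length :: pre x p.length) = p
        rw [q_empty]; exact hp.1
      have hmem : ∀ e' (he' : e' < e), ∃ n, T e' he' (n + 1) = pre x (p.length + 1) ∧ T e' he' n = p := by
        intro e' he'
        obtain ⟨n, hn⟩ := hp.2 e' he'
        refine ⟨n, ?_, hn⟩
        have hok := tr8b_ok hx ((hT e' he').pr (n + 1))
        have hnn := (hT e' he').ne n
        have hqt : Bsw.q (Iic e') (T e' he' (n + 1)) = p := by rw [(hT e' he').q n, hn]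
        have hq0 : Bsw.q (∅ : Set Q.L) (T e' he' (n + 1)) = p := by
          by_contra hc
          obtain ⟨e'', h1, -, h3⟩ := tr8d_drop hok hnn (isLowerSet_Iic e') isLowerSet_empty (empty_subset _)
            (by rw [hqt]; exact fun hcc => hc hcc.symm)
            (fun z hz => htop z (lt_of_le_of_lt (show z ≤ e' from hz) he'))
          rw [hqt] at h3
          have : e'' ∈ {e' | e' < e ∧ Q.ι e' ≤ dep p} := ⟨lt_of_le_of_lt (show e'' ≤ e' from h1) he', h3⟩
          rw [hAe] at this
          exact this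
        have hlen : (T e' he' (n + 1)).length = p.length + 1 := by
          obtain ⟨m, u, hmu⟩ := List.exists_cons_of_ne_nil hnn
          rw [hmu, q_empty] at hq0
          rw [hmu, hq0]; simp
        have := (hT e' he').pr (n + 1)
        rw [Pr, hlen] at this
        exact this.symm
      refine ⟨pre x (p.length + 1), by simp [pre], ⟨Pr_pre _ _, fun e' he' => ?_⟩, ?_⟩
      · obtain ⟨n, hn, -⟩ := hmem e' he'
        exact ⟨n + 1, hn⟩
      · by_cases hE : (Iio e).Nonempty
        · obtain ⟨e₀, he₀⟩ := hE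
          obtain ⟨e', -, he', hq⟩ := tr8b_above (pre x (p.length + 1)) (show e₀ < e from he₀)
          obtain ⟨n, hn, hn'⟩ := hmem e' he'
          rw [← hq, ← hn, (hT e' he').q n, hn']
        · have hE' : (Iio e : Set Q.L) = ∅ := Set.not_nonempty_iff_eq_empty.1 hE
          rw [hE']; exact hpre
    · obtain ⟨e₀, ⟨he₀, hι₀⟩, hmax⟩ := Set.exists_max_image _ id hA hAn
      have hmax' : ∀ b, b < e → Q.ι b ≤ dep p → b ≤ e₀ := fun b hb hb' => hmax b ⟨hb, hb'⟩
      obtain ⟨n₀, hn₀⟩ := hp.2 e₀ he₀
      -- above `e₀`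
      have hup : ∀ e' (he' : e' < e), e₀ ≤ e' → ∃ n, T e' he' (n + 1) = T e₀ he₀ (n₀ + 1) ∧ T e' he' n = p := by
        intro e' he' h0
        obtain ⟨n, hn⟩ := hp.2 e' he'
        refine ⟨n, ?_, hn⟩
        obtain ⟨k, hk⟩ := hdown e₀ he₀ e' he' h0 (n + 1)
        have hok := tr8b_ok hx ((hT e' he').pr (n + 1))
        have hnn := (hT e' he').ne n
        have hqt : Bsw.q (Iic e') (T e' he' (n + 1)) = p := by rw [(hT e' he').q n, hn]
        have hk0 : n₀ < k := by
          have h1 := ((hT e' he').length n).1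
          rw [hn, ← hk, ← hn₀] at h1
          exact (tr8b_mono (hT e₀ he₀)).lt_iff_lt.1 h1
        have hle : Le (Iic e₀) (T e₀ he₀ (n₀ + 1)) (T e' he' (n + 1)) := by
          rw [← hk]; exact (hT e₀ he₀).le hk0
        by_contra hc
        have hle2 := (hle.le_q (fun hcc => hc hcc.symm)).2
        have hneq : Bsw.q (Iic e') (T e' he' (n + 1)) ≠ Bsw.q (Iic e₀) (T e' he' (n + 1)) := by
          intro hcc
          rw [← hcc, hqt, ← hn₀] at hle2
          exact absurd hle2.length_le (not_le.2 ((hT e₀ he₀).length n₀).1)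
        obtain ⟨e'', h1, h2, h3⟩ := tr8d_drop hok hnn (isLowerSet_Iic e') (isLowerSet_Iic e₀)
          (Iic_subset_Iic.2 h0) hneq
            (fun z hz => htop z (lt_of_le_of_lt (show z ≤ e' from hz) he'))
        rw [hqt] at h3
        exact h2 (hmax' e'' (lt_of_le_of_lt (show e'' ≤ e' from h1) he') h3)
      refine ⟨T e₀ he₀ (n₀ + 1), (hT e₀ he₀).ne n₀, ⟨(hT e₀ he₀).pr _, fun e' he' => ?_⟩, ?_⟩
      · rcases le_total e₀ e' with h0 | h0
        · obtain ⟨n, hn, -⟩ := hup e' he' h0
          exact ⟨n + 1, hn⟩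
        · obtain ⟨j, hj⟩ := hdown e' he' e₀ he₀ h0 (n₀ + 1)
          exact ⟨j, hj⟩
      · obtain ⟨e', h0, he', hq⟩ := tr8b_above (T e₀ he₀ (n₀ + 1)) he₀
        obtain ⟨n, hn, hn'⟩ := hup e' he' h0
        rw [← hq, ← hn, (hT e' he').q n, hn']
  choose! s hs1 hs2 hs3 using hstep
  let t : ℕ → Nd Q := fun n => Nat.rec [] (fun _ p => s p) n
  have ht : ∀ n, t (n + 1) = s (t n) := fun n => rfl
  have htG : ∀ n, G (t n) := by
    intro n
    induction n with
    | zero => exact hG0
    | succ n ih => rw [ht]; exact hs2 _ ih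
  exact ⟨t, rfl, fun n => by rw [ht]; exact hs1 _ (htG n), fun n => by rw [ht]; exact hs3 _ (htG n), fun n => (htG n).1⟩

/-- Well-founded induction on `e` with `ICh.step` and `ICh.limit`. -/
theorem inf_Iio_top {x : ℕ → Mv Q} (hx : x ∈ Br Q) : ∃ t : ℕ → Nd Q, ICh (Iio ⊤) x t := by
  have key : ∀ e : Q.L, e ≠ ⊤ → ∃ t, ICh (Iic e) x t := by
    intro e
    induction e using WellFoundedLT.induction with
    | _ e ih =>
      intro he
      obtain ⟨t, ht⟩ := ICh.limit hx fun e' he' => ih e' he' (ne_top_of_lt he')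
      exact ICh.step hx he ht
  exact ICh.limit hx fun e' he' => key e' (ne_top_of_lt he')

/-- MODULE tr9 (size 2): every branch contains a chain.

Proof.  Let `t` be the chain of `inf_Iio_top`.  `q univ (t n) = t (par n)`, `par n < n` for `n ≥ 1` (`Ok.le_q_q`).  `konig_nat`: an infinite chain for `par` gives `ACh c`.  Otherwise some `r = t j₀` has
infinitely many `n ≥ 1` with `q univ (t n) = r`; let `v 0, v 1, ...` be these `t n` in increasing order.  `dpar (v 0) = none`: otherwise `dpar (v 0) = some s`, `q univ s = r`, `s ≠ []`, `Le (Iio ⊤) s (v 0)`, `s ≠ v 0`, so `s` is a `t n` before `v 0`: contradiction.  `dpar (v (n+1)) = some (v n)`: let `T = q (Iio ⊤) (v (n+1))`, it is a `t j` which is `v n` or after `v n`, so `T ≠ r`;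
`s := chd univ r T` (`Le univ r T` by `Ok.le_q_Iic` for `e = ⊤`) satisfies `q univ s = r`, so it is one of the `v i`, `i ≤ n`; if `i < n`: `coh_top` (`Le univ s T`, `Le (Iio ⊤) (v n) T`) gives `Le univ s (v n)`, `s ≠ v n`, `Le univ s (q univ (v n)) = r`, too long. -/
theorem exists_chain {x : ℕ → Mv Q} (hx : x ∈ Br Q) :
    (∃ c, ACh c ∧ ∀ n, Pr (c n) x) ∨ ∃ r v, BCh r v ∧ ∀ n, Pr (v n) x := by
  obtain ⟨t, ht⟩ := inf_Iio_top hx
  have hok : ∀ n, Ok (t n) := by
    intro n
    have h1 : pre x (t n).length = t n := ht.pr n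
    rw [← h1]
    exact hx _
  have hlen : StrictMono fun n => (t n).length := strictMono_nat_of_lt_succ fun n => (ht.length n).1
  have hinj : ∀ {i j}, t i = t j → i = j := by
    intro i j hij
    exact hlen.injective (by simp [hij])
  have hne : ∀ {i}, t i ≠ [] → 0 < i := by
    intro i hi
    rcases Nat.eq_zero_or_pos i with h0 | h0
    · exfalso
      apply hi
      rw [h0]
      exact ht.zero
    · exact h0
  have hne' : ∀ {i}, 0 < i → t i ≠ [] := by
    intro i hi
    obtain ⟨k, rfl⟩ : ∃ k, i = k + 1 := ⟨i - 1, by omega⟩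
    exact ht.ne k
  have hq : ∀ {i}, 0 < i → q (Iio ⊤) (t i) = t (i - 1) := by
    intro i hi
    obtain ⟨k, rfl⟩ : ∃ k, i = k + 1 := ⟨i - 1, by omega⟩
    exact ht.q k
  have hex : ∀ n, ∃ j, 0 < n → j < n ∧ t j = q univ (t n) := by
    intro n
    rcases Nat.eq_zero_or_pos n with h0 | h0
    · exact ⟨0, fun h => absurd h (by omega)⟩
    · have h1 := (hok n).le_q_q (D := univ) (D' := Iio ⊤) isLowerSet_univ (isLowerSet_Iio _) (subset_univ _)
      rw [hq h0] at h1
      obtain ⟨j, hj, hj'⟩ := ht.mem_of_le h1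
      exact ⟨j, fun _ => ⟨by omega, hj'⟩⟩
  choose par hpar using hex
  rcases konig_nat par (fun n hn => (hpar n hn).1) with ⟨j₀, hS⟩ | ⟨c, hc0, hc⟩
  · right
    set p : ℕ → Prop := fun n => 0 < n ∧ par n = j₀ with hp
    have hS' : {n | p n}.Infinite := hS
    have hmem : ∀ k, p (Nat.nth p k) := fun k => Nat.nth_mem_of_infinite hS' k
    have hmono : StrictMono (Nat.nth p) := Nat.nth_strictMono hS'
    have hpi : ∀ {i}, t i ≠ [] → q univ (t i) = t j₀ → p i := by
      intro i hi hi'
      have h0 := hne hi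
      refine ⟨h0, hinj ?_⟩
      rw [(hpar i h0).2, hi']
    have hr : ∀ k, q univ (t (Nat.nth p k)) = t j₀ := by
      intro k
      obtain ⟨h1, h2⟩ := hmem k
      rw [← (hpar _ h1).2, h2]
    refine ⟨t j₀, fun k => t (Nat.nth p k), ⟨fun n => hne' (hmem n).1, hr, ?_, ?_, fun n => hok _⟩, fun n => ht.pr _⟩
    · by_contra hcon
      obtain ⟨s, hs⟩ := Option.ne_none_iff_exists'.1 hcon
      obtain ⟨h1, h2, h3, h4, -⟩ := dpar_some (hok _) (hne' (hmem 0).1) hs
      obtain ⟨i, hi, rfl⟩ := ht.mem_of_le h3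
      have hpi' : p i := hpi h2 (by rw [h1]; exact hr 0)
      obtain ⟨k, -, hk⟩ := Nat.exists_lt_card_nth_eq hpi'
      have h5 : Nat.nth p 0 ≤ Nat.nth p k := hmono.monotone (Nat.zero_le k)
      apply h4
      rw [show i = Nat.nth p 0 by omega]
    · intro n
      obtain ⟨hb1, hb2⟩ := hmem (n + 1)
      obtain ⟨ha1, ha2⟩ := hmem n
      have hab : Nat.nth p n < Nat.nth p (n + 1) := hmono (Nat.lt_succ_self n)
      set a := Nat.nth p n with ha
      set b := Nat.nth p (n + 1) with hb
      have hT : q (Iio ⊤) (t b) = t (b - 1) := hq hb1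
      have hj0 : j₀ < a := by
        rw [← ha2]
        exact (hpar a ha1).1
      have hTne : t (b - 1) ≠ t j₀ := by
        intro hcon
        have := hinj hcon
        omega
      have hrb : q univ (t b) = t j₀ := hr (n + 1)
      have hle : Le univ (t j₀) (t (b - 1)) := by
        have h1 := (hok b).le_q_Iic ⊤
        rw [Iic_top_eq, hT, hrb] at h1
        exact h1
      obtain ⟨h1, h2, h3⟩ := chd_spec hle hTne.symm
      have hd : dpar (t b) = some (chd univ (t j₀) (t (b - 1))) := by
        unfold dpar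
        rw [hT, hrb, if_neg hTne]
      rw [hd]
      congr 1
      have h4 : Le (Iio ⊤) (chd univ (t j₀) (t (b - 1))) (t (b - 1)) :=
        (hok (b - 1)).mono isLowerSet_univ (isLowerSet_Iio _) (subset_univ _) h3
      obtain ⟨i, hi, hi'⟩ := ht.mem_of_le h4
      rw [← hi'] at h1 h2 h3 ⊢
      have hpi' : p i := hpi h2 h1
      obtain ⟨k, -, hk⟩ := Nat.exists_lt_card_nth_eq hpi'
      have hkn : k < n + 1 := by
        rw [← hmono.lt_iff_lt, hk]
        omega
      rcases Nat.lt_succ_iff_lt_or_eq.1 hkn with hkn' | hkn'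
      · exfalso
        have hia : i < a := by
          rw [← hk, ha]
          exact hmono hkn'
        have h5 : Le (Iio ⊤) (t a) (t (b - 1)) := ht.le (by omega)
        have h6 : Le univ (t i) (t a) := coh_top (hok _) h3 h5 (hlen.monotone hia.le)
        have h7 : t i ≠ t a := fun hcon => by
          have := hinj hcon
          omega
        have h8 := (h6.le_q h7).2
        rw [hr n] at h8
        have h9 := h8.length_le
        have h10 := q_length_lt univ h2
        rw [h1] at h10
        omega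
      · rw [← hk, hkn']
  · left
    refine ⟨fun n => t (c n), ⟨?_, fun n => hne' (hc n).1, ?_, fun n => hok _⟩, fun n => ht.pr _⟩
    · show t (c 0) = []
      rw [hc0]
      exact ht.zero
    · intro n
      show q univ (t (c (n + 1))) = t (c n)
      rw [← (hpar _ (hc n).1).2, (hc n).2]

end Pool.Agent.Bsw
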