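import Pool.Agent.Bsw.Dag
import Pool.Agent.Bsw.Tre

/-!
# States and transitions

A coordinate is an element of `Option (Nd Q)`: `none` is the `A`-coordinate, `some r` the coordinate of the cell `r`.  A context assigns to
each coordinate a node (the key of a region) or nothing.
-/

set_option autoImplicit false

open Set Filter Topology TopologicalSpace
open scoped Classical

namespace Pool.Agent.Bsw

variable {Q : Par}

/-- The types of the functions.  `cl = 0, 1, 2`: the classes III, I, II.  `cA`: constant on the side `A`; `DA`: the levels below the continuity of `f` on `A`.  `cB`: constant (III: on `B`; I, II: on every cell); `DB r`: the levels below the continuity of `f` on the cell `r`. -/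
structure Ty (Q : Par) where
  /-- class -/
  cl : Fin 3
  /-- constant on `A` -/
  cA : Bool
  /-- levels -/
  DA : Set Q.L
  /-- constant on cells -/
  cB : Bool
  /-- levels -/
  DB : Nd Q → Set Q.L
  lowA : IsLowerSet DA
  lowB : ∀ r, IsLowerSet (DB r)
  top : ∀ r, ⊤ ∉ DB r
  const : cl = 0 → ∀ r, DB r = DB []

/-- Contexts. -/
abbrev Ctx (Q : Par) := Option (Nd Q) → Option (Nd Q)

/-- The levels of a coordinate. -/
def Ty.DD (τ : Ty Q) : Option (Nd Q) → Set Q.L
  | none => τ.DA
  | some r => τ.DB r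

/-- The class of a coordinate: in the class III all the cells have the same regions. -/
def Ty.cls (τ : Ty Q) : Option (Nd Q) → Option (Nd Q)
  | none => none
  | some r => if τ.cl = 0 then some [] else some r

/-- The last child `s` of `r` (`q univ s = r`) which is an ancestor of order `D` of `p` (or `p`); `r` if there is none. -/
noncomputable def anr (D : Set Q.L) (r : Nd Q) (p : Nd Q) : Nd Q :=
  if h : p = [] then r else if q univ p = r then p else anr D r (q D p)
termination_by p.length
decreasing_by exact q_length_lt D h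

/-- The key of the node `p` in the coordinate. -/
noncomputable def Ty.an (τ : Ty Q) : Option (Nd Q) → Nd Q → Nd Q
  | none, p => if τ.cA = true then [] else p
  | some r, p => if τ.cB = true then (if τ.cl = 0 then [] else r) else (if τ.cl = 0 then p else anr (τ.DB r) r p)

/-- Updating the context at `p` when going to the level `k`. -/
noncomputable def Ty.upd (τ : Ty Q) (k : Q.L) (c : Ctx Q) (p : Nd Q) : Ctx Q := fun i =>
  match c i with
  | some x => some x
  | none => if k ∈ τ.DD i then none else some (τ.an i p)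

/-- The old context of the node `w` at the level `k`. -/
noncomputable def Ty.oc (τ : Ty Q) (w : Nd Q) (k : Q.L) : Ctx Q := fun i =>
  if k ∈ τ.DD i then none else some (τ.an i (q (τ.DD i) w))

/-- The new context. -/
noncomputable def Ty.nc (τ : Ty Q) (w : Nd Q) (k : Q.L) : Ctx Q := fun i =>
  if k ∈ τ.DD i then none else some (τ.an i w)

/-- The mixed context: new in the cells, old on `A`. -/
noncomputable def Ty.mc (τ : Ty Q) (w : Nd Q) (k : Q.L) : Ctx Q
  | none => τ.oc w k none
  | some r => τ.nc w k (some r)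

/-- States. -/
inductive Sta (Q : Par)
  | A (k : WithBot Q.L) (p : Nd Q) (c : Ctx Q)
  | D (r : Nd Q) (v : Option (Nd Q)) (c : Ctx Q)
  | S (r x : Nd Q)
  | E

/-- The possible drops from `p` at levels `≥ k` below the top level. -/
def rel (k : WithBot Q.L) (p : Nd Q) : Set (Q.L × Nd Q) :=
  {y | k ≤ y.1 ∧ y.1 ≠ ⊤ ∧ y.2 ≠ p ∧ Le (Iic y.1) y.2 p ∧ Q.ι y.1 ≤ dep y.2 ∧ 1 ≤ bud y.1 (chd (Iic y.1) y.2 p)}

/-- The possible drops from `p` at the top level. -/
def rto (p : Nd Q) : Set (Nd Q) := {r | r ≠ p ∧ Le univ r p ∧ (Q.md = false → r = q univ p)}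

/-- The transitions between `D`-states (successor mode). -/
def rdd (r : Nd Q) : Set (Nd Q) := {r' | Q.md = true ∧ r' ≠ r ∧ Le univ r' r}

/-- MODULE st1 (size 1): finiteness (levels `e` with `ι e ≤ dep p' ≤ p.length`, suffixes of `p`). -/
theorem rel_finite (k : WithBot Q.L) (p : Nd Q) : (rel k p).Finite := by
  have h1 : {e : Q.L | Q.ι e ≤ p.length}.Finite :=
    (Set.finite_Iic p.length).preimage Q.ι_inj.injOn
  have h2 : {s : Nd Q | s <:+ p}.Finite := by
    refine (List.finite_toSet p.tails).subset fun s hs => ?_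
    exact (List.mem_tails _ _).2 hs
  refine (h1.prod h2).subset ?_
  rintro ⟨e, s⟩ ⟨_, _, _, h3, h4, _⟩
  have h5 := h3.suffix
  exact ⟨h4.trans ((dep_le_length s).trans h5.length_le), h5⟩

theorem rto_finite (p : Nd Q) : (rto p).Finite := by
  refine (List.finite_toSet p.tails).subset ?_
  rintro s ⟨_, h, _⟩
  exact (List.mem_tails _ _).2 h.suffix

theorem rdd_finite (r : Nd Q) : (rdd r).Finite := by
  refine (List.finite_toSet r.tails).subset ?_
  rintro s ⟨_, _, h⟩
  exact (List.mem_tails _ _).2 h.suffix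

/-- The transitions. -/
noncomputable def trs (τ : Ty Q) : Sta Q → Finset (Sta Q)
  | .A k p c => (rel_finite k p).toFinset.image (fun y => Sta.A (y.1 : WithBot Q.L) y.2 (τ.upd y.1 c p)) ∪
      ({Sta.D p none (τ.upd ⊤ c p)} ∪
        (rto_finite p).toFinset.image (fun r => Sta.D r (some (chd univ r p)) (τ.upd ⊤ c p)))
  | .D r _ c => {Sta.S r ((c none).getD (τ.an none r))} ∪
      (rdd_finite r).toFinset.image (fun r' => Sta.D r' (some (chd univ r' r)) c)
  | .S _ _ => {Sta.E}
  | .E => ∅

/-- The measure. -/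
def msr : Sta Q → ℕ
  | .A _ p _ => 4 * p.length + 3
  | .D r _ _ => 4 * r.length + 2
  | .S r _ => 4 * r.length + 1
  | .E => 0

/-- MODULE st2 (size 1): the measure decreases; membership in `trs`. -/
theorem msr_lt (τ : Ty Q) (σ σ' : Sta Q) (h : σ' ∈ trs τ σ) : msr σ' < msr σ := by
  have key : ∀ {D : Set Q.L} {s p : Nd Q}, s ≠ p → Le D s p → s.length < p.length := by
    intro D s p hne hle
    rcases lt_or_eq_of_le hle.length_le with h1 | h1
    · exact h1
    · exact absurd (hle.eq_of_length h1.ge) hne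
  match σ with
  | .A k p c =>
    simp only [trs, Finset.mem_union, Finset.mem_image, Finset.mem_singleton, Set.Finite.mem_toFinset] at h
    rcases h with ⟨y, hy, rfl⟩ | rfl | ⟨r, hr, rfl⟩
    · have h1 := key hy.2.2.1 hy.2.2.2.1
      simp only [msr]
      omega
    · simp only [msr]
      omega
    · have h1 := key hr.1 hr.2.1
      simp only [msr]
      omega
  | .D r v c =>
    simp only [trs, Finset.mem_union, Finset.mem_image, Finset.mem_singleton, Set.Finite.mem_toFinset] at h
    rcases h with rfl | ⟨r', hr, rfl⟩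
    · simp only [msr]
      omega
    · have h1 := key hr.2.1 hr.2.2
      simp only [msr]
      omega
  | .S r x =>
    simp only [trs, Finset.mem_singleton] at h
    rw [h]
    simp only [msr]
    omega
  | .E =>
    simp only [trs] at h
    exact absurd h (Finset.notMem_empty _)

theorem mem_trs_A {τ : Ty Q} {k : WithBot Q.L} {p : Nd Q} {c : Ctx Q} {σ : Sta Q} :
    σ ∈ trs τ (.A k p c) ↔ (∃ y ∈ rel k p, σ = .A (y.1 : WithBot Q.L) y.2 (τ.upd y.1 c p)) ∨
      σ = .D p none (τ.upd ⊤ c p) ∨ ∃ r ∈ rto p, σ = .D r (some (chd univ r p)) (τ.upd ⊤ c p) := by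
  simp only [trs, Finset.mem_union, Finset.mem_image, Finset.mem_singleton, Set.Finite.mem_toFinset, eq_comm]

theorem mem_trs_D {τ : Ty Q} {r : Nd Q} {v : Option (Nd Q)} {c : Ctx Q} {σ : Sta Q} :
    σ ∈ trs τ (.D r v c) ↔ σ = .S r ((c none).getD (τ.an none r)) ∨
      ∃ r' ∈ rdd r, σ = .D r' (some (chd univ r' r)) c := by
  simp only [trs, Finset.mem_union, Finset.mem_image, Finset.mem_singleton, Set.Finite.mem_toFinset, eq_comm]

theorem mem_trs_S {τ : Ty Q} {r x : Nd Q} {σ : Sta Q} : σ ∈ trs τ (.S r x) ↔ σ = .E := by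
  simp only [trs, Finset.mem_singleton]

/-- The transition system. -/
noncomputable abbrev TT (τ : Ty Q) : TrS where
  St := Sta Q
  tr := trs τ
  ms := msr
  lt := msr_lt τ

/-- All the nodes of the state are suffixes of `u`. -/
def On (u : Nd Q) : Sta Q → Prop
  | .A _ p _ => p <:+ u
  | .D r v _ => r <:+ u ∧ ∀ v', v = some v' → v' <:+ u ∧ v' ≠ [] ∧ q univ v' = r
  | .S r _ => r <:+ u
  | .E => True

/-- MODULE st3 (size 1): `{σ | On u σ}` is closed under transitions (`chd_spec`, `chd_suffix`). -/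
theorem clo_On (τ : Ty Q) (u : Nd Q) : Clo (TT τ) {σ | On u σ} := by
  intro σ hσ σ' hσ'
  change On u σ'
  have hσu : On u σ := hσ
  have hσt : σ' ∈ trs τ σ := hσ'
  cases σ with
  | A k p c =>
    have hp : p <:+ u := hσu
    rcases mem_trs_A.1 hσt with ⟨y, hy, rfl⟩ | rfl | ⟨r, hr, rfl⟩
    · exact hy.2.2.2.1.suffix.trans hp
    · exact ⟨hp, fun v' hv' => absurd hv' (by simp)⟩
    · refine ⟨hr.2.1.suffix.trans hp, fun v' hv' => ?_⟩
      obtain rfl := Option.some.inj hv'
      obtain ⟨h1, h2, _⟩ := chd_spec hr.2.1 hr.1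
      exact ⟨chd_suffix.trans hp, h2, h1⟩
  | D r v c =>
    have hr : r <:+ u := hσu.1
    rcases mem_trs_D.1 hσt with rfl | ⟨r', hr', rfl⟩
    · exact hr
    · refine ⟨hr'.2.2.suffix.trans hr, fun v' hv' => ?_⟩
      obtain rfl := Option.some.inj hv'
      obtain ⟨h1, h2, _⟩ := chd_spec hr'.2.2 hr'.2.1
      exact ⟨chd_suffix.trans hr, h2, h1⟩
  | S r x =>
    rw [mem_trs_S.1 hσt]
    trivial
  | E =>
    have h1 : σ' ∈ (∅ : Finset (Sta Q)) := hσt
    exact absurd h1 (Finset.notMem_empty _)

theorem On.mono {u u' : Nd Q} (h : u <:+ u') {σ : Sta Q} (hσ : On u σ) : On u' σ := by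
  cases σ with
  | A k p c => exact List.IsSuffix.trans hσ h
  | D r v c => exact ⟨hσ.1.trans h, fun v' hv' => ⟨(hσ.2 v' hv').1.trans h, (hσ.2 v' hv').2⟩⟩
  | S r x => exact List.IsSuffix.trans hσ h
  | E => trivial

/-- The initial context at `w`: `upd k none w = nc w k`. -/
theorem upd_none (τ : Ty Q) (k : Q.L) (w : Nd Q) : τ.upd k (fun _ => none) w = τ.nc w k := by
  rfl

private theorem st3_low (τ : Ty Q) (i : Option (Nd Q)) {k k' : Q.L} (h : k ≤ k') (h' : k' ∈ τ.DD i) :
    k ∈ τ.DD i := by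
  cases i with
  | none => exact τ.lowA h h'
  | some r => exact τ.lowB r h h'

theorem upd_upd (τ : Ty Q) {k k' : Q.L} (h : k ≤ k') (c : Ctx Q) (p : Nd Q) :
    τ.upd k' (τ.upd k c p) p = τ.upd k' c p := by
  funext i
  unfold Ty.upd
  cases hc : c i with
  | some x => rfl
  | none =>
    by_cases hk : k ∈ τ.DD i
    · simp only [hk, if_true]
    · have hk' : k' ∉ τ.DD i := fun h' => hk (st3_low τ i h h')
      simp only [hk, hk', if_false]

/-- Fewer transitions at higher levels. -/
theorem trs_subset (τ : Ty Q) {k : WithBot Q.L} {k' : Q.L} (h : k ≤ k') (p : Nd Q) (c : Ctx Q) :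
    trs τ (.A k' p (τ.upd k' c p)) ⊆ trs τ (.A k p c) := by
  intro σ hσ
  rcases mem_trs_A.1 hσ with ⟨y, hy, rfl⟩ | rfl | ⟨r, hr, rfl⟩
  · refine mem_trs_A.2 (Or.inl ⟨y, ⟨h.trans hy.1, hy.2⟩, ?_⟩)
    rw [upd_upd τ (WithBot.coe_le_coe.1 hy.1)]
  · refine mem_trs_A.2 (Or.inr (Or.inl ?_))
    rw [upd_upd τ le_top]
  · refine mem_trs_A.2 (Or.inr (Or.inr ⟨r, hr, ?_⟩))
    rw [upd_upd τ le_top]

/-- MODULE st4 (size 1): keys.

`an_of_ne`: unfold `anr`: for `w ≠ []`, `q univ w ≠ r'`: `anr D r' w = anr D r' (q D w)`.  `an_self`: the key of `w` in its own cell `r = q univ w` is `w`. -/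
theorem anr_eq (D : Set Q.L) (r p : Nd Q) :
    anr D r p = if p = [] then r else if q univ p = r then p else anr D r (q D p) := by
  rw [anr]
  by_cases hp : p = []
  · rw [dif_pos hp, if_pos hp]
  · rw [dif_neg hp, if_neg hp]

theorem an_of_ne (τ : Ty Q) (h0 : τ.cl ≠ 0) {w r' : Nd Q} (hw : w ≠ []) (h : q univ w ≠ r') :
    τ.an (some r') (q (τ.DB r') w) = τ.an (some r') w := by
  unfold Ty.an
  simp only [h0, if_false]
  by_cases hB : τ.cB = true
  · rw [if_pos hB, if_pos hB]
  · rw [if_neg hB, if_neg hB]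
    conv_rhs => rw [anr_eq, if_neg hw, if_neg h]

theorem an_self (τ : Ty Q) (h : τ.cB = false) {w : Nd Q} (hw : w ≠ []) : τ.an (some (q univ w)) w = w := by
  unfold Ty.an
  simp only [h, Bool.false_eq_true, if_false]
  by_cases h0 : τ.cl = 0
  · rw [if_pos h0]
  · rw [if_neg h0, anr_eq, if_neg hw, if_pos rfl]

theorem an_const (τ : Ty Q) (h : τ.cB = true) (r p p' : Nd Q) : τ.an (some r) p = τ.an (some r) p' := by
  unfold Ty.an
  simp only [h, if_true]

/-- The last child: specification. -/
theorem anr_spec (D : Set Q.L) (r p : Nd Q) :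
    (anr D r p = r ∧ ∀ s, s ≠ [] → q univ s = r → ¬ Le D s p) ∨
      (anr D r p ≠ [] ∧ q univ (anr D r p) = r ∧ Le D (anr D r p) p ∧
        ∀ s, s ≠ [] → q univ s = r → Le D s p → Le D s (anr D r p)) := by
  by_cases hp : p = []
  · left
    refine ⟨by rw [anr_eq, if_pos hp], fun s hs _ hle => hs ?_⟩
    rw [hp] at hle
    exact List.suffix_nil.1 hle.suffix
  · by_cases hq : q univ p = r
    · right
      have h1 : anr D r p = p := by rw [anr_eq, if_neg hp, if_pos hq]
      rw [h1]
      exact ⟨hp, hq, Le.refl, fun s _ _ h => h⟩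
    · have h1 : anr D r p = anr D r (q D p) := by
        conv_lhs => rw [anr_eq, if_neg hp, if_neg hq]
      rw [h1]
      rcases anr_spec D r (q D p) with ⟨h2, h3⟩ | ⟨h2, h3, h4, h5⟩
      · left
        refine ⟨h2, fun s hs hsr hle => ?_⟩
        rcases (Le_iff D).1 hle with rfl | ⟨_, h6⟩
        · exact hq hsr
        · exact h3 s hs hsr h6
      · right
        refine ⟨h2, h3, Le.step hp h4, fun s hs hsr hle => ?_⟩
        rcases (Le_iff D).1 hle with rfl | ⟨_, h6⟩
        · exact absurd hsr hq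
        · exact h5 s hs hsr h6
termination_by p.length
decreasing_by exact q_length_lt D hp

/-- The change of the keys of the coordinates of the class `κ` to `x`. -/
noncomputable def Ty.phic (τ : Ty Q) (κ : Option (Nd Q)) (x : Nd Q) (c : Ctx Q) : Ctx Q := fun i =>
  if τ.cls i = κ ∧ (c i).isSome = true then some x else c i

/-- The same for states. -/
noncomputable def Ty.phi (τ : Ty Q) (κ : Option (Nd Q)) (x : Nd Q) : Sta Q → Sta Q
  | .A k p c => .A k p (τ.phic κ x c)
  | .D r v c => .D r v (τ.phic κ x c)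
  | .S r y => if κ = none then .S r x else .S r y
  | .E => .E

/-- MODULE st5 (size 1): contexts.  `mc_eq`: for the coordinates `some r'` not of the class of the cell of `w` (classes I, II: `r' ≠ q univ w`) the keys do not change (`an_of_ne`); for those of the class `mc` is `w` (`an_self`; class III: `an (some r') w = w`, all coordinates `some r'` are of the class `some []`). -/
theorem mc_eq (τ : Ty Q) (h : τ.cB = false) {w : Nd Q} (hw : w ≠ []) (k : Q.L) :
    τ.mc w k = τ.phic (τ.cls (some (q univ w))) w (τ.oc w k) := by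
  funext i
  cases i with
  | none =>
    have hne : ¬ (τ.cls none = τ.cls (some (q univ w)) ∧ (τ.oc w k none).isSome = true) := by
      rintro ⟨h1, _⟩
      simp only [Ty.cls] at h1
      split_ifs at h1
    show τ.oc w k none = if _ then _ else _
    rw [if_neg hne]
  | some r =>
    show τ.nc w k (some r) = if τ.cls (some r) = τ.cls (some (q univ w)) ∧ (τ.oc w k (some r)).isSome = true then
      some w else τ.oc w k (some r)
    by_cases hk : k ∈ τ.DD (some r)
    · have h1 : τ.nc w k (some r) = none := if_pos hk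
      have h2 : τ.oc w k (some r) = none := if_pos hk
      rw [h1, h2]
      simp
    · have h1 : τ.nc w k (some r) = some (τ.an (some r) w) := if_neg hk
      have h2 : τ.oc w k (some r) = some (τ.an (some r) (q (τ.DD (some r)) w)) := if_neg hk
      rw [h1, h2]
      by_cases h0 : τ.cl = 0
      · have h3 : τ.an (some r) w = w := by simp [Ty.an, h, h0]
        rw [h3, if_pos]
        exact ⟨by simp [Ty.cls, h0], rfl⟩
      · by_cases hr : r = q univ w
        · subst hr
          rw [an_self τ h hw, if_pos ⟨rfl, rfl⟩]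
        · rw [if_neg]
          · exact congrArg some (an_of_ne τ h0 hw (fun e => hr e.symm)).symm
          · rintro ⟨h4, _⟩
            simp only [Ty.cls, if_neg h0] at h4
            exact hr (Option.some.inj h4)

theorem mc_eq_const (τ : Ty Q) (h : τ.cB = true) {w : Nd Q} (k : Q.L) : τ.mc w k = τ.oc w k := by
  funext i
  cases i with
  | none => rfl
  | some r =>
    show (if k ∈ τ.DD (some r) then none else some (τ.an (some r) w)) =
      if k ∈ τ.DD (some r) then none else some (τ.an (some r) (q (τ.DD (some r)) w))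
    rw [an_const τ h r w (q (τ.DD (some r)) w)]

theorem nc_eq (τ : Ty Q) (h : τ.cA = false) {w : Nd Q} (k : Q.L) : τ.nc w k = τ.phic none w (τ.mc w k) := by
  funext i
  cases i with
  | none =>
    show τ.nc w k none = if τ.cls none = none ∧ (τ.oc w k none).isSome = true then some w else τ.oc w k none
    by_cases hk : k ∈ τ.DD none
    · have h1 : τ.nc w k none = none := if_pos hk
      have h2 : τ.oc w k none = none := if_pos hk
      rw [h1, h2]
      simp
    · have h1 : τ.nc w k none = some (τ.an none w) := if_neg hk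
      have h2 : τ.oc w k none = some (τ.an none (q (τ.DD none) w)) := if_neg hk
      rw [h1, h2, if_pos ⟨rfl, rfl⟩]
      simp [Ty.an, h]
  | some r =>
    show τ.nc w k (some r) = if τ.cls (some r) = none ∧ (τ.nc w k (some r)).isSome = true then some w
      else τ.nc w k (some r)
    rw [if_neg]
    rintro ⟨h1, _⟩
    simp only [Ty.cls] at h1
    split_ifs at h1

theorem nc_eq_const (τ : Ty Q) (h : τ.cA = true) {w : Nd Q} (k : Q.L) : τ.nc w k = τ.mc w k := by
  funext i
  cases i with
  | none =>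
    show (if k ∈ τ.DD none then none else some (τ.an none w)) =
      if k ∈ τ.DD none then none else some (τ.an none (q (τ.DD none) w))
    simp [Ty.an, h]
  | some r => rfl

/-- The coordinates of a class have the same levels. -/
theorem DD_of_cls (τ : Ty Q) {i i' : Option (Nd Q)} (h : τ.cls i = τ.cls i') : τ.DD i = τ.DD i' := by
  cases i with
  | none =>
    cases i' with
    | none => rfl
    | some r' =>
      simp only [Ty.cls] at h
      split_ifs at h
  | some r =>
    cases i' with
    | none =>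
      simp only [Ty.cls] at h
      split_ifs at h
    | some r' =>
      show τ.DB r = τ.DB r'
      by_cases h0 : τ.cl = 0
      · rw [τ.const h0 r, τ.const h0 r']
      · simp only [Ty.cls, if_neg h0] at h
        rw [Option.some.inj h]

/-- Old context: if `k` is below the continuity of the class then the change has no effect. -/
theorem phic_oc_of_mem (τ : Ty Q) {κ : Option (Nd Q)} {i₀ : Option (Nd Q)} (hκ : τ.cls i₀ = κ) {w : Nd Q} {k : Q.L}
    (hk : k ∈ τ.DD i₀) (x : Nd Q) : τ.phic κ x (τ.oc w k) = τ.oc w k := by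
  funext i
  show (if τ.cls i = κ ∧ (τ.oc w k i).isSome = true then some x else τ.oc w k i) = τ.oc w k i
  rw [if_neg]
  rintro ⟨h1, h2⟩
  have h3 : k ∈ τ.DD i := by
    rw [DD_of_cls τ (h1.trans hκ.symm)]
    exact hk
  have h4 : τ.oc w k i = none := if_pos h3
  rw [h4] at h2
  cases h2

theorem phic_mc_of_mem (τ : Ty Q) {w : Nd Q} {k : Q.L} (hk : k ∈ τ.DA) (x : Nd Q) :
    τ.phic none x (τ.mc w k) = τ.mc w k := by
  funext i
  show (if τ.cls i = none ∧ (τ.mc w k i).isSome = true then some x else τ.mc w k i) = τ.mc w k i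
  rw [if_neg]
  rintro ⟨h1, h2⟩
  cases i with
  | none =>
    have h4 : τ.mc w k none = none := if_pos hk
    rw [h4] at h2
    cases h2
  | some r =>
    simp only [Ty.cls] at h1
    split_ifs at h1

/-- The states in which the coordinates of the class `κ` are set, after a drop at a level outside `D₀`. -/
def Gd (τ : Ty Q) (κ : Option (Nd Q)) (D₀ : Set Q.L) : Sta Q → Prop
  | .A k _ c => (∃ e : Q.L, k = e ∧ e ≠ ⊤ ∧ e ∉ D₀) ∧ ∀ i, τ.cls i = κ → (c i).isSome = true
  | .D _ _ c => ∀ i, τ.cls i = κ → (c i).isSome = true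
  | .S _ _ => True
  | .E => True

/-- MODULE st6 (size 1): `Gd` is closed under transitions (`D₀` a lower set); transitions commute with `phi` on `Gd`: for `Gd σ`, every transition from `phi σ` is `phi` of a transition from `σ`. -/
theorem clo_Gd (τ : Ty Q) (κ : Option (Nd Q)) {D₀ : Set Q.L} (hD : IsLowerSet D₀) :
    Clo (TT τ) {σ | Gd τ κ D₀ σ} := by
  have hupd : ∀ (k : Q.L) (c : Ctx Q) (p : Nd Q), (∀ i, τ.cls i = κ → (c i).isSome = true) →
      ∀ i, τ.cls i = κ → (τ.upd k c p i).isSome = true := by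
    intro k c p h i hi
    obtain ⟨z, hz⟩ := Option.isSome_iff_exists.1 (h i hi)
    have : τ.upd k c p i = some z := by simp only [Ty.upd, hz]
    rw [this]
    rfl
  intro σ hσ σ' hσ'
  cases σ with
  | A k p c =>
    obtain ⟨⟨e, he, het, heD⟩, hc⟩ := hσ
    rcases (mem_trs_A (τ := τ) (k := k) (p := p) (c := c) (σ := σ')).1 hσ' with ⟨y, hy, rfl⟩ | rfl | ⟨r, _, rfl⟩
    · refine ⟨⟨y.1, rfl, hy.2.1, fun hD' => heD (hD ?_ hD')⟩, hupd _ _ _ hc⟩
      have h1 : k ≤ (y.1 : WithBot Q.L) := hy.1
      rw [he] at h1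
      exact WithBot.coe_le_coe.1 h1
    · exact hupd _ _ _ hc
    · exact hupd _ _ _ hc
  | D r v c =>
    rcases (mem_trs_D (τ := τ) (r := r) (v := v) (c := c) (σ := σ')).1 hσ' with rfl | ⟨r', _, rfl⟩
    · exact trivial
    · exact hσ
  | S r x =>
    have h1 : σ' = Sta.E := (mem_trs_S (τ := τ) (r := r) (x := x)).1 hσ'
    rw [h1]
    exact trivial
  | E => exact absurd hσ' (Finset.notMem_empty _)

theorem trs_phi (τ : Ty Q) (κ : Option (Nd Q)) (D₀ : Set Q.L) (x : Nd Q) {σ : Sta Q} (h : Gd τ κ D₀ σ) :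
    ∀ σ' ∈ trs τ (τ.phi κ x σ), ∃ σ'' ∈ trs τ σ, τ.phi κ x σ'' = σ' := by
  have hupd : ∀ (k : Q.L) (c : Ctx Q) (p : Nd Q), (∀ i, τ.cls i = κ → (c i).isSome = true) →
      τ.phic κ x (τ.upd k c p) = τ.upd k (τ.phic κ x c) p := by
    intro k c p h
    funext i
    by_cases hi : τ.cls i = κ
    · obtain ⟨z, hz⟩ := Option.isSome_iff_exists.1 (h i hi)
      simp [Ty.phic, Ty.upd, hi, hz]
    · simp [Ty.phic, Ty.upd, hi]
  intro σ' hσ'
  cases σ with
  | A k p c =>
    obtain ⟨_, hc⟩ := h
    rcases mem_trs_A.1 hσ' with ⟨y, hy, rfl⟩ | rfl | ⟨r, hr, rfl⟩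
    · refine ⟨_, mem_trs_A.2 (Or.inl ⟨y, hy, rfl⟩), ?_⟩
      simp only [Ty.phi, hupd _ _ _ hc]
    · refine ⟨_, mem_trs_A.2 (Or.inr (Or.inl rfl)), ?_⟩
      simp only [Ty.phi, hupd _ _ _ hc]
    · refine ⟨_, mem_trs_A.2 (Or.inr (Or.inr ⟨r, hr, rfl⟩)), ?_⟩
      simp only [Ty.phi, hupd _ _ _ hc]
  | D r v c =>
    rcases mem_trs_D.1 hσ' with rfl | ⟨r', hr', rfl⟩
    · refine ⟨_, mem_trs_D.2 (Or.inl rfl), ?_⟩
      by_cases hκ : κ = none
      · obtain ⟨z, hz⟩ := Option.isSome_iff_exists.1 (h none (by rw [hκ]; rfl))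
        subst hκ
        simp [Ty.phi, Ty.phic, Ty.cls, hz]
      · have h1 : ¬ (τ.cls none = κ ∧ (c none).isSome = true) := fun h2 => hκ h2.1.symm
        simp [Ty.phi, Ty.phic, hκ, h1]
    · exact ⟨_, mem_trs_D.2 (Or.inr ⟨r', hr', rfl⟩), rfl⟩
  | S r y =>
    have h1 : σ' = Sta.E := by
      by_cases hκ : κ = none
      · simp only [Ty.phi, if_pos hκ] at hσ'
        exact (mem_trs_S (τ := τ) (r := r) (x := x)).1 hσ'
      · simp only [Ty.phi, if_neg hκ] at hσ'
        exact (mem_trs_S (τ := τ) (r := r) (x := y)).1 hσ'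
    exact ⟨Sta.E, mem_trs_S.2 rfl, h1.symm⟩
  | E => exact absurd hσ' (Finset.notMem_empty _)

/-- `oc w k` sets all the coordinates of the class of `i₀` if `k ∉ DD i₀`. -/
theorem Gd_oc (τ : Ty Q) {κ : Option (Nd Q)} {i₀ : Option (Nd Q)} (hκ : τ.cls i₀ = κ) {w : Nd Q} {k : Q.L}
    (hk : k ∉ τ.DD i₀) (i : Option (Nd Q)) (hi : τ.cls i = κ) : (τ.oc w k i).isSome = true := by
  have h3 : k ∉ τ.DD i := by
    rw [DD_of_cls τ (hi.trans hκ.symm)]
    exact hk
  have h4 : τ.oc w k i = some (τ.an i (q (τ.DD i) w)) := if_neg h3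
  rw [h4]
  rfl

end Pool.Agent.Bsw
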